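import Pool.Agent.W_1b8d5d_nd.Mod

/-!
MP_1b8d5d_pr, [ND]: medians, vertices, configurations (section 3). One file, so that the proofs are elaborated in parallel;
one section for each of the former files.
-/

/-! ### Med1 -/

section

/-!
MP_1b8d5d_pr, [ND]: elementary consequences of `GoodN`: shifts, means and medians; the constants of the vertex.
-/

set_option autoImplicit false

namespace Pool.Agent.W_1b8d5d_nd

open Finset Filter Topology
open Pool.Agent.W_1b8d5d_h85 (Ex Pr Vr avg)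

variable {d : ℕ} [NeZero d] {Q : Qn} {m : V d → ℝ} {p : ℕ} {a h : ℝ} {M : Mdl d a h}

theorem sg_mono {h r r' : ℝ} (h1 : 1 ≤ h) (hr : r ≤ r') : sg h r ≤ sg h r' := by
  unfold sg
  have h2 : 0 ≤ h ^ 4 := by positivity
  have h3 := mul_le_mul_of_nonneg_left (Real.sqrt_le_sqrt hr) h2
  linarith

theorem le_sg {h : ℝ} (h1 : 1 ≤ h) (r : ℝ) : h ^ 11 ≤ sg h r := by
  unfold sg
  have h2 : 0 ≤ h ^ 4 := by positivity
  have h3 := mul_nonneg h2 (Real.sqrt_nonneg r)
  linarith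

theorem er_mono {h r r' : ℝ} (h1 : 1 ≤ h) (hr : r ≤ r') : er h r ≤ er h r' := by
  unfold er
  have h0 : 0 ≤ h := by linarith
  have h2 : 0 ≤ h ^ 7 := by positivity
  have h3 := mul_le_mul_of_nonneg_left (Real.sqrt_le_sqrt hr) h2
  linarith

theorem er_nonneg {h r : ℝ} (h1 : 1 ≤ h) : 0 ≤ er h r := by
  unfold er
  have h0 : 0 ≤ h := by linarith
  have h2 : 0 ≤ h ^ 7 := by positivity
  have h3 : 0 ≤ h ^ 12 := by positivity
  have h4 := mul_nonneg h2 (Real.sqrt_nonneg r)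
  linarith

theorem P_sh (hM : GoodN Q m p M) (z : V d) (q : Env d → Prop) : M.P (fun τ => q (sh z τ)) = M.P q := by
  rw [M.P_def, M.P_def]
  exact hM.inv z fun τ => @ite ℝ (q τ) (Classical.propDecidable _) 1 0

theorem P_rf (hM : GoodN Q m p M) (q : Env d → Prop) : M.P (fun τ => q (rf τ)) = M.P q := by
  rw [M.P_def, M.P_def]
  exact hM.rfl' fun τ => @ite ℝ (q τ) (Classical.propDecidable _) 1 0

/-- The passage time from `x` to `z` has the law of the passage time from `0` to `z - x`. -/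
theorem P_T_sub (hM : GoodN Q m p M) (x z : V d) (q : ℝ → Prop) :
    M.P (fun τ => q (T τ x z)) = M.P (fun τ => q (T τ 0 (z - x))) := by
  have h1 : ∀ τ : Env d, T τ x z = T (sh x τ) 0 (z - x) := fun τ => by
    rw [T_sh, zero_add, sub_add_cancel]
  have h2 : (fun τ => q (T τ x z)) = fun τ => q (T (sh x τ) 0 (z - x)) := by
    funext τ
    rw [h1 τ]
  rw [h2]
  exact P_sh hM x fun τ => q (T τ 0 (z - x))

theorem E_T_sub (hM : GoodN Q m p M) (x z : V d) :
    M.E (fun τ => T τ x z) = M.E (fun τ => T τ 0 (z - x)) := by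
  have h1 : ∀ τ : Env d, T τ x z = T (sh x τ) 0 (z - x) := fun τ => by
    rw [T_sh, zero_add, sub_add_cancel]
  have h2 : (fun τ => T τ x z) = fun τ => T (sh x τ) 0 (z - x) := funext h1
  rw [h2]
  exact hM.inv x fun τ => T τ 0 (z - x)

theorem E_T_neg (hM : GoodN Q m p M) (z : V d) :
    M.E (fun τ => T τ 0 (-z)) = M.E (fun τ => T τ 0 z) := by
  have h2 : (fun τ => T τ 0 (-z)) = fun τ => T (rf τ) 0 z := by
    funext τ
    rw [T_rf, neg_zero]
  rw [h2]
  exact hM.rfl' fun τ => T τ 0 z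

theorem E_T_add (hM : GoodN Q m p M) (x z : V d) :
    M.E (fun τ => T τ 0 (x + z)) ≤ M.E (fun τ => T τ 0 x) + M.E (fun τ => T τ 0 z) := by
  have h1 := E_T_sub hM x (x + z)
  rw [add_sub_cancel_left] at h1
  rw [← h1, ← M.E_add]
  exact M.E_mono fun τ hτ => T_triangle hτ hM.apos.le 0 x (x + z)

theorem E_T_nsmul (hM : GoodN Q m p M) (k : ℕ) (z : V d) :
    M.E (fun τ => T τ 0 (k • z)) ≤ k * M.E (fun τ => T τ 0 z) := by
  induction k with
  | zero =>
    rw [zero_smul, Nat.cast_zero, zero_mul]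
    exact M.E_le_of_le fun τ hτ => (T_self hτ hM.apos.le 0).le
  | succ k ih =>
    rw [succ_nsmul]
    have h1 := E_T_add hM (k • z) z
    push_cast
    linarith

/-- Crude bound. -/
theorem E_T_le (hM : GoodN Q m p M) (z : V d) : M.E (fun τ => T τ 0 z) ≤ h * nm z := by
  refine M.E_le_of_le fun τ hτ => ?_
  have h1 := T_upper hτ hM.apos.le 0 z
  rwa [sub_zero] at h1

/-- Means and medians. PROOF: with `σ = sg h (nm z)`, Chebyshev (`Mdl.chebyshev`, field `var`) gives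
`P(|T - E T| ≥ 2 σ) ≤ 1/4 < 49/100`, so `E T ≤ m z + h + 2 σ` (field `medU`) and `m z - h - 2 σ ≤ E T` (field `medL`);
`h ≤ h ^ 11 ≤ σ`. -/
theorem mean_med (hM : GoodN Q m p M) (h1 : 1 ≤ h) (z : V d) (hz : nm z ≤ h ^ p) :
    |M.E (fun τ => T τ 0 z) - m z| ≤ 3 * sg h (nm z) := by
  have hs1 : h ≤ sg h (nm z) := by
    have h2 : h ^ 1 ≤ h ^ 11 := pow_le_pow_right₀ h1 (by norm_num)
    rw [pow_one] at h2
    exact h2.trans (le_sg h1 _)
  have hs0 : 0 < sg h (nm z) := by linarith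
  set σ : ℝ := sg h (nm z) with hσ
  have hch : M.P (fun τ => 2 * σ ≤ |T τ 0 z - M.E (fun τ => T τ 0 z)|) ≤ 1 / 4 := by
    refine (M.chebyshev (fun τ => T τ 0 z) (s := 2 * σ) (by linarith)).trans ?_
    rw [div_le_iff₀ (by positivity)]
    have h3 := hM.var z hz
    rw [← hσ] at h3
    refine h3.trans ?_
    nlinarith [sq_nonneg σ]
  rw [abs_le]
  constructor
  · by_contra hcon
    push Not at hcon
    have h3 := hM.medL z hz
    have h4 : M.P (fun τ => m z - h ≤ T τ 0 z) ≤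
        M.P (fun τ => 2 * σ ≤ |T τ 0 z - M.E (fun τ => T τ 0 z)|) := by
      refine M.P_mono fun τ _ h5 => ?_
      refine le_trans ?_ (le_abs_self _)
      linarith
    linarith
  · by_contra hcon
    push Not at hcon
    have h3 := hM.medU z hz
    have h4 : M.P (fun τ => T τ 0 z ≤ m z + h) ≤
        M.P (fun τ => 2 * σ ≤ |T τ 0 z - M.E (fun τ => T τ 0 z)|) := by
      refine M.P_mono fun τ _ h5 => ?_
      have h6 := neg_abs_le (T τ 0 z - M.E (fun τ => T τ 0 z))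
      linarith
    linarith

theorem low_med (hM : GoodN Q m p M) (h1 : 1 ≤ h) (z : V d) (hz : nm z ≤ h ^ p) :
    M.P (fun τ => T τ 0 z ≤ m z - 4 * sg h (nm z)) ≤ Real.exp (-h) := by
  have h2 := abs_le.1 (mean_med hM h1 z hz)
  refine le_trans (M.P_mono fun τ _ h3 => ?_) (hM.low z hz)
  linarith [h2.1]

end Pool.Agent.W_1b8d5d_nd

end

/-! ### VtxL -/

section

/-!
MP_1b8d5d_pr, [ND]: elementary lemmas on the data of a vertex.
-/

set_option autoImplicit false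

namespace Pool.Agent.W_1b8d5d_nd

open Finset Filter Topology
open Pool.Agent.W_1b8d5d_h85 (Ex Pr Vr avg)

variable {d : ℕ} [NeZero d] {X : Vtx d} {μ : (Fin d → ℝ) → ℝ}

namespace Vtx

theorem gg_add (x z : V d) : X.gg (x + z) = X.gg x + X.gg z := by
  simp only [Vtx.gg, toR_add, dp_add]

theorem gg_sub (x z : V d) : X.gg (x - z) = X.gg x - X.gg z := by
  simp only [Vtx.gg, toR_sub, dp_sub]

theorem gg_neg (x : V d) : X.gg (-x) = -X.gg x := by
  simp only [Vtx.gg, toR_neg, dp_neg]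

theorem gg_zero : X.gg 0 = 0 := by
  simp only [Vtx.gg, toR_zero, dp_zero]

theorem ff_add (i : Fin X.N) (x z : V d) : X.ff i (x + z) = X.ff i x + X.ff i z := by
  simp only [Vtx.ff, toR_add, dp_add]

theorem ff_sub (i : Fin X.N) (x z : V d) : X.ff i (x - z) = X.ff i x - X.ff i z := by
  simp only [Vtx.ff, toR_sub, dp_sub]

theorem ff_neg (i : Fin X.N) (x : V d) : X.ff i (-x) = -X.ff i x := by
  simp only [Vtx.ff, toR_neg, dp_neg]

theorem ff_zero (i : Fin X.N) : X.ff i 0 = 0 := by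
  simp only [Vtx.ff, toR_zero, dp_zero]

theorem lat_nonneg (x : V d) : 0 ≤ X.lat x := by
  exact rn_nonneg _

theorem lat_zero : X.lat 0 = 0 := by
  rw [Vtx.lat, gg_zero, toR_zero, zero_smul, sub_zero, rn_zero]

theorem lat_neg (x : V d) : X.lat (-x) = X.lat x := by
  rw [Vtx.lat, Vtx.lat, gg_neg, toR_neg, neg_smul, ← rn_neg]
  congr 1
  abel

theorem lat_add_le (x z : V d) : X.lat (x + z) ≤ X.lat x + X.lat z := by
  have h1 : toR (x + z) - X.gg (x + z) • X.v = (toR x - X.gg x • X.v) + (toR z - X.gg z • X.v) := by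
    rw [gg_add, toR_add, add_smul]
    abel
  rw [Vtx.lat, h1]
  exact rn_add_le _ _

theorem lat_sub_le (x z : V d) : X.lat (x - z) ≤ X.lat x + X.lat z := by
  have h1 := lat_add_le (X := X) x (-z)
  rwa [lat_neg, ← sub_eq_add_neg] at h1

theorem abs_lat_sub (x z : V d) : |X.lat x - X.lat z| ≤ X.lat (x - z) := by
  have h1 := lat_add_le (X := X) (x - z) z
  have h2 := lat_add_le (X := X) (z - x) x
  rw [sub_add_cancel] at h1 h2
  have h3 : X.lat (z - x) = X.lat (x - z) := by rw [← lat_neg, neg_sub]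
  rw [abs_le]
  constructor <;> linarith

end Vtx

/-! ### The constant `X.C` -/

/-- The second factor of `X.C`. -/
noncomputable def VtxL_B (X : Vtx d) : ℝ := 1 + rn X.g + ∑ i, rn (X.f i)

theorem VtxL_facts (hX : IsVtx X μ) : 1 ≤ 1 + (d : ℝ) ∧ 1 ≤ VtxL_B X ∧ 1 ≤ 1 + rn X.v ∧ 1 ≤ 1 + 1 / X.c ∧
    X.C = 4 * ((1 + (d : ℝ)) * VtxL_B X * (1 + rn X.v) * (1 + 1 / X.c)) := by
  refine ⟨?_, ?_, ?_, ?_, ?_⟩
  · have := Nat.cast_nonneg (α := ℝ) d
    linarith
  · unfold VtxL_B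
    have h1 := rn_nonneg X.g
    have h2 : 0 ≤ ∑ i, rn (X.f i) := sum_nonneg fun i _ => rn_nonneg _
    linarith
  · have := rn_nonneg X.v
    linarith
  · have := one_div_pos.2 hX.cpos
    linarith
  · unfold Vtx.C VtxL_B
    ring

theorem VtxL_le_C (hX : IsVtx X μ) : (1 + (d : ℝ)) * VtxL_B X * (1 + rn X.v) * (1 + 1 / X.c) ≤ X.C := by
  obtain ⟨hA, hB, hV, hK, hC⟩ := VtxL_facts hX
  rw [hC]
  have h1 : 1 ≤ (1 + (d : ℝ)) * VtxL_B X := by nlinarith
  have h2 : 1 ≤ (1 + (d : ℝ)) * VtxL_B X * (1 + rn X.v) := by nlinarith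
  have h3 : 1 ≤ (1 + (d : ℝ)) * VtxL_B X * (1 + rn X.v) * (1 + 1 / X.c) := by nlinarith
  linarith

theorem VtxL_ABV (hX : IsVtx X μ) : (1 + (d : ℝ)) * VtxL_B X * (1 + rn X.v) ≤ X.C := by
  obtain ⟨hA, hB, hV, hK, -⟩ := VtxL_facts hX
  refine le_trans ?_ (VtxL_le_C hX)
  have h2 : 0 ≤ (1 + (d : ℝ)) * VtxL_B X * (1 + rn X.v) := by positivity
  exact le_mul_of_one_le_right h2 hK

theorem VtxL_AB (hX : IsVtx X μ) : (1 + (d : ℝ)) * VtxL_B X ≤ X.C := by
  obtain ⟨hA, hB, hV, hK, -⟩ := VtxL_facts hX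
  refine le_trans ?_ (VtxL_ABV hX)
  have h2 : 0 ≤ (1 + (d : ℝ)) * VtxL_B X := by positivity
  exact le_mul_of_one_le_right h2 hV

theorem VtxL_BV (hX : IsVtx X μ) : VtxL_B X * (1 + rn X.v) ≤ X.C := by
  obtain ⟨hA, hB, hV, hK, -⟩ := VtxL_facts hX
  refine le_trans ?_ (VtxL_ABV hX)
  have h2 : 0 ≤ VtxL_B X * (1 + rn X.v) := by positivity
  rw [mul_assoc]
  exact le_mul_of_one_le_left h2 hA

theorem VtxL_B_le (hX : IsVtx X μ) : VtxL_B X ≤ X.C := by
  obtain ⟨hA, hB, hV, hK, -⟩ := VtxL_facts hX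
  refine le_trans ?_ (VtxL_AB hX)
  exact le_mul_of_one_le_left (by linarith) hA

theorem VtxL_VK (hX : IsVtx X μ) : (1 + rn X.v) * (1 + 1 / X.c) ≤ X.C := by
  obtain ⟨hA, hB, hV, hK, -⟩ := VtxL_facts hX
  refine le_trans ?_ (VtxL_le_C hX)
  have h1 : 1 ≤ (1 + (d : ℝ)) * VtxL_B X := by nlinarith
  have h2 : 0 ≤ (1 + rn X.v) * (1 + 1 / X.c) := by positivity
  calc (1 + rn X.v) * (1 + 1 / X.c) ≤ ((1 + (d : ℝ)) * VtxL_B X) * ((1 + rn X.v) * (1 + 1 / X.c)) :=
        le_mul_of_one_le_left h2 h1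
    _ = _ := by ring

theorem VtxL_V_le (hX : IsVtx X μ) : 1 + rn X.v ≤ X.C := by
  obtain ⟨hA, hB, hV, hK, -⟩ := VtxL_facts hX
  exact (le_mul_of_one_le_right (by linarith) hK).trans (VtxL_VK hX)

theorem VtxL_rn_g (X : Vtx d) : 1 + rn X.g ≤ VtxL_B X := by
  unfold VtxL_B
  have h2 : 0 ≤ ∑ i, rn (X.f i) := sum_nonneg fun i _ => rn_nonneg _
  linarith

theorem VtxL_rn_f (X : Vtx d) (i : Fin X.N) : 1 + rn (X.f i) ≤ VtxL_B X := by
  unfold VtxL_B
  have h1 := rn_nonneg X.g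
  have h2 : rn (X.f i) ≤ ∑ i, rn (X.f i) := single_le_sum (f := fun j => rn (X.f j)) (fun j _ => rn_nonneg _) (mem_univ i)
  linarith

theorem VtxL_rd (X : Vtx d) (α : ℝ) : ∃ δ : Fin d → ℝ, rn δ ≤ d ∧ toR (X.rd α) = α • X.v + δ := by
  refine ⟨toR (X.rd α) - α • X.v, rnd_near _, ?_⟩
  abel

theorem one_le_C (hX : IsVtx X μ) : 4 ≤ X.C := by
  obtain ⟨hA, hB, hV, hK, hC⟩ := VtxL_facts hX
  rw [hC]
  have h1 : 1 ≤ (1 + (d : ℝ)) * VtxL_B X := by nlinarith
  have h2 : 1 ≤ (1 + (d : ℝ)) * VtxL_B X * (1 + rn X.v) := by nlinarith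
  have h3 : 1 ≤ (1 + (d : ℝ)) * VtxL_B X * (1 + rn X.v) * (1 + 1 / X.c) := by nlinarith
  linarith

theorem inv_c_le_C (hX : IsVtx X μ) : 1 / X.c ≤ X.C := by
  obtain ⟨hA, hB, hV, hK, -⟩ := VtxL_facts hX
  have h1 := VtxL_VK hX
  have h2 := one_div_pos.2 hX.cpos
  nlinarith

theorem abs_gg_le (hX : IsVtx X μ) (x : V d) : |X.gg x| ≤ X.C * nm x := by
  have h1 := abs_dp_le X.g (toR x)
  rw [← nm_eq_rn] at h1
  refine h1.trans (mul_le_mul_of_nonneg_right ?_ (nm_nonneg x))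
  have h2 := VtxL_rn_g X
  have h3 := VtxL_B_le hX
  linarith

theorem lat_le (hX : IsVtx X μ) (x : V d) : X.lat x ≤ X.C * nm x := by
  have h1 : X.lat x ≤ nm x + |X.gg x| * rn X.v := by
    rw [nm_eq_rn, ← rn_smul]
    exact rn_sub_le _ _
  have h2 : |X.gg x| ≤ rn X.g * nm x := abs_dp_le X.g (toR x)
  have h3 := VtxL_rn_g X
  have h4 := VtxL_BV hX
  have h5 := rn_nonneg X.v
  have h6 := rn_nonneg X.g
  have h7 := nm_nonneg x
  have h8 : (1 + rn X.g) * (1 + rn X.v) ≤ VtxL_B X * (1 + rn X.v) := mul_le_mul_of_nonneg_right h3 (by linarith)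
  have h9 : |X.gg x| * rn X.v ≤ rn X.g * nm x * rn X.v := mul_le_mul_of_nonneg_right h2 h5
  have h10 : (1 + rn X.g * rn X.v) * nm x ≤ X.C * nm x := by
    refine mul_le_mul_of_nonneg_right ?_ h7
    nlinarith
  nlinarith

theorem abs_ff_le (hX : IsVtx X μ) (i : Fin X.N) (x : V d) : |X.ff i x| ≤ X.C * nm x := by
  have h1 := abs_dp_le (X.f i) (toR x)
  rw [← nm_eq_rn] at h1
  refine h1.trans (mul_le_mul_of_nonneg_right ?_ (nm_nonneg x))
  have h2 := VtxL_rn_f X i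
  have h3 := VtxL_B_le hX
  linarith

theorem nm_le (hX : IsVtx X μ) (x : V d) : nm x ≤ X.C * (|X.gg x| + X.lat x) := by
  have h1 : nm x ≤ X.lat x + |X.gg x| * rn X.v := by
    rw [nm_eq_rn, ← rn_smul]
    calc rn (toR x) = rn ((toR x - X.gg x • X.v) + X.gg x • X.v) := by rw [sub_add_cancel]
      _ ≤ _ := rn_add_le _ _
  have h2 := VtxL_V_le hX
  have h3 := rn_nonneg X.v
  have h4 := abs_nonneg (X.gg x)
  have h5 := Vtx.lat_nonneg (X := X) x
  have h6 : (1 + rn X.v) * (|X.gg x| + X.lat x) ≤ X.C * (|X.gg x| + X.lat x) :=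
    mul_le_mul_of_nonneg_right h2 (by linarith)
  nlinarith

theorem gg_rd (hX : IsVtx X μ) (α : ℝ) : |X.gg (X.rd α) - α| ≤ X.C := by
  obtain ⟨δ, h1, h2⟩ := VtxL_rd X α
  have h3 : X.gg (X.rd α) - α = dp X.g δ := by
    rw [Vtx.gg, h2, dp_add, dp_smul, hX.gv]
    ring
  rw [h3]
  refine (abs_dp_le _ _).trans ?_
  have h4 := VtxL_rn_g X
  have h5 := VtxL_AB hX
  have h6 := rn_nonneg X.g
  have h7 := Nat.cast_nonneg (α := ℝ) d
  have h8 : rn X.g * rn δ ≤ rn X.g * d := mul_le_mul_of_nonneg_left h1 h6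
  nlinarith

theorem lat_rd (hX : IsVtx X μ) (α : ℝ) : X.lat (X.rd α) ≤ X.C := by
  obtain ⟨δ, h1, h2⟩ := VtxL_rd X α
  have h3 : toR (X.rd α) - X.gg (X.rd α) • X.v = δ - dp X.g δ • X.v := by
    rw [Vtx.gg, h2, dp_add, dp_smul, hX.gv, add_smul, mul_one]
    abel
  have h4 : X.lat (X.rd α) ≤ rn δ + |dp X.g δ| * rn X.v := by
    rw [Vtx.lat, h3, ← rn_smul]
    exact rn_sub_le _ _
  have h5 := abs_dp_le X.g δ
  have h6 := rn_nonneg X.g
  have h7 := rn_nonneg X.v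
  have h8 := VtxL_rn_g X
  have h9 := VtxL_ABV hX
  have h10 := Nat.cast_nonneg (α := ℝ) d
  have h11 : rn X.g * rn δ ≤ rn X.g * d := mul_le_mul_of_nonneg_left h1 h6
  have h12 : |dp X.g δ| * rn X.v ≤ rn X.g * d * rn X.v := mul_le_mul_of_nonneg_right (h5.trans h11) h7
  have h13 : (1 + (d : ℝ)) * (1 + rn X.g) * (1 + rn X.v) ≤ (1 + (d : ℝ)) * VtxL_B X * (1 + rn X.v) :=
    mul_le_mul_of_nonneg_right (mul_le_mul_of_nonneg_left h8 (by linarith)) (by linarith)
  have h14 : (d : ℝ) + rn X.g * d * rn X.v ≤ (1 + (d : ℝ)) * (1 + rn X.g) * (1 + rn X.v) := by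
    have e : (1 + (d : ℝ)) * (1 + rn X.g) * (1 + rn X.v) = (d + rn X.g * d * rn X.v) +
      (1 + rn X.g + rn X.v + d * rn X.g + d * rn X.v + rn X.g * rn X.v) := by ring
    rw [e]
    have : 0 ≤ 1 + rn X.g + rn X.v + d * rn X.g + d * rn X.v + rn X.g * rn X.v := by positivity
    linarith
  linarith

theorem ff_rd (hX : IsVtx X μ) (i : Fin X.N) (α : ℝ) : |X.ff i (X.rd α) - α| ≤ X.C := by
  obtain ⟨δ, h1, h2⟩ := VtxL_rd X α
  have h3 : X.ff i (X.rd α) - α = dp (X.f i) δ := by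
    rw [Vtx.ff, h2, dp_add, dp_smul, (hX.cheap i).one]
    ring
  rw [h3]
  refine (abs_dp_le _ _).trans ?_
  have h4 := VtxL_rn_f X i
  have h5 := VtxL_AB hX
  have h6 := rn_nonneg (X.f i)
  have h7 := Nat.cast_nonneg (α := ℝ) d
  have h8 : rn (X.f i) * rn δ ≤ rn (X.f i) * d := mul_le_mul_of_nonneg_left h1 h6
  nlinarith

theorem nm_rd (hX : IsVtx X μ) (α : ℝ) : nm (X.rd α) ≤ X.C * (|α| + 1) := by
  obtain ⟨δ, h1, h2⟩ := VtxL_rd X α
  have h3 : nm (X.rd α) ≤ |α| * rn X.v + d := by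
    rw [nm_eq_rn, h2]
    refine (rn_add_le _ _).trans ?_
    rw [rn_smul]
    linarith
  have h4 := VtxL_ABV hX
  have h5 := (VtxL_facts hX).2.1
  have h6 := rn_nonneg X.v
  have h7 := Nat.cast_nonneg (α := ℝ) d
  have h8 := abs_nonneg α
  have h9 : (1 + (d : ℝ)) * (1 + rn X.v) ≤ (1 + (d : ℝ)) * VtxL_B X * (1 + rn X.v) :=
    mul_le_mul_of_nonneg_right (le_mul_of_one_le_right (by linarith) h5) (by linarith)
  have h10 : (1 + (d : ℝ)) * (1 + rn X.v) * (|α| + 1) ≤ X.C * (|α| + 1) :=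
    mul_le_mul_of_nonneg_right (h9.trans h4) (by linarith)
  have h11 : |α| * rn X.v + d ≤ (1 + (d : ℝ)) * (1 + rn X.v) * (|α| + 1) := by
    have e : (1 + (d : ℝ)) * (1 + rn X.v) * (|α| + 1) = (|α| * rn X.v + d) +
      (1 + |α| + rn X.v + d * |α| + d * rn X.v + d * rn X.v * |α|) := by ring
    rw [e]
    have : 0 ≤ 1 + |α| + rn X.v + d * |α| + d * rn X.v + d * rn X.v * |α| := by positivity
    linarith
  linarith

theorem nm_rd_sub (α β : ℝ) : nm (X.rd α + X.rd β - X.rd (α + β)) ≤ 3 * d := by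
  obtain ⟨δ₁, h1, h2⟩ := VtxL_rd X α
  obtain ⟨δ₂, h3, h4⟩ := VtxL_rd X β
  obtain ⟨δ₃, h5, h6⟩ := VtxL_rd X (α + β)
  have h7 : toR (X.rd α + X.rd β - X.rd (α + β)) = δ₁ + δ₂ - δ₃ := by
    rw [toR_sub, toR_add, h2, h4, h6, add_smul]
    abel
  rw [nm_eq_rn, h7]
  have h8 := rn_sub_le (δ₁ + δ₂) δ₃
  have h9 := rn_add_le δ₁ δ₂
  linarith

/-- `|f - g| ≤ C lat`. -/
theorem abs_ff_sub_gg (hX : IsVtx X μ) (i : Fin X.N) (x : V d) : |X.ff i x - X.gg x| ≤ X.C * X.lat x := by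
  have h1 : X.ff i x - X.gg x = dp (X.f i) (toR x - X.gg x • X.v) := by
    rw [dp_sub, dp_smul, (hX.cheap i).one, mul_one]
    rfl
  rw [h1]
  refine (abs_dp_le _ _).trans (mul_le_mul_of_nonneg_right ?_ (rn_nonneg _))
  have h2 := VtxL_rn_f X i
  have h3 := VtxL_B_le hX
  linarith

theorem spread_lattice (hX : IsVtx X μ) (x : V d) : ∃ i, X.gg x + X.c * X.lat x ≤ X.ff i x := by
  exact hX.spread (toR x)

/-- The steps of `ff` along an edge. -/
theorem ff_step (hX : IsVtx X μ) (i : Fin X.N) {x y : V d} (hxy : (grid d).Adj x y) : |X.ff i y - X.ff i x| ≤ X.C := by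
  have h1 := abs_ff_le hX i (y - x)
  rwa [Vtx.ff_sub, nm_adj hxy, mul_one] at h1

theorem gg_step (hX : IsVtx X μ) {x y : V d} (hxy : (grid d).Adj x y) : |X.gg y - X.gg x| ≤ X.C := by
  have h1 := abs_gg_le hX (y - x)
  rwa [Vtx.gg_sub, nm_adj hxy, mul_one] at h1

/-! ### Lower bounds for `μ` (symmetric) -/

variable (hs : ∀ x, μ (-x) = μ x)

include hs

theorem VtxL_mu (hX : IsVtx X μ) (x : Fin d → ℝ) : |dp X.g x| + X.c * rn (x - dp X.g x • X.v) ≤ μ x := by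
  obtain ⟨i, hi⟩ := hX.spread x
  obtain ⟨j, hj⟩ := hX.spread (-x)
  have h1 := (hX.cheap i).low x
  have h2 := (hX.cheap j).low (-x)
  rw [hs] at h2
  have h3 : rn (-x - dp X.g (-x) • X.v) = rn (x - dp X.g x • X.v) := by
    rw [dp_neg, neg_smul, ← rn_neg]
    congr 1
    abel
  rw [h3, dp_neg] at hj
  rcases abs_cases (dp X.g x) with h | h <;> rw [h.1] <;> linarith

theorem rn_le_mu (hX : IsVtx X μ) (x : Fin d → ℝ) : rn x ≤ X.C * μ x := by
  have h1 := VtxL_mu hs hX x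
  have hc := hX.cpos
  have h2 := rn_nonneg (x - dp X.g x • X.v)
  have h3 := abs_nonneg (dp X.g x)
  have h4 : 0 ≤ μ x := le_trans (by positivity) h1
  have h5 : rn x ≤ rn (x - dp X.g x • X.v) + |dp X.g x| * rn X.v := by
    rw [← rn_smul]
    calc rn x = rn ((x - dp X.g x • X.v) + dp X.g x • X.v) := by rw [sub_add_cancel]
      _ ≤ _ := rn_add_le _ _
  have h6 : rn (x - dp X.g x • X.v) ≤ 1 / X.c * μ x := by
    have h7 : X.c * rn (x - dp X.g x • X.v) ≤ μ x := by linarith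
    rw [div_mul_eq_mul_div, one_mul, le_div_iff₀ hc]
    linarith
  have h7 : |dp X.g x| ≤ μ x := by
    have : 0 ≤ X.c * rn (x - dp X.g x • X.v) := by positivity
    linarith
  have h8 := rn_nonneg X.v
  have h9 : |dp X.g x| * rn X.v ≤ μ x * rn X.v := mul_le_mul_of_nonneg_right h7 h8
  have h10 := VtxL_VK hX
  have h11 := one_div_pos.2 hc
  have h12 : 1 / X.c + rn X.v ≤ X.C := by
    have : 0 ≤ rn X.v * (1 / X.c) := by positivity
    nlinarith
  have h13 : (1 / X.c + rn X.v) * μ x ≤ X.C * μ x := mul_le_mul_of_nonneg_right h12 h4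
  nlinarith

theorem gl_le_mu (hX : IsVtx X μ) (x : V d) : |X.gg x| + X.c * X.lat x ≤ μ (toR x) := by
  exact VtxL_mu hs hX (toR x)

theorem ff_le_mu (hX : IsVtx X μ) (i : Fin X.N) (x : V d) : |X.ff i x| ≤ μ (toR x) := by
  have h1 := (hX.cheap i).low (toR x)
  have h2 := (hX.cheap i).low (-toR x)
  rw [hs, dp_neg] at h2
  rw [abs_le]
  constructor
  · change -μ (toR x) ≤ dp (X.f i) (toR x)
    linarith
  · exact h1

omit hs

/-! ### Windows and running maximum -/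

theorem bb_mono (m : V d → ℝ) : Monotone (bb X m) := by
  intro n n' h
  unfold bb
  apply Finset.sup'_mono
  exact Finset.range_subset_range.2 (by omega)

theorem one_le_bb (m : V d → ℝ) (n : ℕ) : 1 ≤ bb X m n := by
  unfold bb
  refine le_trans (le_max_left 1 (m (X.rd (0 : ℕ)) - ((0 : ℕ) : ℝ))) ?_
  exact Finset.le_sup' (fun l : ℕ => max 1 (m (X.rd l) - (l : ℝ))) (Finset.mem_range.2 (Nat.succ_pos n))

theorem med_le_bb (m : V d → ℝ) {l n : ℕ} (h : l ≤ n) : m (X.rd l) ≤ l + bb X m n := by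
  have h1 : max 1 (m (X.rd l) - (l : ℝ)) ≤ bb X m n := by
    unfold bb
    exact Finset.le_sup' (fun l : ℕ => max 1 (m (X.rd l) - (l : ℝ))) (Finset.mem_range.2 (by omega))
  have h2 := le_max_right 1 (m (X.rd l) - (l : ℝ))
  linarith

theorem Dw_mono {x₀ : V d} {R R' : ℝ} (h : R ≤ R') : X.Dw x₀ R ⊆ X.Dw x₀ R' := by
  intro x hx
  exact ⟨hx.1, hx.2.trans h⟩

theorem mem_Dw_sh {x₀ x y : V d} {R : ℝ} : x + y ∈ X.Dw (x₀ + y) R ↔ x ∈ X.Dw x₀ R := by
  unfold Vtx.Dw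
  simp only [Set.mem_ofPred_eq, add_sub_add_right_eq_sub]

theorem nm_of_mem_Dw (hX : IsVtx X μ) {x : V d} {R : ℝ} (h : x ∈ X.Dw 0 R) : nm x ≤ X.C * (4 * X.C + R) := by
  have h1 := nm_le hX x
  have h2 := h.1
  have h3 := h.2
  rw [sub_zero] at h2 h3
  have h4 := one_le_C hX
  refine h1.trans (mul_le_mul_of_nonneg_left ?_ (by linarith))
  linarith

end Pool.Agent.W_1b8d5d_nd

end

/-! ### Conf -/

section

/-!
MP_1b8d5d_pr, [ND]: confinement (deterministic, on the event `LT`), walks inside a set of edges.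
-/

set_option autoImplicit false

namespace Pool.Agent.W_1b8d5d_nd

open Finset Filter Topology
open Pool.Agent.W_1b8d5d_h85 (Ex Pr Vr avg)

variable {d : ℕ} [NeZero d] {X : Vtx d} {μ : (Fin d → ℝ) → ℝ}

theorem ce_nonneg {h s : ℝ} (h1 : 1 ≤ h) : 0 ≤ ce X h s := by
  unfold ce er
  have h0 : 0 ≤ h := by linarith
  positivity

theorem ce_mono (hX : IsVtx X μ) {h s s' : ℝ} (h1 : 1 ≤ h) (hs : s ≤ s') : ce X h s ≤ ce X h s' := by
  refine er_mono h1 ?_
  have hC := one_le_C hX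
  exact mul_le_mul_of_nonneg_left (by linarith) (by linarith)

/-- The error at the scale `h ^ k`. PROOF: `4 C (h ^ k + h ^ 16) ≤ h ^ (k + 1)` for `k ≥ 16`. -/
theorem ce_le (hX : IsVtx X μ) (k : ℕ) (hk : 16 ≤ k) : ∀ᶠ h : ℝ in atTop, ∀ s : ℝ, s ≤ h ^ k →
    ce X h s ≤ h ^ 8 * √(h ^ k) + h ^ 13 := by
  filter_upwards [eventually_ge_atTop (8 * X.C), eventually_ge_atTop (1 : ℝ)] with h h8 h1 s hs
  have hC := one_le_C hX
  have h0 : 0 ≤ h := by linarith
  have e1 : h ^ 16 ≤ h ^ k := pow_le_pow_right₀ h1 hk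
  have hk0 : 0 ≤ h ^ k := by positivity
  have e2 : 4 * X.C * (s + h ^ 16) ≤ h * h ^ k := by
    have e3 : 4 * X.C * (s + h ^ 16) ≤ 4 * X.C * (h ^ k + h ^ k) :=
      mul_le_mul_of_nonneg_left (by linarith) (by linarith)
    have e4 : 8 * X.C * h ^ k ≤ h * h ^ k := mul_le_mul_of_nonneg_right h8 hk0
    linarith
  have e6 : √(4 * X.C * (s + h ^ 16)) ≤ h * √(h ^ k) := by
    refine (Real.sqrt_le_sqrt e2).trans ?_
    rw [Real.sqrt_mul h0]
    refine mul_le_mul_of_nonneg_right ?_ (Real.sqrt_nonneg _)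
    rw [Real.sqrt_le_left h0]
    nlinarith
  unfold ce er
  have e7 : h ^ 7 * √(4 * X.C * (s + h ^ 16)) ≤ h ^ 7 * (h * √(h ^ k)) :=
    mul_le_mul_of_nonneg_left e6 (by positivity)
  have e8 : h ^ 7 * (h * √(h ^ k)) = h ^ 8 * √(h ^ k) := by ring
  have e9 : h ^ 12 ≤ h ^ 13 := pow_le_pow_right₀ h1 (by norm_num)
  linarith

/-- `ce` is small with respect to the distance. -/
theorem ce_le_eps (hX : IsVtx X μ) (ε : ℝ) (hε : 0 < ε) : ∀ᶠ h : ℝ in atTop, ∀ s : ℝ, h ^ 20 ≤ s →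
    ce X h s ≤ ε * s := by
  have hC := one_le_C hX
  filter_upwards [eventually_ge_atTop (8 * X.C), eventually_ge_atTop (1 : ℝ), eventually_ge_atTop (2 / ε)]
    with h h8 h1 hε2 s hs
  have h0 : 0 ≤ h := by linarith
  have hhε : 2 ≤ ε * h := by
    rw [div_le_iff₀ hε] at hε2
    linarith
  have hs0 : 0 ≤ s := le_trans (by positivity) hs
  have e1 : h ^ 16 ≤ s := (pow_le_pow_right₀ h1 (by norm_num)).trans hs
  have e2 : 4 * X.C * (s + h ^ 16) ≤ h * s := by
    have e3 : 4 * X.C * (s + h ^ 16) ≤ 4 * X.C * (s + s) :=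
      mul_le_mul_of_nonneg_left (by linarith) (by linarith)
    have e4 : 8 * X.C * s ≤ h * s := mul_le_mul_of_nonneg_right h8 hs0
    linarith
  have e6 : √(4 * X.C * (s + h ^ 16)) ≤ h * √s := by
    refine (Real.sqrt_le_sqrt e2).trans ?_
    rw [Real.sqrt_mul h0]
    refine mul_le_mul_of_nonneg_right ?_ (Real.sqrt_nonneg _)
    rw [Real.sqrt_le_left h0]
    nlinarith
  have q1 : h ^ 10 ≤ √s := by
    refine Real.le_sqrt_of_sq_le ?_
    rw [← pow_mul]
    exact hs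
  have q2 : √s * √s = s := Real.mul_self_sqrt hs0
  have q3 := Real.sqrt_nonneg s
  unfold ce er
  have e7 : h ^ 7 * √(4 * X.C * (s + h ^ 16)) ≤ h ^ 7 * (h * √s) :=
    mul_le_mul_of_nonneg_left e6 (by positivity)
  have e8 : h ^ 7 * (h * √s) = h ^ 8 * √s := by ring
  -- h ^ 8 * √s ≤ (ε / 2) s
  have e9 : 2 * (h ^ 8 * √s) ≤ ε * s := by
    have k1 : 2 * (h ^ 8 * √s) ≤ (ε * h) * (h ^ 8 * √s) := mul_le_mul_of_nonneg_right hhε (by positivity)
    have k2 : (ε * h) * (h ^ 8 * √s) = ε * (h ^ 9 * √s) := by ring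
    have k3 : h ^ 9 * √s ≤ √s * √s := by
      refine mul_le_mul_of_nonneg_right ((pow_le_pow_right₀ h1 (by norm_num)).trans q1) q3
    have k4 : ε * (h ^ 9 * √s) ≤ ε * (√s * √s) := mul_le_mul_of_nonneg_left k3 hε.le
    rw [q2] at k4
    linarith
  have e10 : 2 * h ^ 12 ≤ ε * s := by
    have k1 : 2 * h ^ 12 ≤ (ε * h) * h ^ 12 := mul_le_mul_of_nonneg_right hhε (by positivity)
    have k2 : (ε * h) * h ^ 12 = ε * h ^ 13 := by ring
    have k3 : ε * h ^ 13 ≤ ε * s :=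
      mul_le_mul_of_nonneg_left ((pow_le_pow_right₀ h1 (by norm_num)).trans hs) hε.le
    linarith
  linarith

variable (hs : ∀ x, μ (-x) = μ x)

include hs

omit hs in
private theorem Conf_split {a b : ℝ} {τ : Env d} (hτ : Bd a b τ) (ha : 0 ≤ a) {x z q : V d} (w : (grid d).Walk x z)
    (hq : q ∈ w.support) : T τ x q + T τ q z ≤ cost τ w := by
  classical
  have h1 := w.take_spec hq
  have h2 := cost_append τ (w.takeUntil q hq) (w.dropUntil q hq)
  rw [h1] at h2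
  rw [h2]
  exact add_le_add (T_le_cost hτ ha _) (T_le_cost hτ ha _)

omit hs [NeZero d] in
private theorem Conf_er {C h r : ℝ} (hC : 1 ≤ C) (hh : 4 * C ≤ h) (hr : h ^ 16 ≤ r) : er h r * (2 * C) ≤ r := by
  have h1 : 1 ≤ h := by linarith
  have h0 : 0 ≤ h := by linarith
  have hr0 : 0 ≤ r := le_trans (by positivity) hr
  have e1 : h ^ 8 ≤ √r := by
    refine Real.le_sqrt_of_sq_le ?_
    rw [← pow_mul]
    exact hr
  have hs0 : 0 ≤ √r := Real.sqrt_nonneg r
  have hss : √r * √r = r := Real.mul_self_sqrt hr0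
  have e2 : h ^ 7 * √r * (4 * C) ≤ h ^ 7 * √r * h := mul_le_mul_of_nonneg_left hh (by positivity)
  have e3 : h ^ 7 * √r * h = h ^ 8 * √r := by ring
  have e4 : h ^ 8 * √r ≤ √r * √r := mul_le_mul_of_nonneg_right e1 hs0
  have e5 : h ^ 12 * (4 * C) ≤ h ^ 12 * h := mul_le_mul_of_nonneg_left hh (by positivity)
  have e6 : h ^ 12 * h ≤ h ^ 16 := by
    rw [← pow_succ]
    exact pow_le_pow_right₀ h1 (by norm_num)
  unfold er
  nlinarith

omit hs [NeZero d] in
private theorem Conf_bd {C h s : ℝ} {x q : V d} (p : ℕ) (hp : 16 ≤ p) (hC : 1 ≤ C) (hh : 3 + 4 * C ≤ h)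
    (hx : nm x ≤ h ^ p) (hs : s ≤ h ^ p) (hq : nm (q - x) ≤ 2 * C * (s + h ^ 16) + 2) : nm q ≤ h ^ (p + 2) := by
  have h1 : 1 ≤ h := by linarith
  have h0 : 0 ≤ h := by linarith
  have e1 : nm q ≤ nm (q - x) + nm x := by
    have := nm_add_le (q - x) x
    rwa [sub_add_cancel] at this
  have e2 : h ^ 16 ≤ h ^ p := pow_le_pow_right₀ h1 hp
  have e3 : (1 : ℝ) ≤ h ^ p := one_le_pow₀ h1
  have e4 : 2 * C * (s + h ^ 16) ≤ 2 * C * (h ^ p + h ^ p) :=
    mul_le_mul_of_nonneg_left (by linarith) (by linarith)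
  have e5 : (3 + 4 * C) * h ^ p ≤ h * h ^ p := mul_le_mul_of_nonneg_right hh (by positivity)
  have e6 : h * h ^ p ≤ h ^ (p + 2) := by
    rw [← pow_succ']
    exact pow_le_pow_right₀ h1 (by omega)
  nlinarith

private theorem Conf_near (hX : IsVtx X μ) (p : ℕ) (hp : 16 ≤ p) {h : ℝ} (hh : 3 + 4 * X.C ≤ h) {a : ℝ} {τ : Env d}
    (ha : 0 < a) (hτ : Bd a h τ) (hL : LT μ (p + 2) h τ) {x z : V d} (w : (grid d).Walk x z) {s : ℝ}
    (hx : nm x ≤ h ^ p) (hs0 : 0 ≤ s) (hs' : s ≤ h ^ p) (hw : cost τ w ≤ s) (q : V d) (hq : q ∈ w.support) :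
    nm (q - x) ≤ 2 * X.C * (s + h ^ 16) := by
  classical
  have hC := one_le_C hX
  have h1 : 1 ≤ h := by linarith
  have h0 : 0 ≤ h := by linarith
  by_contra hcon
  push Not at hcon
  have hR0 : 0 < 2 * X.C * (s + h ^ 16) := by positivity
  obtain ⟨i, -, hi1, hi2, -⟩ := first_passage (fun v => nm (v - x)) 1 (by
      intro u v huv
      have k1 := nm_adj huv
      have k2 := nm_add_le (v - u) (u - x)
      have k3 := nm_add_le (u - v) (v - x)
      rw [sub_add_sub_cancel] at k2 k3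
      rw [nm_sub_comm u v] at k3
      show |nm (v - x) - nm (u - x)| ≤ 1
      rw [abs_le]
      constructor <;> linarith) (min (nm (q - x)) (2 * X.C * (s + h ^ 16) + 1)) (w.takeUntil q hq)
      (by
        show nm (x - x) < _
        rw [sub_self, nm_zero]
        exact lt_min (by linarith) (by linarith))
      (min_le_left _ _)
  obtain ⟨r, hr⟩ : ∃ r, r = (w.takeUntil q hq).getVert i := ⟨_, rfl⟩
  rw [← hr] at hi1 hi2
  have hqs : r ∈ w.support := by
    rw [hr]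
    exact w.support_takeUntil_subset_support hq ((w.takeUntil q hq).getVert_mem_support i)
  have k1 : 2 * X.C * (s + h ^ 16) < nm (r - x) :=
    lt_of_lt_of_le (lt_min hcon (by linarith)) hi1
  have k2 : nm (r - x) ≤ 2 * X.C * (s + h ^ 16) + 2 := by
    have := min_le_right (nm (q - x)) (2 * X.C * (s + h ^ 16) + 1)
    have hi3 : nm (r - x) < min (nm (q - x)) (2 * X.C * (s + h ^ 16) + 1) + 1 := hi2
    linarith
  have k3 : nm r ≤ h ^ (p + 2) := Conf_bd p hp (by linarith) hh hx hs' k2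
  have k4 : nm x ≤ h ^ (p + 2) := hx.trans (pow_le_pow_right₀ h1 (by omega))
  have k5 := hL x r k4 k3
  have k6 := Conf_split hτ ha.le w hqs
  have k7 := T_nonneg hτ ha.le r z
  have k8 := rn_le_mu hs hX (toR (r - x))
  rw [← nm_eq_rn] at k8
  have k9 : h ^ 16 ≤ nm (r - x) := by
    have : (1 : ℝ) * (0 + h ^ 16) ≤ 2 * X.C * (s + h ^ 16) := by
      apply mul_le_mul (by linarith) (by linarith) (by positivity) (by linarith)
    linarith
  have k10 := Conf_er (C := X.C) (by linarith) (by linarith) k9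
  have k11 : X.C * μ (toR (r - x)) ≤ X.C * (s + er h (nm (r - x))) :=
    mul_le_mul_of_nonneg_left (by linarith) (by linarith)
  have k12 : 0 ≤ X.C * h ^ 16 := by positivity
  nlinarith

/-- A walk of cost `≤ s` stays within distance `2 C (s + h ^ 16)`. PROOF. Take the first vertex `q` of the walk with
`nm (q - x) > R = 2 C (s + h ^ 16)` (then `nm (q - x) ≤ R + 1`); `LT` for `x, q`, `rn_le_mu`, `er h r ≤ r / (2 C)` for
`r ≥ h ^ 15`. -/
theorem walk_near (hX : IsVtx X μ) (p : ℕ) (hp : 16 ≤ p) : ∀ᶠ h : ℝ in atTop, ∀ (a : ℝ) (τ : Env d), 0 < a → Bd a h τ →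
    LT μ (p + 2) h τ → ∀ (x z : V d) (w : (grid d).Walk x z) (s : ℝ), nm x ≤ h ^ p → 0 ≤ s → s ≤ h ^ p →
      cost τ w ≤ s → ∀ q ∈ w.support, nm (q - x) ≤ 2 * X.C * (s + h ^ 16) := by
  filter_upwards [eventually_ge_atTop (3 + 4 * X.C)] with h hh a τ ha hτ hL x z w s hx hs0 hs' hw q hq
  exact Conf_near hs hX p hp hh ha hτ hL w hx hs0 hs' hw q hq

/-- Confinement. PROOF. `T x q + T q z ≤ s`, `LT` for both pieces (distances `≤ 4 C (s + h ^ 16)`), `gl_le_mu`, `ff_le_mu`,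
`lat (z - q) ≥ lat (q - x) - lat (z - x)`. -/
theorem walk_conf (hX : IsVtx X μ) (p : ℕ) (hp : 16 ≤ p) : ∀ᶠ h : ℝ in atTop, ∀ (a : ℝ) (τ : Env d), 0 < a → Bd a h τ →
    LT μ (p + 2) h τ → ∀ (x z : V d) (w : (grid d).Walk x z) (s : ℝ), nm x ≤ h ^ p → 0 ≤ s → s ≤ h ^ p →
      cost τ w ≤ s → ∀ q ∈ w.support,
        2 * X.c * X.lat (q - x) ≤ s - X.gg (z - x) + X.c * X.lat (z - x) + 2 * ce X h s ∧
        -((s - X.gg (z - x)) / 2 + ce X h s) ≤ X.gg (q - x) ∧
        X.gg (q - x) ≤ X.gg (z - x) + ((s - X.gg (z - x)) / 2 + ce X h s) ∧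
        (∀ i, -((s - X.ff i (z - x)) / 2 + ce X h s) ≤ X.ff i (q - x)) ∧
        T τ x q + T τ q z ≤ s ∧ nm (q - x) ≤ 2 * X.C * (s + h ^ 16) := by
  filter_upwards [eventually_ge_atTop (3 + 4 * X.C)] with h hh a τ ha hτ hL x z w s hx hs0 hs' hw q hq
  have hC := one_le_C hX
  have h1 : 1 ≤ h := by linarith
  have h0 : 0 ≤ h := by linarith
  have n1 := Conf_near hs hX p hp hh ha hτ hL w hx hs0 hs' hw q hq
  have n2 := Conf_near hs hX p hp hh ha hτ hL w hx hs0 hs' hw z w.end_mem_support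
  have hR0 : 0 ≤ 2 * X.C * (s + h ^ 16) := by positivity
  have n3 : nm (z - q) ≤ 4 * X.C * (s + h ^ 16) := by
    have k1 := nm_add_le (z - x) (x - q)
    rw [sub_add_sub_cancel, nm_sub_comm x q] at k1
    linarith
  have n4 : nm (q - x) ≤ 4 * X.C * (s + h ^ 16) := by linarith
  have m1 : nm q ≤ h ^ (p + 2) := Conf_bd p hp (by linarith) hh hx hs' (by linarith)
  have m2 : nm z ≤ h ^ (p + 2) := Conf_bd p hp (by linarith) hh hx hs' (by linarith)
  have m3 : nm x ≤ h ^ (p + 2) := hx.trans (pow_le_pow_right₀ h1 (by omega))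
  have l1 := hL x q m3 m1
  have l2 := hL q z m1 m2
  have e1 : er h (nm (q - x)) ≤ ce X h s := er_mono h1 n4
  have e2 : er h (nm (z - q)) ≤ ce X h s := er_mono h1 n3
  have sp := Conf_split hτ ha.le w hq
  have b1 := gl_le_mu hs hX (q - x)
  have b2 := gl_le_mu hs hX (z - q)
  have g1 : X.gg (z - q) = X.gg (z - x) - X.gg (q - x) := by
    rw [X.gg_sub, X.gg_sub, X.gg_sub]; ring
  have y1 : X.lat (q - x) - X.lat (z - x) ≤ X.lat (z - q) := by
    have k1 := X.abs_lat_sub (q - x) (z - x)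
    have k2 : q - x - (z - x) = -(z - q) := by abel
    rw [k2, X.lat_neg] at k1
    exact (le_abs_self _).trans k1
  have hc0 := hX.cpos
  have y2 : X.c * (X.lat (q - x) - X.lat (z - x)) ≤ X.c * X.lat (z - q) := mul_le_mul_of_nonneg_left y1 hc0.le
  rw [g1] at b2
  have lq : 0 ≤ X.c * X.lat (q - x) := mul_nonneg hc0.le (X.lat_nonneg _)
  have lz : 0 ≤ X.c * X.lat (z - q) := mul_nonneg hc0.le (X.lat_nonneg _)
  have a1 := le_abs_self (X.gg (q - x))
  have a2 := neg_abs_le (X.gg (q - x))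
  have a3 := le_abs_self (X.gg (z - x) - X.gg (q - x))
  have a4 := neg_abs_le (X.gg (z - x) - X.gg (q - x))
  refine ⟨by linarith, by linarith, by linarith, fun i => ?_, by linarith, n1⟩
  have f1 := ff_le_mu hs hX i (q - x)
  have f2 := ff_le_mu hs hX i (z - q)
  have f3 : X.ff i (z - q) = X.ff i (z - x) - X.ff i (q - x) := by
    rw [X.ff_sub, X.ff_sub, X.ff_sub]; ring
  rw [f3] at f2
  have c1 := neg_abs_le (X.ff i (q - x))
  have c2 := le_abs_self (X.ff i (z - x) - X.ff i (q - x))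
  linarith

/-- On `LT` a cheap passage is realised inside the lane. -/
theorem lane_reach (hX : IsVtx X μ) (p : ℕ) (hp : 16 ≤ p) : ∀ᶠ h : ℝ in atTop, ∀ (a : ℝ) (τ : Env d), 0 < a → Bd a h τ →
    LT μ (p + 2) h τ → ∀ (x z : V d) (s r W B : ℝ), nm x ≤ h ^ p → s ≤ h ^ p → T τ x z ≤ s → X.gg (z - x) ≤ r + X.C →
      s - X.gg (z - x) + X.c * X.lat (z - x) + 2 * ce X h s ≤ 2 * X.c * W →
      (s - X.gg (z - x)) / 2 + ce X h s + X.C ≤ B → Reach (X.lane x r W B) τ x z s := by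
  filter_upwards [walk_conf hs hX p hp, eventually_ge_atTop (1 : ℝ)] with h hh h1 a τ ha hτ hL x z s r W B hx hs' hT hg hW hB
  obtain ⟨w, hw⟩ := exists_geo hτ ha x z
  have hcost : cost τ w = T τ x z := hw.2
  have hs0 : 0 ≤ s := (T_nonneg hτ ha.le x z).trans hT
  refine ⟨w, fun e he => ?_, by rw [hcost]; exact hT⟩
  have key : ∀ q ∈ w.support, X.lat (q - x) ≤ W ∧ -B ≤ X.gg (q - x) ∧ X.gg (q - x) ≤ r + B := by
    intro q hq
    obtain ⟨k1, k2, k3, -, -, -⟩ := hh a τ ha hτ hL x z w s hx hs0 hs' (by rw [hcost]; exact hT) q hq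
    have hC := one_le_C hX
    refine ⟨?_, by linarith, by linarith⟩
    have hc0 := hX.cpos
    have : 2 * X.c * X.lat (q - x) ≤ 2 * X.c * W := k1.trans hW
    exact le_of_mul_le_mul_left this (by linarith)
  have h2 := wedges_support w he
  exact ⟨key _ h2.1, key _ h2.2⟩

/-- On `LT` a passage which starts deep inside the half space is realised in the half space region: `T` and the restricted
passage time agree. PROOF. Take a geodesic `w` from `x` to `z`; `s = T x z`; `walk_conf` (third line from below) and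
`walk_near`, then `T_res_eq`. -/
theorem T_res_Rg (hX : IsVtx X μ) (p : ℕ) (hp : 16 ≤ p) : ∀ᶠ h : ℝ in atTop, ∀ (a : ℝ) (τ : Env d), 0 < a → Bd a h τ →
    LT μ (p + 2) h τ → ∀ (i : Fin X.N) (x z : V d) (s : ℝ), nm x ≤ h ^ p → s ≤ h ^ p → T τ x z ≤ s →
      (s - X.ff i (z - x)) / 2 + ce X h s ≤ X.ff i x → ∀ H : ℝ, nm x + 2 * X.C * (s + h ^ 16) ≤ H →
      T (res h (X.Rg i H) τ) x z = T τ x z := by
  filter_upwards [walk_conf hs hX p hp, eventually_ge_atTop (1 : ℝ)] with h hh h1 a τ ha hτ hL i x z s hx hs' hT hf H hH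
  have hah : a ≤ h := (hτ (0, 0)).1.trans (hτ (0, 0)).2
  obtain ⟨w, hw⟩ := exists_geo hτ ha x z
  have hcost : cost τ w = T τ x z := hw.2
  have hs0 : 0 ≤ s := (T_nonneg hτ ha.le x z).trans hT
  refine T_res_eq ha.le hah hτ hcost fun e he => ?_
  have key : ∀ q ∈ w.support, 0 ≤ X.ff i q ∧ nm q ≤ H := by
    intro q hq
    obtain ⟨-, -, -, k4, -, k6⟩ := hh a τ ha hτ hL x z w s hx hs0 hs' (by rw [hcost]; exact hT) q hq
    have k5 := k4 i
    rw [X.ff_sub i q x] at k5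
    refine ⟨by linarith, ?_⟩
    have := nm_add_le (q - x) x
    rw [sub_add_cancel] at this
    linarith
  have h2 := wedges_support w he
  exact ⟨key _ h2.1, key _ h2.2⟩

omit hs

/-! ### Walks inside a set of edges -/

theorem Reach.mono {A A' : Set (Edge d)} {τ : Env d} {x z : V d} {s s' : ℝ} (hr : Reach A τ x z s) (hA : A ⊆ A')
    (hs : s ≤ s') : Reach A' τ x z s' := by
  obtain ⟨w, h1, h2⟩ := hr
  exact ⟨w, fun e he => hA (h1 e he), h2.trans hs⟩

theorem dependsOn_reach (A : Set (Edge d)) (x z : V d) (s : ℝ) : DependsOn (fun τ => Reach A τ x z s) A := by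
  intro τ τ' h
  refine propext ⟨?_, ?_⟩
  · rintro ⟨w, h1, h2⟩
    refine ⟨w, h1, ?_⟩
    rw [← cost_congr w fun e he => h e (h1 e he)]
    exact h2
  · rintro ⟨w, h1, h2⟩
    refine ⟨w, h1, ?_⟩
    rw [cost_congr w fun e he => h e (h1 e he)]
    exact h2

theorem Reach.T_le {a b : ℝ} (ha : 0 < a) {A : Set (Edge d)} {τ : Env d} (hτ : Bd a b τ) {x z : V d} {s : ℝ}
    (hr : Reach A τ x z s) : T τ x z ≤ s := by
  obtain ⟨w, -, h2⟩ := hr
  exact (T_le_cost hτ ha.le w).trans h2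

theorem Reach.T_res_le {a b : ℝ} (ha : 0 < a) (hab : a ≤ b) {A : Set (Edge d)} {τ : Env d} (hτ : Bd a b τ)
    {x z : V d} {s : ℝ} (hr : Reach A τ x z s) : T (res b A τ) x z ≤ s := by
  obtain ⟨w, h1, h2⟩ := hr
  refine (T_le_cost (Bd_res hab hτ A) ha.le w).trans ?_
  rw [cost_congr (τ' := τ) w fun e he => ?_]
  · exact h2
  · unfold res
    rw [if_pos (h1 e he)]

/-- The walk may be taken to be a path. -/
theorem Reach.exists_path {a b : ℝ} (ha : 0 < a) {A : Set (Edge d)} {τ : Env d} (hτ : Bd a b τ) {x z : V d} {s : ℝ}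
    (hr : Reach A τ x z s) : ∃ w : (grid d).Walk x z, w.IsPath ∧ (∀ e ∈ wedges w, e ∈ A) ∧ cost τ w ≤ s := by
  classical
  obtain ⟨w, h1, h2⟩ := hr
  refine ⟨w.bypass, w.bypass_isPath, fun e he => h1 e ?_, ?_⟩
  · unfold wedges at he ⊢
    exact (w.edges_bypass_sublist_edges.map ke).subset he
  · refine le_trans ?_ h2
    unfold cost wedges
    refine List.Sublist.sum_le_sum ((w.edges_bypass_sublist_edges.map ke).map τ) ?_
    intro t ht
    obtain ⟨e, -, rfl⟩ := List.mem_map.1 ht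
    exact ha.le.trans (hτ e).1

private theorem Conf_ke (x : V d) {u v : V d} (h : (grid d).Adj u v) :
    ke s(u + x, v + x) = ((ke s(u, v)).1 + x, (ke s(u, v)).2) := by
  obtain ⟨s, h | h⟩ := h
  · subst h
    have e : u + dir s + x = (u + x) + dir s := by abel
    rw [e, ke_dir, ke_dir]
  · subst h
    have e : v + dir s + x = (v + x) + dir s := by abel
    rw [e, ke_dir', ke_dir']

private theorem Conf_map (x : V d) (τ : Env d) {u v : V d} (w : (grid d).Walk u v) :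
    ∃ w' : (grid d).Walk (u + x) (v + x), cost τ w' = cost (sh x τ) w ∧
      ∀ e ∈ wedges w', (e.1 - x, e.2) ∈ wedges w := by
  induction w with
  | nil => exact ⟨SimpleGraph.Walk.nil, by simp [cost, wedges], by simp [wedges]⟩
  | @cons u v w h p ih =>
    obtain ⟨w', hw', hw2⟩ := ih
    have hadj : (grid d).Adj (u + x) (v + x) := by
      obtain ⟨s, h | h⟩ := h
      · exact ⟨s, Or.inl (by rw [h]; abel)⟩
      · exact ⟨s, Or.inr (by rw [h]; abel)⟩
    refine ⟨SimpleGraph.Walk.cons hadj w', ?_, ?_⟩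
    · unfold cost wedges at hw' ⊢
      rw [SimpleGraph.Walk.edges_cons, SimpleGraph.Walk.edges_cons, List.map_cons, List.map_cons,
        List.map_cons, List.map_cons, List.sum_cons, List.sum_cons, hw', Conf_ke x h]
      rfl
    · intro e he
      unfold wedges at he hw2 ⊢
      rw [SimpleGraph.Walk.edges_cons, List.map_cons, List.mem_cons] at he ⊢
      rcases he with he | he
      · left
        rw [he, Conf_ke x h]
        exact Prod.ext (add_sub_cancel_right _ _) rfl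
      · right
        exact hw2 e he

/-- Shift of a walk event. -/
theorem Conf_reach_sh (A : Set (Edge d)) (x u v : V d) (s : ℝ) (τ : Env d) :
    Reach A (sh x τ) u v s ↔ Reach {e | (e.1 - x, e.2) ∈ A} τ (u + x) (v + x) s := by
  constructor
  · rintro ⟨w, h1, h2⟩
    obtain ⟨w', k1, k2⟩ := Conf_map x τ w
    exact ⟨w', fun e he => h1 _ (k2 e he), by rw [k1]; exact h2⟩
  · rintro ⟨w, h1, h2⟩
    obtain ⟨w', k1, k2⟩ := Conf_map (-x) (sh x τ) w
    have e0 : sh (-x) (sh x τ) = τ := by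
      funext e
      show τ (e.1 + -x + x, e.2) = τ e
      rw [neg_add_cancel_right]
    rw [e0] at k1
    have h3 : Reach A (sh x τ) (u + x + -x) (v + x + -x) s := by
      refine ⟨w', fun e he => ?_, by rw [k1]; exact h2⟩
      have k3 : ((e.1 - -x) - x, e.2) ∈ A := h1 _ (k2 e he)
      have e1 : ((e.1 - -x) - x, e.2) = e := Prod.ext (by show e.1 - -x - x = e.1; abel) rfl
      rw [← e1]
      exact k3
    have e2 : u + x + -x = u := by abel
    have e3 : v + x + -x = v := by abel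
    rwa [e2, e3] at h3

theorem mem_lane_sh (X : Vtx d) (x : V d) (r W B : ℝ) (e : Edge d) :
    e ∈ X.lane x r W B ↔ (e.1 - x, e.2) ∈ X.lane 0 r W B := by
  have e1 : e.1 - x - 0 = e.1 - x := sub_zero _
  have e2 : e.1 - x + dir e.2 - 0 = e.1 + dir e.2 - x := by abel
  unfold Vtx.lane edg
  simp only [Set.mem_ofPred_eq]
  rw [e1, e2]

/-- Shift of restricted passage times. -/
theorem T_res_sh (b : ℝ) (A : Set (Edge d)) (z : V d) (τ : Env d) (x y : V d) :
    T (res b A (sh z τ)) x y = T (res b {e | (e.1 - z, e.2) ∈ A} τ) (x + z) (y + z) := by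
  have hE : (fun e : Edge d => res b A (sh z τ) e) = sh z (res b {e | (e.1 - z, e.2) ∈ A} τ) := by
    funext e
    have e1 : ((e.1 + z) - z, e.2) = e := Prod.ext (add_sub_cancel_right _ _) rfl
    show res b A (sh z τ) e = res b {e | (e.1 - z, e.2) ∈ A} τ (e.1 + z, e.2)
    have e2 : ((e.1 + z, e.2) ∈ {e : Edge d | (e.1 - z, e.2) ∈ A}) ↔ e ∈ A := by
      show ((e.1 + z) - z, e.2) ∈ A ↔ e ∈ A
      rw [e1]
    unfold res
    by_cases h1 : e ∈ A
    · rw [if_pos h1, if_pos (e2.2 h1)]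
      rfl
    · rw [if_neg h1, if_neg (fun h2 => h1 (e2.1 h2))]
  have hE' : res b A (sh z τ) = sh z (res b {e | (e.1 - z, e.2) ∈ A} τ) := hE
  rw [hE', T_sh]

/-- Shift of a lane event. -/
theorem reach_sh (X : Vtx d) (x z : V d) (r W B s : ℝ) (τ : Env d) :
    Reach (X.lane 0 r W B) (sh x τ) 0 z s ↔ Reach (X.lane x r W B) τ x (x + z) s := by
  have h1 := Conf_reach_sh (X.lane 0 r W B) x 0 z s τ
  have h2 : {e : Edge d | (e.1 - x, e.2) ∈ X.lane 0 r W B} = X.lane x r W B := by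
    ext e
    exact (mem_lane_sh X x r W B e).symm
  rw [h2, zero_add, add_comm z x] at h1
  exact h1

theorem res_res (b : ℝ) {A A' : Set (Edge d)} (h : A ⊆ A') (τ : Env d) : res b A (res b A' τ) = res b A τ := by
  funext e
  unfold res
  by_cases h1 : e ∈ A
  · rw [if_pos h1, if_pos (h h1), if_pos h1]
  · rw [if_neg h1, if_neg h1]

end Pool.Agent.W_1b8d5d_nd

end

/-! ### Med2 -/

section

/-!
MP_1b8d5d_pr, [ND]: symmetry and growth of `μ`, the time constant is a lower bound of the medians (doubling), linear upper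
bound for the means, the medians in a real direction.
-/

set_option autoImplicit false

namespace Pool.Agent.W_1b8d5d_nd

open Finset Filter Topology
open Pool.Agent.W_1b8d5d_h85 (Ex Pr Vr avg)

variable {d : ℕ} [NeZero d] {Q : Qn} {m : V d → ℝ} {μ : (Fin d → ℝ) → ℝ}

omit [NeZero d] in
private theorem Med2_norm_le (x : Fin d → ℝ) : ‖x‖ ≤ rn x := by
  unfold rn
  refine (pi_norm_le_iff_of_nonneg (Finset.sum_nonneg fun i _ => abs_nonneg _)).2 fun i => ?_
  rw [Real.norm_eq_abs]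
  exact Finset.single_le_sum (f := fun j => |x j|) (fun _ _ => abs_nonneg _) (Finset.mem_univ i)

omit [NeZero d] in
private theorem Med2_mu_zero (hmu : MuM μ m) : μ 0 = 0 := by
  have h := hmu.hom 0 0 le_rfl
  simpa using h

theorem abs_mu_le (hmu : MuM μ m) : ∃ C : ℝ, 1 ≤ C ∧ ∀ x : Fin d → ℝ, |μ x| ≤ C * rn x := by
  obtain ⟨C, hC⟩ := (isCompact_closedBall (0 : Fin d → ℝ) 1).exists_bound_of_continuousOn
    hmu.cont.continuousOn
  refine ⟨max C 1, le_max_right _ _, fun x => ?_⟩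
  by_cases hx : rn x = 0
  · rw [rn_eq_zero.1 hx, Med2_mu_zero hmu, abs_zero]
    have := rn_nonneg (0 : Fin d → ℝ)
    have h1 : (0 : ℝ) ≤ max C 1 := le_trans zero_le_one (le_max_right _ _)
    positivity
  · have hpos : 0 < rn x := lt_of_le_of_ne (rn_nonneg x) (Ne.symm hx)
    have h1 : μ x = rn x * μ ((rn x)⁻¹ • x) := by
      rw [← hmu.hom _ _ hpos.le, smul_smul, mul_inv_cancel₀ hx, one_smul]
    have h2 : ‖(rn x)⁻¹ • x‖ ≤ 1 := by
      refine (Med2_norm_le _).trans ?_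
      rw [rn_smul, abs_of_pos (inv_pos.2 hpos), inv_mul_cancel₀ hx]
    have h3 := hC ((rn x)⁻¹ • x) (by rwa [mem_closedBall_zero_iff])
    rw [Real.norm_eq_abs] at h3
    rw [h1, abs_mul, abs_of_pos hpos, mul_comm]
    exact mul_le_mul_of_nonneg_right (h3.trans (le_max_left _ _)) hpos.le

omit [NeZero d] in
private theorem Med2_nm_nsmul (k : ℕ) (z : V d) : nm (k • z) = k * nm z := by
  rw [nm_eq_rn, toR_nsmul, rn_smul, Nat.abs_cast, nm_eq_rn]

/-- A model at the scale of a length: `h ^ p = r`. -/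
private theorem Med2_scale (p : ℕ) (hp : p ≠ 0) (H : ℝ) {r : ℝ} (hr : (max H 1) ^ p ≤ r) :
    ∃ h : ℝ, h ^ p = r ∧ H ≤ h ∧ 1 ≤ h := by
  have hm : 0 ≤ max H 1 := le_trans zero_le_one (le_max_right _ _)
  have hr0 : 0 ≤ r := (pow_nonneg hm p).trans hr
  refine ⟨r ^ (((p : ℕ) : ℝ)⁻¹), Real.rpow_inv_natCast_pow hr0 hp, ?_⟩
  have hh0 : 0 ≤ r ^ (((p : ℕ) : ℝ)⁻¹) := by positivity
  have hpow : (r ^ (((p : ℕ) : ℝ)⁻¹)) ^ p = r := Real.rpow_inv_natCast_pow hr0 hp
  have hge : max H 1 ≤ r ^ (((p : ℕ) : ℝ)⁻¹) := by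
    by_contra hcon
    have h1 := pow_lt_pow_left₀ (not_le.1 hcon) hh0 hp
    rw [hpow] at h1
    linarith
  exact ⟨(le_max_left _ _).trans hge, (le_max_right _ _).trans hge⟩

/-- The standard deviation at the scale `h ^ p = r`. -/
private theorem Med2_sg (p : ℕ) (hp : 30 ≤ p) {h : ℝ} (h1 : 1 ≤ h) :
    sg h (h ^ p) ≤ 2 * (h ^ p) ^ (1 / 2 + 4 / (p : ℝ)) := by
  have h0 : 0 ≤ h := by linarith
  have hp0 : (0 : ℝ) < p := by
    have : 0 < p := by omega
    exact_mod_cast this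
  have hhp : 0 ≤ h ^ p := by positivity
  have e1 : (h ^ p) ^ (1 / 2 + 4 / (p : ℝ)) = √(h ^ p) * h ^ 4 := by
    rw [Real.rpow_add_of_nonneg hhp (by norm_num) (by positivity), ← Real.sqrt_eq_rpow]
    congr 1
    rw [← Real.rpow_natCast h p, ← Real.rpow_mul h0]
    have : (p : ℝ) * (4 / p) = ((4 : ℕ) : ℝ) := by
      field_simp
      norm_num
    rw [this, Real.rpow_natCast]
  rw [e1]
  unfold sg
  have e2 : h ^ 11 ≤ √(h ^ p) * h ^ 4 := by
    have e3 : h ^ 7 ≤ √(h ^ p) := by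
      refine Real.le_sqrt_of_sq_le ?_
      rw [← pow_mul]
      exact pow_le_pow_right₀ h1 (by omega)
    calc h ^ 11 = h ^ 7 * h ^ 4 := by ring
      _ ≤ √(h ^ p) * h ^ 4 := mul_le_mul_of_nonneg_right e3 (by positivity)
  linarith

private theorem Med2_two_rpow (p : ℕ) (hp : 30 ≤ p) : (2 : ℝ) ^ (1 / 2 + 4 / (p : ℝ)) ≤ 8 / 5 := by
  have hp0 : (30 : ℝ) ≤ p := by exact_mod_cast hp
  have h1 : (2 : ℝ) ^ (1 / 2 + 4 / (p : ℝ)) ≤ (2 : ℝ) ^ (2 / 3 : ℝ) := by
    refine Real.rpow_le_rpow_of_exponent_le (by norm_num) ?_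
    have : 4 / (p : ℝ) ≤ 4 / 30 := div_le_div_of_nonneg_left (by norm_num) (by norm_num) hp0
    linarith
  refine h1.trans ?_
  have h2 : ((2 : ℝ) ^ (2 / 3 : ℝ)) ^ 3 ≤ (8 / 5 : ℝ) ^ 3 := by
    rw [← Real.rpow_natCast ((2 : ℝ) ^ (2 / 3 : ℝ)) 3, ← Real.rpow_mul (by norm_num)]
    have h3 : (2 / 3 : ℝ) * ((3 : ℕ) : ℝ) = ((2 : ℕ) : ℝ) := by norm_num
    rw [h3, Real.rpow_natCast]
    norm_num
  exact le_of_pow_le_pow_left₀ (by norm_num) (by norm_num) h2

/-- The comparison of `z` and `2 z`. -/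
private theorem Med2_double (hN : HasN Q m) (p : ℕ) (hp : 30 ≤ p) : ∃ R : ℝ, 1 ≤ R ∧ ∀ z : V d, R ≤ nm z →
    m (2 • z) ≤ 2 * m z + 36 * (nm z) ^ (1 / 2 + 4 / (p : ℝ)) := by
  obtain ⟨h₀, hh₀⟩ := eventually_atTop.1 (hN p)
  refine ⟨max 1 ((max h₀ 1) ^ p), le_max_left _ _, fun z hz => ?_⟩
  have hr1 : 1 ≤ nm z := (le_max_left _ _).trans hz
  have hr2 : (max h₀ 1) ^ p ≤ nm z := (le_max_right _ _).trans hz
  obtain ⟨h, hpow, hge0, hge1⟩ := Med2_scale p (by omega) h₀ (r := 2 * nm z) (by linarith)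
  obtain ⟨a, M, hM⟩ := hh₀ h hge0
  have hn2 : nm (2 • z) = 2 * nm z := by
    rw [Med2_nm_nsmul]
    norm_num
  have h1 := mean_med hM hge1 (2 • z) (by rw [hn2, hpow])
  have h2 := mean_med hM hge1 z (by rw [hpow]; linarith)
  have h3 := E_T_nsmul hM 2 z
  have h4 : sg h (nm z) ≤ sg h (nm (2 • z)) := sg_mono hge1 (by rw [hn2]; linarith)
  have h5 : sg h (nm (2 • z)) ≤ 2 * (2 * nm z) ^ (1 / 2 + 4 / (p : ℝ)) := by
    rw [hn2, ← hpow]
    exact Med2_sg p hp hge1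
  have h6 : (2 * nm z) ^ (1 / 2 + 4 / (p : ℝ)) ≤ 2 * (nm z) ^ (1 / 2 + 4 / (p : ℝ)) := by
    rw [Real.mul_rpow (by norm_num) (by linarith)]
    apply mul_le_mul_of_nonneg_right _ (by positivity)
    linarith [Med2_two_rpow p hp]
  rw [abs_le] at h1 h2
  push_cast at h3
  linarith [h1.1, h2.2]

/-- PROOF. For `nm z` large let `h = (2 nm z)^(1/p)`, a good model of range `p` at scale `h` exists; by `mean_med` and
`E_T_add` `m (2 z) ≤ E T(0,2z) + 3 σ ≤ 2 E T(0,z) + 3 σ ≤ 2 m z + 9 σ`, `σ = sg h (2 nm z) ≤ 2 (2 nm z)^(1/2 + 4/p)`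
(`11/p ≤ 1/2`). Apply this to `z, 2z, 4z, ...`: `m (2^j z) / 2^j ≤ m z + C (nm z)^(1/2 + 4/p)` (geometric series), and
`m (2^j z) / 2^j → μ z`. -/
theorem mu_le_med (hmu : MuM μ m) (hN : HasN Q m) (p : ℕ) (hp : 30 ≤ p) :
    ∃ C : ℝ, 1 ≤ C ∧ ∀ z : V d, C ≤ nm z → μ (toR z) ≤ m z + C * (nm z) ^ (1 / 2 + 4 / (p : ℝ)) := by
  obtain ⟨R, hR1, hR⟩ := Med2_double hN p hp
  refine ⟨max R 90, hR1.trans (le_max_left _ _), fun z hz => ?_⟩
  have hzR : R ≤ nm z := (le_max_left _ _).trans hz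
  have hz1 : 1 ≤ nm z := hR1.trans hzR
  obtain ⟨β, hβ⟩ : ∃ β : ℝ, β = 1 / 2 + 4 / (p : ℝ) := ⟨_, rfl⟩
  rw [← hβ]
  obtain ⟨q, hq⟩ : ∃ q : ℝ, q = (2 : ℝ) ^ β := ⟨_, rfl⟩
  have hq0 : 0 ≤ q := by
    rw [hq]
    positivity
  have hq1 : q ≤ 8 / 5 := by
    rw [hq, hβ]
    exact Med2_two_rpow p hp
  obtain ⟨s, hs⟩ : ∃ s : ℝ, s = (nm z) ^ β := ⟨_, rfl⟩
  have hs0 : 0 ≤ s := by
    rw [hs]
    have := nm_nonneg z
    positivity
  -- the sequence
  have hnm : ∀ j : ℕ, nm ((2 ^ j : ℕ) • z) = 2 ^ j * nm z := by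
    intro j
    rw [Med2_nm_nsmul]
    push_cast
    ring
  have hpw : ∀ j : ℕ, (nm ((2 ^ j : ℕ) • z)) ^ β = q ^ j * s := by
    intro j
    rw [hnm, Real.mul_rpow (by positivity) (by linarith), ← hs, hq, ← Real.rpow_natCast 2 j,
      ← Real.rpow_mul (by norm_num), ← Real.rpow_natCast _ j, ← Real.rpow_mul (by norm_num),
      mul_comm (j : ℝ)]
  have hstep : ∀ j : ℕ, m ((2 ^ (j + 1) : ℕ) • z) ≤ 2 * m ((2 ^ j : ℕ) • z) + 36 * (q ^ j * s) := by
    intro j
    have h1 := hR ((2 ^ j : ℕ) • z) (by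
      rw [hnm]
      have : (1 : ℝ) ≤ 2 ^ j := one_le_pow₀ (by norm_num)
      nlinarith)
    rw [← hβ, hpw, smul_smul, ← pow_succ'] at h1
    exact h1
  have hmain : ∀ j : ℕ, m ((2 ^ j : ℕ) • z) ≤ 2 ^ j * (m z + 90 * s * (1 - (4 / 5) ^ j)) := by
    intro j
    induction j with
    | zero => simp
    | succ j ih =>
      have h1 := hstep j
      have h2 : q ^ j ≤ (8 / 5) ^ j := pow_le_pow_left₀ hq0 hq1 j
      have h3 : q ^ j * s ≤ (8 / 5) ^ j * s := mul_le_mul_of_nonneg_right h2 hs0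
      have h4 : (8 / 5 : ℝ) ^ j = 2 ^ j * (4 / 5) ^ j := by
        rw [← mul_pow]
        norm_num
      rw [h4] at h3
      calc m ((2 ^ (j + 1) : ℕ) • z) ≤ 2 * m ((2 ^ j : ℕ) • z) + 36 * (q ^ j * s) := h1
        _ ≤ 2 * (2 ^ j * (m z + 90 * s * (1 - (4 / 5) ^ j))) + 36 * (2 ^ j * (4 / 5) ^ j * s) := by
          linarith
        _ = 2 ^ (j + 1) * (m z + 90 * s * (1 - (4 / 5) ^ (j + 1))) := by
          rw [pow_succ, pow_succ]
          ring
  have hle : ∀ j : ℕ, m ((2 ^ j : ℕ) • z) / ((2 ^ j : ℕ) : ℝ) ≤ m z + 90 * s := by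
    intro j
    have h0 : (0 : ℝ) < 2 ^ j := by positivity
    push_cast
    rw [div_le_iff₀ h0]
    refine (hmain j).trans ?_
    rw [mul_comm]
    apply mul_le_mul_of_nonneg_right _ h0.le
    have h1 : (0 : ℝ) ≤ (4 / 5) ^ j := by positivity
    nlinarith
  have hlim : Tendsto (fun j : ℕ => m ((2 ^ j : ℕ) • z) / ((2 ^ j : ℕ) : ℝ)) atTop
      (𝓝 (μ (toR z))) :=
    (hmu.lim z).comp (tendsto_pow_atTop_atTop_of_one_lt (by norm_num))
  have h1 : μ (toR z) ≤ m z + 90 * s := le_of_tendsto' hlim hle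
  rw [← hs]
  have h2 : 90 * s ≤ max R 90 * s := mul_le_mul_of_nonneg_right (le_max_right _ _) hs0
  linarith

/-- Symmetry on the lattice. -/
private theorem Med2_neg_lattice (hmu : MuM μ m) (hN : HasN Q m) (z : V d) : μ (toR (-z)) = μ (toR z) := by
  by_cases hz : z = 0
  · rw [hz, neg_zero]
  have hz1 : 1 ≤ nm z := one_le_nm hz
  obtain ⟨h₀, hh₀⟩ := eventually_atTop.1 (hN 30)
  have key : ∀ᶠ k : ℕ in atTop, |m (k • (-z)) / k - m (k • z) / k| ≤
      12 * (nm z) ^ (1 / 2 + 4 / ((30 : ℕ) : ℝ)) * (k : ℝ) ^ (-(1 / 3 : ℝ)) := by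
    obtain ⟨K, hK⟩ := exists_nat_ge ((max h₀ 1) ^ 30)
    filter_upwards [eventually_ge_atTop (max K 1)] with k hk
    have hk1 : 1 ≤ k := (le_max_right _ _).trans hk
    have hkr : (1 : ℝ) ≤ k := by exact_mod_cast hk1
    have hk0 : (0 : ℝ) < k := by linarith
    have hkK : (max h₀ 1) ^ 30 ≤ (k : ℝ) := hK.trans (by exact_mod_cast (le_max_left _ _).trans hk)
    have hnk : nm (k • z) = k * nm z := Med2_nm_nsmul k z
    have hnk' : nm (k • (-z)) = k * nm z := by rw [Med2_nm_nsmul, nm_neg]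
    obtain ⟨h, hpow, hge0, hge1⟩ := Med2_scale 30 (by norm_num) h₀ (r := k * nm z) (by nlinarith)
    obtain ⟨a, M, hM⟩ := hh₀ h hge0
    have e1 := mean_med hM hge1 (k • z) (by rw [hnk, hpow])
    have e2 := mean_med hM hge1 (k • (-z)) (by rw [hnk', hpow])
    have e3 : M.E (fun τ => T τ 0 (k • (-z))) = M.E (fun τ => T τ 0 (k • z)) := by
      rw [smul_neg, E_T_neg hM]
    rw [e3, hnk'] at e2
    rw [hnk] at e1
    have e4 : sg h (k * nm z) ≤ 2 * (k * nm z) ^ (1 / 2 + 4 / ((30 : ℕ) : ℝ)) := by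
      rw [← hpow]
      exact Med2_sg 30 le_rfl hge1
    rw [← sub_div, abs_div, abs_of_pos hk0, div_le_iff₀ hk0]
    have e5 : |m (k • (-z)) - m (k • z)| ≤ 6 * sg h (k * nm z) := by
      rw [abs_le] at e1 e2 ⊢
      constructor <;> linarith [e1.1, e1.2, e2.1, e2.2]
    refine e5.trans ?_
    have e6 : (k * nm z) ^ (1 / 2 + 4 / ((30 : ℕ) : ℝ)) =
        (nm z) ^ (1 / 2 + 4 / ((30 : ℕ) : ℝ)) * (k : ℝ) ^ (1 / 2 + 4 / ((30 : ℕ) : ℝ)) := by
      rw [mul_comm, Real.mul_rpow (by linarith) hk0.le]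
    have e7 : (k : ℝ) ^ (1 / 2 + 4 / ((30 : ℕ) : ℝ)) ≤ (k : ℝ) ^ (-(1 / 3 : ℝ)) * k := by
      have : (k : ℝ) ^ (-(1 / 3 : ℝ)) * k = (k : ℝ) ^ (2 / 3 : ℝ) := by
        conv_lhs => rw [show (k : ℝ) ^ (-(1 / 3 : ℝ)) * k = (k : ℝ) ^ (-(1 / 3 : ℝ)) * (k : ℝ) ^ (1 : ℝ) by
          rw [Real.rpow_one]]
        rw [← Real.rpow_add hk0]
        norm_num
      rw [this]
      exact Real.rpow_le_rpow_of_exponent_le hkr (by norm_num)
    rw [e6] at e4
    have e8 : 0 ≤ (nm z) ^ (1 / 2 + 4 / ((30 : ℕ) : ℝ)) := Real.rpow_nonneg (nm_nonneg z) _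
    have e9 := mul_le_mul_of_nonneg_left e7 e8
    linarith
  have hl1 := hmu.lim z
  have hl2 := hmu.lim (-z)
  have hl3 := (hl2.sub hl1).abs
  have hz0 : Tendsto (fun k : ℕ => 12 * (nm z) ^ (1 / 2 + 4 / ((30 : ℕ) : ℝ)) * (k : ℝ) ^ (-(1 / 3 : ℝ)))
      atTop (𝓝 0) := by
    have h1 : Tendsto (fun k : ℕ => (k : ℝ) ^ (-(1 / 3 : ℝ))) atTop (𝓝 0) :=
      (tendsto_rpow_neg_atTop (by norm_num)).comp tendsto_natCast_atTop_atTop
    have h2 := h1.const_mul (12 * (nm z) ^ (1 / 2 + 4 / ((30 : ℕ) : ℝ)))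
    rwa [mul_zero] at h2
  have h4 := le_of_tendsto_of_tendsto hl3 hz0 key
  have h5 : μ (toR (-z)) - μ (toR z) = 0 := abs_eq_zero.1 (le_antisymm h4 (abs_nonneg _))
  linarith

/-- Rational approximation of a vector. -/
private theorem Med2_approx (x : Fin d → ℝ) :
    Tendsto (fun k : ℕ => (k : ℝ)⁻¹ • toR (rnd ((k : ℝ) • x))) atTop (𝓝 x) := by
  rw [tendsto_iff_norm_sub_tendsto_zero]
  have hb : ∀ᶠ k : ℕ in atTop, ‖(k : ℝ)⁻¹ • toR (rnd ((k : ℝ) • x)) - x‖ ≤ (d : ℝ) * (k : ℝ)⁻¹ := by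
    filter_upwards [eventually_ge_atTop 1] with k hk
    have hk0 : (0 : ℝ) < k := by exact_mod_cast hk
    refine (Med2_norm_le _).trans ?_
    have h3 : (k : ℝ)⁻¹ • toR (rnd ((k : ℝ) • x)) - x = (k : ℝ)⁻¹ • (toR (rnd ((k : ℝ) • x)) - (k : ℝ) • x) := by
      rw [smul_sub, smul_smul, inv_mul_cancel₀ hk0.ne', one_smul]
    rw [h3, rn_smul, abs_of_pos (inv_pos.2 hk0), mul_comm]
    exact mul_le_mul_of_nonneg_right (rnd_near _) (inv_nonneg.2 hk0.le)
  have h0 : Tendsto (fun k : ℕ => (d : ℝ) * (k : ℝ)⁻¹) atTop (𝓝 0) := by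
    have := (tendsto_inv_atTop_nhds_zero_nat (𝕜 := ℝ)).const_mul (d : ℝ)
    rwa [mul_zero] at this
  exact squeeze_zero' (Eventually.of_forall fun k => norm_nonneg _) hb h0

/-- `μ (-x) = μ x`. PROOF: for lattice vectors: `|m (k • (-z)) - m (k • z)| ≤ 6 sg h (k nm z)` by `mean_med`, `E_T_neg` in a
model with range `p = 30`, at scale `h = (k nm z)^(1/30)`, divided by `k` this tends to `0`; then rational vectors
(`hom`), then continuity. -/
theorem mu_neg (hmu : MuM μ m) (hN : HasN Q m) (x : Fin d → ℝ) : μ (-x) = μ x := by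
  have h1 := Med2_approx x
  have h2 := (hmu.cont.tendsto x).comp h1
  have h3 := (hmu.cont.tendsto (-x)).comp h1.neg
  have h4 : (fun k : ℕ => μ (-((k : ℝ)⁻¹ • toR (rnd ((k : ℝ) • x))))) =
      fun k : ℕ => μ ((k : ℝ)⁻¹ • toR (rnd ((k : ℝ) • x))) := by
    funext k
    have hk0 : (0 : ℝ) ≤ (k : ℝ)⁻¹ := by positivity
    rw [← smul_neg, ← toR_neg, hmu.hom _ _ hk0, hmu.hom _ _ hk0, Med2_neg_lattice hmu hN]
  have h5 : Tendsto (fun k : ℕ => μ (-((k : ℝ)⁻¹ • toR (rnd ((k : ℝ) • x))))) atTop (𝓝 (μ (-x))) := h3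
  rw [h4] at h5
  exact tendsto_nhds_unique h5 h2

private theorem Med2_natAbs {p : ℕ} {a h : ℝ} {M : Mdl d a h} (hM : GoodN Q m p M) (k : ℤ) (z : V d) :
    M.E (fun τ => T τ 0 (k • z)) = M.E (fun τ => T τ 0 (k.natAbs • z)) := by
  rcases Int.natAbs_eq k with h | h
  · conv_lhs => rw [h]
    rw [natCast_zsmul]
  · conv_lhs => rw [h]
    rw [neg_smul, natCast_zsmul, E_T_neg hM]

/-- Linear bound along a line. -/
private theorem Med2_line (hmu : MuM μ m) (p : ℕ) (e : V d) (he : nm e = 1) :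
    ∃ C : ℝ, 1 ≤ C ∧ ∀ᶠ h : ℝ in atTop, ∀ (a : ℝ) (M : Mdl d a h), GoodN Q m p M → ∀ k : ℕ,
      (k : ℝ) ≤ h ^ p → M.E (fun τ => T τ 0 (k • e)) ≤ C * k + 4 * h ^ 11 := by
  have h1 := (hmu.lim e).eventually (gt_mem_nhds (show μ (toR e) < |μ (toR e)| + 1 by
    linarith [le_abs_self (μ (toR e))]))
  obtain ⟨K, hK⟩ := eventually_atTop.1 h1
  refine ⟨|μ (toR e)| + 4, by linarith [abs_nonneg (μ (toR e))], ?_⟩
  filter_upwards [eventually_ge_atTop (max 1 (K : ℝ))] with h hh a M hM k hk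
  have hh1 : 1 ≤ h := (le_max_left _ _).trans hh
  have hhK : (K : ℝ) ≤ h := (le_max_right _ _).trans hh
  have hnk : nm (k • e) = k := by rw [Med2_nm_nsmul, he, mul_one]
  have hk0 : (0 : ℝ) ≤ k := Nat.cast_nonneg k
  have hC : 0 ≤ |μ (toR e)| + 4 := by positivity
  by_cases hc : (k : ℝ) < h ^ 9
  · have h2 := E_T_le hM (k • e)
    rw [hnk] at h2
    have h3 : h * k ≤ h * h ^ 9 := mul_le_mul_of_nonneg_left hc.le (by linarith)
    have h4 : h * h ^ 9 ≤ h ^ 11 := by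
      rw [← pow_succ']
      exact pow_le_pow_right₀ hh1 (by norm_num)
    have h5 : 0 ≤ (|μ (toR e)| + 4) * k := by positivity
    have h6 : 0 ≤ h ^ 11 := by positivity
    linarith
  · push Not at hc
    have hk9 : h ≤ (k : ℝ) := (le_self_pow₀ hh1 (by norm_num)).trans hc
    have hkpos : (0 : ℝ) < k := by linarith
    have h2 := hK k (by exact_mod_cast hhK.trans hk9)
    rw [div_lt_iff₀ hkpos] at h2
    have h3 := mean_med hM hh1 (k • e) (by rw [hnk]; exact hk)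
    rw [hnk, abs_le] at h3
    have h4 : sg h k ≤ k + h ^ 11 := by
      unfold sg
      have h5 : h ^ 4 ≤ √(k : ℝ) := by
        apply Real.le_sqrt_of_sq_le
        calc (h ^ 4) ^ 2 = h ^ 8 := by ring
          _ ≤ h ^ 9 := pow_le_pow_right₀ hh1 (by norm_num)
          _ ≤ k := hc
      have h6 : h ^ 4 * √(k : ℝ) ≤ √(k : ℝ) * √(k : ℝ) :=
        mul_le_mul_of_nonneg_right h5 (Real.sqrt_nonneg _)
      rw [Real.mul_self_sqrt hk0] at h6
      linarith
    have h7 : 0 ≤ h ^ 11 := by positivity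
    linarith [h3.2]

/-- A lattice vector is the sum of its coordinates. -/
private theorem Med2_coord (z : V d) : z = ∑ i, (z i) • dir i := by
  funext j
  rw [Finset.sum_apply]
  have h1 : ∀ i, ((z i) • dir i : V d) j = if i = j then z i else 0 := by
    intro i
    have h2 : ((z i) • dir i : V d) j = z i * (dir i : V d) j := rfl
    have h3 : (dir i : V d) j = if j = i then 1 else 0 := by
      unfold Pool.Agent.W_1b8d5d_gd.dir
      exact Pi.single_apply i 1 j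
    rw [h2, h3]
    by_cases h : i = j
    · rw [if_pos h, if_pos h.symm, mul_one]
    · rw [if_neg h, if_neg (Ne.symm h), mul_zero]
  simp [h1]

/-- PROOF. Split `z` in its coordinates (`E_T_add`, `E_T_neg`); for `k = |z i| ≥ h ^ 9` use
`E T(0, k e_i) ≤ m (k e_i) + 3 sg h k` and `m (k e_i) ≤ (μ e_i + 1) k` for large `k`; for `k < h ^ 9` use `E_T_le`. -/
theorem mean_lin (hmu : MuM μ m) (p : ℕ) :
    ∃ C : ℝ, 1 ≤ C ∧ ∀ᶠ h : ℝ in atTop, ∀ (a : ℝ) (M : Mdl d a h), GoodN Q m p M → ∀ z : V d, nm z ≤ h ^ p →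
      M.E (fun τ => T τ 0 z) ≤ C * nm z + h ^ 20 := by
  choose C hC1 hC using fun i : Fin d => Med2_line (Q := Q) hmu p (dir i) (nm_dir i)
  have hC0 : ∀ i, 0 ≤ C i := fun i => zero_le_one.trans (hC1 i)
  have hle : ∀ i, C i ≤ ∑ j, C j := fun i => Finset.single_le_sum (fun j _ => hC0 j) (Finset.mem_univ i)
  refine ⟨∑ i, C i, (hC1 0).trans (hle 0), ?_⟩
  filter_upwards [eventually_all.2 hC, eventually_ge_atTop (4 * (d : ℝ)), eventually_ge_atTop (1 : ℝ)]
    with h hl hd h1 a M hM z hz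
  have key : ∀ S : Finset (Fin d), M.E (fun τ => T τ 0 (∑ i ∈ S, (z i) • dir i)) ≤
      ∑ i ∈ S, (C i * |(z i : ℝ)| + 4 * h ^ 11) := by
    intro S
    induction S using Finset.induction_on with
    | empty =>
      simp only [Finset.sum_empty]
      exact M.E_le_of_le fun τ hτ => (T_self hτ hM.apos.le 0).le
    | @insert i S hi ih =>
      rw [Finset.sum_insert hi, Finset.sum_insert hi]
      refine (E_T_add hM _ _).trans (add_le_add ?_ ih)
      rw [Med2_natAbs hM]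
      have hk : (((z i).natAbs : ℕ) : ℝ) = |(z i : ℝ)| := by
        rw [Nat.cast_natAbs, Int.cast_abs]
      have h3 := hl i a M hM (z i).natAbs (by rw [hk]; exact (abs_le_nm z i).trans hz)
      rw [hk] at h3
      exact h3
  have h2 := key Finset.univ
  rw [← Med2_coord z, Finset.sum_add_distrib, Finset.sum_const, Finset.card_univ, Fintype.card_fin,
    nsmul_eq_mul] at h2
  refine h2.trans (add_le_add ?_ ?_)
  · have hn : nm z = ∑ i, |(z i : ℝ)| := rfl
    rw [hn, Finset.mul_sum]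
    exact Finset.sum_le_sum fun i _ => mul_le_mul_of_nonneg_right (hle i) (abs_nonneg _)
  · have e1 : h ^ 20 = h ^ 9 * h ^ 11 := by ring
    rw [e1, ← mul_assoc]
    apply mul_le_mul_of_nonneg_right _ (by positivity)
    calc (d : ℝ) * 4 = 4 * d := by ring
      _ ≤ h := hd
      _ ≤ h ^ 9 := le_self_pow₀ h1 (by norm_num)

/-- The medians in the real direction `e`. PROOF. Choose `q : V d` and `k ≥ 1` with `rn (e - q / k)` small, so that
`μ q / k ≤ μ e + ε / 8` (continuity). For `r` large let `h = r^(1/1000)` and a good model of range `p = 2000` at scale `h`;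
`z = j • q + s` with `j = ⌊r / k⌋`, `nm s ≤ η r + C`;
`m z ≤ E T(0,z) + 3 sg ≤ E T(0, j q) + E T(0, s) + 3 sg ≤ m (j • q) + C nm s + small` by `mean_med`, `E_T_add`, `mean_lin`,
and `m (j • q) ≤ j (μ q + small)`. -/
theorem med_dir (hmu : MuM μ m) (hN : HasN Q m) (e : Fin d → ℝ) (ε : ℝ) (hε : 0 < ε) :
    ∃ r₀ : ℝ, ∀ r : ℝ, r₀ ≤ r → ∀ z : V d, rn (toR z - r • e) ≤ 10 * d → m z ≤ r * (μ e + ε) := by
  obtain ⟨C, hC1, hlin⟩ := mean_lin (Q := Q) hmu 2000
  have hd1 : (1 : ℝ) ≤ d := by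
    have : 1 ≤ d := Nat.one_le_iff_ne_zero.2 (NeZero.ne d)
    exact_mod_cast this
  -- continuity
  obtain ⟨η, hη0, hη⟩ := Metric.continuousAt_iff.1 (hmu.cont.continuousAt (x := e)) (ε / 8)
    (by positivity)
  -- the rational direction
  obtain ⟨k, hk⟩ := exists_nat_gt (max (8 * C * d / ε) (max (d / η) 1))
  have hk1 : 8 * C * d / ε < k := (le_max_left _ _).trans_lt hk
  have hk2 : d / η < k := ((le_max_left _ _).trans (le_max_right _ _)).trans_lt hk
  have hk3 : (1 : ℝ) < k := ((le_max_right _ _).trans (le_max_right _ _)).trans_lt hk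
  have hk0 : (0 : ℝ) < k := by linarith
  obtain ⟨q, hq⟩ : ∃ q : V d, rn (toR q - (k : ℝ) • e) ≤ d := ⟨rnd ((k : ℝ) • e), rnd_near _⟩
  -- `μ (q / k)` is near `μ e`
  have hmuq : μ (toR q) ≤ k * (μ e + ε / 8) := by
    have h1 : toR q = (k : ℝ) • ((k : ℝ)⁻¹ • toR q) := by
      rw [smul_smul, mul_inv_cancel₀ hk0.ne', one_smul]
    have h2 : dist ((k : ℝ)⁻¹ • toR q) e < η := by
      rw [dist_eq_norm]
      refine (Med2_norm_le _).trans_lt ?_
      have h3 : (k : ℝ)⁻¹ • toR q - e = (k : ℝ)⁻¹ • (toR q - (k : ℝ) • e) := by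
        rw [smul_sub, smul_smul, inv_mul_cancel₀ hk0.ne', one_smul]
      rw [h3, rn_smul, abs_of_pos (inv_pos.2 hk0)]
      calc (k : ℝ)⁻¹ * rn (toR q - (k : ℝ) • e) ≤ (k : ℝ)⁻¹ * d :=
            mul_le_mul_of_nonneg_left hq (inv_nonneg.2 hk0.le)
        _ = d / k := by rw [div_eq_inv_mul]
        _ < η := by
          rw [div_lt_iff₀ hk0]
          rw [div_lt_iff₀ hη0] at hk2
          linarith
    have h3 := hη h2
    rw [Real.dist_eq] at h3
    have h4 := (abs_lt.1 h3).2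
    rw [h1, hmu.hom _ _ hk0.le]
    exact mul_le_mul_of_nonneg_left (by linarith) hk0.le
  -- the limit along `q`
  have h1 := (hmu.lim q).eventually (gt_mem_nhds (show μ (toR q) < μ (toR q) + ε / 8 by linarith))
  obtain ⟨J, hJ⟩ := eventually_atTop.1 h1
  obtain ⟨h₁, hh₁⟩ := eventually_atTop.1 ((hN 2000).and hlin)
  obtain ⟨D, hD⟩ : ∃ D : ℝ, D = nm q + rn e + 20 * d := ⟨_, rfl⟩
  have hnq := nm_nonneg q
  have hrd := rn_nonneg e
  have hD1 : 1 ≤ D := by rw [hD]; linarith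
  obtain ⟨x, hx⟩ : ∃ x : ℝ, x = μ (toR q) + ε / 8 := ⟨_, rfl⟩
  obtain ⟨K, hK⟩ : ∃ K : ℝ, K = |x| + C * (10 * d + nm q) + 1 + 6 * (√D + 1) := ⟨_, rfl⟩
  have hsD : 0 ≤ √D := Real.sqrt_nonneg D
  have hK0 : 0 < K := by rw [hK]; positivity
  obtain ⟨H, hH⟩ : ∃ H : ℝ, H = max h₁ (max D (2 * K / ε)) := ⟨_, rfl⟩
  refine ⟨max ((max H 1) ^ 1000) (k * (J + 2)), fun r hr z hz => ?_⟩
  have hr1 : (max H 1) ^ 1000 ≤ r := (le_max_left _ _).trans hr
  have hr2 : (k : ℝ) * (J + 2) ≤ r := (le_max_right _ _).trans hr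
  have hr0 : 0 < r := lt_of_lt_of_le (by positivity) hr2
  obtain ⟨h, hpow, hge, hgeo⟩ := Med2_scale 1000 (by norm_num) H hr1
  rw [hH] at hge
  have hge1 : h₁ ≤ h := (le_max_left _ _).trans hge
  have hgeD : D ≤ h := (le_max_left _ _).trans ((le_max_right _ _).trans hge)
  have hgeK : 2 * K / ε ≤ h := (le_max_right _ _).trans ((le_max_right _ _).trans hge)
  obtain ⟨⟨a, M, hM⟩, hlin'⟩ := hh₁ h hge1
  have hmean := hlin' a M hM
  have hr1' : 1 ≤ r := by
    rw [← hpow]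
    exact one_le_pow₀ hgeo
  have hDr : D * r ≤ h ^ 2000 := by
    calc D * r ≤ h * h ^ 1000 := by
          rw [hpow]
          exact mul_le_mul_of_nonneg_right hgeD hr0.le
      _ = h ^ 1001 := by ring
      _ ≤ h ^ 2000 := pow_le_pow_right₀ hgeo (by norm_num)
  -- the decomposition
  obtain ⟨j, hj⟩ : ∃ j : ℕ, j = ⌊r / k⌋₊ := ⟨_, rfl⟩
  have hjle : (j : ℝ) ≤ r / k := by
    rw [hj]
    exact Nat.floor_le (by positivity)
  have hjge : r / k < j + 1 := by
    rw [hj]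
    exact Nat.lt_floor_add_one _
  have hrk : r / k ≤ r := div_le_self hr0.le hk3.le
  have hrk0 : 0 ≤ r / k := by positivity
  have hJj : (J : ℝ) + 1 ≤ j := by
    have h2 : (J : ℝ) + 2 ≤ r / k := by
      rw [le_div_iff₀ hk0]
      linarith
    linarith
  have hj0 : (0 : ℝ) < j := by
    have := Nat.cast_nonneg (α := ℝ) J
    linarith
  obtain ⟨s, hs⟩ : ∃ s : V d, s = z - j • q := ⟨_, rfl⟩
  have hzs : z = j • q + s := by rw [hs]; abel
  have hnz : nm z ≤ D * r := by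
    have h2 : toR z = (toR z - r • e) + r • e := by abel
    rw [nm_eq_rn, h2]
    refine (rn_add_le _ _).trans ?_
    rw [rn_smul, abs_of_pos hr0, hD]
    have a1 : 0 ≤ nm q * r := mul_nonneg hnq hr0.le
    have a2 : (d : ℝ) ≤ d * r := le_mul_of_one_le_right (by linarith) hr1'
    have a3 : (nm q + rn e + 20 * (d : ℝ)) * r = nm q * r + r * rn e + 20 * (d * r) := by ring
    rw [a3]
    clear hlin hmean hlin' hJ hη
    linarith
  have hnj : nm (j • q) ≤ D * r := by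
    rw [Med2_nm_nsmul, hD]
    have : (j : ℝ) ≤ r := hjle.trans hrk
    have h2 : (j : ℝ) * nm q ≤ r * nm q := mul_le_mul_of_nonneg_right this hnq
    have a1 : 0 ≤ (rn e + 20 * (d : ℝ)) * r := mul_nonneg (by linarith) hr0.le
    have a3 : (nm q + rn e + 20 * (d : ℝ)) * r = r * nm q + (rn e + 20 * (d : ℝ)) * r := by ring
    rw [a3]
    linarith
  have hns : nm s ≤ 10 * d + r / k * d + nm q := by
    have h2 : toR s = (toR z - r • e) + ((-(r / k)) • (toR q - (k : ℝ) • e) +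
        (r / k - j) • toR q) := by
      rw [hs, toR_sub, toR_nsmul, smul_sub, smul_smul, sub_smul]
      have h3 : -(r / k) * (k : ℝ) = -r := by field_simp
      rw [h3, neg_smul, neg_smul]
      abel
    rw [nm_eq_rn, h2]
    refine (rn_add_le _ _).trans ?_
    have h3 := rn_add_le ((-(r / k)) • (toR q - (k : ℝ) • e)) ((r / k - j) • toR q)
    have h4 : rn ((-(r / k)) • (toR q - (k : ℝ) • e)) ≤ r / k * d := by
      rw [rn_smul, abs_neg, abs_of_nonneg hrk0]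
      exact mul_le_mul_of_nonneg_left hq hrk0
    have h5 : rn ((r / k - j) • toR q) ≤ nm q := by
      rw [rn_smul, abs_of_nonneg (by linarith), nm_eq_rn]
      exact mul_le_of_le_one_left (rn_nonneg (toR q)) (by linarith)
    linarith
  have hns' : nm s ≤ h ^ 2000 := by
    refine (hns.trans ?_).trans hDr
    rw [hD]
    have h2 : r / k * d ≤ r * d := mul_le_mul_of_nonneg_right hrk (by linarith)
    have a1 : nm q ≤ nm q * r := le_mul_of_one_le_right hnq hr1'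
    have a2 : (d : ℝ) ≤ d * r := le_mul_of_one_le_right (by linarith) hr1'
    have a4 : 0 ≤ rn e * r := mul_nonneg hrd hr0.le
    have a3 : (nm q + rn e + 20 * (d : ℝ)) * r = nm q * r + rn e * r + 20 * (d * r) := by ring
    rw [a3]
    linarith
  -- the estimates
  have e1 := mean_med hM hgeo z (hnz.trans hDr)
  have e2 := mean_med hM hgeo (j • q) (hnj.trans hDr)
  have e3 : M.E (fun τ => T τ 0 z) ≤ M.E (fun τ => T τ 0 (j • q)) + M.E (fun τ => T τ 0 s) := by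
    conv_lhs => rw [hzs]
    exact E_T_add hM _ _
  have e4 := hmean s hns'
  have e5 : m (j • q) ≤ r / k * x + |x| := by
    have h2 := hJ j (by
      have : (J : ℝ) ≤ j := by linarith
      exact_mod_cast this)
    rw [div_lt_iff₀ hj0, ← hx] at h2
    have h3 : x * (j - r / k) ≤ |x| := by
      refine (le_abs_self _).trans ?_
      rw [abs_mul]
      have h4 : |(j : ℝ) - r / k| ≤ 1 := by
        rw [abs_le]
        constructor <;> linarith
      calc |x| * |(j : ℝ) - r / k| ≤ |x| * 1 := mul_le_mul_of_nonneg_left h4 (abs_nonneg _)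
        _ = |x| := mul_one _
    have h4 : x * j = x * (j - r / k) + r / k * x := by ring
    linarith
  have hsg : ∀ ρ : ℝ, ρ ≤ D * r → sg h ρ ≤ (√D + 1) * h ^ 504 := by
    intro ρ hρ
    refine (sg_mono hgeo hρ).trans ?_
    unfold sg
    have h2 : √(D * r) = √D * h ^ 500 := by
      rw [Real.sqrt_mul (by linarith), ← hpow, show h ^ 1000 = (h ^ 500) ^ 2 by ring,
        Real.sqrt_sq (by positivity)]
    rw [h2]
    have h3 : h ^ 11 ≤ h ^ 504 := pow_le_pow_right₀ hgeo (by norm_num)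
    calc h ^ 4 * (√D * h ^ 500) + h ^ 11 = √D * h ^ 504 + h ^ 11 := by ring
      _ ≤ (√D + 1) * h ^ 504 := by linarith
  have e6 := hsg _ hnz
  have e7 := hsg _ hnj
  have hp1 : 1 ≤ h ^ 504 := one_le_pow₀ hgeo
  have hp20 : h ^ 20 ≤ h ^ 504 := pow_le_pow_right₀ hgeo (by norm_num)
  have e8 : C * nm s ≤ C * (10 * d + nm q) * h ^ 504 + ε / 8 * r := by
    have h2 : C * nm s ≤ C * (10 * d + r / k * d + nm q) := mul_le_mul_of_nonneg_left hns (by linarith)
    have h3 : C * (r / k * d) ≤ ε / 8 * r := by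
      rw [div_lt_iff₀ hε] at hk1
      have h4 : C * (r / k * d) = C * d * r / k := by ring
      rw [h4, div_le_iff₀ hk0]
      have h5 : C * d ≤ ε / 8 * k := by linarith
      calc C * d * r ≤ ε / 8 * k * r := mul_le_mul_of_nonneg_right h5 hr0.le
        _ = ε / 8 * r * k := by ring
    have h4 : C * (10 * d + nm q) * 1 ≤ C * (10 * d + nm q) * h ^ 504 :=
      mul_le_mul_of_nonneg_left hp1 (by positivity)
    linarith
  have e9 : |x| * 1 ≤ |x| * h ^ 504 := mul_le_mul_of_nonneg_left hp1 (abs_nonneg _)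
  have e10 : r / k * x ≤ r * (μ e + ε / 8) + ε / 8 * r := by
    have h3 : x ≤ k * (μ e + ε / 8) + ε / 8 := by rw [hx]; linarith
    have h4 := mul_le_mul_of_nonneg_left h3 hrk0
    have h5 : r / k * (k * (μ e + ε / 8) + ε / 8) = r * (μ e + ε / 8) + r / k * (ε / 8) := by
      field_simp
    have h6 : r / k * (ε / 8) ≤ r * (ε / 8) := mul_le_mul_of_nonneg_right hrk (by positivity)
    linarith
  have e11 : K * h ^ 504 ≤ ε / 2 * r := by
    rw [div_le_iff₀ hε] at hgeK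
    have h2 : K ≤ ε / 2 * h := by linarith
    calc K * h ^ 504 ≤ ε / 2 * h * h ^ 504 := mul_le_mul_of_nonneg_right h2 (by positivity)
      _ = ε / 2 * h ^ 505 := by ring
      _ ≤ ε / 2 * h ^ 1000 := by
        apply mul_le_mul_of_nonneg_left _ (by positivity)
        exact pow_le_pow_right₀ hgeo (by norm_num)
      _ = ε / 2 * r := by rw [hpow]
  have e12 : K * h ^ 504 = |x| * h ^ 504 + C * (10 * d + nm q) * h ^ 504 + h ^ 504 +
      6 * ((√D + 1) * h ^ 504) := by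
    rw [hK]
    ring
  rw [abs_le] at e1 e2
  have e13 := mul_pos hε hr0
  linarith [e1.1, e2.2]

/-- The exponential beats every power. -/
private theorem Med2_exp (c : ℝ) (n : ℕ) : ∀ᶠ h : ℝ in atTop, c * h ^ n * Real.exp (-h) ≤ Real.exp (-(h / 2)) := by
  have h1 := Real.tendsto_pow_mul_exp_neg_atTop_nhds_zero n
  have h2 : Tendsto (fun h : ℝ => h / 2) atTop atTop := tendsto_id.atTop_div_const (by norm_num)
  have h3 := ((h1.comp h2).const_mul (c * 2 ^ n)).eventually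
    (gt_mem_nhds (show c * 2 ^ n * 0 < 1 by rw [mul_zero]; exact zero_lt_one))
  filter_upwards [h3] with h h4
  simp only [Function.comp_apply] at h4
  have h6 : Real.exp (-h) = Real.exp (-(h / 2)) * Real.exp (-(h / 2)) := by
    rw [← Real.exp_add]
    congr 1
    ring
  have h5 : c * h ^ n * Real.exp (-h) =
      c * 2 ^ n * ((h / 2) ^ n * Real.exp (-(h / 2))) * Real.exp (-(h / 2)) := by
    rw [h6, div_pow]
    have h7 : (2 : ℝ) ^ n ≠ 0 := by positivity
    field_simp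
  rw [h5]
  have h7 := Real.exp_pos (-(h / 2))
  nlinarith

/-- The lower bound holds with overwhelming probability. PROOF. For `x, z` in the box put `w = z - x`,
`nm w ≤ 2 h ^ p ≤ h ^ (p + 1)`. If `nm w ≥ C`: `μ w ≤ m w + C (nm w)^(1/2 + 4/(p + 1))` (`mu_le_med` for `p + 1`),
`(nm w)^(4/(p + 1)) ≤ h ^ 4`, and with probability `≥ 1 - exp (-h)` `T x z > m w - 4 sg h (nm w)` (`low_med`, `P_T_sub`).
If `nm w < C`: `μ w ≤ C' ≤ h ^ 12`. Union over the at most `(2 h ^ p + 1)^(2 d)` pairs. -/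
theorem LT_prob (hmu : MuM μ m) (hN : HasN Q m) (p : ℕ) (hp : 30 ≤ p) :
    ∀ᶠ h : ℝ in atTop, ∀ (a : ℝ) (M : Mdl d a h), GoodN Q m (p + 1) M →
      M.P (fun τ => ¬ LT μ p h τ) ≤ Real.exp (-(h / 2)) := by
  obtain ⟨C, hC1, hC⟩ := mu_le_med hmu hN (p + 1) (by omega)
  obtain ⟨C', hC'1, hC'⟩ := abs_mu_le hmu
  filter_upwards [Med2_exp 1 ((p + 1) * d + (p + 1) * d), eventually_ge_atTop (max (C' * C) (C + 100))]
    with h hexp hh a M hM
  have hhC' : C' * C ≤ h := (le_max_left _ _).trans hh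
  have hhC : C + 100 ≤ h := (le_max_right _ _).trans hh
  have hh1 : 1 ≤ h := by linarith
  have hh0 : 0 < h := by linarith
  have hhp : 1 ≤ h ^ p := one_le_pow₀ hh1
  -- the box
  obtain ⟨N, hN'⟩ : ∃ N : ℕ, N = ⌈h ^ p⌉₊ := ⟨_, rfl⟩
  have hN1 : h ^ p ≤ N := by
    rw [hN']
    exact Nat.le_ceil _
  have hN2 : (N : ℝ) < h ^ p + 1 := by
    rw [hN']
    exact Nat.ceil_lt_add_one (by positivity)
  obtain ⟨B, hB⟩ : ∃ B : Finset (V d), B = Fintype.piFinset fun _ => Finset.Icc (-(N : ℤ)) N :=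
    ⟨_, rfl⟩
  have hmem : ∀ x : V d, nm x ≤ h ^ p → x ∈ B := by
    intro x hx
    rw [hB, Fintype.mem_piFinset]
    intro i
    have h1 : |(x i : ℝ)| ≤ N := ((abs_le_nm x i).trans hx).trans hN1
    rw [Finset.mem_Icc]
    rw [abs_le] at h1
    refine ⟨?_, ?_⟩
    · have := h1.1; exact_mod_cast this
    · have := h1.2; exact_mod_cast this
  have hBc : (B.card : ℝ) ≤ h ^ ((p + 1) * d) := by
    rw [hB, Fintype.card_piFinset, Finset.prod_const, Finset.card_univ, Fintype.card_fin, Int.card_Icc]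
    have h1 : ((((N : ℤ) + 1 - -(N : ℤ)).toNat : ℕ) : ℝ) = 2 * N + 1 := by
      have h2 : ((N : ℤ) + 1 - -(N : ℤ)).toNat = 2 * N + 1 := by omega
      rw [h2]
      push_cast
      ring
    push_cast
    rw [h1, pow_mul]
    refine pow_le_pow_left₀ (by positivity) ?_ d
    have h3 : 2 * (N : ℝ) + 1 ≤ 5 * h ^ p := by linarith
    have h4 : 5 * h ^ p ≤ h * h ^ p := mul_le_mul_of_nonneg_right (by linarith) (by linarith)
    rw [pow_succ, mul_comm (h ^ p) h]
    linarith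
  -- one pair
  have hpair : ∀ x z : V d, nm x ≤ h ^ p → nm z ≤ h ^ p →
      M.P (fun τ => T τ x z + er h (nm (z - x)) < μ (toR (z - x))) ≤ Real.exp (-h) := by
    intro x z hx hz
    rw [P_T_sub hM x z (fun t => t + er h (nm (z - x)) < μ (toR (z - x)))]
    obtain ⟨w, hw⟩ : ∃ w : V d, w = z - x := ⟨_, rfl⟩
    rw [← hw]
    have hnw : nm w ≤ h ^ (p + 1) := by
      rw [hw, sub_eq_add_neg]
      refine (nm_add_le _ _).trans ?_
      rw [nm_neg]
      calc nm z + nm x ≤ 2 * h ^ p := by linarith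
        _ ≤ h * h ^ p := by
          apply mul_le_mul_of_nonneg_right _ (by positivity)
          linarith
        _ = h ^ (p + 1) := by rw [pow_succ']
    have hnw0 := nm_nonneg w
    by_cases hc : C ≤ nm w
    · have h1 := hC w hc
      refine le_trans (M.P_mono fun τ _ hτ => ?_) (low_med hM hh1 w hnw)
      have h2 : (nm w) ^ (1 / 2 + 4 / ((p + 1 : ℕ) : ℝ)) ≤ h ^ 4 * √(nm w) := by
        have hpos : 0 < nm w := by linarith
        have h3 : (nm w) ^ (1 / 2 + 4 / ((p + 1 : ℕ) : ℝ)) = (nm w) ^ (4 / ((p + 1 : ℕ) : ℝ)) * √(nm w) := by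
          rw [Real.sqrt_eq_rpow, ← Real.rpow_add hpos, add_comm]
        rw [h3]
        apply mul_le_mul_of_nonneg_right _ (Real.sqrt_nonneg _)
        calc (nm w) ^ (4 / ((p + 1 : ℕ) : ℝ)) ≤ (h ^ (p + 1)) ^ (4 / ((p + 1 : ℕ) : ℝ)) :=
              Real.rpow_le_rpow hnw0 hnw (by positivity)
          _ = h ^ 4 := by
            rw [← Real.rpow_natCast h (p + 1), ← Real.rpow_mul hh0.le]
            have : ((p + 1 : ℕ) : ℝ) * (4 / ((p + 1 : ℕ) : ℝ)) = ((4 : ℕ) : ℝ) := by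
              have hne : ((p + 1 : ℕ) : ℝ) ≠ 0 := by positivity
              field_simp
              norm_num
            rw [this, Real.rpow_natCast]
      have h4 : C * (nm w) ^ (1 / 2 + 4 / ((p + 1 : ℕ) : ℝ)) ≤ C * (h ^ 4 * √(nm w)) :=
        mul_le_mul_of_nonneg_left h2 (by linarith)
      unfold er at hτ
      unfold sg
      have h5 : C * (h ^ 4 * √(nm w)) + 4 * (h ^ 4 * √(nm w)) ≤ h ^ 7 * √(nm w) := by
        have h6 : C * h ^ 4 + 4 * h ^ 4 ≤ h ^ 7 := by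
          have h8 : (C + 4) * h ^ 4 ≤ h * h ^ 4 := mul_le_mul_of_nonneg_right (by linarith) (by positivity)
          have h9 : h * h ^ 4 = h ^ 5 := by ring
          have h10 : h ^ 5 ≤ h ^ 7 := pow_le_pow_right₀ hh1 (by norm_num)
          linarith
        have h7 := mul_le_mul_of_nonneg_right h6 (Real.sqrt_nonneg (nm w))
        linarith
      have h6 : 4 * h ^ 11 ≤ h ^ 12 := by
        rw [pow_succ h 11]
        have : 0 < h ^ 11 := by positivity
        nlinarith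
      linarith
    · push Not at hc
      have h1 : μ (toR w) ≤ h ^ 12 := by
        have h2 := (le_abs_self _).trans (hC' (toR w))
        rw [← nm_eq_rn] at h2
        calc μ (toR w) ≤ C' * nm w := h2
          _ ≤ C' * C := mul_le_mul_of_nonneg_left hc.le (by linarith)
          _ ≤ h := hhC'
          _ ≤ h ^ 12 := le_self_pow₀ hh1 (by norm_num)
      have h2 : M.P (fun τ => T τ 0 w + er h (nm w) < μ (toR w)) ≤ M.P (fun _ => False) := by
        refine M.P_mono fun τ hτ h3 => ?_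
        have h4 := T_nonneg hτ hM.apos.le 0 w
        have h5 : h ^ 12 ≤ er h (nm w) := by
          unfold er
          have : 0 ≤ h ^ 7 * √(nm w) := by positivity
          linarith
        linarith
      refine h2.trans ?_
      rw [M.P_def]
      simp only [if_false]
      rw [M.E_const]
      exact (Real.exp_pos _).le
  -- the union
  have hun : M.P (fun τ => ¬ LT μ p h τ) ≤ M.P (fun τ => ∃ i ∈ B ×ˢ B,
      (nm (i.1 : V d) ≤ h ^ p ∧ nm (i.2 : V d) ≤ h ^ p) ∧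
        T τ i.1 i.2 + er h (nm (i.2 - i.1)) < μ (toR (i.2 - i.1))) := by
    refine M.P_mono fun τ _ hτ => ?_
    unfold LT at hτ
    push Not at hτ
    obtain ⟨x, z, hx, hz, h1⟩ := hτ
    exact ⟨(x, z), Finset.mem_product.2 ⟨hmem x hx, hmem z hz⟩, ⟨hx, hz⟩, h1⟩
  refine hun.trans ((M.P_exists_le _ _).trans ?_)
  have hone : ∀ i ∈ B ×ˢ B, M.P (fun τ => (nm (i.1 : V d) ≤ h ^ p ∧ nm (i.2 : V d) ≤ h ^ p) ∧
        T τ i.1 i.2 + er h (nm (i.2 - i.1)) < μ (toR (i.2 - i.1))) ≤ Real.exp (-h) := by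
    intro i _
    by_cases hi : nm (i.1 : V d) ≤ h ^ p ∧ nm (i.2 : V d) ≤ h ^ p
    · exact le_trans (M.P_mono fun τ _ h1 => h1.2) (hpair i.1 i.2 hi.1 hi.2)
    · refine le_trans (M.P_mono (q := fun _ => False) fun τ _ h1 => hi h1.1) ?_
      rw [M.P_def]
      simp only [if_false]
      rw [M.E_const]
      exact (Real.exp_pos _).le
  refine (Finset.sum_le_sum hone).trans ?_
  rw [Finset.sum_const, Finset.card_product, nsmul_eq_mul]
  push_cast
  have h1 : (B.card : ℝ) * B.card ≤ h ^ ((p + 1) * d + (p + 1) * d) := by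
    rw [pow_add]
    exact mul_le_mul hBc hBc (by positivity) (by positivity)
  rw [one_mul] at hexp
  exact (mul_le_mul_of_nonneg_right h1 (Real.exp_pos _).le).trans hexp

end Pool.Agent.W_1b8d5d_nd

end

/-! ### Prod -/

section

/-!
MP_1b8d5d_pr, [ND]: products of functions of disjoint sets of edges.
-/

set_option autoImplicit false

namespace Pool.Agent.W_1b8d5d_nd

open Finset Filter Topology
open Pool.Agent.W_1b8d5d_h85 (Ex Pr Vr avg)

variable {d : ℕ} [NeZero d] {Q : Qn} {m : V d → ℝ} {p : ℕ} {a h : ℝ} {M : Mdl d a h} {ι : Type*}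

theorem prod_indep (hM : GoodN Q m p M) (s : Finset ι) (A : ι → Set (Edge d))
    (hA : ∀ i ∈ s, ∀ j ∈ s, i ≠ j → Disjoint (A i) (A j)) (hR : ∀ i ∈ s, ∀ e ∈ A i, nm e.1 ≤ h ^ (p + 100))
    (F : ι → Env d → ℝ) (hF : ∀ i ∈ s, DependsOn (F i) (A i)) :
    M.E (fun τ => ∏ i ∈ s, F i τ) = ∏ i ∈ s, M.E (F i) := by
  classical
  induction s using Finset.induction_on with
  | empty => simp [M.E_const]
  | insert i s hi ih =>
    have h1 := ih (fun j hj k hk => hA j (mem_insert_of_mem hj) k (mem_insert_of_mem hk))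
      (fun j hj => hR j (mem_insert_of_mem hj)) (fun j hj => hF j (mem_insert_of_mem hj))
    rw [prod_insert hi, ← h1]
    have h2 : (fun τ => ∏ j ∈ insert i s, F j τ) = fun τ => F i τ * ∏ j ∈ s, F j τ := by
      funext τ
      rw [prod_insert hi]
    rw [h2]
    refine hM.indep (A i) {e | ∃ j ∈ s, e ∈ A j} ?_ ?_ (F i) (fun τ => ∏ j ∈ s, F j τ)
      (hF i (mem_insert_self i s)) ?_
    · rw [Set.disjoint_left]
      rintro e he ⟨j, hj, he'⟩
      have hij : i ≠ j := fun h3 => hi (h3 ▸ hj)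
      exact Set.disjoint_left.1 (hA i (mem_insert_self i s) j (mem_insert_of_mem hj) hij) he he'
    · rintro e (he | ⟨j, hj, he⟩)
      · exact hR i (mem_insert_self i s) e he
      · exact hR j (mem_insert_of_mem hj) e he
    · intro τ τ' hτ
      refine prod_congr rfl fun j hj => ?_
      exact hF j (mem_insert_of_mem hj) fun e he => hτ e ⟨j, hj, he⟩

/-- None of the independent events. -/
theorem none_indep (hM : GoodN Q m p M) (s : Finset ι) (A : ι → Set (Edge d))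
    (hA : ∀ i ∈ s, ∀ j ∈ s, i ≠ j → Disjoint (A i) (A j)) (hR : ∀ i ∈ s, ∀ e ∈ A i, nm e.1 ≤ h ^ (p + 100))
    (q : ι → Env d → Prop) (hq0 : ∀ i ∈ s, DependsOn (q i) (A i)) (r : ℝ) (hq : ∀ i ∈ s, r ≤ M.P (q i)) (hq1 : r ≤ 1) :
    M.P (fun τ => ∀ i ∈ s, ¬ q i τ) ≤ (1 - r) ^ s.card := by
  classical
  have h1 : M.P (fun τ => ∀ i ∈ s, ¬ q i τ) ≤
      M.E (fun τ => ∏ i ∈ s, (if ¬ q i τ then (1 : ℝ) else 0)) := by
    rw [M.P_def]
    refine M.E_mono fun τ _ => ?_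
    by_cases hall : ∀ i ∈ s, ¬ q i τ
    · rw [if_pos hall, prod_congr rfl fun i hi => if_pos (hall i hi), prod_const_one]
    · rw [if_neg hall]
      exact prod_nonneg fun i _ => by split_ifs <;> norm_num
  refine h1.trans ?_
  rw [prod_indep hM s A hA hR (fun i τ => if ¬ q i τ then (1 : ℝ) else 0) ?_]
  · have h2 : ∀ i ∈ s, M.E (fun τ => if ¬ q i τ then (1 : ℝ) else 0) = 1 - M.P (q i) := by
      intro i _
      rw [← M.P_not, M.P_def]
      refine M.E_congr fun τ _ => ?_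
      by_cases hh : q i τ <;> simp [hh]
    rw [prod_congr rfl h2]
    calc ∏ i ∈ s, (1 - M.P (q i)) ≤ ∏ _i ∈ s, (1 - r) := by
          refine prod_le_prod (fun i _ => ?_) fun i hi => ?_
          · have := M.P_le_one (q i)
            linarith
          · have := hq i hi
            linarith
      _ = (1 - r) ^ s.card := by rw [prod_const]
  · intro i hi τ τ' hτ
    have h3 : q i τ = q i τ' := hq0 i hi hτ
    simp only [h3]

open Classical in
/-- Few of the independent events. PROOF. `E ∏ 3 ^ (1 - 1_{q i}) ≤ (3 - 2 * 0.48) ^ s.card` and on the event the product is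
`≥ 3 ^ (7 s.card / 8)`; `2.04 ≤ (4/5) * 3 ^ (7/8)`. -/
theorem few_indep (hM : GoodN Q m p M) (s : Finset ι) (A : ι → Set (Edge d))
    (hA : ∀ i ∈ s, ∀ j ∈ s, i ≠ j → Disjoint (A i) (A j)) (hR : ∀ i ∈ s, ∀ e ∈ A i, nm e.1 ≤ h ^ (p + 100))
    (q : ι → Env d → Prop) (hq0 : ∀ i ∈ s, DependsOn (q i) (A i)) (hq : ∀ i ∈ s, 48 / 100 ≤ M.P (q i)) :
    M.P (fun τ => 8 * (s.filter fun i => q i τ).card ≤ s.card) ≤ (4 / 5) ^ s.card := by
  set F : ι → Env d → ℝ := fun i τ => if q i τ then (1 : ℝ) else 3 with hFdef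
  have hF0 : ∀ i τ, 0 ≤ F i τ := by
    intro i τ
    simp only [hFdef]
    split_ifs <;> norm_num
  have h1 : M.P (fun τ => 8 * (s.filter fun i => q i τ).card ≤ s.card) ≤
      M.P (fun τ => (13 / 5 : ℝ) ^ s.card ≤ ∏ i ∈ s, F i τ) := by
    refine M.P_mono fun τ _ hτ => ?_
    have hprod : ∏ i ∈ s, F i τ = 3 ^ (s.filter fun i => ¬ q i τ).card := by
      simp only [hFdef]
      rw [prod_ite, prod_const_one, one_mul, prod_const]
    have hcard : (s.filter fun i => q i τ).card + (s.filter fun i => ¬ q i τ).card = s.card :=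
      card_filter_add_card_filter_not _
    have h2 : ((13 / 5 : ℝ) ^ s.card) ^ 8 ≤ (∏ i ∈ s, F i τ) ^ 8 := by
      rw [hprod, ← pow_mul, ← pow_mul, mul_comm s.card 8, pow_mul]
      calc ((13 / 5 : ℝ) ^ 8) ^ s.card ≤ ((3 : ℝ) ^ 7) ^ s.card :=
            pow_le_pow_left₀ (by positivity) (by norm_num) _
        _ = 3 ^ (7 * s.card) := by rw [← pow_mul]
        _ ≤ 3 ^ ((s.filter fun i => ¬ q i τ).card * 8) :=
            pow_le_pow_right₀ (by norm_num) (by omega)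
    exact le_of_pow_le_pow_left₀ (by norm_num) (prod_nonneg fun i _ => hF0 i τ) h2
  refine h1.trans ((M.markov (fun τ _ => prod_nonneg fun i _ => hF0 i τ) (by positivity)).trans ?_)
  rw [prod_indep hM s A hA hR F ?_]
  · have h2 : ∀ i ∈ s, M.E (F i) ≤ 51 / 25 := by
      intro i hi
      have h3 : M.E (F i) = 3 - 2 * M.P (q i) := by
        rw [M.P_def, ← M.E_mul_left, ← M.E_const 3, ← M.E_sub]
        refine M.E_congr fun τ _ => ?_
        simp only [hFdef]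
        split_ifs <;> norm_num
      have := hq i hi
      linarith
    have h4 : ∏ i ∈ s, M.E (F i) ≤ (51 / 25) ^ s.card := by
      rw [← prod_const]
      exact prod_le_prod (fun i _ => M.E_nonneg fun τ _ => hF0 i τ) h2
    rw [div_le_iff₀ (by positivity), ← mul_pow]
    exact h4.trans (pow_le_pow_left₀ (by norm_num) (by norm_num) _)
  · intro i hi τ τ' hτ
    have h3 : q i τ = q i τ' := hq0 i hi hτ
    simp only [hFdef, h3]

/-- The upper tail of a sum of independent bounded variables. PROOF. `exp t ≤ 1 + t + t ^ 2` for `t ≤ 1`, exponential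
Markov with `lam = s / (2 B ^ 2)`. -/
theorem sum_tail (hM : GoodN Q m p M) (s : Finset ι) (A : ι → Set (Edge d))
    (hA : ∀ i ∈ s, ∀ j ∈ s, i ≠ j → Disjoint (A i) (A j)) (hR : ∀ i ∈ s, ∀ e ∈ A i, nm e.1 ≤ h ^ (p + 100))
    (F : ι → Env d → ℝ) (hF : ∀ i ∈ s, DependsOn (F i) (A i)) (B ρ t : ℝ) (hB : 0 < B)
    (h0 : ∀ i ∈ s, ∀ τ, Bd a h τ → 0 ≤ F i τ ∧ F i τ ≤ B) (hE : ∀ i ∈ s, M.E (F i) ≤ ρ) (ht : 0 ≤ t) (htB : t ≤ B) :
    M.P (fun τ => s.card * (ρ + t) ≤ ∑ i ∈ s, F i τ) ≤ Real.exp (-(s.card * t ^ 2 / (4 * B ^ 2))) := by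
  set lam : ℝ := t / (2 * B ^ 2) with hlam
  have hlam0 : 0 ≤ lam := by positivity
  have hlB : lam * B ≤ 1 := by
    rw [hlam, div_mul_eq_mul_div, div_le_one (by positivity)]
    nlinarith
  have hexp : ∀ i ∈ s, M.E (fun τ => Real.exp (lam * F i τ)) ≤
      Real.exp (lam * ρ + lam ^ 2 * B ^ 2) := by
    intro i hi
    set μ : ℝ := M.E (F i) with hμ
    have hμ0 : 0 ≤ μ := M.E_nonneg fun τ hτ => (h0 i hi τ hτ).1
    have hμB : μ ≤ B := M.E_le_of_le fun τ hτ => (h0 i hi τ hτ).2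
    have h1 : M.E (fun τ => Real.exp (lam * (F i τ - μ))) ≤ 1 + lam ^ 2 * B ^ 2 := by
      have h2 : M.E (fun τ => Real.exp (lam * (F i τ - μ))) ≤
          M.E (fun τ => (1 + lam ^ 2 * B ^ 2) + lam * (F i τ - μ)) := by
        refine M.E_mono fun τ hτ => ?_
        obtain ⟨h3, h4⟩ := h0 i hi τ hτ
        have h5 : |F i τ - μ| ≤ B := by
          rw [abs_le]
          constructor <;> linarith
        have h6 : |lam * (F i τ - μ)| ≤ lam * B := by
          rw [abs_mul, abs_of_nonneg hlam0]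
          exact mul_le_mul_of_nonneg_left h5 hlam0
        have h7 := Real.abs_exp_sub_one_sub_id_le (h6.trans hlB)
        have h8 := (abs_le.1 h7).2
        have h9 : (lam * (F i τ - μ)) ^ 2 ≤ (lam * B) ^ 2 := by
          rw [← sq_abs (lam * (F i τ - μ))]
          exact pow_le_pow_left₀ (abs_nonneg _) h6 2
        have h10 : (lam * B) ^ 2 = lam ^ 2 * B ^ 2 := by ring
        linarith
      refine h2.trans ?_
      rw [M.E_add, M.E_const, M.E_mul_left, M.E_sub, M.E_const]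
      simp [hμ]
    have h2 : M.E (fun τ => Real.exp (lam * F i τ)) =
        Real.exp (lam * μ) * M.E (fun τ => Real.exp (lam * (F i τ - μ))) := by
      rw [← M.E_mul_left]
      refine M.E_congr fun τ _ => ?_
      rw [← Real.exp_add]
      congr 1
      ring
    rw [h2, Real.exp_add]
    refine mul_le_mul (Real.exp_le_exp.2 (mul_le_mul_of_nonneg_left (hE i hi) hlam0))
      (h1.trans ?_) (M.E_nonneg fun τ _ => (Real.exp_pos _).le) (Real.exp_pos _).le
    have := Real.add_one_le_exp (lam ^ 2 * B ^ 2)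
    linarith
  have h1 : M.P (fun τ => s.card * (ρ + t) ≤ ∑ i ∈ s, F i τ) ≤
      M.P (fun τ => Real.exp (lam * (s.card * (ρ + t))) ≤ ∏ i ∈ s, Real.exp (lam * F i τ)) := by
    refine M.P_mono fun τ _ hτ => ?_
    rw [← Real.exp_sum, ← mul_sum]
    exact Real.exp_le_exp.2 (mul_le_mul_of_nonneg_left hτ hlam0)
  refine h1.trans ((M.markov (fun τ _ => prod_nonneg fun i _ => (Real.exp_pos _).le)
    (Real.exp_pos _)).trans ?_)
  rw [prod_indep hM s A hA hR (fun i τ => Real.exp (lam * F i τ)) ?_]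
  · have h2 : ∏ i ∈ s, M.E (fun τ => Real.exp (lam * F i τ)) ≤
        Real.exp (s.card * (lam * ρ + lam ^ 2 * B ^ 2)) := by
      rw [Real.exp_nat_mul, ← prod_const]
      exact prod_le_prod (fun i _ => M.E_nonneg fun τ _ => (Real.exp_pos _).le) hexp
    rw [div_le_iff₀ (Real.exp_pos _), ← Real.exp_add]
    refine h2.trans (Real.exp_le_exp.2 (le_of_eq ?_))
    rw [hlam]
    field_simp
    ring
  · intro i hi τ τ' hτ
    have h3 : F i τ = F i τ' := hF i hi hτ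
    simp only [h3]

end Pool.Agent.W_1b8d5d_nd

end

/-! ### Mono -/

section

/-!
MP_1b8d5d_pr, [ND]: monotonicity in the range exponent.
-/

set_option autoImplicit false

namespace Pool.Agent.W_1b8d5d_nd

open Finset Filter Topology
open Pool.Agent.W_1b8d5d_h85 (Ex Pr Vr avg)

variable {d : ℕ} [NeZero d] {Q : Qn} {m : V d → ℝ} {a h : ℝ} {M : Mdl d a h} {μ : (Fin d → ℝ) → ℝ}

theorem GoodN.mono {p p' : ℕ} (hM : GoodN Q m p M) (h1 : 1 ≤ h) (hp : p' ≤ p) : GoodN Q m p' M := by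
  have e1 : h ^ p' ≤ h ^ p := pow_le_pow_right₀ h1 hp
  have e2 : h ^ (p' + 100) ≤ h ^ (p + 100) := pow_le_pow_right₀ h1 (by omega)
  exact {
    apos := hM.apos
    alt := hM.alt
    inv := hM.inv
    rfl' := hM.rfl'
    indep := fun A B hAB hR F G hF hG => hM.indep A B hAB (fun e he => (hR e he).trans e2) F G hF hG
    medU := fun z hz => hM.medU z (hz.trans e1)
    medL := fun z hz => hM.medL z (hz.trans e1)
    low := fun z hz => hM.low z (hz.trans e1)
    var := fun z hz => hM.var z (hz.trans e1)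
    peierls := by
      refine le_trans (M.P_mono fun τ _ => ?_) hM.peierls
      rintro ⟨x, y, w, g1, g2, g3, g4, g5⟩
      exact ⟨x, y, w, g1.trans e1, g2, g3, g4.trans e1, g5⟩
    tilt := by
      intro C δ hC h0 h2
      obtain ⟨J, j1, j2, j3, j4, j5⟩ := hM.tilt C δ (fun e he => (hC e he).trans e2) h0 h2
      refine ⟨J, j1, j2, ?_, j4, j5⟩
      intro ω ω' hJ
      refine ⟨(j3 ω ω' hJ).1, ?_⟩
      intro e he hn
      exact (j3 ω ω' hJ).2 e he (hn.trans e2) }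

theorem LT.mono {p p' : ℕ} {τ : Env d} (hL : LT μ p h τ) (h1 : 1 ≤ h) (hp : p' ≤ p) : LT μ p' h τ := by
  have e1 : h ^ p' ≤ h ^ p := pow_le_pow_right₀ h1 hp
  exact fun x z hx hz => hL x z (hx.trans e1) (hz.trans e1)

end Pool.Agent.W_1b8d5d_nd

end

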