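import Mathlib
import Pool.Agent.W_1b8d5d_nd.MainA
import Pool.Agent.W_1b8d5d_np.R8
import Pool.Agent.W_1b8d5d_np.R9End

/-!
MP_1b8d5d_pr, [ND]: sections 8 and 9: the no vertex theorem from the numerical inputs. One file, so that the proofs are elaborated in parallel;
one section for each of the former files.
-/

/-! ### Ch1 -/

section

/-!
MP_1b8d5d_pr, [ND], section 9 (many blocks): inputs, centres, the points of a walk at the levels.
-/

set_option autoImplicit false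

namespace Pool.Agent.W_1b8d5d_nd

open Finset Filter Topology
open Pool.Agent.W_1b8d5d_h85 (Ex Pr Vr avg)
open Pool.Agent.W_1b8d5d_np (rmax hy chg seqs)

variable {d : ℕ} [NeZero d]

/-- The results of sections 1 to 8 which are used in section 9. -/
structure Inp (Q : Qn) (X : Vtx d) (μ : (Fin d → ℝ) → ℝ) (m : V d → ℝ) (D : ℕ) : Prop where
  dim : 1000 * (d + 2) ≤ D
  width : ∃ C₀ : ℝ, 0 < C₀ ∧ ∀ᶠ h : ℝ in atTop, ∀ (a : ℝ) (M : Mdl d a h), GoodN Q m (2 * D + 200) M →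
    ∀ n : ℕ, h ^ (D - 1) ≤ n → (n : ℝ) ≤ h ^ D →
      1 / 4 ≤ M.P (fun τ => Reach (X.lane 0 n (C₀ * bb X m n) (C₀ * bb X m n)) τ 0 (X.rd n) (n + C₀ * bb X m n))
  thin : ∀ K δ p₀ : ℝ, 0 < K → 0 < δ → 0 < p₀ → ∀ᶠ h : ℝ in atTop, ∀ (a : ℝ) (M : Mdl d a h),
    GoodN Q m (2 * D + 200) M → ∀ n : ℕ, h ^ (D - 1) ≤ n → (n : ℝ) ≤ h ^ D → ∀ i : Fin X.N,
      M.P (fun τ => ∃ x ∈ X.Dw 0 (K * bb X m n), ∃ z ∈ X.Dw (X.rd n) (K * bb X m n),
        T τ x z ≤ X.ff i (z - x) - δ * bb X m n) ≤ p₀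
  grow : ∀ᶠ n : ℕ in atTop, (n : ℝ) ^ ((1 : ℝ) / (d + 3)) ≤ bb X m n
  fast : ∀ᶠ n : ℕ in atTop, m (X.rd n) ≤ n + (n : ℝ) ^ ((51 : ℝ) / 100)
  low : ∀ᶠ h : ℝ in atTop, ∀ (a : ℝ) (M : Mdl d a h), GoodN Q m (2 * D + 200) M →
    M.P (fun τ => ¬ LT μ (2 * D + 199) h τ) ≤ Real.exp (-(h / 2))
  lin : ∃ C : ℝ, 0 < C ∧ ∀ᶠ h : ℝ in atTop, ∀ (a : ℝ) (M : Mdl d a h), GoodN Q m (2 * D + 200) M →
    M.P (fun τ => ¬ ∀ x z : V d, nm x ≤ h ^ (D + 10) → nm z ≤ h ^ (D + 10) →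
      T τ x z ≤ C * nm (z - x) + h ^ 102) ≤ 1 / h

theorem bb_eq_rmax (X : Vtx d) (m : V d → ℝ) (n : ℕ) : bb X m n = rmax (fun l => m (X.rd l) - l) n := by
  apply le_antisymm
  · unfold bb
    refine Finset.sup'_le _ _ fun l hl => max_le ?_ ?_
    · exact Pool.Agent.W_1b8d5d_np.one_le_rmax _ _
    · exact Pool.Agent.W_1b8d5d_np.le_rmax (fun l : ℕ => m (X.rd l) - (l : ℝ))
        (Nat.le_of_lt_succ (Finset.mem_range.1 hl))
  · refine Pool.Agent.W_1b8d5d_np.rmax_le (one_le_bb m n) fun r hr => ?_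
    have h1 := med_le_bb (X := X) m hr
    show m (X.rd r) - (r : ℝ) ≤ bb X m n
    linarith

/-- The centre with the index `a` in the block `i`: all blocks have the displacement `X.rd n`. -/
noncomputable def cen (X : Vtx d) (e : ℝ) (n i : ℕ) (a : V d) : V d := rnd (e • toR a) + i • X.rd n

theorem cen_succ (X : Vtx d) (e : ℝ) (n i : ℕ) (a : V d) : cen X e n (i + 1) a = cen X e n i a + X.rd n := by
  unfold cen
  rw [succ_nsmul, add_assoc]

private theorem Ch1_supp {A : Set (V d)} {x y : V d} (w : (grid d).Walk x y) (hA : ∀ e ∈ wedges w, e ∈ edg A) :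
    ∀ q ∈ w.support, q = x ∨ q ∈ A := by
  induction w with
  | nil =>
    intro q hq
    left
    simpa using hq
  | @cons u v y h p ih =>
    have hw : wedges (SimpleGraph.Walk.cons h p) = ke s(u, v) :: wedges p := by
      unfold wedges
      rw [SimpleGraph.Walk.edges_cons, List.map_cons]
    rw [hw] at hA
    have h1 : ke s(u, v) ∈ edg A := hA _ List.mem_cons_self
    have h2 : v ∈ A := by
      obtain ⟨i, hi | hi⟩ := h
      · rw [hi, ke_dir] at h1
        rw [hi]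
        exact h1.2
      · rw [hi, ke_dir'] at h1
        exact h1.1
    intro q hq
    rw [SimpleGraph.Walk.support_cons, List.mem_cons] at hq
    rcases hq with hq | hq
    · exact Or.inl hq
    · right
      rcases ih (fun e he => hA e (List.mem_cons_of_mem _ he)) q hq with h3 | h3
      · rw [h3]
        exact h2
      · exact h3

/-- Splitting a walk at the first passages of the levels `α 0 ≤ α 1 ≤ ... ≤ α (J - 1)`. PROOF: induction on `J`; first passage of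
the LAST level `α J` (`first_passage`, or the starting point if `f x = α J`), the first piece is split by the induction
hypothesis; `takeUntil`/`dropUntil`, `cost_append`, `T_le_cost`. -/
theorem split_walk {a b : ℝ} {τ : Env d} (hτ : Bd a b τ) (ha : 0 ≤ a) (f : V d → ℝ) (c : ℝ) (hc : 0 ≤ c)
    (hf : ∀ x y, (grid d).Adj x y → |f y - f x| ≤ c) (α : ℕ → ℝ) (hα : Monotone α) (J : ℕ)
    {x y : V d} (w : (grid d).Walk x y) (hx : f x ≤ α 0) (hy : ∀ j < J, α j ≤ f y) :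
    ∃ z : ℕ → V d, z 0 = x ∧ z (J + 1) = y ∧
      (∀ j < J, z (j + 1) ∈ w.support ∧ α j ≤ f (z (j + 1)) ∧ f (z (j + 1)) ≤ α j + c) ∧
      ∑ j ∈ range (J + 1), T τ (z j) (z (j + 1)) ≤ cost τ w := by
  induction J generalizing x y with
  | zero =>
    refine ⟨fun j => if j = 0 then x else y, if_pos rfl, if_neg (Nat.succ_ne_zero 0), fun j hj => absurd hj (Nat.not_lt_zero j), ?_⟩
    rw [zero_add, Finset.sum_range_one]
    simpa using T_le_cost hτ ha w
  | succ J ih =>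
    have hxJ : f x ≤ α J := hx.trans (hα (Nat.zero_le J))
    obtain ⟨i, hi1, hi2, hi3⟩ : ∃ i ≤ w.length, α J ≤ f (w.getVert i) ∧ f (w.getVert i) ≤ α J + c := by
      rcases hxJ.lt_or_eq with h | h
      · obtain ⟨i, h1, h2, h3, -⟩ := first_passage f c hf (α J) w h (hy J (Nat.lt_succ_self J))
        exact ⟨i, h1, h2, h3.le⟩
      · refine ⟨0, Nat.zero_le _, ?_, ?_⟩
        · rw [SimpleGraph.Walk.getVert_zero, h]
        · rw [SimpleGraph.Walk.getVert_zero, h]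
          linarith
    obtain ⟨z, hz0, hz1, hz2, hz3⟩ := ih (w.take i) hx fun j hj => (hα hj.le).trans hi2
    have hsub : ∀ q ∈ (w.take i).support, q ∈ w.support := by
      intro q hq
      have h1 : w = (w.take i).append (w.drop i) := (SimpleGraph.Walk.append_take_drop_eq w i).symm
      rw [h1, SimpleGraph.Walk.mem_support_append_iff]
      exact Or.inl hq
    have hmem : w.getVert i ∈ w.support := w.getVert_mem_support i
    refine ⟨fun j => if j ≤ J + 1 then z j else y, ?_, ?_, ?_, ?_⟩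
    · show (if 0 ≤ J + 1 then z 0 else y) = x
      rw [if_pos (Nat.zero_le _), hz0]
    · show (if J + 1 + 1 ≤ J + 1 then z (J + 1 + 1) else y) = y
      rw [if_neg (by omega)]
    · intro j hj
      show (if j + 1 ≤ J + 1 then z (j + 1) else y) ∈ w.support ∧ α j ≤ f (if j + 1 ≤ J + 1 then z (j + 1) else y) ∧
        f (if j + 1 ≤ J + 1 then z (j + 1) else y) ≤ α j + c
      rw [if_pos (by omega)]
      rcases Nat.lt_succ_iff_lt_or_eq.1 hj with h | h
      · exact ⟨hsub _ (hz2 j h).1, (hz2 j h).2⟩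
      · subst h
        rw [hz1]
        exact ⟨hmem, hi2, hi3⟩
    · rw [Finset.sum_range_succ]
      have h1 : ∑ j ∈ range (J + 1), T τ (if j ≤ J + 1 then z j else y) (if j + 1 ≤ J + 1 then z (j + 1) else y) =
          ∑ j ∈ range (J + 1), T τ (z j) (z (j + 1)) := by
        refine Finset.sum_congr rfl fun j hj => ?_
        rw [Finset.mem_range] at hj
        rw [if_pos (by omega), if_pos (by omega)]
      have h2 : (if J + 1 ≤ J + 1 then z (J + 1) else y) = w.getVert i := by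
        rw [if_pos le_rfl, hz1]
      have h3 : (if J + 1 + 1 ≤ J + 1 then z (J + 1 + 1) else y) = y := by
        rw [if_neg (by omega)]
      have h4 : cost τ w = cost τ (w.take i) + cost τ (w.drop i) := by
        rw [← cost_append, SimpleGraph.Walk.append_take_drop_eq]
      have h5 := T_le_cost hτ ha (w.drop i)
      show ∑ j ∈ range (J + 1), T τ (if j ≤ J + 1 then z j else y) (if j + 1 ≤ J + 1 then z (j + 1) else y) +
        T τ (if J + 1 ≤ J + 1 then z (J + 1) else y) (if J + 1 + 1 ≤ J + 1 then z (J + 1 + 1) else y) ≤ cost τ w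
      rw [h1, h2, h3, h4]
      linarith

/-- The points of a walk inside the lane at the levels `j * X.gg (X.rd n)`. PROOF. `split_walk` for `f = X.gg`, `c = X.C`,
`α j = (j + 1) * X.gg (X.rd n)`, `J = L - 1`; the last point is replaced by `L • X.rd n` (triangle inequality). -/
theorem points {X : Vtx d} {μ : (Fin d → ℝ) → ℝ} (hX : IsVtx X μ) {a h : ℝ} {τ : Env d} (ha : 0 < a) (hτ : Bd a h τ)
    {L n N : ℕ} (hN : N = L * n) (hL : 1 ≤ L) (hn : (L + 1) * X.C ≤ n) {W s : ℝ} (hW : 0 ≤ W)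
    (hr : Reach (X.lane 0 N W W) τ 0 (X.rd N) s) :
    ∃ z : ℕ → V d, z 0 = 0 ∧ z L = L • X.rd n ∧
      (∀ j ≤ L, |X.gg (z j) - j * X.gg (X.rd n)| ≤ X.C ∧ X.lat (z j) ≤ W + L * X.C) ∧
      ∑ j ∈ range L, T τ (z j) (z (j + 1)) ≤ s + T τ (X.rd N) (L • X.rd n) := by
  obtain ⟨w, hwA, hws⟩ := hr
  obtain ⟨J, rfl⟩ : ∃ J, L = J + 1 := ⟨L - 1, by omega⟩
  have hC := one_le_C hX
  have hG := abs_le.1 (gg_rd hX (n : ℝ))
  have hGN := abs_le.1 (gg_rd hX (N : ℝ))
  obtain ⟨G, hGd⟩ : ∃ G : ℝ, G = X.gg (X.rd n) := ⟨_, rfl⟩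
  rw [← hGd] at hG ⊢
  have hJ0 : (0 : ℝ) ≤ J := Nat.cast_nonneg J
  push_cast at hn
  have hG0 : 0 ≤ G := by nlinarith
  have hα : Monotone fun j : ℕ => ((j : ℝ) + 1) * G := by
    intro i j hij
    have h1 : (i : ℝ) ≤ j := by exact_mod_cast hij
    exact mul_le_mul_of_nonneg_right (by linarith) hG0
  have hNr : (N : ℝ) = (J + 1) * n := by
    rw [hN]
    push_cast
    ring
  obtain ⟨z, hz0, hz1, hz2, hz3⟩ := split_walk hτ ha.le X.gg X.C (by linarith)
    (fun x y hxy => gg_step hX hxy) (fun j : ℕ => ((j : ℝ) + 1) * G) hα J w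
    (by rw [Vtx.gg_zero]; simpa using hG0)
    (by
      intro j hj
      have h1 : (j : ℝ) + 1 ≤ J := by exact_mod_cast hj
      have h2 : ((j : ℝ) + 1) * G ≤ J * G := mul_le_mul_of_nonneg_right h1 hG0
      have h3 : (J : ℝ) * G ≤ J * (n + X.C) := mul_le_mul_of_nonneg_left (by linarith) hJ0
      show ((j : ℝ) + 1) * G ≤ X.gg (X.rd N)
      nlinarith)
  have hlat : ∀ q ∈ w.support, X.lat q ≤ W := by
    intro q hq
    rcases Ch1_supp w hwA q hq with h | h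
    · rw [h, Vtx.lat_zero]
      exact hW
    · have h1 := h.1
      rwa [sub_zero] at h1
  have hlatL : X.lat ((J + 1) • X.rd n) ≤ (J + 1) * X.C := by
    have h1 : ∀ k : ℕ, X.lat (k • X.rd n) ≤ k * X.C := by
      intro k
      induction k with
      | zero =>
        rw [zero_nsmul, Vtx.lat_zero, Nat.cast_zero, zero_mul]
      | succ k ih =>
        rw [succ_nsmul]
        have h2 := Vtx.lat_add_le (X := X) (k • X.rd n) (X.rd n)
        have h3 := lat_rd hX (n : ℝ)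
        push_cast
        linarith
    have h4 := h1 (J + 1)
    push_cast at h4
    exact h4
  have hggL : X.gg ((J + 1) • X.rd n) = (J + 1) * G := by
    have h1 : ∀ k : ℕ, X.gg (k • X.rd n) = k * G := by
      intro k
      induction k with
      | zero => rw [zero_nsmul, Vtx.gg_zero, Nat.cast_zero, zero_mul]
      | succ k ih =>
        rw [succ_nsmul, Vtx.gg_add, ih, ← hGd]
        push_cast
        ring
    have h4 := h1 (J + 1)
    push_cast at h4
    exact h4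
  refine ⟨fun j => if j = J + 1 then (J + 1) • X.rd n else z j, ?_, ?_, ?_, ?_⟩
  · show (if 0 = J + 1 then (J + 1) • X.rd n else z 0) = 0
    rw [if_neg (by omega), hz0]
  · show (if J + 1 = J + 1 then (J + 1) • X.rd n else z (J + 1)) = (J + 1) • X.rd n
    rw [if_pos rfl]
  · intro j hj
    show |X.gg (if j = J + 1 then (J + 1) • X.rd n else z j) - j * G| ≤ X.C ∧
      X.lat (if j = J + 1 then (J + 1) • X.rd n else z j) ≤ W + ((J + 1 : ℕ) : ℝ) * X.C
    push_cast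
    have hp : 0 ≤ ((J : ℝ) + 1) * X.C := by positivity
    by_cases h : j = J + 1
    · rw [if_pos h, hggL, h]
      push_cast
      rw [sub_self, abs_zero]
      exact ⟨by linarith, by linarith⟩
    · rw [if_neg h]
      rcases Nat.eq_zero_or_pos j with h0 | h0
      · rw [h0, hz0, Vtx.gg_zero, Vtx.lat_zero, Nat.cast_zero, zero_mul, sub_zero, abs_zero]
        exact ⟨by linarith, by linarith⟩
      · obtain ⟨k, rfl⟩ : ∃ k, j = k + 1 := ⟨j - 1, by omega⟩
        obtain ⟨h1, h2, h3⟩ := hz2 k (by omega)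
        have h4 := hlat _ h1
        refine ⟨?_, by linarith⟩
        push_cast
        rw [abs_le]
        constructor <;> linarith
  · rw [Finset.sum_range_succ] at hz3 ⊢
    have h1 : ∑ j ∈ range J, T τ (if j = J + 1 then (J + 1) • X.rd n else z j)
        (if j + 1 = J + 1 then (J + 1) • X.rd n else z (j + 1)) = ∑ j ∈ range J, T τ (z j) (z (j + 1)) := by
      refine Finset.sum_congr rfl fun j hj => ?_
      rw [Finset.mem_range] at hj
      rw [if_neg (by omega), if_neg (by omega)]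
    show ∑ j ∈ range J, T τ (if j = J + 1 then (J + 1) • X.rd n else z j)
        (if j + 1 = J + 1 then (J + 1) • X.rd n else z (j + 1)) +
      T τ (if J = J + 1 then (J + 1) • X.rd n else z J) (if J + 1 = J + 1 then (J + 1) • X.rd n else z (J + 1)) ≤
      s + T τ (X.rd N) ((J + 1) • X.rd n)
    rw [h1, if_neg (by omega), if_pos rfl]
    rw [hz1] at hz3
    have h2 := T_triangle hτ ha.le (z J) (X.rd N) ((J + 1) • X.rd n)
    linarith

end Pool.Agent.W_1b8d5d_nd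

end

/-! ### Ch6 -/

section

/-!
MP_1b8d5d_pr, [ND], section 9: the scales.
-/

set_option autoImplicit false

namespace Pool.Agent.W_1b8d5d_nd

open Finset Filter Topology
open Pool.Agent.W_1b8d5d_h85 (Ex Pr Vr avg)
open Pool.Agent.W_1b8d5d_np (rmax rmax_le one_le_rmax rmax_mono good_scales)

variable {d : ℕ} [NeZero d] {Q : Qn} {m : V d → ℝ} {X : Vtx d} {μ : (Fin d → ℝ) → ℝ} {D : ℕ}

/-- The scale of the model for `L` blocks of length `n`. -/
noncomputable def hh (L D n : ℕ) : ℝ := ((L : ℝ) * n) ^ ((1 : ℝ) / D)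

theorem hh_pow {L D n : ℕ} (hD : 1 ≤ D) : hh L D n ^ D = L * n := by
  unfold hh
  rw [← Real.rpow_natCast, ← Real.rpow_mul (by positivity), one_div, inv_mul_cancel₀ (by positivity), Real.rpow_one]

theorem hh_tendsto {L D : ℕ} (hL : 1 ≤ L) (hD : 1 ≤ D) : Tendsto (fun n => hh L D n) atTop atTop := by
  unfold hh
  have h1 : Tendsto (fun n : ℕ => (L : ℝ) * n) atTop atTop :=
    Tendsto.const_mul_atTop (by positivity) tendsto_natCast_atTop_atTop
  exact (tendsto_rpow_atTop (by positivity)).comp h1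

private theorem ch6_rpow {p q : ℝ} (h : p < q) {ε : ℝ} (hε : 0 < ε) : ∀ᶠ x : ℝ in atTop, x ^ p ≤ ε * x ^ q := by
  have h1 : Tendsto (fun x : ℝ => x ^ (q - p)) atTop atTop := tendsto_rpow_atTop (by linarith)
  filter_upwards [h1.eventually_ge_atTop (1 / ε), eventually_gt_atTop 0] with x h2 h3
  have h4 : x ^ q = x ^ p * x ^ (q - p) := by
    rw [← Real.rpow_add h3]
    congr 1
    ring
  have h5 : 0 < x ^ p := Real.rpow_pos_of_pos h3 p
  rw [h4]
  calc x ^ p = ε * (x ^ p * (1 / ε)) := by field_simp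
    _ ≤ ε * (x ^ p * x ^ (q - p)) := by gcongr

/-- The running maximum is at most `C n ^ (51/100)`. -/
theorem rmax_fast (hI : Inp Q X μ m D) :
    ∃ C : ℝ, ∀ n : ℕ, 1 ≤ n → rmax (fun l => m (X.rd l) - l) n ≤ C * (n : ℝ) ^ ((51 : ℝ) / 100) := by
  obtain ⟨r₀, hr₀⟩ := eventually_atTop.1 hI.fast
  set β : ℕ → ℝ := fun l => m (X.rd l) - l with hβ
  set C : ℝ := 1 + ∑ r ∈ range r₀, |β r| with hC
  have hC1 : 1 ≤ C := by
    rw [hC]
    have := sum_nonneg (s := range r₀) fun r _ => abs_nonneg (β r)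
    linarith
  refine ⟨C, fun n hn => ?_⟩
  have hn1 : (1 : ℝ) ≤ (n : ℝ) ^ ((51 : ℝ) / 100) := Real.one_le_rpow (by exact_mod_cast hn) (by norm_num)
  refine rmax_le (by nlinarith) fun r hr => ?_
  by_cases h : r < r₀
  · have h1 : |β r| ≤ ∑ r ∈ range r₀, |β r| :=
      single_le_sum (f := fun r => |β r|) (fun r _ => abs_nonneg _) (mem_range.2 h)
    have h2 := le_abs_self (β r)
    nlinarith
  · have h1 := hr₀ r (not_lt.1 h)
    have h2 : β r ≤ (r : ℝ) ^ ((51 : ℝ) / 100) := by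
      rw [hβ]
      dsimp only
      linarith
    have h3 : (r : ℝ) ^ ((51 : ℝ) / 100) ≤ (n : ℝ) ^ ((51 : ℝ) / 100) :=
      Real.rpow_le_rpow (by positivity) (by exact_mod_cast hr) (by norm_num)
    nlinarith

/-- The running maximum is unbounded. -/
theorem rmax_unb (hI : Inp Q X μ m D) (K : ℝ) : ∃ n, K < rmax (fun l => m (X.rd l) - l) n := by
  have h1 : Tendsto (fun n : ℕ => (n : ℝ) ^ ((1 : ℝ) / (d + 3))) atTop atTop :=
    (tendsto_rpow_atTop (by positivity)).comp tendsto_natCast_atTop_atTop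
  obtain ⟨n, hn1, hn2⟩ := ((h1.eventually_gt_atTop K).and hI.grow).exists
  refine ⟨n, ?_⟩
  rw [← bb_eq_rmax]
  linarith

/-- The inequalities at a large scale. -/
theorem scales (hI : Inp Q X μ m D) {L : ℕ} (hL : 1 ≤ L) (K : ℝ) : ∀ᶠ n : ℕ in atTop,
    K ≤ hh L D n ∧ (n : ℝ) ≤ hh L D n ^ D ∧ hh L D n ^ (D - 1) ≤ n ∧ K * hh L D n ^ 102 ≤ bb X m n ∧
      K * bb X m n ≤ n := by
  have hD := hI.dim
  have hD1 : 1 ≤ D := by omega
  obtain ⟨C, hC⟩ := rmax_fast hI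
  have hL1 : (1 : ℝ) ≤ L := by exact_mod_cast hL
  have hht := hh_tendsto (L := L) (D := D) hL hD1
  -- the two comparisons of powers
  have hd0 : (0 : ℝ) ≤ d := Nat.cast_nonneg d
  have hDR : (1000 : ℝ) * (d + 2) ≤ D := by exact_mod_cast hD
  have hDpos : (0 : ℝ) < D := by linarith
  have hexp : (102 : ℝ) / D < 1 / (d + 3) := by
    rw [div_lt_div_iff₀ hDpos (by linarith)]
    linarith
  have hcast : Tendsto (fun n : ℕ => (n : ℝ)) atTop atTop := tendsto_natCast_atTop_atTop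
  have e1 := hcast.eventually (ch6_rpow hexp (show (0 : ℝ) < 1 / ((|K| + 1) * L) by positivity))
  have e2 := hcast.eventually (ch6_rpow (show (51 : ℝ) / 100 < 1 by norm_num)
    (show (0 : ℝ) < 1 / ((|K| + 1) * (|C| + 1)) by positivity))
  filter_upwards [hht.eventually_ge_atTop K, hht.eventually_ge_atTop (L : ℝ), e1, e2, hI.grow,
    eventually_ge_atTop 1] with n h1 h2 h3 h4 h5 hn
  have hn1 : (1 : ℝ) ≤ n := by exact_mod_cast hn
  have hpow := hh_pow (L := L) (n := n) hD1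
  have hpos : 0 < hh L D n := by linarith
  refine ⟨h1, ?_, ?_, ?_, ?_⟩
  · rw [hpow]
    nlinarith
  · have h6 : hh L D n ^ (D - 1) * hh L D n = L * n := by
      rw [← pow_succ, Nat.sub_add_cancel hD1, hpow]
    have h7 : hh L D n ^ (D - 1) * L ≤ L * n := by
      rw [← h6]
      exact mul_le_mul_of_nonneg_left h2 (by positivity)
    have h8 : (hh L D n ^ (D - 1) - n) * L ≤ 0 := by linarith
    by_contra hcon
    push Not at hcon
    have h9 : 0 < (hh L D n ^ (D - 1) - n) * L := mul_pos (by linarith) (by linarith)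
    linarith
  · have h6 : hh L D n ^ 102 = ((L : ℝ) * n) ^ ((102 : ℝ) / D) := by
      unfold hh
      rw [← Real.rpow_natCast, ← Real.rpow_mul (by positivity)]
      congr 1
      push_cast
      ring
    have h7 : ((L : ℝ) * n) ^ ((102 : ℝ) / D) ≤ L * (n : ℝ) ^ ((102 : ℝ) / D) := by
      rw [Real.mul_rpow (by positivity) (by positivity)]
      refine mul_le_mul_of_nonneg_right ?_ (by positivity)
      calc (L : ℝ) ^ ((102 : ℝ) / D) ≤ (L : ℝ) ^ (1 : ℝ) := by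
            refine Real.rpow_le_rpow_of_exponent_le hL1 ?_
            rw [div_le_one hDpos]
            nlinarith
        _ = L := Real.rpow_one _
    have h8 : (|K| + 1) * L * (n : ℝ) ^ ((102 : ℝ) / D) ≤ (n : ℝ) ^ ((1 : ℝ) / (d + 3)) := by
      have h9 := mul_le_mul_of_nonneg_left h3 (show 0 ≤ (|K| + 1) * (L : ℝ) by positivity)
      have h10 : (|K| + 1) * (L : ℝ) * (1 / ((|K| + 1) * L) * (n : ℝ) ^ ((1 : ℝ) / (d + 3)))
          = (n : ℝ) ^ ((1 : ℝ) / (d + 3)) := by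
        have : (|K| + 1) * (L : ℝ) ≠ 0 := by positivity
        field_simp
      rw [h10] at h9
      exact h9
    rw [h6]
    have h11 := le_abs_self K
    have h12 : 0 ≤ ((L : ℝ) * n) ^ ((102 : ℝ) / D) := by positivity
    have h13 : 0 ≤ |K| + 1 := by positivity
    calc K * ((L : ℝ) * n) ^ ((102 : ℝ) / D) ≤ (|K| + 1) * ((L : ℝ) * n) ^ ((102 : ℝ) / D) :=
          mul_le_mul_of_nonneg_right (by linarith) h12
      _ ≤ (|K| + 1) * (L * (n : ℝ) ^ ((102 : ℝ) / D)) := mul_le_mul_of_nonneg_left h7 h13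
      _ = (|K| + 1) * L * (n : ℝ) ^ ((102 : ℝ) / D) := by ring
      _ ≤ _ := h8.trans h5
  · have h6 := hC n hn
    rw [← bb_eq_rmax] at h6
    rw [Real.rpow_one] at h4
    have h7 := one_le_bb (X := X) m n
    have h8 : bb X m n ≤ (|C| + 1) * (n : ℝ) ^ ((51 : ℝ) / 100) := by
      refine h6.trans (mul_le_mul_of_nonneg_right ?_ (by positivity))
      linarith [le_abs_self C]
    have h9 : (|K| + 1) * ((|C| + 1) * (n : ℝ) ^ ((51 : ℝ) / 100)) ≤ n := by
      have h10 := mul_le_mul_of_nonneg_left h4 (show 0 ≤ (|K| + 1) * (|C| + 1) by positivity)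
      have h11 : (|K| + 1) * (|C| + 1) * (1 / ((|K| + 1) * (|C| + 1)) * (n : ℝ)) = n := by
        have : (|K| + 1) * (|C| + 1) ≠ 0 := by positivity
        field_simp
      rw [h11] at h10
      linarith
    have h12 := le_abs_self K
    calc K * bb X m n ≤ (|K| + 1) * bb X m n := mul_le_mul_of_nonneg_right (by linarith) (by linarith)
      _ ≤ (|K| + 1) * ((|C| + 1) * (n : ℝ) ^ ((51 : ℝ) / 100)) :=
          mul_le_mul_of_nonneg_left h8 (by positivity)
      _ ≤ n := h9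

end Pool.Agent.W_1b8d5d_nd

end

/-! ### Ch2 -/

section

/-!
MP_1b8d5d_pr, [ND], section 9: from the points of a walk to a sequence of centres with few changes (deterministic).
-/

set_option autoImplicit false

namespace Pool.Agent.W_1b8d5d_nd

open Finset Filter Topology
open Pool.Agent.W_1b8d5d_h85 (Ex Pr Vr avg)
open Pool.Agent.W_1b8d5d_np (rmax hy chg seqs hyst mem_seqs chg_congr)

variable {d : ℕ}

/-- The box of the indices of the centres. -/
noncomputable def box (d k : ℕ) : Finset (V d) := Fintype.piFinset fun _ => Finset.Icc (-(2 * k + 2 : ℤ)) (2 * k + 2)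

theorem card_box (d k : ℕ) : (box d k).card = (4 * k + 5) ^ d := by
  unfold box
  rw [Fintype.card_piFinset]
  simp only [Int.card_Icc, prod_const, card_univ, Fintype.card_fin]
  congr 1
  omega

/-- Rounding to the lattice with the mesh `e`. -/
noncomputable def rde (e : ℝ) (x : Fin d → ℝ) : V d := fun i => round (x i / e)

theorem rde_near {e : ℝ} (he : 0 < e) (x : Fin d → ℝ) : ‖x - e • toR (rde e x)‖ ≤ e / 2 := by
  rw [pi_norm_le_iff_of_nonneg (by positivity)]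
  intro i
  have h1 := abs_sub_round (x i / e)
  have h2 : (x - e • toR (rde e x)) i = e * (x i / e - round (x i / e)) := by
    simp only [Pi.sub_apply, Pi.smul_apply, smul_eq_mul, toR, rde]
    field_simp
  rw [h2, Real.norm_eq_abs, abs_mul, abs_of_pos he]
  have := mul_le_mul_of_nonneg_left h1 he.le
  linarith

theorem norm_le_rn (x : Fin d → ℝ) : ‖x‖ ≤ rn x := by
  unfold rn
  rw [pi_norm_le_iff_of_nonneg (sum_nonneg fun i _ => abs_nonneg _)]
  intro i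
  rw [Real.norm_eq_abs]
  exact single_le_sum (f := fun i => |x i|) (fun i _ => abs_nonneg _) (mem_univ i)

theorem rn_le_norm (x : Fin d → ℝ) : rn x ≤ d * ‖x‖ := by
  unfold rn
  have h1 : ∀ i ∈ (univ : Finset (Fin d)), |x i| ≤ ‖x‖ := fun i _ => by
    have := norm_le_pi_norm x i
    rwa [Real.norm_eq_abs] at this
  have h2 := sum_le_sum h1
  rwa [sum_const, card_univ, Fintype.card_fin, nsmul_eq_mul] at h2

private theorem Ch2_rn_add (x y : Fin d → ℝ) : rn (x + y) ≤ rn x + rn y := by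
  unfold rn
  rw [← sum_add_distrib]
  exact sum_le_sum fun i _ => abs_add_le _ _

private theorem Ch2_rnd (x : Fin d → ℝ) : rn (x - toR (rnd x)) ≤ d := by
  unfold rn
  have h1 : ∀ i ∈ (univ : Finset (Fin d)), |(x - toR (rnd x)) i| ≤ 1 := fun i _ => by
    have h2 : (x - toR (rnd x)) i = x i - ⌊x i⌋ := rfl
    rw [h2, abs_le]
    have h3 := Int.floor_le (x i)
    have h4 := Int.lt_floor_add_one (x i)
    constructor <;> linarith
  have h2 := sum_le_sum h1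
  rwa [sum_const, card_univ, Fintype.card_fin, nsmul_eq_mul, mul_one] at h2

private theorem Ch2_toR_sub (x y : V d) : toR (x - y) = toR x - toR y := by
  funext i
  simp [toR]

private theorem Ch2_toR_nsmul (n : ℕ) (x : V d) : toR (n • x) = (n : ℝ) • toR x := by
  funext i
  simp [toR]

private theorem Ch2_nm (x : V d) : nm x = rn (toR x) := rfl

/-- The distance of a point to its centre. -/
private theorem Ch2_near [NeZero d] (X : Vtx d) {e : ℝ} {n i : ℕ} {z a : V d}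
    (h : ‖toR z - (i : ℝ) • toR (X.rd n) - e • toR a‖ ≤ 2 * e) : nm (z - cen X e n i a) ≤ d * (1 + 2 * e) := by
  have h1 : toR (z - cen X e n i a) =
      (toR z - (i : ℝ) • toR (X.rd n) - e • toR a) + (e • toR a - toR (rnd (e • toR a))) := by
    unfold cen
    rw [Ch2_toR_sub]
    have h2 : toR (rnd (e • toR a) + i • X.rd n) = toR (rnd (e • toR a)) + (i : ℝ) • toR (X.rd n) := by
      rw [← Ch2_toR_nsmul]
      funext t
      simp [toR]
    rw [h2]
    abel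
  rw [Ch2_nm, h1]
  refine (Ch2_rn_add _ _).trans ?_
  have h3 := (rn_le_norm (toR z - (i : ℝ) • toR (X.rd n) - e • toR a)).trans
    (mul_le_mul_of_nonneg_left h (Nat.cast_nonneg d))
  have h4 := Ch2_rnd (e • toR a)
  linarith

variable [NeZero d]

open Classical in
/-- PROOF. `y j = toR (z j) - j • toR (X.rd n)` (so `y 0 = 0`), `c = hy (fun a => e • toR a) (rde e) y e 0`,
`s = fun i => c (min i L)`.
(1) `gg (z (j+1) - z j) ≥ gg (X.rd n) - 2 C ≥ n - 3 C`. Summing `hlow` (the sum of `gg (z (j+1) - z j)` is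
`gg (z L) = L * gg (X.rd n) ≥ L n - L C`): `X.c * ∑ lat (z (j+1) - z j) ≤ W' + L D' + L C`.
(2) `‖y (j+1) - y j‖ ≤ nm (z (j+1) - z j - X.rd n) ≤ C (2 C + lat (z (j+1) - z j) + C)` (`nm_le`, `lat_rd`, `lat_sub_le`), so
`∑ ‖y (j+1) - y j‖ + e / 2 ≤ 3 / 2 e k` by `hk`; `hyst` gives `chg c L ≤ k` and `‖y i - e • toR (c i)‖ ≤ 2 e`.
(3) `‖e • toR (c i)‖ ≤ ∑ ‖y (j+1) - y j‖ + 2 e ≤ (3 / 2 k + 2) e` for `i ≤ L`, so `c i ∈ box d k`; `mem_seqs`.
(4) If `c (i+1) = c i`: `nm (z i - cen X e n i (c i)) ≤ d + d * 2 e` (`rnd_near`, `rn_le_norm`), the same for `i + 1`, and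
`hlin` (twice) gives `T (cen ..) (cen ..) ≤ T (z i) (z (i+1)) + 2 (Cl (d (1 + 2 e)) + hh)`.
(5) The changed blocks have `T (z i) (z (i+1)) - n ≥ -(3 C + D')`. -/
theorem seq_exists {X : Vtx d} {μ : (Fin d → ℝ) → ℝ} (hX : IsVtx X μ) {a b : ℝ} {τ : Env d} (ha : 0 < a)
    (hτ : Bd a b τ) {L n k : ℕ} {e D' W' Cl hh R : ℝ} (he : 0 < e) (hD : 0 ≤ D') (hW : 0 ≤ W') (hCl : 0 ≤ Cl)
    (hh0 : 0 ≤ hh) (z : ℕ → V d)
    (hz0 : z 0 = 0) (hzL : z L = L • X.rd n) (hgg : ∀ j ≤ L, |X.gg (z j) - j * X.gg (X.rd n)| ≤ X.C)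
    (hR : ∀ j ≤ L, nm (z j) + d * (1 + 2 * e) ≤ R)
    (hsum : ∑ j ∈ range L, T τ (z j) (z (j + 1)) ≤ L * n + W')
    (hlow : ∀ j < L, X.gg (z (j + 1) - z j) + X.c * X.lat (z (j + 1) - z j) - D' ≤ T τ (z j) (z (j + 1)))
    (hlin : ∀ x z : V d, nm x ≤ R → nm z ≤ R → T τ x z ≤ Cl * nm (z - x) + hh)
    (hk : X.C * ((W' + L * D' + L * X.C) / X.c) + 3 * X.C ^ 2 * L + e / 2 ≤ 3 / 2 * e * k) :
    ∃ s ∈ seqs (0 : V d) (box d k) L k, chg s L ≤ k ∧
      ∑ i ∈ (range L).filter (fun i => s (i + 1) = s i),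
        (T τ (cen X e n i (s i)) (cen X e n (i + 1) (s i)) - n) ≤
        W' + L * (3 * X.C + D') + L * (2 * (Cl * (d * (1 + 2 * e)) + hh)) := by
  have hC := one_le_C hX
  have hC0 : 0 ≤ X.C := by linarith
  have hc0 := hX.cpos
  have hG := abs_le.1 (gg_rd hX (n : ℝ))
  have hL0 : (0 : ℝ) ≤ L := Nat.cast_nonneg L
  have hd0 : (0 : ℝ) ≤ d := Nat.cast_nonneg d
  -- the transversal positions
  obtain ⟨y, hy'⟩ : ∃ y : ℕ → Fin d → ℝ, y = fun j => toR (z j) - (j : ℝ) • toR (X.rd n) := ⟨_, rfl⟩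
  have hyj : ∀ j, y j = toR (z j) - (j : ℝ) • toR (X.rd n) := fun j => by rw [hy']
  have hy0 : y 0 = 0 := by
    rw [hyj, hz0]
    funext t
    simp [toR]
  -- the centres
  obtain ⟨c, hc⟩ : ∃ c : ℕ → V d, c = hy (fun a : V d => e • toR a) (rde e) y e 0 := ⟨_, rfl⟩
  obtain ⟨hnear, hchg⟩ := hyst (fun a : V d => e • toR a) (rde e) (y := y) he (fun x => rde_near he x) (a₀ := (0 : V d))
    (by
      have h1 : y 0 - e • toR (0 : V d) = 0 := by
        rw [hy0]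
        funext t
        simp [toR]
      rw [h1, norm_zero]
      positivity) L
  rw [← hc] at hnear hchg
  have hc00 : c 0 = 0 := by rw [hc]; rfl
  -- differences of the levels
  have hdiff : ∀ j < L, |X.gg (z (j + 1) - z j) - X.gg (X.rd n)| ≤ 2 * X.C := by
    intro j hj
    have h1 := abs_le.1 (hgg j hj.le)
    have h2 := abs_le.1 (hgg (j + 1) hj)
    push_cast at h2
    rw [Vtx.gg_sub, abs_le]
    constructor <;> linarith
  have hTlow : ∀ j < L, (n : ℝ) - 3 * X.C - D' + X.c * X.lat (z (j + 1) - z j) ≤ T τ (z j) (z (j + 1)) := by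
    intro j hj
    have h1 := abs_le.1 (hdiff j hj)
    have h2 := hlow j hj
    linarith
  -- the sum of the lateral movements
  have hsumgg : ∑ j ∈ range L, X.gg (z (j + 1) - z j) = L * X.gg (X.rd n) := by
    have h1 : ∀ m : ℕ, ∑ j ∈ range m, X.gg (z (j + 1) - z j) = X.gg (z m) - X.gg (z 0) := by
      intro m
      induction m with
      | zero => simp
      | succ m ih => rw [sum_range_succ, ih, Vtx.gg_sub]; ring
    have h2 : ∀ m : ℕ, X.gg (m • X.rd n) = m * X.gg (X.rd n) := by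
      intro m
      induction m with
      | zero => simp [Vtx.gg_zero]
      | succ m ih => rw [succ_nsmul, Vtx.gg_add, ih]; push_cast; ring
    rw [h1, hz0, hzL, h2, Vtx.gg_zero, sub_zero]
  have hlat : X.c * ∑ j ∈ range L, X.lat (z (j + 1) - z j) ≤ W' + L * D' + L * X.C := by
    have h1 := sum_le_sum fun j (hj : j ∈ range L) => hlow j (mem_range.1 hj)
    rw [sum_sub_distrib, sum_add_distrib, hsumgg, ← mul_sum, sum_const, card_range, nsmul_eq_mul] at h1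
    have h2 : (L : ℝ) * (n - X.C) ≤ L * X.gg (X.rd n) := mul_le_mul_of_nonneg_left (by linarith) hL0
    linarith
  have hlat' : ∑ j ∈ range L, X.lat (z (j + 1) - z j) ≤ (W' + L * D' + L * X.C) / X.c := by
    rw [le_div_iff₀ hc0]
    linarith
  have hstep : ∀ j ∈ range L, ‖y (j + 1) - y j‖ ≤ X.C * X.lat (z (j + 1) - z j) + 3 * X.C ^ 2 := by
    intro j hj
    rw [mem_range] at hj
    have h1 : y (j + 1) - y j = toR (z (j + 1) - z j - X.rd n) := by
      rw [hyj, hyj, Ch2_toR_sub, Ch2_toR_sub]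
      push_cast
      rw [add_smul, one_smul]
      abel
    rw [h1]
    refine (norm_le_rn _).trans ?_
    rw [← Ch2_nm]
    have h2 := nm_le hX (z (j + 1) - z j - X.rd n)
    have h3 := hdiff j hj
    have h4 := Vtx.lat_sub_le (X := X) (z (j + 1) - z j) (X.rd n)
    have h5 := lat_rd hX (n : ℝ)
    rw [Vtx.gg_sub] at h2
    have h6 : X.C * (|X.gg (z (j + 1) - z j) - X.gg (X.rd n)| + X.lat (z (j + 1) - z j - X.rd n)) ≤
        X.C * (2 * X.C + (X.lat (z (j + 1) - z j) + X.C)) :=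
      mul_le_mul_of_nonneg_left (by linarith) hC0
    linarith
  have htot : ∑ j ∈ range L, ‖y (j + 1) - y j‖ + e / 2 ≤ 3 / 2 * e * k := by
    have h1 := sum_le_sum hstep
    rw [sum_add_distrib, ← mul_sum, sum_const, card_range, nsmul_eq_mul] at h1
    have h2 := mul_le_mul_of_nonneg_left hlat' hC0
    linarith
  have hchgk : chg c L ≤ k := by
    have h1 : 3 / 2 * e * (chg c L : ℝ) ≤ 3 / 2 * e * k := hchg.trans htot
    have h2 : (chg c L : ℝ) ≤ k := le_of_mul_le_mul_left h1 (by positivity)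
    exact_mod_cast h2
  have hbox : ∀ i ≤ L, c i ∈ box d k := by
    intro i hi
    have h1 : ∀ m : ℕ, ‖y m‖ ≤ ∑ j ∈ range m, ‖y (j + 1) - y j‖ := by
      intro m
      induction m with
      | zero => simp [hy0]
      | succ m ih =>
        rw [sum_range_succ]
        have h2 : y (m + 1) = y m + (y (m + 1) - y m) := by abel
        have h3 := norm_add_le (y m) (y (m + 1) - y m)
        rw [← h2] at h3
        linarith
    have h2 : ∑ j ∈ range i, ‖y (j + 1) - y j‖ ≤ ∑ j ∈ range L, ‖y (j + 1) - y j‖ :=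
      sum_le_sum_of_subset_of_nonneg (range_mono hi) fun _ _ _ => norm_nonneg _
    have h3 : ‖e • toR (c i)‖ ≤ ‖y i‖ + 2 * e := by
      have h4 : e • toR (c i) = y i - (y i - e • toR (c i)) := by abel
      rw [h4]
      exact (norm_sub_le _ _).trans (by linarith [hnear i])
    unfold box
    rw [Fintype.mem_piFinset]
    intro t
    have h4 := norm_le_pi_norm (e • toR (c i)) t
    have h5 : (e • toR (c i)) t = e * (c i t : ℝ) := rfl
    rw [h5, Real.norm_eq_abs, abs_mul, abs_of_pos he] at h4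
    have h6 : e * |(c i t : ℝ)| ≤ e * (2 * k + 2) := by
      have h7 := h1 i
      have h8 : 0 ≤ e * (k : ℝ) := by positivity
      linarith
    have h7 : |(c i t : ℝ)| ≤ 2 * k + 2 := le_of_mul_le_mul_left h6 he
    have h8 : |c i t| ≤ 2 * (k : ℤ) + 2 := by exact_mod_cast h7
    rw [mem_Icc]
    exact abs_le.1 h8
  have hmem := mem_seqs hc00 hbox hchgk
  have hcongr : chg (fun i => c (min i L)) L = chg c L := chg_congr fun i hi => by
    simp only [min_eq_left hi]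
  refine ⟨fun i => c (min i L), hmem, by rw [hcongr]; exact hchgk, ?_⟩
  -- the unchanged blocks
  have hblock : ∀ i ∈ (range L).filter (fun i => c (min (i + 1) L) = c (min i L)),
      T τ (cen X e n i (c (min i L))) (cen X e n (i + 1) (c (min i L))) - n ≤
        (T τ (z i) (z (i + 1)) - n) + 2 * (Cl * (d * (1 + 2 * e)) + hh) := by
    intro i hi
    rw [mem_filter, mem_range] at hi
    obtain ⟨hi, hic⟩ := hi
    rw [min_eq_left hi.le]
    rw [min_eq_left hi.le, min_eq_left (by omega : i + 1 ≤ L)] at hic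
    have h1 := hnear i
    have h2 := hnear (i + 1)
    rw [hyj] at h1 h2
    rw [hic] at h2
    have h3 := Ch2_near X h1
    have h4 := Ch2_near X h2
    have h5 : nm (cen X e n i (c i)) ≤ R := by
      have h6 := nm_add_le (cen X e n i (c i) - z i) (z i)
      rw [sub_add_cancel, nm_sub_comm] at h6
      linarith [hR i hi.le]
    have h6 : nm (cen X e n (i + 1) (c i)) ≤ R := by
      have h6 := nm_add_le (cen X e n (i + 1) (c i) - z (i + 1)) (z (i + 1))
      rw [sub_add_cancel, nm_sub_comm] at h6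
      linarith [hR (i + 1) hi]
    have hzi : nm (z i) ≤ R := by
      have : 0 ≤ (d : ℝ) * (1 + 2 * e) := by positivity
      linarith [hR i hi.le]
    have hzi' : nm (z (i + 1)) ≤ R := by
      have : 0 ≤ (d : ℝ) * (1 + 2 * e) := by positivity
      linarith [hR (i + 1) hi]
    have h7 := hlin _ _ h5 hzi
    have h8 := hlin _ _ hzi' h6
    rw [nm_sub_comm] at h8
    have h9 := mul_le_mul_of_nonneg_left h3 hCl
    have h10 := mul_le_mul_of_nonneg_left h4 hCl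
    have h11 := T_triangle hτ ha.le (cen X e n i (c i)) (z i) (cen X e n (i + 1) (c i))
    have h12 := T_triangle hτ ha.le (z i) (z (i + 1)) (cen X e n (i + 1) (c i))
    linarith
  have hE0 : 0 ≤ 2 * (Cl * (d * (1 + 2 * e)) + hh) := by positivity
  refine (sum_le_sum hblock).trans ?_
  rw [sum_add_distrib, sum_const, nsmul_eq_mul]
  have hcard : (((range L).filter (fun i => c (min (i + 1) L) = c (min i L))).card : ℝ) ≤ L := by
    have := card_filter_le (range L) (fun i => c (min (i + 1) L) = c (min i L))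
    rw [card_range] at this
    exact_mod_cast this
  have h1 := mul_le_mul_of_nonneg_right hcard hE0
  -- the changed blocks
  have h2 := sum_filter_add_sum_filter_not (range L) (fun i => c (min (i + 1) L) = c (min i L))
    (fun i => T τ (z i) (z (i + 1)) - (n : ℝ))
  have h3 : -((L : ℝ) * (3 * X.C + D')) ≤
      ∑ i ∈ (range L).filter (fun i => ¬ c (min (i + 1) L) = c (min i L)), (T τ (z i) (z (i + 1)) - (n : ℝ)) := by
    have h4 : ∀ i ∈ (range L).filter (fun i => ¬ c (min (i + 1) L) = c (min i L)),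
        -(3 * X.C + D') ≤ T τ (z i) (z (i + 1)) - (n : ℝ) := by
      intro i hi
      rw [mem_filter, mem_range] at hi
      have h5 := hTlow i hi.1
      have h6 : 0 ≤ X.c * X.lat (z (i + 1) - z i) := mul_nonneg hc0.le (Vtx.lat_nonneg _)
      linarith
    have h5 := sum_le_sum h4
    rw [sum_const, nsmul_eq_mul] at h5
    have hcard' : (((range L).filter (fun i => ¬ c (min (i + 1) L) = c (min i L))).card : ℝ) ≤ L := by
      have := card_filter_le (range L) (fun i => ¬ c (min (i + 1) L) = c (min i L))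
      rw [card_range] at this
      exact_mod_cast this
    have h6 := mul_le_mul_of_nonneg_right hcard' (by linarith : 0 ≤ 3 * X.C + D')
    linarith
  have h4 : ∑ i ∈ range L, (T τ (z i) (z (i + 1)) - (n : ℝ)) ≤ W' := by
    rw [sum_sub_distrib, sum_const, card_range, nsmul_eq_mul]
    linarith
  linarith

end Pool.Agent.W_1b8d5d_nd

end

/-! ### Ch3 -/

section

/-!
MP_1b8d5d_pr, [ND], section 9: the probabilities of the block events.
-/

set_option autoImplicit false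

namespace Pool.Agent.W_1b8d5d_nd

open Finset Filter Topology
open Pool.Agent.W_1b8d5d_h85 (Ex Pr Vr avg)
open Pool.Agent.W_1b8d5d_np (rmax hy chg seqs)

variable {d : ℕ} [NeZero d] {Q : Qn} {m : V d → ℝ} {p : ℕ} {a h : ℝ} {M : Mdl d a h} {X : Vtx d}
  {μ : (Fin d → ℝ) → ℝ}

/-- The slab of the block `i`, in a box. -/
def slab (X : Vtx d) (n i : ℕ) (H : ℝ) : Set (Edge d) :=
  edg {z | i * X.gg (X.rd n) - n / 4 ≤ X.gg z ∧ X.gg z ≤ (i + 1) * X.gg (X.rd n) + n / 4 ∧ nm z ≤ H}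

private theorem Ch3_disj (hX : IsVtx X μ) {n i j : ℕ} (hn : 100 * X.C ≤ n) (hij : i < j) (H : ℝ) {e : Edge d}
    (h1 : e ∈ slab X n (2 * i) H) (h2 : e ∈ slab X n (2 * j) H) : False := by
  have hC := one_le_C hX
  have hG := abs_le.1 (gg_rd hX (n : ℝ))
  obtain ⟨⟨-, h3, -⟩, -⟩ := h1
  obtain ⟨⟨h4, -, -⟩, -⟩ := h2
  have hij' : (i : ℝ) + 1 ≤ j := by exact_mod_cast hij
  have hG0 : 0 ≤ X.gg (X.rd n) := by linarith [hG.1]
  have h5 := mul_le_mul_of_nonneg_right hij' hG0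
  push_cast at h3 h4
  nlinarith [hG.1, hG.2]

theorem slab_disj (hX : IsVtx X μ) {n i j : ℕ} (hn : 100 * X.C ≤ n) (hij : i ≠ j) (H : ℝ) :
    Disjoint (slab X n (2 * i) H) (slab X n (2 * j) H) := by
  rw [Set.disjoint_left]
  intro e h1 h2
  rcases lt_or_gt_of_ne hij with h3 | h3
  · exact Ch3_disj hX hn h3 H h1 h2
  · exact Ch3_disj hX hn h3 H h2 h1

/-- PROOF: `P_exists_le` twice, `cen_succ`, `P_T_sub`. -/
theorem fast_blocks (hM : GoodN Q m p M) (e t : ℝ) (n L : ℕ) (A : Finset (V d)) :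
    M.P (fun τ => ∃ i < L, ∃ q ∈ A, T τ (cen X e n i q) (cen X e n (i + 1) q) < t) ≤
      L * A.card * M.P (fun τ => T τ 0 (X.rd n) < t) := by
  have h1 : M.P (fun τ => ∃ i < L, ∃ q ∈ A, T τ (cen X e n i q) (cen X e n (i + 1) q) < t) ≤
      M.P (fun τ => ∃ i ∈ range L, ∃ q ∈ A, T τ (cen X e n i q) (cen X e n (i + 1) q) < t) := by
    refine M.P_mono fun τ _ h2 => ?_
    obtain ⟨i, hi, h3⟩ := h2
    exact ⟨i, mem_range.2 hi, h3⟩
  refine h1.trans ((M.P_exists_le (range L)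
    fun i τ => ∃ q ∈ A, T τ (cen X e n i q) (cen X e n (i + 1) q) < t).trans ?_)
  have h2 : ∀ i ∈ range L, M.P (fun τ => ∃ q ∈ A, T τ (cen X e n i q) (cen X e n (i + 1) q) < t) ≤
      A.card * M.P (fun τ => T τ 0 (X.rd n) < t) := by
    intro i _
    refine (M.P_exists_le A fun q τ => T τ (cen X e n i q) (cen X e n (i + 1) q) < t).trans ?_
    rw [← nsmul_eq_mul, ← sum_const]
    refine sum_le_sum fun q _ => le_of_eq ?_
    have h3 := P_T_sub hM (cen X e n i q) (cen X e n (i + 1) q) fun r => r < t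
    rw [cen_succ, add_sub_cancel_left] at h3
    rw [cen_succ]
    exact h3
  refine (sum_le_sum h2).trans (le_of_eq ?_)
  rw [sum_const, card_range, nsmul_eq_mul]
  ring

open Classical in
/-- Few of the independent slow blocks. PROOF: `few_indep` with the disjoint sets `slab X n (2 j) H`, `j < L / 2`
(`dependsOn_T_res`); the probability of one event is at least `49 / 100`: `T ≤ T (res ..)` (`T_le_res`), `P_T_sub`, `medL`. -/
theorem few_blocks (hX : IsVtx X μ) (hM : GoodN Q m p M) {e t H : ℝ} {n L : ℕ} (hn : 100 * X.C ≤ n)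
    (hH : H ≤ h ^ (p + 100)) (hrd : nm (X.rd n) ≤ h ^ p) (ht : t ≤ m (X.rd n) - h) (s : ℕ → V d) :
    M.P (fun τ => 8 * ((range (L / 2)).filter fun j =>
      t ≤ T (res h (slab X n (2 * j) H) τ) (cen X e n (2 * j) (s (2 * j))) (cen X e n (2 * j + 1) (s (2 * j)))).card
        ≤ L / 2) ≤ (4 / 5) ^ (L / 2) := by
  have h1 := few_indep hM (range (L / 2)) (fun j => slab X n (2 * j) H)
    (fun i _ j _ hij => slab_disj hX hn hij H) (fun i _ e he => he.1.2.2.trans hH)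
    (fun j τ => t ≤ T (res h (slab X n (2 * j) H) τ) (cen X e n (2 * j) (s (2 * j)))
      (cen X e n (2 * j + 1) (s (2 * j)))) ?_ ?_
  · rw [card_range] at h1
    refine le_trans (M.P_mono fun τ _ h2 => ?_) h1
    convert h2
  · intro j _ τ τ' hτ
    have h2 := dependsOn_T_res h (slab X n (2 * j) H) (cen X e n (2 * j) (s (2 * j)))
      (cen X e n (2 * j + 1) (s (2 * j))) hτ
    exact congrArg (fun r => t ≤ r) h2
  · intro j _
    have h2 := P_T_sub hM (cen X e n (2 * j) (s (2 * j))) (cen X e n (2 * j + 1) (s (2 * j)))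
      fun r => m (X.rd n) - h ≤ r
    rw [cen_succ, add_sub_cancel_left] at h2
    have h3 := hM.medL (X.rd n) hrd
    have h4 : M.P (fun τ => m (X.rd n) - h ≤ T τ (cen X e n (2 * j) (s (2 * j)))
        (cen X e n (2 * j) (s (2 * j)) + X.rd n)) ≤
        M.P (fun τ => t ≤ T (res h (slab X n (2 * j) H) τ) (cen X e n (2 * j) (s (2 * j)))
          (cen X e n (2 * j + 1) (s (2 * j)))) := by
      refine M.P_mono fun τ hτ h5 => ?_
      rw [cen_succ]
      exact ht.trans (h5.trans (T_le_res hM.apos.le hτ _ _ _))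
    linarith

/-- On `LT` a cheap block is realised inside its slab. PROOF. Take a geodesic `w` from `x` to `x + X.rd n`, its cost is
`≤ s`; `walk_conf` with `p = D + 20`-like exponent and the cost bound `s' = max 0 s`; `ce X h s' ≤ n / 32`
(`ce_le_eps`, `s' ≤ 2 n`; use the cost `T τ x (x + X.rd n)` itself or `s`, with `ce_mono`), `s' - gg (X.rd n) ≤ n / 16 + C`;
so all vertices `q` of `w` satisfy `-(n / 8) ≤ gg (q - x) ≤ gg (X.rd n) + n / 8`, and `T_res_eq`. -/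
theorem slab_T (hs : ∀ x, μ (-x) = μ x) (hX : IsVtx X μ) (D : ℕ) (hD : 100 ≤ D) : ∀ᶠ h : ℝ in atTop,
    ∀ (a : ℝ) (τ : Env d), 0 < a → Bd a h τ → LT μ (2 * D + 199) h τ → ∀ (n i : ℕ) (x : V d) (s H : ℝ),
      h ^ (D - 1) ≤ n → (n : ℝ) ≤ h ^ D → |X.gg x - i * X.gg (X.rd n)| ≤ n / 16 → nm x ≤ h ^ (D + 10) →
      s ≤ n + n / 16 → nm x + 2 * X.C * (2 * n + h ^ 16) ≤ H → T τ x (x + X.rd n) ≤ s →
      T (res h (slab X n i H) τ) x (x + X.rd n) ≤ s := by
  filter_upwards [walk_conf hs hX (2 * D + 197) (by omega), ce_le_eps hX (1 / 64) (by norm_num),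
    eventually_ge_atTop (100 * X.C)] with h h1 h2 h3 a τ ha hτ hLT n i x s H hn1 hn2 hgx hx hsn hH hT
  have hC := one_le_C hX
  have h1h : 1 ≤ h := by linarith
  have hah : a ≤ h := (hτ (0, 0)).1.trans (hτ (0, 0)).2
  set S : ℝ := n + n / 16 with hS
  have hn0 : 100 * X.C ≤ n := by
    refine h3.trans (le_trans ?_ hn1)
    calc h = h ^ 1 := (pow_one h).symm
      _ ≤ h ^ (D - 1) := pow_le_pow_right₀ h1h (by omega)
  have hnS : (n : ℝ) ≤ S := by
    rw [hS]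
    linarith
  have hS2 : S ≤ h ^ (2 * D + 197) := by
    have h4 : S ≤ 2 * n := by
      rw [hS]
      linarith
    calc S ≤ 2 * n := h4
      _ ≤ h * h ^ D := mul_le_mul (by linarith) hn2 (by linarith) (by linarith)
      _ = h ^ (D + 1) := by ring
      _ ≤ h ^ (2 * D + 197) := pow_le_pow_right₀ h1h (by omega)
  have hce : ce X h S ≤ 1 / 64 * S := by
    refine h2 S (le_trans ?_ (hn1.trans hnS))
    exact pow_le_pow_right₀ h1h (by omega)
  obtain ⟨w, hw⟩ := exists_geo hτ ha x (x + X.rd n)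
  have hcw : cost τ w ≤ S := by
    rw [hw.2]
    exact hT.trans hsn
  have hx' : nm x ≤ h ^ (2 * D + 197) := hx.trans (pow_le_pow_right₀ h1h (by omega))
  have hconf := h1 a τ ha hτ hLT x (x + X.rd n) w S hx' (by linarith) hS2 hcw
  have hG := abs_le.1 (gg_rd hX (n : ℝ))
  have hgx' := abs_le.1 hgx
  have hmem : ∀ q ∈ w.support, q ∈ {z : V d | i * X.gg (X.rd n) - n / 4 ≤ X.gg z ∧
      X.gg z ≤ (i + 1) * X.gg (X.rd n) + n / 4 ∧ nm z ≤ H} := by
    intro q hq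
    obtain ⟨-, h4, h5, -, -, h6⟩ := hconf q hq
    rw [add_sub_cancel_left] at h4 h5
    have h7 : X.gg q = X.gg x + X.gg (q - x) := by
      rw [← Vtx.gg_add, add_sub_cancel]
    have h8 : nm q ≤ nm x + nm (q - x) := by
      have h9 := nm_add_le x (q - x)
      rwa [add_sub_cancel] at h9
    have h10 : 2 * X.C * (S + h ^ 16) ≤ 2 * X.C * (2 * n + h ^ 16) := by
      refine mul_le_mul_of_nonneg_left ?_ (by linarith)
      rw [hS]
      linarith
    have h11 : (S - X.gg (X.rd n)) / 2 + ce X h S ≤ n / 8 := by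
      rw [hS] at hce ⊢
      linarith [hG.1]
    refine ⟨?_, ?_, ?_⟩
    · rw [h7]
      linarith [hgx'.1]
    · rw [h7]
      linarith [hgx'.2]
    · linarith
  rw [T_res_eq ha.le hah hτ hw.2 (fun e he => ?_)]
  · exact hT
  · obtain ⟨h4, h5⟩ := wedges_support w he
    exact ⟨hmem _ h4, hmem _ h5⟩

end Pool.Agent.W_1b8d5d_nd

end

/-! ### Ch7 -/

section

/-!
MP_1b8d5d_pr, [ND], section 9: from a cheap walk inside the lane to the sequence of centres; thin windows at all levels.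
-/

set_option autoImplicit false

namespace Pool.Agent.W_1b8d5d_nd

open Finset Filter Topology
open Pool.Agent.W_1b8d5d_h85 (Ex Pr Vr avg)
open Pool.Agent.W_1b8d5d_np (rmax hy chg seqs)

variable {d : ℕ} [NeZero d] {Q : Qn} {m : V d → ℝ} {X : Vtx d} {μ : (Fin d → ℝ) → ℝ}

theorem gg_nsmul (j : ℕ) (x : V d) : X.gg (j • x) = j * X.gg x := by
  unfold Vtx.gg
  rw [toR_nsmul, dp_smul]

theorem lat_nsmul (j : ℕ) (x : V d) : X.lat (j • x) = j * X.lat x := by
  unfold Vtx.lat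
  rw [gg_nsmul, toR_nsmul, mul_smul, ← smul_sub, rn_smul, abs_of_nonneg (Nat.cast_nonneg j)]

theorem lane_wb_mono {W W' B B' : ℝ} (hW : W ≤ W') (hB : B ≤ B') (x : V d) (r : ℝ) :
    X.lane x r W B ⊆ X.lane x r W' B' := by
  rintro e ⟨⟨h1, h2, h3⟩, h4, h5, h6⟩
  exact ⟨⟨h1.trans hW, by linarith, by linarith⟩, h4.trans hW, by linarith, by linarith⟩

theorem nm_rnd_smul (e : ℝ) (a : V d) : nm (rnd (e • toR a)) ≤ d + |e| * nm a := by
  have h1 : toR (rnd (e • toR a)) = (toR (rnd (e • toR a)) - e • toR a) + e • toR a := by abel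
  rw [nm_eq_rn, h1]
  refine (rn_add_le _ _).trans ?_
  rw [rn_smul, ← nm_eq_rn a]
  linarith [rnd_near (e • toR a)]

theorem nm_box {k : ℕ} {a : V d} (ha : a ∈ box d k) : nm a ≤ d * (2 * k + 2) := by
  unfold nm
  have h1 : ∀ i, |(a i : ℝ)| ≤ 2 * k + 2 := fun i => by
    have h2 := Fintype.mem_piFinset.1 ha i
    rw [Finset.mem_Icc] at h2
    rw [abs_le]
    constructor
    · have h3 : ((-(2 * k + 2) : ℤ) : ℝ) ≤ (a i : ℝ) := by exact_mod_cast h2.1
      push_cast at h3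
      linarith
    · have h3 : (a i : ℝ) ≤ ((2 * k + 2 : ℤ) : ℝ) := by exact_mod_cast h2.2
      push_cast at h3
      linarith
  refine (sum_le_sum fun i _ => h1 i).trans ?_
  rw [sum_const, card_univ, Fintype.card_fin, nsmul_eq_mul]

theorem zero_mem_box (k : ℕ) : (0 : V d) ∈ box d k := by
  refine Fintype.mem_piFinset.2 fun i => ?_
  rw [Finset.mem_Icc]
  simp
  omega

/-- The thin windows at all levels. -/
theorem thin_blocks {p : ℕ} {a h : ℝ} {M : Mdl d a h} (hM : GoodN Q m p M) {n L : ℕ} {K' D' p₀ : ℝ}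
    (hth : ∀ i : Fin X.N, M.P (fun τ => ∃ x ∈ X.Dw 0 K', ∃ z ∈ X.Dw (X.rd n) K', T τ x z ≤ X.ff i (z - x) - D') ≤ p₀) :
    M.P (fun τ => ∃ j ∈ range L, ∃ i ∈ (univ : Finset (Fin X.N)), ∃ x ∈ X.Dw (j • X.rd n) K',
      ∃ z ∈ X.Dw ((j + 1) • X.rd n) K', T τ x z ≤ X.ff i (z - x) - D') ≤ L * (X.N * p₀) := by
  refine (M.P_exists_le (range L) (fun j τ => ∃ i ∈ (univ : Finset (Fin X.N)), ∃ x ∈ X.Dw (j • X.rd n) K',
      ∃ z ∈ X.Dw ((j + 1) • X.rd n) K', T τ x z ≤ X.ff i (z - x) - D')).trans ?_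
  have h1 : ∀ j ∈ range L, M.P (fun τ => ∃ i ∈ (univ : Finset (Fin X.N)), ∃ x ∈ X.Dw (j • X.rd n) K',
      ∃ z ∈ X.Dw ((j + 1) • X.rd n) K', T τ x z ≤ X.ff i (z - x) - D') ≤ X.N * p₀ := by
    intro j _
    refine (M.P_exists_le univ (fun i τ => ∃ x ∈ X.Dw (j • X.rd n) K',
      ∃ z ∈ X.Dw ((j + 1) • X.rd n) K', T τ x z ≤ X.ff i (z - x) - D')).trans ?_
    have h2 : ∀ i ∈ (univ : Finset (Fin X.N)), M.P (fun τ => ∃ x ∈ X.Dw (j • X.rd n) K',
      ∃ z ∈ X.Dw ((j + 1) • X.rd n) K', T τ x z ≤ X.ff i (z - x) - D') ≤ p₀ := by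
      intro i _
      refine le_trans ?_ (hth i)
      rw [← P_sh hM (j • X.rd n) (fun τ => ∃ x ∈ X.Dw 0 K', ∃ z ∈ X.Dw (X.rd n) K',
        T τ x z ≤ X.ff i (z - x) - D')]
      refine M.P_mono fun τ hτ hq => ?_
      obtain ⟨x, hx, z, hz, hT⟩ := hq
      refine ⟨x - j • X.rd n, ?_, z - j • X.rd n, ?_, ?_⟩
      · have := (mem_Dw_sh (X := X) (x₀ := 0) (x := x - j • X.rd n) (y := j • X.rd n) (R := K')).1
        rw [zero_add, sub_add_cancel] at this
        exact this hx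
      · have := (mem_Dw_sh (X := X) (x₀ := X.rd n) (x := z - j • X.rd n) (y := j • X.rd n) (R := K')).1
        rw [sub_add_cancel] at this
        refine this ?_
        have h3 : X.rd n + j • X.rd n = (j + 1) • X.rd n := by rw [succ_nsmul, add_comm]
        rw [h3]
        exact hz
      · rw [T_sh, sub_add_cancel, sub_add_cancel]
        have h3 : z - j • X.rd n - (x - j • X.rd n) = z - x := by abel
        rw [h3]
        exact hT
    refine (sum_le_card_nsmul _ _ _ h2).trans ?_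
    rw [card_univ, Fintype.card_fin, nsmul_eq_mul]
  refine (sum_le_card_nsmul _ _ _ h1).trans ?_
  rw [card_range, nsmul_eq_mul]

open Classical in
/-- From a cheap walk in the lane to the sequence of centres. -/
theorem walk_seq (hX : IsVtx X μ) {a h : ℝ} {τ : Env d} (ha : 0 < a) (hτ : Bd a h τ) {L n N k : ℕ}
    (hN : N = L * n) (hL : 1 ≤ L) (hn : (L + 1) * X.C ≤ n) {W W' D' e Cl hh R : ℝ} (hW : 0 ≤ W) (he : 0 < e)
    (hD : 0 ≤ D') (hCl : 0 ≤ Cl) (hh0 : 0 ≤ hh)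
    (hr : Reach (X.lane 0 N W W) τ 0 (X.rd N) (L * n + W))
    (hth : ∀ j < L, ∀ i : Fin X.N, ∀ x ∈ X.Dw (j • X.rd n) (W + 2 * L * X.C),
      ∀ z ∈ X.Dw ((j + 1) • X.rd n) (W + 2 * L * X.C), X.ff i (z - x) - D' < T τ x z)
    (hlin : ∀ x z : V d, nm x ≤ R → nm z ≤ R → T τ x z ≤ Cl * nm (z - x) + hh)
    (hR : X.C * (L * (n + X.C) + X.C + W + L * X.C) + d * (1 + 2 * e) ≤ R)
    (hR' : X.C * (L * n + 1) ≤ R)
    (hW' : W + Cl * (X.C * (2 * (L + 1) * X.C)) + hh ≤ W')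
    (hk : X.C * ((W' + L * D' + L * X.C) / X.c) + 3 * X.C ^ 2 * L + e / 2 ≤ 3 / 2 * e * k) :
    ∃ s ∈ seqs (0 : V d) (box d k) L k, chg s L ≤ k ∧
      ∑ i ∈ (range L).filter (fun i => s (i + 1) = s i),
        (T τ (cen X e n i (s i)) (cen X e n (i + 1) (s i)) - n) ≤
        W' + L * (3 * X.C + D') + L * (2 * (Cl * (d * (1 + 2 * e)) + hh)) := by
  have hC4 := one_le_C hX
  have hd0 : (0 : ℝ) ≤ d := Nat.cast_nonneg d
  have hL0 : (1 : ℝ) ≤ L := by exact_mod_cast hL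
  have hn0 : (0 : ℝ) ≤ n := Nat.cast_nonneg n
  obtain ⟨z, hz0, hzL, hz, hsum⟩ := points hX ha hτ hN hL hn hW hr
  have hgr := gg_rd hX n
  have hlr := lat_rd hX n
  rw [abs_le] at hgr
  have hNR : (N : ℝ) = L * n := by
    rw [hN]
    push_cast
    ring
  -- nm bounds
  have hznm : ∀ j ≤ L, nm (z j) ≤ X.C * (L * (n + X.C) + X.C + W + L * X.C) := by
    intro j hj
    obtain ⟨h1, h2⟩ := hz j hj
    have hjL : (j : ℝ) ≤ L := by exact_mod_cast hj
    have hj0 : (0 : ℝ) ≤ j := Nat.cast_nonneg j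
    have h3 : |X.gg (z j)| ≤ L * (n + X.C) + X.C := by
      rw [abs_le] at h1 ⊢
      have h4 : (j : ℝ) * X.gg (X.rd n) ≤ L * (n + X.C) := by
        calc (j : ℝ) * X.gg (X.rd n) ≤ j * (n + X.C) := mul_le_mul_of_nonneg_left (by linarith) hj0
          _ ≤ L * (n + X.C) := mul_le_mul_of_nonneg_right hjL (by linarith)
      have h5 : -(L * (n + X.C)) ≤ (j : ℝ) * X.gg (X.rd n) := by
        have h6 : (j : ℝ) * (-(n + X.C)) ≤ (j : ℝ) * X.gg (X.rd n) :=
          mul_le_mul_of_nonneg_left (by linarith) hj0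
        have h7 : (j : ℝ) * (n + X.C) ≤ L * (n + X.C) := mul_le_mul_of_nonneg_right hjL (by linarith)
        linarith
      constructor <;> linarith
    refine (nm_le hX (z j)).trans (mul_le_mul_of_nonneg_left ?_ (by linarith))
    linarith
  -- the end
  have hend : T τ (X.rd N) (L • X.rd n) ≤ Cl * (X.C * (2 * (L + 1) * X.C)) + hh := by
    have h1 := hlin (X.rd N) (L • X.rd n) ?_ ?_
    · refine h1.trans ?_
      have h2 : nm (L • X.rd n - X.rd N) ≤ X.C * (2 * (L + 1) * X.C) := by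
        refine (nm_le hX _).trans (mul_le_mul_of_nonneg_left ?_ (by linarith))
        have h3 := lat_rd hX N
        have h4 := gg_rd hX N
        rw [abs_le] at h4
        have h5 : X.lat (L • X.rd n - X.rd N) ≤ L * X.C + X.C := by
          refine (Vtx.lat_sub_le _ _).trans (add_le_add ?_ h3)
          rw [lat_nsmul]
          exact mul_le_mul_of_nonneg_left hlr (by linarith)
        have h6 : |X.gg (L • X.rd n - X.rd N)| ≤ L * X.C + X.C := by
          rw [Vtx.gg_sub, gg_nsmul, abs_le]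
          have h7 : (L : ℝ) * X.gg (X.rd n) ≤ L * (n + X.C) := mul_le_mul_of_nonneg_left (by linarith) (by linarith)
          have h8 : (L : ℝ) * (n - X.C) ≤ L * X.gg (X.rd n) := mul_le_mul_of_nonneg_left (by linarith) (by linarith)
          constructor <;> linarith
        linarith
      have := mul_le_mul_of_nonneg_left h2 hCl
      linarith
    · refine (nm_rd hX N).trans ?_
      rw [hNR, abs_of_nonneg (by positivity)]
      exact hR'
    · rw [← hzL]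
      have := hznm L le_rfl
      have h9 : 0 ≤ (d : ℝ) * (1 + 2 * e) := by positivity
      linarith
  refine seq_exists hX ha hτ he hD (W' := W') ?_ hCl hh0 z hz0 hzL (fun j hj => (hz j hj).1) (R := R) ?_ ?_ ?_ hlin hk
  · have h9 : 0 ≤ Cl * (X.C * (2 * (L + 1) * X.C)) := by positivity
    linarith
  · intro j hj
    have := hznm j hj
    linarith
  · linarith
  · intro j hj
    obtain ⟨i, hi⟩ := spread_lattice hX (z (j + 1) - z j)
    have hwin : ∀ l ≤ L, z l ∈ X.Dw (l • X.rd n) (W + 2 * L * X.C) := by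
      intro l hl
      obtain ⟨h1, h2⟩ := hz l hl
      have hlL : (l : ℝ) ≤ L := by exact_mod_cast hl
      have hl0 : (0 : ℝ) ≤ l := Nat.cast_nonneg l
      refine ⟨?_, ?_⟩
      · rw [Vtx.gg_sub, gg_nsmul]
        linarith
      · refine (Vtx.lat_sub_le _ _).trans ?_
        rw [lat_nsmul]
        have h3 : (l : ℝ) * X.lat (X.rd n) ≤ L * X.C :=
          mul_le_mul hlL hlr (Vtx.lat_nonneg _) (by linarith)
        linarith
    have h1 := hth j hj i (z j) (hwin j hj.le) (z (j + 1)) (hwin (j + 1) hj)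
    linarith

end Pool.Agent.W_1b8d5d_nd

end

/-! ### Ch8 -/

section

/-!
MP_1b8d5d_pr, [ND], section 9: the contradiction at one scale.
-/

set_option autoImplicit false

namespace Pool.Agent.W_1b8d5d_nd

open Finset Filter Topology
open Pool.Agent.W_1b8d5d_h85 (Ex Pr Vr avg)
open Pool.Agent.W_1b8d5d_np (rmax hy chg seqs card_seqs seqs_val endgame)

variable {d : ℕ} [NeZero d] {Q : Qn} {m : V d → ℝ} {X : Vtx d} {μ : (Fin d → ℝ) → ℝ}

open Classical in
/-- The contradiction at one scale, from the numerical inequalities. -/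
theorem contra (hX : IsVtx X μ) {p q : ℕ} {a h : ℝ} {M : Mdl d a h} (hM : GoodN Q m p M)
    {L n N k : ℕ} {W W' B δ e ε Cl hh R H U p₀ : ℝ} (hN : N = L * n) (hL : 1 ≤ L) (hB : 1 ≤ B) (hδ : 0 < δ)
    (hε : 0 < ε) (he : e = ε * B) (hW0 : 0 ≤ W) (hCl : 0 ≤ Cl) (hh0 : 0 ≤ hh)
    (hEW : 1 / 4 ≤ M.P (fun τ => Reach (X.lane 0 N W W) τ 0 (X.rd N) (L * n + W)))
    (hTh : ∀ i : Fin X.N, M.P (fun τ => ∃ x ∈ X.Dw 0 (W + 2 * L * X.C), ∃ z ∈ X.Dw (X.rd n) (W + 2 * L * X.C),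
      T τ x z ≤ X.ff i (z - x) - δ / 2 * B) ≤ p₀)
    (hLow : M.P (fun τ => ¬ LT μ q h τ) ≤ 1 / 100)
    (hLin : M.P (fun τ => ¬ ∀ x z : V d, nm x ≤ R → nm z ≤ R → T τ x z ≤ Cl * nm (z - x) + hh) ≤ 1 / 100)
    (hslab : ∀ τ : Env d, Bd a h τ → LT μ q h τ → ∀ (i : ℕ) (x : V d) (s : ℝ), i ≤ L →
      |X.gg x - i * X.gg (X.rd n)| ≤ n / 16 → nm x ≤ R → s ≤ n + n / 16 → T τ x (x + X.rd n) ≤ s →
      T (res h (slab X n i H) τ) x (x + X.rd n) ≤ s)
    (hn : (L + 1) * X.C ≤ n) (hn1 : 100 * X.C ≤ n)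
    (hR : X.C * (L * (n + X.C) + X.C + W + L * X.C) + d * (1 + 2 * e) ≤ R)
    (hR' : X.C * (L * n + 1) ≤ R)
    (hR2 : d + e * (d * (2 * k + 2)) + L * (X.C * (n + 1)) ≤ R)
    (hW' : W + Cl * (X.C * (2 * (L + 1) * X.C)) + hh ≤ W')
    (hk : X.C * ((W' + L * (δ * B) + L * X.C) / X.c) + 3 * X.C ^ 2 * L + e / 2 ≤ 3 / 2 * e * k)
    (hUB : W' + L * (3 * X.C + δ * B) + L * (2 * (Cl * (d * (1 + 2 * e)) + hh)) ≤ U * B)
    (hp₀ : L * (X.N * p₀) ≤ 1 / 100) (hp₁ : L * (box d k).card * p₀ ≤ 1 / 25) (hp0 : 0 ≤ p₀)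
    (hδB : X.C ≤ δ / 2 * B) (hB16 : B / 2 ≤ n / 16)
    (hgg : X.C * (d + e * (d * (2 * k + 2))) ≤ n / 16) (hH : H ≤ h ^ (p + 100)) (hrd : nm (X.rd n) ≤ h ^ p)
    (hmed : n + B / 2 ≤ m (X.rd n) - h)
    (hρ : (1 + ((4 * k + 5 : ℕ) : ℝ) ^ d * L) ^ k * (4 / 5 : ℝ) ^ (L / 2) ≤ 1 / 25)
    (hU : U < 1 / 2 * (((L / 2 : ℕ) : ℝ) / 8 - k) - δ * L) : False := by
  have ha := hM.apos
  have hB0 : 0 < B := by linarith
  have he0 : 0 < e := by rw [he]; positivity
  have hC4 := one_le_C hX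
  have hLR : (1 : ℝ) ≤ L := by exact_mod_cast hL
  obtain ⟨i₀, -⟩ := spread_lattice hX 0
  -- the good event
  set Y : Env d → Prop := fun τ => Reach (X.lane 0 N W W) τ 0 (X.rd N) (L * n + W) ∧
    ¬ ((∃ j ∈ range L, ∃ i ∈ (univ : Finset (Fin X.N)), ∃ x ∈ X.Dw (j • X.rd n) (W + 2 * L * X.C),
      ∃ z ∈ X.Dw ((j + 1) • X.rd n) (W + 2 * L * X.C), T τ x z ≤ X.ff i (z - x) - δ / 2 * B) ∨
      ¬ ∀ x z : V d, nm x ≤ R → nm z ≤ R → T τ x z ≤ Cl * nm (z - x) + hh) with hY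
  have hPY : 1 / 5 ≤ M.P Y := by
    have h1 := M.P_and_ge (fun τ => Reach (X.lane 0 N W W) τ 0 (X.rd N) (L * n + W))
      (fun τ => ¬ ((∃ j ∈ range L, ∃ i ∈ (univ : Finset (Fin X.N)), ∃ x ∈ X.Dw (j • X.rd n) (W + 2 * L * X.C),
      ∃ z ∈ X.Dw ((j + 1) • X.rd n) (W + 2 * L * X.C), T τ x z ≤ X.ff i (z - x) - δ / 2 * B) ∨
      ¬ ∀ x z : V d, nm x ≤ R → nm z ≤ R → T τ x z ≤ Cl * nm (z - x) + hh))
    simp only [not_not] at h1
    have h2 := M.P_or (fun τ => ∃ j ∈ range L, ∃ i ∈ (univ : Finset (Fin X.N)), ∃ x ∈ X.Dw (j • X.rd n) (W + 2 * L * X.C),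
      ∃ z ∈ X.Dw ((j + 1) • X.rd n) (W + 2 * L * X.C), T τ x z ≤ X.ff i (z - x) - δ / 2 * B)
      (fun τ => ¬ ∀ x z : V d, nm x ≤ R → nm z ≤ R → T τ x z ≤ Cl * nm (z - x) + hh)
    have h3 := thin_blocks hM (L := L) hTh
    have h4 : M.P Y = M.P (fun τ => Reach (X.lane 0 N W W) τ 0 (X.rd N) (L * n + W) ∧
      ¬ ((∃ j ∈ range L, ∃ i ∈ (univ : Finset (Fin X.N)), ∃ x ∈ X.Dw (j • X.rd n) (W + 2 * L * X.C),
      ∃ z ∈ X.Dw ((j + 1) • X.rd n) (W + 2 * L * X.C), T τ x z ≤ X.ff i (z - x) - δ / 2 * B) ∨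
      ¬ ∀ x z : V d, nm x ≤ R → nm z ≤ R → T τ x z ≤ Cl * nm (z - x) + hh)) := rfl
    rw [h4]
    linarith
  have hval : ∀ s ∈ seqs (0 : V d) (box d k) L k, ∀ i, s i ∈ box d k :=
    fun s hs i => seqs_val (zero_mem_box k) hs i
  refine endgame (Ω := M.Ω) (α := V d) L k (seqs (0 : V d) (box d k) L k) (box d k) hval
    (fun i q ω => (T (M.env ω) (cen X e n i q) (cen X e n (i + 1) q) - n) / B)
    (fun jj q ω => n + B / 2 ≤ T (res h (slab X n (2 * jj) H) (M.env ω)) (cen X e n (2 * jj) q)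
      (cen X e n (2 * jj + 1) q)) (δ := δ) (U := U) (ρ := (4 / 5) ^ (L / 2)) hδ.le (fun ω => Y (M.env ω)) hPY
    ?_ ?_ ?_ ?_ ?_ hU
  · -- the sequences
    intro ω hω
    obtain ⟨h1, h2⟩ := hω
    push Not at h2
    obtain ⟨h2, h3⟩ := h2
    obtain ⟨s, hs, hsk, hsum⟩ := walk_seq hX ha (M.bd ω) hN hL hn hW0 he0 (D' := δ * B) (by positivity) hCl hh0 h1
      (fun j hj i x hx z hz => by
        have h4 := h2 j (mem_range.2 hj) i (mem_univ i) x hx z hz
        have h5 : 0 < δ * B := mul_pos hδ hB0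
        linarith) h3 hR hR' hW' hk
    refine ⟨s, hs, hsk, ?_⟩
    rw [← sum_div, div_le_iff₀ hB0]
    convert hsum.trans hUB
  · -- no fast block at a centre
    have h1 := fast_blocks (X := X) hM e (n - δ * B) n L (box d k)
    have h2 : M.P (fun τ => T τ 0 (X.rd n) < n - δ * B) ≤ p₀ := by
      refine le_trans (M.P_mono fun τ hτ hq => ?_) (hTh i₀)
      refine ⟨0, ?_, X.rd n, ?_, ?_⟩
      · refine ⟨?_, ?_⟩
        · rw [sub_zero, Vtx.gg_zero, abs_zero]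
          linarith
        · rw [sub_zero, Vtx.lat_zero]
          positivity
      · refine ⟨?_, ?_⟩
        · rw [sub_self, Vtx.gg_zero, abs_zero]
          linarith
        · rw [sub_self, Vtx.lat_zero]
          positivity
      · rw [sub_zero]
        have h3 := ff_rd hX i₀ n
        rw [abs_le] at h3
        linarith
    have h3 : (L : ℝ) * (box d k).card * M.P (fun τ => T τ 0 (X.rd n) < n - δ * B) ≤ L * (box d k).card * p₀ :=
      mul_le_mul_of_nonneg_left h2 (by positivity)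
    have h4 : Pr (fun ω => ∃ i < L, ∃ q ∈ box d k,
        (T (M.env ω) (cen X e n i q) (cen X e n (i + 1) q) - n) / B < -δ)
        ≤ M.P (fun τ => ∃ i < L, ∃ q ∈ box d k, T τ (cen X e n i q) (cen X e n (i + 1) q) < n - δ * B) := by
      refine Pool.Agent.W_1b8d5d_h85.Pr_mono fun ω hω => ?_
      obtain ⟨i, hi, q, hq, h5⟩ := hω
      refine ⟨i, hi, q, hq, ?_⟩
      rw [div_lt_iff₀ hB0] at h5
      linarith
    linarith
  · -- localisation
    have h1 : Pr (fun ω => ∃ jj < L / 2, ∃ q ∈ box d k,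
        n + B / 2 ≤ T (res h (slab X n (2 * jj) H) (M.env ω)) (cen X e n (2 * jj) q) (cen X e n (2 * jj + 1) q) ∧
        (T (M.env ω) (cen X e n (2 * jj) q) (cen X e n (2 * jj + 1) q) - n) / B < 1 / 2)
        ≤ M.P (fun τ => ¬ LT μ q h τ) := by
      refine Pool.Agent.W_1b8d5d_h85.Pr_mono fun ω hω hLT => ?_
      obtain ⟨jj, hjj, q, hq, h2, h3⟩ := hω
      rw [div_lt_iff₀ hB0] at h3
      rw [cen_succ] at h2 h3
      have h4 : nm (rnd (e • toR q)) ≤ d + e * (d * (2 * k + 2)) := by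
        refine (nm_rnd_smul e q).trans ?_
        rw [abs_of_pos he0]
        have := mul_le_mul_of_nonneg_left (nm_box hq) he0.le
        linarith
      have h5 := hslab (M.env ω) (M.bd ω) hLT (2 * jj) (cen X e n (2 * jj) q)
        (T (M.env ω) (cen X e n (2 * jj) q) (cen X e n (2 * jj) q + X.rd n)) (by omega) ?_ ?_ ?_ le_rfl
      · linarith
      · unfold cen
        rw [Vtx.gg_add, gg_nsmul, add_sub_cancel_right]
        refine (abs_gg_le hX _).trans ((mul_le_mul_of_nonneg_left h4 (by linarith)).trans hgg)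
      · unfold cen
        refine (nm_add_le _ _).trans ?_
        have h6 : nm ((2 * jj) • X.rd n) ≤ L * (X.C * (n + 1)) := by
          rw [nm_eq_rn, toR_nsmul, rn_smul, ← nm_eq_rn, abs_of_nonneg (Nat.cast_nonneg _)]
          have h7 := nm_rd hX n
          rw [abs_of_nonneg (Nat.cast_nonneg n)] at h7
          have h8 : ((2 * jj : ℕ) : ℝ) ≤ L := by
            have : 2 * jj ≤ L := by omega
            exact_mod_cast this
          exact mul_le_mul h8 h7 (nm_nonneg _) (by linarith)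
        linarith
      · linarith
    linarith
  · -- independence
    intro s hs
    exact few_blocks hX hM hn1 hH hrd hmed s
  · -- the number of sequences
    have h1 := card_seqs (0 : V d) (box d k) L k
    rw [card_box] at h1
    have h2 : ((seqs (0 : V d) (box d k) L k).card : ℝ) ≤ (1 + ((4 * k + 5 : ℕ) : ℝ) ^ d * L) ^ k := by
      exact_mod_cast h1
    exact (mul_le_mul_of_nonneg_right h2 (by positivity)).trans hρ

end Pool.Agent.W_1b8d5d_nd

end

/-! ### Ch4 -/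

section

/-!
MP_1b8d5d_pr, [ND], section 9: the choice of the number of blocks.
-/

set_option autoImplicit false

namespace Pool.Agent.W_1b8d5d_nd

open Finset Filter Topology

/-- The parameters: `L = j ^ 10` blocks, `k = K₁ j ^ 7` changes. PROOF. First inequality: the leading term is `j ^ 10 / 64` on the left,
`j ^ 10 / 32` on the right. Second: for `j` large `1 + (4 k + 5) ^ d * L ≤ j ^ (7 d + d + 12)`, so the power is at most
`j ^ (q K₁ j ^ 7) ≤ 2 ^ (q K₁ j ^ 8)` with `q = 8 d + 12`, and `(4 / 5) ^ (L / 2) ≤ (1 / 2) ^ (j ^ 10 / 8)` (natural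
division), `(4 / 5) ^ 4 ≤ 1 / 2`. -/
theorem exists_par (d K₁ : ℕ) (K₂ : ℝ) : ∃ j : ℕ, 2 ≤ j ∧
    K₂ * (j : ℝ) ^ 7 + (j : ℝ) ^ 10 / 64 <
      1 / 2 * (((j ^ 10 / 2 : ℕ) : ℝ) / 8 - (K₁ * j ^ 7 : ℕ)) - (j : ℝ) ^ 7 ∧
    (1 + ((4 * (K₁ * j ^ 7) + 5 : ℕ) : ℝ) ^ d * (j : ℝ) ^ 10) ^ (K₁ * j ^ 7) * (4 / 5 : ℝ) ^ (j ^ 10 / 2) ≤ 1 / 25 := by
  obtain ⟨j, hj1, hj2, hj3, hj4⟩ : ∃ j : ℕ, 8 * ((8 * d + 11) * K₁) + 40 ≤ j ∧ 4 * K₁ + 5 ≤ j ∧ 8 ≤ j ∧
      K₂ + K₁ + 3 ≤ (j : ℝ) := by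
    refine ⟨8 * ((8 * d + 11) * K₁) + 40 + (4 * K₁ + 5) + ⌈K₂⌉₊, by omega, by omega, by omega, ?_⟩
    have h1 : K₂ ≤ ⌈K₂⌉₊ := Nat.le_ceil _
    push_cast
    have h2 : (0 : ℝ) ≤ 8 * ((8 * (d : ℝ) + 11) * K₁) := by positivity
    have h3 : (0 : ℝ) ≤ K₁ := Nat.cast_nonneg _
    linarith
  have hjr : (8 : ℝ) ≤ j := by exact_mod_cast hj3
  have hj7 : (1 : ℝ) ≤ (j : ℝ) ^ 7 := one_le_pow₀ (by linarith)
  refine ⟨j, by omega, ?_, ?_⟩
  · have h1 : (j : ℝ) ^ 10 / 2 - 1 ≤ ((j ^ 10 / 2 : ℕ) : ℝ) := by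
      have h2 : j ^ 10 < 2 * (j ^ 10 / 2 + 1) := by omega
      have h3 : (j : ℝ) ^ 10 < 2 * (((j ^ 10 / 2 : ℕ) : ℝ) + 1) := by exact_mod_cast h2
      linarith
    have h4 : (j : ℝ) ^ 10 = (j : ℝ) ^ 2 * (j : ℝ) * (j : ℝ) ^ 7 := by ring
    have h5 : (64 : ℝ) ≤ (j : ℝ) ^ 2 := by nlinarith
    have h6 : (64 : ℝ) * ((K₂ + K₁ + 3) * (j : ℝ) ^ 7) ≤ (j : ℝ) ^ 10 := by
      rw [h4]
      have h7 : (64 : ℝ) * (K₂ + K₁ + 3) ≤ (j : ℝ) ^ 2 * j := by
        have h8 : (64 : ℝ) * (K₂ + K₁ + 3) ≤ 64 * j := by linarith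
        have h9 : (64 : ℝ) * j ≤ (j : ℝ) ^ 2 * j := mul_le_mul_of_nonneg_right h5 (by linarith)
        linarith
      have := mul_le_mul_of_nonneg_right h7 (show (0 : ℝ) ≤ (j : ℝ) ^ 7 by linarith)
      linarith
    have h10 : (0 : ℝ) ≤ (K₁ : ℝ) * (j : ℝ) ^ 7 := by positivity
    push_cast at h1 ⊢
    nlinarith
  · set q : ℕ := 8 * d + 11 with hq
    have h1 : 4 * (K₁ * j ^ 7) + 5 ≤ j ^ 8 := by
      have e : j ^ 8 = j * j ^ 7 := by ring
      have h2 : 1 ≤ j ^ 7 := Nat.one_le_pow _ _ (by omega)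
      have h3 : (4 * K₁ + 5) * j ^ 7 ≤ j * j ^ 7 := Nat.mul_le_mul_right _ hj2
      nlinarith
    have h2 : (4 * (K₁ * j ^ 7) + 5) ^ d * j ^ 10 ≤ j ^ (8 * d + 10) := by
      have e : j ^ (8 * d + 10) = (j ^ 8) ^ d * j ^ 10 := by
        rw [pow_add, pow_mul]
      rw [e]
      exact Nat.mul_le_mul_right _ (Nat.pow_le_pow_left h1 d)
    have h3 : 1 + (4 * (K₁ * j ^ 7) + 5) ^ d * j ^ 10 ≤ j ^ q := by
      have e : j ^ q = j * j ^ (8 * d + 10) := by
        rw [hq]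
        ring
      have h4 : 1 ≤ j ^ (8 * d + 10) := Nat.one_le_pow _ _ (by omega)
      have h5 : 2 * j ^ (8 * d + 10) ≤ j * j ^ (8 * d + 10) := Nat.mul_le_mul_right _ (by omega)
      omega
    have h4 : (1 + (4 * (K₁ * j ^ 7) + 5) ^ d * j ^ 10) ^ (K₁ * j ^ 7) ≤ 2 ^ (q * K₁ * j ^ 8) := by
      calc (1 + (4 * (K₁ * j ^ 7) + 5) ^ d * j ^ 10) ^ (K₁ * j ^ 7) ≤ (j ^ q) ^ (K₁ * j ^ 7) :=
            Nat.pow_le_pow_left h3 _
        _ ≤ ((2 ^ j) ^ q) ^ (K₁ * j ^ 7) := by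
            apply Nat.pow_le_pow_left
            apply Nat.pow_le_pow_left
            exact Nat.lt_two_pow_self.le
        _ = 2 ^ (q * K₁ * j ^ 8) := by
            rw [← pow_mul, ← pow_mul]
            congr 1
            ring
    have h5 : (1 + ((4 * (K₁ * j ^ 7) + 5 : ℕ) : ℝ) ^ d * (j : ℝ) ^ 10) ^ (K₁ * j ^ 7) ≤ (2 : ℝ) ^ (q * K₁ * j ^ 8) := by
      exact_mod_cast h4
    have h6 : q * K₁ * j ^ 8 + 5 ≤ j ^ 10 / 8 := by
      rw [Nat.le_div_iff_mul_le (by norm_num)]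
      have e : j ^ 10 = j * j * j ^ 8 := by ring
      have h7 : 1 ≤ j ^ 8 := Nat.one_le_pow _ _ (by omega)
      have h8 : 8 * (q * K₁) + 40 ≤ j * j := by nlinarith
      have h9 : (8 * (q * K₁) + 40) * j ^ 8 ≤ j * j * j ^ 8 := Nat.mul_le_mul_right _ h8
      nlinarith
    have h7 : (4 / 5 : ℝ) ^ (j ^ 10 / 2) ≤ (1 / 2 : ℝ) ^ (j ^ 10 / 8) := by
      calc (4 / 5 : ℝ) ^ (j ^ 10 / 2) ≤ (4 / 5 : ℝ) ^ (4 * (j ^ 10 / 8)) :=
            pow_le_pow_of_le_one (by norm_num) (by norm_num) (by omega)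
        _ = ((4 / 5 : ℝ) ^ 4) ^ (j ^ 10 / 8) := by rw [pow_mul]
        _ ≤ (1 / 2 : ℝ) ^ (j ^ 10 / 8) := pow_le_pow_left₀ (by norm_num) (by norm_num) _
    have h8 : (1 / 2 : ℝ) ^ (j ^ 10 / 8) ≤ (1 / 2 : ℝ) ^ (q * K₁ * j ^ 8 + 5) :=
      pow_le_pow_of_le_one (by norm_num) (by norm_num) h6
    calc (1 + ((4 * (K₁ * j ^ 7) + 5 : ℕ) : ℝ) ^ d * (j : ℝ) ^ 10) ^ (K₁ * j ^ 7) * (4 / 5 : ℝ) ^ (j ^ 10 / 2)
        ≤ (2 : ℝ) ^ (q * K₁ * j ^ 8) * (1 / 2 : ℝ) ^ (q * K₁ * j ^ 8 + 5) :=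
          mul_le_mul h5 (h7.trans h8) (by positivity) (by positivity)
      _ = ((2 : ℝ) * (1 / 2)) ^ (q * K₁ * j ^ 8) * (1 / 2) ^ 5 := by
          rw [pow_add, mul_pow]
          ring
      _ = (1 / 2 : ℝ) ^ 5 := by norm_num
      _ ≤ 1 / 25 := by norm_num

end Pool.Agent.W_1b8d5d_nd

end

/-! ### Ch9 -/

section

/-!
MP_1b8d5d_pr, [ND], section 9: the numerical inequalities.
-/

set_option autoImplicit false

namespace Pool.Agent.W_1b8d5d_nd

open Finset Filter Topology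

theorem exists_big (l : List ℝ) : ∃ K : ℝ, 1000 ≤ K ∧ ∀ x ∈ l, x ≤ K := by
  induction l with
  | nil => exact ⟨1000, le_rfl, by simp⟩
  | cons a l ih =>
    obtain ⟨K, h1, h2⟩ := ih
    refine ⟨max a K, h1.trans (le_max_right _ _), fun x hx => ?_⟩
    rcases List.mem_cons.1 hx with rfl | hx
    · exact le_max_left _ _
    · exact (h2 x hx).trans (le_max_right _ _)

theorem keys {K h n B : ℝ} {D : ℕ} (hK : 1000 ≤ K) (h1 : K ≤ h) (h2 : n ≤ h ^ D) (hn : 0 ≤ n) (h3 : K * h ^ 102 ≤ B)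
    (h4 : K * B ≤ n) (hB : 1 ≤ B) : ∀ K' : ℝ, K' ≤ K →
      K' * h ^ 102 ≤ B ∧ K' ≤ B ∧ K' * B ≤ n ∧ K' ≤ n ∧ K' * n ≤ h ^ (D + 10) := by
  intro K' hK'
  have hh1 : 1 ≤ h := by linarith
  have hh102 : 1 ≤ h ^ 102 := one_le_pow₀ hh1
  have hK0 : 0 ≤ K := by linarith
  have a1 : K ≤ K * h ^ 102 := le_mul_of_one_le_right hK0 hh102
  have a2 : K ≤ K * B := le_mul_of_one_le_right hK0 hB
  refine ⟨(mul_le_mul_of_nonneg_right hK' (by linarith)).trans h3, by linarith,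
    (mul_le_mul_of_nonneg_right hK' (by linarith)).trans h4, by linarith, ?_⟩
  have a3 : K' * n ≤ h * n := mul_le_mul_of_nonneg_right (hK'.trans h1) hn
  have a4 : h * n ≤ h * h ^ D := mul_le_mul_of_nonneg_left h2 (by linarith)
  have a5 : h * h ^ D = h ^ (D + 1) := by rw [pow_succ]; ring
  have a6 : h ^ (D + 1) ≤ h ^ (D + 10) := pow_le_pow_right₀ hh1 (by omega)
  linarith

theorem numA {C L n W d e : ℝ} (hC : 0 ≤ C) (hL : 1 ≤ L) (hn : 1 ≤ n) (hCn : C ≤ n) (hWn : W ≤ n) (hen : e ≤ n)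
    (hd : 0 ≤ d) : C * (L * (n + C) + C + W + L * C) + d * (1 + 2 * e) ≤ (C * (4 * L + 2) + 3 * d) * n := by
  have a1 : L * C ≤ L * n := mul_le_mul_of_nonneg_left hCn (by linarith)
  have a0 : 0 ≤ L * n := by positivity
  have a2 : L * (n + C) + C + W + L * C ≤ (4 * L + 2) * n := by linarith
  have a3 := mul_le_mul_of_nonneg_left a2 hC
  have a4 : d * (1 + 2 * e) ≤ d * (3 * n) := mul_le_mul_of_nonneg_left (by linarith) hd
  linarith

theorem numB {C L n d : ℝ} (hC : 0 ≤ C) (hL : 1 ≤ L) (hn : 1 ≤ n) (hd : 0 ≤ d) :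
    C * (L * n + 1) ≤ (C * (4 * L + 2) + 3 * d) * n := by
  have a0 : 0 ≤ L * n := by positivity
  have a1 : L * n + 1 ≤ (4 * L + 2) * n := by linarith
  have a3 := mul_le_mul_of_nonneg_left a1 hC
  have a4 : 0 ≤ d * n := by positivity
  linarith

theorem numC {C L n d e k : ℝ} (hC : 0 ≤ C) (hL : 1 ≤ L) (hn : 1 ≤ n) (hd : 0 ≤ d) (hen : e ≤ n) (hk : 0 ≤ k) :
    d + e * (d * (2 * k + 2)) + L * (C * (n + 1)) ≤ (d + d * (2 * k + 2) + L * (2 * C)) * n := by
  have a1 : e * (d * (2 * k + 2)) ≤ n * (d * (2 * k + 2)) := mul_le_mul_of_nonneg_right hen (by positivity)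
  have a2 : C * (n + 1) ≤ C * (2 * n) := mul_le_mul_of_nonneg_left (by linarith) hC
  have a3 := mul_le_mul_of_nonneg_left a2 (by linarith : 0 ≤ L)
  have a4 : d * 1 ≤ d * n := mul_le_mul_of_nonneg_left hn hd
  linarith

theorem numE {C c C₀ K₁ ε J B δ L k : ℝ} (hC : 0 ≤ C) (hc : 0 < c) (hC₀ : 0 ≤ C₀) (hε : 0 < ε) (hε1 : ε ≤ 1)
    (hK : C / c * (C₀ + 3) + 2 ≤ K₁ * ε) (hJ : 1 ≤ J) (hB : 1 ≤ B) (hδ : δ * L = J) (hLC : L * C ≤ B)
    (hLC2 : 3 * C ^ 2 * L ≤ B) (hk : k = K₁ * J) :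
    C * (((C₀ * J + 1) * B + L * (δ * B) + L * C) / c) + 3 * C ^ 2 * L + ε * B / 2 ≤ 3 / 2 * (ε * B) * k := by
  have a0 : 0 ≤ C / c := by positivity
  have b1 : B ≤ J * B := le_mul_of_one_le_left (by linarith) hJ
  have a1 : (C₀ * J + 1) * B + L * (δ * B) + L * C ≤ (C₀ + 3) * (J * B) := by
    have b2 : L * (δ * B) = J * B := by
      rw [← hδ]
      ring
    rw [b2]
    linarith
  have a2 : C * (((C₀ * J + 1) * B + L * (δ * B) + L * C) / c) ≤ C / c * ((C₀ + 3) * (J * B)) := by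
    have b3 : C * (((C₀ * J + 1) * B + L * (δ * B) + L * C) / c)
        = C / c * ((C₀ * J + 1) * B + L * (δ * B) + L * C) := by ring
    rw [b3]
    exact mul_le_mul_of_nonneg_left a1 a0
  have a3 : ε * B ≤ B := mul_le_of_le_one_left (by linarith) hε1
  have a4 : (C / c * (C₀ + 3) + 2) * (J * B) ≤ K₁ * ε * (J * B) := mul_le_mul_of_nonneg_right hK (by positivity)
  have a5 : K₁ * ε * (J * B) = ε * B * k := by
    rw [hk]
    ring
  have a6 : 0 ≤ ε * B * k := by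
    rw [← a5]
    refine le_trans ?_ a4
    positivity
  linarith

theorem numF {C C₀ Cl ε J B δ L d hh : ℝ} (hJ : 2 ≤ J) (hB : 1 ≤ B) (hδ : δ * L = J) (hL : 0 ≤ L)
    (h1 : 3 * C * L ≤ B) (h2 : 2 * L * (Cl * d) ≤ B) (h3 : 2 * L * hh ≤ B) (h4 : 4 * (Cl * d) * ε ≤ 1 / 64) :
    (C₀ * J + 1) * B + L * (3 * C + δ * B) + L * (2 * (Cl * (d * (1 + 2 * (ε * B))) + hh)) ≤
      ((C₀ + 4) * J + L / 64) * B := by
  have b2 : L * (δ * B) = J * B := by
    rw [← hδ]
    ring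
  have b3 : 2 * B ≤ J * B := mul_le_mul_of_nonneg_right hJ (by linarith)
  have b4 : 4 * (Cl * d) * ε * (L * B) ≤ 1 / 64 * (L * B) := mul_le_mul_of_nonneg_right h4 (by positivity)
  have b5 : (C₀ * J + 1) * B + L * (3 * C + δ * B) + L * (2 * (Cl * (d * (1 + 2 * (ε * B))) + hh))
      = C₀ * (J * B) + B + 3 * C * L + L * (δ * B) + 2 * L * (Cl * d) + 4 * (Cl * d) * ε * (L * B) + 2 * L * hh := by
    ring
  have b6 : ((C₀ + 4) * J + L / 64) * B = C₀ * (J * B) + 4 * (J * B) + 1 / 64 * (L * B) := by ring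
  rw [b5, b6, b2]
  linarith

theorem numP {L b N : ℝ} (hL : 1 ≤ L) (hb : 1 ≤ b) (hN : 0 ≤ N) :
    ∃ p₀ : ℝ, 0 < p₀ ∧ L * (N * p₀) ≤ 1 / 100 ∧ L * b * p₀ ≤ 1 / 25 := by
  refine ⟨1 / (100 * L * b * (N + 1)), by positivity, ?_, ?_⟩
  · have h1 : L * (N * (1 / (100 * L * b * (N + 1)))) = N / (100 * b * (N + 1)) := by
      field_simp
    rw [h1, div_le_div_iff₀ (by positivity) (by norm_num)]
    have h3 : N ≤ b * N := le_mul_of_one_le_left hN hb
    have h4 : 1 * (100 * b * (N + 1)) = 100 * (b * N) + 100 * b := by ring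
    rw [h4]
    linarith
  · have h1 : L * b * (1 / (100 * L * b * (N + 1))) = 1 / (100 * (N + 1)) := by
      field_simp
    rw [h1, div_le_div_iff₀ (by positivity) (by norm_num)]
    linarith

theorem numEps {Cl d : ℝ} (hCl : 0 < Cl) (hd : 0 ≤ d) :
    ∃ ε : ℝ, 0 < ε ∧ ε ≤ 1 ∧ 4 * (Cl * d) * ε ≤ 1 / 64 := by
  refine ⟨1 / (256 * (Cl * d) + 1), by positivity, ?_, ?_⟩
  · rw [div_le_one (by positivity)]
    have : 0 ≤ Cl * d := by positivity
    linarith
  · have h1 : (0 : ℝ) < 256 * (Cl * d) + 1 := by positivity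
    rw [mul_one_div, div_le_div_iff₀ h1 (by norm_num)]
    linarith

theorem numExp {h : ℝ} (hh : 1000 ≤ h) : Real.exp (-(h / 2)) ≤ 1 / 100 := by
  have h1 := Real.add_one_le_exp (h / 2)
  rw [Real.exp_neg, ← one_div, div_le_div_iff₀ (Real.exp_pos _) (by norm_num)]
  linarith

end Pool.Agent.W_1b8d5d_nd

end

/-! ### Ch5 -/

section

/-!
MP_1b8d5d_pr, [ND], section 9: the contradiction.
-/

set_option autoImplicit false

namespace Pool.Agent.W_1b8d5d_nd

open Finset Filter Topology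
open Pool.Agent.W_1b8d5d_h85 (Ex Pr Vr avg)
open Pool.Agent.W_1b8d5d_np (rmax hy chg seqs one_le_rmax good_scales)

variable {d : ℕ} [NeZero d] {Q : Qn} {m : V d → ℝ} {X : Vtx d} {μ : (Fin d → ℝ) → ℝ} {D : ℕ}

/-- The parameters. -/
theorem ch5_pars (hX : IsVtx X μ) {C₀ Cl : ℝ} (hCl : 0 < Cl) :
    ∃ (ε J δ p₀ K₁ : ℝ) (L k : ℕ), 0 < ε ∧ ε ≤ 1 ∧ 4 * (Cl * d) * ε ≤ 1 / 64 ∧
      X.C / X.c * (C₀ + 3) + 2 ≤ K₁ * ε ∧ 2 ≤ J ∧ (L : ℝ) ^ ((7 : ℝ) / 10) = J ∧ 2 ≤ L ∧ (k : ℝ) = K₁ * J ∧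
      0 < δ ∧ δ * L = J ∧ 0 < p₀ ∧ L * (X.N * p₀) ≤ 1 / 100 ∧ L * (box d k).card * p₀ ≤ 1 / 25 ∧
      (C₀ + 4) * J + (L : ℝ) / 64 < 1 / 2 * (((L / 2 : ℕ) : ℝ) / 8 - k) - δ * L ∧
      (1 + ((4 * k + 5 : ℕ) : ℝ) ^ d * L) ^ k * (4 / 5 : ℝ) ^ (L / 2) ≤ 1 / 25 := by
  have hd0 : (0 : ℝ) ≤ d := Nat.cast_nonneg d
  obtain ⟨ε, hε, hε1, hε2⟩ := numEps hCl hd0
  obtain ⟨K₁, hK₁⟩ := exists_nat_ge ((X.C / X.c * (C₀ + 3) + 2) / ε)
  rw [div_le_iff₀ hε] at hK₁
  obtain ⟨j, hj2, hj1, hj3⟩ := exists_par d K₁ (C₀ + 4)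
  have hjR : (2 : ℝ) ≤ j := by exact_mod_cast hj2
  have hj0 : (0 : ℝ) < j := by linarith
  have hj7 : (2 : ℝ) ≤ (j : ℝ) ^ 7 := by
    calc (2 : ℝ) ≤ j := hjR
      _ = (j : ℝ) ^ 1 := (pow_one _).symm
      _ ≤ (j : ℝ) ^ 7 := pow_le_pow_right₀ (by linarith) (by norm_num)
  have hL2 : 2 ≤ j ^ 10 := by
    calc 2 ≤ j := hj2
      _ = j ^ 1 := (pow_one j).symm
      _ ≤ j ^ 10 := Nat.pow_le_pow_right (by omega) (by norm_num)
  have hLR : ((j ^ 10 : ℕ) : ℝ) = (j : ℝ) ^ 10 := by push_cast; ring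
  have hb1 : (1 : ℝ) ≤ ((box d (K₁ * j ^ 7)).card : ℝ) := by
    have : 1 ≤ (box d (K₁ * j ^ 7)).card := card_pos.2 ⟨0, zero_mem_box _⟩
    exact_mod_cast this
  have hLR1 : (1 : ℝ) ≤ ((j ^ 10 : ℕ) : ℝ) := by
    have : 1 ≤ j ^ 10 := by omega
    exact_mod_cast this
  obtain ⟨p₀, hp0, hp1, hp2⟩ := numP hLR1 hb1 (Nat.cast_nonneg X.N)
  refine ⟨ε, (j : ℝ) ^ 7, 1 / (j : ℝ) ^ 3, p₀, K₁, j ^ 10, K₁ * j ^ 7, hε, hε1, hε2, hK₁, hj7, ?_, hL2, ?_, by positivity,
    ?_, hp0, hp1, hp2, ?_, ?_⟩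
  · rw [hLR, ← Real.rpow_natCast, ← Real.rpow_mul hj0.le, ← Real.rpow_natCast]
    norm_num
  · push_cast
    ring
  · rw [hLR]
    field_simp
  · have h1 : 1 / (j : ℝ) ^ 3 * ((j ^ 10 : ℕ) : ℝ) = (j : ℝ) ^ 7 := by
      rw [hLR]
      field_simp
    rw [h1, hLR]
    exact hj1
  · rw [hLR]
    exact hj3

/-- The contradiction at a large good scale. -/
theorem ch5_scale (hX : IsVtx X μ) (hD : 1000 * (d + 2) ≤ D) {C₀ Cl : ℝ} (hC₀ : 0 < C₀) (hCl : 0 < Cl)
    {ε J δ p₀ K₁ Kb h : ℝ} {L k n N : ℕ} (hε : 0 < ε) (hε1 : ε ≤ 1) (hε2 : 4 * (Cl * d) * ε ≤ 1 / 64)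
    (hK₁ : X.C / X.c * (C₀ + 3) + 2 ≤ K₁ * ε) (hJ : 2 ≤ J) (hL2 : 2 ≤ L) (hk : (k : ℝ) = K₁ * J)
    (hδ : 0 < δ) (hδL : δ * L = J) (hp0 : 0 < p₀) (hp1 : L * (X.N * p₀) ≤ 1 / 100)
    (hp2 : L * (box d k).card * p₀ ≤ 1 / 25)
    (hU : (C₀ + 4) * J + (L : ℝ) / 64 < 1 / 2 * (((L / 2 : ℕ) : ℝ) / 8 - k) - δ * L)
    (hρ : (1 + ((4 * k + 5 : ℕ) : ℝ) ^ d * L) ^ k * (4 / 5 : ℝ) ^ (L / 2) ≤ 1 / 25)
    (hKb : 1000 ≤ Kb)
    (q1 : 100 * (L + 1) * X.C ≤ Kb) (q2 : Cl * (X.C * (2 * (L + 1) * X.C)) + 1 ≤ Kb) (q3 : 3 * X.C ^ 2 * L ≤ Kb)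
    (q4 : 2 * X.C / δ ≤ Kb) (q5 : 16 * (X.C * (d + ε * (d * (2 * k + 2)))) ≤ Kb)
    (q6 : X.C * (4 * L + 2) + 3 * d ≤ Kb) (q7 : d + d * (2 * k + 2) + L * (2 * X.C) ≤ Kb)
    (q8 : 2 * L * (Cl * d) ≤ Kb) (q9 : C₀ * J ≤ Kb) (q10 : 2 * (L : ℝ) ≤ Kb) (q11 : 8 * X.C ≤ Kb)
    (hK : Kb ≤ h) (hn1 : (n : ℝ) ≤ h ^ D) (hn2 : h ^ (D - 1) ≤ n) (hKB : Kb * h ^ 102 ≤ bb X m n)
    (hKn : Kb * bb X m n ≤ n) (hpow : h ^ D = L * n) (hβ : m (X.rd n) - n = bb X m n) (hNL : N = L * n)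
    (hgrow : bb X m N ≤ J * bb X m n) {a : ℝ} {M : Mdl d a h} (hM : GoodN Q m (2 * D + 200) M)
    (hEW : 1 / 4 ≤ M.P (fun τ => Reach (X.lane 0 N (C₀ * bb X m N) (C₀ * bb X m N)) τ 0 (X.rd N) (N + C₀ * bb X m N)))
    (hTh : ∀ i : Fin X.N, M.P (fun τ => ∃ x ∈ X.Dw 0 ((C₀ * J + 1) * bb X m n), ∃ z ∈ X.Dw (X.rd n)
      ((C₀ * J + 1) * bb X m n), T τ x z ≤ X.ff i (z - x) - δ / 2 * bb X m n) ≤ p₀)
    (hlow : M.P (fun τ => ¬ LT μ (2 * D + 199) h τ) ≤ Real.exp (-(h / 2)))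
    (hlin : M.P (fun τ => ¬ ∀ x z : V d, nm x ≤ h ^ (D + 10) → nm z ≤ h ^ (D + 10) →
      T τ x z ≤ Cl * nm (z - x) + h ^ 102) ≤ 1 / h)
    (hslab : ∀ (a : ℝ) (τ : Env d), 0 < a → Bd a h τ → LT μ (2 * D + 199) h τ → ∀ (n i : ℕ) (x : V d) (s H : ℝ),
      h ^ (D - 1) ≤ n → (n : ℝ) ≤ h ^ D → |X.gg x - i * X.gg (X.rd n)| ≤ n / 16 → nm x ≤ h ^ (D + 10) →
      s ≤ n + n / 16 → nm x + 2 * X.C * (2 * n + h ^ 16) ≤ H → T τ x (x + X.rd n) ≤ s →
      T (res h (slab X n i H) τ) x (x + X.rd n) ≤ s) : False := by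
  have hC4 := one_le_C hX
  have hc := hX.cpos
  have hd0 : (0 : ℝ) ≤ d := Nat.cast_nonneg d
  have hB1 := one_le_bb (X := X) m n
  have hn0 : (0 : ℝ) ≤ n := Nat.cast_nonneg n
  have hh1 : 1 ≤ h := by linarith
  have hLR : (1 : ℝ) ≤ L := by
    have : 1 ≤ L := by omega
    exact_mod_cast this
  have key := keys hKb hK hn1 hn0 hKB hKn hB1
  obtain ⟨B, hB⟩ : ∃ B, B = bb X m n := ⟨_, rfl⟩
  rw [← hB] at hβ hgrow hTh hB1 key
  have hn1' : 1 ≤ (n : ℝ) := by
    have := (key 1000 hKb).2.2.2.1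
    linarith
  have hhh : h ≤ h ^ 102 := by
    calc h = h ^ 1 := (pow_one h).symm
      _ ≤ h ^ 102 := pow_le_pow_right₀ hh1 (by norm_num)
  have hNR : (N : ℝ) = L * n := by
    rw [hNL]
    push_cast
    ring
  -- the width
  have hW1 : C₀ * bb X m N ≤ C₀ * J * B := by
    rw [mul_assoc]
    exact mul_le_mul_of_nonneg_left hgrow hC₀.le
  have hW0 : 0 ≤ C₀ * J * B := by positivity
  have hEW' : 1 / 4 ≤ M.P (fun τ => Reach (X.lane 0 N (C₀ * J * B) (C₀ * J * B)) τ 0 (X.rd N) (L * n + C₀ * J * B)) := by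
    refine hEW.trans (M.P_mono fun τ hτ hq => hq.mono (lane_wb_mono hW1 hW1 _ _) ?_)
    linarith
  have hLC : 2 * L * X.C ≤ B := by
    have := (key _ q1).2.1
    have h2 : 0 ≤ (L : ℝ) * X.C := by positivity
    linarith
  have hTh' : ∀ i : Fin X.N, M.P (fun τ => ∃ x ∈ X.Dw 0 (C₀ * J * B + 2 * L * X.C),
      ∃ z ∈ X.Dw (X.rd n) (C₀ * J * B + 2 * L * X.C), T τ x z ≤ X.ff i (z - x) - δ / 2 * B) ≤ p₀ := by
    intro i
    refine le_trans (M.P_mono fun τ hτ hq => ?_) (hTh i)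
    obtain ⟨x, hx, z, hz, h1⟩ := hq
    have h2 : C₀ * J * B + 2 * L * X.C ≤ (C₀ * J + 1) * B := by linarith
    exact ⟨x, Dw_mono h2 hx, z, Dw_mono h2 hz, h1⟩
  have hWn : C₀ * J * B ≤ n := (key _ q9).2.2.1
  have heB : ε * B ≤ B := mul_le_of_le_one_left (by linarith) hε1
  have hBn : 1000 * B ≤ n := (key _ hKb).2.2.1
  have hen : ε * B ≤ n := by linarith
  have hCn : 8 * X.C ≤ n := (key _ q11).2.2.2.1
  have hpow16 : h ^ 16 ≤ h ^ D := pow_le_pow_right₀ hh1 (by omega)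
  have hD10 : h ^ D ≤ h ^ (D + 10) := pow_le_pow_right₀ hh1 (by omega)
  refine contra (p := 2 * D + 200) (q := 2 * D + 199) (W := C₀ * J * B) (W' := (C₀ * J + 1) * B) (B := B) (δ := δ)
    (e := ε * B) (ε := ε) (Cl := Cl) (hh := h ^ 102) (R := h ^ (D + 10)) (H := h ^ (D + 20))
    (U := (C₀ + 4) * J + (L : ℝ) / 64) (p₀ := p₀) hX hM hNL (by omega) hB1 hδ hε rfl hW0 hCl.le (by positivity)
    hEW' hTh' ?_ ?_ ?_ ?_ ?_ ?_ ?_ ?_ ?_ ?_ ?_ hp1 hp2 hp0.le ?_ ?_ ?_ ?_ ?_ ?_ hρ hU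
  · exact hlow.trans (numExp (by linarith))
  · refine hlin.trans ?_
    rw [div_le_div_iff₀ (by linarith) (by norm_num)]
    linarith
  · intro τ hτ hLT i x s hi h1 h2 h3 h4
    refine hslab a τ hM.apos hτ hLT n i x s _ hn2 hn1 h1 h2 h3 ?_ h4
    have h5 : 2 * X.C * (2 * n + h ^ 16) ≤ 8 * X.C * h ^ D := by
      have h6 : 2 * X.C * (2 * n + h ^ 16) ≤ 2 * X.C * (4 * h ^ D) := by
        refine mul_le_mul_of_nonneg_left ?_ (by linarith)
        linarith
      linarith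
    have h6 : 8 * X.C * h ^ D ≤ h * h ^ D := mul_le_mul_of_nonneg_right (q11.trans hK) (by positivity)
    have h7 : h * h ^ D ≤ h ^ (D + 10) := by
      have : h * h ^ D = h ^ (D + 1) := by rw [pow_succ]; ring
      rw [this]
      exact pow_le_pow_right₀ hh1 (by omega)
    have h8 : 2 * h ^ (D + 10) ≤ h * h ^ (D + 10) := mul_le_mul_of_nonneg_right (by linarith) (by positivity)
    have h9 : h * h ^ (D + 10) ≤ h ^ (D + 20) := by
      have : h * h ^ (D + 10) = h ^ (D + 11) := by rw [pow_succ h (D + 10)]; ring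
      rw [this]
      exact pow_le_pow_right₀ hh1 (by omega)
    linarith
  · have h1 := (key _ q1).2.2.2.1
    have h2 : 0 ≤ ((L : ℝ) + 1) * X.C := by positivity
    linarith
  · have h1 := (key _ q1).2.2.2.1
    have h2 : 1 * X.C ≤ (L : ℝ) * X.C := mul_le_mul_of_nonneg_right hLR (by linarith)
    linarith
  · refine (numA (by linarith) hLR hn1' (by linarith) hWn hen hd0).trans (key _ q6).2.2.2.2
  · refine (numB (by linarith) hLR hn1' hd0).trans (key _ q6).2.2.2.2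
  · refine (numC (by linarith) hLR hn1' hd0 hen (Nat.cast_nonneg k)).trans (key _ q7).2.2.2.2
  · have h1 := (key _ q2).1
    have h2 : Cl * (X.C * (2 * (L + 1) * X.C)) ≤ Cl * (X.C * (2 * (L + 1) * X.C)) * h ^ 102 :=
      le_mul_of_one_le_right (by positivity) (one_le_pow₀ hh1)
    linarith
  · exact numE (by linarith) hc hC₀.le hε hε1 hK₁ (by linarith) hB1 hδL
      (by have h2 : 0 ≤ (L : ℝ) * X.C := by positivity
          linarith) (key _ q3).2.1 hk
  · refine numF hJ hB1 hδL (by linarith) ?_ (key _ q8).2.1 ?_ hε2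
    · have h1 := (key _ q1).2.1
      have h2 : 0 ≤ (L : ℝ) * X.C := by positivity
      linarith
    · exact (key _ q10).1
  · have h1 := (key _ q4).2.1
    rw [div_le_iff₀ hδ] at h1
    linarith
  · linarith
  · have h1 := (key _ q5).2.2.1
    have h2 : X.C * (d + ε * B * (d * (2 * k + 2))) ≤ X.C * (d + ε * (d * (2 * k + 2))) * B := by
      have h3 : (d : ℝ) ≤ d * B := le_mul_of_one_le_right hd0 hB1
      have h4 := mul_le_mul_of_nonneg_left h3 (by linarith : 0 ≤ X.C)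
      linarith
    linarith
  · exact pow_le_pow_right₀ hh1 (by omega)
  · refine (nm_rd hX n).trans ?_
    rw [abs_of_nonneg hn0]
    have h1 := (key _ q6).2.2.2.2
    have h2 : X.C * (n + 1) ≤ (X.C * (4 * L + 2) + 3 * d) * n := by
      have h3 := numB (C := X.C) (L := L) (n := n) (d := d) (by linarith) hLR hn1' hd0
      have h4 : X.C * (n + 1) ≤ X.C * (L * n + 1) := by
        refine mul_le_mul_of_nonneg_left ?_ (by linarith)
        have : 1 * (n : ℝ) ≤ L * n := mul_le_mul_of_nonneg_right hLR hn0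
        linarith
      linarith
    have h3 : h ^ (D + 10) ≤ h ^ (2 * D + 200) := pow_le_pow_right₀ hh1 (by omega)
    linarith
  · have h1 := (key 1000 hKb).1
    linarith

/-- SECTION 9. There is no vertex. -/
theorem no_vertex (hX : IsVtx X μ) (hmu : MuM μ m) (hN : HasN Q m) (hI : Inp Q X μ m D) : False := by
  have hs := mu_neg hmu hN
  have hD := hI.dim
  obtain ⟨C₀, hC₀, hwid⟩ := hI.width
  obtain ⟨Cl, hCl, hlin⟩ := hI.lin
  obtain ⟨ε, J, δ, p₀, K₁, L, k, hε, hε1, hε2, hK₁, hJ, hLJ, hL2, hk, hδ, hδL, hp0, hp1, hp2, hU, hρ⟩ :=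
    ch5_pars (d := d) (C₀ := C₀) hX hCl
  obtain ⟨Kb, hKb, hq⟩ := exists_big [100 * (L + 1) * X.C, Cl * (X.C * (2 * (L + 1) * X.C)) + 1, 3 * X.C ^ 2 * L,
    2 * X.C / δ, 16 * (X.C * (d + ε * (d * (2 * k + 2)))), X.C * (4 * L + 2) + 3 * d,
    d + d * (2 * k + 2) + L * (2 * X.C), 2 * L * (Cl * d), C₀ * J, 2 * (L : ℝ), 8 * X.C]
  have hL1 : 1 ≤ L := by omega
  have hD1 : 1 ≤ D := by omega
  have hht := hh_tendsto (L := L) (D := D) hL1 hD1
  have ev1 := scales hI hL1 Kb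
  have ev2 := hht.eventually (hN (2 * D + 200))
  have ev3 := hht.eventually hwid
  have ev4 := hht.eventually (hI.thin (C₀ * J + 1) (δ / 2) p₀ (by positivity) (by positivity) hp0)
  have ev5 := hht.eventually hI.low
  have ev6 := hht.eventually hlin
  have ev7 := hht.eventually (slab_T hs hX D (by omega))
  obtain ⟨n₀, hn₀⟩ := eventually_atTop.1 (ev1.and (ev2.and (ev3.and (ev4.and (ev5.and (ev6.and ev7))))))
  obtain ⟨Cf, hCf⟩ := rmax_fast hI
  obtain ⟨n, hnn, hβ, hB1, hgrow⟩ := good_scales (fun l => m (X.rd l) - l) (C := Cf) (θ := 51 / 100) (by norm_num)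
    (by norm_num) hCf (rmax_unb hI) hL2 n₀
  obtain ⟨⟨hK, hn1, hn2, hKB, hKn⟩, ⟨a, M, hM⟩, hwid', hthin', hlow', hlin', hslab'⟩ := hn₀ n hnn
  rw [← bb_eq_rmax, ← bb_eq_rmax, hLJ] at hgrow
  rw [← bb_eq_rmax] at hβ
  have hpow := hh_pow (L := L) (n := n) hD1
  have hLR : (1 : ℝ) ≤ L := by exact_mod_cast hL1
  have hn0 : (0 : ℝ) ≤ n := Nat.cast_nonneg n
  refine ch5_scale hX hD hC₀ hCl hε hε1 hε2 hK₁ hJ hL2 hk hδ hδL hp0 hp1 hp2 hU hρ hKb (hq _ (by simp))
    (hq _ (by simp)) (hq _ (by simp)) (hq _ (by simp)) (hq _ (by simp)) (hq _ (by simp)) (hq _ (by simp))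
    (hq _ (by simp)) (hq _ (by simp)) (hq _ (by simp)) (hq _ (by simp)) hK hn1 hn2 hKB hKn hpow hβ rfl hgrow hM
    (hwid' a M hM (L * n) ?_ ?_) (fun i => hthin' a M hM n hn2 hn1 i) (hlow' a M hM) (hlin' a M hM) hslab'
  · push_cast
    have : 1 * (n : ℝ) ≤ L * n := mul_le_mul_of_nonneg_right hLR hn0
    linarith
  · rw [hpow]
    push_cast
    exact le_rfl

end Pool.Agent.W_1b8d5d_nd

end

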