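import Pool.Agent.W_1b8d5d_nd.MainB
import Pool.Agent.W_1b8d5d_nd.MainC

/-!
MP_1b8d5d_pr, [ND]: assembly: the inputs of section 9, there is no vertex.
-/

set_option autoImplicit false

namespace Pool.Agent.W_1b8d5d_nd

open Finset Filter Topology
open Pool.Agent.W_1b8d5d_h85 (Ex Pr Vr avg)

variable {d : ℕ} [NeZero d] {Q : Qn} {m : V d → ℝ} {μ : (Fin d → ℝ) → ℝ} {X : Vtx d}

/-- The scale of a length. -/
theorem scale_eventually {D : ℕ} (hD : 1 ≤ D) {p : ℝ → Prop} (hp : ∀ᶠ h in atTop, p h) :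
    ∀ᶠ n : ℕ in atTop, p ((n : ℝ) ^ (1 / (D : ℝ))) := by
  have h1 : Tendsto (fun n : ℕ => (n : ℝ) ^ (1 / (D : ℝ))) atTop atTop :=
    (tendsto_rpow_atTop (by positivity)).comp tendsto_natCast_atTop_atTop
  exact h1.eventually hp

theorem inp (hd : 2 ≤ d) (hX : IsVtx X μ) (hmu : MuM μ m) (hN : HasN Q m) (b D : ℕ) (hb : 1000 ≤ b)
    (hbd : 4 * (d + 2) ≤ b) (hDdef : D = (b + 4) * (d + 2)) : Inp Q X μ m D := by
  have hdim : 1000 * (d + 2) ≤ D := by rw [hDdef]; exact Nat.mul_le_mul_right _ (by omega)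
  have hD : 1000 ≤ D := by omega
  have hlarge := bb_large hd hX hmu hN D hD b (by omega) hDdef.ge
  refine ⟨hdim, ?_, ?_, ?_, ?_, ?_, ?_⟩
  · obtain ⟨C₀, hC₀, hw⟩ := width hd hX hmu hN D hD
    refine ⟨2 * C₀, by linarith, ?_⟩
    filter_upwards [hw, hlarge, eventually_ge_atTop 1] with h h1 h2 h3 a M hM n hn1 hn2
    have h4 := h1 a M hM n hn1 hn2 n le_rfl
    have h5 := h2 a M hM n hn1 hn2
    have h6 : h ^ 103 ≤ bb X m n := (pow_le_pow_right₀ h3 (by omega)).trans h5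
    have h7 : h ≤ bb X m n := by
      have : h ^ 1 ≤ h ^ b := pow_le_pow_right₀ h3 (by omega)
      rw [pow_one] at this
      exact this.trans h5
    have h8 := one_le_bb (X := X) m n
    refine h4.trans (M.P_mono fun τ _ hr => ?_)
    have h9 : C₀ * (bb X m n + h ^ 103) ≤ 2 * C₀ * bb X m n := by nlinarith
    refine Reach.mono hr ?_ ?_
    · exact lane_mono (X := X) 0 le_rfl h9 h9
    · nlinarith
  · intro K δ p₀ hK hδ hp
    exact thin hd hX hmu hN D hdim K δ p₀ hK hδ hp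
  · filter_upwards [scale_eventually (D := D) (by omega) hlarge,
      scale_eventually (D := D) (by omega) (hN (2 * D + 200)), eventually_ge_atTop 1] with n h1 h2 h3
    obtain ⟨a, M, hM⟩ := h2
    have hn0 : (0 : ℝ) ≤ n := Nat.cast_nonneg n
    have hn1 : (1 : ℝ) ≤ n := by exact_mod_cast h3
    have hDpos : (0 : ℝ) < D := by
      have : 0 < D := by omega
      exact_mod_cast this
    have h4 : ((n : ℝ) ^ (1 / (D : ℝ))) ^ D = n := by
      rw [← Real.rpow_natCast, ← Real.rpow_mul hn0, one_div, inv_mul_cancel₀ hDpos.ne', Real.rpow_one]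
    have h5 : 1 ≤ (n : ℝ) ^ (1 / (D : ℝ)) := Real.one_le_rpow hn1 (by positivity)
    have h6 := h1 a M hM n (by
      calc ((n : ℝ) ^ (1 / (D : ℝ))) ^ (D - 1) ≤ ((n : ℝ) ^ (1 / (D : ℝ))) ^ D := pow_le_pow_right₀ h5 (Nat.sub_le _ _)
        _ = n := h4) (by rw [h4])
    refine le_trans ?_ h6
    rw [← Real.rpow_natCast, ← Real.rpow_mul hn0]
    refine Real.rpow_le_rpow_of_exponent_le hn1 ?_
    have hb4 : 4 * ((d : ℝ) + 2) ≤ b := by exact_mod_cast hbd
    have hd0 : (0 : ℝ) ≤ d := Nat.cast_nonneg d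
    have hb0 : (0 : ℝ) ≤ b := Nat.cast_nonneg b
    rw [hDdef, div_le_iff₀ (by positivity), one_div_mul_eq_div, mul_comm, mul_div_assoc', le_div_iff₀ (by positivity)]
    push_cast
    nlinarith
  · obtain ⟨r₀, hr₀⟩ := corner_fast hX hmu hN
    obtain ⟨N₀, hN₀⟩ := exists_nat_ge (max r₀ 1)
    filter_upwards [eventually_ge_atTop N₀] with n hn
    have h1 : max r₀ 1 ≤ (n : ℝ) := hN₀.trans (by exact_mod_cast hn)
    have h2 := hr₀ n ((le_max_left _ _).trans h1)
    refine h2.trans (add_le_add_right (Real.rpow_le_rpow_of_exponent_le ((le_max_right _ _).trans h1) (by norm_num)) _)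
  · exact LT_prob hmu hN (2 * D + 199) (by omega)
  · obtain ⟨C, hC, hl⟩ := linear_bound hX hmu hN
    refine ⟨C, by linarith, ?_⟩
    filter_upwards [hl (2 * D + 200) (D + 10) (by omega) (by omega), eventually_ge_atTop 16] with h h1 h2 a M hM
    refine (h1 a M hM).trans ?_
    rw [Real.exp_neg, ← one_div]
    refine one_div_le_one_div_of_le (by linarith) ?_
    have h3 := Real.quadratic_le_exp_of_nonneg (x := h / 2) (by linarith)
    nlinarith

/-- The limit shape has no vertex. -/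
theorem no_vtx (hd : 2 ≤ d) (hN : HasN Q m) (hmu : MuM μ m) (hX : IsVtx X μ) : False :=
  no_vertex hX hmu hN (inp hd hX hmu hN (1000 + 4 * (d + 2)) _ (by omega) (by omega) rfl)

end Pool.Agent.W_1b8d5d_nd
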