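import Pool.Agent.W_1b8d5d_gd.Defs
import Pool.Agent.W_1b8d5d_gd.Grid1
import Pool.Agent.W_1b8d5d_gd.Grid2
import Pool.Agent.W_1b8d5d_gd.Grid3

/-!
MP_1b8d5d_pr, [ND]: definitions and the median model (sections 1 and 2). One file, so that the proofs are elaborated in parallel;
one section for each of the former files.
-/

/-! ### Defs -/

section

/-!
MP_1b8d5d_pr, [ND]: first-passage percolation on `ℤ ^ d`, all `d ≥ 1`. The grid, environments, passage times, finite
random environments are those of `W_1b8d5d_gd.Defs` (exported here).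
-/

set_option autoImplicit false

namespace Pool.Agent.W_1b8d5d_nd

open Finset
open Pool.Agent.W_1b8d5d_h85 (Ex Pr Vr avg)

export Pool.Agent.W_1b8d5d_gd (V Edge Env nm dir dir_ne_zero grid ke wedges cost T Bd IsGeo res sh rf edg nHigh Mdl)

variable {d : ℕ}

/-- `y` is reached from `x` by a walk inside `A` of cost at most `s`. -/
def Reach [NeZero d] (A : Set (Edge d)) (τ : Env d) (x z : V d) (s : ℝ) : Prop :=
  ∃ w : (grid d).Walk x z, (∀ e ∈ wedges w, e ∈ A) ∧ cost τ w ≤ s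

/-! ### Real vectors -/

/-- The scalar product. -/
def dp (f x : Fin d → ℝ) : ℝ := ∑ i, f i * x i

/-- Lattice points as points of the space. -/
def toR (x : V d) : Fin d → ℝ := fun i => (x i : ℝ)

/-- The `ℓ¹` norm of the space. -/
noncomputable def rn (x : Fin d → ℝ) : ℝ := ∑ i, |x i|

/-- A lattice point near a point of the space. -/
noncomputable def rnd (x : Fin d → ℝ) : V d := fun i => ⌊x i⌋

end Pool.Agent.W_1b8d5d_nd

end

/-! ### Grid1 -/

section

/-!
MP_1b8d5d_pr, [ND]: passage times as a metric: all proved in `W_1b8d5d_gd.Grid1`, exported here.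
-/

set_option autoImplicit false

namespace Pool.Agent.W_1b8d5d_nd

export Pool.Agent.W_1b8d5d_gd (nm_nonneg nm_zero nm_eq_zero nm_neg nm_add_le nm_sub_comm abs_le_nm nm_smul_dir nm_dir nm_eq_nat one_le_nm nm_adj dif_dir idx_dir dir_nonneg ke_dir ke_dir' ke_inj exists_walk nm_le_length length_wedges wedges_append wedges_reverse wedges_nodup cost_append cost_reverse le_cost cost_le T_le_cost T_nonneg T_self T_triangle T_lower T_upper T_lip T_symm T_lip' T_sh T_rf T_mono Bd_sh Bd_rf)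

end Pool.Agent.W_1b8d5d_nd

end

/-! ### Grid2 -/

section

/-!
MP_1b8d5d_pr, [ND]: geodesics, first passage: all proved in `W_1b8d5d_gd.Grid2`, exported here.
-/

set_option autoImplicit false

namespace Pool.Agent.W_1b8d5d_nd

export Pool.Agent.W_1b8d5d_gd (exists_geo geo geo_isGeo geo_length geo_sub geo_add geo_piece geo_near first_passage)

end Pool.Agent.W_1b8d5d_nd

end

/-! ### Grid3 -/

section

/-!
MP_1b8d5d_pr, [ND]: walks and sets of edges, restricted environments: all proved in `W_1b8d5d_gd.Grid3`, exported here.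
-/

set_option autoImplicit false

namespace Pool.Agent.W_1b8d5d_nd

export Pool.Agent.W_1b8d5d_gd (wedges_support wedges_near cost_congr cost_mono cost_path Bd_res le_res T_le_res T_res_anti T_res_eq dependsOn_T_res T_local)

end Pool.Agent.W_1b8d5d_nd

end

/-! ### MdlL -/

section

/-!
MP_1b8d5d_pr, [ND]: elementary lemmas for finite random environments (port of `W_1b8d5d_h85.Model`), real vectors.
-/

set_option autoImplicit false

namespace Pool.Agent.W_1b8d5d_nd

open Finset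
open Pool.Agent.W_1b8d5d_h85 (Ex Pr Vr avg)

variable {d : ℕ}

end Pool.Agent.W_1b8d5d_nd

namespace Pool.Agent.W_1b8d5d_gd.Mdl

variable {d : ℕ} {a b : ℝ} (M : Mdl d a b)

theorem P_and_ge (p q : Env d → Prop) : M.P p - M.P (fun τ => ¬ q τ) ≤ M.P (fun τ => p τ ∧ q τ) := by
  have h1 : M.P p ≤ M.P (fun τ => (p τ ∧ q τ) ∨ ¬ q τ) := by
    apply M.P_mono
    intro τ _ hp
    by_cases hq : q τ
    · exact Or.inl ⟨hp, hq⟩
    · exact Or.inr hq
  have h2 := M.P_or (fun τ => p τ ∧ q τ) (fun τ => ¬ q τ)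
  linarith

/-- An event of positive probability contains an environment. -/
theorem exists_of_P_pos {p : Env d → Prop} (h : 0 < M.P p) : ∃ τ, Bd a b τ ∧ p τ := by
  classical
  by_contra hne
  push Not at hne
  have h1 : M.P p ≤ M.P (fun _ => False) := M.P_mono fun τ hτ hp => hne τ hτ hp
  have h2 : M.P (fun _ => False) ≤ 0 := by
    rw [M.P_def]
    apply M.E_le_of_le
    intro τ _
    rw [if_neg not_false]
  linarith

end Pool.Agent.W_1b8d5d_gd.Mdl

namespace Pool.Agent.W_1b8d5d_nd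

open Finset

variable {d : ℕ}


/-! ### Real vectors -/

theorem nm_eq_rn (x : V d) : nm x = rn (toR x) := by
  exact rfl

theorem toR_add (x y : V d) : toR (x + y) = toR x + toR y := by
  funext i
  simp [toR]

theorem toR_neg (x : V d) : toR (-x) = -toR x := by
  funext i
  simp [toR]

theorem toR_sub (x y : V d) : toR (x - y) = toR x - toR y := by
  funext i
  simp [toR]

theorem toR_nsmul (n : ℕ) (x : V d) : toR (n • x) = (n : ℝ) • toR x := by
  funext i
  simp [toR]

theorem toR_zero : toR (0 : V d) = 0 := by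
  funext i
  simp [toR]

theorem rn_nonneg (x : Fin d → ℝ) : 0 ≤ rn x := by
  exact sum_nonneg fun i _ => abs_nonneg _

theorem rn_eq_zero {x : Fin d → ℝ} : rn x = 0 ↔ x = 0 := by
  unfold rn
  rw [sum_eq_zero_iff_of_nonneg fun i _ => abs_nonneg _]
  constructor
  · intro h
    funext i
    exact abs_eq_zero.1 (h i (mem_univ i))
  · rintro rfl i _
    simp

theorem rn_zero : rn (0 : Fin d → ℝ) = 0 := by
  exact rn_eq_zero.2 rfl

theorem rn_add_le (x y : Fin d → ℝ) : rn (x + y) ≤ rn x + rn y := by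
  unfold rn
  rw [← sum_add_distrib]
  exact sum_le_sum fun i _ => abs_add_le _ _

theorem rn_sub_le (x y : Fin d → ℝ) : rn (x - y) ≤ rn x + rn y := by
  unfold rn
  rw [← sum_add_distrib]
  exact sum_le_sum fun i _ => abs_sub _ _

theorem rn_smul (c : ℝ) (x : Fin d → ℝ) : rn (c • x) = |c| * rn x := by
  unfold rn
  rw [mul_sum]
  refine sum_congr rfl fun i _ => ?_
  rw [Pi.smul_apply, smul_eq_mul, abs_mul]

theorem rn_neg (x : Fin d → ℝ) : rn (-x) = rn x := by
  unfold rn
  refine sum_congr rfl fun i _ => ?_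
  rw [Pi.neg_apply, abs_neg]

theorem rn_sub_comm (x y : Fin d → ℝ) : rn (x - y) = rn (y - x) := by
  rw [← rn_neg, neg_sub]

theorem continuous_rn : Continuous (rn : (Fin d → ℝ) → ℝ) := by
  unfold rn
  exact continuous_finsetSum _ fun i _ => (continuous_apply i).abs

theorem dp_add (f x y : Fin d → ℝ) : dp f (x + y) = dp f x + dp f y := by
  unfold dp
  rw [← sum_add_distrib]
  refine sum_congr rfl fun i _ => ?_
  rw [Pi.add_apply]
  ring

theorem dp_sub (f x y : Fin d → ℝ) : dp f (x - y) = dp f x - dp f y := by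
  unfold dp
  rw [← sum_sub_distrib]
  refine sum_congr rfl fun i _ => ?_
  rw [Pi.sub_apply]
  ring

theorem dp_neg (f x : Fin d → ℝ) : dp f (-x) = -dp f x := by
  unfold dp
  rw [← sum_neg_distrib]
  refine sum_congr rfl fun i _ => ?_
  rw [Pi.neg_apply]
  ring

theorem dp_zero (f : Fin d → ℝ) : dp f 0 = 0 := by
  simp [dp]

theorem dp_smul (f : Fin d → ℝ) (c : ℝ) (x : Fin d → ℝ) : dp f (c • x) = c * dp f x := by
  unfold dp
  rw [mul_sum]
  refine sum_congr rfl fun i _ => ?_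
  rw [Pi.smul_apply, smul_eq_mul]
  ring

theorem add_dp (f f' x : Fin d → ℝ) : dp (f + f') x = dp f x + dp f' x := by
  unfold dp
  rw [← sum_add_distrib]
  refine sum_congr rfl fun i _ => ?_
  rw [Pi.add_apply]
  ring

theorem smul_dp (c : ℝ) (f x : Fin d → ℝ) : dp (c • f) x = c * dp f x := by
  unfold dp
  rw [mul_sum]
  refine sum_congr rfl fun i _ => ?_
  rw [Pi.smul_apply, smul_eq_mul]
  ring

theorem abs_dp_le (f x : Fin d → ℝ) : |dp f x| ≤ rn f * rn x := by
  unfold dp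
  refine (abs_sum_le_sum_abs _ _).trans ?_
  have h1 : ∀ i, |x i| ≤ rn x := fun i => by
    unfold rn
    exact single_le_sum (f := fun j => |x j|) (fun j _ => abs_nonneg _) (mem_univ i)
  have h2 : rn f * rn x = ∑ i, |f i| * rn x := by
    rw [← sum_mul]
    rfl
  rw [h2]
  refine sum_le_sum fun i _ => ?_
  rw [abs_mul]
  exact mul_le_mul_of_nonneg_left (h1 i) (abs_nonneg _)

theorem rnd_near (x : Fin d → ℝ) : rn (toR (rnd x) - x) ≤ d := by
  unfold rn
  have h1 : ∀ i, |(toR (rnd x) - x) i| ≤ 1 := fun i => by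
    have h2 := Int.floor_le (x i)
    have h3 := Int.lt_floor_add_one (x i)
    rw [Pi.sub_apply]
    change |(⌊x i⌋ : ℝ) - x i| ≤ 1
    rw [abs_le]
    constructor <;> linarith
  refine (sum_le_sum fun i _ => h1 i).trans ?_
  simp

end Pool.Agent.W_1b8d5d_nd

end

/-! ### Mod -/

section

/-!
MP_1b8d5d_pr, [ND]: the limit shape of first-passage percolation on `ℤ ^ d` has no vertex. The interface: good models,
vertex data, regions, first passage costs.

SCALES. `h : ℝ` is a large real number; the model at scale `h` has weights in `[a, h]`, `0 < a` arbitrarily small. `D : ℕ` is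
the main exponent (`1000 * (d + 2) ≤ D`), the main lengths `n` satisfy `h ^ (D - 1) ≤ n ≤ h ^ D`, the range of the model is
`h ^ (2 * D + 200)`. Overwhelming events fail with probability `≤ exp (-(h / 10))`.
-/

set_option autoImplicit false

namespace Pool.Agent.W_1b8d5d_nd

open Finset Filter Topology
open Pool.Agent.W_1b8d5d_h85 (Ex Pr Vr avg)

variable {d : ℕ} [NeZero d]

/-- Numerical parameters of the law: weights `≤ tl` have probability `≥ pl`, most of the weights are `≥ th`. -/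
structure Qn where
  tl : ℝ
  th : ℝ
  pl : ℝ
  K : ℝ
  htl : 0 ≤ tl
  hlt : tl < th
  hpl : 0 < pl
  hK : 1 ≤ K

/-- The standard deviation allowed at distance `r` in the model at scale `h`. -/
noncomputable def sg (h r : ℝ) : ℝ := h ^ 4 * √r + h ^ 11

/-- The model `M` at scale `h` is good in the range `h ^ p`, for the medians `m`. -/
structure GoodN (Q : Qn) (m : V d → ℝ) (p : ℕ) {a h : ℝ} (M : Mdl d a h) : Prop where
  apos : 0 < a
  alt : a ≤ h
  inv : ∀ (z : V d) (F : Env d → ℝ), M.E (fun τ => F (sh z τ)) = M.E F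
  rfl' : ∀ F : Env d → ℝ, M.E (fun τ => F (rf τ)) = M.E F
  indep : ∀ A B : Set (Edge d), Disjoint A B → (∀ e ∈ A ∪ B, nm e.1 ≤ h ^ (p + 100)) →
    ∀ F G : Env d → ℝ, DependsOn F A → DependsOn G B →
      M.E (fun τ => F τ * G τ) = M.E F * M.E G
  medU : ∀ z, nm z ≤ h ^ p → 49 / 100 ≤ M.P (fun τ => T τ 0 z ≤ m z + h)
  medL : ∀ z, nm z ≤ h ^ p → 49 / 100 ≤ M.P (fun τ => m z - h ≤ T τ 0 z)
  low : ∀ z, nm z ≤ h ^ p →
    M.P (fun τ => T τ 0 z ≤ M.E (fun τ => T τ 0 z) - sg h (nm z)) ≤ Real.exp (-h)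
  var : ∀ z, nm z ≤ h ^ p →
    M.E (fun τ => (T τ 0 z - M.E fun τ => T τ 0 z) ^ 2) ≤ sg h (nm z) ^ 2
  peierls : M.P (fun τ => ∃ (x y : V d) (w : (grid d).Walk x y), nm x ≤ h ^ p ∧ w.IsPath ∧
      h ^ 10 ≤ w.length ∧ (w.length : ℝ) ≤ h ^ p ∧ (nHigh Q.th τ w : ℝ) < w.length / 2)
      ≤ Real.exp (-h)
  tilt : ∀ (C : Finset (Edge d)) (δ : ℝ), (∀ e ∈ C, nm e.1 ≤ h ^ (p + 100)) → 0 ≤ δ → δ ≤ 1 / 2 →
    ∃ J : M.Ω → M.Ω → ℝ, (∀ ω ω', 0 ≤ J ω ω') ∧ (∀ ω, ∑ ω', J ω ω' = 1) ∧
      (∀ ω ω', J ω ω' ≠ 0 → (∀ e, M.env ω' e ≤ M.env ω e) ∧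
        ∀ e, e ∉ C → nm e.1 ≤ h ^ (p + 100) → M.env ω' e = M.env ω e) ∧
      (∀ (ω : M.Ω) (H : Finset (Edge d)), H ⊆ C → (∀ e ∈ H, Q.th ≤ M.env ω e) →
        ∑ ω' ∈ univ.filter (fun ω' => ∑ e ∈ H, (M.env ω e - M.env ω' e)
          < (Q.th - Q.tl) * (δ * H.card / 4)), J ω ω' ≤ Real.exp (-(δ * H.card / 16))) ∧
      (∀ k : ℕ, k * δ ≤ Q.pl → Ex (fun ω' => if 2 < ∑ ω, J ω ω' then ∑ ω, J ω ω' else 0)
        ≤ 2 * (1 / 2) ^ k * Real.exp (Q.K * k ^ 2 * δ ^ 2 * C.card))

/-- There are good models at all large scales, for every range. -/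
def HasN (Q : Qn) (m : V d → ℝ) : Prop :=
  ∀ p : ℕ, ∀ᶠ h : ℝ in atTop, ∃ (a : ℝ) (M : Mdl d a h), GoodN Q m p M

/-- The relation between the time constant `μ` and the medians `m`. -/
structure MuM (μ : (Fin d → ℝ) → ℝ) (m : V d → ℝ) : Prop where
  hom : ∀ (t : ℝ) (x : Fin d → ℝ), 0 ≤ t → μ (t • x) = t * μ x
  cont : Continuous μ
  lim : ∀ z : V d, Tendsto (fun k : ℕ => m (k • z) / (k : ℝ)) atTop (𝓝 (μ (toR z)))

/-- A supporting functional `f` of `{μ ≤ 1}` at `v` with cheap balls. -/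
structure Cheap (μ : (Fin d → ℝ) → ℝ) (v f : Fin d → ℝ) : Prop where
  low : ∀ x, dp f x ≤ μ x
  one : dp f v = 1
  ball : ∀ ε : ℝ, 0 < ε → ∃ e : Fin d → ℝ, ∀ u, rn u ≤ 1 → μ (e + u) ≤ dp f (e + u) + ε

/-- The data of a vertex: the point `v`, a functional `g` with `g v = 1`, finitely many functionals `f i`. -/
structure Vtx (d : ℕ) where
  v : Fin d → ℝ
  g : Fin d → ℝ
  N : ℕ
  f : Fin N → Fin d → ℝ
  c : ℝ

/-- `v` is a vertex of `{μ ≤ 1}` with the data `X`. -/
structure IsVtx (X : Vtx d) (μ : (Fin d → ℝ) → ℝ) : Prop where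
  cpos : 0 < X.c
  gv : dp X.g X.v = 1
  mv : μ X.v ≤ 1
  cheap : ∀ i, Cheap μ X.v (X.f i)
  spread : ∀ x, ∃ i, dp X.g x + X.c * rn (x - dp X.g x • X.v) ≤ dp (X.f i) x

namespace Vtx

variable (X : Vtx d)

/-- The coordinate in the direction `v`. -/
noncomputable def gg (x : V d) : ℝ := dp X.g (toR x)

/-- The size of the lateral part. -/
noncomputable def lat (x : V d) : ℝ := rn (toR x - X.gg x • X.v)

/-- The functionals of the half spaces. -/
noncomputable def ff (i : Fin X.N) (x : V d) : ℝ := dp (X.f i) (toR x)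

/-- The lattice point near `α v`. -/
noncomputable def rd (α : ℝ) : V d := rnd (α • X.v)

/-- A constant. -/
noncomputable def C : ℝ :=
  4 * (1 + d) * (1 + rn X.g + ∑ i, rn (X.f i)) * (1 + rn X.v) * (1 + 1 / X.c)

/-- The half space at `x`. -/
def hp (i : Fin X.N) (x : V d) : Set (V d) := {z | X.ff i x ≤ X.ff i z}

/-- The tube (lane) from `x`, of length `r`, radius `W`, margin `B`. -/
def lane (x : V d) (r W B : ℝ) : Set (Edge d) :=
  edg {z | X.lat (z - x) ≤ W ∧ -B ≤ X.gg (z - x) ∧ X.gg (z - x) ≤ r + B}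

/-- The half space region in a box. -/
def Rg (i : Fin X.N) (H : ℝ) : Set (Edge d) := edg {z | 0 ≤ X.ff i z ∧ nm z ≤ H}

/-- The edges of the region with an end point of level `< N`. -/
def SN (i : Fin X.N) (H N : ℝ) : Set (Edge d) :=
  {e | e ∈ X.Rg i H ∧ (X.ff i e.1 < N ∨ X.ff i (e.1 + dir e.2) < N)}

/-- The level set. -/
def Lv (i : Fin X.N) (H N : ℝ) : Set (V d) := {p | N ≤ X.ff i p ∧ X.ff i p ≤ N + X.C ∧ nm p ≤ H}

/-- The first passage cost from `0` to the level `N` in the half space region. -/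
noncomputable def UN (i : Fin X.N) (H h N : ℝ) (τ : Env d) : ℝ :=
  ⨅ p : X.Lv i H N, T (res h (X.SN i H N) τ) 0 p

/-- Windows. -/
def Dw (x₀ : V d) (R : ℝ) : Set (V d) := {x | |X.gg (x - x₀)| ≤ 4 * X.C ∧ X.lat (x - x₀) ≤ R}

end Vtx

/-- The running maximum of the excess of the medians in the direction `v`. -/
noncomputable def bb (X : Vtx d) (m : V d → ℝ) (n : ℕ) : ℝ :=
  (Finset.range (n + 1)).sup' ⟨0, by simp⟩ fun l => max 1 (m (X.rd l) - l)

/-- The error at distance `r`. -/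
noncomputable def er (h r : ℝ) : ℝ := h ^ 7 * √r + h ^ 12

/-- The lower bound for the passage times at scale `h` in the range `h ^ p` (overwhelming event). -/
def LT (μ : (Fin d → ℝ) → ℝ) (p : ℕ) (h : ℝ) (τ : Env d) : Prop :=
  ∀ x z : V d, nm x ≤ h ^ p → nm z ≤ h ^ p → μ (toR (z - x)) ≤ T τ x z + er h (nm (z - x))

/-- The error for walks of cost at most `s`. -/
noncomputable def ce (X : Vtx d) (h s : ℝ) : ℝ := er h (4 * X.C * (s + h ^ 16))

/-- A tube around a segment in an arbitrary direction. -/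
def seg (x : V d) (e : Fin d → ℝ) (k W : ℝ) : Set (Edge d) :=
  edg {z | ∃ t, 0 ≤ t ∧ t ≤ k ∧ rn (toR (z - x) - t • e) ≤ W}

end Pool.Agent.W_1b8d5d_nd

end

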