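import Pool.Agent.W_1b8d5d_nd.MainA
import Pool.Agent.W_1b8d5d_nd.Mod

/-!
MP_1b8d5d_pr, [ND]: sections 4 to 7: lanes, upper tail, luck, width, thin lower tail. One file, so that the proofs are elaborated in parallel;
one section for each of the former files.
-/

/-! ### GTilt1 -/

section

/-!
MP_1b8d5d_pr, [ND], section 5 (tilt): transfer by the tilt kernel, the number of edges of a lane.
-/

set_option autoImplicit false

namespace Pool.Agent.W_1b8d5d_nd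

open Finset Filter Topology
open Pool.Agent.W_1b8d5d_h85 (Ex Pr Vr avg)

variable {d : ℕ} [NeZero d] {X : Vtx d} {μ : (Fin d → ℝ) → ℝ} {Q : Qn} {m : V d → ℝ}

/-- Transfer by the tilt kernel. PROOF. As `tilt_transfer` of `W_1b8d5d_c1/Grow1.lean` (nearly verbatim). With the kernel `J`
of the field `tilt`: for `ω` in `E`, `∑ ω', 1_A(ω') J ω ω' ≥ 1 - exp (-(δ * Hs.card / 16)) ≥ 1 - exp (-(δ * k / 16))`
(off the low sum event the sum over `Hs ω` is at least `(th - tl) * (δ * k / 4)`, and `J ω ω' ≠ 0` implies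
`env ω' ≤ env ω`); average over `ω`, exchange the sums, `∑ ω, J ω ω' ≤ 2 + (∑ ω, J ω ω') 1_{2 < ∑ ω, J ω ω'}`. -/
theorem tilt_transfer {p : ℕ} {a h : ℝ} {M : Mdl d a h} (hM : GoodN Q m p M) (C : Finset (Edge d)) (δ : ℝ)
    (hC : ∀ e ∈ C, nm e.1 ≤ h ^ (p + 100)) (hδ : 0 ≤ δ) (hδ' : δ ≤ 1 / 2) (k : ℕ) (hk : k * δ ≤ Q.pl)
    (E A : M.Ω → Prop) (Hs : M.Ω → Finset (Edge d)) (n₀ : ℝ)
    (h1 : ∀ ω, E ω → Hs ω ⊆ C ∧ (∀ e ∈ Hs ω, Q.th ≤ M.env ω e) ∧ n₀ ≤ ((Hs ω).card : ℝ))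
    (h2 : ∀ ω ω', E ω → (∀ e, M.env ω' e ≤ M.env ω e) →
      (Q.th - Q.tl) * (δ * n₀ / 4) ≤ ∑ e ∈ Hs ω, (M.env ω e - M.env ω' e) → A ω') :
    Pr E ≤ 2 * Pr A + 2 * (1 / 2) ^ k * Real.exp (Q.K * k ^ 2 * δ ^ 2 * C.card) + Real.exp (-(δ * n₀ / 16)) := by
  classical
  obtain ⟨J, hJ0, hJ1, hJs, hJl, hJd⟩ := hM.tilt C δ hC hδ hδ'
  have hK : 0 < Q.th - Q.tl := by linarith [Q.hlt]
  -- one row
  have hrow : ∀ ω, (if E ω then (1 : ℝ) else 0) ≤
      Real.exp (-(δ * n₀ / 16)) + ∑ ω', (if A ω' then (1 : ℝ) else 0) * J ω ω' := by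
    intro ω
    have hnn : ∀ ω', 0 ≤ (if A ω' then (1 : ℝ) else 0) * J ω ω' := fun ω' =>
      mul_nonneg (by split_ifs <;> norm_num) (hJ0 ω ω')
    by_cases hE : E ω
    · rw [if_pos hE]
      obtain ⟨a1, a2, a3⟩ := h1 ω hE
      have hlow := hJl ω (Hs ω) a1 a2
      set T := univ.filter (fun ω' => ∑ e ∈ Hs ω, (M.env ω e - M.env ω' e)
          < (Q.th - Q.tl) * (δ * (Hs ω).card / 4)) with hT
      have hexp : Real.exp (-(δ * (Hs ω).card / 16)) ≤ Real.exp (-(δ * n₀ / 16)) := by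
        refine Real.exp_le_exp.2 ?_
        have := mul_le_mul_of_nonneg_left a3 hδ
        linarith
      have hsplit : ∑ ω', J ω ω' = ∑ ω' ∈ T, J ω ω' + ∑ ω' ∈ univ.filter (fun ω' => ω' ∉ T), J ω ω' := by
        rw [← Finset.sum_filter_add_sum_filter_not univ (fun ω' => ω' ∈ T) (fun ω' => J ω ω'),
          Finset.filter_univ_mem]
      have hrest : ∑ ω' ∈ univ.filter (fun ω' => ω' ∉ T), J ω ω' ≤
          ∑ ω', (if A ω' then (1 : ℝ) else 0) * J ω ω' := by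
        calc ∑ ω' ∈ univ.filter (fun ω' => ω' ∉ T), J ω ω' ≤
            ∑ ω' ∈ univ.filter (fun ω' => ω' ∉ T), (if A ω' then (1 : ℝ) else 0) * J ω ω' := by
              refine Finset.sum_le_sum fun ω' hω' => ?_
              by_cases hz : J ω ω' = 0
              · rw [hz, mul_zero]
              · have hA : A ω' := by
                  refine h2 ω ω' hE (hJs ω ω' hz).1 ?_
                  have hω2 := (Finset.mem_filter.1 hω').2
                  rw [hT, Finset.mem_filter] at hω2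
                  have hω3 : (Q.th - Q.tl) * (δ * (Hs ω).card / 4) ≤
                      ∑ e ∈ Hs ω, (M.env ω e - M.env ω' e) := by
                    by_contra hcon
                    exact hω2 ⟨Finset.mem_univ _, not_le.1 hcon⟩
                  refine le_trans ?_ hω3
                  refine mul_le_mul_of_nonneg_left ?_ hK.le
                  have := mul_le_mul_of_nonneg_left a3 hδ
                  linarith
                rw [if_pos hA, one_mul]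
          _ ≤ ∑ ω', (if A ω' then (1 : ℝ) else 0) * J ω ω' :=
            Finset.sum_le_univ_sum_of_nonneg hnn
      have := hJ1 ω
      linarith
    · rw [if_neg hE]
      exact add_nonneg (Real.exp_pos _).le (Finset.sum_nonneg fun ω' _ => hnn ω')
  have hstep : Pr E ≤ Real.exp (-(δ * n₀ / 16)) +
      Ex (fun ω' => (if A ω' then (1 : ℝ) else 0) * ∑ ω, J ω ω') := by
    have e1 : Pr E = Ex (fun ω => if E ω then (1 : ℝ) else 0) := Pool.Agent.W_1b8d5d_h85.Pr_def E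
    rw [e1]
    refine (Pool.Agent.W_1b8d5d_h85.Ex_mono hrow).trans ?_
    rw [Pool.Agent.W_1b8d5d_h85.Ex_add (fun _ => Real.exp (-(δ * n₀ / 16))), Pool.Agent.W_1b8d5d_h85.Ex_const]
    have e2 : Ex (fun ω => ∑ ω', (if A ω' then (1 : ℝ) else 0) * J ω ω') =
        Ex (fun ω' => (if A ω' then (1 : ℝ) else 0) * ∑ ω, J ω ω') := by
      unfold Ex
      rw [Finset.sum_comm]
      simp only [Finset.mul_sum]
    rw [e2]
  have hdens := hJd k hk
  have hlast : Ex (fun ω' => (if A ω' then (1 : ℝ) else 0) * ∑ ω, J ω ω') ≤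
      2 * Pr A + Ex (fun ω' => if 2 < ∑ ω, J ω ω' then ∑ ω, J ω ω' else 0) := by
    have e1 : Pr A = Ex (fun ω => if A ω then (1 : ℝ) else 0) := Pool.Agent.W_1b8d5d_h85.Pr_def A
    rw [e1, ← Pool.Agent.W_1b8d5d_h85.Ex_mul_left, ← Pool.Agent.W_1b8d5d_h85.Ex_add]
    refine Pool.Agent.W_1b8d5d_h85.Ex_mono fun ω' => ?_
    have e2 : 0 ≤ ∑ ω, J ω ω' := Finset.sum_nonneg fun ω _ => hJ0 ω ω'
    by_cases hA : A ω'
    · rw [if_pos hA, one_mul, mul_one]
      split_ifs with h3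
      · linarith
      · linarith
    · rw [if_neg hA, zero_mul, mul_zero, zero_add]
      split_ifs
      · exact e2
      · exact le_refl _
  linarith

/-- The box of radius `ρ` (all coordinates) around a vertex. -/
theorem box_card (x : V d) (ρ : ℝ) (hρ : 0 ≤ ρ) :
    ∃ S : Finset (V d), (∀ z, nm (z - x) ≤ ρ → z ∈ S) ∧ (S.card : ℝ) ≤ (2 * ρ + 1) ^ d := by
  classical
  have hρ0 : 0 ≤ ⌊ρ⌋ := Int.floor_nonneg.2 hρ
  refine ⟨Fintype.piFinset fun i => Finset.Icc (x i - ⌊ρ⌋) (x i + ⌊ρ⌋), ?_, ?_⟩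
  · intro z hz
    rw [Fintype.mem_piFinset]
    intro i
    have h1 := abs_le_nm (z - x) i
    have h2 : |((z i - x i : ℤ) : ℝ)| ≤ ρ := h1.trans hz
    have h3 : |z i - x i| ≤ ⌊ρ⌋ := by
      rw [Int.le_floor]
      push_cast at h2 ⊢
      exact h2
    rw [abs_le] at h3
    rw [Finset.mem_Icc]
    constructor <;> linarith [h3.1, h3.2]
  · rw [Fintype.card_piFinset]
    have h1 : ∀ i : Fin d, ((Finset.Icc (x i - ⌊ρ⌋) (x i + ⌊ρ⌋)).card : ℝ) ≤ 2 * ρ + 1 := by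
      intro i
      rw [Int.card_Icc]
      have h2 : ((x i + ⌊ρ⌋ + 1 - (x i - ⌊ρ⌋)).toNat : ℤ) = 2 * ⌊ρ⌋ + 1 := by
        rw [Int.toNat_of_nonneg (by linarith)]
        ring
      have h3 : ((x i + ⌊ρ⌋ + 1 - (x i - ⌊ρ⌋)).toNat : ℝ) = 2 * (⌊ρ⌋ : ℝ) + 1 := by exact_mod_cast h2
      rw [h3]
      linarith [Int.floor_le ρ]
    rw [Nat.cast_prod]
    refine (Finset.prod_le_prod (fun i _ => Nat.cast_nonneg _) fun i _ => h1 i).trans ?_
    rw [Finset.prod_const, Finset.card_univ, Fintype.card_fin]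

/-- The edges of a lane. PROOF. If `z` is in the lane at `0` then with `t = ⌊gg z⌋`, `-B - 1 ≤ t ≤ r + B`,
`nm (z - rd t) ≤ rn (toR z - gg z • v) + rn ((gg z - t) • v) + rn (t • v - toR (rd t)) ≤ W + rn v + d ≤ W + C`. So the first
vertex of an edge of the lane is in the union of the boxes of radius `W + C` around `rd t` (`box_card`), at most
`r + 2 B + 3` values of `t`; times `d` directions. -/
theorem lane_card (hX : IsVtx X μ) (r W B : ℝ) (hr : 0 ≤ r) (hW : 0 ≤ W) (hB : 0 ≤ B) :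
    ∃ S : Finset (Edge d), (∀ e, e ∈ S ↔ e ∈ X.lane 0 r W B) ∧
      (S.card : ℝ) ≤ d * ((r + 2 * B + 3) * (2 * (W + X.C) + 1) ^ d) := by
  classical
  have hcp := hX.cpos
  have hC : rn X.v + d ≤ X.C := by
    unfold Vtx.C
    have h1 : 0 ≤ rn X.g := rn_nonneg _
    have h2 : 0 ≤ ∑ i, rn (X.f i) := Finset.sum_nonneg fun i _ => rn_nonneg _
    have h3 : 0 ≤ rn X.v := rn_nonneg _
    have h4 : 0 ≤ 1 / X.c := by positivity
    have h5 : (0 : ℝ) ≤ d := Nat.cast_nonneg d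
    have h6 : 1 ≤ 1 + rn X.g + ∑ i, rn (X.f i) := by linarith
    have h7 : 1 ≤ 1 + 1 / X.c := by linarith
    have h8 : rn X.v + d ≤ (1 + d) * (1 + rn X.v) := by nlinarith
    have h9 : 0 ≤ (1 + (d : ℝ)) * (1 + rn X.v) := by positivity
    calc rn X.v + d ≤ (1 + d) * (1 + rn X.v) := h8
      _ ≤ 4 * ((1 + d) * (1 + rn X.v)) := by linarith
      _ = 4 * (1 + d) * 1 * (1 + rn X.v) * 1 := by ring
      _ ≤ 4 * (1 + d) * (1 + rn X.g + ∑ i, rn (X.f i)) * (1 + rn X.v) * (1 + 1 / X.c) := by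
        gcongr
  have hCp : 0 ≤ X.C := by
    have h3 : 0 ≤ rn X.v := rn_nonneg _
    have h5 : (0 : ℝ) ≤ d := Nat.cast_nonneg d
    linarith
  have hρ : 0 ≤ W + X.C := by linarith
  choose bx hbx1 hbx2 using fun t : ℤ => box_card (X.rd (t : ℝ)) (W + X.C) hρ
  obtain ⟨Z, hZ⟩ : ∃ Z : Finset (V d), Z = (Finset.Icc ⌊-B⌋ ⌊r + B⌋).biUnion bx := ⟨_, rfl⟩
  have hmem : ∀ z : V d, X.lat (z - 0) ≤ W → -B ≤ X.gg (z - 0) → X.gg (z - 0) ≤ r + B → z ∈ Z := by
    intro z h1 h2 h3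
    rw [sub_zero] at h1 h2 h3
    rw [hZ, Finset.mem_biUnion]
    refine ⟨⌊X.gg z⌋, ?_, ?_⟩
    · rw [Finset.mem_Icc]
      exact ⟨Int.floor_le_floor h2, Int.floor_le_floor h3⟩
    · apply hbx1
      obtain ⟨t, ht⟩ : ∃ t : ℝ, t = ((⌊X.gg z⌋ : ℤ) : ℝ) := ⟨_, rfl⟩
      rw [← ht]
      rw [nm_eq_rn, toR_sub]
      have e1 : toR z - toR (X.rd t) = (toR z - X.gg z • X.v) + ((X.gg z - t) • X.v + (t • X.v - toR (X.rd t))) := by
        rw [sub_smul]
        abel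
      rw [e1]
      refine (rn_add_le _ _).trans ?_
      have e2 : rn (toR z - X.gg z • X.v) ≤ W := h1
      have e3 := rn_add_le ((X.gg z - t) • X.v) (t • X.v - toR (X.rd t))
      have e4 : rn ((X.gg z - t) • X.v) ≤ rn X.v := by
        rw [rn_smul]
        have h4 : |X.gg z - t| ≤ 1 := by
          rw [ht, abs_le]
          constructor
          · linarith [Int.floor_le (X.gg z)]
          · linarith [Int.lt_floor_add_one (X.gg z)]
        calc |X.gg z - t| * rn X.v ≤ 1 * rn X.v := mul_le_mul_of_nonneg_right h4 (rn_nonneg _)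
          _ = rn X.v := one_mul _
      have e5 : rn (t • X.v - toR (X.rd t)) ≤ d := by
        rw [rn_sub_comm]
        exact rnd_near _
      linarith
  refine ⟨(Z ×ˢ (Finset.univ : Finset (Fin d))).filter fun e => e ∈ X.lane 0 r W B, ?_, ?_⟩
  · intro e
    rw [Finset.mem_filter]
    refine ⟨fun h => h.2, fun h => ⟨?_, h⟩⟩
    rw [Finset.mem_product]
    obtain ⟨h1, h2, h3⟩ := h.1
    exact ⟨hmem e.1 h1 h2 h3, Finset.mem_univ _⟩
  · have c1 : ((Z ×ˢ (Finset.univ : Finset (Fin d))).filter fun e => e ∈ X.lane 0 r W B).card ≤ Z.card * d := by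
      refine (Finset.card_filter_le _ _).trans ?_
      rw [Finset.card_product, Finset.card_univ, Fintype.card_fin]
    have c2 : (Z.card : ℝ) ≤ (r + 2 * B + 3) * (2 * (W + X.C) + 1) ^ d := by
      have h1 : Z.card ≤ ∑ t ∈ Finset.Icc ⌊-B⌋ ⌊r + B⌋, (bx t).card := by
        rw [hZ]
        exact Finset.card_biUnion_le
      have h2 : (Z.card : ℝ) ≤ ∑ t ∈ Finset.Icc ⌊-B⌋ ⌊r + B⌋, ((bx t).card : ℝ) := by exact_mod_cast h1
      refine h2.trans ((Finset.sum_le_sum fun t _ => hbx2 t).trans ?_)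
      rw [Finset.sum_const, nsmul_eq_mul]
      refine mul_le_mul_of_nonneg_right ?_ (by positivity)
      rw [Int.card_Icc]
      have h3 : 0 ≤ ⌊r + B⌋ + 1 - ⌊-B⌋ := by
        have h4 : ⌊-B⌋ ≤ ⌊r + B⌋ := Int.floor_le_floor (by linarith)
        linarith
      have h5 : ((⌊r + B⌋ + 1 - ⌊-B⌋).toNat : ℤ) = ⌊r + B⌋ + 1 - ⌊-B⌋ := Int.toNat_of_nonneg h3
      have h6 : ((⌊r + B⌋ + 1 - ⌊-B⌋).toNat : ℝ) = (⌊r + B⌋ : ℝ) + 1 - ⌊-B⌋ := by exact_mod_cast h5
      rw [h6]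
      linarith [Int.floor_le (r + B), Int.lt_floor_add_one (-B)]
    have c3 : (((Z ×ˢ (Finset.univ : Finset (Fin d))).filter fun e => e ∈ X.lane 0 r W B).card : ℝ) ≤ Z.card * d := by
      exact_mod_cast c1
    refine c3.trans ?_
    rw [mul_comm]
    exact mul_le_mul_of_nonneg_left c2 (Nat.cast_nonneg d)

/-- The high edges of a path. -/
theorem nHigh_card (th : ℝ) (τ : Env d) {x y : V d} {w : (grid d).Walk x y} (hw : w.IsPath) :
    nHigh th τ w = ((wedges w).toFinset.filter fun e => th ≤ τ e).card := by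
  have hnd := wedges_nodup hw
  unfold nHigh
  rw [← List.toFinset_card_of_nodup (hnd.filter _)]
  congr 1
  ext e
  simp [List.mem_filter]

/-- A path becomes cheaper. (As `Tilt3_lower` of `W_1b8d5d_h85/Tilt3.lean`.) -/
theorem T_drop {a b : ℝ} (ha : 0 < a) {τ τ' : Env d} (hτ' : Bd a b τ') {x y : V d} {w : (grid d).Walk x y}
    (hw : w.IsPath) (hle : ∀ e, τ' e ≤ τ e) (H : Finset (Edge d)) (hH : H ⊆ (wedges w).toFinset) :
    T τ' x y ≤ cost τ w - ∑ e ∈ H, (τ e - τ' e) := by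
  have h1 : T τ' x y ≤ cost τ' w := T_le_cost hτ' ha.le w
  have h3 : cost τ w - cost τ' w = ∑ e ∈ (wedges w).toFinset, (τ e - τ' e) := by
    rw [cost_path τ hw, cost_path τ' hw, ← sum_sub_distrib]
  have h4 : ∑ e ∈ H, (τ e - τ' e) ≤ ∑ e ∈ (wedges w).toFinset, (τ e - τ' e) :=
    sum_le_sum_of_subset_of_nonneg hH fun e _ _ => sub_nonneg.2 (hle e)
  linarith

end Pool.Agent.W_1b8d5d_nd

end

/-! ### LaneG -/

section

/-!
MP_1b8d5d_pr, [ND], section 4: geometry of the lanes and of the cheap directions.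
-/

set_option autoImplicit false

namespace Pool.Agent.W_1b8d5d_nd

open Finset Filter Topology
open Pool.Agent.W_1b8d5d_h85 (Ex Pr Vr avg)

variable {d : ℕ} [NeZero d] {X : Vtx d} {μ : (Fin d → ℝ) → ℝ}

private theorem LaneG_dp_single (g : Fin d → ℝ) (i : Fin d) : dp g (Pi.single i 1) = g i := by
  simp [dp, Pi.single_apply]

private theorem LaneG_rn_single (i : Fin d) : rn (Pi.single i 1 : Fin d → ℝ) = 1 := by
  unfold rn
  rw [Finset.sum_eq_single i]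
  · simp
  · intro j _ hj
    simp [Pi.single_apply, hj]
  · simp

private theorem LaneG_four (hX : IsVtx X μ) : 4 * ((1 + (d : ℝ)) * VtxL_B X * (1 + rn X.v)) ≤ X.C := by
  obtain ⟨hA, hB, hV, hK, hC⟩ := VtxL_facts hX
  rw [hC]
  have h2 : 0 ≤ (1 + (d : ℝ)) * VtxL_B X * (1 + rn X.v) := by positivity
  have h3 := le_mul_of_one_le_right h2 hK
  linarith

/-- The lateral part is bounded by the norm. -/
private theorem LaneG_lat (X : Vtx d) (x : Fin d → ℝ) : rn (x - dp X.g x • X.v) ≤ (1 + rn X.g * rn X.v) * rn x := by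
  have h1 : rn (x - dp X.g x • X.v) ≤ rn x + |dp X.g x| * rn X.v := by
    rw [← rn_smul]
    exact rn_sub_le _ _
  have h2 := mul_le_mul_of_nonneg_right (abs_dp_le X.g x) (rn_nonneg X.v)
  nlinarith

private theorem LaneG_gv (hX : IsVtx X μ) : 1 + rn X.g * rn X.v ≤ VtxL_B X * (1 + rn X.v) := by
  have h1 := VtxL_rn_g X
  have h2 := rn_nonneg X.v
  have h3 := rn_nonneg X.g
  have h4 : (1 + rn X.g) * (1 + rn X.v) ≤ VtxL_B X * (1 + rn X.v) := mul_le_mul_of_nonneg_right h1 (by linarith)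
  nlinarith

/-- In dimension `≥ 2` every functional has a vector of norm one in its kernel. PROOF. Two indices `i ≠ j`; if `g i = g j = 0`
take `Pi.single i 1`, otherwise `(g j • e_i - g i • e_j) / (|g i| + |g j|)`. -/
theorem exists_ker (hd : 2 ≤ d) (g : Fin d → ℝ) : ∃ z : Fin d → ℝ, dp g z = 0 ∧ rn z = 1 := by
  have hij : (⟨0, by omega⟩ : Fin d) ≠ ⟨1, by omega⟩ := by
    intro h
    have := congrArg Fin.val h
    simp at this
  generalize (⟨0, by omega⟩ : Fin d) = i at hij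
  generalize (⟨1, by omega⟩ : Fin d) = j at hij
  by_cases hi : g i = 0
  · exact ⟨Pi.single i 1, by rw [LaneG_dp_single, hi], LaneG_rn_single i⟩
  · have hw : g j • (Pi.single i 1 : Fin d → ℝ) - g i • (Pi.single j 1 : Fin d → ℝ) ≠ 0 := by
      intro h
      have h1 := congrFun h j
      rw [Pi.sub_apply, Pi.smul_apply, Pi.smul_apply, Pi.single_eq_same, Pi.single_eq_of_ne hij.symm] at h1
      simp only [smul_eq_mul, mul_zero, mul_one, zero_sub, Pi.zero_apply, neg_eq_zero] at h1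
      exact hi h1
    have hdp : dp g (g j • (Pi.single i 1 : Fin d → ℝ) - g i • (Pi.single j 1 : Fin d → ℝ)) = 0 := by
      rw [dp_sub, dp_smul, dp_smul, LaneG_dp_single, LaneG_dp_single]
      ring
    generalize g j • (Pi.single i 1 : Fin d → ℝ) - g i • (Pi.single j 1 : Fin d → ℝ) = w at hw hdp
    have hr : rn w ≠ 0 := fun h => hw (rn_eq_zero.1 h)
    refine ⟨(rn w)⁻¹ • w, ?_, ?_⟩
    · rw [dp_smul, hdp, mul_zero]
    · rw [rn_smul, abs_of_nonneg (inv_nonneg.2 (rn_nonneg w)), inv_mul_cancel₀ hr]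

/-- The centre `e` of a cheap ball of `f i` is far from the axis; `f i e` is comparable to `rn e`. PROOF. Write
`y x = x - g x • v`. Suppose `rn (y e) < 1/2`; let `z` be half the vector of `exists_ker`. For `σ = 1, -1` the vector
`u = σ z - y e` has `rn u ≤ 1` and `e + u = g e • v + σ z`, so by `spread` (some `j`), `low`, `he` and `one`:
`g e + c / 2 ≤ dp (f j) (e + u) ≤ μ (e + u) ≤ g e + σ * f i z + ε`. Sum over `σ`: `c ≤ 2 ε`; but `1 / c ≤ C` (`inv_c_le_C`)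
and `2 ε ≤ 1 / (2 C ^ 2) < 1 / C ≤ c`, contradiction. Next `1/2 ≤ rn (y e) ≤ (1 + rn g * rn v) * rn e ≤ C * rn e`. Finally
(`u = 0`) `f i e ≥ μ e - ε ≥ rn e / C - ε` (`rn_le_mu`) and `ε ≤ 1 / (4 C ^ 2) ≤ rn e / (2 C)`. -/
theorem cheap_center (hd : 2 ≤ d) (hs : ∀ x, μ (-x) = μ x) (hX : IsVtx X μ) (i : Fin X.N) {ε : ℝ}
    (hε : ε ≤ 1 / (4 * X.C ^ 2)) {e : Fin d → ℝ}
    (he : ∀ u : Fin d → ℝ, rn u ≤ 1 → μ (e + u) ≤ dp (X.f i) (e + u) + ε) :
    1 / 2 ≤ rn (e - dp X.g e • X.v) ∧ 1 / (2 * X.C) ≤ rn e ∧ rn e ≤ 2 * X.C * dp (X.f i) e := by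
  have hC := one_le_C hX
  have hc := hX.cpos
  have hC0 : 0 < X.C := by linarith
  have hA : 1 / 2 ≤ rn (e - dp X.g e • X.v) := by
    by_contra hlt
    push Not at hlt
    obtain ⟨z₀, hz1, hz2⟩ := exists_ker hd X.g
    have key : ∀ σ : ℝ, |σ| = 1 → dp X.g e + X.c / 2 ≤ dp X.g e + σ * (dp (X.f i) z₀ / 2) + ε := by
      intro σ hσ
      have hu : rn (σ • ((1 / 2 : ℝ) • z₀) - (e - dp X.g e • X.v)) ≤ 1 := by
        refine (rn_sub_le _ _).trans ?_
        rw [rn_smul, rn_smul, hz2, hσ, abs_of_pos (by norm_num : (0 : ℝ) < 1 / 2)]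
        linarith
      have heu : e + (σ • ((1 / 2 : ℝ) • z₀) - (e - dp X.g e • X.v)) = dp X.g e • X.v + σ • ((1 / 2 : ℝ) • z₀) := by
        abel
      have h1 := he _ hu
      rw [heu] at h1
      obtain ⟨j, hj⟩ := hX.spread (dp X.g e • X.v + σ • ((1 / 2 : ℝ) • z₀))
      have h2 := (hX.cheap j).low (dp X.g e • X.v + σ • ((1 / 2 : ℝ) • z₀))
      have h3 : dp X.g (dp X.g e • X.v + σ • ((1 / 2 : ℝ) • z₀)) = dp X.g e := by
        rw [dp_add, dp_smul, dp_smul, dp_smul, hz1, hX.gv]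
        ring
      rw [h3] at hj
      have h4 : rn (dp X.g e • X.v + σ • ((1 / 2 : ℝ) • z₀) - dp X.g e • X.v) = 1 / 2 := by
        rw [add_sub_cancel_left, rn_smul, rn_smul, hz2, hσ, abs_of_pos (by norm_num : (0 : ℝ) < 1 / 2)]
        norm_num
      rw [h4] at hj
      have h5 : dp (X.f i) (dp X.g e • X.v + σ • ((1 / 2 : ℝ) • z₀)) = dp X.g e + σ * (dp (X.f i) z₀ / 2) := by
        rw [dp_add, dp_smul, dp_smul, dp_smul, (hX.cheap i).one]
        ring
      rw [h5] at h1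
      linarith
    have k1 := key 1 (by simp)
    have k2 := key (-1) (by simp)
    have k3 : X.c ≤ 2 * ε := by linarith
    have k4 := inv_c_le_C hX
    rw [div_le_iff₀ hc] at k4
    have k5 : 2 * ε ≤ 1 / (2 * X.C ^ 2) := by
      have : 2 * (1 / (4 * X.C ^ 2)) = 1 / (2 * X.C ^ 2) := by
        field_simp
        norm_num
      linarith
    have k6 : X.C * X.c ≤ X.C * (1 / (2 * X.C ^ 2)) := mul_le_mul_of_nonneg_left (k3.trans k5) hC0.le
    have k7 : X.C * (1 / (2 * X.C ^ 2)) = 1 / (2 * X.C) := by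
      field_simp
    have k8 : 1 / (2 * X.C) < 1 := by
      rw [div_lt_one (by linarith)]
      linarith
    linarith
  have hB : 1 / (2 * X.C) ≤ rn e := by
    have h1 := LaneG_lat X e
    have h2 := (LaneG_gv hX).trans (VtxL_BV hX)
    have h3 := mul_le_mul_of_nonneg_right h2 (rn_nonneg e)
    rw [div_le_iff₀ (by linarith)]
    linarith
  refine ⟨hA, hB, ?_⟩
  have h0 := he 0 (by rw [rn_zero]; norm_num)
  rw [add_zero] at h0
  have h1 := rn_le_mu hs hX e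
  have h2 : X.C * μ e ≤ X.C * (dp (X.f i) e + 1 / (4 * X.C ^ 2)) :=
    mul_le_mul_of_nonneg_left (by linarith) hC0.le
  have h3 : X.C * (1 / (4 * X.C ^ 2)) = 1 / (2 * X.C) / 2 := by
    field_simp
    norm_num
  rw [mul_add, h3] at h2
  linarith

/-- The base points of the lanes. -/
noncomputable def bp (e : Fin d → ℝ) (R : ℝ) : V d := rnd (R • e)

theorem bp_near (e : Fin d → ℝ) (R : ℝ) : rn (toR (bp e R) - R • e) ≤ d := by
  exact rnd_near _

/-- The base points are separated (lateral size). PROOF. `toR (bp e R - bp e R') = (R - R') • e + r`, `rn r ≤ 2 d`; the map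
`x ↦ x - g x • v` is linear, `rn (x - g x • v) ≤ (1 + rn g * rn v) * rn x`; `(1 + rn g * rn v) * 2 d ≤ C`. -/
theorem bp_sep (hX : IsVtx X μ) {e : Fin d → ℝ} (he : 1 / 2 ≤ rn (e - dp X.g e • X.v)) (R R' : ℝ) :
    |R - R'| / 2 - X.C ≤ X.lat (bp e R - bp e R') := by
  have h1 : toR (bp e R - bp e R') = (R - R') • e + ((toR (bp e R) - R • e) - (toR (bp e R') - R' • e)) := by
    rw [toR_sub, sub_smul]
    abel
  have h2 : rn ((toR (bp e R) - R • e) - (toR (bp e R') - R' • e)) ≤ 2 * d := by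
    have := rn_sub_le (toR (bp e R) - R • e) (toR (bp e R') - R' • e)
    have h3 := bp_near e R
    have h4 := bp_near e R'
    linarith
  generalize (toR (bp e R) - R • e) - (toR (bp e R') - R' • e) = r at h1 h2
  have h3 : toR (bp e R - bp e R') - X.gg (bp e R - bp e R') • X.v =
      (R - R') • (e - dp X.g e • X.v) + (r - dp X.g r • X.v) := by
    rw [Vtx.gg, h1, dp_add, dp_smul, smul_sub, add_smul, smul_smul]
    abel
  have h4 : |R - R'| * rn (e - dp X.g e • X.v) ≤ X.lat (bp e R - bp e R') + rn (r - dp X.g r • X.v) := by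
    rw [Vtx.lat, h3, ← rn_smul]
    calc rn ((R - R') • (e - dp X.g e • X.v))
        = rn (((R - R') • (e - dp X.g e • X.v) + (r - dp X.g r • X.v)) - (r - dp X.g r • X.v)) := by
          rw [add_sub_cancel_right]
      _ ≤ _ := rn_sub_le _ _
  have h5 := LaneG_lat X r
  have h6 := LaneG_gv hX
  have h7 := LaneG_four hX
  have h8 : (1 + rn X.g * rn X.v) * rn r ≤ (VtxL_B X * (1 + rn X.v)) * (2 * d) :=
    mul_le_mul h6 h2 (rn_nonneg r) (by
      have := (VtxL_facts hX).2.1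
      have := (VtxL_facts hX).2.2.1
      positivity)
  have h9 : |R - R'| * (1 / 2) ≤ |R - R'| * rn (e - dp X.g e • X.v) := mul_le_mul_of_nonneg_left he (abs_nonneg _)
  have h10 : 0 ≤ VtxL_B X * (1 + rn X.v) := by
    have := (VtxL_facts hX).2.1
    have := (VtxL_facts hX).2.2.1
    positivity
  have h11 : 0 ≤ (d : ℝ) * (VtxL_B X * (1 + rn X.v)) := mul_nonneg (Nat.cast_nonneg d) h10
  nlinarith

/-- The level of the base points. PROOF. `|ff i (bp e R) - R * f i e| ≤ rn (f i) * d ≤ C`. -/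
theorem bp_ff (hX : IsVtx X μ) (i : Fin X.N) {e : Fin d → ℝ} (he1 : 1 / (2 * X.C) ≤ rn e)
    (he2 : rn e ≤ 2 * X.C * dp (X.f i) e) {R : ℝ} (hR : 0 ≤ R) :
    R / (4 * X.C ^ 2) - X.C ≤ X.ff i (bp e R) ∧ |X.ff i (bp e R) - R * dp (X.f i) e| ≤ X.C ∧
      X.ff i (bp e R) ≤ X.C * rn e * R + X.C ∧ nm (bp e R) ≤ rn e * R + X.C := by
  have hC := one_le_C hX
  have hC0 : 0 < X.C := by linarith
  have hf := VtxL_rn_f X i
  have hAB := VtxL_AB hX
  have hB := VtxL_B_le hX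
  have hB1 := (VtxL_facts hX).2.1
  have hf0 := rn_nonneg (X.f i)
  have hd0 := Nat.cast_nonneg (α := ℝ) d
  have h1 : |X.ff i (bp e R) - R * dp (X.f i) e| ≤ X.C := by
    have h2 : X.ff i (bp e R) - R * dp (X.f i) e = dp (X.f i) (toR (bp e R) - R • e) := by
      rw [dp_sub, dp_smul]
      rfl
    rw [h2]
    refine (abs_dp_le _ _).trans ?_
    have h3 := mul_le_mul_of_nonneg_left (bp_near e R) hf0
    nlinarith
  have h1' := abs_le.1 h1
  refine ⟨?_, h1, ?_, ?_⟩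
  · have h2 : 1 / (4 * X.C ^ 2) ≤ dp (X.f i) e := by
      rw [div_le_iff₀ (by positivity)]
      rw [div_le_iff₀ (by linarith)] at he1
      have h3 : rn e * (2 * X.C) ≤ 2 * X.C * dp (X.f i) e * (2 * X.C) :=
        mul_le_mul_of_nonneg_right he2 (by linarith)
      nlinarith
    have h3 := mul_le_mul_of_nonneg_left h2 hR
    rw [mul_one_div] at h3
    linarith
  · have h2 : dp (X.f i) e ≤ X.C * rn e := by
      refine (le_abs_self _).trans ((abs_dp_le _ _).trans ?_)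
      exact mul_le_mul_of_nonneg_right (by linarith) (rn_nonneg e)
    have h3 := mul_le_mul_of_nonneg_left h2 hR
    nlinarith
  · rw [nm_eq_rn]
    have h2 : rn (toR (bp e R)) ≤ rn (toR (bp e R) - R • e) + rn (R • e) := by
      calc rn (toR (bp e R)) = rn ((toR (bp e R) - R • e) + R • e) := by rw [sub_add_cancel]
        _ ≤ _ := rn_add_le _ _
    rw [rn_smul, abs_of_nonneg hR] at h2
    have h3 := bp_near e R
    have h4 : (d : ℝ) ≤ X.C := by nlinarith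
    nlinarith

private theorem LaneG_vtx (hX : IsVtx X μ) {x z : V d} {r W B : ℝ} (hr : 0 ≤ r) (hB : 0 ≤ B)
    (h1 : X.lat (z - x) ≤ W) (h2 : -B ≤ X.gg (z - x)) (h3 : X.gg (z - x) ≤ r + B) :
    nm z ≤ nm x + X.C * (r + B + W) := by
  have hC := one_le_C hX
  have h4 := nm_le hX (z - x)
  have h5 : |X.gg (z - x)| ≤ r + B := by
    rw [abs_le]
    constructor <;> linarith
  have h6 : X.C * (|X.gg (z - x)| + X.lat (z - x)) ≤ X.C * (r + B + W) :=
    mul_le_mul_of_nonneg_left (by linarith) (by linarith)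
  have h7 := nm_add_le x (z - x)
  rw [add_sub_cancel] at h7
  linarith

/-- Lanes inside the half space region. PROOF. For `z` in the lane: `ff i z = ff i x + ff i (z - x)`,
`ff i (z - x) ≥ gg (z - x) - C * lat (z - x)` (`abs_ff_sub_gg`), `nm z ≤ nm x + C * (|gg (z - x)| + lat (z - x))` (`nm_le`). -/
theorem lane_sub_Rg (hX : IsVtx X μ) (i : Fin X.N) (x : V d) {r W B H : ℝ} (hr : 0 ≤ r) (hW : 0 ≤ W) (hB : 0 ≤ B)
    (h1 : X.C * W + B ≤ X.ff i x) (h2 : nm x + X.C * (r + B + W) ≤ H) : X.lane x r W B ⊆ X.Rg i H := by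
  have hC := one_le_C hX
  have key : ∀ z : V d, X.lat (z - x) ≤ W ∧ -B ≤ X.gg (z - x) ∧ X.gg (z - x) ≤ r + B → 0 ≤ X.ff i z ∧ nm z ≤ H := by
    rintro z ⟨h3, h4, h5⟩
    refine ⟨?_, (LaneG_vtx hX hr hB h3 h4 h5).trans h2⟩
    have h6 := (abs_le.1 (abs_ff_sub_gg hX i (z - x))).1
    have h7 : X.C * X.lat (z - x) ≤ X.C * W := mul_le_mul_of_nonneg_left h3 (by linarith)
    have h8 := Vtx.ff_sub (X := X) i z x
    linarith
  rintro e ⟨he1, he2⟩
  exact ⟨key _ he1, key _ he2⟩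

theorem lane_disjoint (x x' : V d) {r r' W W' B B' : ℝ} (h : W + W' < X.lat (x - x')) :
    Disjoint (X.lane x r W B) (X.lane x' r' W' B') := by
  rw [Set.disjoint_left]
  rintro e ⟨he1, -⟩ ⟨he2, -⟩
  have h1 : X.lat (e.1 - x) ≤ W := he1.1
  have h2 : X.lat (e.1 - x') ≤ W' := he2.1
  have h3 := Vtx.lat_sub_le (X := X) (e.1 - x') (e.1 - x)
  rw [sub_sub_sub_cancel_left] at h3
  linarith

/-- The edges of a lane are near. -/
theorem nm_of_mem_lane (hX : IsVtx X μ) (x : V d) {r W B : ℝ} (hr : 0 ≤ r) (hB : 0 ≤ B) {e : Edge d}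
    (he : e ∈ X.lane x r W B) : nm e.1 ≤ nm x + X.C * (r + B + W) := by
  exact LaneG_vtx hX hr hB he.1.1 he.1.2.1 he.1.2.2

theorem lane_mono (x : V d) {r r' W W' B B' : ℝ} (hr : r ≤ r') (hW : W ≤ W') (hB : B ≤ B') :
    X.lane x r W B ⊆ X.lane x r' W' B' := by
  rintro e ⟨⟨h1, h2, h3⟩, h4, h5, h6⟩
  exact ⟨⟨h1.trans hW, by linarith, by linarith⟩, h4.trans hW, by linarith, by linarith⟩

end Pool.Agent.W_1b8d5d_nd

end

/-! ### Renew -/

section

/-!
MP_1b8d5d_pr, [ND]: the renewal argument in the half space of the functional `ff i`.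
-/

set_option autoImplicit false

namespace Pool.Agent.W_1b8d5d_nd

open Finset Filter Topology
open Pool.Agent.W_1b8d5d_h85 (Ex Pr Vr avg)

variable {d : ℕ} [NeZero d] {Q : Qn} {m : V d → ℝ} {μ : (Fin d → ℝ) → ℝ} {X : Vtx d}

/-- The edges which decide where the traveller stops, if he stops at `y`. -/
def Dn (X : Vtx d) (i : Fin X.N) (H : ℝ) (y : V d) : Set (Edge d) :=
  {e | e ∈ edg (X.hp i 0) ∧ nm e.1 ≤ H ∧ e ∉ edg (X.hp i y)}

/-- The edges in the half space. -/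
def Up (X : Vtx d) (i : Fin X.N) (H : ℝ) : Set (Edge d) := {e | e ∈ edg (X.hp i 0) ∧ nm e.1 ≤ H}

private theorem Renew_hp_add {i : Fin X.N} {x y z : V d} :
    z + x ∈ X.hp i (y + x) ↔ z ∈ X.hp i y := by
  show X.ff i (y + x) ≤ X.ff i (z + x) ↔ X.ff i y ≤ X.ff i z
  rw [Vtx.ff_add, Vtx.ff_add]
  constructor <;> intro h <;> linarith

private theorem Renew_edg_add {i : Fin X.N} {x y : V d} {e : Edge d} :
    ((e.1 + x, e.2) : Edge d) ∈ edg (X.hp i (y + x)) ↔ e ∈ edg (X.hp i y) := by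
  show (e.1 + x ∈ X.hp i (y + x) ∧ e.1 + x + dir e.2 ∈ X.hp i (y + x)) ↔
    (e.1 ∈ X.hp i y ∧ e.1 + dir e.2 ∈ X.hp i y)
  rw [Renew_hp_add, add_right_comm, Renew_hp_add]

private theorem Renew_edg_add' {i : Fin X.N} {x : V d} {e : Edge d} (h : e ∈ edg (X.hp i 0)) :
    ((e.1 + x, e.2) : Edge d) ∈ edg (X.hp i x) := by
  have h1 := (Renew_edg_add (i := i) (x := x) (y := 0) (e := e)).2 h
  rwa [zero_add] at h1

private theorem Renew_edg_mono {i : Fin X.N} {x y : V d} (hp : X.ff i x ≤ X.ff i y) {e : Edge d}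
    (h : e ∈ edg (X.hp i y)) : e ∈ edg (X.hp i x) := by
  obtain ⟨h1, h2⟩ := h
  exact ⟨hp.trans h1, hp.trans h2⟩

/-- Splitting over the values of `Y`. -/
private theorem Renew_split {p : ℕ} {a h : ℝ} {M : Mdl d a h} (hM : GoodN Q m p M)
    (Y : Env d → V d) {A : Env d → ℝ}
    (hind : open Classical in ∀ y, (∃ τ, Y τ = y) →
      M.E (fun τ => (if Y τ = y then (1 : ℝ) else 0) * A (sh y τ)) =
        M.E (fun τ => if Y τ = y then (1 : ℝ) else 0) * M.E (fun τ => A (sh y τ))) :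
    M.E (fun τ => A (sh (Y τ) τ)) = M.E A := by
  classical
  set s : Finset (V d) := (univ : Finset M.Ω).image (fun ω => Y (M.env ω)) with hs
  have hmem : ∀ ω, Y (M.env ω) ∈ s := fun ω => mem_image_of_mem _ (mem_univ ω)
  have e1 : M.E (fun τ => A (sh (Y τ) τ)) =
      M.E (fun τ => ∑ x ∈ s, (if Y τ = x then (1 : ℝ) else 0) * A (sh x τ)) := by
    unfold Pool.Agent.W_1b8d5d_gd.Mdl.E
    refine Pool.Agent.W_1b8d5d_h85.Ex_congr fun ω => ?_
    simp only [ite_mul, one_mul, zero_mul]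
    rw [Finset.sum_ite_eq, if_pos (hmem ω)]
  have e2 : M.E (fun τ => ∑ x ∈ s, (if Y τ = x then (1 : ℝ) else 0)) = 1 := by
    have : M.E (fun τ => ∑ x ∈ s, (if Y τ = x then (1 : ℝ) else 0)) = M.E (fun _ => 1) := by
      unfold Pool.Agent.W_1b8d5d_gd.Mdl.E
      refine Pool.Agent.W_1b8d5d_h85.Ex_congr fun ω => ?_
      show ∑ x ∈ s, (if Y (M.env ω) = x then (1 : ℝ) else 0) = 1
      rw [Finset.sum_ite_eq, if_pos (hmem ω)]
    rw [this, M.E_const]
  rw [e1, M.E_sum s (fun x τ => (if Y τ = x then (1 : ℝ) else 0) * A (sh x τ))]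
  have e3 : ∀ x ∈ s, M.E (fun τ => (if Y τ = x then (1 : ℝ) else 0) * A (sh x τ)) =
      M.E (fun τ => if Y τ = x then (1 : ℝ) else 0) * M.E A := by
    intro x hx
    rw [hs, mem_image] at hx
    obtain ⟨ω, -, hω⟩ := hx
    have h1 := hind x ⟨_, hω⟩
    rw [hM.inv x A] at h1
    convert h1
  rw [sum_congr rfl e3, ← sum_mul,
    ← M.E_sum s (fun x τ => if Y τ = x then (1 : ℝ) else 0), e2, one_mul]

/-- Independence of what is below and above the half space at `y`. -/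
private theorem Renew_indep {p : ℕ} {a h : ℝ} {M : Mdl d a h} (hM : GoodN Q m p M) (i : Fin X.N)
    {H H' : ℝ} {y : V d} (hH : H ≤ H') (hH' : H' ≤ h ^ (p + 100)) {Y : Env d → V d}
    {A : Env d → ℝ}
    (hY : DependsOn (fun τ => Y τ = y) {e | nm e.1 ≤ H ∧ e ∉ edg (X.hp i y)})
    (hA : DependsOn (fun τ => A (sh y τ)) {e | e ∈ edg (X.hp i y) ∧ nm e.1 ≤ H'}) :
    open Classical in
    M.E (fun τ => (if Y τ = y then (1 : ℝ) else 0) * A (sh y τ)) =
      M.E (fun τ => if Y τ = y then (1 : ℝ) else 0) * M.E (fun τ => A (sh y τ)) := by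
  classical
  have hdisj : Disjoint {e : Edge d | nm e.1 ≤ H ∧ e ∉ edg (X.hp i y)}
      {e : Edge d | e ∈ edg (X.hp i y) ∧ nm e.1 ≤ H'} := by
    rw [Set.disjoint_left]
    rintro e ⟨-, h1⟩ ⟨h2, -⟩
    exact h1 h2
  have h1 := hM.indep _ _ hdisj (by
    rintro e (⟨h1, -⟩ | ⟨-, h1⟩)
    · linarith
    · linarith) (fun τ => if Y τ = y then (1 : ℝ) else 0) (fun τ => A (sh y τ)) (by
      intro τ τ' hag
      have h2 : (Y τ = y) = (Y τ' = y) := hY hag
      simp only [h2]) hA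
  convert h1

/-- Restart: what happens in the half space seen from the stopping point `Y` is independent of the past. PROOF. Split over the
(finitely many) values `y` of `Y`: `E [1_{Y = y} A (sh y τ)] = P (Y = y) E A` by `indep`: `1_{Y = y}` depends on `Dn X i H y`,
`A ∘ sh y` on edges with both end points in `hp i y`; then `inv`. -/
theorem restart {p : ℕ} {a h : ℝ} {M : Mdl d a h} (hM : GoodN Q m p M) (h1 : 1 ≤ h) (i : Fin X.N) (H : ℝ)
    (hH : 4 * H ≤ h ^ (p + 100)) (Y : Env d → V d) (hY : ∀ τ, nm (Y τ) ≤ H)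
    (hdep : ∀ y, DependsOn (fun τ => Y τ = y) (Dn X i H y)) (A : Env d → ℝ) (hA : DependsOn A (Up X i H)) :
    M.E (fun τ => A (sh (Y τ) τ)) = M.E A := by
  have hH0 : 0 ≤ H := (nm_nonneg _).trans (hY fun _ => 0)
  refine Renew_split hM Y (fun y hy => ?_)
  have hyH : nm y ≤ H := by
    obtain ⟨τ, hτ⟩ := hy
    rw [← hτ]
    exact hY τ
  refine Renew_indep hM i (H := H) (H' := 2 * H) (y := y) ?_ ?_ ?_ ?_
  · linarith
  · linarith
  · intro τ τ' h
    exact hdep y fun e he => h e ⟨he.2.1, he.2.2⟩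
  · intro τ τ' h
    refine hA fun e he => ?_
    refine h (e.1 + y, e.2) ⟨Renew_edg_add' he.1, ?_⟩
    have := nm_add_le e.1 y
    have := he.2
    show nm (e.1 + y) ≤ _
    linarith

/-- The chain `x_0 = 0`, `x_{k+1} = x_k + Y (environment seen from x_k)`. -/
def chain (Y : Env d → V d) : ℕ → Env d → V d
  | 0, _ => 0
  | k + 1, τ => chain Y k τ + Y (sh (chain Y k τ) τ)

theorem chain_nm {Y : Env d → V d} {H : ℝ} (hY : ∀ τ, nm (Y τ) ≤ H) (k : ℕ) (τ : Env d) :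
    nm (chain Y k τ) ≤ k * H := by
  induction k with
  | zero => simp [chain, nm_zero]
  | succ k ih =>
    have h1 := nm_add_le (chain Y k τ) (Y (sh (chain Y k τ) τ))
    have h2 := hY (sh (chain Y k τ) τ)
    rw [chain]
    push_cast
    linarith

/-- (As `chain_dep` in `W_1b8d5d_h85.FlatB`.) -/
theorem chain_dep (i : Fin X.N) {H : ℝ} (hH : 0 ≤ H) {Y : Env d → V d}
    (hY : ∀ τ, nm (Y τ) ≤ H ∧ 0 ≤ X.ff i (Y τ)) (hdep : ∀ y, DependsOn (fun τ => Y τ = y) (Dn X i H y))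
    (k : ℕ) (y : V d) :
    DependsOn (fun τ => chain Y k τ = y) {e | nm e.1 ≤ k * H ∧ e ∉ edg (X.hp i y)} := by
  induction k generalizing y with
  | zero =>
    intro τ τ' _
    rfl
  | succ k ih =>
    have key : ∀ τ τ' : Env d,
        (∀ e ∈ {e : Edge d | nm e.1 ≤ ((k + 1 : ℕ) : ℝ) * H ∧ e ∉ edg (X.hp i y)}, τ e = τ' e) →
        chain Y (k + 1) τ = y → chain Y (k + 1) τ' = y := by
      intro τ τ' hag hτ
      set x : V d := chain Y k τ with hx
      have hxk : nm x ≤ k * H := chain_nm (fun τ => (hY τ).1) k τ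
      have hstep : x + Y (sh x τ) = y := hτ
      have hYx : Y (sh x τ) = y - x := by
        rw [← hstep]
        abel
      have hp : X.ff i x ≤ X.ff i y := by
        rw [← hstep, Vtx.ff_add]
        linarith [(hY (sh x τ)).2]
      have h1 : chain Y k τ' = x := by
        have h0 : ∀ e ∈ {e : Edge d | nm e.1 ≤ (k : ℝ) * H ∧ e ∉ edg (X.hp i x)}, τ e = τ' e := by
          rintro e ⟨h3, h4⟩
          refine hag e ⟨?_, fun h5 => h4 (Renew_edg_mono hp h5)⟩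
          push_cast
          linarith
        have h2 := ih x h0
        exact Eq.mp h2 hx.symm
      have h2 : Y (sh x τ') = y - x := by
        have h0 : ∀ e ∈ Dn X i H (y - x), sh x τ e = sh x τ' e := by
          rintro e ⟨h4, h5, h6⟩
          refine hag (e.1 + x, e.2) ⟨?_, fun h7 => h6 ?_⟩
          · have := nm_add_le e.1 x
            push_cast
            show nm (e.1 + x) ≤ _
            linarith
          · have h8 : y = (y - x) + x := by abel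
            rw [h8] at h7
            exact Renew_edg_add.1 h7
        have h3 := hdep (y - x) h0
        exact Eq.mp h3 hYx
      show chain Y k τ' + Y (sh (chain Y k τ') τ') = y
      rw [h1, h2]
      abel
    intro τ τ' h
    exact propext ⟨key τ τ' h, key τ' τ fun e he => (h e he).symm⟩

/-- (As `chain_step` in `W_1b8d5d_h85.FlatB`.) -/
theorem chain_step {p : ℕ} {a h : ℝ} {M : Mdl d a h} (hM : GoodN Q m p M) (i : Fin X.N) {H : ℝ} (hH : 0 ≤ H)
    {Y : Env d → V d} {A : Env d → ℝ} (hY : ∀ τ, nm (Y τ) ≤ H ∧ 0 ≤ X.ff i (Y τ))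
    (hdep : ∀ y, DependsOn (fun τ => Y τ = y) (Dn X i H y)) (hA : DependsOn A (Up X i H)) (k : ℕ)
    (hR : (k + 1) * H ≤ h ^ (p + 100)) : M.E (fun τ => A (sh (chain Y k τ) τ)) = M.E A := by
  refine Renew_split hM (chain Y k) (fun y hy => ?_)
  have hyk : nm y ≤ k * H := by
    obtain ⟨τ, hτ⟩ := hy
    rw [← hτ]
    exact chain_nm (fun τ => (hY τ).1) k τ
  refine Renew_indep hM i (H := k * H) (H' := (k + 1) * H) (y := y) ?_ hR ?_ ?_
  · linarith
  · exact chain_dep i hH hY hdep k y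
  · intro τ τ' h
    refine hA fun e he => ?_
    refine h (e.1 + y, e.2) ⟨Renew_edg_add' he.1, ?_⟩
    have := nm_add_le e.1 y
    have := he.2
    show nm (e.1 + y) ≤ _
    linarith

private theorem Renew_sum {a b : ℝ} (ha : 0 ≤ a) {Y : Env d → V d} {A : Env d → ℝ}
    (hT : ∀ τ, Bd a b τ → T τ 0 (Y τ) ≤ A τ) {τ : Env d} (hτ : Bd a b τ) (K : ℕ) :
    T τ 0 (chain Y K τ) ≤ ∑ k ∈ range K, A (sh (chain Y k τ) τ) := by
  induction K with
  | zero =>
    simp only [chain, range_zero, sum_empty]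
    rw [T_self hτ ha]
  | succ K ih =>
    rw [sum_range_succ]
    set x : V d := chain Y K τ with hx
    have h1 := hT (sh x τ) (Bd_sh hτ x)
    have h2 := T_triangle hτ ha 0 x (x + Y (sh x τ))
    have h3 : T (sh x τ) 0 (Y (sh x τ)) = T τ x (x + Y (sh x τ)) := by
      rw [T_sh, zero_add, add_comm (Y (sh x τ)) x]
    have h4 : chain Y (K + 1) τ = x + Y (sh x τ) := rfl
    rw [h4]
    rw [h3] at h1
    linarith

private theorem Renew_ff (i : Fin X.N) {Y : Env d → V d} (K : ℕ) (τ : Env d) :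
    X.ff i (chain Y K τ) = ∑ k ∈ range K, X.ff i (Y (sh (chain Y k τ) τ)) := by
  induction K with
  | zero =>
    simp only [chain, range_zero, sum_empty]
    exact Vtx.ff_zero i
  | succ K ih =>
    rw [sum_range_succ, ← ih]
    have h4 : chain Y (K + 1) τ = chain Y K τ + Y (sh (chain Y K τ) τ) := rfl
    rw [h4, Vtx.ff_add]

/-- Renewal. PROOF. `K = ⌊h ^ (D + 100)⌋` steps of the chain, `H = h ^ (D + 10)`: `T(0, x_K) ≤ ∑ A (sh x_k τ)`, so
`E T(0,x_K) ≤ K E A`; `E ff (x_K) = K E ff (Y)`. On `LT μ (2 D + 198)`: `T(0,x_K) ≥ ff (x_K) - er h (h ^ (2 D + 110))` and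
`er h (h ^ (2 D + 110)) ≤ h ^ (D + 63)`; off `LT` `T ≥ 0`, `ff (x_K) ≤ C h ^ (2 D + 110)`. Divide by `K ≥ h ^ (D + 100) / 2`. -/
theorem renewal (hX : IsVtx X μ) (hmu : MuM μ m) (hN : HasN Q m) (D : ℕ) (hD : 1000 ≤ D) (i : Fin X.N) :
    ∀ᶠ h : ℝ in atTop, ∀ (a : ℝ) (M : Mdl d a h), GoodN Q m (2 * D + 200) M →
      ∀ (Y : Env d → V d) (A : Env d → ℝ),
        (∀ τ, nm (Y τ) ≤ h ^ (D + 10) ∧ 0 ≤ X.ff i (Y τ)) →
        (∀ y, DependsOn (fun τ => Y τ = y) (Dn X i (h ^ (D + 10)) y)) →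
        DependsOn A (Up X i (h ^ (D + 10))) →
        (∀ τ, Bd a h τ → T τ 0 (Y τ) ≤ A τ) →
        M.E (fun τ => X.ff i (Y τ)) - 1 ≤ M.E A := by
  have hC4 := one_le_C hX
  have hlim : ∀ᶠ h : ℝ in atTop, X.C * h ^ (2 * D + 110) * Real.exp (-(h / 2)) ≤ 1 := by
    have h1 := ((Real.tendsto_pow_mul_exp_neg_atTop_nhds_zero (2 * D + 110)).comp
      (tendsto_id.atTop_div_const (by norm_num : (0 : ℝ) < 2))).const_mul (X.C * 2 ^ (2 * D + 110))
    rw [mul_zero] at h1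
    filter_upwards [h1.eventually (ge_mem_nhds (zero_lt_one' ℝ))] with h hh
    refine le_trans (le_of_eq ?_) hh
    show X.C * h ^ (2 * D + 110) * Real.exp (-(h / 2)) =
      X.C * 2 ^ (2 * D + 110) * ((h / 2) ^ (2 * D + 110) * Real.exp (-(h / 2)))
    rw [div_pow]
    have h2 : (2 : ℝ) ^ (2 * D + 110) ≠ 0 := by positivity
    field_simp
  filter_upwards [hlim, LT_prob hmu hN (2 * D + 198) (by omega), eventually_ge_atTop (3 : ℝ)]
    with h hh hLT h3
  intro a M hM Y A hY hdep hA hT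
  have h1 : (1 : ℝ) ≤ h := by linarith
  have h0 : (0 : ℝ) ≤ h := by linarith
  have ha : 0 ≤ a := hM.apos.le
  set H : ℝ := h ^ (D + 10) with hHdef
  have hH0 : 0 ≤ H := by positivity
  set K : ℕ := ⌊h ^ (D + 100)⌋₊ with hK
  have hK1 : (K : ℝ) ≤ h ^ (D + 100) := Nat.floor_le (by positivity)
  have hK2 : h ^ (D + 100) < K + 1 := Nat.lt_floor_add_one _
  have hKH : (K : ℝ) * H ≤ h ^ (2 * D + 110) := by
    calc (K : ℝ) * H ≤ h ^ (D + 100) * H := mul_le_mul_of_nonneg_right hK1 hH0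
      _ = h ^ (2 * D + 110) := by
        rw [hHdef, ← pow_add]
        congr 1
        omega
  have hbig : h ^ (2 * D + 110) ≤ h ^ (2 * D + 200 + 100) := pow_le_pow_right₀ h1 (by omega)
  have hstep : ∀ (F : Env d → ℝ), DependsOn F (Up X i H) → ∀ k ∈ range K,
      M.E (fun τ => F (sh (chain Y k τ) τ)) = M.E F := by
    intro F hF k hk
    refine chain_step hM i hH0 hY hdep hF k ?_
    have h4 : (k : ℝ) + 1 ≤ K := by exact_mod_cast mem_range.1 hk
    have h5 : ((k : ℝ) + 1) * H ≤ K * H := mul_le_mul_of_nonneg_right h4 hH0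
    linarith
  -- upper bound
  have hup : M.E (fun τ => T τ 0 (chain Y K τ)) ≤ K * M.E A := by
    refine (M.E_mono fun τ hτ => Renew_sum ha hT hτ K).trans ?_
    rw [M.E_sum (range K) (fun k τ => A (sh (chain Y k τ) τ)), sum_congr rfl (hstep A hA),
      sum_const, card_range, nsmul_eq_mul]
  -- the level of the end point
  have hFdep : DependsOn (fun τ => X.ff i (Y τ)) (Up X i H) := by
    intro τ τ' hag
    have h4 := hdep (Y τ) fun e he => hag e ⟨he.1, he.2.1⟩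
    have h5 : (Y τ = Y τ) = (Y τ' = Y τ) := h4
    have h6 : Y τ' = Y τ := by rw [← h5]
    show X.ff i (Y τ) = X.ff i (Y τ')
    rw [h6]
  have hff : M.E (fun τ => X.ff i (chain Y K τ)) = K * M.E (fun τ => X.ff i (Y τ)) := by
    have h4 : ∀ τ, X.ff i (chain Y K τ) = ∑ k ∈ range K, X.ff i (Y (sh (chain Y k τ) τ)) :=
      fun τ => Renew_ff i K τ
    have h5 : M.E (fun τ => X.ff i (chain Y K τ)) =
        M.E (fun τ => ∑ k ∈ range K, X.ff i (Y (sh (chain Y k τ) τ))) :=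
      M.E_congr fun τ _ => h4 τ
    rw [h5, M.E_sum (range K) (fun k τ => X.ff i (Y (sh (chain Y k τ) τ))),
      sum_congr rfl (hstep (fun τ => X.ff i (Y τ)) hFdep), sum_const, card_range, nsmul_eq_mul]
  -- lower bound
  have hnm : ∀ τ, nm (chain Y K τ) ≤ h ^ (2 * D + 110) := fun τ =>
    (chain_nm (fun τ => (hY τ).1) K τ).trans hKH
  have her : er h (h ^ (2 * D + 110)) ≤ h ^ (D + 63) := by
    unfold er
    have h4 : √(h ^ (2 * D + 110)) = h ^ (D + 55) := by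
      have h5 : h ^ (2 * D + 110) = (h ^ (D + 55)) ^ 2 := by
        rw [← pow_mul]
        congr 1
        omega
      rw [h5, Real.sqrt_sq (by positivity)]
    have h5 : h ^ 7 * h ^ (D + 55) = h ^ (D + 62) := by
      rw [← pow_add]
      congr 1
      omega
    have h6 : h ^ 12 ≤ h ^ (D + 62) := pow_le_pow_right₀ h1 (by omega)
    have h7 : h ^ (D + 63) = h ^ (D + 62) * h := pow_succ h (D + 62)
    have h8 : 0 ≤ h ^ (D + 62) := by positivity
    rw [h4, h5, h7]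
    nlinarith
  classical
  have hlow : ∀ τ, Bd a h τ → X.ff i (chain Y K τ) - h ^ (D + 63) -
      X.C * h ^ (2 * D + 110) * (if ¬ LT μ (2 * D + 198) h τ then (1 : ℝ) else 0) ≤
        T τ 0 (chain Y K τ) := by
    intro τ hτ
    have h63 : 0 ≤ h ^ (D + 63) := by positivity
    by_cases hL : LT μ (2 * D + 198) h τ
    · rw [if_neg (not_not.2 hL), mul_zero, sub_zero]
      have h4 : nm (chain Y K τ) ≤ h ^ (2 * D + 198) :=
        (hnm τ).trans (pow_le_pow_right₀ h1 (by omega))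
      have h5 := hL 0 (chain Y K τ) (by rw [nm_zero]; positivity) h4
      rw [sub_zero] at h5
      have h6 := (hX.cheap i).low (toR (chain Y K τ))
      have h7 : er h (nm (chain Y K τ)) ≤ h ^ (D + 63) := (er_mono h1 (hnm τ)).trans her
      have h8 : X.ff i (chain Y K τ) = dp (X.f i) (toR (chain Y K τ)) := rfl
      linarith
    · rw [if_pos hL, mul_one]
      have h4 := (abs_le.1 (abs_ff_le hX i (chain Y K τ))).2
      have h5 : X.C * nm (chain Y K τ) ≤ X.C * h ^ (2 * D + 110) :=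
        mul_le_mul_of_nonneg_left (hnm τ) (by linarith)
      have h6 := T_nonneg hτ ha 0 (chain Y K τ)
      linarith
  have hE : M.E (fun τ => X.ff i (chain Y K τ)) - h ^ (D + 63) -
      X.C * h ^ (2 * D + 110) * M.P (fun τ => ¬ LT μ (2 * D + 198) h τ) ≤
        M.E (fun τ => T τ 0 (chain Y K τ)) := by
    refine le_trans (le_of_eq ?_) (M.E_mono hlow)
    rw [M.E_sub (fun τ => X.ff i (chain Y K τ) - h ^ (D + 63)), M.E_sub (fun τ => X.ff i (chain Y K τ)),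
      M.E_const, M.E_mul_left, M.P_def]
    congr!
  have hP := hLT a M (hM.mono h1 (by omega))
  have hP' : X.C * h ^ (2 * D + 110) * M.P (fun τ => ¬ LT μ (2 * D + 198) h τ) ≤ 1 :=
    (mul_le_mul_of_nonneg_left hP (by positivity)).trans hh
  have h4 : h ^ (D + 63) * h ≤ h ^ (D + 100) := by
    rw [← pow_succ]
    exact pow_le_pow_right₀ h1 (by omega)
  have h5 : (1 : ℝ) ≤ h ^ (D + 63) := one_le_pow₀ h1
  have h6 : h ^ (D + 63) + 1 ≤ K := by nlinarith
  have h7 : (K : ℝ) * (M.E (fun τ => X.ff i (Y τ)) - M.E A) ≤ h ^ (D + 63) + 1 := by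
    rw [mul_sub, ← hff]
    linarith
  by_contra hcon
  push Not at hcon
  have h8 : (K : ℝ) * 1 < K * (M.E (fun τ => X.ff i (Y τ)) - M.E A) :=
    mul_lt_mul_of_pos_left (by linarith) (by linarith)
  linarith

end Pool.Agent.W_1b8d5d_nd

end

/-! ### Stop -/

section

/-!
MP_1b8d5d_pr, [ND]: first passage to a level, the stopping inequality, subadditivity of the mean overshoot.
-/

set_option autoImplicit false

namespace Pool.Agent.W_1b8d5d_nd

open Finset Filter Topology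
open Pool.Agent.W_1b8d5d_h85 (Ex Pr Vr avg)

variable {d : ℕ} [NeZero d] {Q : Qn} {m : V d → ℝ} {μ : (Fin d → ℝ) → ℝ} {X : Vtx d}

omit [NeZero d] in
private theorem Stop_finite_ball (H : ℝ) : {x : V d | nm x ≤ H}.Finite := by
  refine (Set.finite_Icc (fun _ => -⌈H⌉ : V d) (fun _ => ⌈H⌉)).subset fun x hx => ?_
  have hx' : nm x ≤ H := hx
  rw [Set.mem_Icc]
  have h1 : ∀ j, |(x j : ℝ)| ≤ (⌈H⌉ : ℝ) := fun j => ((abs_le_nm x j).trans hx').trans (Int.le_ceil H)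
  constructor
  · intro j
    have h2 := (abs_le.1 (h1 j)).1
    exact_mod_cast h2
  · intro j
    have h2 := (abs_le.1 (h1 j)).2
    exact_mod_cast h2

theorem finite_Lv (i : Fin X.N) (H N : ℝ) : (X.Lv i H N).Finite :=
  (Stop_finite_ball H).subset fun _ hx => hx.2.2

/-- A point of the level near `N v`. -/
theorem exists_Lv (hX : IsVtx X μ) (i : Fin X.N) {N : ℝ} (hN : 0 ≤ N) :
    ∃ q : V d, N ≤ X.ff i q ∧ X.ff i q ≤ N + X.C ∧ nm q ≤ X.C * (N + 1) + X.C ^ 2 + d := by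
  have hC := one_le_C hX
  have hd : (0 : ℝ) ≤ d := Nat.cast_nonneg d
  have hpos : 0 ≤ X.C * (N + 1) + X.C ^ 2 := by positivity
  rcases hN.eq_or_lt with h0 | h0
  · refine ⟨0, ?_, ?_, ?_⟩
    · rw [Vtx.ff_zero, ← h0]
    · rw [Vtx.ff_zero]
      linarith
    · rw [nm_zero]
      linarith
  obtain ⟨w, hw⟩ := exists_walk (0 : V d) (X.rd (N + X.C))
  have h1 := (abs_le.1 (ff_rd hX i (N + X.C))).1
  have h2 := nm_rd hX (N + X.C)
  obtain ⟨j, hj, h3, h4, -⟩ := first_passage (X.ff i) X.C (fun x y hxy => ff_step hX i hxy) N w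
    (by rw [Vtx.ff_zero]; exact h0) (by linarith)
  refine ⟨w.getVert j, h3, h4.le, ?_⟩
  have h5 := nm_le_length (w.take j)
  rw [sub_zero] at h5
  have h6 : ((w.take j).length : ℝ) ≤ w.length := by
    have h7 : (w.take j).length ≤ w.length := by simp
    exact_mod_cast h7
  rw [sub_zero] at hw
  rw [abs_of_nonneg (by linarith)] at h2
  nlinarith

theorem SN_subset (i : Fin X.N) (H N : ℝ) : X.SN i H N ⊆ X.Rg i H := fun _ he => he.1

theorem SN_mono (i : Fin X.N) {H H' N N' : ℝ} (hH : H ≤ H') (hN : N ≤ N') : X.SN i H N ⊆ X.SN i H' N' := by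
  rintro e ⟨⟨h1, h2⟩, h3⟩
  refine ⟨⟨⟨h1.1, h1.2.trans hH⟩, ⟨h2.1, h2.2.trans hH⟩⟩, ?_⟩
  rcases h3 with h3 | h3
  · exact Or.inl (h3.trans_le hN)
  · exact Or.inr (h3.trans_le hN)

theorem UN_nonneg {a h : ℝ} (ha : 0 < a) (hah : a ≤ h) {τ : Env d} (hτ : Bd a h τ) (i : Fin X.N) (H N : ℝ) :
    0 ≤ X.UN i H h N τ :=
  Real.iInf_nonneg fun _ => T_nonneg (Bd_res hah hτ _) ha.le _ _

/-- The minimum over the level set is attained (every environment). -/
private theorem Stop_min (F : V d → ℝ) {S : Set (V d)} (hS : S.Finite) (hne : S.Nonempty) :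
    ∃ q ∈ S, ∀ q' ∈ S, F q ≤ F q' := Set.exists_min_image S F hS hne

private theorem Stop_bdd {a h : ℝ} (ha : 0 < a) (hah : a ≤ h) {τ : Env d} (hτ : Bd a h τ) (i : Fin X.N) (H N : ℝ) :
    BddBelow (Set.range fun p : X.Lv i H N => T (res h (X.SN i H N) τ) 0 p) := by
  refine ⟨0, ?_⟩
  rintro _ ⟨p, rfl⟩
  exact T_nonneg (Bd_res hah hτ _) ha.le _ _

private theorem Stop_ne (hX : IsVtx X μ) (i : Fin X.N) {H N : ℝ} (hN : 0 ≤ N)
    (hH : X.C * (N + 1) + X.C ^ 2 + d ≤ H) : (X.Lv i H N).Nonempty := by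
  obtain ⟨q, h1, h2, h3⟩ := exists_Lv hX i hN
  exact ⟨q, h1, h2, h3.trans hH⟩

/-- Crude bound. -/
theorem UN_le (hX : IsVtx X μ) {a h : ℝ} (ha : 0 < a) (hah : a ≤ h) {τ : Env d} (hτ : Bd a h τ) (i : Fin X.N)
    {H N : ℝ} (hN : 0 ≤ N) (hH : X.C * (N + 1) + X.C ^ 2 + d ≤ H) :
    X.UN i H h N τ ≤ h * (X.C * (N + 1) + X.C ^ 2 + d) := by
  obtain ⟨q, h1, h2, h3⟩ := exists_Lv hX i hN
  have h4 : X.UN i H h N τ ≤ T (res h (X.SN i H N) τ) 0 q :=
    ciInf_le (Stop_bdd ha hah hτ i H N) (⟨q, h1, h2, h3.trans hH⟩ : X.Lv i H N)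
  have h5 := T_upper (Bd_res hah hτ (X.SN i H N)) ha.le 0 q
  rw [sub_zero] at h5
  exact h4.trans (h5.trans (mul_le_mul_of_nonneg_left h3 (ha.le.trans hah)))

theorem UN_le_of_mem {a h : ℝ} (ha : 0 < a) (hah : a ≤ h) {τ : Env d} (hτ : Bd a h τ) (i : Fin X.N) {H N : ℝ}
    {q : V d} (hq : q ∈ X.Lv i H N) : X.UN i H h N τ ≤ T (res h (X.SN i H N) τ) 0 q :=
  ciInf_le (Stop_bdd ha hah hτ i H N) (⟨q, hq⟩ : X.Lv i H N)

/-- The minimum is attained. -/
theorem exists_UN (hX : IsVtx X μ) {a h : ℝ} (ha : 0 < a) (hah : a ≤ h) {τ : Env d} (hτ : Bd a h τ) (i : Fin X.N)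
    {H N : ℝ} (hN : 0 ≤ N) (hH : X.C * (N + 1) + X.C ^ 2 + d ≤ H) :
    ∃ q ∈ X.Lv i H N, X.UN i H h N τ = T (res h (X.SN i H N) τ) 0 q := by
  have hne := Stop_ne hX i hN hH
  obtain ⟨q, hq, hmin⟩ := Stop_min (fun q => T (res h (X.SN i H N) τ) 0 q) (finite_Lv i H N) hne
  refine ⟨q, hq, le_antisymm (UN_le_of_mem ha hah hτ i hq) ?_⟩
  have := hne.to_subtype
  exact le_ciInf fun p => hmin p p.2

theorem dependsOn_UN (i : Fin X.N) (H h N : ℝ) : DependsOn (fun τ => X.UN i H h N τ) (X.SN i H N) := by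
  intro τ τ' hh
  have h1 : ∀ p : X.Lv i H N, T (res h (X.SN i H N) τ) 0 p = T (res h (X.SN i H N) τ') 0 p :=
    fun p => dependsOn_T_res h (X.SN i H N) 0 p hh
  simp only [Vtx.UN, h1]

/-- A larger box helps. -/
theorem UN_anti {a h : ℝ} (ha : 0 < a) (hah : a ≤ h) {τ : Env d} (hτ : Bd a h τ) (i : Fin X.N) {H H' N : ℝ}
    (hH : H ≤ H') (hne : (X.Lv i H N).Nonempty) : X.UN i H' h N τ ≤ X.UN i H h N τ := by
  have := hne.to_subtype
  refine le_ciInf fun p => ?_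
  have h1 : (p : V d) ∈ X.Lv i H' N := ⟨p.2.1, p.2.2.1, p.2.2.2.trans hH⟩
  exact (UN_le_of_mem ha hah hτ i h1).trans
    (T_res_anti ha.le hah hτ (SN_mono i hH le_rfl) 0 p)

/-! ### Walks and levels -/

/-- An edge of the initial piece of a walk has an end point before the last vertex. -/
private theorem Stop_edge {x y : V d} (w : (grid d).Walk x y) (f : V d → ℝ) (N : ℝ) {j : ℕ}
    (hj : ∀ k < j, f (w.getVert k) < N) {e : Edge d} (he : e ∈ wedges (w.take j)) :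
    f e.1 < N ∨ f (e.1 + dir e.2) < N := by
  by_contra hcon
  push Not at hcon
  have key : ∀ v ∈ (w.take j).support, N ≤ f v → v = w.getVert j := by
    intro v hv hN
    obtain ⟨k, hk, -⟩ := SimpleGraph.Walk.mem_support_iff_exists_getVert.1 hv
    rw [SimpleGraph.Walk.take_getVert] at hk
    by_cases h1 : j ≤ k
    · rw [← hk, min_eq_left h1]
    · push Not at h1
      rw [min_eq_right h1.le] at hk
      have h2 := hj k h1
      rw [hk] at h2
      exact absurd h2 (not_lt.2 hN)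
  obtain ⟨h1, h2⟩ := wedges_support (w.take j) he
  have h3 := key _ h1 hcon.1
  have h4 := key _ h2 hcon.2
  rw [← h3] at h4
  exact dir_ne_zero e.2 (by simpa using h4)

private theorem Stop_take {a b : ℝ} (ha : 0 ≤ a) {τ : Env d} (hτ : Bd a b τ) {x y : V d} (w : (grid d).Walk x y)
    (j : ℕ) : cost τ (w.take j) ≤ cost τ w := by
  have h0 : cost τ w = cost τ (w.take j) + cost τ (w.drop j) := by
    rw [← cost_append, SimpleGraph.Walk.append_take_drop_eq]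
  have h1 := le_cost hτ (w.drop j)
  have h2 : 0 ≤ a * ((w.drop j).length : ℝ) := by positivity
  linarith

variable (hs : ∀ x, μ (-x) = μ x)

include hs

/-- First passage: if a point `q` above the level `N > 0` is reached in the region at cost `≤ s`, then the level `N` is reached
at cost `≤ s`. PROOF. Take a walk of cost `≤ s` of the environment `res h (Rg i H) τ` from `0` to `q` and its first vertex `q'`
with `ff ≥ N` (`first_passage`, `ff_step`); the edges of the piece before `q'` have an end point of level `< N`, so they are in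
`SN i H N` or not in `Rg i H`: the cost of the piece is the same for `res h (SN i H N) τ`. By `walk_near` (the cost for `τ` is
smaller) `nm q' ≤ 2 C (s + h ^ 16) ≤ H`. -/
theorem first_level (hX : IsVtx X μ) (p : ℕ) (hp : 16 ≤ p) : ∀ᶠ h : ℝ in atTop, ∀ (a : ℝ) (τ : Env d), 0 < a →
    a ≤ h → Bd a h τ → LT μ (p + 2) h τ → ∀ (i : Fin X.N) (H N s : ℝ) (q : V d), 0 < N → N ≤ X.ff i q → s ≤ h ^ p →
      T (res h (X.Rg i H) τ) 0 q ≤ s → 2 * X.C * (s + h ^ 16) ≤ H →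
      ∃ q' ∈ X.Lv i H N, T (res h (X.SN i H N) τ) 0 q' ≤ s := by
  filter_upwards [walk_near hs hX p hp, eventually_ge_atTop 0] with h hnear h0
  intro a τ ha hah hτ hLT i H N s q hN hq hsp hT hH
  have hb := Bd_res hah hτ (X.Rg i H)
  obtain ⟨w, hw⟩ := exists_geo hb ha 0 q
  have hs0 : 0 ≤ s := (T_nonneg hb ha.le 0 q).trans hT
  have hcw : cost (res h (X.Rg i H) τ) w ≤ s := hw.2.trans_le hT
  have hcost : cost τ w ≤ s := (cost_mono w fun e _ => le_res hτ _ e).trans hcw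
  have hn := hnear a τ ha hτ hLT 0 q w s (by rw [nm_zero]; positivity) hs0 hsp hcost
  obtain ⟨j, hj, h3, h4, h5⟩ := first_passage (X.ff i) X.C (fun x y hxy => ff_step hX i hxy) N w
    (by rw [Vtx.ff_zero]; exact hN) hq
  have h6 := hn (w.getVert j) (w.getVert_mem_support j)
  rw [sub_zero] at h6
  refine ⟨w.getVert j, ⟨h3, h4.le, h6.trans hH⟩, ?_⟩
  have h7 : cost (res h (X.SN i H N) τ) (w.take j) = cost (res h (X.Rg i H) τ) (w.take j) := by
    refine cost_congr _ fun e he => ?_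
    have h8 := Stop_edge w (X.ff i) N h5 he
    unfold res
    by_cases h9 : e ∈ X.Rg i H
    · rw [if_pos h9, if_pos (show e ∈ X.SN i H N from ⟨h9, h8⟩)]
    · rw [if_neg h9, if_neg fun h10 => h9 h10.1]
  have h8 := T_le_cost (Bd_res hah hτ (X.SN i H N)) ha.le (w.take j)
  rw [h7] at h8
  exact h8.trans ((Stop_take ha.le hb w j).trans hcw)

/-- Concatenation of two first passages. -/
private theorem Stop_concat (hX : IsVtx X μ) (p : ℕ) (hp : 16 ≤ p) : ∀ᶠ h : ℝ in atTop, ∀ (a : ℝ) (τ : Env d),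
    0 < a → a ≤ h → Bd a h τ → LT μ (p + 2) h τ → ∀ (i : Fin X.N) (H N₁ N₂ s : ℝ) (y z : V d), 0 < N₁ → 0 < N₂ →
      N₁ ≤ X.ff i y → N₂ ≤ X.ff i z → s ≤ h ^ p →
      T (res h (X.SN i H N₁) τ) 0 y + T (res h (X.SN i H N₂) (sh y τ)) 0 z ≤ s → 2 * X.C * (s + h ^ 16) ≤ H →
      ∃ q ∈ X.Lv i H (N₁ + N₂), T (res h (X.SN i H (N₁ + N₂)) τ) 0 q ≤ s := by
  filter_upwards [walk_near hs hX p hp, eventually_ge_atTop 0] with h hnear h0
  intro a τ ha hah hτ hLT i H N₁ N₂ s y z hN₁ hN₂ hy hz hsp hT hH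
  rw [T_res_sh, zero_add] at hT
  set S₂ : Set (Edge d) := {e | (e.1 - y, e.2) ∈ X.SN i H N₂} with hS₂
  have hb₁ := Bd_res hah hτ (X.SN i H N₁)
  have hb₂ := Bd_res hah hτ S₂
  obtain ⟨w₁, hw₁⟩ := exists_geo hb₁ ha 0 y
  obtain ⟨w₂, hw₂⟩ := exists_geo hb₂ ha y (z + y)
  rw [← hw₁.2, ← hw₂.2] at hT
  have hc₁ : cost τ w₁ ≤ cost (res h (X.SN i H N₁) τ) w₁ := cost_mono w₁ fun e _ => le_res hτ _ e
  have hc₂ : cost τ w₂ ≤ cost (res h S₂ τ) w₂ := cost_mono w₂ fun e _ => le_res hτ _ e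
  set w := w₁.append w₂ with hwdef
  have hcw : cost τ w ≤ s := by
    rw [hwdef, cost_append]
    linarith
  have hs0 : 0 ≤ s := (T_nonneg hτ ha.le 0 (z + y)).trans ((T_le_cost hτ ha.le w).trans hcw)
  have hn := hnear a τ ha hτ hLT 0 (z + y) w s (by rw [nm_zero]; positivity) hs0 hsp hcw
  have hn' : ∀ v ∈ w.support, nm v ≤ H := by
    intro v hv
    have h1 := hn v hv
    rw [sub_zero] at h1
    exact h1.trans hH
  have hNpos : 0 < N₁ + N₂ := by linarith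
  obtain ⟨j, hj, h3, h4, h5⟩ := first_passage (X.ff i) X.C (fun x y hxy => ff_step hX i hxy) (N₁ + N₂) w
    (by rw [Vtx.ff_zero]; exact hNpos) (by rw [Vtx.ff_add]; linarith)
  refine ⟨w.getVert j, ⟨h3, h4.le, hn' _ (w.getVert_mem_support j)⟩, ?_⟩
  have hb := Bd_res hah hτ (X.SN i H (N₁ + N₂))
  refine (T_le_cost hb ha.le (w.take j)).trans ?_
  classical
  obtain ⟨σ, hσ⟩ : ∃ σ : Env d, ∀ e, σ e =
      if X.ff i e.1 < N₁ + N₂ ∨ X.ff i (e.1 + dir e.2) < N₁ + N₂ then res h (X.SN i H (N₁ + N₂)) τ e else 0 :=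
    ⟨_, fun _ => rfl⟩
  have hh : 0 ≤ h := ha.le.trans hah
  have hσb : Bd 0 h σ := by
    intro e
    rw [hσ]
    split_ifs
    · exact ⟨ha.le.trans (hb e).1, (hb e).2⟩
    · exact ⟨le_rfl, hh⟩
  have e1 : cost (res h (X.SN i H (N₁ + N₂)) τ) (w.take j) = cost σ (w.take j) := by
    refine cost_congr _ fun e he => ?_
    rw [hσ, if_pos (Stop_edge w (X.ff i) (N₁ + N₂) h5 he)]
  have e2 : cost σ (w.take j) ≤ cost σ w := Stop_take le_rfl hσb w j
  have e3 : cost σ w = cost σ w₁ + cost σ w₂ := by rw [hwdef, cost_append]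
  have e4 : cost σ w₁ ≤ cost (res h (X.SN i H N₁) τ) w₁ := by
    refine cost_mono w₁ fun e _ => ?_
    by_cases h6 : e ∈ X.SN i H N₁
    · have h7 : e ∈ X.SN i H (N₁ + N₂) := SN_mono i le_rfl (by linarith) h6
      have h8 : res h (X.SN i H N₁) τ e = τ e := by unfold res; rw [if_pos h6]
      have h9 : res h (X.SN i H (N₁ + N₂)) τ e = τ e := by unfold res; rw [if_pos h7]
      rw [hσ, if_pos h7.2, h8, h9]
    · have h8 : res h (X.SN i H N₁) τ e = h := by unfold res; rw [if_neg h6]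
      rw [h8]
      exact (hσb e).2
  have e5 : cost σ w₂ ≤ cost (res h S₂ τ) w₂ := by
    refine cost_mono w₂ fun e he => ?_
    by_cases h6 : e ∈ S₂
    · have h8 : res h S₂ τ e = τ e := by unfold res; rw [if_pos h6]
      rw [h8, hσ]
      split_ifs with h7
      · have h10 : e ∈ X.SN i H (N₁ + N₂) := by
          have h11 : (e.1 - y, e.2) ∈ X.SN i H N₂ := h6
          obtain ⟨h12, h13⟩ := wedges_support w₂ he
          have h14 : ∀ v ∈ w₂.support, v ∈ w.support := fun v hv => by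
            rw [hwdef, SimpleGraph.Walk.mem_support_append_iff]
            exact Or.inr hv
          have h15 : 0 ≤ X.ff i (e.1 - y) := h11.1.1.1
          have h16 : 0 ≤ X.ff i (e.1 - y + dir e.2) := h11.1.2.1
          have h17 : e.1 - y + dir e.2 = (e.1 + dir e.2) - y := by abel
          rw [h17, Vtx.ff_sub] at h16
          rw [Vtx.ff_sub] at h15
          refine ⟨⟨⟨?_, hn' _ (h14 _ h12)⟩, ⟨?_, hn' _ (h14 _ h13)⟩⟩, h7⟩
          · linarith
          · linarith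
        have h9 : res h (X.SN i H (N₁ + N₂)) τ e = τ e := by unfold res; rw [if_pos h10]
        rw [h9]
      · exact ha.le.trans (hτ e).1
    · have h8 : res h S₂ τ e = h := by unfold res; rw [if_neg h6]
      rw [h8]
      exact (hσb e).2
  rw [e1]
  linarith

omit hs

/-! ### Numerical facts -/

private theorem Stop_exp (n : ℕ) (K : ℝ) : ∀ᶠ h : ℝ in atTop, K * h ^ n * Real.exp (-(h / 2)) ≤ 1 := by
  have h1 : Tendsto (fun h : ℝ => (h / 2) ^ n * Real.exp (-(h / 2))) atTop (𝓝 0) :=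
    (Real.tendsto_pow_mul_exp_neg_atTop_nhds_zero n).comp (tendsto_id.atTop_div_const (by norm_num))
  have h2 : Tendsto (fun h : ℝ => K * 2 ^ n * ((h / 2) ^ n * Real.exp (-(h / 2)))) atTop (𝓝 (K * 2 ^ n * 0)) :=
    h1.const_mul _
  rw [mul_zero] at h2
  filter_upwards [h2.eventually (gt_mem_nhds one_pos)] with h hh
  have h3 : K * h ^ n * Real.exp (-(h / 2)) = K * 2 ^ n * ((h / 2) ^ n * Real.exp (-(h / 2))) := by
    rw [div_pow]
    field_simp
  rw [h3]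
  exact hh.le

private theorem Stop_num (C d' : ℝ) (hC : 0 ≤ C) (hd : 0 ≤ d') : ∀ᶠ h : ℝ in atTop, ∀ (k : ℕ) (N : ℝ), 2 ≤ k → N ≤ h ^ k →
    C * (N + 1) + C ^ 2 + d' ≤ h ^ (k + 2) := by
  filter_upwards [eventually_ge_atTop (max 4 (max C d'))] with h hh
  have h4 : 4 ≤ h := (le_max_left _ _).trans hh
  have hC' : C ≤ h := (le_max_left _ _).trans ((le_max_right _ _).trans hh)
  have hd' : d' ≤ h := (le_max_right _ _).trans ((le_max_right _ _).trans hh)
  intro k N hk hN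
  have h1 : h ^ 2 ≤ h ^ k := pow_le_pow_right₀ (by linarith) hk
  have h2 : 1 ≤ h ^ k := one_le_pow₀ (by linarith)
  have h3 : C * (N + 1) ≤ h * (h ^ k + h ^ k) := by
    have h5 : C * (N + 1) ≤ C * (h ^ k + h ^ k) := mul_le_mul_of_nonneg_left (by linarith) hC
    exact h5.trans (mul_le_mul_of_nonneg_right hC' (by linarith))
  have h5 : C ^ 2 ≤ h ^ 2 := pow_le_pow_left₀ hC hC' 2
  have h6 : h ≤ h ^ 2 := by nlinarith
  have h7 : h ^ (k + 2) = h * h * h ^ k := by ring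
  have h8 : h ^ k * 4 ≤ h ^ k * h := mul_le_mul_of_nonneg_left h4 (by linarith)
  rw [h7]
  nlinarith

private theorem Stop_num2 (C : ℝ) (hC : 0 ≤ C) : ∀ᶠ h : ℝ in atTop, ∀ (k : ℕ) (s : ℝ), 16 ≤ k → s ≤ h ^ k →
    2 * C * (s + h ^ 16) ≤ h ^ (k + 2) := by
  filter_upwards [eventually_ge_atTop (max 4 C)] with h hh
  have h4 : 4 ≤ h := (le_max_left _ _).trans hh
  have hC' : C ≤ h := (le_max_right _ _).trans hh
  intro k s hk hs
  have h1 : h ^ 16 ≤ h ^ k := pow_le_pow_right₀ (by linarith) hk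
  have h2 : 0 ≤ h ^ k := by positivity
  have h3 : 2 * C * (s + h ^ 16) ≤ 2 * C * (h ^ k + h ^ k) := mul_le_mul_of_nonneg_left (by linarith) (by linarith)
  have h5 : 2 * C * (h ^ k + h ^ k) = 4 * C * h ^ k := by ring
  have h7 : h ^ (k + 2) = h * h * h ^ k := by ring
  rw [h5] at h3
  rw [h7]
  refine h3.trans (mul_le_mul_of_nonneg_right ?_ h2)
  exact mul_le_mul h4 hC' hC (by linarith)

/-! ### The choice of the stopping point -/

open Classical in
private noncomputable def Stop_arg (S : Set (V d)) (F : V d → ℝ) : V d :=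
  if h : ∃ q ∈ S, ∀ q' ∈ S, F q ≤ F q' then h.choose else 0

private theorem Stop_arg_spec {S : Set (V d)} (hS : S.Finite) (hne : S.Nonempty) (F : V d → ℝ) :
    Stop_arg S F ∈ S ∧ ∀ q' ∈ S, F (Stop_arg S F) ≤ F q' := by
  have h := Stop_min F hS hne
  have h1 : Stop_arg S F = h.choose := by
    unfold Stop_arg
    rw [dif_pos h]
  rw [h1]
  exact h.choose_spec

private theorem Stop_res_eq {b : ℝ} {A : Set (Edge d)} {τ τ' : Env d} (h : ∀ e ∈ A, τ e = τ' e) :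
    res b A τ = res b A τ' := by
  funext e
  unfold res
  by_cases he : e ∈ A
  · rw [if_pos he, if_pos he, h e he]
  · rw [if_neg he, if_neg he]

private theorem Stop_SN_Dn (i : Fin X.N) {H H' l : ℝ} {y : V d} (hH : H ≤ H') (hl : l ≤ X.ff i y) :
    X.SN i H l ⊆ Dn X i H' y := by
  rintro e ⟨⟨h1, h2⟩, h3⟩
  refine ⟨⟨?_, ?_⟩, h1.2.trans hH, ?_⟩
  · show X.ff i 0 ≤ X.ff i e.1
    rw [Vtx.ff_zero]
    exact h1.1
  · show X.ff i 0 ≤ X.ff i (e.1 + dir e.2)
    rw [Vtx.ff_zero]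
    exact h2.1
  · rintro ⟨h4, h5⟩
    have h4' : X.ff i y ≤ X.ff i e.1 := h4
    have h5' : X.ff i y ≤ X.ff i (e.1 + dir e.2) := h5
    rcases h3 with h3 | h3 <;> linarith

private theorem Stop_SN_Up (i : Fin X.N) {H H' l : ℝ} (hH : H ≤ H') : X.SN i H l ⊆ Up X i H' := by
  rintro e ⟨⟨h1, h2⟩, h3⟩
  refine ⟨⟨?_, ?_⟩, h1.2.trans hH⟩
  · show X.ff i 0 ≤ X.ff i e.1
    rw [Vtx.ff_zero]
    exact h1.1
  · show X.ff i 0 ≤ X.ff i (e.1 + dir e.2)
    rw [Vtx.ff_zero]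
    exact h2.1

/-- The event `V_j`, `R l` is the restriction of the environment to the edges of level `< l`. -/
private def Stop_V (X : Vtx d) (i : Fin X.N) (H N Y : ℝ) (R : ℝ → Env d) (j : ℕ) : Prop :=
  ((j : ℝ) + 1) * X.C ≤ N ∧ ∃ q ∈ X.Lv i H (((j : ℝ) + 1) * X.C),
    T (R (((j : ℝ) + 1) * X.C)) 0 q ≤ X.ff i q + X.C - Y

open Classical in
/-- The level of the stopping point. -/
private noncomputable def Stop_L (X : Vtx d) (i : Fin X.N) (H N Y : ℝ) (R : ℝ → Env d) : ℝ :=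
  if hV : ∃ j, Stop_V X i H N Y R j then (((Nat.find hV : ℕ) : ℝ) + 1) * X.C else N

open Classical in
/-- The stopping point. -/
private noncomputable def Stop_Y (X : Vtx d) (i : Fin X.N) (H N Y : ℝ) (R : ℝ → Env d) : V d :=
  if ∃ j, Stop_V X i H N Y R j then
    Stop_arg (X.Lv i H (Stop_L X i H N Y R)) (fun q => T (R (Stop_L X i H N Y R)) 0 q - X.ff i q)
  else Stop_arg (X.Lv i H N) (fun q => T (R N) 0 q)

private theorem Stop_L_le (X : Vtx d) (i : Fin X.N) (H N Y : ℝ) (R : ℝ → Env d) : Stop_L X i H N Y R ≤ N := by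
  classical
  unfold Stop_L
  split_ifs with hV
  · exact (Nat.find_spec hV).1
  · exact le_rfl

private theorem Stop_L_nonneg (X : Vtx d) (i : Fin X.N) (H : ℝ) {N : ℝ} (hN : 0 ≤ N) (hC : 0 ≤ X.C) (Y : ℝ)
    (R : ℝ → Env d) : 0 ≤ Stop_L X i H N Y R := by
  classical
  unfold Stop_L
  split_ifs with hV
  · positivity
  · exact hN

private theorem Stop_congr (X : Vtx d) (i : Fin X.N) (H N Y : ℝ) (hC : 0 ≤ X.C) {R R' : ℝ → Env d}
    (h : ∀ l ≤ Stop_L X i H N Y R, R l = R' l) :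
    ((∃ j, Stop_V X i H N Y R j) ↔ ∃ j, Stop_V X i H N Y R' j) ∧
      Stop_L X i H N Y R = Stop_L X i H N Y R' ∧ Stop_Y X i H N Y R = Stop_Y X i H N Y R' := by
  classical
  by_cases hV : ∃ j, Stop_V X i H N Y R j
  · have hL : Stop_L X i H N Y R = (((Nat.find hV : ℕ) : ℝ) + 1) * X.C := by
      unfold Stop_L
      rw [dif_pos hV]
    have h1 : ∀ k, k ≤ Nat.find hV → (Stop_V X i H N Y R k ↔ Stop_V X i H N Y R' k) := by
      intro k hk
      have h2 : ((k : ℝ) + 1) * X.C ≤ Stop_L X i H N Y R := by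
        rw [hL]
        have h3 : (k : ℝ) ≤ ((Nat.find hV : ℕ) : ℝ) := by exact_mod_cast hk
        exact mul_le_mul_of_nonneg_right (by linarith) hC
      unfold Stop_V
      rw [h _ h2]
    have hV' : ∃ j, Stop_V X i H N Y R' j := ⟨_, (h1 _ le_rfl).1 (Nat.find_spec hV)⟩
    have h4 : Nat.find hV' = Nat.find hV := by
      rw [Nat.find_eq_iff]
      refine ⟨(h1 _ le_rfl).1 (Nat.find_spec hV), fun n hn hc => Nat.find_min hV hn ((h1 n hn.le).2 hc)⟩
    have hL' : Stop_L X i H N Y R' = Stop_L X i H N Y R := by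
      rw [hL]
      unfold Stop_L
      rw [dif_pos hV', h4]
    refine ⟨⟨fun _ => hV', fun _ => hV⟩, hL'.symm, ?_⟩
    unfold Stop_Y
    rw [if_pos hV, if_pos hV', hL', h _ le_rfl]
  · have hL : Stop_L X i H N Y R = N := by
      unfold Stop_L
      rw [dif_neg hV]
    rw [hL] at h
    have hV' : ¬ ∃ j, Stop_V X i H N Y R' j := by
      rintro ⟨j, hj⟩
      apply hV
      refine ⟨j, hj.1, ?_⟩
      rw [h _ hj.1]
      exact hj.2
    have hL' : Stop_L X i H N Y R' = N := by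
      unfold Stop_L
      rw [dif_neg hV']
    refine ⟨⟨fun h => absurd h hV, fun h => absurd h hV'⟩, by rw [hL, hL'], ?_⟩
    unfold Stop_Y
    rw [if_neg hV, if_neg hV', h _ le_rfl]

private theorem Stop_Y_mem (X : Vtx d) (i : Fin X.N) (H : ℝ) {N : ℝ} (hN : 0 ≤ N) (hC : 0 ≤ X.C) (Y : ℝ)
    (hne : ∀ l, 0 ≤ l → l ≤ N → (X.Lv i H l).Nonempty)
    (R : ℝ → Env d) : Stop_Y X i H N Y R ∈ X.Lv i H (Stop_L X i H N Y R) := by
  classical
  by_cases hV : ∃ j, Stop_V X i H N Y R j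
  · unfold Stop_Y
    rw [if_pos hV]
    exact (Stop_arg_spec (finite_Lv i H _) (hne _ (Stop_L_nonneg X i H hN hC Y R) (Stop_L_le X i H N Y R)) _).1
  · have hL : Stop_L X i H N Y R = N := by
      unfold Stop_L
      rw [dif_neg hV]
    rw [hL]
    unfold Stop_Y
    rw [if_neg hV]
    exact (Stop_arg_spec (finite_Lv i H _) (hne _ hN le_rfl) _).1

/-- If `V_j` occurs, the stopping point is cheap. -/
private theorem Stop_Y_cheap (X : Vtx d) (i : Fin X.N) (H : ℝ) {N : ℝ} (hN : 0 ≤ N) (hC : 0 ≤ X.C) (Y : ℝ)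
    (hne : ∀ l, 0 ≤ l → l ≤ N → (X.Lv i H l).Nonempty) (R : ℝ → Env d) (hV : ∃ j, Stop_V X i H N Y R j) :
    T (R (Stop_L X i H N Y R)) 0 (Stop_Y X i H N Y R) - X.ff i (Stop_Y X i H N Y R) ≤ X.C - Y := by
  classical
  have h1 := (Stop_arg_spec (finite_Lv i H (Stop_L X i H N Y R)) (hne _ (Stop_L_nonneg X i H hN hC Y R)
    (Stop_L_le X i H N Y R)) (fun q => T (R (Stop_L X i H N Y R)) 0 q - X.ff i q)).2
  have h2 : Stop_Y X i H N Y R =
      Stop_arg (X.Lv i H (Stop_L X i H N Y R)) (fun q => T (R (Stop_L X i H N Y R)) 0 q - X.ff i q) := by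
    unfold Stop_Y
    rw [if_pos hV]
  rw [← h2] at h1
  have hL : Stop_L X i H N Y R = (((Nat.find hV : ℕ) : ℝ) + 1) * X.C := by
    unfold Stop_L
    rw [dif_pos hV]
  obtain ⟨-, q, hq, h3⟩ := Nat.find_spec hV
  rw [← hL] at hq h3
  have h4 := h1 q hq
  linarith

/-- If no `V_j` occurs, the stopping point realises the first passage cost of the level `N`. -/
private theorem Stop_Y_last (X : Vtx d) (i : Fin X.N) (H N Y : ℝ) (hne : (X.Lv i H N).Nonempty)
    (R : ℝ → Env d) (hV : ¬ ∃ j, Stop_V X i H N Y R j) :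
    Stop_L X i H N Y R = N ∧ T (R N) 0 (Stop_Y X i H N Y R) ≤ ⨅ p : X.Lv i H N, T (R N) 0 p := by
  classical
  refine ⟨by unfold Stop_L; rw [dif_neg hV], ?_⟩
  have h1 := (Stop_arg_spec (finite_Lv i H N) hne (fun q => T (R N) 0 q)).2
  have h2 : Stop_Y X i H N Y R = Stop_arg (X.Lv i H N) (fun q => T (R N) 0 q) := by
    unfold Stop_Y
    rw [if_neg hV]
  rw [← h2] at h1
  have := hne.to_subtype
  exact le_ciInf fun p => h1 p p.2

/-- The lucky event. -/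
def Lk (X : Vtx d) (i : Fin X.N) (D : ℕ) (h N Y : ℝ) (τ : Env d) : Prop :=
  ∃ q, nm q ≤ h ^ (D + 8) ∧ X.ff i q ≤ N ∧ T (res h (X.Rg i (h ^ (D + 8))) τ) 0 q ≤ X.ff i q - Y

open Classical in
/-- The stopping inequality. PROOF. `H = h ^ (D + 8)`, levels `l_j = j C`, `j ≥ 1`, `l_j ≤ N`. `V_j`: there is `q' ∈ Lv l_j` with
`T (res h (SN i H l_j) τ) 0 q' ≤ ff q' + C - Y`. On `LT` the event `Lk` is contained in the union of the `V_j` (for `q` with
`l_j ≤ ff q < l_{j+1}` use `first_level` with `N = l_j`; if `ff q < l_1 = C` then `Y ≤ C` and the statement is trivial).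
Strategy: `J` = the first `j` such that `V_j` holds, `Y' τ` = a minimiser over `Lv l_J` of `T (res h (SN i H l_J) τ) 0 q - ff q`
(fixed rule), `A` = its passage time; if no `V_j` holds, `Y'` = a minimiser over `Lv N`, `A = UN i H h N`. `{Y' = y}` depends on the
edges of `SN i H l_j` for levels `l_j ≤ ff y`. By `renewal` `-1 ≤ E (A - ff Y') ≤ -(Y - C) P(∪ V_j) + E [(UN - N)_+ ; no V_j]`
and `{no V_j} ⊆ {not (Lk and LT)}`. -/
theorem stop (hX : IsVtx X μ) (hmu : MuM μ m) (hN : HasN Q m) (D : ℕ) (hD : 1000 ≤ D) (i : Fin X.N) :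
    ∃ C₁ : ℝ, 1 ≤ C₁ ∧ ∀ᶠ h : ℝ in atTop, ∀ (a : ℝ) (M : Mdl d a h), GoodN Q m (2 * D + 200) M →
      ∀ N Y : ℝ, 1 ≤ N → N ≤ h ^ (D + 2) → 0 ≤ Y → Y ≤ h ^ (D + 3) →
        Y * M.P (Lk X i D h N Y) ≤ C₁ + M.E (fun τ =>
          if Lk X i D h N Y τ ∧ LT μ (2 * D + 190) h τ then 0 else max (X.UN i (h ^ (D + 8)) h N τ - N) 0) := by
  have hC := one_le_C hX
  have hC0 : 0 ≤ X.C := by linarith
  refine ⟨X.C + 2, by linarith, ?_⟩
  filter_upwards [eventually_ge_atTop 4, Stop_exp (D + 3) 1, Stop_num X.C d hC0 (Nat.cast_nonneg d),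
    Stop_num2 X.C hC0, first_level (mu_neg hmu hN) hX (2 * D + 188) (by omega), renewal hX hmu hN D hD i,
    LT_prob hmu hN (2 * D + 190) (by omega)] with h h4 hexp hnum hnum2 hfl hren hLTp
  intro a M hM N Y hN1 hNh hY0 hYh
  have h1 : (1 : ℝ) ≤ h := by linarith
  have ha := hM.apos
  have hah := hM.alt
  obtain ⟨H, hHdef⟩ : ∃ H : ℝ, H = h ^ (D + 8) := ⟨_, rfl⟩
  obtain ⟨LK, hLK⟩ : ∃ LK : Env d → Prop, ∀ τ, LK τ ↔ Lk X i D h N Y τ := ⟨_, fun _ => Iff.rfl⟩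
  obtain ⟨LTT, hLTT⟩ : ∃ LTT : Env d → Prop, ∀ τ, LTT τ ↔ LT μ (2 * D + 190) h τ := ⟨_, fun _ => Iff.rfl⟩
  have eLK : Lk X i D h N Y = LK := funext fun τ => propext (hLK τ).symm
  have eLTT : LT μ (2 * D + 190) h = LTT := funext fun τ => propext (hLTT τ).symm
  rw [eLK, ← hHdef]
  rw [eLTT]
  have hUN0 : ∀ τ, 0 ≤ max (X.UN i H h N τ - N) 0 := fun τ => le_max_right _ _
  have hE0 : 0 ≤ M.E (fun τ => if LK τ ∧ LTT τ then 0 else max (X.UN i H h N τ - N) 0) := by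
    refine M.E_nonneg fun τ _ => ?_
    split_ifs
    · exact le_rfl
    · exact hUN0 τ
  rcases le_or_gt Y X.C with hYC | hYC
  · have h5 : Y * M.P LK ≤ X.C * 1 := mul_le_mul hYC (M.P_le_one _) (M.P_nonneg _) hC0
    linarith
  -- the sizes
  have hne : ∀ l, 0 ≤ l → l ≤ N → (X.Lv i H l).Nonempty := by
    intro l hl0 hl
    refine Stop_ne hX i hl0 ?_
    have h5 := hnum (D + 2) l (by omega) (hl.trans hNh)
    refine h5.trans ?_
    rw [hHdef]
    exact pow_le_pow_right₀ h1 (by omega)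
  have hHH : H ≤ h ^ (D + 10) := by
    rw [hHdef]
    exact pow_le_pow_right₀ h1 (by omega)
  have hN0 : 0 ≤ N := by linarith
  obtain ⟨R, hR⟩ : ∃ R : Env d → ℝ → Env d, ∀ τ l, R τ l = res h (X.SN i H l) τ := ⟨_, fun _ _ => rfl⟩
  obtain ⟨y', hy'⟩ : ∃ y' : Env d → V d, ∀ τ, y' τ = Stop_Y X i H N Y (R τ) := ⟨_, fun _ => rfl⟩
  obtain ⟨A, hA⟩ : ∃ A : Env d → ℝ, ∀ τ, A τ = T (R τ (Stop_L X i H N Y (R τ))) 0 (Stop_Y X i H N Y (R τ)) :=
    ⟨_, fun _ => rfl⟩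
  obtain ⟨VV, hVV⟩ : ∃ VV : Env d → Prop, ∀ τ, VV τ ↔ ∃ j, Stop_V X i H N Y (R τ) j := ⟨_, fun _ => Iff.rfl⟩
  have hmem : ∀ τ, y' τ ∈ X.Lv i H (Stop_L X i H N Y (R τ)) := by
    intro τ
    rw [hy']
    exact Stop_Y_mem X i H hN0 hC0 Y hne (R τ)
  have hren' := hren a M hM y' A ?_ ?_ ?_ ?_
  rotate_left
  · intro τ
    obtain ⟨m1, m2, m3⟩ := hmem τ
    exact ⟨m3.trans hHH, (Stop_L_nonneg X i H hN0 hC0 Y (R τ)).trans m1⟩
  · intro y τ τ' hττ
    have key : ∀ τ τ' : Env d, (∀ e ∈ Dn X i (h ^ (D + 10)) y, τ e = τ' e) → y' τ = y → y' τ' = y := by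
      intro τ τ' h5 h6
      have h7 : Stop_L X i H N Y (R τ) ≤ X.ff i y := by
        rw [← h6]
        exact (hmem τ).1
      have h8 : ∀ l ≤ Stop_L X i H N Y (R τ), R τ l = R τ' l := by
        intro l hl
        rw [hR, hR]
        exact Stop_res_eq fun e he => h5 e (Stop_SN_Dn i hHH (hl.trans h7) he)
      rw [hy', ← (Stop_congr X i H N Y hC0 h8).2.2, ← hy']
      exact h6
    exact propext ⟨key τ τ' hττ, key τ' τ fun e he => (hττ e he).symm⟩
  · intro τ τ' hττ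
    have h8 : ∀ l, R τ l = R τ' l := by
      intro l
      rw [hR, hR]
      exact Stop_res_eq fun e he => hττ e (Stop_SN_Up i hHH he)
    have h9 : R τ = R τ' := funext h8
    rw [hA, hA, h9]
  · intro τ hτ
    rw [hA, hy', hR]
    exact T_le_res ha.le hτ _ _ _
  -- pointwise bound
  have hpt : ∀ τ, Bd a h τ → A τ - X.ff i (y' τ) ≤
      -(Y - X.C) * (if VV τ then 1 else 0) + if VV τ then 0 else max (X.UN i H h N τ - N) 0 := by
    intro τ hτ
    by_cases hv : VV τ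
    · rw [if_pos hv, if_pos hv, hA, hy']
      have h5 := Stop_Y_cheap X i H hN0 hC0 Y hne (R τ) ((hVV τ).1 hv)
      linarith
    · rw [if_neg hv, if_neg hv]
      obtain ⟨h5, h6⟩ := Stop_Y_last X i H N Y (hne N hN0 le_rfl) (R τ) fun hc => hv ((hVV τ).2 hc)
      have h7 : N ≤ X.ff i (y' τ) := by
        have h8 := (hmem τ).1
        rwa [h5] at h8
      have h9 : A τ ≤ X.UN i H h N τ := by
        rw [hA, h5]
        refine h6.trans (le_of_eq ?_)
        unfold Vtx.UN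
        rw [hR]
      have h10 := le_max_left (X.UN i H h N τ - N) 0
      linarith
  have hE1 : M.E A - M.E (fun τ => X.ff i (y' τ)) ≤
      -(Y - X.C) * M.P VV + M.E (fun τ => if VV τ then 0 else max (X.UN i H h N τ - N) 0) := by
    rw [← M.E_sub, M.P_def, ← M.E_mul_left, ← M.E_add]
    exact M.E_mono fun τ hτ => hpt τ hτ
  have hsub : ∀ τ, Bd a h τ → LK τ → LTT τ → VV τ := by
    intro τ hτ hlk hlt
    obtain ⟨q, hq1, hq2, hq3⟩ := (hLK τ).1 hlk
    rw [← hHdef] at hq3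
    have hb := Bd_res hah hτ (X.Rg i H)
    have hq0 : 0 ≤ X.ff i q - Y := (T_nonneg hb ha.le 0 q).trans hq3
    have hCpos : 0 < X.C := by linarith
    obtain ⟨j, hj⟩ : ∃ j : ℕ, ((j : ℝ) + 1) * X.C ≤ X.ff i q ∧ X.ff i q < ((j : ℝ) + 2) * X.C := by
      have h5 : 1 ≤ X.ff i q / X.C := by
        rw [le_div_iff₀ hCpos]
        linarith
      have h6 : 1 ≤ ⌊X.ff i q / X.C⌋₊ := by
        rw [Nat.le_floor_iff (by linarith)]
        exact_mod_cast h5
      obtain ⟨k, hk⟩ : ∃ k, ⌊X.ff i q / X.C⌋₊ = k + 1 := ⟨_, (Nat.sub_add_cancel h6).symm⟩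
      have h7 : ((k : ℝ) + 1) ≤ X.ff i q / X.C := by
        have h8 := Nat.floor_le (show 0 ≤ X.ff i q / X.C by linarith)
        rw [hk] at h8
        push_cast at h8
        exact h8
      have h9 : X.ff i q / X.C < (k : ℝ) + 2 := by
        have h8 := Nat.lt_floor_add_one (X.ff i q / X.C)
        rw [hk] at h8
        push_cast at h8
        linarith
      refine ⟨k, ?_, ?_⟩
      · rwa [le_div_iff₀ hCpos] at h7
      · rwa [div_lt_iff₀ hCpos] at h9
    have hs1 : X.ff i q - Y ≤ h ^ (D + 4) := by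
      have h5 : h ^ (D + 2) ≤ h ^ (D + 4) := pow_le_pow_right₀ h1 (by omega)
      linarith
    have hlevel : 0 < ((j : ℝ) + 1) * X.C := by positivity
    obtain ⟨q', hq', hT'⟩ := hfl a τ ha hah hτ ((hLTT τ).1 hlt) i H (((j : ℝ) + 1) * X.C) (X.ff i q - Y) q hlevel
      hj.1 (hs1.trans (pow_le_pow_right₀ h1 (by omega))) hq3
      ((hnum2 (D + 4) _ (by omega) hs1).trans (by rw [hHdef]; exact pow_le_pow_right₀ h1 (by omega)))
    refine (hVV τ).2 ⟨j, hj.1.trans hq2, q', hq', ?_⟩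
    rw [hR]
    have h5 := hq'.1
    have h6 := hj.2
    have h7 : ((j : ℝ) + 2) * X.C = ((j : ℝ) + 1) * X.C + X.C := by ring
    linarith
  have hP1 : M.P LK ≤ M.P VV + M.P (fun τ => ¬ LTT τ) := by
    refine (M.P_mono fun τ hτ hlk => ?_).trans (M.P_or _ _)
    by_cases hlt : LTT τ
    · exact Or.inl (hsub τ hτ hlk hlt)
    · exact Or.inr hlt
  have hP2 : Y * M.P (fun τ => ¬ LTT τ) ≤ 1 := by
    have h5 := hLTp a M (hM.mono h1 (by omega))
    rw [eLTT] at h5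
    have h6 : Y * M.P (fun τ => ¬ LTT τ) ≤ h ^ (D + 3) * Real.exp (-(h / 2)) :=
      mul_le_mul hYh h5 (M.P_nonneg _) (by positivity)
    linarith
  have hE2 : M.E (fun τ => if VV τ then 0 else max (X.UN i H h N τ - N) 0) ≤
      M.E (fun τ => if LK τ ∧ LTT τ then 0 else max (X.UN i H h N τ - N) 0) := by
    refine M.E_mono fun τ hτ => ?_
    by_cases hv : VV τ
    · rw [if_pos hv]
      split_ifs
      · exact le_rfl
      · exact hUN0 τ
    · rw [if_neg hv, if_neg fun hc => hv (hsub τ hτ hc.1 hc.2)]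
  have hP3 : Y * M.P LK ≤ Y * M.P VV + 1 := by
    have h5 := mul_le_mul_of_nonneg_left hP1 hY0
    rw [mul_add] at h5
    linarith
  have hP4 : X.C * M.P VV ≤ X.C := by
    have h5 := mul_le_mul_of_nonneg_left (M.P_le_one VV) hC0
    linarith
  have h5 : -(Y - X.C) * M.P VV = -(Y * M.P VV) + X.C * M.P VV := by ring
  rw [h5] at hE1
  linarith

/-- Subadditivity of the mean overshoot (with offsets), up to the error `1`. PROOF. `H = h ^ (D + 8)`. Let `Y τ` be a minimiser of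
`UN i H h N₁` (`exists_UN`, fixed rule: `{Y = y}` depends on `SN i H N₁`, which is contained in `Dn X i H y`). On
`LT μ (2 D + 190)` take the walk `0 → Y τ` (edges: `SN i H N₁` or cost `h`) followed by the translated walk of
`UN i H h N₂ (sh (Y τ) τ)`; by `walk_near` all its vertices are in the box `h ^ (D + 7)`; cut it at its first vertex of level
`≥ N₁ + N₂` (`first_passage`): `UN (N₁ + N₂) τ ≤ UN N₁ τ + UN N₂ (sh (Y τ) τ)`. `(x + y)_+ ≤ x_+ + y_+` and `restart` with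
`A = max (UN N₂ - N₂ - z₂) 0`; off `LT` use `UN_le` and `LT_prob`. -/
theorem over_add' (hX : IsVtx X μ) (hmu : MuM μ m) (hN : HasN Q m) (D : ℕ) (hD : 1000 ≤ D) (i : Fin X.N) :
    ∀ᶠ h : ℝ in atTop, ∀ (a : ℝ) (M : Mdl d a h), GoodN Q m (2 * D + 200) M →
      ∀ N₁ N₂ z₁ z₂ : ℝ, 1 ≤ N₁ → 1 ≤ N₂ → N₁ ≤ h ^ (D + 1) → N₂ ≤ h ^ (D + 1) → 0 ≤ z₁ → 0 ≤ z₂ →
        M.E (fun τ => max (X.UN i (h ^ (D + 8)) h (N₁ + N₂) τ - (N₁ + N₂) - (z₁ + z₂)) 0)
          ≤ M.E (fun τ => max (X.UN i (h ^ (D + 8)) h N₁ τ - N₁ - z₁) 0)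
            + M.E (fun τ => max (X.UN i (h ^ (D + 8)) h N₂ τ - N₂ - z₂) 0) + 1 := by
  have hC := one_le_C hX
  have hC0 : 0 ≤ X.C := by linarith
  filter_upwards [eventually_ge_atTop 4, Stop_exp (D + 6) 1, Stop_num X.C d hC0 (Nat.cast_nonneg d),
    Stop_num2 X.C hC0, Stop_concat (mu_neg hmu hN) hX (2 * D + 188) (by omega),
    LT_prob hmu hN (2 * D + 190) (by omega)] with h h4 hexp hnum hnum2 hcc hLTp
  intro a M hM N₁ N₂ z₁ z₂ hN1 hN2 hNh1 hNh2 hz1 hz2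
  have h1 : (1 : ℝ) ≤ h := by linarith
  have h0 : (0 : ℝ) ≤ h := by linarith
  have ha := hM.apos
  have hah := hM.alt
  obtain ⟨H, hHdef⟩ : ∃ H : ℝ, H = h ^ (D + 8) := ⟨_, rfl⟩
  rw [← hHdef]
  have hstep : ∀ k : ℕ, 2 * h ^ k ≤ h ^ (k + 1) := by
    intro k
    have h5 : h ^ (k + 1) = h * h ^ k := by ring
    rw [h5]
    exact mul_le_mul_of_nonneg_right (by linarith) (by positivity)
  have hsize : ∀ l, l ≤ h ^ (D + 2) → X.C * (l + 1) + X.C ^ 2 + d ≤ h ^ (D + 4) := fun l hl =>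
    hnum (D + 2) l (by omega) hl
  have hpow : ∀ j k : ℕ, j ≤ k → h ^ j ≤ h ^ k := fun j k hjk => pow_le_pow_right₀ h1 hjk
  have hsizeH : ∀ l, l ≤ h ^ (D + 2) → X.C * (l + 1) + X.C ^ 2 + d ≤ H := fun l hl =>
    (hsize l hl).trans (by rw [hHdef]; exact hpow _ _ (by omega))
  have hUNle : ∀ τ, Bd a h τ → ∀ l, 0 ≤ l → l ≤ h ^ (D + 2) → X.UN i H h l τ ≤ h ^ (D + 5) := by
    intro τ hτ l hl0 hl
    have h5 := UN_le hX ha hah hτ i hl0 (hsizeH l hl)
    have h6 : h * (X.C * (l + 1) + X.C ^ 2 + d) ≤ h * h ^ (D + 4) := mul_le_mul_of_nonneg_left (hsize l hl) h0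
    have h7 : h * h ^ (D + 4) = h ^ (D + 5) := by ring
    rw [h7] at h6
    exact h5.trans h6
  have hNN : N₁ + N₂ ≤ h ^ (D + 2) := by
    have h5 := hstep (D + 1)
    linarith
  have hN1' : N₁ ≤ h ^ (D + 2) := hNh1.trans (hpow _ _ (by omega))
  have hN2' : N₂ ≤ h ^ (D + 2) := hNh2.trans (hpow _ _ (by omega))
  -- the stopping point
  obtain ⟨y, hy⟩ : ∃ y : Env d → V d, ∀ τ, y τ =
      Stop_arg (X.Lv i H N₁) (fun q => T (res h (X.SN i H N₁) τ) 0 q) := ⟨_, fun _ => rfl⟩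
  have hspec : ∀ τ, y τ ∈ X.Lv i H N₁ ∧ ∀ q ∈ X.Lv i H N₁,
      T (res h (X.SN i H N₁) τ) 0 (y τ) ≤ T (res h (X.SN i H N₁) τ) 0 q := by
    intro τ
    rw [hy]
    exact Stop_arg_spec (finite_Lv i H N₁) (Stop_ne hX i (by linarith) (hsizeH N₁ hN1')) _
  have hyT : ∀ τ, T (res h (X.SN i H N₁) τ) 0 (y τ) ≤ X.UN i H h N₁ τ := by
    intro τ
    have := (Stop_ne hX i (by linarith) (hsizeH N₁ hN1')).to_subtype
    exact le_ciInf fun p => (hspec τ).2 p p.2
  have hrest := restart (X := X) hM h1 i H (by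
      rw [hHdef]
      have h5 := hstep (D + 8)
      have h6 := hstep (D + 8 + 1)
      have h7 : h ^ (D + 8 + 1 + 1) ≤ h ^ (2 * D + 200 + 100) := hpow _ _ (by omega)
      linarith) y (fun τ => (hspec τ).1.2.2) (by
      intro v τ τ' hττ
      have key : ∀ τ τ' : Env d, (∀ e ∈ Dn X i H v, τ e = τ' e) → y τ = v → y τ' = v := by
        intro τ τ' h5 h6
        have h7 : N₁ ≤ X.ff i v := by
          rw [← h6]
          exact (hspec τ).1.1
        have h8 : res h (X.SN i H N₁) τ = res h (X.SN i H N₁) τ' :=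
          Stop_res_eq fun e he => h5 e (Stop_SN_Dn i le_rfl h7 he)
        rw [hy, ← h8, ← hy]
        exact h6
      exact propext ⟨key τ τ' hττ, key τ' τ fun e he => (hττ e he).symm⟩)
      (fun τ => max (X.UN i H h N₂ τ - N₂ - z₂) 0) (by
      intro τ τ' hττ
      have h5 : X.UN i H h N₂ τ = X.UN i H h N₂ τ' :=
        dependsOn_UN i H h N₂ fun e he => hττ e (Stop_SN_Up i le_rfl he)
      simp only [h5])
  obtain ⟨LTT, hLTT⟩ : ∃ LTT : Env d → Prop, ∀ τ, LTT τ ↔ LT μ (2 * D + 190) h τ := ⟨_, fun _ => Iff.rfl⟩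
  have eLTT : LT μ (2 * D + 190) h = LTT := funext fun τ => propext (hLTT τ).symm
  have hLTp' := hLTp a M (hM.mono h1 (by omega))
  rw [eLTT] at hLTp'
  classical
  have hpt : ∀ τ, Bd a h τ → max (X.UN i H h (N₁ + N₂) τ - (N₁ + N₂) - (z₁ + z₂)) 0 ≤
      max (X.UN i H h N₁ τ - N₁ - z₁) 0 + max (X.UN i H h N₂ (sh (y τ) τ) - N₂ - z₂) 0 +
        h ^ (D + 6) * (if ¬ LTT τ then 1 else 0) := by
    intro τ hτ
    have hτ' := Bd_sh hτ (y τ)
    have e1 := le_max_left (X.UN i H h N₁ τ - N₁ - z₁) 0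
    have e1' := le_max_right (X.UN i H h N₁ τ - N₁ - z₁) 0
    have e2 := le_max_left (X.UN i H h N₂ (sh (y τ) τ) - N₂ - z₂) 0
    have e2' := le_max_right (X.UN i H h N₂ (sh (y τ) τ) - N₂ - z₂) 0
    have hp6 : 0 ≤ h ^ (D + 6) := by positivity
    by_cases hlt : LTT τ
    · rw [if_neg (not_not.2 hlt), mul_zero, add_zero]
      obtain ⟨z, hz, hzU⟩ := exists_UN hX ha hah hτ' i (show 0 ≤ N₂ by linarith) (hsizeH N₂ hN2')
      have hs1 : X.UN i H h N₁ τ + X.UN i H h N₂ (sh (y τ) τ) ≤ h ^ (D + 6) := by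
        have h5 := hUNle τ hτ N₁ (by linarith) hN1'
        have h6 := hUNle _ hτ' N₂ (by linarith) hN2'
        have h7 := hstep (D + 5)
        linarith
      obtain ⟨q, hq, hqT⟩ := hcc a τ ha hah hτ ((hLTT τ).1 hlt) i H N₁ N₂
        (X.UN i H h N₁ τ + X.UN i H h N₂ (sh (y τ) τ)) (y τ) z (by linarith) (by linarith) (hspec τ).1.1 hz.1
        (hs1.trans (hpow _ _ (by omega))) (add_le_add (hyT τ) hzU.ge)
        ((hnum2 (D + 6) _ (by omega) hs1).trans (by rw [hHdef]))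
      have h5 := (UN_le_of_mem ha hah hτ i hq).trans hqT
      exact max_le (by linarith) (by linarith)
    · rw [if_pos hlt, mul_one]
      have h5 := hUNle τ hτ (N₁ + N₂) (by linarith) hNN
      have h6 := hpow (D + 5) (D + 6) (by omega)
      exact max_le (by linarith) (by linarith)
  have hE : M.E (fun τ => max (X.UN i H h (N₁ + N₂) τ - (N₁ + N₂) - (z₁ + z₂)) 0) ≤
      M.E (fun τ => max (X.UN i H h N₁ τ - N₁ - z₁) 0) +
        M.E (fun τ => max (X.UN i H h N₂ (sh (y τ) τ) - N₂ - z₂) 0) +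
        h ^ (D + 6) * M.P (fun τ => ¬ LTT τ) := by
    rw [M.P_def, ← M.E_mul_left, ← M.E_add, ← M.E_add]
    exact M.E_mono fun τ hτ => by
      have h5 := hpt τ hτ
      split_ifs at h5 ⊢ <;> exact h5
  have hlast : h ^ (D + 6) * M.P (fun τ => ¬ LTT τ) ≤ 1 := by
    have h5 := mul_le_mul_of_nonneg_left hLTp' (show 0 ≤ h ^ (D + 6) by positivity)
    linarith
  have hrest' : M.E (fun τ => max (X.UN i H h N₂ (sh (y τ) τ) - N₂ - z₂) 0) =
      M.E (fun τ => max (X.UN i H h N₂ τ - N₂ - z₂) 0) := hrest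
  linarith

theorem over_add (hX : IsVtx X μ) (hmu : MuM μ m) (hN : HasN Q m) (D : ℕ) (hD : 1000 ≤ D) (i : Fin X.N) :
    ∀ᶠ h : ℝ in atTop, ∀ (a : ℝ) (M : Mdl d a h), GoodN Q m (2 * D + 200) M →
      ∀ N₁ N₂ : ℝ, 1 ≤ N₁ → 1 ≤ N₂ → N₁ ≤ h ^ (D + 1) → N₂ ≤ h ^ (D + 1) →
        M.E (fun τ => max (X.UN i (h ^ (D + 8)) h (N₁ + N₂) τ - (N₁ + N₂)) 0)
          ≤ M.E (fun τ => max (X.UN i (h ^ (D + 8)) h N₁ τ - N₁) 0)
            + M.E (fun τ => max (X.UN i (h ^ (D + 8)) h N₂ τ - N₂) 0) + 1 := by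
  filter_upwards [over_add' hX hmu hN D hD i] with h hh a M hM N₁ N₂ h1 h2 h3 h4
  have h5 := hh a M hM N₁ N₂ 0 0 h1 h2 h3 h4 le_rfl le_rfl
  simpa using h5

end Pool.Agent.W_1b8d5d_nd

end

/-! ### UNG -/

section

/-!
MP_1b8d5d_pr, [ND], section 4: passing a level.
-/

set_option autoImplicit false

namespace Pool.Agent.W_1b8d5d_nd

open Finset Filter Topology
open Pool.Agent.W_1b8d5d_h85 (Ex Pr Vr avg)

variable {d : ℕ} [NeZero d] {X : Vtx d} {μ : (Fin d → ℝ) → ℝ} {Q : Qn} {m : V d → ℝ}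

/-- Every edge of a walk has an end point which is not the last vertex of the walk. -/
private theorem UNG_end {x y : V d} (w : (grid d).Walk x y) {e : Edge d} (he : e ∈ wedges w) :
    ∃ j < w.length, e.1 = w.getVert j ∨ e.1 + dir e.2 = w.getVert j := by
  obtain ⟨e', he', rfl⟩ := List.mem_map.1 he
  obtain ⟨i, hi, h1⟩ := List.getElem_of_mem he'
  rw [SimpleGraph.Walk.length_edges] at hi
  rw [SimpleGraph.Walk.getElem_edges] at h1
  refine ⟨i, hi, ?_⟩
  rw [← h1]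
  obtain ⟨s, h | h⟩ := w.adj_getVert_succ hi
  · left
    rw [h, ke_dir]
  · right
    rw [h, ke_dir']

/-- The error at distance `6 C s` is small with respect to `s`. -/
private theorem UNG_er (C ε : ℝ) (hC : 1 ≤ C) (hε : 0 < ε) : ∀ᶠ h : ℝ in atTop, ∀ s : ℝ, h ^ 20 ≤ s →
    C + er h (6 * C * s) ≤ ε * s := by
  have h1 : Tendsto (fun h : ℝ => ε / 3 * h ^ 3) atTop atTop :=
    (tendsto_pow_atTop (by norm_num)).const_mul_atTop (by positivity)
  filter_upwards [eventually_ge_atTop (1 : ℝ), eventually_ge_atTop C, eventually_ge_atTop (3 / ε),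
    h1.eventually_ge_atTop (√(6 * C))] with h g1 g2 g3 g4 s hs
  have hh : 0 < h := by linarith
  have e1 : 1 ≤ ε / 3 * h := by
    rw [div_le_iff₀ hε] at g3
    linarith
  have hs0 : 0 < s := lt_of_lt_of_le (by positivity) hs
  have e2 : h ^ 12 ≤ ε / 3 * s := by
    calc h ^ 12 = 1 * h ^ 12 := (one_mul _).symm
      _ ≤ ε / 3 * h * h ^ 12 := mul_le_mul_of_nonneg_right e1 (by positivity)
      _ = ε / 3 * h ^ 13 := by ring
      _ ≤ ε / 3 * h ^ 20 := mul_le_mul_of_nonneg_left (pow_le_pow_right₀ g1 (by norm_num)) (by positivity)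
      _ ≤ ε / 3 * s := mul_le_mul_of_nonneg_left hs (by positivity)
  have e3 : C ≤ ε / 3 * s := by
    have e4 : h ≤ h ^ 12 := by
      calc h = h ^ 1 := (pow_one h).symm
        _ ≤ h ^ 12 := pow_le_pow_right₀ g1 (by norm_num)
    linarith
  have e5 : h ^ 10 ≤ √s := by
    refine Real.le_sqrt_of_sq_le ?_
    calc (h ^ 10) ^ 2 = h ^ 20 := by ring
      _ ≤ s := hs
  have e6 : √(6 * C * s) = √(6 * C) * √s := Real.sqrt_mul (by linarith) s
  have e7 : h ^ 7 * √(6 * C * s) ≤ ε / 3 * s := by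
    rw [e6]
    have hsq : √s * √s = s := Real.mul_self_sqrt hs0.le
    have hs1 : 0 ≤ √s := Real.sqrt_nonneg s
    calc h ^ 7 * (√(6 * C) * √s) ≤ h ^ 7 * (ε / 3 * h ^ 3 * √s) :=
          mul_le_mul_of_nonneg_left (mul_le_mul_of_nonneg_right g4 hs1) (by positivity)
      _ = ε / 3 * (h ^ 10 * √s) := by ring
      _ ≤ ε / 3 * (√s * √s) :=
          mul_le_mul_of_nonneg_left (mul_le_mul_of_nonneg_right e5 hs1) (by positivity)
      _ = ε / 3 * s := by rw [hsq]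
  unfold er
  linarith

private theorem UNG_er_mono {h r r' : ℝ} (h0 : 0 ≤ h) (hr : r ≤ r') : er h r ≤ er h r' := by
  unfold er
  have h1 : √r ≤ √r' := Real.sqrt_le_sqrt hr
  have h2 : h ^ 7 * √r ≤ h ^ 7 * √r' := mul_le_mul_of_nonneg_left h1 (by positivity)
  linarith

/-- Passing a level on the way to `z`. PROOF. Let `τ' = res h (Rg i H) τ` and `w` a geodesic of `τ'` from `0` to `z`:
`cost τ w ≤ cost τ' w = T τ' 0 z ≤ s` (`le_res`, `cost_mono`). `walk_near` (with `x = 0`): all `q ∈ w.support` have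
`nm q ≤ 2 C (s + h ^ 16) ≤ 3 C s ≤ H`. If `N = 0` then `0 ∈ Lv i H N` and `UN ≤ 0`, and `ff i z ≤ μ z ≤ T τ 0 z + er ≤ s + er`.
Otherwise let `q = w.getVert k` be the first vertex of level `≥ N` (`first_passage`, `ff_step`; level `< N + C`). An edge of
`w.take k` has an end point `w.getVert j` with `j < k`, of level `< N`, so it is in `SN i H N` iff it is in `Rg i H`:
`UN ≤ T (res h (SN i H N) τ) 0 q ≤ cost τ' (w.take k)`, and `cost τ' (w.take k) + cost τ' (w.drop k) = T τ' 0 z`: the first claim.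
For the second `cost τ' (w.drop k) ≥ T τ q z ≥ μ (z - q) - er h (nm (z - q))` (`LT`)
`≥ ff i z - ff i q - er h (6 C s)` (`ff_le_mu`), `ff i q ≤ N + C`, and `C + er h (6 C s) ≤ ε s` for `s ≥ h ^ 20` and `h` large. -/
theorem UN_pass (hs : ∀ x, μ (-x) = μ x) (hX : IsVtx X μ) (p : ℕ) (hp : 20 ≤ p) (ε : ℝ) (hε : 0 < ε) :
    ∀ᶠ h : ℝ in atTop, ∀ (a : ℝ) (τ : Env d), 0 < a → a ≤ h → Bd a h τ → LT μ (p + 2) h τ →
      ∀ (i : Fin X.N) (z : V d) (s N H : ℝ), 0 ≤ N → N ≤ X.ff i z → h ^ 20 ≤ s → s ≤ h ^ p → 3 * X.C * s ≤ H →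
        T (res h (X.Rg i H) τ) 0 z ≤ s →
        X.UN i H h N τ ≤ s ∧ X.UN i H h N τ ≤ s - (X.ff i z - N) + ε * s := by
  have hC := one_le_C hX
  filter_upwards [walk_near hs hX p (by omega), UNG_er X.C ε (by linarith) hε, eventually_ge_atTop (2 : ℝ),
    eventually_ge_atTop (3 * X.C)] with h hw her g1 g2 a τ ha hah hτ hLT i z s N H hN0 hNz hs20 hsp hsH hT
  have hh : (0 : ℝ) < h := by linarith
  have h1 : (1 : ℝ) ≤ h := by linarith
  have hs0 : 0 < s := lt_of_lt_of_le (by positivity) hs20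
  set τ' : Env d := res h (X.Rg i H) τ with hτ'
  have hB : Bd a h τ' := Bd_res hah hτ _
  obtain ⟨w, hwp, hwc⟩ := exists_geo hB ha 0 z
  have c1 : cost τ w ≤ cost τ' w := cost_mono w fun e _ => le_res hτ _ e
  have c2 : cost τ w ≤ s := by linarith
  have hnear : ∀ q ∈ w.support, nm q ≤ 3 * X.C * s := by
    intro q hq
    have e1 := hw a τ ha hτ hLT 0 z w s (by rw [nm_zero]; positivity) hs0.le hsp c2 q hq
    rw [sub_zero] at e1
    have e2 : h ^ 16 ≤ s / 2 := by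
      have e3 : (2 : ℝ) ≤ h ^ 4 := by
        calc (2 : ℝ) ≤ h ^ 1 := by simpa using g1
          _ ≤ h ^ 4 := pow_le_pow_right₀ h1 (by norm_num)
      have e4 : h ^ 16 * 2 ≤ h ^ 16 * h ^ 4 := mul_le_mul_of_nonneg_left e3 (by positivity)
      have e5 : h ^ 16 * h ^ 4 = h ^ 20 := by ring
      linarith
    have e6 : 2 * X.C * (s + h ^ 16) ≤ 2 * X.C * (s + s / 2) :=
      mul_le_mul_of_nonneg_left (by linarith) (by linarith)
    calc nm q ≤ 2 * X.C * (s + h ^ 16) := e1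
      _ ≤ 2 * X.C * (s + s / 2) := e6
      _ = 3 * X.C * s := by ring
  have hCs : 3 * X.C * s ≤ h ^ (p + 2) := by
    calc 3 * X.C * s ≤ h * h ^ p := mul_le_mul g2 hsp hs0.le hh.le
      _ = h ^ (p + 1) := by ring
      _ ≤ h ^ (p + 2) := pow_le_pow_right₀ h1 (by omega)
  have hex : ∃ k ≤ w.length, N ≤ X.ff i (w.getVert k) ∧ X.ff i (w.getVert k) ≤ N + X.C ∧
      ∀ j < k, X.ff i (w.getVert j) < N := by
    rcases hN0.eq_or_lt with h0 | h0
    · refine ⟨0, Nat.zero_le _, ?_, ?_, fun j hj => absurd hj (Nat.not_lt_zero j)⟩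
      · rw [w.getVert_zero, Vtx.ff_zero, ← h0]
      · rw [w.getVert_zero, Vtx.ff_zero, ← h0]
        linarith
    · obtain ⟨k, hk, k1, k2, k3⟩ := first_passage (fun x => X.ff i x) X.C (fun x y hxy => ff_step hX i hxy) N w
        (by simpa [Vtx.ff_zero] using h0) hNz
      exact ⟨k, hk, k1, k2.le, k3⟩
  obtain ⟨k, hk, k1, k2, k3⟩ := hex
  have hqs : w.getVert k ∈ w.support := w.getVert_mem_support k
  have hq : w.getVert k ∈ X.Lv i H N := ⟨k1, k2, (hnear _ hqs).trans hsH⟩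
  have hsub : ∀ e ∈ wedges (w.take k), res h (X.SN i H N) τ e = τ' e := by
    intro e he
    obtain ⟨j, hj, hje⟩ := UNG_end (w.take k) he
    rw [SimpleGraph.Walk.take_length] at hj
    have hjk : j < k := lt_of_lt_of_le hj (min_le_left _ _)
    have hgv : (w.take k).getVert j = w.getVert j := by
      rw [SimpleGraph.Walk.take_getVert, min_eq_right hjk.le]
    have hlev : X.ff i ((w.take k).getVert j) < N := by
      rw [hgv]
      exact k3 j hjk
    rw [hτ']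
    unfold Pool.Agent.W_1b8d5d_gd.res
    by_cases hR : e ∈ X.Rg i H
    · have hS : e ∈ X.SN i H N := by
        refine ⟨hR, ?_⟩
        rcases hje with h2 | h2
        · left
          rw [h2]
          exact hlev
        · right
          rw [h2]
          exact hlev
      rw [if_pos hS, if_pos hR]
    · rw [if_neg hR, if_neg fun h2 => hR h2.1]
  have c3 : X.UN i H h N τ ≤ cost τ' (w.take k) := by
    refine (UN_le_of_mem ha hah hτ i hq).trans ?_
    rw [← cost_congr (w.take k) hsub]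
    exact T_le_cost (Bd_res hah hτ _) ha.le (w.take k)
  have c4 : cost τ' (w.take k) + cost τ' (w.drop k) = cost τ' w := by
    rw [← cost_append, SimpleGraph.Walk.append_take_drop_eq]
  have c5 : 0 ≤ cost τ' (w.drop k) := le_trans (by positivity) (le_cost hB (w.drop k))
  refine ⟨by linarith, ?_⟩
  have hz : nm z ≤ 3 * X.C * s := hnear z w.end_mem_support
  have hqn : nm (w.getVert k) ≤ 3 * X.C * s := hnear _ hqs
  have c6 : T τ (w.getVert k) z ≤ cost τ' (w.drop k) :=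
    (T_le_cost hτ ha.le (w.drop k)).trans (cost_mono _ fun e _ => le_res hτ _ e)
  have c7 := hLT (w.getVert k) z (hqn.trans hCs) (hz.trans hCs)
  have c8 := ff_le_mu hs hX i (z - w.getVert k)
  rw [Vtx.ff_sub] at c8
  have c9 := (abs_le.1 c8).2
  have c10 := le_abs_self (X.ff i z - X.ff i (w.getVert k))
  have c11 : nm (z - w.getVert k) ≤ 6 * X.C * s := by
    have e1 := nm_add_le z (-w.getVert k)
    rw [nm_neg, ← sub_eq_add_neg] at e1
    linarith
  have c12 := UNG_er_mono hh.le c11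
  have c13 := her s hs20
  linarith

/-- The box of the region does not matter. PROOF. A geodesic of `res h (Rg i H) τ` from `0` to `z` has `τ`-cost `≤ s`, so its
vertices are in the box `2 C (s + h ^ 16) ≤ H'` (`walk_near`); its edges in `Rg i H` are in `Rg i H'`. -/
theorem T_Rg_box (hs : ∀ x, μ (-x) = μ x) (hX : IsVtx X μ) (p : ℕ) (hp : 20 ≤ p) :
    ∀ᶠ h : ℝ in atTop, ∀ (a : ℝ) (τ : Env d), 0 < a → a ≤ h → Bd a h τ → LT μ (p + 2) h τ →
      ∀ (i : Fin X.N) (z : V d) (s H H' : ℝ), s ≤ h ^ p → 2 * X.C * (s + h ^ 16) ≤ H' →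
        T (res h (X.Rg i H) τ) 0 z ≤ s → T (res h (X.Rg i H') τ) 0 z ≤ s := by
  filter_upwards [walk_near hs hX p (by omega), eventually_ge_atTop (1 : ℝ)]
    with h hw g1 a τ ha hah hτ hLT i z s H H' hsp hsH hT
  have hh : (0 : ℝ) < h := by linarith
  set τ' : Env d := res h (X.Rg i H) τ with hτ'
  have hB : Bd a h τ' := Bd_res hah hτ _
  obtain ⟨w, hwp, hwc⟩ := exists_geo hB ha 0 z
  have hs0 : 0 ≤ s := (T_nonneg hB ha.le 0 z).trans hT
  have c1 : cost τ w ≤ cost τ' w := cost_mono w fun e _ => le_res hτ _ e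
  have c2 : cost τ w ≤ s := by linarith
  have hnear : ∀ q ∈ w.support, nm q ≤ H' := by
    intro q hq
    have e1 := hw a τ ha hτ hLT 0 z w s (by rw [nm_zero]; positivity) hs0 hsp c2 q hq
    rw [sub_zero] at e1
    exact e1.trans hsH
  refine (T_le_cost (Bd_res hah hτ _) ha.le w).trans (le_trans (cost_mono w fun e he => ?_) (hwc.le.trans hT))
  obtain ⟨s1, s2⟩ := wedges_support w he
  rw [hτ']
  by_cases hR : e ∈ X.Rg i H
  · have hR' : e ∈ X.Rg i H' := ⟨⟨hR.1.1, hnear _ s1⟩, ⟨hR.2.1, hnear _ s2⟩⟩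
    unfold Pool.Agent.W_1b8d5d_gd.res
    rw [if_pos hR, if_pos hR']
  · have e2 : Pool.Agent.W_1b8d5d_gd.res h (X.Rg i H) τ e = h := by
      unfold Pool.Agent.W_1b8d5d_gd.res
      rw [if_neg hR]
    rw [e2]
    exact (Bd_res hah hτ _ e).2

end Pool.Agent.W_1b8d5d_nd

end

/-! ### RCdef -/

section

/-!
MP_1b8d5d_pr, [ND], section 4: the event that the cheap balls are reached (used by `RCh`, `Lane1`).
-/

set_option autoImplicit false

namespace Pool.Agent.W_1b8d5d_nd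

open Finset Filter Topology
open Pool.Agent.W_1b8d5d_h85 (Ex Pr Vr avg)

variable {d : ℕ} [NeZero d] {X : Vtx d} {μ : (Fin d → ℝ) → ℝ} {Q : Qn} {m : V d → ℝ}

/-- All the points of the balls around `R • e` of radius `R` are reached cheaply in the half space region. -/
def RC (X : Vtx d) (i : Fin X.N) (e : Fin d → ℝ) (D : ℕ) (ε h : ℝ) (τ : Env d) : Prop :=
  ∀ (R : ℝ) (z : V d), h ^ 101 ≤ R → R ≤ h ^ (D + 5) → rn (toR z - R • e) ≤ R →
    T (res h (X.Rg i (h ^ (D + 8))) τ) 0 z ≤ X.ff i z + ε * R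

end Pool.Agent.W_1b8d5d_nd

end

/-! ### Lane1 -/

section

/-!
MP_1b8d5d_pr, [ND], section 4: the lanes; one good lane gives a cheap passage to the level `N` (deterministic).

The lanes start at `bp e (j * L)`, `j = 1, 2, ...`, where `e` is the centre of a cheap ball of `f i` and `L` is a multiple of
the width `W`.
-/

set_option autoImplicit false

namespace Pool.Agent.W_1b8d5d_nd

open Finset Filter Topology
open Pool.Agent.W_1b8d5d_h85 (Ex Pr Vr avg)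

variable {d : ℕ} [NeZero d] {X : Vtx d} {μ : (Fin d → ℝ) → ℝ}

/-- The lanes of width and margin `W` are good with probability `≥ 1/4` for all lengths up to `n`, with the excess `Z`. -/
def LaneOK (X : Vtx d) {a b : ℝ} (M : Mdl d a b) (n : ℕ) (Z W : ℝ) : Prop :=
  ∀ l : ℕ, l ≤ n → 1 / 4 ≤ M.P (fun τ => Reach (X.lane 0 l W W) τ 0 (X.rd l) (l + Z))

theorem LaneOK.mono {a b : ℝ} {M : Mdl d a b} {n n' : ℕ} {Z Z' W W' : ℝ} (h : LaneOK X M n Z W) (hn : n' ≤ n)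
    (hZ : Z ≤ Z') (hW : W ≤ W') : LaneOK X M n' Z' W' := by
  intro l hl
  refine (h l (hl.trans hn)).trans (M.P_mono fun τ _ hr => ?_)
  exact hr.mono (lane_mono 0 le_rfl hW hW) (by linarith)

/-- The length of the lane `j` for the level `N`. -/
noncomputable def ll (X : Vtx d) (i : Fin X.N) (e : Fin d → ℝ) (R N : ℝ) : ℕ := ⌈N - X.ff i (bp e R) + 2 * X.C⌉₊

/-- The event of the lane at `bp e R` for the level `N`: the level is below the lane, or the lane is good. -/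
def LG (X : Vtx d) (i : Fin X.N) (e : Fin d → ℝ) (Z W N R : ℝ) (τ : Env d) : Prop :=
  N ≤ X.ff i (bp e R) ∨ Reach (X.lane (bp e R) (ll X i e R N) W W) τ (bp e R)
    (bp e R + X.rd (ll X i e R N)) (ll X i e R N + Z)

/-- PROOF. `dependsOn_reach` (the first alternative does not depend on the environment). -/
theorem dependsOn_LG (i : Fin X.N) (e : Fin d → ℝ) (Z W N R : ℝ) :
    DependsOn (fun τ => LG X i e Z W N R τ) (X.lane (bp e R) (ll X i e R N) W W) := by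
  intro τ τ' h
  have h1 : Reach (X.lane (bp e R) (ll X i e R N) W W) τ (bp e R) (bp e R + X.rd (ll X i e R N)) (ll X i e R N + Z) =
      Reach (X.lane (bp e R) (ll X i e R N) W W) τ' (bp e R) (bp e R + X.rd (ll X i e R N)) (ll X i e R N + Z) :=
    dependsOn_reach (X.lane (bp e R) (ll X i e R N) W W) (bp e R) (bp e R + X.rd (ll X i e R N))
      (ll X i e R N + Z) h
  change LG X i e Z W N R τ = LG X i e Z W N R τ'
  unfold LG
  rw [h1]

/-- The probability of a good lane. PROOF. If `N ≤ ff i (bp e R)` the event is certain. Otherwise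
`ll ≤ N - ff i (bp e R) + 2 C + 1 ≤ N ≤ n`, shift by `bp e R` (`reach_sh`, `P_sh`) and `LaneOK`. -/
theorem P_LG {Q : Qn} {m : V d → ℝ} {p : ℕ} {a h : ℝ} {M : Mdl d a h} (hM : GoodN Q m p M) (i : Fin X.N)
    (e : Fin d → ℝ) {n : ℕ} {Z W N R : ℝ} (hl : LaneOK X M n Z W) (hN : N ≤ n)
    (hf : 2 * X.C + 1 ≤ X.ff i (bp e R)) : 1 / 4 ≤ M.P (fun τ => LG X i e Z W N R τ) := by
  have h1 : ll X i e R N ≤ n := by
    unfold ll
    exact Nat.ceil_le.2 (by linarith)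
  refine (hl _ h1).trans ?_
  rw [← P_sh hM (bp e R) fun τ => Reach (X.lane 0 (ll X i e R N) W W) τ 0 (X.rd (ll X i e R N))
    (ll X i e R N + Z)]
  exact M.P_mono fun τ _ hr => Or.inr ((reach_sh X _ _ _ _ _ _ τ).1 hr)

/-- the size of `s₀` -/
private theorem Lane1_a {C h R : ℝ} (hC : 4 ≤ C) (h1 : 1 ≤ h) (h3 : 16 * C ^ 2 + C ≤ h) (hR : h ^ 102 ≤ R) :
    (h ^ 20 + C) * (4 * C ^ 2) ≤ R := by
  have c1 : 0 ≤ C ^ 2 := sq_nonneg C
  have c2 : C ≤ C ^ 2 := le_self_pow₀ (by linarith only [hC]) two_ne_zero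
  have c3 : 1 ≤ C ^ 2 := by linarith only [hC, c2]
  have h0 : 0 ≤ h := by linarith only [h1]
  have c4 : 0 ≤ C := by linarith only [hC]
  have t2 : 1 ≤ h ^ 20 := one_le_pow₀ h1
  have t5 : h ^ 20 + C ≤ h ^ 20 * h := by
    have u1 : C ≤ h ^ 20 * C := le_mul_of_one_le_left c4 t2
    have u2 : h ^ 20 * (1 + C) ≤ h ^ 20 * h :=
      mul_le_mul_of_nonneg_left (by linarith only [h3, c3]) (by linarith only [t2])
    have u3 : h ^ 20 * (1 + C) = h ^ 20 + h ^ 20 * C := by rw [mul_add, mul_one]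
    linarith only [u1, u2, u3]
  have t6 : 4 * C ^ 2 ≤ h := by linarith only [h3, c1, c4]
  have t7 : 0 ≤ 4 * C ^ 2 := by linarith only [c1]
  have t8 : 0 ≤ h ^ 20 * h := mul_nonneg (by linarith only [t2]) h0
  have t4 : h ^ 20 * h * h ≤ h ^ 102 := by
    rw [← pow_succ, ← pow_succ]
    exact pow_le_pow_right₀ h1 (by norm_num)
  exact (mul_le_mul t5 t6 t7 t8).trans (t4.trans hR)

/-- the size of `s` -/
private theorem Lane1_b {C E ε R h P₀ P₁ P s : ℝ} (hC : 4 ≤ C) (hE : 0 ≤ C * E) (hε : 0 < ε) (h1 : 1 ≤ h)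
    (h3 : 16 * C ^ 2 + C ≤ h) (h4 : C * E + E + 20 * C + 10 + ε ≤ h) (hE0 : 0 ≤ E) (hR : R ≤ P) (hP : 1 ≤ P)
    (hP₀ : P₀ ≤ P) (hP₁ : P₁ ≤ P) (hs : s ≤ (C * E + 1 + ε) * R + (P₀ + 2 * C + 1) + P₁) :
    s ≤ P * h ∧ 3 * C * s ≤ P * h * (h * h) := by
  have h0 : 0 ≤ h := by linarith only [h1]
  have t1 : (C * E + 1 + ε) * R ≤ (C * E + 1 + ε) * P :=
    mul_le_mul_of_nonneg_left hR (by linarith only [hE, hε])
  have t2 : 2 * C + 1 ≤ (2 * C + 1) * P := le_mul_of_one_le_right (by linarith only [hC]) hP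
  have t3 : (C * E + 1 + ε) * P + (P + (2 * C + 1) * P) + P = (C * E + 2 * C + 4 + ε) * P := by ring
  have t4 : s ≤ (C * E + 2 * C + 4 + ε) * P := by linarith only [hs, t1, t2, t3, hP₀, hP₁]
  have t5 : (C * E + 2 * C + 4 + ε) * P ≤ h * P :=
    mul_le_mul_of_nonneg_right (by linarith only [h4, hE0, hC]) (by linarith only [hP])
  have t6 : s ≤ P * h := by
    rw [mul_comm P h]
    exact t4.trans t5
  have c2 : C ≤ C ^ 2 := le_self_pow₀ (by linarith only [hC]) two_ne_zero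
  have t7 : h ≤ h * h := le_mul_of_one_le_left h0 h1
  have t8 : 3 * C ≤ h * h := by linarith only [t7, h3, c2, hC]
  refine ⟨t6, ?_⟩
  rw [mul_comm (3 * C) s]
  refine mul_le_mul t6 t8 (by linarith only [hC]) (mul_nonneg (by linarith only [hP]) h0)

/-- the lane is in the region -/
private theorem Lane1_c {C W R F : ℝ} (hC : 4 ≤ C) (hW : 0 ≤ W) (hW1 : 8 * C ^ 3 * (W + 1) ≤ R)
    (hF : R / (4 * C ^ 2) - C ≤ F) : C * W + W ≤ F ∧ W ≤ R ∧ 0 ≤ F := by
  have c1 : 0 < 4 * C ^ 2 := by positivity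
  have w1 : 2 * C * (W + 1) ≤ R / (4 * C ^ 2) := by
    rw [le_div_iff₀ c1]
    refine le_trans (le_of_eq ?_) hW1
    ring
  have w2 : 2 * C * (W + 1) = 2 * (C * W) + 2 * C := by ring
  have w3 : W ≤ C * W := le_mul_of_one_le_left hW (by linarith only [hC])
  have w4 : C * W + W ≤ F := by linarith only [w1, w2, w3, hF, hC]
  refine ⟨w4, ?_, by linarith only [w4, w3, hW]⟩
  have w5 : 1 ≤ 8 * C ^ 3 := by
    have : 1 ≤ C ^ 3 := one_le_pow₀ (by linarith only [hC])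
    linarith only [this]
  have w6 : W + 1 ≤ 8 * C ^ 3 * (W + 1) := le_mul_of_one_le_left (by linarith only [hW]) w5
  linarith only [w6, hW1]

/-- the size of the lane -/
private theorem Lane1_d {C E ε R h P P₀ W N F l n : ℝ} (hC : 4 ≤ C) (hE : 0 ≤ C * E) (hE0 : 0 ≤ E) (hε : 0 < ε)
    (h3 : 16 * C ^ 2 + C ≤ h) (h4 : C * E + E + 20 * C + 10 + ε ≤ h) (hR : R ≤ P) (hP : 1 ≤ P) (hP₀ : P₀ ≤ P)
    (hN : N ≤ P₀) (hWR : W ≤ R) (hF : 0 ≤ F) (hl : l < N - F + 2 * C + 1) (hn : n ≤ E * R + C) :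
    n + C * (l + W + W) ≤ P * h * (h * h) := by
  have hP0 : 0 ≤ P := by linarith only [hP]
  have hC0 : 0 ≤ C := by linarith only [hC]
  have t2 : 2 * C + 1 ≤ (2 * C + 1) * P := le_mul_of_one_le_right (by linarith only [hC]) hP
  have v0 : (2 * C + 4) * P = (2 * C + 1) * P + 3 * P := by ring
  have v4 : l + W + W ≤ (2 * C + 4) * P := by linarith only [v0, t2, hl, hN, hP₀, hF, hWR, hR]
  have v5 : C * (l + W + W) ≤ C * ((2 * C + 4) * P) := mul_le_mul_of_nonneg_left v4 hC0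
  have v3 : E * R ≤ E * P := mul_le_mul_of_nonneg_left hR hE0
  have v1 : C ≤ C * P := le_mul_of_one_le_right hC0 hP
  have c1 : 0 ≤ C ^ 2 := sq_nonneg C
  have h2 : 2 ≤ h := by linarith only [h4, hE, hE0, hC, hε]
  have h0 : 0 ≤ h := by linarith only [h2]
  have v8 : E + C + C * (2 * C + 4) ≤ 2 * h := by
    have : C * (2 * C + 4) = 2 * C ^ 2 + 4 * C := by ring
    linarith only [this, h3, h4, hE, hε, hC, c1]
  have v9 : 2 * h ≤ h * h := mul_le_mul_of_nonneg_right h2 h0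
  have v10 : h * h ≤ h * (h * h) :=
    mul_le_mul_of_nonneg_left (le_mul_of_one_le_left h0 (by linarith only [h2])) h0
  have v7 : (E + C + C * (2 * C + 4)) * P ≤ h * (h * h) * P :=
    mul_le_mul_of_nonneg_right (v8.trans (v9.trans v10)) hP0
  have v11 : (E + C + C * (2 * C + 4)) * P = E * P + C * P + C * ((2 * C + 4) * P) := by ring
  have v12 : P * h * (h * h) = h * (h * h) * P := by ring
  linarith only [v7, v11, v12, v5, v3, v1, hn]

/-- the error in the first case -/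
private theorem Lane1_e {K ε s R : ℝ} (hK : 0 ≤ K) (hε : 0 < ε) (hR : 0 ≤ R) (hs : s ≤ (K + 1 + ε) * R) :
    ε / (K + 2 + ε) * s ≤ ε * R := by
  have t3 : 0 < K + 2 + ε := by linarith only [hK, hε]
  have t2 : s ≤ (K + 2 + ε) * R := by
    have : (K + 2 + ε) * R = (K + 1 + ε) * R + R := by ring
    linarith only [this, hs, hR]
  refine (mul_le_mul_of_nonneg_left t2 (div_nonneg hε.le t3.le)).trans (le_of_eq ?_)
  rw [← mul_assoc, div_mul_cancel₀ _ t3.ne']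

/-- One good lane. PROOF. `z₀ = bp e R` satisfies `rn (toR z₀ - R • e) ≤ d ≤ R`, so
`T (res h (Rg i H) τ) 0 z₀ ≤ ff i z₀ + ε * R =: s₀` (`RC`), `H = h ^ (D + 8)`.
Case `N ≤ ff i z₀`: `UN_pass` (with `p = D + 6`, the point `z₀`, `s = s₀ ≥ R / (4 C ^ 2) - C ≥ h ^ 20`, and with
`ε₁ = ε / (C * rn e + 2 + ε)` in the place of `ε`, `s₀ ≤ (C * rn e + 1 + ε) * R`): `UN ≤ N + ε * R + ε₁ * s₀ ≤ N + 2 * ε * R`.
Case `ff i z₀ < N`: with `l = ll X i e R N` (`N - ff i z₀ + 2 C ≤ l ≤ N - ff i z₀ + 2 C + 1`) and `z = z₀ + rd l`: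
`T (res h (Rg i H) τ) z₀ z ≤ l + Z` (`Reach.T_res_le`, `lane_sub_Rg`, `T_res_anti`), `ff i z ≥ ff i z₀ + l - C ≥ N`,
so `UN ≤ s := s₀ + l + Z ≤ N + Z + ε * R + 2 C + 1` by `UN_pass` (first claim), and `2 C + 1 ≤ ε * R` for `h` large. -/
theorem UN_lane (hs : ∀ x, μ (-x) = μ x) (hX : IsVtx X μ) (D : ℕ) (hD : 1000 ≤ D) (i : Fin X.N) (ε : ℝ)
    (hε : 0 < ε) (e : Fin d → ℝ) (he1 : 1 / (2 * X.C) ≤ rn e) (he2 : rn e ≤ 2 * X.C * dp (X.f i) e) :
    ∀ᶠ h : ℝ in atTop, ∀ (a : ℝ) (τ : Env d), 0 < a → a ≤ h → Bd a h τ → LT μ (D + 10) h τ → RC X i e D ε h τ →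
      ∀ (R Z W N : ℝ), h ^ 102 ≤ R → R ≤ h ^ (D + 5) → 0 ≤ W → 8 * X.C ^ 3 * (W + 1) ≤ R → 0 ≤ Z →
        Z ≤ h ^ (D + 1) → 0 ≤ N → N ≤ h ^ D → LG X i e Z W N R τ →
        X.UN i (h ^ (D + 8)) h N τ ≤ N + Z + 2 * ε * R := by
  have hC := one_le_C hX
  have hE := rn_nonneg e
  have hC0 : 0 ≤ X.C := by linarith only [hC]
  have hC2 : 0 ≤ X.C * rn e := mul_nonneg hC0 hE
  have hε₁ : 0 < ε / (X.C * rn e + 2 + ε) := div_pos hε (by linarith only [hC2, hε])
  filter_upwards [UN_pass hs hX (D + 6) (by omega) _ hε₁, eventually_ge_atTop 1, eventually_ge_atTop (d : ℝ),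
    eventually_ge_atTop (16 * X.C ^ 2 + X.C), eventually_ge_atTop (X.C * rn e + rn e + 20 * X.C + 10 + ε),
    eventually_ge_atTop ((2 * X.C + 1) / ε)] with h hP h1 h2 h3 h4 h5
  intro a τ ha hah hτ hL hRC R Z W N hR1 hR2 hW hW1 hZ hZ1 hN hN1 hG
  have k1 : h ≤ h ^ 102 := le_self_pow₀ h1 (by norm_num)
  have hRh : h ≤ R := k1.trans hR1
  have hR0 : 0 < R := by linarith only [h1, hRh]
  have hL' : LT μ (D + 6 + 2) h τ := hL.mono h1 (by omega)
  obtain ⟨b1, -, b3, b4⟩ := bp_ff hX i he1 he2 hR0.le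
  have hz₀ : T (res h (X.Rg i (h ^ (D + 8))) τ) 0 (bp e R) ≤ X.ff i (bp e R) + ε * R := by
    refine hRC R _ ?_ hR2 ?_
    · exact (pow_le_pow_right₀ h1 (by norm_num)).trans hR1
    · exact (bp_near e R).trans (h2.trans hRh)
  -- the size of `s₀`
  have hεR : 0 < ε * R := mul_pos hε hR0
  have c1 : 0 < 4 * X.C ^ 2 := by positivity
  have s1 : h ^ 20 ≤ X.ff i (bp e R) + ε * R := by
    have t7 : h ^ 20 + X.C ≤ R / (4 * X.C ^ 2) := (le_div_iff₀ c1).2 (Lane1_a hC h1 h3 hR1)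
    linarith only [t7, b1, hεR]
  have s2 : X.ff i (bp e R) + ε * R ≤ (X.C * rn e + 1 + ε) * R := by
    have t1 : X.C ≤ R := by
      have := sq_nonneg X.C
      linarith only [this, h3, hRh]
    have t2 : (X.C * rn e + 1 + ε) * R = X.C * rn e * R + R + ε * R := by ring
    linarith only [t1, t2, b3]
  have q1 : h ^ (D + 6) = h ^ (D + 5) * h := pow_succ h (D + 5)
  have q2 : h ^ (D + 8) = h ^ (D + 5) * h * (h * h) := by
    rw [show D + 8 = D + 5 + 1 + 1 + 1 by omega, pow_succ, pow_succ, pow_succ]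
    ring
  have q3 : 1 ≤ h ^ (D + 5) := one_le_pow₀ h1
  have q5 : h ^ D ≤ h ^ (D + 5) := pow_le_pow_right₀ h1 (by omega)
  have q6 : h ^ (D + 1) ≤ h ^ (D + 5) := pow_le_pow_right₀ h1 (by omega)
  -- the size of `s`
  have s3 : ∀ s : ℝ, s ≤ (X.C * rn e + 1 + ε) * R + (h ^ D + 2 * X.C + 1) + h ^ (D + 1) →
      s ≤ h ^ (D + 6) ∧ 3 * X.C * s ≤ h ^ (D + 8) := by
    intro s hsz
    rw [q1, q2]
    exact Lane1_b hC hC2 hε h1 h3 h4 hE hR2 q3 q5 q6 hsz
  rcases le_or_gt N (X.ff i (bp e R)) with hc | hc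
  · obtain ⟨u1, u2⟩ := s3 (X.ff i (bp e R) + ε * R) (by
      have g1 : 0 ≤ h ^ D := pow_nonneg (by linarith only [h1]) _
      have g2 : 0 ≤ h ^ (D + 1) := pow_nonneg (by linarith only [h1]) _
      linarith only [g1, g2, s2, hC])
    obtain ⟨-, hres⟩ := hP a τ ha hah hτ hL' i (bp e R) (X.ff i (bp e R) + ε * R) N (h ^ (D + 8)) hN hc s1 u1 u2 hz₀
    have t1 := Lane1_e hC2 hε hR0.le s2
    linarith only [hres, t1, hZ]
  · have hre := hG.resolve_left (not_le.2 hc)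
    have l1 : N - X.ff i (bp e R) + 2 * X.C ≤ (ll X i e R N : ℝ) := Nat.le_ceil _
    have l2 : (ll X i e R N : ℝ) < N - X.ff i (bp e R) + 2 * X.C + 1 :=
      Nat.ceil_lt_add_one (by linarith only [hc, hC])
    have l0 : 0 ≤ (ll X i e R N : ℝ) := Nat.cast_nonneg _
    obtain ⟨w2, w3, w6⟩ := Lane1_c hC hW hW1 b1
    have w4 : nm (bp e R) + X.C * (ll X i e R N + W + W) ≤ h ^ (D + 8) := by
      rw [q2]
      exact Lane1_d hC hC2 hE hε h3 h4 hR2 q3 q5 hN1 w3 w6 l2 b4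
    have w5 := lane_sub_Rg hX i (bp e R) l0 hW hW w2 w4
    have t1 : T (res h (X.Rg i (h ^ (D + 8))) τ) (bp e R) (bp e R + X.rd (ll X i e R N)) ≤ ll X i e R N + Z :=
      (T_res_anti ha.le hah hτ w5 _ _).trans (hre.T_res_le ha hah hτ)
    have t2 := T_triangle (Bd_res hah hτ (X.Rg i (h ^ (D + 8)))) ha.le 0 (bp e R)
      (bp e R + X.rd (ll X i e R N))
    have t3 : N ≤ X.ff i (bp e R + X.rd (ll X i e R N)) := by
      rw [Vtx.ff_add]
      have t4 := (abs_le.1 (ff_rd hX i (ll X i e R N))).1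
      linarith only [t4, l1, hC]
    obtain ⟨u1, u2⟩ := s3 (X.ff i (bp e R) + ε * R + (ll X i e R N + Z))
      (by linarith only [s2, l2, hN1, hZ1, w6])
    obtain ⟨hres, -⟩ := hP a τ ha hah hτ hL' i (bp e R + X.rd (ll X i e R N))
      (X.ff i (bp e R) + ε * R + (ll X i e R N + Z)) N (h ^ (D + 8)) hN t3
      (by linarith only [s1, l0, hZ]) u1 u2 (by linarith only [t1, t2, hz₀])
    have t4 : 2 * X.C + 1 ≤ ε * R := by
      have := (div_le_iff₀ hε).1 (h5.trans hRh)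
      linarith only [this]
    linarith only [hres, t4, l2]

end Pool.Agent.W_1b8d5d_nd

end

/-! ### Lane2 -/

section

/-!
MP_1b8d5d_pr, [ND], section 4: the mean excess of the passage to a level.
-/

set_option autoImplicit false

namespace Pool.Agent.W_1b8d5d_nd

open Finset Filter Topology
open Pool.Agent.W_1b8d5d_h85 (Ex Pr Vr avg)

variable {d : ℕ} [NeZero d] {X : Vtx d} {μ : (Fin d → ℝ) → ℝ} {Q : Qn} {m : V d → ℝ}

/-- `∑_{j ≥ 1} j (3/4)^(j-1) = 16`. PROOF. Induction: the partial sum plus `(4 J + 16) (3/4)^J` is `16`. -/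
theorem sum_geom_le (J : ℕ) : ∑ j ∈ range J, ((j : ℝ) + 1) * (3 / 4) ^ j ≤ 16 := by
  have h1 : ∀ J : ℕ, ∑ j ∈ range J, ((j : ℝ) + 1) * (3 / 4) ^ j + (4 * J + 16) * (3 / 4) ^ J = 16 := by
    intro J
    induction J with
    | zero => simp
    | succ J ih =>
      rw [sum_range_succ, pow_succ]
      push_cast
      linarith
  have h2 := h1 J
  have h3 : (0 : ℝ) ≤ (4 * J + 16) * (3 / 4) ^ J := by positivity
  linarith

/-- The geometric sum (pure probability). `G j` are events with `P (no G k, k < j) ≤ (3/4)^j`; on the good event `A` the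
function `F` is at most `(j + 1) * c` if `G j` holds; `F ≤ K` always. PROOF. Pointwise
`max F 0 ≤ ∑ j ∈ range J, 1[no G k for k < j] * ((j + 1) * c) + 1[no G k for k < J] * K + 1[¬ A] * K` (take the first good
`j`); take expectations, `sum_geom_le`. -/
theorem E_first {a b : ℝ} (M : Mdl d a b) (J : ℕ) (G : ℕ → Env d → Prop) (A : Env d → Prop) (F : Env d → ℝ) (c K : ℝ)
    (hc : 0 ≤ c) (hK : 0 ≤ K) (hG : ∀ j ≤ J, M.P (fun τ => ∀ k < j, ¬ G k τ) ≤ (3 / 4) ^ j)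
    (h1 : ∀ τ, Bd a b τ → A τ → ∀ j < J, G j τ → F τ ≤ (j + 1) * c) (h2 : ∀ τ, Bd a b τ → F τ ≤ K) :
    M.E (fun τ => max (F τ) 0) ≤ 16 * c + K * (3 / 4) ^ J + K * M.P (fun τ => ¬ A τ) := by
  classical
  have hpt : ∀ τ, Bd a b τ → max (F τ) 0 ≤
      (∑ j ∈ range J, (((j : ℝ) + 1) * c) * (if ∀ k < j, ¬ G k τ then (1 : ℝ) else 0) +
        K * (if ∀ k < J, ¬ G k τ then (1 : ℝ) else 0)) + K * (if ¬ A τ then (1 : ℝ) else 0) := by
    intro τ hτ
    have hn1 : ∀ j ∈ range J, 0 ≤ (((j : ℝ) + 1) * c) * (if ∀ k < j, ¬ G k τ then (1 : ℝ) else 0) := by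
      intro j _
      split_ifs <;> positivity
    have hs0 := sum_nonneg hn1
    have hn2 : 0 ≤ K * (if ∀ k < J, ¬ G k τ then (1 : ℝ) else 0) := by split_ifs <;> positivity
    have hn3 : 0 ≤ K * (if ¬ A τ then (1 : ℝ) else 0) := by split_ifs <;> positivity
    have hFK : max (F τ) 0 ≤ K := max_le (h2 τ hτ) hK
    by_cases hA : A τ
    · by_cases hex : ∀ k < J, ¬ G k τ
      · rw [if_pos hex] at *
        linarith
      · have hex' : ∃ k, k < J ∧ G k τ := by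
          push Not at hex
          exact hex
        have hj := Nat.find_spec hex'
        have hj' : ∀ k < Nat.find hex', ¬ G k τ := by
          intro k hk hGk
          exact Nat.find_min hex' hk ⟨hk.trans hj.1, hGk⟩
        have h3 := h1 τ hτ hA _ hj.1 hj.2
        have h4 := single_le_sum hn1 (mem_range.2 hj.1)
        rw [if_pos hj', mul_one] at h4
        have h5 : max (F τ) 0 ≤ ((Nat.find hex' : ℕ) + 1 : ℝ) * c := max_le h3 (by positivity)
        linarith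
    · rw [if_pos hA] at *
      linarith
  refine (M.E_mono hpt).trans ?_
  rw [M.E_add, M.E_add, M.E_sum, M.E_mul_left, M.E_mul_left]
  have e0 : ∀ j : ℕ, M.E (fun τ => if ∀ k < j, ¬ G k τ then (1 : ℝ) else 0) = M.P (fun τ => ∀ k < j, ¬ G k τ) := by
    intro j
    rw [M.P_def]
    refine M.E_congr fun τ _ => ?_
    by_cases hh : ∀ k < j, ¬ G k τ
    · rw [if_pos hh, if_pos hh]
    · rw [if_neg hh, if_neg hh]
  have e1 := e0 J
  have e2 : M.E (fun τ => if ¬ A τ then (1 : ℝ) else 0) = M.P (fun τ => ¬ A τ) := by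
    rw [M.P_def]
    refine M.E_congr fun τ _ => ?_
    by_cases hh : ¬ A τ
    · rw [if_pos hh, if_pos hh]
    · rw [if_neg hh, if_neg hh]
  rw [e1, e2]
  have e3 : ∑ j ∈ range J, M.E (fun τ => (((j : ℝ) + 1) * c) * (if ∀ k < j, ¬ G k τ then (1 : ℝ) else 0)) ≤
      16 * c := by
    have e4 : ∀ j ∈ range J, M.E (fun τ => (((j : ℝ) + 1) * c) * (if ∀ k < j, ¬ G k τ then (1 : ℝ) else 0)) ≤
        c * (((j : ℝ) + 1) * (3 / 4) ^ j) := by
      intro j hj
      rw [M.E_mul_left]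
      rw [e0 j]
      have e6 := mul_le_mul_of_nonneg_left (hG j (mem_range.1 hj).le) (show 0 ≤ ((j : ℝ) + 1) * c by positivity)
      linarith
    refine (sum_le_sum e4).trans ?_
    rw [← mul_sum]
    have e7 := mul_le_mul_of_nonneg_left (sum_geom_le J) hc
    linarith
  have e8 := mul_le_mul_of_nonneg_left (hG J le_rfl) hK
  linarith

/-- No good lane among the first `j`. PROOF. `none_indep` for the lanes `k < j` (the lane number `k` starts at
`bp e ((k + 1) * L)`): disjoint by `lane_disjoint` and `bp_sep` (`L / 2 - C > 2 W`), near by `nm_of_mem_lane` and `bp_ff`,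
`P_LG`. -/
theorem P_none_LG (hX : IsVtx X μ) (D : ℕ) (hD : 1000 ≤ D) (i : Fin X.N) (e : Fin d → ℝ)
    (he0 : 1 / 2 ≤ rn (e - dp X.g e • X.v)) (he1 : 1 / (2 * X.C) ≤ rn e) (he2 : rn e ≤ 2 * X.C * dp (X.f i) e) :
    ∀ᶠ h : ℝ in atTop, ∀ (a : ℝ) (M : Mdl d a h), GoodN Q m (2 * D + 200) M →
      ∀ (n L J : ℕ) (Z W N : ℝ), (n : ℝ) ≤ h ^ D → h ^ 102 ≤ W → 8 * X.C ^ 3 * (W + 1) ≤ L → (J * L : ℝ) ≤ h ^ (D + 5) →
        LaneOK X M n Z W → 0 ≤ N → N ≤ n → ∀ j ≤ J,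
          M.P (fun τ => ∀ k < j, ¬ LG X i e Z W N (((k + 1) * L : ℕ) : ℝ) τ) ≤ (3 / 4) ^ j := by
  have hC4 : 4 ≤ X.C := one_le_C hX
  filter_upwards [eventually_ge_atTop (1 : ℝ), eventually_ge_atTop (rn e + X.C * (2 * X.C + 6))] with h hh1 hh2
  intro a M hM n L J Z W N hn hW hL hJL hOK hN0 hNn j hj
  have hC0 : 0 < X.C := by linarith
  have hC3 : X.C ^ 3 = X.C * X.C ^ 2 := by ring
  have hC2 : 16 ≤ X.C ^ 2 := by nlinarith
  have hC3' : 64 ≤ X.C ^ 3 := by rw [hC3]; nlinarith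
  have hCC3 : X.C ≤ X.C ^ 3 := by rw [hC3]; nlinarith
  have hW1 : 1 ≤ W := le_trans (one_le_pow₀ hh1) hW
  have hL1 : (1 : ℝ) ≤ L := by
    refine le_trans ?_ hL
    nlinarith
  have hR : ∀ k < j, (L : ℝ) ≤ (((k + 1) * L : ℕ) : ℝ) ∧ (((k + 1) * L : ℕ) : ℝ) ≤ h ^ (D + 5) := by
    intro k hk
    push_cast
    constructor
    · have : (0 : ℝ) ≤ k := Nat.cast_nonneg k
      nlinarith
    · refine le_trans ?_ hJL
      have h1 : (k : ℝ) + 1 ≤ J := by exact_mod_cast (by omega : k + 1 ≤ J)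
      exact mul_le_mul_of_nonneg_right h1 (by linarith)
  have hff : ∀ k < j, 2 * X.C + 1 ≤ X.ff i (bp e (((k + 1) * L : ℕ) : ℝ)) := by
    intro k hk
    obtain ⟨r1, r2⟩ := hR k hk
    obtain ⟨b1, -, -, -⟩ := bp_ff hX i he1 he2 (R := (((k + 1) * L : ℕ) : ℝ)) (by linarith)
    refine le_trans ?_ b1
    have h1 : 8 * X.C ^ 3 * (W + 1) / (4 * X.C ^ 2) ≤ (((k + 1) * L : ℕ) : ℝ) / (4 * X.C ^ 2) :=
      div_le_div_of_nonneg_right (hL.trans r1) (by positivity)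
    have h2 : 8 * X.C ^ 3 * (W + 1) / (4 * X.C ^ 2) = 2 * X.C * (W + 1) := by
      field_simp
      ring
    rw [h2] at h1
    nlinarith
  have h34 : (3 / 4 : ℝ) ^ j = (1 - 1 / 4) ^ (range j).card := by
    rw [card_range]
    norm_num
  rw [h34]
  refine le_trans (M.P_mono fun τ _ hτ => ?_)
    (none_indep hM (range j) (fun k => X.lane (bp e (((k + 1) * L : ℕ) : ℝ))
      (ll X i e (((k + 1) * L : ℕ) : ℝ) N) W W) ?_ ?_
      (fun k τ => LG X i e Z W N (((k + 1) * L : ℕ) : ℝ) τ) ?_ (1 / 4) ?_ (by norm_num))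
  · exact fun k hk => hτ k (mem_range.1 hk)
  · -- disjoint
    intro k hk l hl hkl
    rw [mem_range] at hk hl
    refine lane_disjoint _ _ ?_
    have h1 := bp_sep hX he0 (((k + 1) * L : ℕ) : ℝ) (((l + 1) * L : ℕ) : ℝ)
    refine lt_of_lt_of_le ?_ h1
    have h2 : (L : ℝ) ≤ |(((k + 1) * L : ℕ) : ℝ) - (((l + 1) * L : ℕ) : ℝ)| := by
      push_cast
      have h3 : ((k : ℝ) + 1) * L - ((l : ℝ) + 1) * L = ((k : ℝ) - l) * L := by ring
      rw [h3, abs_mul, abs_of_nonneg (show (0 : ℝ) ≤ L by linarith)]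
      have h4 : (1 : ℝ) ≤ |(k : ℝ) - l| := by
        have h5 : (1 : ℤ) ≤ |(k : ℤ) - l| := Int.one_le_abs (by omega)
        have h6 : ((1 : ℤ) : ℝ) ≤ ((|(k : ℤ) - l| : ℤ) : ℝ) := by exact_mod_cast h5
        push_cast at h6
        exact h6
      nlinarith
    have h7 : 64 * (W + 1) ≤ X.C ^ 3 * (W + 1) := mul_le_mul_of_nonneg_right hC3' (by linarith)
    have h8 : X.C ^ 3 * 1 ≤ X.C ^ 3 * (W + 1) := mul_le_mul_of_nonneg_left (by linarith) (by linarith)
    linarith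
  · -- near
    intro k hk ed hed
    rw [mem_range] at hk
    obtain ⟨r1, r2⟩ := hR k hk
    obtain ⟨-, -, -, b4⟩ := bp_ff hX i he1 he2 (R := (((k + 1) * L : ℕ) : ℝ)) (by linarith)
    have h1 := nm_of_mem_lane hX (bp e (((k + 1) * L : ℕ) : ℝ)) (Nat.cast_nonneg _) (by linarith) hed
    refine h1.trans ?_
    have hf := hff k hk
    have h2 : ((ll X i e (((k + 1) * L : ℕ) : ℝ) N : ℕ) : ℝ) ≤ h ^ D + 1 := by
      unfold ll
      have h3 : (⌈N - X.ff i (bp e (((k + 1) * L : ℕ) : ℝ)) + 2 * X.C⌉₊ : ℝ) ≤ N + 1 := by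
        rcases le_or_gt (N - X.ff i (bp e (((k + 1) * L : ℕ) : ℝ)) + 2 * X.C) 0 with h4 | h4
        · rw [Nat.ceil_eq_zero.2 h4, Nat.cast_zero]
          linarith
        · have h5 := Nat.ceil_lt_add_one h4.le
          linarith
      linarith
    have hWL : W ≤ h ^ (D + 5) := by
      have h3 : W ≤ 8 * X.C ^ 3 * (W + 1) := by nlinarith
      linarith
    have hpD : h ^ D ≤ h ^ (D + 5) := pow_le_pow_right₀ hh1 (by omega)
    have hp1 : (1 : ℝ) ≤ h ^ (D + 5) := one_le_pow₀ hh1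
    have hrn : 0 ≤ rn e := le_trans (by positivity) he1
    have h6 : rn e * (((k + 1) * L : ℕ) : ℝ) ≤ rn e * h ^ (D + 5) := mul_le_mul_of_nonneg_left r2 hrn
    have h7 : X.C * ((ll X i e (((k + 1) * L : ℕ) : ℝ) N : ℕ) + W + W) ≤ X.C * (4 * h ^ (D + 5)) :=
      mul_le_mul_of_nonneg_left (by linarith) hC0.le
    have h8 : X.C ≤ X.C * h ^ (D + 5) := le_mul_of_one_le_right hC0.le hp1
    have h9 : rn e * h ^ (D + 5) + X.C * (5 * h ^ (D + 5)) ≤ h * h ^ (D + 5) := by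
      have : rn e + 5 * X.C ≤ h := by nlinarith
      have := mul_le_mul_of_nonneg_right this (show 0 ≤ h ^ (D + 5) by positivity)
      linarith
    have h10 : h * h ^ (D + 5) ≤ h ^ (2 * D + 200 + 100) := by
      rw [← pow_succ']
      exact pow_le_pow_right₀ hh1 (by omega)
    linarith
  · intro k _
    exact dependsOn_LG i e Z W N _
  · intro k hk
    exact P_LG hM i e hOK hNn (hff k (mem_range.1 hk))

end Pool.Agent.W_1b8d5d_nd

end

/-! ### UpA -/

section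

/-!
MP_1b8d5d_pr, [ND]: the mean passage time of a block restricted to a box.
-/

set_option autoImplicit false

namespace Pool.Agent.W_1b8d5d_nd

open Finset Filter Topology
open Pool.Agent.W_1b8d5d_h85 (Ex Pr Vr avg)

variable {d : ℕ} [NeZero d] {Q : Qn} {m : V d → ℝ} {μ : (Fin d → ℝ) → ℝ} {X : Vtx d}

private theorem UpA_exp : ∀ᶠ h : ℝ in atTop, h ^ 52 * Real.exp (-(h / 2)) ≤ 1 := by
  have h1 := Real.tendsto_pow_mul_exp_neg_atTop_nhds_zero 52
  have h2 : Tendsto (fun h : ℝ => h / 2) atTop atTop := tendsto_id.atTop_div_const (by norm_num)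
  have h3 := (h1.comp h2).const_mul ((2 : ℝ) ^ 52)
  rw [mul_zero] at h3
  filter_upwards [h3.eventually_le_const (by norm_num : (0 : ℝ) < 1)] with h hh
  have h4 : 2 ^ 52 * (((fun x : ℝ => x ^ 52 * Real.exp (-x)) ∘ fun h : ℝ => h / 2) h) =
      h ^ 52 * Real.exp (-(h / 2)) := by
    simp only [Function.comp]
    rw [div_pow]
    field_simp
  linarith

/-- The mean of one block of length `h ^ 50`, restricted to a box of radius `h ^ 53`. PROOF. By the shift invariance (field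
`inv`, `T_res_sh`) one may take `x = 0`. `nm y ≤ h ^ 51`, `E T(0,y) ≤ m y + 3 sg h (nm y)` (`mean_med`),
`m y ≤ h ^ 50 (μ e + ε / 4)` (`med_dir`), `3 sg h (nm y) ≤ h ^ 50 ε / 4`. On `LT μ (p - 1) h` (`LT_prob` for `p - 1`, so the
model is `GoodN` in the range `p`) a geodesic from `0` to `y` stays within distance `2 C (h nm y + h ^ 16) ≤ h ^ 53` of `0`
(`walk_near` for `p - 3`, `mu_neg`, `exists_geo`), so the restricted passage time is equal (`T_res_eq`, `wedges_near`);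
off `LT` it is at most `h nm y` (`T_upper`, `Bd_res`), and this contributes at most `exp (-(h / 2)) h ^ 52`. -/
theorem block_mean (hX : IsVtx X μ) (hmu : MuM μ m) (hN : HasN Q m) (p : ℕ) (hp : 100 ≤ p) (e : Fin d → ℝ) (ε : ℝ)
    (hε : 0 < ε) : ∀ᶠ h : ℝ in atTop, ∀ (a : ℝ) (M : Mdl d a h), GoodN Q m p M → ∀ x y : V d,
      rn (toR (y - x) - (h ^ 50) • e) ≤ 10 * d →
      M.E (fun τ => T (res h (edg {z | nm (z - x) ≤ h ^ 53}) τ) x y) ≤ h ^ 50 * (μ e + ε) := by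
  classical
  obtain ⟨q, rfl⟩ : ∃ q, p = q + 3 := ⟨p - 3, by omega⟩
  have hs : ∀ x, μ (-x) = μ x := fun x => mu_neg hmu hN x
  obtain ⟨r₀, hr₀⟩ := med_dir hmu hN e (ε / 4) (by positivity)
  have ev1 := LT_prob hmu hN (q + 2) (by omega)
  have ev2 := walk_near hs hX q (by omega)
  have ev3 : ∀ᶠ h : ℝ in atTop, h ^ 52 * Real.exp (-(h / 2)) ≤ 1 := UpA_exp
  filter_upwards [ev1, ev2, ev3, eventually_ge_atTop (1 : ℝ), eventually_ge_atTop r₀,
    eventually_ge_atTop (rn e + 10 * d), eventually_ge_atTop (4 * X.C), eventually_ge_atTop (24 / ε),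
    eventually_ge_atTop (4 / ε)]
    with h g1 g2 g3 h1 hr hd hC hε1 hε2 a M hM x y hxy
  have h0 : 0 < h := by linarith
  have hC4 := one_le_C hX
  set w : V d := y - x with hw
  set A : Set (Edge d) := edg {z | nm z ≤ h ^ 53} with hA
  -- the shift
  have hset : {e : Edge d | (e.1 - x, e.2) ∈ A} = edg {z | nm (z - x) ≤ h ^ 53} := by
    ext e
    simp only [hA, edg, Set.mem_ofPred_eq]
    rw [show e.1 - x + dir e.2 = e.1 + dir e.2 - x by abel]
  have hshift : M.E (fun τ => T (res h (edg {z | nm (z - x) ≤ h ^ 53}) τ) x y) =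
      M.E (fun τ => T (res h A τ) 0 w) := by
    rw [← hM.inv x (fun τ => T (res h A τ) 0 w)]
    congr 1
    funext τ
    rw [T_res_sh, hset, zero_add, hw, sub_add_cancel]
  rw [hshift]
  -- the distance
  have hpow : ∀ {i j : ℕ}, i ≤ j → h ^ i ≤ h ^ j := fun hij => pow_le_pow_right₀ h1 hij
  have hnm : nm w ≤ h ^ 51 := by
    have e1 : nm w ≤ rn (toR w - (h ^ 50) • e) + rn ((h ^ 50) • e) := by
      rw [nm_eq_rn]
      have := rn_add_le (toR w - (h ^ 50) • e) ((h ^ 50) • e)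
      rwa [sub_add_cancel] at this
    rw [rn_smul, abs_of_nonneg (by positivity)] at e1
    have e2 : (10 : ℝ) * d ≤ h ^ 50 * (10 * d) := by
      have : (1 : ℝ) ≤ h ^ 50 := one_le_pow₀ h1
      exact le_mul_of_one_le_left (by positivity) this
    calc nm w ≤ h ^ 50 * (rn e + 10 * d) := by linarith
      _ ≤ h ^ 50 * h := mul_le_mul_of_nonneg_left hd (by positivity)
      _ = h ^ 51 := (pow_succ h 50).symm
  have hnm0 := nm_nonneg w
  have hnmp : nm w ≤ h ^ (q + 3) := hnm.trans (hpow (by omega))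
  have hT1 : ∀ τ, Bd a h τ → T τ 0 w ≤ h * nm w := fun τ hτ => by
    have := T_upper hτ hM.apos.le 0 w
    rwa [sub_zero] at this
  have hs52 : h * nm w ≤ h ^ 52 := by
    calc h * nm w ≤ h * h ^ 51 := by gcongr
      _ = h ^ 52 := by ring
  -- the comparison
  have hcmp : M.E (fun τ => T (res h A τ) 0 w) ≤
      M.E (fun τ => T τ 0 w) + h ^ 52 * M.P (fun τ => ¬ LT μ (q + 2) h τ) := by
    rw [M.P_def, ← M.E_mul_left, ← M.E_add]
    refine M.E_mono fun τ hτ => ?_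
    by_cases hL : LT μ (q + 2) h τ
    · rw [if_neg (not_not.2 hL), mul_zero, add_zero]
      obtain ⟨γ, hγ⟩ := exists_geo hτ hM.apos 0 w
      refine (T_res_eq hM.apos.le hM.alt hτ hγ.2 fun e' he' => ?_).le
      have hc : cost τ γ ≤ h * nm w := by rw [hγ.2]; exact hT1 τ hτ
      have hnear := g2 a τ hM.apos hτ hL 0 w γ (h * nm w) (by rw [nm_zero]; positivity)
        (by positivity) (hs52.trans (hpow (by omega))) hc
      have hb : 2 * X.C * (h * nm w + h ^ 16) ≤ h ^ 53 := by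
        have e1 : h * nm w + h ^ 16 ≤ 2 * h ^ 52 := by
          have := hpow (i := 16) (j := 52) (by norm_num)
          linarith
        calc 2 * X.C * (h * nm w + h ^ 16) ≤ 2 * X.C * (2 * h ^ 52) := by gcongr
          _ = 4 * X.C * h ^ 52 := by ring
          _ ≤ h * h ^ 52 := by gcongr
          _ = h ^ 53 := by ring
      have hsup := wedges_support γ he'
      have n1 := hnear _ hsup.1
      have n2 := hnear _ hsup.2
      rw [sub_zero] at n1 n2
      exact ⟨n1.trans hb, n2.trans hb⟩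
    · rw [if_pos hL, mul_one]
      have e1 := T_upper (Bd_res hM.alt hτ A) hM.apos.le 0 w
      rw [sub_zero] at e1
      have e2 := T_nonneg hτ hM.apos.le 0 w
      linarith
  have hP := g1 a M hM
  have hmm := (abs_le.1 (mean_med hM h1 w hnmp)).2
  have hmd := hr₀ (h ^ 50) (hr.trans (le_self_pow₀ h1 (by norm_num))) w hxy
  have hsg : 3 * sg h (nm w) ≤ h ^ 50 * (ε / 4) := by
    unfold sg
    have e1 : √(nm w) ≤ h ^ 26 := by
      rw [show h ^ 26 = √((h ^ 26) ^ 2) by rw [Real.sqrt_sq (by positivity)]]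
      refine Real.sqrt_le_sqrt ?_
      calc nm w ≤ h ^ 51 := hnm
        _ ≤ h ^ 52 := hpow (by norm_num)
        _ = (h ^ 26) ^ 2 := by ring
    have e2 : h ^ 4 * √(nm w) ≤ h ^ 30 := by
      calc h ^ 4 * √(nm w) ≤ h ^ 4 * h ^ 26 := by gcongr
        _ = h ^ 30 := by ring
    have e3 : h ^ 11 ≤ h ^ 30 := hpow (by norm_num)
    have e4 : h ^ 31 ≤ h ^ 50 := hpow (by norm_num)
    have e5 : 24 ≤ h * ε := by
      rw [div_le_iff₀ hε] at hε1
      exact hε1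
    have e6 : 24 * h ^ 30 ≤ h ^ 50 * ε := by
      calc 24 * h ^ 30 ≤ h * ε * h ^ 30 := by gcongr
        _ = h ^ 31 * ε := by ring
        _ ≤ h ^ 50 * ε := by gcongr
    linarith
  have hlast : h ^ 52 * M.P (fun τ => ¬ LT μ (q + 2) h τ) ≤ h ^ 50 * (ε / 4) := by
    have e1 : h ^ 52 * M.P (fun τ => ¬ LT μ (q + 2) h τ) ≤ h ^ 52 * Real.exp (-(h / 2)) := by
      gcongr
    have e2 : (1 : ℝ) ≤ h ^ 50 * (ε / 4) := by
      have e3 : h ≤ h ^ 50 := le_self_pow₀ h1 (by norm_num)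
      have e4 : 4 ≤ h * ε := by
        rw [div_le_iff₀ hε] at hε2
        exact hε2
      have e5 : h * ε ≤ h ^ 50 * ε := by gcongr
      linarith
    linarith
  calc M.E (fun τ => T (res h A τ) 0 w)
      ≤ M.E (fun τ => T τ 0 w) + h ^ 52 * M.P (fun τ => ¬ LT μ (q + 2) h τ) := hcmp
    _ ≤ (m w + 3 * sg h (nm w)) + h ^ 50 * (ε / 4) := by linarith
    _ ≤ h ^ 50 * (μ e + ε / 4) + h ^ 50 * (ε / 4) + h ^ 50 * (ε / 4) := by linarith
    _ ≤ h ^ 50 * (μ e + ε) := by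
      have e7 : 0 ≤ h ^ 50 * (ε / 4) := by positivity
      have e8 : h ^ 50 * (μ e + ε) = h ^ 50 * (μ e + ε / 4) + h ^ 50 * (ε / 4) + h ^ 50 * (ε / 4) +
          h ^ 50 * (ε / 4) := by ring
      linarith

end Pool.Agent.W_1b8d5d_nd

end

/-! ### UpB1 -/

section

/-!
MP_1b8d5d_pr, [ND]: the upper tail for one starting point and one length (used in `UpB`).
-/

set_option autoImplicit false

namespace Pool.Agent.W_1b8d5d_nd

open Finset Filter Topology
open Pool.Agent.W_1b8d5d_h85 (Ex Pr Vr avg)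

variable {d : ℕ} [NeZero d] {Q : Qn} {m : V d → ℝ} {μ : (Fin d → ℝ) → ℝ} {X : Vtx d}

private theorem UpB1_card (n L r : ℕ) (hr : r < L) :
    n / L ≤ ((range n).filter (fun j => j % L = r)).card := by
  have hL : 0 < L := by omega
  have h1 : (range (n / L)).card ≤ ((range n).filter (fun j => j % L = r)).card := by
    refine card_le_card_of_injOn (fun i => i * L + r) ?_ ?_
    · intro i hi
      rw [mem_coe, mem_range] at hi
      rw [mem_coe, mem_filter, mem_range]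
      constructor
      · have h2 : (i + 1) * L ≤ n / L * L := Nat.mul_le_mul_right L hi
        have h3 : n / L * L ≤ n := Nat.div_mul_le_self n L
        have h4 : (i + 1) * L = i * L + L := by ring
        show i * L + r < n
        omega
      · show (i * L + r) % L = r
        rw [Nat.add_comm, Nat.add_mul_mod_self_right, Nat.mod_eq_of_lt hr]
    · intro i _ j _ hij
      have h5 : i * L + r = j * L + r := hij
      have h6 : i * L = j * L := by omega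
      exact Nat.eq_of_mul_eq_mul_right hL h6
  rwa [card_range] at h1

private theorem UpB1_tele {a b : ℝ} (ha : 0 ≤ a) {τ : Env d} (hτ : Bd a b τ) (x : ℕ → V d) (n : ℕ) :
    T τ (x 0) (x n) ≤ ∑ j ∈ range n, T τ (x j) (x (j + 1)) := by
  induction n with
  | zero =>
    rw [range_zero, sum_empty]
    exact (T_self hτ ha (x 0)).le
  | succ n ih =>
    rw [sum_range_succ]
    have := T_triangle hτ ha (x 0) (x n) (x (n + 1))
    linarith

/-- the intermediate points -/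
private noncomputable def UpB1_x (x : V d) (e : Fin d → ℝ) (ρ : ℝ) (j : ℕ) : V d :=
  x + rnd (((j : ℝ) * ρ) • e)

private theorem UpB1_zero (x : V d) (e : Fin d → ℝ) (ρ : ℝ) : UpB1_x x e ρ 0 = x := by
  funext i
  simp [UpB1_x, rnd]

private theorem UpB1_near (x : V d) (u : Fin d → ℝ) : rn (toR (x + rnd u - x) - u) ≤ d := by
  rw [add_sub_cancel_left]
  exact rnd_near u

private theorem UpB1_two (x : V d) (u u' : Fin d → ℝ) :
    rn (toR ((x + rnd u') - (x + rnd u)) - (u' - u)) ≤ 2 * d := by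
  have h1 : toR ((x + rnd u') - (x + rnd u)) - (u' - u) =
      (toR (rnd u') - u') - (toR (rnd u) - u) := by
    rw [toR_sub, toR_add, toR_add]
    abel
  rw [h1]
  have h2 := rn_sub_le (toR (rnd u') - u') (toR (rnd u) - u)
  have h3 := rnd_near u
  have h4 := rnd_near u'
  linarith

private theorem UpB1_nm_le (x : V d) (e : Fin d → ℝ) (s s' : ℝ) :
    nm ((x + rnd (s' • e)) - (x + rnd (s • e))) ≤ |s' - s| * rn e + 2 * d := by
  have h1 := UpB1_two x (s • e) (s' • e)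
  rw [← sub_smul] at h1
  have h2 := rn_add_le (toR ((x + rnd (s' • e)) - (x + rnd (s • e))) - (s' - s) • e)
    ((s' - s) • e)
  rw [sub_add_cancel, rn_smul] at h2
  rw [nm_eq_rn]
  linarith

private theorem UpB1_nm_ge (x : V d) (e : Fin d → ℝ) (s s' : ℝ) :
    |s' - s| * rn e - 2 * d ≤ nm ((x + rnd (s' • e)) - (x + rnd (s • e))) := by
  have h1 := UpB1_two x (s • e) (s' • e)
  rw [← sub_smul] at h1
  have h2 := rn_sub_le (toR ((x + rnd (s' • e)) - (x + rnd (s • e))))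
    (toR ((x + rnd (s' • e)) - (x + rnd (s • e))) - (s' - s) • e)
  rw [sub_sub_cancel, rn_smul] at h2
  rw [nm_eq_rn]
  linarith

private theorem UpB1_c2 {h r D : ℝ} (hone : 1 ≤ h) (hD : 0 ≤ D) (h1 : r + 2 * D + 8 ≤ h) :
    h * (h ^ 50 * r + 2 * D) ≤ h ^ 52 := by
  have h0 : 0 ≤ h := zero_le_one.trans hone
  have hp : 0 ≤ h ^ 50 := pow_nonneg h0 50
  have e1 : 2 * D ≤ h ^ 50 * (2 * D) :=
    le_mul_of_one_le_left (by linarith only [hD]) (one_le_pow₀ hone)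
  have e2 : h ^ 50 * (r + 2 * D) ≤ h ^ 50 * h :=
    mul_le_mul_of_nonneg_left (by linarith only [h1]) hp
  have e3 : h ^ 50 * r + 2 * D ≤ h ^ 50 * h := by linarith only [e1, e2]
  calc h * (h ^ 50 * r + 2 * D) ≤ h * (h ^ 50 * h) := mul_le_mul_of_nonneg_left e3 h0
    _ = h ^ 52 := by ring

private theorem UpB1_c3 {h ε : ℝ} (hone : 1 ≤ h) (hε : 0 < ε) (h2 : 8 / ε ≤ h) :
    h ^ 52 ≤ ε / 8 * h ^ 100 := by
  have h0 : 0 ≤ h := zero_le_one.trans hone
  have e1 : 8 ≤ h * ε := by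
    rw [div_le_iff₀ hε] at h2
    exact h2
  have e2 : h ^ 53 ≤ h ^ 100 := pow_le_pow_right₀ hone (by norm_num)
  have e3 : h ^ 52 * 8 ≤ h ^ 52 * (h * ε) := mul_le_mul_of_nonneg_left e1 (pow_nonneg h0 52)
  have e4 : h ^ 52 * (h * ε) = ε * h ^ 53 := by ring
  have e5 : ε * h ^ 53 ≤ ε * h ^ 100 := mul_le_mul_of_nonneg_left e2 hε.le
  linarith only [e3, e4, e5]

private theorem UpB1_c4 {h D : ℝ} (h8 : 8 ≤ h) (hD : D ≤ h) : h ^ 53 + D ≤ h ^ 60 := by
  have hone : 1 ≤ h := by linarith only [h8]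
  have h0 : 0 ≤ h := zero_le_one.trans hone
  have e1 : D ≤ h ^ 53 := hD.trans (le_self_pow₀ hone (by norm_num))
  have e2 : h ^ 53 * 2 ≤ h ^ 53 * h :=
    mul_le_mul_of_nonneg_left (by linarith only [h8]) (pow_nonneg h0 53)
  have e3 : h ^ 53 * h = h ^ 54 := by ring
  have e4 : h ^ 54 ≤ h ^ 60 := pow_le_pow_right₀ hone (by norm_num)
  linarith only [e1, e2, e3, e4]

private theorem UpB1_c5 {h r D : ℝ} (h8 : 8 ≤ h) (hr : 0 < r) (hD : 2 * D + 8 ≤ h)
    (h4 : 4 / r ≤ h) : 2 * h ^ 53 < h ^ 54 * r - 2 * D := by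
  have hone : 1 ≤ h := by linarith only [h8]
  have h0 : 0 ≤ h := zero_le_one.trans hone
  have e1 : 4 ≤ h * r := by
    rw [div_le_iff₀ hr] at h4
    exact h4
  have e2 : h ^ 53 * 4 ≤ h ^ 53 * (h * r) := mul_le_mul_of_nonneg_left e1 (pow_nonneg h0 53)
  have e3 : h ^ 53 * (h * r) = h ^ 54 * r := by ring
  have e4 : h ≤ h ^ 53 := le_self_pow₀ hone (by norm_num)
  linarith only [e2, e3, e4, hD, h8]

private theorem UpB1_c7 {h r D : ℝ} {q p : ℕ} (h8 : 8 ≤ h) (hD0 : 0 ≤ D) (hD : r + 2 * D + 8 ≤ h)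
    (hq : 110 ≤ q) (hp : q + 10 ≤ p) :
    h ^ q + (h ^ q * r + D) + h ^ 53 ≤ h ^ (p + 100) := by
  have hone : 1 ≤ h := by linarith only [h8]
  have h0 : 0 ≤ h := zero_le_one.trans hone
  have e1 : h ^ 53 ≤ h ^ q := pow_le_pow_right₀ hone (by omega)
  have e2 : D ≤ h ^ q * D := le_mul_of_one_le_left hD0 (one_le_pow₀ hone)
  have e3 : h ^ q * (r + D + 2) ≤ h ^ q * h :=
    mul_le_mul_of_nonneg_left (by linarith only [hD, hD0]) (pow_nonneg h0 q)
  have e4 : h ^ q * h = h ^ (q + 1) := by ring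
  have e5 : h ^ (q + 1) ≤ h ^ (p + 100) := pow_le_pow_right₀ hone (by omega)
  linarith only [e1, e2, e3, e4, e5]

/-- the number of blocks in one class -/
private theorem UpB1_cnt {h k : ℝ} {n L : ℕ} (h8 : 8 ≤ h) (hLpos : 0 < L) (hL2 : (L : ℝ) ≤ 2 * h ^ 4)
    (hk1 : h ^ 100 ≤ k) (hn2 : k < (n + 1) * h ^ 50) : h ^ 46 / 4 ≤ ((n / L : ℕ) : ℝ) := by
  have hone : 1 ≤ h := by linarith only [h8]
  have h0 : 0 < h := zero_lt_one.trans_le hone
  have f2 : (n : ℝ) < L * ((n / L : ℕ) + 1 : ℝ) := by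
    have g1 : n < L * (n / L + 1) := Nat.lt_mul_div_succ n hLpos
    exact_mod_cast g1
  have f3 : h ^ 50 < n + 1 := by
    have g1 : h ^ 100 < (n + 1) * h ^ 50 := hk1.trans_lt hn2
    have g2 : h ^ 100 = h ^ 50 * h ^ 50 := by ring
    rw [g2] at g1
    exact lt_of_mul_lt_mul_right g1 (pow_nonneg h0.le 50)
  have f4 : (L : ℝ) * ((n / L : ℕ) + 1 : ℝ) ≤ 2 * h ^ 4 * ((n / L : ℕ) + 1 : ℝ) :=
    mul_le_mul_of_nonneg_right hL2 (by positivity)
  have f6 : h ^ 50 = h ^ 4 * h ^ 46 := by ring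
  have f7 : 1 ≤ h ^ 4 := one_le_pow₀ hone
  have f8 : (8 : ℝ) ≤ h ^ 46 := h8.trans (le_self_pow₀ hone (by norm_num))
  have f9 : h ^ 4 * h ^ 46 < h ^ 4 * (2 * ((n / L : ℕ) + 1 : ℝ) + 1) := by
    linarith only [f2, f3, f4, f6, f7]
  have f10 : h ^ 46 < 2 * ((n / L : ℕ) + 1 : ℝ) + 1 :=
    lt_of_mul_lt_mul_left f9 (pow_nonneg h0.le 4)
  linarith only [f8, f10]

private theorem UpB1_exp {h ε : ℝ} :
    ε ^ 2 * h ^ 42 / 1024 * (h ^ 52) ^ 2 = h ^ 46 / 4 * (ε * h ^ 50 / 8) ^ 2 / 4 := by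
  ring

theorem UpB1_one {a h ε : ℝ} {M : Mdl d a h} {p q : ℕ} (hM : GoodN Q m p M)
    (e : Fin d → ℝ) (he : 0 < rn e) (hε : 0 < ε) (hq : 110 ≤ q) (hp : q + 10 ≤ p)
    (h1 : rn e + 2 * d + 8 ≤ h) (h2 : 8 / ε ≤ h) (h3 : ε ≤ h) (h4 : 4 / rn e ≤ h)
    (hblock : ∀ x y : V d, rn (toR (y - x) - (h ^ 50) • e) ≤ 10 * d →
      M.E (fun τ => T (res h (edg {z | nm (z - x) ≤ h ^ 53}) τ) x y) ≤ h ^ 50 * (μ e + ε / 4))
    (x : V d) (k : ℕ) (hx : nm x ≤ h ^ q) (hk1 : h ^ 100 ≤ k) (hk2 : (k : ℝ) ≤ h ^ q) :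
    M.P (fun τ => ¬ T (res h (seg x e k (h ^ 60)) τ) x (x + rnd ((k : ℝ) • e)) ≤ k * (μ e + ε)) ≤
      h ^ 5 * Real.exp (-(ε ^ 2 * h ^ 42 / 1024)) := by
  classical
  have hd : (0 : ℝ) ≤ d := Nat.cast_nonneg d
  have h8 : 8 ≤ h := by linarith
  have h0 : 0 < h := by linarith
  have hone : 1 ≤ h := by linarith
  have hpw : ∀ i : ℕ, 0 < h ^ i := fun i => pow_pos h0 i
  have hpm : ∀ i j : ℕ, i ≤ j → h ^ i ≤ h ^ j := fun i j hij => pow_le_pow_right₀ hone hij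
  have ha := hM.apos
  have hah := hM.alt
  set ρ : ℝ := h ^ 50 with hρ
  have hρ0 : 0 < ρ := hpw 50
  -- numerical facts
  have c2 : h * (ρ * rn e + 2 * d) ≤ h ^ 52 := UpB1_c2 hone hd h1
  have c3 : h ^ 52 ≤ ε / 8 * h ^ 100 := UpB1_c3 hone hε h2
  have c4 : h ^ 53 + d ≤ h ^ 60 := UpB1_c4 h8 (by linarith only [h1, he, hd])
  have c5 : 2 * h ^ 53 < h ^ 54 * rn e - 2 * d := UpB1_c5 h8 he (by linarith only [h1, he]) h4
  have c7 : h ^ q + (h ^ q * rn e + d) + h ^ 53 ≤ h ^ (p + 100) := UpB1_c7 h8 hd h1 hq hp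
  -- the blocks
  set n : ℕ := ⌊(k : ℝ) / ρ⌋₊ with hn
  have hn1 : (n : ℝ) * ρ ≤ k := by
    have := Nat.floor_le (show 0 ≤ (k : ℝ) / ρ by positivity)
    rwa [← hn, le_div_iff₀ hρ0] at this
  have hn2 : (k : ℝ) < (n + 1) * ρ := by
    have := Nat.lt_floor_add_one ((k : ℝ) / ρ)
    rwa [← hn, div_lt_iff₀ hρ0] at this
  set y : ℕ → V d := UpB1_x x e ρ with hy
  have hyj : ∀ j, y j = x + rnd (((j : ℝ) * ρ) • e) := fun j => rfl
  set A : ℕ → Set (Edge d) := fun j => edg {z | nm (z - y j) ≤ h ^ 53} with hA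
  set F : ℕ → Env d → ℝ := fun j τ => T (res h (A j) τ) (y j) (y (j + 1)) with hF
  set L : ℕ := ⌈h ^ 4⌉₊ with hL
  have hL1 : h ^ 4 ≤ L := Nat.le_ceil _
  have hL2 : (L : ℝ) ≤ 2 * h ^ 4 := by
    have e1 := Nat.ceil_lt_add_one (hpw 4).le
    have e2 : 1 ≤ h ^ 4 := one_le_pow₀ hone
    rw [← hL] at e1
    linarith
  have hLpos : 0 < L := by
    have : (0 : ℝ) < L := (hpw 4).trans_le hL1
    exact_mod_cast this
  -- the steps
  have hstep : ∀ j, nm (y (j + 1) - y j) ≤ ρ * rn e + 2 * d := by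
    intro j
    have e1 := UpB1_nm_le x e ((j : ℝ) * ρ) (((j + 1 : ℕ) : ℝ) * ρ)
    have e2 : |((j + 1 : ℕ) : ℝ) * ρ - (j : ℝ) * ρ| = ρ := by
      push_cast
      rw [show ((j : ℝ) + 1) * ρ - (j : ℝ) * ρ = ρ by ring, abs_of_pos hρ0]
    rw [e2] at e1
    exact e1
  have hstep2 : ∀ j, rn (toR (y (j + 1) - y j) - ρ • e) ≤ 10 * d := by
    intro j
    have e1 := UpB1_two x (((j : ℝ) * ρ) • e) ((((j + 1 : ℕ) : ℝ) * ρ) • e)
    rw [← sub_smul] at e1
    have e2 : ((j + 1 : ℕ) : ℝ) * ρ - (j : ℝ) * ρ = ρ := by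
      push_cast
      ring
    rw [e2] at e1
    have e3 : rn (toR (y (j + 1) - y j) - ρ • e) ≤ 2 * d := e1
    linarith
  -- properties of the F j
  have hF0 : ∀ j, ∀ τ, Bd a h τ → 0 ≤ F j τ ∧ F j τ ≤ h ^ 52 := by
    intro j τ hτ
    have hb := Bd_res hah hτ (A j)
    refine ⟨T_nonneg hb ha.le _ _, ?_⟩
    have e1 := T_upper hb ha.le (y j) (y (j + 1))
    have e2 : h * nm (y (j + 1) - y j) ≤ h * (ρ * rn e + 2 * d) :=
      mul_le_mul_of_nonneg_left (hstep j) h0.le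
    exact e1.trans (e2.trans c2)
  have hFE : ∀ j, M.E (F j) ≤ ρ * (μ e + ε / 4) := fun j => hblock (y j) (y (j + 1)) (hstep2 j)
  have hmu0 : 0 ≤ μ e + ε / 4 := by
    have e1 : 0 ≤ M.E (F 0) := M.E_nonneg fun τ hτ => (hF0 0 τ hτ).1
    have e2 := e1.trans (hFE 0)
    by_contra hcon
    push Not at hcon
    have := mul_neg_of_pos_of_neg hρ0 hcon
    linarith
  have hAR : ∀ j, j < n → ∀ f ∈ A j, nm f.1 ≤ h ^ (p + 100) := by
    intro j hj f hf
    have e1 : nm (f.1 - y j) ≤ h ^ 53 := hf.1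
    have e2 := nm_add_le (f.1 - y j) (y j)
    rw [sub_add_cancel] at e2
    have e3 : nm (y j) ≤ nm x + nm (rnd (((j : ℝ) * ρ) • e)) := by
      rw [hyj]
      exact nm_add_le _ _
    have e4 : nm (rnd (((j : ℝ) * ρ) • e)) ≤ (j : ℝ) * ρ * rn e + d := by
      have f1 := rnd_near (((j : ℝ) * ρ) • e)
      have f2 := rn_add_le (toR (rnd (((j : ℝ) * ρ) • e)) - ((j : ℝ) * ρ) • e)
        (((j : ℝ) * ρ) • e)
      rw [sub_add_cancel, rn_smul, abs_of_nonneg (by positivity)] at f2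
      rw [nm_eq_rn]
      linarith
    have e5 : (j : ℝ) * ρ * rn e ≤ h ^ q * rn e := by
      have f1 : (j : ℝ) * ρ ≤ n * ρ := by
        have : (j : ℝ) ≤ n := by exact_mod_cast hj.le
        exact mul_le_mul_of_nonneg_right this hρ0.le
      exact mul_le_mul_of_nonneg_right (f1.trans (hn1.trans hk2)) he.le
    linarith
  have hdisj : ∀ r, ∀ i ∈ (range n).filter (fun j => j % L = r),
      ∀ j ∈ (range n).filter (fun j => j % L = r), i ≠ j → Disjoint (A i) (A j) := by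
    have main : ∀ i j : ℕ, i < j → i % L = j % L → Disjoint (A i) (A j) := by
      intro i j hij hmod
      have e1 : L ≤ j - i := by
        have f1 : (j - i) % L = 0 := Nat.sub_mod_eq_zero_of_mod_eq hmod.symm
        exact Nat.le_of_dvd (by omega) (Nat.dvd_of_mod_eq_zero f1)
      have e2 : (L : ℝ) ≤ (j : ℝ) - i := by
        have f1 : (L : ℝ) ≤ ((j - i : ℕ) : ℝ) := by exact_mod_cast e1
        rwa [Nat.cast_sub hij.le] at f1
      have e3 := UpB1_nm_ge x e ((i : ℝ) * ρ) ((j : ℝ) * ρ)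
      have e4 : h ^ 54 ≤ |(j : ℝ) * ρ - (i : ℝ) * ρ| := by
        rw [← sub_mul, abs_of_nonneg (mul_nonneg (by linarith [hpw 4]) hρ0.le)]
        calc h ^ 54 = h ^ 4 * ρ := by rw [hρ]; ring
          _ ≤ ((j : ℝ) - i) * ρ := mul_le_mul_of_nonneg_right (hL1.trans e2) hρ0.le
      have e5 : h ^ 54 * rn e ≤ |(j : ℝ) * ρ - (i : ℝ) * ρ| * rn e :=
        mul_le_mul_of_nonneg_right e4 he.le
      have e6 : 2 * h ^ 53 < nm (y j - y i) := by
        have : nm (y j - y i) = nm ((x + rnd (((j : ℝ) * ρ) • e)) - (x + rnd (((i : ℝ) * ρ) • e))) :=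
          rfl
        rw [this]
        linarith
      rw [Set.disjoint_left]
      intro f hf hf'
      have g1 : nm (f.1 - y i) ≤ h ^ 53 := hf.1
      have g2 : nm (f.1 - y j) ≤ h ^ 53 := hf'.1
      have g3 := nm_add_le (f.1 - y i) (y j - f.1)
      rw [show f.1 - y i + (y j - f.1) = y j - y i by abel, nm_sub_comm (y j) f.1] at g3
      linarith
    intro r i hi j hj hij
    rw [mem_filter] at hi hj
    rcases lt_or_gt_of_ne hij with hlt | hlt
    · exact main i j hlt (hi.2.trans hj.2.symm)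
    · exact (main j i hlt (hj.2.trans hi.2.symm)).symm
  -- the tail of every class
  have htail : ∀ r ∈ range L, M.P (fun τ => ((range n).filter (fun j => j % L = r)).card *
      (ρ * (μ e + ε / 4) + ε * ρ / 8) ≤ ∑ j ∈ (range n).filter (fun j => j % L = r), F j τ) ≤
      Real.exp (-(ε ^ 2 * h ^ 42 / 1024)) := by
    intro r hr
    rw [mem_range] at hr
    have e1 := sum_tail hM ((range n).filter (fun j => j % L = r)) A (hdisj r)
      (fun i hi => hAR i (mem_range.1 (mem_filter.1 hi).1)) F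
      (fun i _ => dependsOn_T_res h (A i) (y i) (y (i + 1))) (h ^ 52) (ρ * (μ e + ε / 4))
      (ε * ρ / 8) (hpw 52) (fun i _ => hF0 i) (fun i _ => hFE i) (by positivity) (by
        have f1 : ρ * h ^ 2 = h ^ 52 := by rw [hρ]; ring
        rw [← f1]
        have f2 : h ≤ h ^ 2 := le_self_pow₀ hone (by norm_num)
        have f3 : ρ * (ε / 8) ≤ ρ * h ^ 2 :=
          mul_le_mul_of_nonneg_left (by linarith only [h3, f2, hε]) hρ0.le
        linarith only [f3])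
    refine e1.trans (Real.exp_le_exp.2 (neg_le_neg ?_))
    have e2 : h ^ 46 / 4 ≤ (((range n).filter (fun j => j % L = r)).card : ℝ) := by
      refine (UpB1_cnt h8 hLpos hL2 hk1 hn2).trans ?_
      exact_mod_cast UpB1_card n L r hr
    have e3 : ε ^ 2 * h ^ 42 / 1024 = h ^ 46 / 4 * (ε * ρ / 8) ^ 2 / (4 * (h ^ 52) ^ 2) := by
      rw [← div_div, eq_div_iff (pow_ne_zero 2 (hpw 52).ne')]
      exact UpB1_exp
    rw [e3]
    gcongr
  -- off the failure
  have hmain : M.P (fun τ => ¬ T (res h (seg x e k (h ^ 60)) τ) x (x + rnd ((k : ℝ) • e)) ≤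
      k * (μ e + ε)) ≤ M.P (fun τ => ∃ r ∈ range L,
        ((range n).filter (fun j => j % L = r)).card *
      (ρ * (μ e + ε / 4) + ε * ρ / 8) ≤ ∑ j ∈ (range n).filter (fun j => j % L = r), F j τ) := by
    refine M.P_mono fun τ hτ hbad => ?_
    by_contra hcon
    push Not at hcon
    apply hbad
    set S : Set (Edge d) := seg x e k (h ^ 60) with hS
    have hbS := Bd_res hah hτ S
    have hAS : ∀ j, j < n → A j ⊆ S := by
      intro j hj f hf
      have g0 : ∀ z : V d, nm (z - y j) ≤ h ^ 53 →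
          ∃ t, 0 ≤ t ∧ t ≤ (k : ℝ) ∧ rn (toR (z - x) - t • e) ≤ h ^ 60 := by
        intro z hz
        refine ⟨(j : ℝ) * ρ, by positivity, ?_, ?_⟩
        · have : (j : ℝ) ≤ n := by exact_mod_cast hj.le
          exact (mul_le_mul_of_nonneg_right this hρ0.le).trans hn1
        · have f1 : toR (z - x) - ((j : ℝ) * ρ) • e = toR (z - y j) +
              (toR (y j - x) - ((j : ℝ) * ρ) • e) := by
            rw [toR_sub, toR_sub, toR_sub]
            abel
          have f2 : rn (toR (y j - x) - ((j : ℝ) * ρ) • e) ≤ d := UpB1_near x (((j : ℝ) * ρ) • e)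
          rw [f1]
          have f3 := rn_add_le (toR (z - y j)) (toR (y j - x) - ((j : ℝ) * ρ) • e)
          rw [← nm_eq_rn] at f3
          linarith
      exact ⟨g0 _ hf.1, g0 _ hf.2⟩
    have g1 : T (res h S τ) x (y n) ≤ ∑ j ∈ range n, F j τ := by
      have f1 := UpB1_tele ha.le hbS y n
      rw [hy, UpB1_zero] at f1
      refine f1.trans (sum_le_sum fun j hj => ?_)
      exact T_res_anti ha.le hah hτ (hAS j (mem_range.1 hj)) (y j) (y (j + 1))
    have g2 : T (res h S τ) (y n) (x + rnd ((k : ℝ) • e)) ≤ h ^ 52 := by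
      have f1 := T_upper hbS ha.le (y n) (x + rnd ((k : ℝ) • e))
      have f2 := UpB1_nm_le x e ((n : ℝ) * ρ) (k : ℝ)
      rw [abs_of_nonneg (by linarith)] at f2
      have f3 : ((k : ℝ) - n * ρ) * rn e ≤ ρ * rn e :=
        mul_le_mul_of_nonneg_right (by linarith) he.le
      have f4 : nm (x + rnd ((k : ℝ) • e) - y n) ≤ ρ * rn e + 2 * d := by
        rw [hyj]
        linarith
      exact f1.trans ((mul_le_mul_of_nonneg_left f4 h0.le).trans c2)
    have g3 : ∑ j ∈ range n, F j τ ≤ n * (ρ * (μ e + ε / 4) + ε * ρ / 8) := by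
      have f1 : ∑ j ∈ range n, F j τ =
          ∑ r ∈ range L, ∑ j ∈ (range n).filter (fun j => j % L = r), F j τ := by
        rw [sum_fiberwise_of_maps_to]
        intro j _
        exact mem_range.2 (Nat.mod_lt j hLpos)
      have f2 : (n : ℝ) = ∑ r ∈ range L, (((range n).filter (fun j => j % L = r)).card : ℝ) := by
        have f3 : (range n).card = ∑ r ∈ range L, ((range n).filter (fun j => j % L = r)).card :=
          card_eq_sum_card_fiberwise fun j _ => mem_coe.2 (mem_range.2 (Nat.mod_lt j hLpos))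
        rw [card_range] at f3
        exact_mod_cast f3
      rw [f1, f2, sum_mul]
      exact sum_le_sum fun r hr => (hcon r hr).le
    have g4 : (n : ℝ) * (ρ * (μ e + ε / 4) + ε * ρ / 8) ≤ k * (μ e + 3 * ε / 8) := by
      have f1 : (n : ℝ) * (ρ * (μ e + ε / 4) + ε * ρ / 8) = n * ρ * (μ e + 3 * ε / 8) := by ring
      rw [f1]
      exact mul_le_mul_of_nonneg_right hn1 (by linarith)
    have g5 : h ^ 52 ≤ ε / 8 * k := c3.trans (mul_le_mul_of_nonneg_left hk1 (by positivity))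
    have g6 := T_triangle hbS ha.le x (y n) (x + rnd ((k : ℝ) • e))
    have g7 : (k : ℝ) * (μ e + ε) = k * (μ e + 3 * ε / 8) + 5 / 8 * (ε * k) := by ring
    have g8 : 0 ≤ ε * (k : ℝ) := by positivity
    linarith
  refine hmain.trans ((M.P_exists_le _ _).trans ?_)
  refine (sum_le_sum htail).trans ?_
  rw [sum_const, card_range, nsmul_eq_mul]
  refine mul_le_mul_of_nonneg_right ?_ (Real.exp_pos _).le
  have e1 : h ^ 5 = h ^ 4 * h := by ring
  have e2 : h ^ 4 * 2 ≤ h ^ 4 * h := mul_le_mul_of_nonneg_left (by linarith) (hpw 4).le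
  linarith

end Pool.Agent.W_1b8d5d_nd

end

/-! ### UpB -/

section

/-!
MP_1b8d5d_pr, [ND]: the upper tail in every direction.
-/

set_option autoImplicit false

namespace Pool.Agent.W_1b8d5d_nd

open Finset Filter Topology
open Pool.Agent.W_1b8d5d_h85 (Ex Pr Vr avg)

variable {d : ℕ} [NeZero d] {Q : Qn} {m : V d → ℝ} {μ : (Fin d → ℝ) → ℝ} {X : Vtx d}

private theorem UpB_P_false {a b : ℝ} (M : Mdl d a b) {p : Env d → Prop}
    (hp : ∀ τ, Bd a b τ → ¬ p τ) : M.P p ≤ 0 := by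
  classical
  rw [M.P_def]
  refine M.E_le_of_le fun τ hτ => ?_
  rw [if_neg (hp τ hτ)]

/-- The upper tail. PROOF. If `e = 0` the statement is trivial (`rnd 0 = 0`, `T x x = 0`, `μ 0 = 0` by `hom`). Let `e ≠ 0`,
`ρ = h ^ 50` (real), `x_j = x + rnd ((j ρ) • e)` for `j ≤ n = ⌊k / ρ⌋`; `rn (toR (x_{j+1} - x_j) - ρ • e) ≤ 2 d`; the last piece
from `x_n` to `x + rnd (k • e)` has crude cost `≤ h (ρ rn e + 2 d) ≤ h ^ 52 ≤ ε k / 8` (`T_upper` in the restricted
environment, `Bd_res`). With `A_j = edg {z | nm (z - x_j) ≤ h ^ 53}`, contained in `seg x e k (h ^ 60)`, the restricted passage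
time is at most the sum of the `F_j = T (res h A_j τ) x_j x_{j+1}` (`T_triangle`, `T_res_anti`) plus the last piece. `F_j`
depends on `A_j` (`dependsOn_T_res`), `0 ≤ F_j ≤ B = h ^ 52`, mean `≤ ρ (μ e + ε / 4)` (`block_mean`). Split the `j < n` in the
classes modulo `L = ⌈h ^ 4⌉`: for `j ≠ j'` in the same class `nm (x_j - x_j') ≥ L ρ rn e - 2 d > 2 h ^ 53`, so `A_j, A_j'` are
disjoint. `sum_tail` for each class `s` with `t = ε ρ / 8`, `B = h ^ 52`: failure probability `≤ exp (-(s.card t^2 / (4 B^2)))`,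
`s.card ≥ n / L - 1 ≥ h ^ 46 / 4`, so `≤ exp (- h ^ 40)`. Off the failure the sum is `≤ n ρ (μ e + 3 ε / 8)`, and `n ρ ≤ k`,
`0 ≤ μ e` (`rn_le_mu`, `mu_neg`). Union over the classes (`≤ h ^ 5`), `k ≤ h ^ q` and `x` (`nm x ≤ h ^ q`: at most
`(2 h ^ q + 1) ^ d` points). -/
theorem upper_dir (hX : IsVtx X μ) (hmu : MuM μ m) (hN : HasN Q m) (p q : ℕ) (hq : 110 ≤ q) (hp : q + 10 ≤ p)
    (e : Fin d → ℝ) (ε : ℝ) (hε : 0 < ε) : ∀ᶠ h : ℝ in atTop, ∀ (a : ℝ) (M : Mdl d a h), GoodN Q m p M →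
      M.P (fun τ => ¬ ∀ (x : V d) (k : ℕ), nm x ≤ h ^ q → h ^ 100 ≤ k → (k : ℝ) ≤ h ^ q →
        T (res h (seg x e k (h ^ 60)) τ) x (x + rnd ((k : ℝ) • e)) ≤ k * (μ e + ε)) ≤ Real.exp (-h) := by
  classical
  rcases eq_or_ne e 0 with rfl | he0
  · filter_upwards [eventually_ge_atTop (1 : ℝ)] with h h1 a M hM
    refine (UpB_P_false M fun τ hτ hbad => ?_).trans (Real.exp_pos _).le
    apply hbad
    intro x k _ _ _
    have hr : rnd ((k : ℝ) • (0 : Fin d → ℝ)) = 0 := by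
      funext i
      simp [rnd]
    have hmu0 : μ 0 = 0 := by
      have := hmu.hom 0 0 le_rfl
      rwa [zero_smul, zero_mul] at this
    rw [hr, add_zero, T_self (Bd_res hM.alt hτ _) hM.apos.le, hmu0, zero_add]
    positivity
  have he : 0 < rn e := lt_of_le_of_ne (rn_nonneg e) (fun h => he0 (rn_eq_zero.1 h.symm))
  have hb := block_mean hX hmu hN p (by omega) e (ε / 4) (by positivity)
  have hexp : ∀ᶠ h : ℝ in atTop, h ^ ((q + 1) * d + q + 6) ≤ Real.exp h := by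
    have h1 := Real.tendsto_pow_mul_exp_neg_atTop_nhds_zero ((q + 1) * d + q + 6)
    filter_upwards [h1.eventually_lt_const (show (0 : ℝ) < 1 by norm_num)] with h h2
    rw [Real.exp_neg, ← div_eq_mul_inv, div_lt_one (Real.exp_pos h)] at h2
    exact h2.le
  filter_upwards [hb, hexp, eventually_ge_atTop (rn e + 2 * d + 8), eventually_ge_atTop (8 / ε),
    eventually_ge_atTop ε, eventually_ge_atTop (4 / rn e), eventually_ge_atTop (2048 / ε ^ 2)]
    with h hb hexp h1 h2 h3 h4 h5 a M hM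
  have hd : (0 : ℝ) ≤ d := Nat.cast_nonneg d
  have h8 : 8 ≤ h := by linarith
  have h0 : 0 < h := by linarith
  have hone : 1 ≤ h := by linarith
  have hq1 : 1 ≤ h ^ q := one_le_pow₀ hone
  set N : ℤ := ⌊h ^ q⌋ with hN'
  set K : ℕ := ⌊h ^ q⌋₊ with hK
  set box : Finset (V d) := Fintype.piFinset (fun _ : Fin d => Finset.Icc (-N) N) with hbox
  set bd : ℝ := h ^ 5 * Real.exp (-(ε ^ 2 * h ^ 42 / 1024)) with hbd
  have hbd0 : 0 ≤ bd := by positivity
  have hmono : M.P (fun τ => ¬ ∀ (x : V d) (k : ℕ), nm x ≤ h ^ q → h ^ 100 ≤ k → (k : ℝ) ≤ h ^ q →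
        T (res h (seg x e k (h ^ 60)) τ) x (x + rnd ((k : ℝ) • e)) ≤ k * (μ e + ε)) ≤
      M.P (fun τ => ∃ i ∈ box ×ˢ range (K + 1), (nm i.1 ≤ h ^ q ∧ h ^ 100 ≤ i.2 ∧
        (i.2 : ℝ) ≤ h ^ q) ∧ ¬ T (res h (seg i.1 e i.2 (h ^ 60)) τ) i.1
          (i.1 + rnd ((i.2 : ℝ) • e)) ≤ i.2 * (μ e + ε)) := by
    refine M.P_mono fun τ _ hbad => ?_
    push Not at hbad
    obtain ⟨x, k, g1, g2, g3, g4⟩ := hbad
    refine ⟨(x, k), ?_, ⟨g1, g2, g3⟩, not_le.2 g4⟩
    rw [mem_product]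
    refine ⟨?_, ?_⟩
    · rw [hbox, Fintype.mem_piFinset]
      intro i
      have f1 := (abs_le_nm x i).trans g1
      rw [abs_le] at f1
      rw [mem_Icc]
      have f2 : -x i ≤ N := by
        rw [hN', Int.le_floor]
        push_cast
        linarith
      have f3 : x i ≤ N := by
        rw [hN', Int.le_floor]
        exact f1.2
      exact ⟨by linarith, f3⟩
    · rw [mem_range]
      have : k ≤ K := Nat.le_floor g3
      show k < K + 1
      omega
  have heach : ∀ i ∈ box ×ˢ range (K + 1), M.P (fun τ => (nm i.1 ≤ h ^ q ∧ h ^ 100 ≤ i.2 ∧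
        (i.2 : ℝ) ≤ h ^ q) ∧ ¬ T (res h (seg i.1 e i.2 (h ^ 60)) τ) i.1
          (i.1 + rnd ((i.2 : ℝ) • e)) ≤ i.2 * (μ e + ε)) ≤ bd := by
    intro i _
    by_cases hc : nm i.1 ≤ h ^ q ∧ h ^ 100 ≤ i.2 ∧ (i.2 : ℝ) ≤ h ^ q
    · refine (M.P_mono fun τ _ hτ => hτ.2).trans ?_
      exact UpB1_one hM e he hε hq hp h1 h2 h3 h4 (hb a M hM) i.1 i.2 hc.1 hc.2.1 hc.2.2
    · exact (UpB_P_false M fun τ _ hτ => hc hτ.1).trans hbd0
  refine hmono.trans ((M.P_exists_le _ _).trans ((sum_le_sum heach).trans ?_))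
  rw [sum_const, card_product, card_range, nsmul_eq_mul]
  have hbc : (box.card : ℝ) ≤ h ^ ((q + 1) * d) := by
    have f1 : box.card = ((Finset.Icc (-N) N).card) ^ d := by
      rw [hbox, Fintype.card_piFinset, prod_const, card_univ, Fintype.card_fin]
    have hN0 : 0 ≤ N := by
      rw [hN', Int.floor_nonneg]
      positivity
    have f2 : ((Finset.Icc (-N) N).card : ℝ) ≤ h ^ (q + 1) := by
      rw [Int.card_Icc]
      have f3 : ((N + 1 - -N).toNat : ℝ) = 2 * (N : ℝ) + 1 := by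
        have f4 : ((N + 1 - -N).toNat : ℤ) = 2 * N + 1 := by
          rw [Int.toNat_of_nonneg (by linarith)]
          ring
        exact_mod_cast f4
      rw [f3]
      have f5 : (N : ℝ) ≤ h ^ q := Int.floor_le _
      have f6 : h ^ (q + 1) = h ^ q * h := by ring
      have f7 : h ^ q * 3 ≤ h ^ q * h := mul_le_mul_of_nonneg_left (by linarith) (by positivity)
      linarith
    rw [f1, pow_mul]
    push_cast
    exact pow_le_pow_left₀ (Nat.cast_nonneg _) f2 d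
  have hKc : ((K + 1 : ℕ) : ℝ) ≤ h ^ (q + 1) := by
    push_cast
    have f5 : (K : ℝ) ≤ h ^ q := Nat.floor_le (by positivity)
    have f6 : h ^ (q + 1) = h ^ q * h := by ring
    have f7 : h ^ q * 3 ≤ h ^ q * h := mul_le_mul_of_nonneg_left (by linarith) (by positivity)
    linarith
  have hE : 2 * h ≤ ε ^ 2 * h ^ 42 / 1024 := by
    have f1 : 2048 ≤ h * ε ^ 2 := by
      rw [div_le_iff₀ (by positivity)] at h5
      linarith
    have f2 : h ^ 1 ≤ h ^ 41 := pow_le_pow_right₀ hone (by norm_num)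
    rw [pow_one] at f2
    have f3 : ε ^ 2 * h ^ 42 / 1024 = h ^ 41 * (h * ε ^ 2) / 1024 := by ring
    rw [f3, le_div_iff₀ (by norm_num)]
    have f4 : h * 2048 ≤ h ^ 41 * (h * ε ^ 2) := by gcongr
    linarith
  calc ((box.card * (K + 1) : ℕ) : ℝ) * bd
      ≤ (h ^ ((q + 1) * d) * h ^ (q + 1)) * bd := by
        refine mul_le_mul_of_nonneg_right ?_ hbd0
        rw [Nat.cast_mul]
        exact mul_le_mul hbc hKc (Nat.cast_nonneg _) (by positivity)
    _ = h ^ ((q + 1) * d + q + 6) * Real.exp (-(ε ^ 2 * h ^ 42 / 1024)) := by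
        rw [hbd, ← mul_assoc, ← pow_add, ← pow_add,
          show (q + 1) * d + (q + 1) + 5 = (q + 1) * d + q + 6 by ring]
    _ ≤ Real.exp h * Real.exp (-(2 * h)) := by
        refine mul_le_mul hexp (Real.exp_le_exp.2 (neg_le_neg hE)) (Real.exp_pos _).le
          (Real.exp_pos _).le
    _ = Real.exp (-h) := by
        rw [← Real.exp_add]
        congr 1
        ring

end Pool.Agent.W_1b8d5d_nd

end

/-! ### UpC -/

section

/-!
MP_1b8d5d_pr, [ND]: the linear upper bound.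
-/

set_option autoImplicit false

namespace Pool.Agent.W_1b8d5d_nd

open Finset Filter Topology
open Pool.Agent.W_1b8d5d_h85 (Ex Pr Vr avg)

variable {d : ℕ} [NeZero d] {Q : Qn} {m : V d → ℝ} {μ : (Fin d → ℝ) → ℝ} {X : Vtx d}

/-- The signs. -/
private def UpC_s (b : Bool) : ℤ := if b then 1 else -1

/-- The unit vectors. -/
private noncomputable def UpC_e (i : Fin d) (b : Bool) : Fin d → ℝ := Pi.single i (UpC_s b : ℝ)

private theorem UpC_rn (i : Fin d) (b : Bool) : rn (UpC_e i b) = 1 := by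
  unfold rn UpC_e
  rw [Finset.sum_eq_single i]
  · rw [Pi.single_eq_same]
    unfold UpC_s
    cases b <;> simp
  · intro j _ hj
    rw [Pi.single_eq_of_ne hj, abs_zero]
  · intro h
    exact absurd (mem_univ i) h

private theorem UpC_rnd (i : Fin d) (b : Bool) (k : ℕ) :
    rnd ((k : ℝ) • UpC_e i b) = (UpC_s b * (k : ℤ)) • (dir i : V d) := by
  funext j
  show ⌊((k : ℝ) • UpC_e i b) j⌋ = ((UpC_s b * (k : ℤ)) • (Pi.single i 1 : Fin d → ℤ)) j
  unfold UpC_e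
  rw [Pi.smul_apply, Pi.smul_apply, smul_eq_mul, smul_eq_mul]
  rcases eq_or_ne j i with rfl | hj
  · rw [Pi.single_eq_same, Pi.single_eq_same, mul_one]
    have h : (k : ℝ) * (UpC_s b : ℝ) = ((UpC_s b * (k : ℤ) : ℤ) : ℝ) := by
      push_cast
      ring
    rw [h, Int.floor_intCast]
  · rw [Pi.single_eq_of_ne hj, Pi.single_eq_of_ne hj]
    simp

private theorem UpC_nm (i : Fin d) (t : ℤ) : nm (t • (dir i : V d)) = |(t : ℝ)| := nm_smul_dir t i

/-- One coordinate. -/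
private theorem UpC_step {a h C : ℝ} {q : ℕ} {τ : Env d} (ha : 0 < a) (hτ : Bd a h τ) (h4 : 4 ≤ h) (hq : 110 ≤ q)
    (hC : 0 ≤ C)
    (hG : ∀ (i : Fin d) (b : Bool) (x : V d) (k : ℕ), nm x ≤ h ^ (q + 2) → h ^ 100 ≤ k → (k : ℝ) ≤ h ^ (q + 2) →
      T τ x (x + (UpC_s b * (k : ℤ)) • (dir i : V d)) ≤ k * C) (i : Fin d) (x : V d) (t : ℤ)
    (hx : nm x ≤ h ^ (q + 1)) (ht : |(t : ℝ)| ≤ h ^ (q + 1)) :
    T τ x (x + t • (dir i : V d)) ≤ C * (|(t : ℝ)| + 4 * h ^ 100) := by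
  have h1 : 1 ≤ h := by linarith
  obtain ⟨b, hb⟩ : ∃ b : Bool, t = UpC_s b * (t.natAbs : ℤ) := by
    rcases le_total 0 t with h0 | h0
    · refine ⟨true, ?_⟩
      unfold UpC_s
      simp only [if_true]
      omega
    · refine ⟨false, ?_⟩
      unfold UpC_s
      simp only [Bool.false_eq_true, if_false]
      omega
  set K : ℕ := ⌈h ^ 100⌉₊ with hK
  have hK1 : h ^ 100 ≤ K := Nat.le_ceil _
  have hK2 : (K : ℝ) ≤ 2 * h ^ 100 := by
    have := Nat.ceil_lt_add_one (a := h ^ 100) (by positivity)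
    have h2 : (1 : ℝ) ≤ h ^ 100 := one_le_pow₀ h1
    linarith
  have hp1 : h ^ 100 ≤ h ^ q := pow_le_pow_right₀ h1 (by omega)
  have hpq : 0 < h ^ q := by positivity
  have e1 : h ^ (q + 1) = h * h ^ q := by ring
  have e2 : h ^ (q + 2) = h * (h * h ^ q) := by ring
  have e3 : 4 * (h * h ^ q) ≤ h * (h * h ^ q) := mul_le_mul_of_nonneg_right h4 (by positivity)
  have e4 : 4 * h ^ q ≤ h * h ^ q := mul_le_mul_of_nonneg_right h4 (by positivity)
  have htn : ((t.natAbs : ℕ) : ℝ) = |(t : ℝ)| := by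
    rw [Nat.cast_natAbs]
    push_cast
    rfl
  have hsb : UpC_s (!b) = -UpC_s b := by
    unfold UpC_s
    cases b <;> simp
  -- the two steps
  have s1 := hG i (!b) x K (by linarith) hK1 (by linarith)
  set y : V d := x + (UpC_s (!b) * (K : ℤ)) • (dir i : V d) with hy
  have hy2 : nm y ≤ h ^ (q + 2) := by
    have h2 := nm_add_le x ((UpC_s (!b) * (K : ℤ)) • (dir i : V d))
    rw [UpC_nm] at h2
    have h3 : |((UpC_s (!b) * (K : ℤ) : ℤ) : ℝ)| = K := by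
      push_cast
      rw [abs_mul, Nat.abs_cast]
      have : |(UpC_s (!b) : ℝ)| = 1 := by
        unfold UpC_s
        cases b <;> simp
      rw [this, one_mul]
    rw [h3] at h2
    linarith
  have hKt : ((K + t.natAbs : ℕ) : ℝ) = K + |(t : ℝ)| := by
    push_cast
    rw [htn]
  have s2 := hG i b y (K + t.natAbs) hy2 (by rw [hKt]; have := abs_nonneg (t : ℝ); linarith)
    (by rw [hKt]; linarith)
  rw [hKt] at s2
  have hz : y + (UpC_s b * ((K + t.natAbs : ℕ) : ℤ)) • (dir i : V d) = x + t • (dir i : V d) := by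
    rw [hy, add_assoc, ← add_smul, hsb]
    congr 2
    have hb2 : UpC_s b * |t| = t := by
      rw [← Int.natCast_natAbs]
      exact hb.symm
    push_cast
    linear_combination hb2
  rw [hz] at s2
  have s3 := T_triangle hτ ha.le x y (x + t • (dir i : V d))
  nlinarith

/-- Linear upper bound, strong form. PROOF. `upper_dir` (for `q + 2`, `ε = 1`) for the `2 d` vectors `± e_i` (`T ≤ T (res ..)` by
`T_le_res`; `rnd ((k : ℝ) • e) = ± k • dir i`), `μ (± e_i) + 1 ≤ C₀` (`abs_mu_le`). From `x` to `z` coordinate by coordinate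
(`T_triangle`, all intermediate points have `nm ≤ 3 h ^ q ≤ h ^ (q + 1)`). A coordinate step of size `k ≥ h ^ 100` costs
`≤ C₀ k`. A step of size `k < h ^ 100` in the direction `e_i`: first `- K e_i` and then `(K + k) e_i`, `K = ⌈h ^ 100⌉`, cost
`≤ C₀ (2 K + k) ≤ 5 C₀ h ^ 100`. -/
theorem linear_strong (hX : IsVtx X μ) (hmu : MuM μ m) (hN : HasN Q m) : ∃ C : ℝ, 1 ≤ C ∧ ∀ (p q : ℕ), 110 ≤ q →
    q + 12 ≤ p → ∀ᶠ h : ℝ in atTop, ∀ (a : ℝ) (M : Mdl d a h), GoodN Q m p M →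
      M.P (fun τ => ¬ ∀ x z : V d, nm x ≤ h ^ q → nm z ≤ h ^ q → T τ x z ≤ C * (nm (z - x) + h ^ 100))
        ≤ Real.exp (-(h / 2)) := by
  classical
  obtain ⟨C1, hC1, hC2⟩ := abs_mu_le hmu
  have hd1 : (1 : ℝ) ≤ d := by exact_mod_cast Nat.one_le_iff_ne_zero.2 (NeZero.ne d)
  have hC0 : ∀ (i : Fin d) (b : Bool), μ (UpC_e i b) + 1 ≤ C1 + 1 := by
    intro i b
    have h1 := hC2 (UpC_e i b)
    rw [UpC_rn, mul_one] at h1
    linarith [le_abs_self (μ (UpC_e i b))]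
  refine ⟨4 * d * (C1 + 1), by nlinarith, fun p q hq hp => ?_⟩
  have hup : ∀ᶠ h : ℝ in atTop, ∀ ib : Fin d × Bool, ∀ (a : ℝ) (M : Mdl d a h), GoodN Q m p M →
      M.P (fun τ => ¬ ∀ (x : V d) (k : ℕ), nm x ≤ h ^ (q + 2) → h ^ 100 ≤ k → (k : ℝ) ≤ h ^ (q + 2) →
        T (res h (seg x (UpC_e ib.1 ib.2) k (h ^ 60)) τ) x (x + rnd ((k : ℝ) • UpC_e ib.1 ib.2)) ≤
          k * (μ (UpC_e ib.1 ib.2) + 1)) ≤ Real.exp (-h) :=
    eventually_all.2 fun ib => upper_dir hX hmu hN p (q + 2) (by omega) (by omega) (UpC_e ib.1 ib.2) 1 one_pos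
  have hexp : ∀ᶠ h : ℝ in atTop, 2 * (d : ℝ) * Real.exp (-h) ≤ Real.exp (-(h / 2)) := by
    have h1 : Tendsto (fun h : ℝ => Real.exp (h / 2)) atTop atTop :=
      Real.tendsto_exp_atTop.comp (tendsto_id.atTop_div_const (by norm_num))
    filter_upwards [h1.eventually_ge_atTop (2 * (d : ℝ))] with h hh
    have h2 : Real.exp (-(h / 2)) = Real.exp (h / 2) * Real.exp (-h) := by
      rw [← Real.exp_add]
      congr 1
      ring
    rw [h2]
    exact mul_le_mul_of_nonneg_right hh (Real.exp_pos _).le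
  filter_upwards [hup, hexp, eventually_ge_atTop (4 : ℝ)] with h h1 h2 h4 a M hM
  have hh1 : 1 ≤ h := by linarith
  refine le_trans ?_ h2
  have hsum : M.P (fun τ => ∃ ib ∈ (univ : Finset (Fin d × Bool)), ¬ ∀ (x : V d) (k : ℕ), nm x ≤ h ^ (q + 2) →
      h ^ 100 ≤ k → (k : ℝ) ≤ h ^ (q + 2) →
        T (res h (seg x (UpC_e ib.1 ib.2) k (h ^ 60)) τ) x (x + rnd ((k : ℝ) • UpC_e ib.1 ib.2)) ≤
          k * (μ (UpC_e ib.1 ib.2) + 1)) ≤ 2 * (d : ℝ) * Real.exp (-h) := by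
    refine (M.P_exists_le univ _).trans ?_
    refine (sum_le_sum fun ib _ => h1 ib a M hM).trans ?_
    rw [sum_const, card_univ, Fintype.card_prod, Fintype.card_fin, Fintype.card_bool, nsmul_eq_mul]
    push_cast
    linarith
  refine le_trans (M.P_mono fun τ hτ hneg => ?_) hsum
  by_contra hcon
  push Not at hcon
  apply hneg
  have hG : ∀ (i : Fin d) (b : Bool) (x : V d) (k : ℕ), nm x ≤ h ^ (q + 2) → h ^ 100 ≤ k →
      (k : ℝ) ≤ h ^ (q + 2) → T τ x (x + (UpC_s b * (k : ℤ)) • (dir i : V d)) ≤ k * (C1 + 1) := by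
    intro i b x k hx hk hk2
    have h3 := hcon (i, b) (mem_univ _) x k hx hk hk2
    have h5 := T_le_res hM.apos.le hτ (seg x (UpC_e i b) k (h ^ 60)) x (x + rnd ((k : ℝ) • UpC_e i b))
    rw [UpC_rnd] at h3 h5
    have h6 : (k : ℝ) * (μ (UpC_e i b) + 1) ≤ k * (C1 + 1) :=
      mul_le_mul_of_nonneg_left (hC0 i b) (Nat.cast_nonneg k)
    exact h5.trans (h3.trans h6)
  have hstep := UpC_step (q := q) hM.apos hτ h4 hq (show 0 ≤ C1 + 1 by linarith) hG
  intro x z hx hz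
  have hpq : 0 < h ^ q := by positivity
  have e1 : h ^ (q + 1) = h * h ^ q := by ring
  have e4 : 4 * h ^ q ≤ h * h ^ q := mul_le_mul_of_nonneg_right h4 (by positivity)
  have hzx : nm (z - x) ≤ 2 * h ^ q := by
    have h3 := nm_add_le z (-x)
    rw [nm_neg, ← sub_eq_add_neg] at h3
    linarith
  have key : ∀ S : Finset (Fin d), T τ x (fun i => if i ∈ S then z i else x i) ≤
      (C1 + 1) * (∑ i ∈ S, (|((z - x) i : ℝ)| + 4 * h ^ 100)) := by
    intro S
    induction S using Finset.induction_on with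
    | empty =>
      have h3 : (fun i => if i ∈ (∅ : Finset (Fin d)) then z i else x i) = x := by
        funext i
        simp
      rw [h3, T_self hτ hM.apos.le, sum_empty, mul_zero]
    | insert j S hj ih =>
      rw [sum_insert hj]
      set y : V d := fun i => if i ∈ S then z i else x i with hy
      have hyj : (fun i => if i ∈ insert j S then z i else x i) = y + (z j - x j) • (dir j : V d) := by
        funext i
        rw [Pi.add_apply, Pi.smul_apply]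
        show _ = y i + (z j - x j) • (Pi.single j 1 : Fin d → ℤ) i
        rcases eq_or_ne i j with rfl | hi
        · rw [if_pos (mem_insert_self _ _), Pi.single_eq_same, hy]
          simp only [if_neg hj, smul_eq_mul, mul_one]
          ring
        · rw [Pi.single_eq_of_ne hi, smul_zero, add_zero, hy]
          simp only [mem_insert, hi, false_or]
      have hny : nm y ≤ h ^ (q + 1) := by
        have h3 : nm y ≤ nm x + nm z := by
          unfold nm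
          rw [← sum_add_distrib]
          refine sum_le_sum fun i _ => ?_
          by_cases hi : i ∈ S
          · rw [hy]
            simp only [if_pos hi]
            linarith [abs_nonneg (x i : ℝ)]
          · rw [hy]
            simp only [if_neg hi]
            linarith [abs_nonneg (z i : ℝ)]
        linarith
      have hzj : |((z j - x j : ℤ) : ℝ)| ≤ h ^ (q + 1) := by
        have h3 := abs_le_nm (z - x) j
        rw [Pi.sub_apply] at h3
        linarith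
      have h3 := hstep j y (z j - x j) hny hzj
      rw [hyj]
      have h5 := T_triangle hτ hM.apos.le x y (y + (z j - x j) • (dir j : V d))
      rw [Pi.sub_apply]
      nlinarith
  have h3 := key univ
  have h5 : (fun i => if i ∈ (univ : Finset (Fin d)) then z i else x i) = z := by
    funext i
    simp
  rw [h5, sum_add_distrib, sum_const, card_univ, Fintype.card_fin, nsmul_eq_mul] at h3
  have h6 : ∑ i, |((z - x) i : ℝ)| = nm (z - x) := rfl
  rw [h6] at h3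
  refine h3.trans ?_
  have h7 : 0 ≤ nm (z - x) := nm_nonneg _
  have h8 : (0 : ℝ) < h ^ 100 := by positivity
  have h9 : (C1 + 1) * nm (z - x) ≤ 4 * d * (C1 + 1) * nm (z - x) := by
    apply mul_le_mul_of_nonneg_right _ h7
    nlinarith
  nlinarith

/-- Linear upper bound. -/
theorem linear_bound (hX : IsVtx X μ) (hmu : MuM μ m) (hN : HasN Q m) : ∃ C : ℝ, 1 ≤ C ∧ ∀ (p q : ℕ), 110 ≤ q →
    q + 12 ≤ p → ∀ᶠ h : ℝ in atTop, ∀ (a : ℝ) (M : Mdl d a h), GoodN Q m p M →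
      M.P (fun τ => ¬ ∀ x z : V d, nm x ≤ h ^ q → nm z ≤ h ^ q → T τ x z ≤ C * nm (z - x) + h ^ 102)
        ≤ Real.exp (-(h / 2)) := by
  obtain ⟨C, hC, H⟩ := linear_strong (X := X) hX hmu hN
  refine ⟨C, hC, fun p q hq hp => ?_⟩
  filter_upwards [H p q hq hp, eventually_ge_atTop C, eventually_ge_atTop 1] with h h1 h2 h3 a M hM
  refine (M.P_mono fun τ _ hτ => ?_).trans (h1 a M hM)
  intro h4
  apply hτ
  intro x z hx hz
  refine (h4 x z hx hz).trans ?_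
  have h5 : C * h ^ 100 ≤ h * h ^ 100 := by gcongr
  have h6 : h * h ^ 100 ≤ h ^ 102 := by
    rw [← pow_succ']
    exact pow_le_pow_right₀ h3 (by norm_num)
  linarith

end Pool.Agent.W_1b8d5d_nd

end

/-! ### UpDet -/

section

/-!
MP_1b8d5d_pr, [ND]: the deterministic part of the traveller (`reach` in `Upper`).
-/

set_option autoImplicit false

namespace Pool.Agent.W_1b8d5d_nd

open Finset Filter Topology
open Pool.Agent.W_1b8d5d_h85 (Ex Pr Vr avg)

variable {d : ℕ} [NeZero d] {Q : Qn} {m : V d → ℝ} {μ : (Fin d → ℝ) → ℝ} {X : Vtx d}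

theorem UpDet_mu_nonneg (hX : IsVtx X μ) (hs : ∀ x, μ (-x) = μ x) (x : Fin d → ℝ) : 0 ≤ μ x := by
  have h1 := rn_le_mu hs hX x
  have h2 := rn_nonneg x
  have h3 := one_le_C hX
  by_contra h4
  push Not at h4
  nlinarith

omit [NeZero d] in
/-- A finite net of the unit ball. -/
theorem UpDet_net (δ : ℝ) (hδ : 0 < δ) : ∃ S : Finset (Fin d → ℝ), (∀ u ∈ S, rn u ≤ 1) ∧
    ∀ u, rn u ≤ 1 → ∃ u' ∈ S, rn (u - u') ≤ δ := by
  have hcl : IsClosed {u : Fin d → ℝ | rn u ≤ 1} := isClosed_le continuous_rn continuous_const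
  have hb : Bornology.IsBounded {u : Fin d → ℝ | rn u ≤ 1} := by
    refine (Metric.isBounded_closedBall (x := (0 : Fin d → ℝ)) (r := 1)).subset fun u hu => ?_
    rw [Metric.mem_closedBall, dist_pi_le_iff (by norm_num)]
    intro j
    have h1 : |u j| ≤ rn u := by
      unfold rn
      exact single_le_sum (f := fun j => |u j|) (fun j _ => abs_nonneg _) (mem_univ j)
    rw [Real.dist_eq, Pi.zero_apply, sub_zero]
    exact h1.trans hu
  have hK : IsCompact {u : Fin d → ℝ | rn u ≤ 1} := Metric.isCompact_of_isClosed_isBounded hcl hb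
  obtain ⟨t, ht1, ht2⟩ := hK.elim_nhds_subcover (fun u' => {u | rn (u - u') < δ}) fun u' _ => by
    have ho : IsOpen {u : Fin d → ℝ | rn (u - u') < δ} :=
      isOpen_lt (continuous_rn.comp (continuous_id.sub continuous_const)) continuous_const
    refine ho.mem_nhds ?_
    change rn (u' - u') < δ
    rw [sub_self, rn_zero]
    exact hδ
  refine ⟨t, ht1, fun u hu => ?_⟩
  have h1 := ht2 hu
  rw [Set.mem_iUnion₂] at h1
  obtain ⟨u', hu', h2⟩ := h1
  exact ⟨u', hu', le_of_lt h2⟩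

private theorem UpDet_pow {h K : ℝ} (h1 : 1 ≤ h) (hK : K ≤ h) {a b : ℕ} (hab : a < b) : K * h ^ a ≤ h ^ b := by
  calc K * h ^ a ≤ h * h ^ a := by gcongr
    _ = h ^ (a + 1) := by rw [pow_succ']
    _ ≤ h ^ b := pow_le_pow_right₀ h1 hab

/-- The deterministic part. -/
theorem UpDet_det (hX : IsVtx X μ) (hs : ∀ x, μ (-x) = μ x) (i : Fin X.N) (ε : ℝ) (hε : 0 < ε) (hε1 : ε ≤ 1)
    (e : Fin d → ℝ) (he : ∀ u, rn u ≤ 1 → μ (e + u) ≤ dp (X.f i) (e + u) + ε / 8) (K : ℝ) (hK : 1 ≤ K)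
    (S : Finset (Fin d → ℝ)) (δ : ℝ) (hδ : (rn (X.f i) + K) * δ ≤ ε / 16) (hS1 : ∀ u ∈ S, rn u ≤ 1)
    (hS2 : ∀ u, rn u ≤ 1 → ∃ u' ∈ S, rn (u - u') ≤ δ) (D : ℕ) (hD : 1000 ≤ D) :
    ∀ᶠ h : ℝ in atTop, ∀ (a : ℝ) (τ : Env d), 0 < a → a ≤ h → Bd a h τ → LT μ (2 * D + 199) h τ →
      (∀ (x : V d) (k : ℕ), nm x ≤ h ^ (2 * D + 100) → h ^ 100 ≤ k → (k : ℝ) ≤ h ^ (2 * D + 100) →
        T (res h (seg x X.v k (h ^ 60)) τ) x (x + rnd ((k : ℝ) • X.v)) ≤ k * (μ X.v + ε / 8)) →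
      (∀ u ∈ S, ∀ (x : V d) (k : ℕ), nm x ≤ h ^ (2 * D + 100) → h ^ 100 ≤ k → (k : ℝ) ≤ h ^ (2 * D + 100) →
        T (res h (seg x (e + u) k (h ^ 60)) τ) x (x + rnd ((k : ℝ) • (e + u))) ≤ k * (μ (e + u) + ε / 8)) →
      (∀ x z : V d, nm x ≤ h ^ (2 * D + 100) → nm z ≤ h ^ (2 * D + 100) → T τ x z ≤ K * (nm (z - x) + h ^ 100)) →
      ∀ (R : ℝ) (z : V d), h ^ 101 ≤ R → R ≤ h ^ (D + 5) → rn (toR z - R • (e + X.v)) ≤ R →
        T (res h (X.Rg i (h ^ (D + 8))) τ) 0 z ≤ X.ff i z + ε * R := by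
  set f := X.f i with hf
  set cv := rn X.v with hcv
  set cf := rn f with hcf
  set ce' := rn e with hce'
  have hcv0 : 0 ≤ cv := rn_nonneg _
  have hcf0 : 0 ≤ cf := rn_nonneg _
  have hce0 : 0 ≤ ce' := rn_nonneg _
  have hd0 : (0 : ℝ) ≤ d := Nat.cast_nonneg d
  have hC4 := one_le_C hX
  have hfv : dp f X.v = 1 := (hX.cheap i).one
  set K1 : ℝ := ce' + 1 + 3 * cv + 2 * d + 1 with hK1
  set K2 : ℝ := cf * K1 + 1 with hK2
  set K4 : ℝ := 1 + 2 * d * cf + K * (ce' + 2 + 2 * cv + 3 * d) with hK4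
  have hK1p : 1 ≤ K1 := by rw [hK1]; linarith
  have hK2p : 1 ≤ K2 := by
    have : 0 ≤ cf * K1 := by positivity
    rw [hK2]
    linarith
  have hK4p : 1 ≤ K4 := by
    have h1 : 0 ≤ 2 * (d : ℝ) * cf := by positivity
    have h2 : 0 ≤ K * (ce' + 2 + 2 * cv + 3 * d) := by positivity
    rw [hK4]
    linarith
  filter_upwards [T_res_Rg hs hX (2 * D + 197) (by omega), ce_le_eps hX (1 / (2 * K2)) (by positivity),
    eventually_ge_atTop (2 : ℝ), eventually_ge_atTop (cv + d + 2), eventually_ge_atTop (2 * (cf * (1 + d)) + 1),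
    eventually_ge_atTop (16 * K4 / ε), eventually_ge_atTop (2 / ε), eventually_ge_atTop (2 * cv + 2 * d + 2 * X.C * (K2 + 1)),
    eventually_ge_atTop K2, eventually_ge_atTop (3 * cv + 3 * d + ce' + 2)]
    with h hRg hce h2 hA hB hE1 hE2 hH hK2h hG
  intro a τ ha hah hτ hLT hv hSu hlin R z hR1 hR2 hz
  have h1 : (1 : ℝ) ≤ h := by linarith only [h2]
  have h0 : (0 : ℝ) < h := by linarith only [h2]
  have hres := Bd_res hah hτ (X.Rg i (h ^ (D + 8)))
  -- powers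
  have p1 : (1 : ℝ) ≤ h ^ 101 := one_le_pow₀ h1
  have hR1' : 1 ≤ R := p1.trans hR1
  have hR0 : 0 < R := by linarith only [hR1']
  have hp100 : h ^ 100 + 1 ≤ R := by
    have h3 : 2 * h ^ 100 ≤ h ^ 101 := UpDet_pow h1 h2 (by norm_num)
    have h4 : (1 : ℝ) ≤ h ^ 100 := one_le_pow₀ h1
    linarith only [h3, h4, hR1]
  have hp61 : h ^ 61 ≤ R := (pow_le_pow_right₀ h1 (by norm_num)).trans hR1
  have hp61' : (1 : ℝ) ≤ h ^ 61 := one_le_pow₀ h1
  have hRd : (d : ℝ) ≤ R * d := le_mul_of_one_le_left hd0 hR1'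
  have hRcv : cv ≤ R * cv := le_mul_of_one_le_left hcv0 hR1'
  -- the integer part
  obtain ⟨k, hk1, hk2⟩ : ∃ k : ℕ, (k : ℝ) ≤ R ∧ R < k + 1 :=
    ⟨⌊R⌋₊, Nat.floor_le hR0.le, Nat.lt_floor_add_one R⟩
  have hk0 : (0 : ℝ) ≤ k := Nat.cast_nonneg k
  have hk100 : h ^ 100 ≤ k := by linarith only [hp100, hk2]
  have hkq : (k : ℝ) ≤ h ^ (2 * D + 100) := (hk1.trans hR2).trans (pow_le_pow_right₀ h1 (by omega))
  -- the vector `u`
  obtain ⟨u, hu⟩ : ∃ u : Fin d → ℝ, u = R⁻¹ • (toR z - R • (e + X.v)) := ⟨_, rfl⟩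
  have hu1 : rn u ≤ 1 := by
    rw [hu, rn_smul, abs_of_pos (inv_pos.mpr hR0), inv_mul_le_iff₀ hR0, mul_one]
    exact hz
  have hzu : toR z = R • (e + X.v + u) := by
    rw [smul_add, hu, smul_smul, mul_inv_cancel₀ hR0.ne', one_smul]
    abel
  obtain ⟨u', hu'S, hu'⟩ := hS2 u hu1
  have hu'1 := hS1 u' hu'S
  -- the points
  obtain ⟨xa, hxa⟩ : ∃ xa : V d, xa = rnd ((h ^ 61) • X.v) := ⟨_, rfl⟩
  obtain ⟨x1, hx1⟩ : ∃ x1 : V d, x1 = xa + rnd ((k : ℝ) • X.v) := ⟨_, rfl⟩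
  obtain ⟨y1, hy1⟩ : ∃ y1 : V d, y1 = x1 + rnd ((k : ℝ) • (e + u')) := ⟨_, rfl⟩
  obtain ⟨r1, hr1⟩ : ∃ r1 : Fin d → ℝ, r1 = toR xa - (h ^ 61) • X.v := ⟨_, rfl⟩
  obtain ⟨r2, hr2⟩ : ∃ r2 : Fin d → ℝ, r2 = toR (rnd ((k : ℝ) • X.v)) - (k : ℝ) • X.v := ⟨_, rfl⟩
  obtain ⟨r3, hr3⟩ : ∃ r3 : Fin d → ℝ, r3 = toR (rnd ((k : ℝ) • (e + u'))) - (k : ℝ) • (e + u') := ⟨_, rfl⟩
  have hr1n : rn r1 ≤ d := by rw [hr1, hxa]; exact rnd_near _
  have hr2n : rn r2 ≤ d := by rw [hr2]; exact rnd_near _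
  have hr3n : rn r3 ≤ d := by rw [hr3]; exact rnd_near _
  have h12 := rn_add_le r1 r2
  have exa : toR xa = (h ^ 61) • X.v + r1 := by rw [hr1]; abel
  have ek : toR (rnd ((k : ℝ) • X.v)) = (k : ℝ) • X.v + r2 := by rw [hr2]; abel
  have ek3 : toR (rnd ((k : ℝ) • (e + u'))) = (k : ℝ) • (e + u') + r3 := by rw [hr3]; abel
  have ex1 : toR x1 = (h ^ 61 + k) • X.v + (r1 + r2) := by
    rw [hx1, toR_add, exa, ek, add_smul]
    abel
  have ezx : toR (z - x1) = R • (e + u) + ((R - h ^ 61 - k) • X.v - (r1 + r2)) := by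
    rw [toR_sub, hzu, ex1]
    funext j
    simp only [Pi.add_apply, Pi.sub_apply, Pi.smul_apply, smul_eq_mul]
    ring
  have ezy : toR (z - y1) = R • (u - u') + ((R - k) • (e + u') + ((R - k - h ^ 61) • X.v - (r1 + r2 + r3))) := by
    rw [toR_sub, hzu, hy1, toR_add, ex1, ek3]
    funext j
    simp only [Pi.add_apply, Pi.sub_apply, Pi.smul_apply, smul_eq_mul]
    ring
  -- dp of the errors
  have hdr : |dp f (r1 + r2)| ≤ cf * (2 * d) := by
    refine (abs_dp_le f _).trans ?_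
    exact mul_le_mul_of_nonneg_left (by linarith only [h12, hr1n, hr2n]) hcf0
  have hdr' := abs_le.mp hdr
  have hcfd : cf * (2 * d) ≤ h ^ 61 - 1 := by
    have h3 : (2 * (cf * (1 + d)) + 1) ≤ h ^ 61 := hB.trans (le_self_pow₀ h1 (by norm_num))
    have h4 : cf * (2 * d) = 2 * (cf * (1 + d)) - 2 * cf := by ring
    linarith only [h3, h4, hcf0]
  have hffx1 : X.ff i x1 = h ^ 61 + k + dp f (r1 + r2) := by
    change dp f (toR x1) = _
    rw [ex1, dp_add, dp_smul, hfv, mul_one]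
  have hffzx : X.ff i (z - x1) = R * dp f (e + u) + (R - h ^ 61 - k) - dp f (r1 + r2) := by
    change dp f (toR (z - x1)) = _
    rw [ezx, dp_add, dp_smul, dp_sub, dp_smul, hfv, mul_one]
    ring
  have hffz : X.ff i z = X.ff i x1 + X.ff i (z - x1) := by
    rw [Vtx.ff_sub]
    ring
  have hx1R : R ≤ X.ff i x1 := by
    rw [hffx1]
    linarith only [hdr'.1, hcfd, hk2]
  have hx1k : (k : ℝ) ≤ X.ff i x1 := by linarith only [hx1R, hk1]
  -- norms of the points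
  have hnxa : nm xa ≤ h ^ 62 := by
    rw [nm_eq_rn, exa]
    have h3 := rn_add_le ((h ^ 61) • X.v) r1
    rw [rn_smul, abs_of_nonneg (by positivity : (0 : ℝ) ≤ h ^ 61)] at h3
    have h4 : (cv + d + 2) * h ^ 61 ≤ h ^ 62 := UpDet_pow h1 hA (by norm_num)
    have h5 : (d : ℝ) ≤ d * h ^ 61 := le_mul_of_one_le_right hd0 hp61'
    have h6 : (cv + d + 2) * h ^ 61 = h ^ 61 * cv + d * h ^ 61 + 2 * h ^ 61 := by ring
    linarith only [h3, h4, h5, h6, hr1n, hp61']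
  have hnx1 : nm x1 ≤ R * (2 * cv + 2 * d) := by
    rw [nm_eq_rn, ex1]
    have h3 := rn_add_le ((h ^ 61 + (k : ℝ)) • X.v) (r1 + r2)
    rw [rn_smul, abs_of_nonneg (by positivity : (0 : ℝ) ≤ h ^ 61 + k)] at h3
    have h4 : (h ^ 61 + (k : ℝ)) * rn X.v ≤ (R + R) * cv :=
      mul_le_mul_of_nonneg_right (by linarith only [hp61, hk1]) hcv0
    linarith only [h3, h4, h12, hr1n, hr2n, hRd]
  have hRD : ∀ L : ℝ, L ≤ h → R * L ≤ h ^ (D + 6) := by
    intro L hL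
    calc R * L ≤ R * h := by gcongr
      _ ≤ h ^ (D + 5) * h := by gcongr
      _ = h ^ (D + 6) := by rw [← pow_succ]
  have hD6 : h ^ (D + 6) ≤ h ^ (2 * D + 100) := pow_le_pow_right₀ h1 (by omega)
  have hD8 : h ^ (D + 6) ≤ h ^ (D + 8) := pow_le_pow_right₀ h1 (by omega)
  have hnx1q : nm x1 ≤ h ^ (2 * D + 100) := by
    refine hnx1.trans ((hRD _ ?_).trans hD6)
    linarith only [hG, hcv0, hd0, hce0]
  have hnxaq : nm xa ≤ h ^ (2 * D + 100) := hnxa.trans (pow_le_pow_right₀ h1 (by omega))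
  have hnz : nm z ≤ h ^ (2 * D + 100) := by
    rw [nm_eq_rn, hzu, rn_smul, abs_of_pos hR0]
    refine le_trans ?_ ((hRD (ce' + cv + 1) (by linarith only [hG, hcv0, hd0, hce0])).trans hD6)
    have h3 := rn_add_le (e + X.v) u
    have h4 := rn_add_le e X.v
    exact mul_le_mul_of_nonneg_left (by linarith only [h3, h4, hu1]) hR0.le
  have hny1 : nm y1 ≤ h ^ (2 * D + 100) := by
    have h3 : nm y1 ≤ nm x1 + nm (rnd ((k : ℝ) • (e + u'))) := by rw [hy1]; exact nm_add_le _ _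
    have h4 : nm (rnd ((k : ℝ) • (e + u'))) ≤ R * (ce' + 1) + d := by
      rw [nm_eq_rn, ek3]
      have h5 := rn_add_le ((k : ℝ) • (e + u')) r3
      rw [rn_smul, abs_of_nonneg hk0] at h5
      have h6 := rn_add_le e u'
      have h7 : (k : ℝ) * rn (e + u') ≤ R * (ce' + 1) :=
        mul_le_mul hk1 (by linarith only [h6, hu'1]) (rn_nonneg _) hR0.le
      linarith only [h5, h7, hr3n]
    refine le_trans ?_ ((hRD (3 * cv + 3 * d + ce' + 2) hG).trans hD6)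
    have h8 : R * (3 * cv + 3 * d + ce' + 2) = R * (2 * cv + 2 * d) + R * (ce' + 1) + R * cv + R * d + R := by ring
    linarith only [h3, h4, h8, hnx1, hRd, hRcv, hcv0, hR0]
  -- first piece
  have t1 : T (res h (X.Rg i (h ^ (D + 8))) τ) 0 xa ≤ h ^ 63 := by
    refine (T_upper hres ha.le 0 xa).trans ?_
    rw [sub_zero]
    calc h * nm xa ≤ h * h ^ 62 := by gcongr
      _ = h ^ 63 := by rw [← pow_succ']
  -- second piece
  have hH' : R * (2 * cv + 2 * d + 2 * X.C * (K2 + 1)) ≤ h ^ (D + 8) := (hRD _ hH).trans hD8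
  have hCK : 16 ≤ 2 * X.C * (K2 + 1) := by nlinarith only [hC4, hK2p]
  have hsub : seg xa X.v k (h ^ 60) ⊆ X.Rg i (h ^ (D + 8)) := by
    have hpt : ∀ w : V d, (∃ t, 0 ≤ t ∧ t ≤ (k : ℝ) ∧ rn (toR (w - xa) - t • X.v) ≤ h ^ 60) →
        0 ≤ X.ff i w ∧ nm w ≤ h ^ (D + 8) := by
      rintro w ⟨t, ht0, htk, hw⟩
      obtain ⟨r, hr⟩ : ∃ r, r = toR (w - xa) - t • X.v := ⟨_, rfl⟩
      rw [← hr] at hw
      have ew : toR w = (h ^ 61 + t) • X.v + (r1 + r) := by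
        have h3 : toR w = toR (w - xa) + toR xa := by rw [← toR_add, sub_add_cancel]
        have h4 : toR (w - xa) = t • X.v + r := by rw [hr]; abel
        rw [h3, h4, exa, add_smul]
        abel
      have h5 := rn_add_le r1 r
      constructor
      · change 0 ≤ dp f (toR w)
        rw [ew, dp_add, dp_smul, hfv, mul_one]
        have h6 := abs_le.mp ((abs_dp_le f (r1 + r)).trans
          (mul_le_mul_of_nonneg_left (h5.trans (add_le_add hr1n hw)) (rn_nonneg f)))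
        have h7 : (cf * (1 + d)) * h ^ 60 ≤ h ^ 61 := by
          refine UpDet_pow h1 ?_ (by norm_num)
          have : 0 ≤ cf * (1 + d) := by positivity
          linarith only [this, hB]
        have h8 : (1 : ℝ) ≤ h ^ 60 := one_le_pow₀ h1
        have h9 : cf * (d + h ^ 60) ≤ (cf * (1 + d)) * h ^ 60 := by
          have h10 : (d : ℝ) ≤ d * h ^ 60 := le_mul_of_one_le_right hd0 h8
          have h11 := mul_le_mul_of_nonneg_left h10 hcf0
          have h12 : (cf * (1 + d)) * h ^ 60 = cf * h ^ 60 + cf * (d * h ^ 60) := by ring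
          rw [mul_add]
          linarith only [h11, h12]
        linarith only [h6.1, h7, h9, ht0]
      · rw [nm_eq_rn, ew]
        have h6 := rn_add_le ((h ^ 61 + t) • X.v) (r1 + r)
        rw [rn_smul, abs_of_nonneg (by positivity : (0 : ℝ) ≤ h ^ 61 + t)] at h6
        have h7 : (h ^ 61 + t) * rn X.v ≤ (R + R) * cv :=
          mul_le_mul_of_nonneg_right (by linarith only [hp61, htk, hk1]) hcv0
        have h8 : h ^ 60 ≤ R := (pow_le_pow_right₀ h1 (by norm_num)).trans hR1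
        have h11 : R * 16 ≤ R * (2 * X.C * (K2 + 1)) := mul_le_mul_of_nonneg_left hCK hR0.le
        have h12 : R * (2 * cv + 2 * d + 2 * X.C * (K2 + 1)) =
          (R + R) * cv + R * d + R * d + R * (2 * X.C * (K2 + 1)) := by ring
        linarith only [h6, h7, h8, h11, h12, hH', hRd, h5, hr1n, hw, hR0, hd0]
    rintro ed ⟨hed1, hed2⟩
    exact ⟨hpt _ hed1, hpt _ hed2⟩
  have hmv : μ X.v ≤ 1 := hX.mv
  have t2 : T (res h (X.Rg i (h ^ (D + 8))) τ) xa x1 ≤ k + ε * R / 8 := by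
    have h5 := hv xa k hnxaq hk100 hkq
    rw [← hx1] at h5
    refine (T_res_anti ha.le hah hτ hsub xa x1).trans (h5.trans ?_)
    have h3 : (k : ℝ) * (μ X.v + ε / 8) ≤ k * (1 + ε / 8) :=
      mul_le_mul_of_nonneg_left (by linarith only [hmv]) hk0
    have h4 : (k : ℝ) * (ε / 8) ≤ R * (ε / 8) := mul_le_mul_of_nonneg_right hk1 (by linarith only [hε])
    have h6 : (k : ℝ) * (1 + ε / 8) = k + k * (ε / 8) := by ring
    linarith only [h3, h4, h6]
  -- third piece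
  have hmu0 : 0 ≤ μ (e + u') := UpDet_mu_nonneg hX hs _
  have t3 : T τ x1 y1 ≤ R * (dp f (e + u) + cf * δ + ε / 4) := by
    have h8 := hSu u' hu'S x1 k hnx1q hk100 hkq
    rw [← hy1] at h8
    have h3 := (T_le_res ha.le hτ (seg x1 (e + u') k (h ^ 60)) x1 y1).trans h8
    refine h3.trans ?_
    have h4 := he u' hu'1
    have h5 : (k : ℝ) * (μ (e + u') + ε / 8) ≤ R * (μ (e + u') + ε / 8) :=
      mul_le_mul_of_nonneg_right hk1 (by linarith only [hmu0, hε])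
    refine h5.trans (mul_le_mul_of_nonneg_left ?_ hR0.le)
    have h6 : dp f (e + u') = dp f (e + u) - dp f (u - u') := by
      rw [← dp_sub]
      congr 1
      abel
    have h7 := abs_le.mp ((abs_dp_le f (u - u')).trans (mul_le_mul_of_nonneg_left hu' hcf0))
    linarith only [h7.1, h6, h4]
  have hzy : nm (z - y1) ≤ R * δ + (ce' + 1 + cv + h ^ 61 * cv + 3 * d) := by
    rw [nm_eq_rn, ezy]
    have h13 : rn (R • (u - u')) ≤ R * δ := by
      rw [rn_smul, abs_of_pos hR0]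
      exact mul_le_mul_of_nonneg_left hu' hR0.le
    have h3 : rn ((R - k) • (e + u')) ≤ ce' + 1 := by
      rw [rn_smul, abs_of_nonneg (by linarith only [hk1] : (0 : ℝ) ≤ R - k)]
      have h4 := rn_add_le e u'
      have h5 : (R - k) * rn (e + u') ≤ 1 * (ce' + 1) :=
        mul_le_mul (by linarith only [hk2]) (by linarith only [h4, hu'1]) (rn_nonneg _) (by norm_num)
      linarith only [h5]
    have h6 : rn ((R - k - h ^ 61) • X.v - (r1 + r2 + r3)) ≤ cv + h ^ 61 * cv + 3 * d := by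
      refine (rn_sub_le _ _).trans ?_
      have h7 := rn_add_le (r1 + r2) r3
      have h9 : rn ((R - k - h ^ 61) • X.v) ≤ cv + h ^ 61 * cv := by
        rw [rn_smul]
        have h10 : |R - k - h ^ 61| ≤ 1 + h ^ 61 := by
          rw [abs_le]
          constructor <;> linarith only [hk1, hk2, hp61', hR1']
        have h11 := mul_le_mul_of_nonneg_right h10 hcv0
        linarith only [h11]
      linarith only [h7, h9, h12, hr1n, hr2n, hr3n]
    have h14 := rn_add_le (R • (u - u')) ((R - k) • (e + u') + ((R - k - h ^ 61) • X.v - (r1 + r2 + r3)))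
    have h15 := rn_add_le ((R - k) • (e + u')) ((R - k - h ^ 61) • X.v - (r1 + r2 + r3))
    linarith only [h13, h3, h6, h14, h15]
  have t4 : T τ y1 z ≤ K * (R * δ + (ce' + 1 + cv + h ^ 61 * cv + 3 * d) + h ^ 100) :=
    (hlin y1 z hny1 hnz).trans (mul_le_mul_of_nonneg_left (by linarith only [hzy]) (by linarith only [hK]))
  have hbr : h ^ 61 + 2 * d * cf + K * ((ce' + 1 + cv + h ^ 61 * cv + 3 * d) + h ^ 100) ≤ ε * R / 16 := by
    have h3 : (1 : ℝ) ≤ h ^ 100 := one_le_pow₀ h1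
    have h4 : h ^ 61 ≤ h ^ 100 := pow_le_pow_right₀ h1 (by norm_num)
    have h5 : (ce' + 1 + cv + h ^ 61 * cv + 3 * d) + h ^ 100 ≤ (ce' + 2 + 2 * cv + 3 * d) * h ^ 100 := by
      have h6 : h ^ 61 * cv ≤ h ^ 100 * cv := mul_le_mul_of_nonneg_right h4 hcv0
      have h7 : (ce' + 1 + cv + 3 * d) ≤ (ce' + 1 + cv + 3 * d) * h ^ 100 :=
        le_mul_of_one_le_right (by positivity) h3
      have h8 : (ce' + 2 + 2 * cv + 3 * d) * h ^ 100 = (ce' + 1 + cv + 3 * d) * h ^ 100 + h ^ 100 * cv + h ^ 100 := by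
        ring
      linarith only [h6, h7, h8]
    have h8 : h ^ 61 + 2 * d * cf + K * ((ce' + 1 + cv + h ^ 61 * cv + 3 * d) + h ^ 100) ≤ K4 * h ^ 100 := by
      have h9 := mul_le_mul_of_nonneg_left h5 (by linarith only [hK] : (0 : ℝ) ≤ K)
      have h10 : 2 * d * cf ≤ 2 * d * cf * h ^ 100 := le_mul_of_one_le_right (by positivity) h3
      have h11 : K4 * h ^ 100 = h ^ 100 + 2 * d * cf * h ^ 100 + K * ((ce' + 2 + 2 * cv + 3 * d) * h ^ 100) := by
        rw [hK4]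
        ring
      linarith only [h9, h10, h11, h4]
    have h11 : K4 * h ^ 100 ≤ ε / 16 * h ^ 101 := by
      have h12 : K4 ≤ ε / 16 * h := by
        rw [div_le_iff₀ hε] at hE1
        linarith only [hE1]
      calc K4 * h ^ 100 ≤ (ε / 16 * h) * h ^ 100 := by gcongr
        _ = ε / 16 * h ^ 101 := by ring
    have h13 : ε / 16 * h ^ 101 ≤ ε / 16 * R := by gcongr
    linarith only [h8, h11, h13]
  obtain ⟨s, hsdef⟩ : ∃ s : ℝ, s = X.ff i (z - x1) + 3 / 8 * (ε * R) := ⟨_, rfl⟩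
  have hdd : R * ((rn f + K) * δ) ≤ R * (ε / 16) := mul_le_mul_of_nonneg_left hδ hR0.le
  have hTs : T τ x1 z ≤ s := by
    have h3 := T_triangle hτ ha.le x1 y1 z
    have h4 : R * dp f (e + u) ≤ X.ff i (z - x1) + h ^ 61 + 2 * d * cf := by
      rw [hffzx]
      linarith only [hdr'.2, hk1]
    have h5 : R * (dp f (e + u) + cf * δ + ε / 4) + K * (R * δ + (ce' + 1 + cv + h ^ 61 * cv + 3 * d) + h ^ 100) =
      R * dp f (e + u) + R * ((cf + K) * δ) + ε * R / 4 +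
        K * ((ce' + 1 + cv + h ^ 61 * cv + 3 * d) + h ^ 100) := by ring
    rw [hsdef]
    linarith only [h3, t3, t4, h4, h5, hdd, hbr]
  have hffle : X.ff i (z - x1) ≤ cf * (R * K1) := by
    change dp f (toR (z - x1)) ≤ _
    refine (le_abs_self _).trans ((abs_dp_le f _).trans (mul_le_mul_of_nonneg_left ?_ hcf0))
    rw [ezx]
    have h3 : rn (R • (e + u)) ≤ R * (ce' + 1) := by
      rw [rn_smul, abs_of_pos hR0]
      exact mul_le_mul_of_nonneg_left ((rn_add_le e u).trans (by linarith only [hu1])) hR0.le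
    have h4 : rn ((R - h ^ 61 - k) • X.v - (r1 + r2)) ≤ R * (3 * cv) + 2 * d := by
      refine (rn_sub_le _ _).trans ?_
      have h5 : |R - h ^ 61 - k| ≤ 3 * R := by
        rw [abs_le]
        constructor <;> linarith only [hp61, hk1, hk0, hp61', hR0]
      have h6 := mul_le_mul_of_nonneg_right h5 hcv0
      have h8 : rn ((R - h ^ 61 - k) • X.v) ≤ R * (3 * cv) := by
        rw [rn_smul]
        linarith only [h6]
      linarith only [h8, h12, hr1n, hr2n]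
    have h9 := rn_add_le (R • (e + u)) ((R - h ^ 61 - k) • X.v - (r1 + r2))
    have h10 : R * K1 = R * (ce' + 1) + R * (3 * cv) + R * d + R * d + R := by rw [hK1]; ring
    linarith only [h3, h4, h9, h10, hRd, hR0]
  have hεR : ε * R ≤ R := mul_le_of_le_one_left hR0.le hε1
  have hεR0 : 0 ≤ ε * R := by positivity
  have hsR : s ≤ R * K2 := by
    have h3 : R * K2 = cf * (R * K1) + R := by rw [hK2]; ring
    rw [hsdef]
    linarith only [h3, hffle, hεR, hR0]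
  have hRK2 : R ≤ R * K2 := le_mul_of_one_le_right hR0.le hK2p
  have hce2 : ce X h s ≤ R / 2 := by
    refine (ce_mono hX h1 hsR).trans ?_
    have h20 : h ^ 20 ≤ R * K2 := ((pow_le_pow_right₀ h1 (by norm_num)).trans hR1).trans hRK2
    refine (hce (R * K2) h20).trans (le_of_eq ?_)
    have h3 : K2 ≠ 0 := by positivity
    field_simp
  have t5 : T (res h (X.Rg i (h ^ (D + 8))) τ) x1 z = T τ x1 z := by
    refine hRg a τ ha hτ hLT i x1 z s ?_ ?_ hTs ?_ _ ?_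
    · exact hnx1q.trans (pow_le_pow_right₀ h1 (by omega))
    · exact hsR.trans ((hRD K2 hK2h).trans (pow_le_pow_right₀ h1 (by omega)))
    · have h3 : (s - X.ff i (z - x1)) / 2 = 3 / 16 * (ε * R) := by rw [hsdef]; ring
      rw [h3]
      linarith only [hce2, hεR, hx1R, hR0]
    · have h3 : h ^ 16 ≤ R := (pow_le_pow_right₀ h1 (by norm_num)).trans hR1
      have h4 : 2 * X.C * (s + h ^ 16) ≤ 2 * X.C * (R * K2 + R) :=
        mul_le_mul_of_nonneg_left (by linarith only [hsR, h3]) (by linarith only [hC4])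
      have h5 : R * (2 * cv + 2 * d + 2 * X.C * (K2 + 1)) = R * (2 * cv + 2 * d) + 2 * X.C * (R * K2 + R) := by
        ring
      linarith only [hnx1, h4, h5, hH']
  -- sum
  have h3 := T_triangle hres ha.le 0 xa z
  have h4 := T_triangle hres ha.le xa x1 z
  rw [t5] at h4
  have h5 : h ^ 63 ≤ ε * R / 2 := by
    have h6 : 2 / ε * h ^ 63 ≤ h ^ 101 := UpDet_pow h1 hE2 (by norm_num)
    have h7 : 2 / ε * h ^ 63 ≤ R := h6.trans hR1
    rw [div_mul_eq_mul_div, div_le_iff₀ hε] at h7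
    linarith only [h7]
  rw [hffz]
  rw [hsdef] at hTs
  linarith only [h3, h4, h5, t1, t2, hTs, hx1k]

end Pool.Agent.W_1b8d5d_nd

end

/-! ### Upper -/

section

/-!
MP_1b8d5d_pr, [ND]: the traveller (`reach`). The upper tail in every direction (`block_mean`, `upper_dir`) is in `UpA`, `UpB`,
the linear upper bound (`linear_strong`, `linear_bound`) in `UpC`, the deterministic part in `UpDet`.
-/

set_option autoImplicit false

namespace Pool.Agent.W_1b8d5d_nd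

open Finset Filter Topology
open Pool.Agent.W_1b8d5d_h85 (Ex Pr Vr avg)

variable {d : ℕ} [NeZero d] {Q : Qn} {m : V d → ℝ} {μ : (Fin d → ℝ) → ℝ} {X : Vtx d}

/-- The traveller. (The form `f (e + u) ≥ 1/2`: `f (e' + u) ≥ μ (e' + u) - ε / 8 ≥ - 1 / 2` for `ε ≤ 4`, `f v = 1`; for larger
`ε` use `ε = 4`.) PROOF. Let `e'` be the vector of `Cheap.ball` for `ε / 8`, `e = e' + v`. From `0` crudely to
`x_a = rnd (h ^ 61 v)`; then by `upper_dir` in the direction `v` (tube `h ^ 60`, inside the half space) to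
`x_1 = x_a + rnd (k v)`, `k = ⌊R⌋`; from `x_1` to `z`: `z - x_1 = R (e' + u)` up to `O(h ^ 61)`, `rn u ≤ 1`: take a point `u_k`
of a finite `ε'`-net of the ball, `upper_dir` in the direction `e' + u_k` and `linear_bound` for the rest (distance
`≤ ε' R + C h ^ 61`): `T(x_1,z) ≤ R (ff (e' + u) + ε / 4)`; the geodesic stays in the region by `T_res_Rg` (`x_1` has level
`≥ R / 2`, `ce ≤ R / 100` by `ce_le_eps`). Sum: `ff z + ε R / 2 + C h ^ 62 ≤ ff z + ε R`. -/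
theorem reach (hX : IsVtx X μ) (hmu : MuM μ m) (hN : HasN Q m) (D : ℕ) (hD : 1000 ≤ D) (i : Fin X.N) (ε : ℝ)
    (hε : 0 < ε) : ∃ e : Fin d → ℝ, (∀ u, rn u ≤ 1 → 1 / 2 ≤ dp (X.f i) (e + u)) ∧
      ∀ᶠ h : ℝ in atTop, ∀ (a : ℝ) (M : Mdl d a h), GoodN Q m (2 * D + 200) M →
      M.P (fun τ => ¬ ∀ (R : ℝ) (z : V d), h ^ 101 ≤ R → R ≤ h ^ (D + 5) → rn (toR z - R • e) ≤ R →
        T (res h (X.Rg i (h ^ (D + 8))) τ) 0 z ≤ X.ff i z + ε * R) ≤ Real.exp (-(h / 3)) := by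
  have hs : ∀ x, μ (-x) = μ x := mu_neg hmu hN
  set ε1 : ℝ := min ε 1 with hε1
  have hε1p : 0 < ε1 := lt_min hε one_pos
  have hε1l : ε1 ≤ 1 := min_le_right _ _
  obtain ⟨e, he⟩ := (hX.cheap i).ball (ε1 / 8) (by positivity)
  obtain ⟨K, hK, hlin⟩ := linear_strong (X := X) hX hmu hN
  have hcf : 0 ≤ rn (X.f i) := rn_nonneg _
  obtain ⟨S, hS1, hS2⟩ := UpDet_net (d := d) (ε1 / 16 / (rn (X.f i) + K)) (by positivity)
  refine ⟨e + X.v, ?_, ?_⟩
  · intro u hu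
    have h1 : dp (X.f i) (e + X.v + u) = dp (X.f i) (e + u) + 1 := by
      rw [← (hX.cheap i).one, ← dp_add]
      congr 1
      abel
    have h2 := he u hu
    have h3 := UpDet_mu_nonneg hX hs (e + u)
    rw [h1]
    linarith
  have hall : ∀ᶠ h : ℝ in atTop, ∀ u ∈ S, ∀ (a : ℝ) (M : Mdl d a h), GoodN Q m (2 * D + 200) M →
      M.P (fun τ => ¬ ∀ (x : V d) (k : ℕ), nm x ≤ h ^ (2 * D + 100) → h ^ 100 ≤ k → (k : ℝ) ≤ h ^ (2 * D + 100) →
        T (res h (seg x (e + u) k (h ^ 60)) τ) x (x + rnd ((k : ℝ) • (e + u))) ≤ k * (μ (e + u) + ε1 / 8))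
        ≤ Real.exp (-h) := by
    rw [Filter.eventually_all_finset]
    intro u _
    exact upper_dir hX hmu hN (2 * D + 200) (2 * D + 100) (by omega) (by omega) (e + u) (ε1 / 8) (by positivity)
  have hexp : ∀ᶠ h : ℝ in atTop, ((S.card : ℝ) + 1) * Real.exp (-h) + 2 * Real.exp (-(h / 2)) ≤
      Real.exp (-(h / 3)) := by
    have h1 : Tendsto (fun h : ℝ => h / 6) atTop atTop := tendsto_id.atTop_div_const (by norm_num)
    have h2 := (Real.tendsto_exp_atTop.comp h1).eventually_ge_atTop ((S.card : ℝ) + 3)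
    filter_upwards [h2, eventually_ge_atTop 0] with h h3 h4
    have h5 : Real.exp (-(h / 3)) = Real.exp (h / 6) * Real.exp (-(h / 2)) := by
      rw [← Real.exp_add]
      congr 1
      ring
    have h6 : Real.exp (-h) ≤ Real.exp (-(h / 2)) := Real.exp_le_exp.mpr (by linarith)
    have h7 : 0 < Real.exp (-(h / 2)) := Real.exp_pos _
    have h8 : ((S.card : ℝ) + 3) ≤ Real.exp (h / 6) := h3
    rw [h5]
    have h9 : ((S.card : ℝ) + 1) * Real.exp (-h) ≤ ((S.card : ℝ) + 1) * Real.exp (-(h / 2)) := by gcongr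
    nlinarith
  filter_upwards [hall, hexp, upper_dir hX hmu hN (2 * D + 200) (2 * D + 100) (by omega) (by omega) X.v (ε1 / 8)
      (by positivity), hlin (2 * D + 200) (2 * D + 100) (by omega) (by omega), LT_prob hmu hN (2 * D + 199) (by omega),
    UpDet_det hX hs i ε1 hε1p hε1l e he K hK S (ε1 / 16 / (rn (X.f i) + K))
      (by rw [mul_div_cancel₀]; positivity) hS1 hS2 D hD]
    with h hallh hexph hvh hlinh hLTh hdet
  intro a M hM
  have hahh : 0 < a := hM.apos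
  have hah : a ≤ h := hM.alt
  set Pv : Env d → Prop := fun τ => ∀ (x : V d) (k : ℕ), nm x ≤ h ^ (2 * D + 100) → h ^ 100 ≤ k →
    (k : ℝ) ≤ h ^ (2 * D + 100) →
      T (res h (seg x X.v k (h ^ 60)) τ) x (x + rnd ((k : ℝ) • X.v)) ≤ k * (μ X.v + ε1 / 8) with hPv
  set Pu : (Fin d → ℝ) → Env d → Prop := fun u τ => ∀ (x : V d) (k : ℕ), nm x ≤ h ^ (2 * D + 100) → h ^ 100 ≤ k →
    (k : ℝ) ≤ h ^ (2 * D + 100) →
      T (res h (seg x (e + u) k (h ^ 60)) τ) x (x + rnd ((k : ℝ) • (e + u))) ≤ k * (μ (e + u) + ε1 / 8) with hPu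
  set Pl : Env d → Prop := fun τ => ∀ x z : V d, nm x ≤ h ^ (2 * D + 100) → nm z ≤ h ^ (2 * D + 100) →
    T τ x z ≤ K * (nm (z - x) + h ^ 100) with hPl
  have h1 : M.P (fun τ => ¬ ∀ (R : ℝ) (z : V d), h ^ 101 ≤ R → R ≤ h ^ (D + 5) → rn (toR z - R • (e + X.v)) ≤ R →
        T (res h (X.Rg i (h ^ (D + 8))) τ) 0 z ≤ X.ff i z + ε * R) ≤
      M.P (fun τ => (∃ u ∈ S, ¬ Pu u τ) ∨ (¬ Pv τ ∨ (¬ Pl τ ∨ ¬ LT μ (2 * D + 199) h τ))) := by
    refine M.P_mono fun τ hτ hbad => ?_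
    by_contra hcon
    push Not at hcon
    obtain ⟨c1, c2, c3, c4⟩ := hcon
    apply hbad
    intro R z hR1 hR2 hz
    have h2 := hdet a τ hahh hah hτ c4 c2 c1 c3 R z hR1 hR2 hz
    have h3 : ε1 * R ≤ ε * R := by
      have h4 : (0 : ℝ) ≤ R := (rn_nonneg _).trans hz
      exact mul_le_mul_of_nonneg_right (min_le_left _ _) h4
    linarith
  refine h1.trans ?_
  have h2 := M.P_or (fun τ => ∃ u ∈ S, ¬ Pu u τ) (fun τ => ¬ Pv τ ∨ (¬ Pl τ ∨ ¬ LT μ (2 * D + 199) h τ))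
  have h3 := M.P_or (fun τ => ¬ Pv τ) (fun τ => ¬ Pl τ ∨ ¬ LT μ (2 * D + 199) h τ)
  have h4 := M.P_or (fun τ => ¬ Pl τ) (fun τ => ¬ LT μ (2 * D + 199) h τ)
  have h5 := M.P_exists_le S (fun u τ => ¬ Pu u τ)
  have h6 : ∑ u ∈ S, M.P (fun τ => ¬ Pu u τ) ≤ S.card * Real.exp (-h) := by
    calc ∑ u ∈ S, M.P (fun τ => ¬ Pu u τ) ≤ ∑ _u ∈ S, Real.exp (-h) :=
          sum_le_sum fun u hu => hallh u hu a M hM
      _ = S.card * Real.exp (-h) := by rw [sum_const, nsmul_eq_mul]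
  have h7 := hvh a M hM
  have h8 := hlinh a M hM
  have h9 := hLTh a M hM
  have h10 : M.P (fun τ => ¬ Pv τ) ≤ Real.exp (-h) := h7
  have h11 : M.P (fun τ => ¬ Pl τ) ≤ Real.exp (-(h / 2)) := h8
  have h12 : M.P (fun τ => ¬ LT μ (2 * D + 199) h τ) ≤ Real.exp (-(h / 2)) := h9
  linarith

end Pool.Agent.W_1b8d5d_nd

end

/-! ### RCh -/

section

/-!
MP_1b8d5d_pr, [ND], section 4: the cheap balls are reached.
-/

set_option autoImplicit false

namespace Pool.Agent.W_1b8d5d_nd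

open Finset Filter Topology
open Pool.Agent.W_1b8d5d_h85 (Ex Pr Vr avg)

variable {d : ℕ} [NeZero d] {X : Vtx d} {μ : (Fin d → ℝ) → ℝ} {Q : Qn} {m : V d → ℝ}

private theorem rCh_cont_dp (f : Fin d → ℝ) : Continuous (dp f) := by
  unfold dp
  exact continuous_finsetSum _ fun i _ => continuous_const.mul (continuous_apply i)

private theorem rCh_coord (x : Fin d → ℝ) (i : Fin d) : |x i| ≤ rn x := by
  unfold rn
  exact Finset.single_le_sum (f := fun i => |x i|) (fun j _ => abs_nonneg _) (Finset.mem_univ i)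

private theorem rCh_y (w : Fin d → ℝ) :
    Tendsto (fun h : ℝ => (h ^ 101)⁻¹ • toR (rnd ((h ^ 101) • w))) atTop (𝓝 w) := by
  rw [tendsto_pi_nhds]
  intro i
  rw [tendsto_iff_dist_tendsto_zero]
  have h0 : Tendsto (fun h : ℝ => (d : ℝ) / h) atTop (𝓝 0) := tendsto_const_nhds.div_atTop tendsto_id
  refine squeeze_zero' (Eventually.of_forall fun h => dist_nonneg) ?_ h0
  filter_upwards [eventually_ge_atTop (1 : ℝ)] with h h1
  have hR : h ≤ h ^ 101 := le_self_pow₀ h1 (by norm_num)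
  have hR0 : 0 < h ^ 101 := by positivity
  rw [Real.dist_eq]
  have e1 : ((h ^ 101)⁻¹ • toR (rnd ((h ^ 101) • w))) i - w i
      = (h ^ 101)⁻¹ * (toR (rnd ((h ^ 101) • w)) - (h ^ 101) • w) i := by
    simp only [Pi.smul_apply, Pi.sub_apply, smul_eq_mul]
    field_simp
  rw [e1, abs_mul, abs_of_pos (inv_pos.2 hR0)]
  have e2 := (rCh_coord (toR (rnd ((h ^ 101) • w)) - (h ^ 101) • w) i).trans (rnd_near ((h ^ 101) • w))
  have hd : (0 : ℝ) ≤ d := Nat.cast_nonneg d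
  calc (h ^ 101)⁻¹ * |(toR (rnd ((h ^ 101) • w)) - (h ^ 101) • w) i| ≤ (h ^ 101)⁻¹ * d := by
        exact mul_le_mul_of_nonneg_left e2 (inv_pos.2 hR0).le
    _ = d / h ^ 101 := by rw [mul_comm, div_eq_mul_inv]
    _ ≤ d / h := by gcongr

private theorem rCh_in (hmu : MuM μ m) (hN : HasN Q m) (D : ℕ) (hD : 1000 ≤ D) (i : Fin X.N) (ε : ℝ)
    (e : Fin d → ℝ)
    (hH : ∀ᶠ h : ℝ in atTop, ∀ (a : ℝ) (M : Mdl d a h), GoodN Q m (2 * D + 200) M →
        M.P (fun τ => ¬ RC X i e D ε h τ) ≤ Real.exp (-(h / 3))) (u : Fin d → ℝ) (hu : rn u < 1) :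
    μ (e + u) ≤ dp (X.f i) (e + u) + ε := by
  set w : Fin d → ℝ := e + u with hw
  set K : ℝ := rn w + d with hK
  have hK0 : 0 ≤ K := by
    have := rn_nonneg w
    positivity
  have ev : ∀ᶠ h : ℝ in atTop, μ ((h ^ 101)⁻¹ • toR (rnd ((h ^ 101) • w))) ≤
      dp (X.f i) ((h ^ 101)⁻¹ • toR (rnd ((h ^ 101) • w))) + ε + (√K + 1) / h := by
    filter_upwards [hH, LT_prob hmu hN (D + 10) (by omega), hN (2 * D + 200), eventually_ge_atTop (3 : ℝ),
      eventually_ge_atTop K, eventually_ge_atTop ((d : ℝ) / (1 - rn u))] with h hRC hLT hM h3 hKh hdh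
    obtain ⟨a, M, hM⟩ := hM
    have h1 : (1 : ℝ) ≤ h := by linarith
    have h0 : (0 : ℝ) < h := by linarith
    have p1 := hRC a M hM
    have p2 := hLT a M (hM.mono h1 (by omega))
    have pos : 0 < M.P (fun τ => RC X i e D ε h τ ∧ LT μ (D + 10) h τ) := by
      have q1 := M.P_and_ge (fun τ => RC X i e D ε h τ) (fun τ => LT μ (D + 10) h τ)
      have q2 := M.P_not (fun τ => RC X i e D ε h τ)
      have q3 : Real.exp (-(h / 3)) ≤ Real.exp (-1) := Real.exp_le_exp.2 (by linarith)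
      have q4 : Real.exp (-(h / 2)) ≤ Real.exp (-1) := Real.exp_le_exp.2 (by linarith)
      have q5 := Real.exp_neg_one_lt_d9
      linarith
    obtain ⟨τ, hB, hR, hL⟩ := M.exists_of_P_pos pos
    set R : ℝ := h ^ 101 with hRdef
    have hRh : h ≤ R := le_self_pow₀ h1 (by norm_num)
    have hR1 : 1 ≤ R := h1.trans hRh
    have hR0 : 0 < R := by linarith
    set z : V d := rnd (R • w) with hz
    have hz1 : rn (toR z - R • w) ≤ d := rnd_near _
    have hz2 : rn (toR z - R • e) ≤ R := by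
      have e1 : toR z - R • e = (toR z - R • w) + R • u := by
        rw [hw, smul_add]
        abel
      have e2 := rn_add_le (toR z - R • w) (R • u)
      rw [← e1, rn_smul, abs_of_pos hR0] at e2
      have e3 : (d : ℝ) ≤ R * (1 - rn u) := by
        have := (div_le_iff₀ (by linarith : (0 : ℝ) < 1 - rn u)).1 (hdh.trans hRh)
        linarith
      nlinarith
    have hz3 : nm z ≤ K * R := by
      rw [nm_eq_rn]
      have e1 : toR z = (toR z - R • w) + R • w := by abel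
      have e2 := rn_add_le (toR z - R • w) (R • w)
      rw [← e1, rn_smul, abs_of_pos hR0] at e2
      have hd : (0 : ℝ) ≤ d := Nat.cast_nonneg d
      have e3 : (d : ℝ) ≤ d * R := by nlinarith
      rw [hK]
      nlinarith
    have hz4 : nm z ≤ h ^ (D + 10) := by
      calc nm z ≤ K * R := hz3
        _ ≤ h * R := by gcongr
        _ = h ^ 102 := by rw [hRdef]; ring
        _ ≤ h ^ (D + 10) := pow_le_pow_right₀ h1 (by omega)
    have hz5 : er h (nm z) ≤ (√K + 1) * h ^ 100 := by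
      refine (er_mono h1 hz3).trans ?_
      unfold er
      rw [Real.sqrt_mul hK0]
      have s1 : √R ≤ h ^ 51 := by
        rw [Real.sqrt_le_iff]
        refine ⟨by positivity, ?_⟩
        rw [hRdef, ← pow_mul]
        exact pow_le_pow_right₀ h1 (by norm_num)
      have s2 : h ^ 7 * (√K * √R) ≤ √K * h ^ 100 := by
        calc h ^ 7 * (√K * √R) ≤ h ^ 7 * (√K * h ^ 51) := by gcongr
          _ = √K * h ^ 58 := by ring
          _ ≤ √K * h ^ 100 := by
            have : h ^ 58 ≤ h ^ 100 := pow_le_pow_right₀ h1 (by norm_num)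
            gcongr
      have s3 : h ^ 12 ≤ h ^ 100 := pow_le_pow_right₀ h1 (by norm_num)
      linarith
    have t1 : T τ 0 z ≤ X.ff i z + ε * R :=
      (T_le_res hM.apos.le hB _ 0 z).trans
        (hR R z le_rfl (pow_le_pow_right₀ h1 (by omega)) hz2)
    have t2 := hL 0 z (by
      have e0 : nm (0 : V d) = 0 := by simp [Pool.Agent.W_1b8d5d_gd.nm]
      rw [e0]
      positivity) hz4
    rw [sub_zero] at t2
    have t3 : μ (toR z) ≤ X.ff i z + ε * R + (√K + 1) * h ^ 100 := by linarith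
    rw [hmu.hom _ _ (inv_nonneg.2 hR0.le), dp_smul]
    have t4 : R⁻¹ * μ (toR z) ≤ R⁻¹ * (X.ff i z + ε * R + (√K + 1) * h ^ 100) :=
      mul_le_mul_of_nonneg_left t3 (inv_nonneg.2 hR0.le)
    have t5 : R⁻¹ * (X.ff i z + ε * R + (√K + 1) * h ^ 100)
        = R⁻¹ * dp (X.f i) (toR z) + ε + (√K + 1) / h := by
      have e1 : R = h ^ 100 * h := by rw [hRdef]; ring
      have e2 : X.ff i z = dp (X.f i) (toR z) := rfl
      have e3 : R⁻¹ * (ε * R) = ε := by field_simp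
      have e4 : R⁻¹ * ((√K + 1) * h ^ 100) = (√K + 1) / h := by
        rw [e1]
        field_simp
      rw [e2]
      linear_combination e3 + e4
    linarith
  have l1 : Tendsto (fun h : ℝ => μ ((h ^ 101)⁻¹ • toR (rnd ((h ^ 101) • w)))) atTop (𝓝 (μ w)) :=
    (hmu.cont.tendsto w).comp (rCh_y w)
  have l2 : Tendsto (fun h : ℝ => dp (X.f i) ((h ^ 101)⁻¹ • toR (rnd ((h ^ 101) • w))) + ε + (√K + 1) / h)
      atTop (𝓝 (dp (X.f i) w + ε + 0)) :=
    ((((rCh_cont_dp (X.f i)).tendsto w).comp (rCh_y w)).add_const ε).add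
      (tendsto_const_nhds.div_atTop tendsto_id)
  rw [add_zero] at l2
  exact le_of_tendsto_of_tendsto l1 l2 ev

/-- The traveller, with the information on the balls. PROOF. `e` from `reach`. Let `rn u ≤ 1`, `0 < η < 1`, `u' = (1 - η) • u`;
for `h` large there are a good model and an environment with `RC` and `LT μ (D + 10)` (`Mdl.exists_of_P_pos`); with
`R = h ^ 101` and `z = rnd (R • (e + u'))`: `rn (toR z - R • e) ≤ (1 - η) R + d ≤ R`, so
`μ (toR z) ≤ T τ 0 z + er h (nm z) ≤ ff i z + ε R + er h (nm z)` (`T_le_res`). Divide by `R` and let `h → ∞`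
(`toR z / R → e + u'`, `cont`, `hom`): `μ (e + u') ≤ dp (f i) (e + u') + ε`; then `η → 0`. -/
theorem reach_cheap (hX : IsVtx X μ) (hmu : MuM μ m) (hN : HasN Q m) (D : ℕ) (hD : 1000 ≤ D) (i : Fin X.N) (ε : ℝ)
    (hε : 0 < ε) : ∃ e : Fin d → ℝ, (∀ u : Fin d → ℝ, rn u ≤ 1 → μ (e + u) ≤ dp (X.f i) (e + u) + ε) ∧
      ∀ᶠ h : ℝ in atTop, ∀ (a : ℝ) (M : Mdl d a h), GoodN Q m (2 * D + 200) M →
        M.P (fun τ => ¬ RC X i e D ε h τ) ≤ Real.exp (-(h / 3)) := by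
  obtain ⟨e, -, hH⟩ := reach hX hmu hN D hD i ε hε
  refine ⟨e, ?_, hH⟩
  intro u hu
  have hc : Continuous (fun η : ℝ => e + (1 - η) • u) := by fun_prop
  have l1 : Tendsto (fun η : ℝ => μ (e + (1 - η) • u)) (𝓝[>] 0) (𝓝 (μ (e + u))) := by
    have := (hmu.cont.comp hc).tendsto 0
    simp only [Function.comp_def, sub_zero, one_smul] at this
    exact this.mono_left nhdsWithin_le_nhds
  have l2 : Tendsto (fun η : ℝ => dp (X.f i) (e + (1 - η) • u) + ε) (𝓝[>] 0) (𝓝 (dp (X.f i) (e + u) + ε)) := by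
    have := (((rCh_cont_dp (X.f i)).comp hc).tendsto 0).add_const ε
    simp only [Function.comp_def, sub_zero, one_smul] at this
    exact this.mono_left nhdsWithin_le_nhds
  refine le_of_tendsto_of_tendsto l1 l2 ?_
  have hη : ∀ᶠ η : ℝ in 𝓝[>] 0, η < 1 := nhdsWithin_le_nhds (eventually_lt_nhds one_pos)
  filter_upwards [self_mem_nhdsWithin, hη] with η h0 h1
  refine rCh_in hmu hN D hD i ε e hH _ ?_
  rw [rn_smul, abs_of_pos (by linarith)]
  have h0' : 0 < η := h0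
  have := rn_nonneg u
  nlinarith

end Pool.Agent.W_1b8d5d_nd

end

/-! ### Lane3 -/

section

/-!
MP_1b8d5d_pr, [ND], section 4, conclusion: good lanes of width `W` and excess `Z` up to the length `n` imply that the mean of
`(UN - N - Z)_+` is at most `ε W`. (The subadditivity with offsets `over_add'` is in `Stop`.)
-/

set_option autoImplicit false

namespace Pool.Agent.W_1b8d5d_nd

open Finset Filter Topology
open Pool.Agent.W_1b8d5d_h85 (Ex Pr Vr avg)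

variable {d : ℕ} [NeZero d] {X : Vtx d} {μ : (Fin d → ℝ) → ℝ} {Q : Qn} {m : V d → ℝ}

private theorem Lane3_exp (k : ℕ) {ε : ℝ} (hε : 0 < ε) :
    ∀ᶠ h : ℝ in atTop, h ^ k * Real.exp (-(h / 4)) ≤ ε := by
  have h1 : Tendsto (fun h : ℝ => (h / 4) ^ k * Real.exp (-(h / 4))) atTop (𝓝 0) :=
    (Real.tendsto_pow_mul_exp_neg_atTop_nhds_zero k).comp (tendsto_id.atTop_div_const (by norm_num))
  have h2 : Tendsto (fun h : ℝ => 4 ^ k * ((h / 4) ^ k * Real.exp (-(h / 4)))) atTop (𝓝 (4 ^ k * 0)) :=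
    h1.const_mul _
  rw [mul_zero] at h2
  have h3 := h2.eventually (gt_mem_nhds hε)
  filter_upwards [h3] with h hh
  have h4 : h ^ k * Real.exp (-(h / 4)) = 4 ^ k * ((h / 4) ^ k * Real.exp (-(h / 4))) := by
    rw [div_pow]
    field_simp
  rw [h4]
  exact hh.le

/-- The level bound. PROOF. Put `ε' = min (ε / (400 * 17 * C ^ 3)) (1 / (4 C ^ 2))`; `e` from `reach_cheap` for `ε'`, its
properties from `cheap_center`. `L = ⌈8 C ^ 3 (W + 1)⌉₊ ≤ 17 C ^ 3 W`, `J = ⌈h⌉₊`, so `J * L ≤ h ^ (D + 5)`. Apply `E_first` with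
`G k τ = LG X i e Z W N ((k + 1) * L) τ`, `A τ = LT μ (D + 10) h τ ∧ RC X i e D ε' h τ`, `F = UN - N - Z`, `c = 2 * ε' * L`
(`UN_lane`), `K = h ^ (D + 2)` (`UN_le`), `P_none_LG`; `P (¬ A) ≤ exp (-(h/2)) + exp (-(h/3))` (`LT_prob` for `2 D + 190` with
`GoodN.mono`, `LT.mono`). Total `≤ 32 ε' L + K (3/4)^J + K * (2 * exp (-(h/3))) ≤ ε W`. -/
theorem level_bound (hd : 2 ≤ d) (hX : IsVtx X μ) (hmu : MuM μ m) (hN : HasN Q m) (D : ℕ) (hD : 1000 ≤ D)
    (i : Fin X.N) (ε : ℝ) (hε : 0 < ε) :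
    ∀ᶠ h : ℝ in atTop, ∀ (a : ℝ) (M : Mdl d a h), GoodN Q m (2 * D + 200) M →
      ∀ (n : ℕ) (Z W N : ℝ), (n : ℝ) ≤ h ^ D → 0 ≤ Z → Z ≤ h ^ (D + 1) → h ^ 102 ≤ W → W ≤ h ^ (D + 3) →
        LaneOK X M n Z W → 0 ≤ N → N ≤ n →
        M.E (fun τ => max (X.UN i (h ^ (D + 8)) h N τ - N - Z) 0) ≤ ε * W := by
  have hC := one_le_C hX
  have hC0 : 0 < X.C := by linarith
  have hC1 : 1 ≤ X.C := by linarith
  have hC3 : 1 ≤ X.C ^ 3 := one_le_pow₀ hC1
  have hs : ∀ x, μ (-x) = μ x := mu_neg hmu hN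
  set ε' : ℝ := min (ε / (400 * 17 * X.C ^ 3)) (1 / (4 * X.C ^ 2)) with hε'
  have hε0 : 0 < ε' := lt_min (by positivity) (by positivity)
  have hε1 : ε' ≤ ε / (400 * 17 * X.C ^ 3) := min_le_left _ _
  have hε2 : ε' ≤ 1 / (4 * X.C ^ 2) := min_le_right _ _
  obtain ⟨e, he, hRC⟩ := reach_cheap hX hmu hN D hD i ε' hε0
  obtain ⟨he0, he1, he2⟩ := cheap_center hd hs hX i hε2 he
  have hLT := LT_prob hmu hN (D + 10) (by omega)
  have hNone := P_none_LG (Q := Q) (m := m) hX D hD i e he0 he1 he2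
  have hLane := UN_lane hs hX D hD i ε' hε0 e he1 he2
  filter_upwards [hRC, hLT, hNone, hLane, Lane3_exp (D + 2) (show 0 < ε / 6 by positivity),
    eventually_ge_atTop (34 * X.C ^ 3), eventually_ge_atTop (2 * X.C + X.C ^ 2 + d),
    eventually_ge_atTop 4] with h gRC gLT gNone gLane gexp gh1 gh2 gh3
  intro a M hM n Z W N hn hZ hZ' hW hW' hlane hN0 hNn
  have h1 : (1 : ℝ) ≤ h := by linarith
  have h0 : (0 : ℝ) < h := by linarith
  have ha := hM.apos
  have hah := hM.alt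
  have hW1 : 1 ≤ W := (one_le_pow₀ h1).trans hW
  set L : ℕ := ⌈8 * X.C ^ 3 * (W + 1)⌉₊ with hL
  set J : ℕ := ⌈h⌉₊ with hJ
  have hL1 : 8 * X.C ^ 3 * (W + 1) ≤ L := Nat.le_ceil _
  have hL2 : (L : ℝ) ≤ 17 * X.C ^ 3 * W := by
    have g1 : (L : ℝ) < 8 * X.C ^ 3 * (W + 1) + 1 := Nat.ceil_lt_add_one (by positivity)
    have g2 : X.C ^ 3 ≤ X.C ^ 3 * W := le_mul_of_one_le_right (by positivity) hW1
    nlinarith
  have hJ1 : h ≤ J := Nat.le_ceil _
  have hJ2 : (J : ℝ) ≤ 2 * h := by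
    have g1 : (J : ℝ) < h + 1 := Nat.ceil_lt_add_one h0.le
    linarith
  have hJL : (J * L : ℝ) ≤ h ^ (D + 5) := by
    have g1 : (J * L : ℝ) ≤ (2 * h) * (17 * X.C ^ 3 * W) :=
      mul_le_mul hJ2 hL2 (Nat.cast_nonneg _) (by linarith)
    have g2 : (2 * h) * (17 * X.C ^ 3 * W) = (34 * X.C ^ 3) * (h * W) := by ring
    have g3 : h * W ≤ h * h ^ (D + 3) := mul_le_mul_of_nonneg_left hW' h0.le
    have g4 : (34 * X.C ^ 3) * (h * W) ≤ h * (h * h ^ (D + 3)) :=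
      mul_le_mul gh1 g3 (by positivity) h0.le
    calc (J * L : ℝ) ≤ (2 * h) * (17 * X.C ^ 3 * W) := g1
      _ = (34 * X.C ^ 3) * (h * W) := g2
      _ ≤ h * (h * h ^ (D + 3)) := g4
      _ = h ^ (D + 5) := by ring
  have hL0 : (0 : ℝ) ≤ L := Nat.cast_nonneg _
  have hLW : h ^ 102 ≤ (L : ℝ) := by
    have g1 : W ≤ 8 * X.C ^ 3 * (W + 1) := by nlinarith
    linarith
  have hND : N ≤ h ^ D := hNn.trans hn
  -- the bound of the passage cost
  have hcr : X.C * (N + 1) + X.C ^ 2 + d ≤ h ^ (D + 1) := by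
    have g1 : 1 ≤ h ^ D := one_le_pow₀ h1
    have g2 : (2 * X.C + X.C ^ 2 + d) * h ^ D ≤ h * h ^ D := mul_le_mul_of_nonneg_right gh2 (by positivity)
    have g3 : X.C * (N + 1) ≤ X.C * (h ^ D + h ^ D) := mul_le_mul_of_nonneg_left (by linarith) hC0.le
    have g4 : X.C ^ 2 + d ≤ (X.C ^ 2 + d) * h ^ D := le_mul_of_one_le_right (by positivity) g1
    calc X.C * (N + 1) + X.C ^ 2 + d ≤ X.C * (h ^ D + h ^ D) + (X.C ^ 2 + d) * h ^ D := by linarith
      _ = (2 * X.C + X.C ^ 2 + d) * h ^ D := by ring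
      _ ≤ h * h ^ D := g2
      _ = h ^ (D + 1) := by ring
  have hcr' : X.C * (N + 1) + X.C ^ 2 + d ≤ h ^ (D + 8) :=
    hcr.trans (pow_le_pow_right₀ h1 (by omega))
  have hUN : ∀ τ, Bd a h τ → X.UN i (h ^ (D + 8)) h N τ - N - Z ≤ h ^ (D + 2) := by
    intro τ hτ
    have g1 := UN_le hX ha hah hτ i hN0 hcr'
    have g2 : h * (X.C * (N + 1) + X.C ^ 2 + d) ≤ h * h ^ (D + 1) := mul_le_mul_of_nonneg_left hcr h0.le
    have g3 : h * h ^ (D + 1) = h ^ (D + 2) := by ring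
    linarith
  have key := E_first M J (fun k τ => LG X i e Z W N (((k + 1) * L : ℕ) : ℝ) τ)
    (fun τ => LT μ (D + 10) h τ ∧ RC X i e D ε' h τ) (fun τ => X.UN i (h ^ (D + 8)) h N τ - N - Z)
    (2 * ε' * L) (h ^ (D + 2)) (by positivity) (by positivity)
    (fun j hj => gNone a M hM n L J Z W N hn hW hL1 hJL hlane hN0 hNn j hj)
    (fun τ hτ hA j hj hG => by
      have g1 : (((j + 1) * L : ℕ) : ℝ) = ((j : ℝ) + 1) * L := by push_cast; ring
      have g2 : (L : ℝ) ≤ (((j + 1) * L : ℕ) : ℝ) := by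
        rw [g1]
        have : (0 : ℝ) ≤ j := Nat.cast_nonneg _
        nlinarith
      have g3 : (((j + 1) * L : ℕ) : ℝ) ≤ h ^ (D + 5) := by
        refine le_trans ?_ hJL
        rw [g1]
        refine mul_le_mul_of_nonneg_right ?_ hL0
        exact_mod_cast hj
      have g4 := gLane a τ ha hah hτ hA.1 hA.2 (((j + 1) * L : ℕ) : ℝ) Z W N (hLW.trans g2) g3
        (by linarith) (hL1.trans g2) hZ hZ' hN0 hND hG
      rw [g1] at g4
      show X.UN i (h ^ (D + 8)) h N τ - N - Z ≤ (j + 1) * (2 * ε' * L)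
      have g5 : 2 * ε' * (((j : ℝ) + 1) * L) = (j + 1) * (2 * ε' * L) := by ring
      linarith)
    (fun τ hτ => hUN τ hτ)
  -- the probability of the exceptional event
  have hM' : GoodN Q m (D + 10 + 1) M := hM.mono h1 (by omega)
  have hPA : M.P (fun τ => ¬ (LT μ (D + 10) h τ ∧ RC X i e D ε' h τ)) ≤
      Real.exp (-(h / 4)) + Real.exp (-(h / 4)) := by
    have g1 : M.P (fun τ => ¬ (LT μ (D + 10) h τ ∧ RC X i e D ε' h τ)) ≤
        M.P (fun τ => ¬ LT μ (D + 10) h τ ∨ ¬ RC X i e D ε' h τ) :=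
      M.P_mono fun τ _ hτ => not_and_or.1 hτ
    have g2 := M.P_or (fun τ => ¬ LT μ (D + 10) h τ) (fun τ => ¬ RC X i e D ε' h τ)
    have g3 := gLT a M hM'
    have g4 := gRC a M hM
    have g5 : Real.exp (-(h / 2)) ≤ Real.exp (-(h / 4)) := Real.exp_le_exp.2 (by linarith)
    have g6 : Real.exp (-(h / 3)) ≤ Real.exp (-(h / 4)) := Real.exp_le_exp.2 (by linarith)
    linarith
  have hJexp : (3 / 4 : ℝ) ^ J ≤ Real.exp (-(h / 4)) := by
    have g1 : (3 / 4 : ℝ) ≤ Real.exp (-(1 / 4)) := by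
      have := Real.add_one_le_exp (-(1 / 4) : ℝ)
      linarith
    calc (3 / 4 : ℝ) ^ J ≤ (Real.exp (-(1 / 4))) ^ J := pow_le_pow_left₀ (by norm_num) g1 J
      _ = Real.exp (J * (-(1 / 4))) := (Real.exp_nat_mul _ _).symm
      _ ≤ Real.exp (-(h / 4)) := Real.exp_le_exp.2 (by linarith)
  have hK0 : 0 ≤ h ^ (D + 2) := by positivity
  have t1 : h ^ (D + 2) * (3 / 4 : ℝ) ^ J ≤ ε / 6 :=
    (mul_le_mul_of_nonneg_left hJexp hK0).trans gexp
  have t2 : h ^ (D + 2) * M.P (fun τ => ¬ (LT μ (D + 10) h τ ∧ RC X i e D ε' h τ)) ≤ ε / 6 + ε / 6 := by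
    have g1 := mul_le_mul_of_nonneg_left hPA hK0
    rw [mul_add] at g1
    linarith
  have t3 : 16 * (2 * ε' * L) ≤ ε / 2 * W := by
    have g1 : ε' * L ≤ ε / (400 * 17 * X.C ^ 3) * (17 * X.C ^ 3 * W) :=
      mul_le_mul hε1 hL2 hL0 (by positivity)
    have g2 : ε / (400 * 17 * X.C ^ 3) * (17 * X.C ^ 3 * W) = ε * W / 400 := by
      field_simp
    rw [g2] at g1
    have g3 : 0 ≤ ε * W := by positivity
    linarith
  have t4 : ε ≤ ε * W := le_mul_of_one_le_right hε.le hW1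
  refine key.trans ?_
  linarith

/-- The level bound up to `2 n`. PROOF. `N / 2 + N / 2`, `over_add'` with `z₁ = z₂ = Z`, `level_bound` with `ε / 4`;
`1 ≤ (ε / 2) * W` for `h` large. -/
theorem level_bound2 (hd : 2 ≤ d) (hX : IsVtx X μ) (hmu : MuM μ m) (hN : HasN Q m) (D : ℕ) (hD : 1000 ≤ D)
    (i : Fin X.N) (ε : ℝ) (hε : 0 < ε) :
    ∀ᶠ h : ℝ in atTop, ∀ (a : ℝ) (M : Mdl d a h), GoodN Q m (2 * D + 200) M →
      ∀ (n : ℕ) (Z W N : ℝ), (n : ℝ) ≤ h ^ D → 0 ≤ Z → Z ≤ h ^ (D + 1) → h ^ 102 ≤ W → W ≤ h ^ (D + 3) →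
        LaneOK X M n Z W → 2 ≤ N → N ≤ 2 * n →
        M.E (fun τ => max (X.UN i (h ^ (D + 8)) h N τ - N - 2 * Z) 0) ≤ ε * W := by
  filter_upwards [level_bound hd hX hmu hN D hD i (ε / 4) (by positivity), over_add' hX hmu hN D hD i,
    eventually_ge_atTop (2 / ε), eventually_ge_atTop 1] with h hlev hadd hh h1
  intro a M hM n Z W N hn hZ hZ' hW hW' hlane hN2 hNn
  have hND : N / 2 ≤ h ^ (D + 1) := by
    have g1 : h ^ D ≤ h ^ (D + 1) := pow_le_pow_right₀ h1 (by omega)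
    linarith
  have g1 := hlev a M hM n Z W (N / 2) hn hZ hZ' hW hW' hlane (by linarith) (by linarith)
  have g2 := hadd a M hM (N / 2) (N / 2) Z Z (by linarith) (by linarith) hND hND hZ hZ
  rw [add_halves, ← two_mul Z] at g2
  have g3 : h ≤ W := by
    have g4 : h ≤ h ^ 102 := by
      calc h = h ^ 1 := (pow_one h).symm
        _ ≤ h ^ 102 := pow_le_pow_right₀ h1 (by norm_num)
    exact g4.trans hW
  have g5 : 1 ≤ ε / 2 * W := by
    have g6 : 2 / ε ≤ W := hh.trans g3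
    rw [div_le_iff₀ hε] at g6
    linarith
  linarith

end Pool.Agent.W_1b8d5d_nd

end

/-! ### LuckA0 -/

section

/-!
MP_1b8d5d_pr, [ND]: the deterministic part of `LuckA`.
-/

set_option autoImplicit false

namespace Pool.Agent.W_1b8d5d_nd

open Finset Filter Topology

variable {d : ℕ} [NeZero d] {μ : (Fin d → ℝ) → ℝ} {X : Vtx d}

omit [NeZero d] in
/-- The half space functional is nonnegative on the cone around `e`. -/
private theorem LuckA0_pos (i : Fin X.N) {R : ℝ} {e : Fin d → ℝ}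
    (he : ∀ u, rn u ≤ 1 → 1 / 2 ≤ dp (X.f i) (e + u)) {z : V d} (hR : 0 < R)
    (hz : rn (toR z - R • e) ≤ R) : 0 ≤ X.ff i z := by
  have h5 := he (R⁻¹ • (toR z - R • e)) (by
    rw [rn_smul, abs_of_pos (inv_pos.2 hR), inv_mul_le_iff₀ hR, mul_one]
    exact hz)
  have h6 : toR z = R • (e + R⁻¹ • (toR z - R • e)) := by
    rw [smul_add, smul_inv_smul₀ hR.ne']
    abel
  have h7 : X.ff i z = R * dp (X.f i) (e + R⁻¹ • (toR z - R • e)) := by
    unfold Vtx.ff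
    conv_lhs => rw [h6]
    rw [dp_smul]
  rw [h7]
  exact mul_nonneg hR.le (le_trans (by norm_num) h5)

/-- Five times a power. -/
private theorem LuckA0_pow {h : ℝ} (h3 : 3 ≤ h) (k l : ℕ) (hkl : k < l) : 3 * h ^ k ≤ h ^ l := by
  have h1 : 1 ≤ h := le_trans (by norm_num) h3
  have h2 : h ^ (k + 1) ≤ h ^ l := pow_le_pow_right₀ h1 hkl
  have h4 : 3 * h ^ k ≤ h * h ^ k := mul_le_mul_of_nonneg_right h3 (pow_nonneg (by linarith) k)
  rw [pow_succ'] at h2
  exact h4.trans h2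

/-- The walk stays in the shifted region: the cost bound for `T`. -/
private theorem LuckA0_T (i : Fin X.N) {h a H : ℝ} {τ : Env d} (ha : 0 < a) (hah : a ≤ h)
    (hτ : Bd a h τ) {u q₀ q : V d} (w : (grid d).Walk q₀ q) (hz : 0 ≤ X.ff i (q₀ + u))
    (hsup : ∀ v ∈ w.support, X.ff i q₀ ≤ X.ff i v)
    (hnr : ∀ v ∈ w.support, nm (v + u) ≤ H) :
    T (res h (X.Rg i H) (sh (-u) τ)) (q₀ + u) (q + u) ≤ cost τ w := by
  rw [T_res_sh]
  have e1 : q₀ + u + -u = q₀ := by abel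
  have e2 : q + u + -u = q := by abel
  rw [e1, e2]
  refine (T_le_cost (Bd_res hah hτ _) ha.le w).trans ?_
  rw [cost_congr w]
  intro ed hed
  unfold res
  rw [if_pos]
  obtain ⟨hs1, hs2⟩ := wedges_support w hed
  have hkey : ∀ v ∈ w.support, 0 ≤ X.ff i (v - -u) ∧ nm (v - -u) ≤ H := by
    intro v hv
    rw [sub_neg_eq_add]
    refine ⟨?_, hnr v hv⟩
    rw [Vtx.ff_add] at hz ⊢
    exact hz.trans (add_le_add (hsup v hv) le_rfl)
  have h12 : ed.1 - -u + dir ed.2 = ed.1 + dir ed.2 - -u := by abel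
  refine ⟨hkey _ hs1, ?_⟩
  change 0 ≤ X.ff i (ed.1 - -u + dir ed.2) ∧ nm (ed.1 - -u + dir ed.2) ≤ H
  rw [h12]
  exact hkey _ hs2

/-- The deterministic inclusion of `luck_window`. -/
theorem LuckA0_incl (hX : IsVtx X μ) (i : Fin X.N) {D : ℕ} (hD : 1000 ≤ D) {h lam a R n Y : ℝ}
    {e : Fin d → ℝ} {u : V d} {τ : Env d} (hl0 : 0 < lam) (ha : 0 < a) (hah : a ≤ h) (h3 : 3 ≤ h)
    (hh6 : 6 * X.C ≤ h) (he : ∀ u, rn u ≤ 1 → 1 / 2 ≤ dp (X.f i) (e + u)) (hτ : Bd a h τ)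
    (hRd : (d : ℝ) ≤ R) (hR0 : 0 < R) (hR1 : h ^ 101 ≤ R) (hR3 : R ≤ lam * Y) (hRn : R ≤ n)
    (hn2 : n ≤ h ^ D) (hY0 : 0 < Y) (hun1 : nm u ≤ h ^ (D + 1) + h ^ (D + 1))
    (hun2 : rn (toR u - (2 * R) • e) ≤ d) (hffu : |X.ff i u| ≤ n / 2)
    (hw : ∀ (x z : V d) (w : (grid d).Walk x z) (s : ℝ), nm x ≤ h ^ (D + 5) → 0 ≤ s → s ≤ h ^ (D + 5) →
      cost τ w ≤ s → ∀ q ∈ w.support, nm (q - x) ≤ 2 * X.C * (s + h ^ 16))
    (hRe : ∀ (R : ℝ) (z : V d), h ^ 101 ≤ R → R ≤ h ^ (D + 5) → rn (toR z - R • e) ≤ R →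
      T (res h (X.Rg i (h ^ (D + 8))) (sh (-u) τ)) 0 z ≤ X.ff i z + 1 / (4 * lam) * R)
    {q₀ q : V d} (w : (grid d).Walk q₀ q) (hq0 : nm q₀ ≤ R) (hq : nm q ≤ h ^ (D + 4))
    (hqn : X.ff i q ≤ 3 / 2 * n) (hsup : ∀ v ∈ w.support, X.ff i q₀ ≤ X.ff i v)
    (hc : cost τ w ≤ X.ff i (q - q₀) - Y) (hc2 : cost τ w ≤ 2 * n - Y) (hc0 : 0 ≤ cost τ w) :
    ∃ q', nm q' ≤ h ^ (D + 8) ∧ X.ff i q' ≤ 2 * n ∧
      T (res h (X.Rg i (h ^ (D + 8))) (sh (-u) τ)) 0 q' ≤ X.ff i q' - Y / 2 := by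
  have h1 : 1 ≤ h := le_trans (by norm_num) h3
  have h0 : 0 < h := lt_of_lt_of_le one_pos h1
  have hD0 : 0 < h ^ D := pow_pos h0 D
  have hC4 := one_le_C hX
  have hC0 : 0 ≤ X.C := le_trans (by norm_num) hC4
  have hD1 : 3 * h ^ D ≤ h ^ (D + 1) := LuckA0_pow h3 _ _ (by omega)
  have hD5 : 3 * h ^ (D + 1) ≤ h ^ (D + 5) := LuckA0_pow h3 _ _ (by omega)
  have hD15 : 0 < h ^ (D + 1) := pow_pos h0 _
  have hRD : R ≤ h ^ D := hRn.trans hn2
  have hc3 : cost τ w ≤ 2 * h ^ D := by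
    clear hw hRe he hsup hun1 hun2 hffu hX
    linarith
  have hc4 : cost τ w ≤ h ^ (D + 5) := by
    clear hw hRe he hsup hun1 hun2 hffu hX
    linarith
  have hq05 : nm q₀ ≤ h ^ (D + 5) := by
    clear hw hRe he hsup hun1 hun2 hffu hX
    linarith
  have hnear := hw q₀ q w (cost τ w) hq05 hc0 hc4 le_rfl
  have hnear2 : ∀ v ∈ w.support, nm (v - q₀) ≤ h ^ (D + 1) := by
    intro v hv
    refine (hnear v hv).trans ?_
    have h5 : h ^ 16 ≤ h ^ D := pow_le_pow_right₀ h1 (by omega)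
    have h6 : 2 * X.C * (cost τ w + h ^ 16) ≤ 2 * X.C * (3 * h ^ D) :=
      mul_le_mul_of_nonneg_left (le_trans (add_le_add hc3 h5) (by ring_nf; exact le_rfl))
        (mul_nonneg zero_le_two hC0)
    refine h6.trans ?_
    have h7 := mul_le_mul_of_nonneg_left hh6 hD0.le
    have h8 : 2 * X.C * (3 * h ^ D) = h ^ D * (6 * X.C) := by ring
    rw [h8, pow_succ]
    exact h7
  have htz : toR (q₀ + u) - (2 * R) • e = toR q₀ + (toR u - (2 * R) • e) := by
    rw [toR_add]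
    abel
  have hz1 : rn (toR (q₀ + u) - (2 * R) • e) ≤ 2 * R := by
    rw [htz]
    refine (rn_add_le (toR q₀) (toR u - (2 * R) • e)).trans ?_
    rw [← nm_eq_rn]
    exact (add_le_add hq0 (hun2.trans hRd)).trans (two_mul R).ge
  have h2R : 0 < 2 * R := mul_pos two_pos hR0
  have hR5 : 2 * R ≤ h ^ (D + 5) := by
    clear hw hRe he hsup hun1 hun2 hffu hX
    linarith
  have hz2 := hRe (2 * R) (q₀ + u) (by
    clear hw hRe he hsup hun1 hun2 hffu hX
    linarith) hR5 hz1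
  have hz3 : 1 / (4 * lam) * (2 * R) ≤ Y / 2 := by
    have h5 : 1 / (4 * lam) * (2 * R) = R / lam / 2 := by
      field_simp
      ring
    have h6 : R / lam ≤ Y := by
      rw [div_le_iff₀ hl0, mul_comm]
      exact hR3
    rw [h5]
    exact div_le_div_of_nonneg_right h6 two_pos.le
  have hz4 : 0 ≤ X.ff i (q₀ + u) := LuckA0_pos i he h2R hz1
  have hP8 : 3 * h ^ (D + 5) ≤ h ^ (D + 8) := LuckA0_pow h3 _ _ (by omega)
  refine ⟨q + u, ?_, ?_, ?_⟩
  · have h5 := nm_add_le q u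
    have h6 : 3 * h ^ (D + 4) ≤ h ^ (D + 5) := LuckA0_pow h3 _ _ (by omega)
    have h9 : 0 < h ^ (D + 4) := pow_pos h0 _
    clear hw hRe he hsup hun2 hffu hX hnear hnear2
    linarith
  · rw [Vtx.ff_add]
    have := (abs_le.1 hffu).2
    clear hw hRe he hsup hun2 hffu hX hnear hnear2
    linarith
  · have hbr := Bd_res hah (Bd_sh hτ (-u)) (X.Rg i (h ^ (D + 8)))
    have h5 := T_triangle hbr ha.le 0 (q₀ + u) (q + u)
    have h6 : T (res h (X.Rg i (h ^ (D + 8))) (sh (-u) τ)) (q₀ + u) (q + u) ≤ cost τ w := by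
      refine LuckA0_T i ha hah hτ w hz4 hsup fun v hv => ?_
      have h7 := hnear2 v hv
      have h8 : v + u = (v - q₀) + q₀ + u := by abel
      rw [h8]
      have h9 := nm_add_le ((v - q₀) + q₀) u
      have h10 := nm_add_le (v - q₀) q₀
      clear hw hRe he hsup hun2 hffu hX hnear hnear2
      linarith
    have h7 : X.ff i (q + u) = X.ff i (q₀ + u) + X.ff i (q - q₀) := by
      rw [Vtx.ff_add, Vtx.ff_add, Vtx.ff_sub]
      ring
    rw [h7]
    clear hw hRe he hsup hun2 hffu hX hnear hnear2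
    linarith

end Pool.Agent.W_1b8d5d_nd

end

/-! ### LuckA -/

section

/-!
MP_1b8d5d_pr, [ND]: section 3 of row 581: luck is rare.
-/

set_option autoImplicit false

namespace Pool.Agent.W_1b8d5d_nd

open Finset Filter Topology
open Pool.Agent.W_1b8d5d_h85 (Ex Pr Vr avg)

variable {d : ℕ} [NeZero d] {Q : Qn} {m : V d → ℝ} {μ : (Fin d → ℝ) → ℝ} {X : Vtx d}

/-- The event of `reach`. -/
private def LuckA_RE (X : Vtx d) (i : Fin X.N) (D : ℕ) (h lam : ℝ) (e : Fin d → ℝ) (σ : Env d) : Prop :=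
  ∀ (R : ℝ) (z : V d), h ^ 101 ≤ R → R ≤ h ^ (D + 5) → rn (toR z - R • e) ≤ R →
    T (res h (X.Rg i (h ^ (D + 8))) σ) 0 z ≤ X.ff i z + 1 / (4 * lam) * R

private theorem LuckA_exp (D : ℕ) : ∀ᶠ h : ℝ in atTop, Real.exp (-(h / 2)) * (2 * h ^ D) ≤ 1 := by
  have h1 := (isLittleO_pow_exp_pos_mul_atTop D (b := 1 / 2) (by norm_num)).def
    (by norm_num : (0 : ℝ) < 1 / 2)
  filter_upwards [h1, eventually_ge_atTop 0] with h h2 h3
  rw [Real.norm_eq_abs, Real.norm_eq_abs, abs_of_nonneg (pow_nonneg h3 D),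
    abs_of_pos (Real.exp_pos _)] at h2
  have h4 : 2 * h ^ D ≤ Real.exp (1 / 2 * h) := by linarith
  have h5 := mul_le_mul_of_nonneg_left h4 (Real.exp_pos (-(h / 2))).le
  rw [← Real.exp_add] at h5
  have h6 : -(h / 2) + 1 / 2 * h = 0 := by ring
  rw [h6, Real.exp_zero] at h5
  exact h5

/-- Luck in one window, from a point `q₀` of the window of radius `R` inside the half space at `q₀` (walk with all vertices in
`hp i q₀`). PROOF. `reach` with `ε₀`, `R' = 2 R`, `x₀ = -rnd (R' e)`: on the (shifted) reach event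
`T (res h (Rg) (sh x₀ τ)) 0 (q₀ - x₀) ≤ ff (q₀ - x₀) + 2 ε₀ R`, the walk `q₀ → q` stays in `x₀ + Rg`, so with `2 ε₀ R ≤ Y / 2`
the event is contained in `Lk X i D h (2 n) (Y / 2) (sh x₀ τ)`; `P_sh`, `stop`. -/
theorem luck_window (hX : IsVtx X μ) (hmu : MuM μ m) (hN : HasN Q m) (D : ℕ) (hD : 1000 ≤ D) (i : Fin X.N)
    (lam : ℝ) (hl : 1 ≤ lam) :
    ∃ C₁ : ℝ, 1 ≤ C₁ ∧ ∀ᶠ h : ℝ in atTop, ∀ (a : ℝ) (M : Mdl d a h), GoodN Q m (2 * D + 200) M →
      ∀ (n Δ Y R : ℝ), h ^ (D - 1) ≤ n → n ≤ h ^ D → 0 ≤ Δ →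
        (M.E (fun τ => max (X.UN i (h ^ (D + 8)) h (2 * n) τ - 2 * n) 0) ≤ Δ) →
        h ^ 101 ≤ R → C₁ * R ≤ n → R ≤ lam * Y →
        M.P (fun τ => ∃ (q₀ q : V d) (w : (grid d).Walk q₀ q), nm q₀ ≤ R ∧ nm q ≤ h ^ (D + 4) ∧ X.ff i q ≤ 3 / 2 * n ∧
            (∀ v ∈ w.support, X.ff i q₀ ≤ X.ff i v) ∧ cost τ w ≤ X.ff i (q - q₀) - Y)
          ≤ C₁ * (Δ + 1) / Y + Real.exp (-(h / 3)) := by
  have hs := mu_neg hmu hN
  have hl0 : 0 < lam := by linarith
  obtain ⟨e, he, hreach⟩ := reach hX hmu hN D hD i (1 / (4 * lam)) (by positivity)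
  obtain ⟨C₀, hC0, hstop⟩ := stop hX hmu hN D hD i
  have hC4 := one_le_C hX
  have hE0 := rn_nonneg e
  have hd0 : (0 : ℝ) ≤ d := Nat.cast_nonneg d
  have hCE : 0 ≤ X.C * (2 * rn e + d) := by
    apply mul_nonneg (by linarith)
    linarith
  refine ⟨2 * C₀ + 2 + 2 * X.C + 2 * (X.C * (2 * rn e + d)), by linarith, ?_⟩
  set C₁ : ℝ := 2 * C₀ + 2 + 2 * X.C + 2 * (X.C * (2 * rn e + d)) with hC1
  filter_upwards [hreach, hstop, walk_near hs hX (D + 5) (by omega), LT_prob hmu hN (D + 7) (by omega),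
    LuckA_exp D, eventually_ge_atTop (3 + 6 * X.C + (1 + 2 * rn e) + d)] with h hr hst hw hLT hexp hh
  intro a M hM n Δ Y R hn1 hn2 hΔ hE hR1 hR2 hR3
  have ha := hM.apos
  have hah := hM.alt
  have h3 : 3 ≤ h := by linarith
  have h1 : 1 ≤ h := by linarith
  have h0 : 0 < h := by linarith
  have hh6 : 6 * X.C ≤ h := by linarith
  have hhE : 1 + 2 * rn e ≤ h := by linarith
  have hhd : (d : ℝ) ≤ h := by linarith
  have hD0 : 0 < h ^ D := by positivity
  have hn0 : 1 ≤ n := (one_le_pow₀ h1).trans hn1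
  have hR100 : h ≤ R := (le_self_pow₀ h1 (by norm_num)).trans hR1
  have hR0 : 0 < R := by linarith
  have hRd : (d : ℝ) ≤ R := by linarith
  have hR1' : 1 ≤ R := by linarith
  have hY0 : 0 < Y := by
    by_contra hneg
    push Not at hneg
    have := mul_nonpos_of_nonneg_of_nonpos hl0.le hneg
    linarith
  have hC11 : 1 ≤ C₁ := by rw [hC1]; linarith
  have hRn : R ≤ n := by
    have := mul_le_mul_of_nonneg_right hC11 hR0.le
    linarith
  have hCR : X.C * R ≤ n / 2 := by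
    have h5 : 2 * X.C * R ≤ C₁ * R := mul_le_mul_of_nonneg_right (by rw [hC1]; linarith) hR0.le
    linarith
  have hCER : X.C * (2 * rn e + d) * R ≤ n / 2 := by
    have h5 : 2 * (X.C * (2 * rn e + d)) * R ≤ C₁ * R :=
      mul_le_mul_of_nonneg_right (by rw [hC1]; linarith) hR0.le
    linarith
  -- powers
  have hp1 : h ^ (D + 1) = h ^ D * h := pow_succ h D
  have hpow : ∀ k l : ℕ, k ≤ l → h ^ k ≤ h ^ l := fun k l hkl => pow_le_pow_right₀ h1 hkl
  have hD1 : 3 * h ^ D ≤ h ^ (D + 1) := by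
    rw [hp1]
    have h5 := mul_le_mul_of_nonneg_left h3 hD0.le
    linarith
  have hbad0 : ∀ τ : Env d, Bd a h τ → ∀ (q₀ q : V d) (w : (grid d).Walk q₀ q), nm q₀ ≤ R →
      X.ff i q ≤ 3 / 2 * n → cost τ w ≤ X.ff i (q - q₀) - Y → cost τ w ≤ 2 * n - Y ∧ 0 ≤ cost τ w := by
    intro τ hτ q₀ q w hq0 hq hc
    constructor
    · rw [Vtx.ff_sub] at hc
      have h5 := abs_ff_le hX i q₀
      have h6 := (abs_le.1 h5).1
      have h7 : X.C * nm q₀ ≤ X.C * R := mul_le_mul_of_nonneg_left hq0 (by linarith)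
      linarith
    · have h5 := le_cost hτ w
      have h6 : 0 ≤ a * w.length := by positivity
      linarith
  by_cases hYn : Y ≤ 2 * n
  swap
  · -- the event is empty
    have h5 : M.P (fun τ => ∃ (q₀ q : V d) (w : (grid d).Walk q₀ q), nm q₀ ≤ R ∧ nm q ≤ h ^ (D + 4) ∧
        X.ff i q ≤ 3 / 2 * n ∧ (∀ v ∈ w.support, X.ff i q₀ ≤ X.ff i v) ∧
        cost τ w ≤ X.ff i (q - q₀) - Y) ≤ 0 := by
      classical
      rw [M.P_def]
      apply M.E_le_of_le
      intro τ hτ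
      rw [if_neg]
      rintro ⟨q₀, q, w, hq0, hq, hqn, hsup, hc⟩
      have h6 := hbad0 τ hτ q₀ q w hq0 hqn hc
      linarith [h6.1, h6.2]
    refine h5.trans ?_
    positivity
  set u : V d := rnd ((2 * R) • e) with hu
  have hun : nm u ≤ 2 * R * rn e + d := by
    have h5 := rnd_near ((2 * R) • e)
    have h6 := rn_add_le (toR u - (2 * R) • e) ((2 * R) • e)
    rw [sub_add_cancel, ← nm_eq_rn, rn_smul, abs_of_pos (by linarith)] at h6
    linarith
  have hun1 : nm u ≤ h ^ (D + 1) + h ^ (D + 1) := by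
    have h5 : 2 * R * rn e ≤ h ^ (D + 1) := by
      rw [hp1]
      have h6 : 2 * R * rn e = R * (2 * rn e) := by ring
      rw [h6]
      exact mul_le_mul (hRn.trans hn2) (by linarith) (by linarith) hD0.le
    have h6 : (d : ℝ) ≤ h ^ (D + 1) := hhd.trans (le_self_pow₀ h1 (by omega))
    linarith
  have hffu : |X.ff i u| ≤ n / 2 := by
    refine (abs_ff_le hX i u).trans ?_
    refine le_trans ?_ hCER
    have h5 : nm u ≤ (2 * rn e + d) * R := by
      have h6 : (2 * rn e + d) * R = 2 * R * rn e + d * R := by ring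
      have h7 := mul_le_mul_of_nonneg_left hR1' hd0
      rw [h6]
      linarith
    calc X.C * nm u ≤ X.C * ((2 * rn e + d) * R) := mul_le_mul_of_nonneg_left h5 (by linarith)
      _ = X.C * (2 * rn e + d) * R := by ring
  have hincl : M.P (fun τ => ∃ (q₀ q : V d) (w : (grid d).Walk q₀ q), nm q₀ ≤ R ∧ nm q ≤ h ^ (D + 4) ∧
        X.ff i q ≤ 3 / 2 * n ∧ (∀ v ∈ w.support, X.ff i q₀ ≤ X.ff i v) ∧
        cost τ w ≤ X.ff i (q - q₀) - Y) ≤
      M.P (fun τ => ¬ LT μ (D + 7) h τ ∨ (¬ LuckA_RE X i D h lam e (sh (-u) τ) ∨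
        Lk X i D h (2 * n) (Y / 2) (sh (-u) τ))) := by
    apply M.P_mono
    intro τ hτ
    rintro ⟨q₀, q, w, hq0, hq, hqn, hsup, hc⟩
    by_cases hL : LT μ (D + 7) h τ
    swap
    · exact Or.inl hL
    right
    by_cases hRe : LuckA_RE X i D h lam e (sh (-u) τ)
    swap
    · exact Or.inl hRe
    right
    obtain ⟨hc2, hc0⟩ := hbad0 τ hτ q₀ q w hq0 hqn hc
    exact LuckA0_incl hX i hD hl0 ha hah h3 hh6 he hτ hRd hR0 hR1 hR3 hRn hn2 hY0 hun1 (rnd_near _)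
      hffu (hw a τ ha hτ hL) hRe w hq0 hq hqn hsup hc hc2 hc0
  have hP1 := hincl.trans (M.P_or _ _)
  have hP2 := M.P_or (fun τ => ¬ LuckA_RE X i D h lam e (sh (-u) τ))
    (fun τ => Lk X i D h (2 * n) (Y / 2) (sh (-u) τ))
  have hPs1 : M.P (fun τ => ¬ LuckA_RE X i D h lam e (sh (-u) τ)) =
      M.P (fun τ => ¬ LuckA_RE X i D h lam e τ) := P_sh hM (-u) (fun σ => ¬ LuckA_RE X i D h lam e σ)
  have hPs2 : M.P (fun τ => Lk X i D h (2 * n) (Y / 2) (sh (-u) τ)) =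
      M.P (Lk X i D h (2 * n) (Y / 2)) := P_sh hM (-u) (fun σ => Lk X i D h (2 * n) (Y / 2) σ)
  have hP3 : M.P (fun τ => ¬ LuckA_RE X i D h lam e τ) ≤ Real.exp (-(h / 3)) := hr a M hM
  have hP4 := hLT a M (hM.mono h1 (by omega))
  have hP5 := hst a M hM (2 * n) (Y / 2) (by linarith) (by
    have := hpow (D + 1) (D + 2) (by omega)
    linarith) (by linarith) (by
    have := hpow (D + 1) (D + 3) (by omega)
    linarith)
  have hP6 : Y / 2 * M.P (Lk X i D h (2 * n) (Y / 2)) ≤ C₀ + Δ := by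
    refine hP5.trans (add_le_add le_rfl (le_trans (M.E_mono fun τ _ => ?_) hE))
    split_ifs
    · exact le_max_right _ _
    · exact le_rfl
  have hP7 : M.P (Lk X i D h (2 * n) (Y / 2)) ≤ 2 * (C₀ + Δ) / Y := by
    rw [le_div_iff₀ hY0]
    linarith
  have hP8 : Real.exp (-(h / 2)) ≤ 1 / Y := by
    rw [le_div_iff₀ hY0]
    have h5 : Real.exp (-(h / 2)) * Y ≤ Real.exp (-(h / 2)) * (2 * h ^ D) :=
      mul_le_mul_of_nonneg_left (by linarith) (Real.exp_pos _).le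
    linarith
  have hP9 : 1 / Y + 2 * (C₀ + Δ) / Y ≤ C₁ * (Δ + 1) / Y := by
    rw [← add_div]
    apply div_le_div_of_nonneg_right _ hY0.le
    have h5 : C₁ * (Δ + 1) = C₁ * Δ + C₁ := by ring
    have h6 : 2 * Δ ≤ C₁ * Δ := mul_le_mul_of_nonneg_right (by rw [hC1]; linarith) hΔ
    have h7 : 1 + 2 * C₀ ≤ C₁ := by rw [hC1]; linarith
    linarith
  linarith

end Pool.Agent.W_1b8d5d_nd

end

/-! ### LuckB -/

section

/-!
MP_1b8d5d_pr, [ND]: section 3 of row 581: luck is rare.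
-/

set_option autoImplicit false

namespace Pool.Agent.W_1b8d5d_nd

open Finset Filter Topology
open Pool.Agent.W_1b8d5d_h85 (Ex Pr Vr avg)

variable {d : ℕ} [NeZero d] {Q : Qn} {m : V d → ℝ} {μ : (Fin d → ℝ) → ℝ} {X : Vtx d}

/-- The event of `luck_window`. -/
private def LuckB_win (X : Vtx d) (i : Fin X.N) (D : ℕ) (h n R Y : ℝ) (τ : Env d) : Prop :=
  ∃ (q₀ q : V d) (w : (grid d).Walk q₀ q), nm q₀ ≤ R ∧ nm q ≤ h ^ (D + 4) ∧ X.ff i q ≤ 3 / 2 * n ∧
    (∀ v ∈ w.support, X.ff i q₀ ≤ X.ff i v) ∧ cost τ w ≤ X.ff i (q - q₀) - Y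

private theorem LuckB_er {C h r : ℝ} (hC : 1 ≤ C) (hh : 4 * C ≤ h) (hr : h ^ 16 ≤ r) : er h r * (2 * C) ≤ r := by
  have h1 : 1 ≤ h := by linarith
  have h0 : 0 ≤ h := by linarith
  have hr0 : 0 ≤ r := le_trans (by positivity) hr
  have e1 : h ^ 8 ≤ √r := by
    refine Real.le_sqrt_of_sq_le ?_
    rw [← pow_mul]
    exact hr
  have hs0 : 0 ≤ √r := Real.sqrt_nonneg r
  have hss : √r * √r = r := Real.mul_self_sqrt hr0
  have e2 : h ^ 7 * √r * (4 * C) ≤ h ^ 7 * √r * h := mul_le_mul_of_nonneg_left hh (by positivity)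
  have e3 : h ^ 7 * √r * h = h ^ 8 * √r := by ring
  have e4 : h ^ 8 * √r ≤ √r * √r := mul_le_mul_of_nonneg_right e1 hs0
  have e5 : h ^ 12 * (4 * C) ≤ h ^ 12 * h := mul_le_mul_of_nonneg_left hh (by positivity)
  have e6 : h ^ 12 * h ≤ h ^ 16 := by
    rw [← pow_succ]
    exact pow_le_pow_right₀ h1 (by norm_num)
  unfold er
  linarith only [e2, e3, e4, hss, e5, e6, hr]

private theorem LuckB_er2 {D : ℕ} (hD : 1000 ≤ D) {h r : ℝ} (h2 : 2 ≤ h) (hr : r ≤ h ^ (D + 7)) :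
    er h r ≤ h ^ (D - 12) := by
  have h1 : 1 ≤ h := by linarith
  have h0 : 0 ≤ h := by linarith
  have e1 : √r ≤ h ^ (D - 20) := by
    refine (Real.sqrt_le_sqrt hr).trans ?_
    rw [Real.sqrt_le_left (by positivity), ← pow_mul]
    exact pow_le_pow_right₀ h1 (by omega)
  have e2 : h ^ 7 * √r ≤ h ^ 7 * h ^ (D - 20) := mul_le_mul_of_nonneg_left e1 (by positivity)
  have e3 : h ^ 7 * h ^ (D - 20) = h ^ (D - 13) := by
    rw [← pow_add]
    congr 1
    omega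
  have e4 : h ^ 12 ≤ h ^ (D - 13) := pow_le_pow_right₀ h1 (by omega)
  have e5 : h ^ (D - 12) = h * h ^ (D - 13) := by
    rw [← pow_succ']
    congr 1
    omega
  have e6 : 2 * h ^ (D - 13) ≤ h * h ^ (D - 13) := mul_le_mul_of_nonneg_right h2 (by positivity)
  unfold er
  rw [e5]
  linarith

private theorem LuckB_det (hs : ∀ x, μ (-x) = μ x) (hX : IsVtx X μ) (D : ℕ) (hD : 1000 ≤ D) (i : Fin X.N) :
    ∀ᶠ h : ℝ in atTop, ∀ (a : ℝ) (τ : Env d), 0 < a → Bd a h τ → LT μ (D + 7) h τ →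
      ∀ (x q : V d) (Y : ℝ), nm x ≤ h ^ (D + 3) → nm q ≤ h ^ (D + 3) → 0 ≤ Y → T τ x q ≤ X.ff i (q - x) - Y →
      ∃ (q₀ : V d) (w : (grid d).Walk q₀ q), (∀ v ∈ w.support, X.ff i q₀ ≤ X.ff i v) ∧
        cost τ w ≤ X.ff i (q - q₀) - (Y + T τ x q₀) ∧ nm (q₀ - x) ≤ h ^ (D - 11) ∧
        (h ^ 16 ≤ nm (q₀ - x) → nm (q₀ - x) ≤ 2 * X.C * T τ x q₀) ∧ Y ≤ h ^ (D - 12) ∧ 0 ≤ T τ x q₀ := by
  filter_upwards [walk_near hs hX (D + 5) (by omega), eventually_ge_atTop (8 * X.C)] with h hwn hC8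
  intro a τ ha hτ hL x q Y hx hq hY hT
  classical
  have hC := one_le_C hX
  have h32 : 32 ≤ h := by linarith
  have h1 : 1 ≤ h := by linarith
  have h2 : 2 ≤ h := by linarith
  have h0 : 0 ≤ h := by linarith
  -- the distance
  have d1 : nm (q - x) ≤ h ^ (D + 4) := by
    have k1 := nm_add_le q (-x)
    rw [nm_neg, ← sub_eq_add_neg] at k1
    have k2 : h ^ (D + 4) = h * h ^ (D + 3) := by rw [← pow_succ']
    have k3 : 2 * h ^ (D + 3) ≤ h * h ^ (D + 3) := mul_le_mul_of_nonneg_right h2 (by positivity)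
    linarith
  have d2 : T τ x q ≤ h ^ (D + 5) := by
    have k1 := (le_abs_self _).trans (abs_ff_le hX i (q - x))
    have k2 : X.C * nm (q - x) ≤ X.C * h ^ (D + 4) := mul_le_mul_of_nonneg_left d1 (by linarith)
    have k3 : X.C * h ^ (D + 4) ≤ h * h ^ (D + 4) := mul_le_mul_of_nonneg_right (by linarith) (by positivity)
    have k4 : h ^ (D + 5) = h * h ^ (D + 4) := by rw [← pow_succ']
    linarith
  obtain ⟨w, hw1, hw2⟩ := exists_geo hτ ha x q
  have hx5 : nm x ≤ h ^ (D + 5) := hx.trans (pow_le_pow_right₀ h1 (by omega))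
  have hnear := hwn a τ ha hτ hL x q w (h ^ (D + 5)) hx5 (by positivity) le_rfl (by rw [hw2]; exact d2)
  obtain ⟨q₀, hq₀, hmin⟩ := Finset.exists_min_image w.support.toFinset (X.ff i)
    ⟨x, List.mem_toFinset.2 w.start_mem_support⟩
  have hq₀s : q₀ ∈ w.support := List.mem_toFinset.1 hq₀
  have hdist := hnear q₀ hq₀s
  have hR : 2 * X.C * (h ^ (D + 5) + h ^ 16) ≤ h ^ (D + 6) := by
    have k1 : h ^ 16 ≤ h ^ (D + 5) := pow_le_pow_right₀ h1 (by omega)
    have k2 : 2 * X.C * (h ^ (D + 5) + h ^ 16) ≤ 2 * X.C * (h ^ (D + 5) + h ^ (D + 5)) :=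
      mul_le_mul_of_nonneg_left (by linarith) (by linarith)
    have k3 : 4 * X.C * h ^ (D + 5) ≤ h * h ^ (D + 5) := mul_le_mul_of_nonneg_right (by linarith) (by positivity)
    have k4 : h ^ (D + 6) = h * h ^ (D + 5) := by rw [← pow_succ']
    linarith
  have hp6 : h ^ (D + 3) ≤ h ^ (D + 6) := pow_le_pow_right₀ h1 (by omega)
  have hp7 : h ^ (D + 7) = h * h ^ (D + 6) := by rw [← pow_succ']
  have hp7' : 2 * h ^ (D + 6) ≤ h * h ^ (D + 6) := mul_le_mul_of_nonneg_right h2 (by positivity)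
  have hnq₀ : nm q₀ ≤ h ^ (D + 7) := by
    have k1 := nm_add_le (q₀ - x) x
    rw [sub_add_cancel] at k1
    linarith
  have hnx : nm x ≤ h ^ (D + 7) := by linarith [show 0 ≤ h ^ (D + 6) by positivity]
  have hnq : nm q ≤ h ^ (D + 7) := by linarith [show 0 ≤ h ^ (D + 6) by positivity]
  have hqq : nm (q - q₀) ≤ h ^ (D + 7) := by
    have k1 := nm_add_le (q - x) (x - q₀)
    rw [sub_add_sub_cancel, nm_sub_comm x q₀] at k1
    have k2 : h ^ (D + 4) ≤ h ^ (D + 6) := pow_le_pow_right₀ h1 (by omega)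
    linarith
  have hqx : nm (q₀ - x) ≤ h ^ (D + 7) := by linarith [show 0 ≤ h ^ (D + 6) by positivity]
  -- the piece
  have hsplit : cost τ w = cost τ (w.takeUntil q₀ hq₀s) + cost τ (w.dropUntil q₀ hq₀s) := by
    rw [← cost_append, w.take_spec hq₀s]
  have htake := T_le_cost hτ ha.le (w.takeUntil q₀ hq₀s)
  have hT0 := T_nonneg hτ ha.le x q₀
  have hcost : cost τ (w.dropUntil q₀ hq₀s) ≤ X.ff i (q - q₀) - (Y + T τ x q₀) := by
    have k1 : X.ff i q₀ ≤ X.ff i x := hmin x (List.mem_toFinset.2 w.start_mem_support)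
    have k2 : X.ff i (q - x) = X.ff i q - X.ff i x := X.ff_sub i q x
    have k3 : X.ff i (q - q₀) = X.ff i q - X.ff i q₀ := X.ff_sub i q q₀
    rw [hw2] at hsplit
    linarith
  have hlow : Y + T τ x q₀ ≤ h ^ (D - 12) := by
    have k1 := hL q₀ q hnq₀ hnq
    have k2 := (le_abs_self _).trans (ff_le_mu hs hX i (q - q₀))
    have k3 := T_le_cost hτ ha.le (w.dropUntil q₀ hq₀s)
    have k4 := LuckB_er2 hD h2 hqq
    linarith
  have himp : h ^ 16 ≤ nm (q₀ - x) → nm (q₀ - x) ≤ 2 * X.C * T τ x q₀ := by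
    intro hr
    have k1 := hL x q₀ hnx hnq₀
    have k2 := rn_le_mu hs hX (toR (q₀ - x))
    rw [← nm_eq_rn] at k2
    have k3 := LuckB_er (C := X.C) (by linarith) (by linarith) hr
    have k4 : X.C * μ (toR (q₀ - x)) ≤ X.C * (T τ x q₀ + er h (nm (q₀ - x))) :=
      mul_le_mul_of_nonneg_left k1 (by linarith only [hC])
    linarith only [k2, k3, k4]
  refine ⟨q₀, w.dropUntil q₀ hq₀s, fun v hv => ?_, hcost, ?_, himp, by linarith, hT0⟩
  · exact hmin v (List.mem_toFinset.2 (w.support_dropUntil_subset_support hq₀s hv))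
  · rcases le_or_gt (h ^ 16) (nm (q₀ - x)) with hr | hr
    · refine (himp hr).trans ?_
      have k1 : T τ x q₀ ≤ h ^ (D - 12) := by linarith
      have k2 : h ^ (D - 11) = h * h ^ (D - 12) := by
        rw [← pow_succ']
        congr 1
        omega
      rw [k2]
      exact mul_le_mul (by linarith) k1 hT0 h0
    · exact hr.le.trans (pow_le_pow_right₀ h1 (by omega))

private theorem LuckB_geom (J : ℕ) : ∑ j ∈ range J, (1 / 2 : ℝ) ^ (j + 1) = 1 - (1 / 2) ^ J := by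
  induction J with
  | zero => simp
  | succ J ih =>
    rw [sum_range_succ, ih, pow_succ]
    ring

private theorem LuckB_exp (D : ℕ) : ∀ᶠ h : ℝ in atTop,
    (h ^ (D + 8) + 3) * Real.exp (-(h / 3)) + Real.exp (-(h / 2)) ≤ Real.exp (-(h / 4)) := by
  have h1 : Tendsto (fun h : ℝ => (h / 12) ^ (D + 8) * Real.exp (-(h / 12))) atTop (𝓝 0) :=
    (Real.tendsto_pow_mul_exp_neg_atTop_nhds_zero (D + 8)).comp (tendsto_id.atTop_div_const (by norm_num))
  have h2 : Tendsto (fun h : ℝ => (12 : ℝ) ^ (D + 8) * ((h / 12) ^ (D + 8) * Real.exp (-(h / 12)))) atTop (𝓝 0) := by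
    have := h1.const_mul ((12 : ℝ) ^ (D + 8))
    rwa [mul_zero] at this
  have h3 : Tendsto (fun h : ℝ => 3 * Real.exp (-(h / 12))) atTop (𝓝 0) := by
    have : Tendsto (fun h : ℝ => Real.exp (-(h / 12))) atTop (𝓝 0) :=
      Real.tendsto_exp_neg_atTop_nhds_zero.comp (tendsto_id.atTop_div_const (by norm_num))
    have := this.const_mul 3
    rwa [mul_zero] at this
  have h4 : Tendsto (fun h : ℝ => Real.exp (-(h / 4))) atTop (𝓝 0) :=
    Real.tendsto_exp_neg_atTop_nhds_zero.comp (tendsto_id.atTop_div_const (by norm_num))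
  filter_upwards [h2.eventually (gt_mem_nhds (show (0 : ℝ) < 1 / 3 by norm_num)),
    h3.eventually (gt_mem_nhds (show (0 : ℝ) < 1 / 3 by norm_num)),
    h4.eventually (gt_mem_nhds (show (0 : ℝ) < 1 / 3 by norm_num))] with h k1 k2 k3
  have e1 : (12 : ℝ) ^ (D + 8) * ((h / 12) ^ (D + 8) * Real.exp (-(h / 12))) = h ^ (D + 8) * Real.exp (-(h / 12)) := by
    rw [← mul_assoc, ← mul_pow]
    congr 2
    ring
  rw [e1] at k1
  have e2 : Real.exp (-(h / 3)) = Real.exp (-(h / 12)) * Real.exp (-(h / 4)) := by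
    rw [← Real.exp_add]
    congr 1
    ring
  have e3 : Real.exp (-(h / 2)) = Real.exp (-(h / 4)) * Real.exp (-(h / 4)) := by
    rw [← Real.exp_add]
    congr 1
    ring
  have e4 := Real.exp_pos (-(h / 4))
  rw [e2, e3]
  have e5 := mul_le_mul_of_nonneg_right k1.le e4.le
  have e6 := mul_le_mul_of_nonneg_right k2.le e4.le
  have e7 := mul_le_mul_of_nonneg_right k3.le e4.le
  linarith only [e5, e6, e7]

/-- Luck is rare. PROOF. On `LT` the event is empty if `Y > h ^ (D / 2 + 13)`. Otherwise let `w` be a geodesic from `x` to `q`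
and `q₀` a vertex of `w` with the least `ff`; the piece `q₀ → q` stays in `hp i q₀`, its cost is `T x q - T x q₀`, so
its luck is `≥ Y + T x q₀`. By `LT` `nm (q₀ - x) ≤ h ^ (D / 2 + 13)`. Shells: `R₀ = 4 (lam + 1) Y`, `R_k = 2 ^ k R₀`; if
`R_{k-1} < nm q₀ ≤ R_k` then `T x q₀ ≥ nm (q₀ - x) / (2 C) ≥ R_k / (8 C)` (`LT`, `rn_le_mu`), apply `luck_window` with
`Y_k = R_k / (8 C)`, `lam' = 8 C`; for `nm q₀ ≤ R₀` apply it with `Y`. The sum over `k` (at most `h` shells) is geometric. -/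
theorem luck (hX : IsVtx X μ) (hmu : MuM μ m) (hN : HasN Q m) (D : ℕ) (hD : 1000 ≤ D) (i : Fin X.N)
    (lam : ℝ) (hl : 1 ≤ lam) :
    ∃ C₁ : ℝ, 1 ≤ C₁ ∧ ∀ᶠ h : ℝ in atTop, ∀ (a : ℝ) (M : Mdl d a h), GoodN Q m (2 * D + 200) M →
      ∀ (n Δ Y : ℝ), h ^ (D - 1) ≤ n → n ≤ h ^ D → 0 ≤ Δ →
        (M.E (fun τ => max (X.UN i (h ^ (D + 8)) h (2 * n) τ - 2 * n) 0) ≤ Δ) →
        h ^ 102 ≤ Y → Y ≤ h ^ (D + 2) →
        M.P (fun τ => ∃ x q : V d, nm x ≤ lam * Y ∧ nm q ≤ h ^ (D + 3) ∧ X.ff i q ≤ 3 / 2 * n ∧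
            T τ x q ≤ X.ff i (q - x) - Y)
          ≤ C₁ * (Δ + 1) / Y + Real.exp (-(h / 4)) := by
  have hC := one_le_C hX
  obtain ⟨C₁, hC1, hwin⟩ := luck_window hX hmu hN D hD i (max (8 * X.C) (4 * (lam + 1)))
    (le_max_of_le_left (by linarith))
  have hs := mu_neg hmu hN
  refine ⟨C₁ * (1 + X.C), ?_, ?_⟩
  · have e1 : 1 * 1 ≤ C₁ * (1 + X.C) := mul_le_mul hC1 (by linarith only [hC]) zero_le_one (by linarith only [hC1])
    linarith only [e1]
  filter_upwards [hwin, LuckB_det hs hX D hD i, LT_prob hmu hN (D + 7) (by omega), LuckB_exp D,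
    eventually_ge_atTop (8 * X.C), eventually_ge_atTop (4 * (lam + 1)), eventually_ge_atTop (2 * C₁)]
    with h hwin hdet hLT hexp hh1 hh2 hh3
  intro a M hM n Δ Y hn1 hn2 hΔ hE hY1 hY2
  have h32 : 32 ≤ h := by linarith
  have h1 : 1 ≤ h := by linarith
  have h2 : 2 ≤ h := by linarith
  have h0 : 0 < h := by linarith
  have hY0 : 0 < Y := lt_of_lt_of_le (by positivity) hY1
  have hlow := hLT a M (hM.mono h1 (by omega))
  have hrhs : 0 ≤ C₁ * (1 + X.C) * (Δ + 1) / Y := by positivity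
  by_cases hYB : Y ≤ h ^ (D - 12)
  swap
  · have k1 : M.P (fun τ => ∃ x q : V d, nm x ≤ lam * Y ∧ nm q ≤ h ^ (D + 3) ∧ X.ff i q ≤ 3 / 2 * n ∧
            T τ x q ≤ X.ff i (q - x) - Y) ≤ M.P (fun τ => ¬ LT μ (D + 7) h τ) := by
      refine M.P_mono fun τ hτ hev hLTτ => ?_
      obtain ⟨x, q, e1, e2, e3, e4⟩ := hev
      have hx : nm x ≤ h ^ (D + 3) := by
        have k3 : lam * Y ≤ h * h ^ (D + 2) := mul_le_mul (by linarith) hY2 hY0.le h0.le
        rw [← pow_succ'] at k3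
        exact e1.trans k3
      obtain ⟨q₀, w, -, -, -, -, k5, -⟩ := hdet a τ hM.apos hτ hLTτ x q Y hx e2 hY0.le e4
      exact hYB k5
    have k2 : Real.exp (-(h / 2)) ≤ Real.exp (-(h / 4)) := Real.exp_le_exp.2 (by linarith)
    linarith
  -- the main case
  set R₀ : ℝ := 4 * (lam + 1) * Y with hR₀
  have hR₀pos : 0 < R₀ := by positivity
  have hR₀Y : h ^ 101 ≤ R₀ := by
    have k1 : h ^ 101 ≤ h ^ 102 := pow_le_pow_right₀ h1 (by norm_num)
    have k2 : 1 * Y ≤ 4 * (lam + 1) * Y := mul_le_mul_of_nonneg_right (by linarith) hY0.le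
    linarith
  have hlamY : lam * Y ≤ R₀ / 4 := by
    rw [hR₀]
    linarith only [hY0]
  have hn10 : h ^ (D - 10) * h ≤ h ^ (D - 1) := by
    rw [← pow_succ]
    exact pow_le_pow_right₀ h1 (by omega)
  have hD10 : h ^ (D - 10) = h * h ^ (D - 11) := by
    rw [← pow_succ']
    congr 1
    omega
  have hD11 : h ^ (D - 11) = h * h ^ (D - 12) := by
    rw [← pow_succ']
    congr 1
    omega
  have hR₀B : R₀ ≤ h ^ (D - 11) := by
    rw [hD11, hR₀]
    exact mul_le_mul hh2 hYB hY0.le h0.le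
  have hR₀n : C₁ * R₀ ≤ n := by
    have k1 : C₁ * R₀ ≤ h * h ^ (D - 11) := mul_le_mul (by linarith) hR₀B hR₀pos.le h0.le
    rw [← hD10] at k1
    have k2 : h ^ (D - 10) * 1 ≤ h ^ (D - 10) * h := mul_le_mul_of_nonneg_left h1 (by positivity)
    linarith
  set J : ℕ := ⌊h ^ (D + 8)⌋₊ + 1 with hJ
  set S : Finset ℕ := (range J).filter fun j => C₁ * (2 ^ (j + 1) * R₀) ≤ n with hS
  -- inclusion
  have hincl : M.P (fun τ => ∃ x q : V d, nm x ≤ lam * Y ∧ nm q ≤ h ^ (D + 3) ∧ X.ff i q ≤ 3 / 2 * n ∧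
            T τ x q ≤ X.ff i (q - x) - Y) ≤ M.P (fun τ => ¬ LT μ (D + 7) h τ ∨ (LuckB_win X i D h n R₀ Y τ ∨
              ∃ j ∈ S, LuckB_win X i D h n (2 ^ (j + 1) * R₀) (2 ^ (j + 1) * R₀ / (8 * X.C)) τ)) := by
    refine M.P_mono fun τ hτ hev => ?_
    by_cases hLTτ : LT μ (D + 7) h τ
    swap
    · exact Or.inl hLTτ
    right
    obtain ⟨x, q, e1, e2, e3, e4⟩ := hev
    have hx : nm x ≤ h ^ (D + 3) := by
      have k3 : lam * Y ≤ h * h ^ (D + 2) := mul_le_mul (by linarith) hY2 hY0.le h0.le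
      rw [← pow_succ'] at k3
      exact e1.trans k3
    obtain ⟨q₀, w, k1, k2, k3, k4, -, k6⟩ := hdet a τ hM.apos hτ hLTτ x q Y hx e2 hY0.le e4
    have hq4 : nm q ≤ h ^ (D + 4) := e2.trans (pow_le_pow_right₀ h1 (by omega))
    rcases le_or_gt (nm q₀) R₀ with hq | hq
    · left
      exact ⟨q₀, q, w, hq, hq4, e3, k1, by linarith⟩
    · right
      have hx1 : 1 ≤ nm q₀ / R₀ := by
        rw [le_div_iff₀ hR₀pos]
        linarith
      obtain ⟨j, hj1, hj2⟩ := exists_nat_pow_near hx1 (show (1 : ℝ) < 2 by norm_num)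
      rw [le_div_iff₀ hR₀pos] at hj1
      rw [div_lt_iff₀ hR₀pos] at hj2
      have hnq₀ : nm q₀ ≤ nm (q₀ - x) + nm x := by
        have := nm_add_le (q₀ - x) x
        rwa [sub_add_cancel] at this
      have hnB : nm q₀ ≤ 2 * h ^ (D - 11) := by linarith
      have hpw : (2 : ℝ) ^ (j + 1) = 2 * 2 ^ j := pow_succ' 2 j
      have hjS : j ∈ S := by
        rw [hS, mem_filter, mem_range]
        constructor
        · have l1 : (j : ℝ) ≤ 2 ^ j := by exact_mod_cast (Nat.lt_two_pow_self (n := j)).le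
          have l2 : (2 : ℝ) ^ j * 1 ≤ 2 ^ j * R₀ :=
            mul_le_mul_of_nonneg_left (le_trans (one_le_pow₀ h1) hR₀Y) (by positivity)
          have l3 : 2 * h ^ (D - 11) ≤ h ^ (D + 8) := by
            have l4 : 2 * h ^ (D - 11) ≤ h * h ^ (D - 11) := mul_le_mul_of_nonneg_right h2 (by positivity)
            rw [← hD10] at l4
            exact l4.trans (pow_le_pow_right₀ h1 (by omega))
          have l5 : (j : ℝ) ≤ h ^ (D + 8) := by linarith
          have l6 := Nat.le_floor l5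
          omega
        · have l1 : C₁ * (2 ^ (j + 1) * R₀) = 2 * C₁ * (2 ^ j * R₀) := by rw [hpw]; ring
          rw [l1]
          have l2 : 2 * C₁ * (2 ^ j * R₀) ≤ h * (2 * h ^ (D - 11)) :=
            mul_le_mul hh3 (hj1.trans hnB) (by positivity) h0.le
          have l3 : h * (2 * h ^ (D - 11)) = 2 * h ^ (D - 10) := by rw [hD10]; ring
          have l4 : h ^ (D - 10) * 2 ≤ h ^ (D - 10) * h := mul_le_mul_of_nonneg_left h2 (by positivity)
          linarith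
      refine ⟨j, hjS, q₀, q, w, hj2.le, hq4, e3, k1, ?_⟩
      have m1 : R₀ / 4 ≤ 2 ^ j * R₀ / 4 := by
        have e1 : (1 : ℝ) ≤ 2 ^ j := one_le_pow₀ (by norm_num)
        have e2 := mul_le_mul_of_nonneg_right e1 hR₀pos.le
        linarith only [e2]
      have m2 : 3 / 4 * (2 ^ j * R₀) ≤ nm (q₀ - x) := by linarith
      have m3 : h ^ 16 ≤ nm (q₀ - x) := by
        have l1 : h ^ 17 ≤ h ^ 101 := pow_le_pow_right₀ h1 (by norm_num)
        have l2 : h ^ 17 = h * h ^ 16 := by rw [← pow_succ']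
        have l3 : 2 * h ^ 16 ≤ h * h ^ 16 := mul_le_mul_of_nonneg_right h2 (by positivity)
        have l4 : R₀ ≤ 2 ^ j * R₀ := by linarith
        have l5 : 0 ≤ h ^ 16 := by positivity
        linarith
      have m4 := k4 m3
      have m5 : 2 ^ (j + 1) * R₀ / (8 * X.C) ≤ T τ x q₀ := by
        rw [div_le_iff₀ (by linarith only [hC]), hpw]
        have l1 : 0 ≤ 2 ^ j * R₀ := by positivity
        linarith only [m2, m4, l1]
      linarith
  refine hincl.trans ((M.P_or _ _).trans ?_)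
  have hA : M.P (LuckB_win X i D h n R₀ Y) ≤ C₁ * (Δ + 1) / Y + Real.exp (-(h / 3)) :=
    hwin a M hM n Δ Y R₀ hn1 hn2 hΔ hE hR₀Y hR₀n (mul_le_mul_of_nonneg_right (le_max_right _ _) hY0.le)
  have hB : ∀ j ∈ S, M.P (LuckB_win X i D h n (2 ^ (j + 1) * R₀) (2 ^ (j + 1) * R₀ / (8 * X.C)))
      ≤ 8 * X.C * C₁ * (Δ + 1) / R₀ * (1 / 2) ^ (j + 1) + Real.exp (-(h / 3)) := by
    intro j hj
    rw [hS, mem_filter] at hj
    have l1 : R₀ ≤ 2 ^ (j + 1) * R₀ := by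
      have e1 : (1 : ℝ) ≤ 2 ^ (j + 1) := one_le_pow₀ (by norm_num)
      have e2 := mul_le_mul_of_nonneg_right e1 hR₀pos.le
      linarith only [e2]
    have l2 : 2 ^ (j + 1) * R₀ ≤ max (8 * X.C) (4 * (lam + 1)) * (2 ^ (j + 1) * R₀ / (8 * X.C)) := by
      have l3 : 8 * X.C * (2 ^ (j + 1) * R₀ / (8 * X.C)) = 2 ^ (j + 1) * R₀ := by
        field_simp
      calc 2 ^ (j + 1) * R₀ = 8 * X.C * (2 ^ (j + 1) * R₀ / (8 * X.C)) := l3.symm
        _ ≤ _ := mul_le_mul_of_nonneg_right (le_max_left _ _) (by positivity)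
    refine (hwin a M hM n Δ (2 ^ (j + 1) * R₀ / (8 * X.C)) (2 ^ (j + 1) * R₀) hn1 hn2 hΔ hE
      (hR₀Y.trans l1) hj.2 l2).trans (le_of_eq ?_)
    congr 1
    rw [one_div, inv_pow]
    field_simp
  have hsum : M.P (fun τ => ∃ j ∈ S, LuckB_win X i D h n (2 ^ (j + 1) * R₀) (2 ^ (j + 1) * R₀ / (8 * X.C)) τ)
      ≤ 8 * X.C * C₁ * (Δ + 1) / R₀ + J * Real.exp (-(h / 3)) := by
    refine (M.P_exists_le S _).trans ((sum_le_sum hB).trans ?_)
    have hSJ : S ⊆ range J := filter_subset _ _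
    refine (sum_le_sum_of_subset_of_nonneg hSJ fun j _ _ => by positivity).trans ?_
    rw [sum_add_distrib, ← mul_sum, LuckB_geom, sum_const, card_range, nsmul_eq_mul]
    have l1 : (0 : ℝ) ≤ (1 / 2) ^ J := by positivity
    have l2 : 0 ≤ 8 * X.C * C₁ * (Δ + 1) / R₀ := by positivity
    have l3 := mul_nonneg l2 l1
    linarith only [l3]
  have hor := M.P_or (LuckB_win X i D h n R₀ Y)
    (fun τ => ∃ j ∈ S, LuckB_win X i D h n (2 ^ (j + 1) * R₀) (2 ^ (j + 1) * R₀ / (8 * X.C)) τ)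
  have hJle : (J : ℝ) ≤ h ^ (D + 8) + 1 := by
    rw [hJ]
    push_cast
    have := Nat.floor_le (show 0 ≤ h ^ (D + 8) by positivity)
    linarith
  have hJe : (J : ℝ) * Real.exp (-(h / 3)) ≤ (h ^ (D + 8) + 1) * Real.exp (-(h / 3)) :=
    mul_le_mul_of_nonneg_right hJle (Real.exp_pos _).le
  have hgeo : 8 * X.C * C₁ * (Δ + 1) / R₀ ≤ X.C * (C₁ * (Δ + 1) / Y) := by
    have l1 : X.C * (C₁ * (Δ + 1) / Y) = X.C * C₁ * (Δ + 1) / Y := by ring
    rw [l1, div_le_div_iff₀ hR₀pos hY0, hR₀]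
    have l2 : 0 ≤ X.C * C₁ * (Δ + 1) * Y := by positivity
    have l3 := mul_nonneg l2 (sub_nonneg.2 hl)
    linarith only [l2, l3]
  have hfin : C₁ * (1 + X.C) * (Δ + 1) / Y = C₁ * (Δ + 1) / Y + X.C * (C₁ * (Δ + 1) / Y) := by ring
  rw [hfin]
  have hepos := Real.exp_pos (-(h / 3))
  linarith

/-- The same for the end points. PROOF. `P_rf`: `T (rf τ) x y = T τ (-x) (-y)`, `T_symm`. -/
theorem luck_rev (hX : IsVtx X μ) (hmu : MuM μ m) (hN : HasN Q m) (D : ℕ) (hD : 1000 ≤ D) (i : Fin X.N)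
    (lam : ℝ) (hl : 1 ≤ lam) :
    ∃ C₁ : ℝ, 1 ≤ C₁ ∧ ∀ᶠ h : ℝ in atTop, ∀ (a : ℝ) (M : Mdl d a h), GoodN Q m (2 * D + 200) M →
      ∀ (n Δ Y : ℝ), h ^ (D - 1) ≤ n → n ≤ h ^ D → 0 ≤ Δ →
        (M.E (fun τ => max (X.UN i (h ^ (D + 8)) h (2 * n) τ - 2 * n) 0) ≤ Δ) →
        h ^ 102 ≤ Y → Y ≤ h ^ (D + 2) →
        M.P (fun τ => ∃ z q : V d, nm z ≤ lam * Y ∧ nm q ≤ h ^ (D + 3) ∧ -X.ff i q ≤ 3 / 2 * n ∧
            T τ q z ≤ X.ff i (z - q) - Y)
          ≤ C₁ * (Δ + 1) / Y + Real.exp (-(h / 4)) := by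
  obtain ⟨C₁, hC1, hev⟩ := luck hX hmu hN D hD i lam hl
  refine ⟨C₁, hC1, ?_⟩
  filter_upwards [hev] with h hev
  intro a M hM n Δ Y hn1 hn2 hΔ hE hY1 hY2
  refine le_trans ?_ (hev a M hM n Δ Y hn1 hn2 hΔ hE hY1 hY2)
  rw [← P_rf hM]
  refine M.P_mono fun τ _ hτ => ?_
  obtain ⟨z, q, e1, e2, e3, e4⟩ := hτ
  refine ⟨-z, -q, by rwa [nm_neg], by rwa [nm_neg], by rwa [Vtx.ff_neg], ?_⟩
  rw [T_rf, T_symm] at e4
  have e5 : -q - -z = z - q := by abel
  rw [e5]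
  exact e4

end Pool.Agent.W_1b8d5d_nd

end

/-! ### LuckPM -/

section

/-!
MP_1b8d5d_pr, [ND], sections 6, 7: luck of the functionals `f i`, `- f i` near a vertex; leaving a tube forces luck.
-/

set_option autoImplicit false

namespace Pool.Agent.W_1b8d5d_nd

open Finset Filter Topology
open Pool.Agent.W_1b8d5d_h85 (Ex Pr Vr avg)

variable {d : ℕ} [NeZero d] {X : Vtx d} {μ : (Fin d → ℝ) → ℝ}

/-- Luck of the functional `f i` near `x₀`: some passage from a vertex near `x₀` is faster than `f i` by `Y`. -/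
def LkP (X : Vtx d) (i : Fin X.N) (x₀ : V d) (R B F Y : ℝ) (τ : Env d) : Prop :=
  ∃ x q : V d, nm (x - x₀) ≤ R ∧ nm (q - x₀) ≤ B ∧ X.ff i (q - x₀) ≤ F ∧ T τ x q ≤ X.ff i (q - x) - Y

/-- Luck of the functional `- f i` near `x₀`. -/
def LkM (X : Vtx d) (i : Fin X.N) (x₀ : V d) (R B F Y : ℝ) (τ : Env d) : Prop :=
  ∃ x q : V d, nm (x - x₀) ≤ R ∧ nm (q - x₀) ≤ B ∧ -X.ff i (q - x₀) ≤ F ∧ T τ x q ≤ -X.ff i (q - x) - Y

private theorem LuckPM_P (X : Vtx d) (i : Fin X.N) (x₀ : V d) (R B F Y : ℝ) (τ : Env d) :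
    LkP X i x₀ R B F Y τ ↔ LkP X i 0 R B F Y (sh x₀ τ) := by
  constructor
  · rintro ⟨x, q, k1, k2, k3, k4⟩
    refine ⟨x - x₀, q - x₀, by rwa [sub_zero], by rwa [sub_zero], by rwa [sub_zero], ?_⟩
    rw [T_sh, sub_add_cancel, sub_add_cancel, sub_sub_sub_cancel_right]
    exact k4
  · rintro ⟨x, q, k1, k2, k3, k4⟩
    rw [sub_zero] at k1 k2 k3
    refine ⟨x + x₀, q + x₀, by rwa [add_sub_cancel_right], by rwa [add_sub_cancel_right],
      by rwa [add_sub_cancel_right], ?_⟩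
    rw [T_sh] at k4
    rw [add_sub_add_right_eq_sub]
    exact k4

private theorem LuckPM_M (X : Vtx d) (i : Fin X.N) (x₀ : V d) (R B F Y : ℝ) (τ : Env d) :
    LkM X i x₀ R B F Y τ ↔ LkP X i 0 R B F Y (rf (sh x₀ τ)) := by
  constructor
  · rintro ⟨x, q, k1, k2, k3, k4⟩
    refine ⟨-(x - x₀), -(q - x₀), ?_, ?_, ?_, ?_⟩
    · rwa [sub_zero, nm_neg]
    · rwa [sub_zero, nm_neg]
    · rwa [sub_zero, X.ff_neg]
    · rw [T_rf, T_sh, neg_neg, neg_neg, sub_add_cancel, sub_add_cancel]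
      have e1 : -(q - x₀) - -(x - x₀) = -(q - x) := by abel
      rw [e1, X.ff_neg]
      exact k4
  · rintro ⟨x, q, k1, k2, k3, k4⟩
    rw [sub_zero] at k1 k2 k3
    rw [T_rf, T_sh] at k4
    refine ⟨-x + x₀, -q + x₀, ?_, ?_, ?_, ?_⟩
    · rwa [add_sub_cancel_right, nm_neg]
    · rwa [add_sub_cancel_right, nm_neg]
    · rwa [add_sub_cancel_right, X.ff_neg, neg_neg]
    · have e1 : -q + x₀ - (-x + x₀) = -(q - x) := by abel
      rw [e1, X.ff_neg, neg_neg]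
      exact k4

private theorem LuckPM_er {D : ℕ} (hD : 1000 ≤ D) {h : ℝ} (hh : 200 ≤ h) :
    er h (h ^ (D + 2)) ≤ h ^ (D - 1) / 100 := by
  have h1 : 1 ≤ h := by linarith
  have h0 : 0 ≤ h := by linarith
  have e1 : √(h ^ (D + 2)) ≤ h ^ (D - 10) := by
    rw [Real.sqrt_le_left (by positivity), ← pow_mul]
    exact pow_le_pow_right₀ h1 (by omega)
  have e2 : h ^ 7 * √(h ^ (D + 2)) ≤ h ^ (D - 3) := by
    calc h ^ 7 * √(h ^ (D + 2)) ≤ h ^ 7 * h ^ (D - 10) := mul_le_mul_of_nonneg_left e1 (by positivity)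
      _ = h ^ (D - 3) := by
          rw [← pow_add]
          congr 1
          omega
  have e3 : h ^ 12 ≤ h ^ (D - 3) := pow_le_pow_right₀ h1 (by omega)
  have e4 : h ^ (D - 1) = h ^ (D - 3) * h ^ 2 := by
    rw [← pow_add]
    congr 1
    omega
  have e5 : 0 < h ^ (D - 3) := by positivity
  have e6 : 200 ≤ h ^ 2 := by nlinarith
  have e7 : h ^ (D - 3) * 200 ≤ h ^ (D - 3) * h ^ 2 := mul_le_mul_of_nonneg_left e6 e5.le
  unfold er
  rw [e4]
  linarith

/-- PROOF. `LkP X i x₀ R B F Y τ ↔ LkP X i 0 R B F Y (sh x₀ τ)` (`T_sh`), `P_sh`. -/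
theorem P_LkP {Q : Qn} {m : V d → ℝ} {p : ℕ} {a h : ℝ} {M : Mdl d a h} (hM : GoodN Q m p M) (i : Fin X.N) (x₀ : V d)
    (R B F Y : ℝ) : M.P (fun τ => LkP X i x₀ R B F Y τ) = M.P (fun τ => LkP X i 0 R B F Y τ) := by
  rw [← P_sh hM x₀ (fun τ => LkP X i 0 R B F Y τ)]
  congr 1
  funext τ
  exact propext (LuckPM_P X i x₀ R B F Y τ)

/-- PROOF. `LkM X i x₀ R B F Y τ ↔ LkP X i 0 R B F Y (rf (sh x₀ τ))` (`T_rf`, `T_sh`, `ff_neg`, `nm_neg`), `P_sh`, `P_rf`. -/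
theorem P_LkM {Q : Qn} {m : V d → ℝ} {p : ℕ} {a h : ℝ} {M : Mdl d a h} (hM : GoodN Q m p M) (i : Fin X.N) (x₀ : V d)
    (R B F Y : ℝ) : M.P (fun τ => LkM X i x₀ R B F Y τ) = M.P (fun τ => LkP X i 0 R B F Y τ) := by
  rw [← P_rf hM (fun τ => LkP X i 0 R B F Y τ), ← P_sh hM x₀ (fun τ => LkP X i 0 R B F Y (rf τ))]
  congr 1
  funext τ
  exact propext (LuckPM_M X i x₀ R B F Y τ)

/-- Some luck near `0` or near `y₀`. -/
def LkA (X : Vtx d) (y₀ : V d) (R B F Y : ℝ) (τ : Env d) : Prop :=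
  ∃ i : Fin X.N, LkP X i 0 R B F Y τ ∨ LkM X i 0 R B F Y τ ∨ LkP X i y₀ R B F Y τ ∨ LkM X i y₀ R B F Y τ

/-- PROOF. Union bound, `P_LkP`, `P_LkM`. -/
theorem P_LkA {Q : Qn} {m : V d → ℝ} {p : ℕ} {a h : ℝ} {M : Mdl d a h} (hM : GoodN Q m p M) (y₀ : V d)
    (R B F Y P₀ : ℝ) (hP : ∀ i : Fin X.N, M.P (fun τ => LkP X i 0 R B F Y τ) ≤ P₀) :
    M.P (fun τ => LkA X y₀ R B F Y τ) ≤ 4 * X.N * P₀ := by
  have h1 : ∀ i : Fin X.N, M.P (fun τ => LkP X i 0 R B F Y τ ∨ LkM X i 0 R B F Y τ ∨ LkP X i y₀ R B F Y τ ∨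
      LkM X i y₀ R B F Y τ) ≤ 4 * P₀ := by
    intro i
    have e1 := M.P_or (fun τ => LkP X i 0 R B F Y τ) (fun τ => LkM X i 0 R B F Y τ ∨ LkP X i y₀ R B F Y τ ∨
      LkM X i y₀ R B F Y τ)
    have e2 := M.P_or (fun τ => LkM X i 0 R B F Y τ) (fun τ => LkP X i y₀ R B F Y τ ∨ LkM X i y₀ R B F Y τ)
    have e3 := M.P_or (fun τ => LkP X i y₀ R B F Y τ) (fun τ => LkM X i y₀ R B F Y τ)
    rw [P_LkM hM] at e2
    rw [P_LkP hM, P_LkM hM] at e3
    have e4 := hP i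
    linarith
  have h2 : M.P (fun τ => LkA X y₀ R B F Y τ) ≤ M.P (fun τ => ∃ i ∈ (univ : Finset (Fin X.N)),
      (LkP X i 0 R B F Y τ ∨ LkM X i 0 R B F Y τ ∨ LkP X i y₀ R B F Y τ ∨ LkM X i y₀ R B F Y τ)) :=
    M.P_mono fun τ _ hτ => hτ.elim fun i hi => ⟨i, mem_univ i, hi⟩
  refine h2.trans ((M.P_exists_le univ _).trans ((sum_le_sum fun i _ => h1 i).trans (le_of_eq ?_)))
  rw [sum_const, card_univ, Fintype.card_fin, nsmul_eq_mul]
  ring

/-- Luck is rare (all functionals, both ends). PROOF. `luck` for every `i` (finitely many: `C₁` = sum of the constants), with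
`LkP X i 0 R (h ^ (D + 3)) (3 / 2 * n) Y τ` (here `x - 0 = x`), `R ≤ lam * Y`; `P_LkA`;
`4 * X.N * exp (-(h / 4)) ≤ exp (-(h / 5))` for `h` large. -/
theorem P_LkA_le {Q : Qn} {m : V d → ℝ} (hX : IsVtx X μ) (hmu : MuM μ m) (hN : HasN Q m) (D : ℕ) (hD : 1000 ≤ D)
    (lam : ℝ) (hl : 1 ≤ lam) : ∃ C₁ : ℝ, 1 ≤ C₁ ∧ ∀ᶠ h : ℝ in atTop, ∀ (a : ℝ) (M : Mdl d a h),
      GoodN Q m (2 * D + 200) M → ∀ (n Δ Y R : ℝ) (y₀ : V d), h ^ (D - 1) ≤ n → n ≤ h ^ D → 0 ≤ Δ →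
        (∀ i, M.E (fun τ => max (X.UN i (h ^ (D + 8)) h (2 * n) τ - 2 * n) 0) ≤ Δ) →
        h ^ 102 ≤ Y → Y ≤ h ^ (D + 2) → R ≤ lam * Y →
        M.P (fun τ => LkA X y₀ R (h ^ (D + 3)) (3 / 2 * n) Y τ) ≤ C₁ * (Δ + 1) / Y + Real.exp (-(h / 5)) := by
  choose C1 hC1 hev using fun i => luck hX hmu hN D hD i lam hl
  have hS1 : 0 ≤ ∑ i, C1 i := Finset.sum_nonneg fun i _ => by linarith [hC1 i]
  have hN0 : (0 : ℝ) ≤ X.N := Nat.cast_nonneg _
  refine ⟨4 * X.N * (∑ i, C1 i) + 1, by nlinarith [mul_nonneg hN0 hS1], ?_⟩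
  filter_upwards [Filter.eventually_all.2 hev, eventually_ge_atTop (80 * (X.N : ℝ)), eventually_ge_atTop (1 : ℝ)]
    with h ev hKN h1
  intro a M hM n Δ Y R y₀ hn1 hn2 hΔ hE hY1 hY2 hR
  have hY0 : 0 < Y := lt_of_lt_of_le (by positivity) hY1
  have key : ∀ i : Fin X.N, M.P (fun τ => LkP X i 0 R (h ^ (D + 3)) (3 / 2 * n) Y τ) ≤
      (∑ i, C1 i) * (Δ + 1) / Y + Real.exp (-(h / 4)) := by
    intro i
    have e1 := ev i a M hM n Δ Y hn1 hn2 hΔ (hE i) hY1 hY2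
    have e2 : M.P (fun τ => LkP X i 0 R (h ^ (D + 3)) (3 / 2 * n) Y τ) ≤ M.P (fun τ => ∃ x q : V d,
        nm x ≤ lam * Y ∧ nm q ≤ h ^ (D + 3) ∧ X.ff i q ≤ 3 / 2 * n ∧ T τ x q ≤ X.ff i (q - x) - Y) := by
      refine M.P_mono fun τ _ hτ => ?_
      obtain ⟨x, q, k1, k2, k3, k4⟩ := hτ
      rw [sub_zero] at k1 k2 k3
      exact ⟨x, q, k1.trans hR, k2, k3, k4⟩
    have e3 : C1 i ≤ ∑ i, C1 i := single_le_sum (f := C1) (fun j _ => by linarith [hC1 j]) (mem_univ i)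
    have e4 : C1 i * (Δ + 1) / Y ≤ (∑ i, C1 i) * (Δ + 1) / Y :=
      div_le_div_of_nonneg_right (mul_le_mul_of_nonneg_right e3 (by linarith)) hY0.le
    linarith
  refine (P_LkA hM y₀ R (h ^ (D + 3)) (3 / 2 * n) Y _ key).trans ?_
  have f1 : (4 * X.N * (∑ i, C1 i) + 1) * (Δ + 1) / Y =
      4 * X.N * ((∑ i, C1 i) * (Δ + 1) / Y) + (Δ + 1) / Y := by
    ring
  have f2 : 0 ≤ (Δ + 1) / Y := by positivity
  have f3 : 4 * X.N * Real.exp (-(h / 4)) ≤ Real.exp (-(h / 5)) := by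
    have e1 : Real.exp (-(h / 4)) = Real.exp (-(h / 5)) * Real.exp (-(h / 20)) := by
      rw [← Real.exp_add]
      congr 1
      ring
    have e3 : 4 * (X.N : ℝ) * Real.exp (-(h / 20)) ≤ 1 := by
      have e4 := Real.add_one_le_exp (h / 20)
      have e5 : Real.exp (-(h / 20)) = (Real.exp (h / 20))⁻¹ := Real.exp_neg _
      rw [e5, ← div_eq_mul_inv, div_le_one (Real.exp_pos _)]
      linarith
    have e6 := Real.exp_pos (-(h / 5))
    have e7 := mul_le_mul_of_nonneg_left e3 e6.le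
    rw [e1]
    linarith
  rw [f1]
  linarith

/-- A passage which leaves the tube of radius `S` around the segment from `0` to `l v` forces luck. PROOF. Put `y₀ = rd l`;
`|gg x| ≤ C R`, `lat x ≤ C R`, `|gg y - l| ≤ C + C R`, `lat y ≤ C + C R` (from `abs_gg_le`, `lat_le`, `gg_rd`, `lat_rd`).
(1) `lat q > S`: `spread_lattice` for `q - x` gives `i` with `gg (q - x) + c lat (q - x) ≤ ff i (q - x)`, for `y - q` it gives
`j` with `gg (y - q) + c lat (y - q) ≤ ff j (y - q)`. Sum: `ff i (q - x) - ff j (q - y) ≥ gg (y - x) + c (2 S - lat x - lat y)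
≥ l - C - 2 C R + (2 S - 2 C R - C) / C` (`1 / C ≤ c`, `inv_c_le_C`), so
`(T x q - ff i (q - x)) + (T y q + ff j (q - y)) ≤ Z + 4 C (R + 1) - 2 S / C ≤ -S / C`: one of the brackets is `≤ -S / (2 C)`:
`LkP X i 0` or `LkM X j y₀`. (`T_symm`; `hF` gives the bounds for `F`.)
(2) `gg q < -S`: `spread_lattice` for `x - q` and for `y - q`: `-ff i (q - x) ≥ gg (x - q) ≥ S - C R`,
`-ff j (q - y) ≥ gg (y - q) ≥ l - C - C R + S`: `LkM X i 0` or `LkM X j y₀`.
(3) `gg q > l + S`: `spread_lattice` for `q - x` and for `q - y`: `ff i (q - x) ≥ l + S - C R`,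
`ff j (q - y) ≥ gg (q - y) ≥ S - C - C R`: `LkP X i 0` or `LkP X j y₀`. -/
theorem exit_luck (hX : IsVtx X μ) {τ : Env d} {l R S Z F : ℝ} (hR : 0 ≤ R)
    (hS : 0 ≤ S) {B : ℝ} {x y q : V d} (hx : nm x ≤ R) (hy : nm (y - X.rd l) ≤ R) (hT : T τ x q + T τ q y ≤ l + Z)
    (hZ : Z + 4 * X.C * (R + 1) ≤ S / X.C) (hq : S < X.lat q ∨ X.gg q < -S ∨ l + S < X.gg q)
    (hF : ∀ i, |X.ff i q| ≤ F ∧ |X.ff i (q - X.rd l)| ≤ F) (hB : nm q ≤ B ∧ nm (q - X.rd l) ≤ B) :
    LkA X (X.rd l) R B F (S / (2 * X.C)) τ := by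
  have hC := one_le_C hX
  have hc := hX.cpos
  have hC0 : 0 < X.C := by linarith
  have hcC : 1 ≤ X.C * X.c := by
    have := inv_c_le_C hX
    rw [div_le_iff₀ hc] at this
    exact this
  have hCR : 0 ≤ X.C * R := by positivity
  have hSC : 0 ≤ S / X.C := by positivity
  have hSC1 : S / X.C ≤ S := div_le_self hS (by linarith)
  have hYY : S / (2 * X.C) = S / X.C / 2 := by
    rw [mul_comm, div_div]
  have x1 : |X.gg x| ≤ X.C * R := (abs_gg_le hX x).trans (mul_le_mul_of_nonneg_left hx hC0.le)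
  have x2 : X.lat x ≤ X.C * R := (lat_le hX x).trans (mul_le_mul_of_nonneg_left hx hC0.le)
  have y1 : |X.gg (y - X.rd l)| ≤ X.C * R := (abs_gg_le hX _).trans (mul_le_mul_of_nonneg_left hy hC0.le)
  have y2 : X.lat (y - X.rd l) ≤ X.C * R := (lat_le hX _).trans (mul_le_mul_of_nonneg_left hy hC0.le)
  have y3 := gg_rd hX l
  have y4 := lat_rd hX l
  have y5 : X.lat y ≤ X.C * R + X.C := by
    have := X.lat_add_le (y - X.rd l) (X.rd l)
    rw [sub_add_cancel] at this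
    linarith
  rw [X.gg_sub] at y1
  rw [abs_le] at x1 y1 y3
  obtain ⟨x11, x12⟩ := x1
  obtain ⟨y11, y12⟩ := y1
  obtain ⟨y31, y32⟩ := y3
  have hyq : T τ y q = T τ q y := T_symm τ y q
  have nx : nm (x - 0) ≤ R := by rw [sub_zero]; exact hx
  have nq : nm (q - 0) ≤ B := by rw [sub_zero]; exact hB.1
  have hR4 : 4 * X.C * (R + 1) = 4 * (X.C * R) + 4 * X.C := by ring
  rw [hR4] at hZ
  rcases hq with hq | hq | hq
  · -- lateral exit
    obtain ⟨i, hi⟩ := spread_lattice hX (q - x)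
    obtain ⟨j, hj⟩ := spread_lattice hX (y - q)
    rw [X.gg_sub] at hi hj
    have l1 : X.lat q - X.lat x ≤ X.lat (q - x) := (le_abs_self _).trans (X.abs_lat_sub q x)
    have l2 : X.lat q - X.lat y ≤ X.lat (y - q) := by
      have := (neg_le_abs _).trans (X.abs_lat_sub y q)
      linarith
    have l3 := X.lat_nonneg (q - x)
    have l4 := X.lat_nonneg (y - q)
    have l5 : (X.lat (q - x) + X.lat (y - q)) / X.C ≤ X.c * (X.lat (q - x) + X.lat (y - q)) := by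
      rw [div_le_iff₀ hC0]
      nlinarith
    have l6 : (2 * S - (2 * (X.C * R) + X.C)) / X.C ≤ (X.lat (q - x) + X.lat (y - q)) / X.C :=
      div_le_div_of_nonneg_right (by linarith) hC0.le
    have l7 : (2 * S - (2 * (X.C * R) + X.C)) / X.C = 2 * (S / X.C) - 2 * R - 1 := by
      field_simp
      ring
    have l8 : R ≤ X.C * R := le_mul_of_one_le_left hR (by linarith)
    have e1 : X.ff j (q - y) = -X.ff j (y - q) := by
      rw [← X.ff_neg, neg_sub]
    by_cases hcase : T τ x q ≤ X.ff i (q - x) - S / (2 * X.C)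
    · exact ⟨i, Or.inl ⟨x, q, nx, nq, by rw [sub_zero]; exact (abs_le.1 (hF i).1).2, hcase⟩⟩
    · refine ⟨j, Or.inr (Or.inr (Or.inr ⟨y, q, hy, hB.2, ?_, ?_⟩))⟩
      · linarith [(abs_le.1 (hF j).2).1]
      · push Not at hcase
        rw [hYY] at hcase ⊢
        rw [e1, neg_neg, hyq]
        linarith
  · -- exit backwards
    obtain ⟨i, hi⟩ := spread_lattice hX (x - q)
    obtain ⟨j, hj⟩ := spread_lattice hX (y - q)
    rw [X.gg_sub] at hi hj
    have l3 : 0 ≤ X.c * X.lat (x - q) := mul_nonneg hc.le (X.lat_nonneg _)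
    have l4 : 0 ≤ X.c * X.lat (y - q) := mul_nonneg hc.le (X.lat_nonneg _)
    have e0 : X.ff i (q - x) = -X.ff i (x - q) := by
      rw [← X.ff_neg, neg_sub]
    have e1 : X.ff j (q - y) = -X.ff j (y - q) := by
      rw [← X.ff_neg, neg_sub]
    by_cases hcase : T τ x q ≤ -X.ff i (q - x) - S / (2 * X.C)
    · refine ⟨i, Or.inr (Or.inl ⟨x, q, nx, nq, ?_, hcase⟩)⟩
      rw [sub_zero]
      linarith [(abs_le.1 (hF i).1).1]
    · refine ⟨j, Or.inr (Or.inr (Or.inr ⟨y, q, hy, hB.2, ?_, ?_⟩))⟩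
      · linarith [(abs_le.1 (hF j).2).1]
      · push Not at hcase
        rw [hYY, e0] at hcase
        rw [hYY, e1, neg_neg, hyq]
        linarith
  · -- exit forwards
    obtain ⟨i, hi⟩ := spread_lattice hX (q - x)
    obtain ⟨j, hj⟩ := spread_lattice hX (q - y)
    rw [X.gg_sub] at hi hj
    have l3 : 0 ≤ X.c * X.lat (q - x) := mul_nonneg hc.le (X.lat_nonneg _)
    have l4 : 0 ≤ X.c * X.lat (q - y) := mul_nonneg hc.le (X.lat_nonneg _)
    by_cases hcase : T τ x q ≤ X.ff i (q - x) - S / (2 * X.C)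
    · exact ⟨i, Or.inl ⟨x, q, nx, nq, by rw [sub_zero]; exact (abs_le.1 (hF i).1).2, hcase⟩⟩
    · refine ⟨j, Or.inr (Or.inr (Or.inl ⟨y, q, hy, hB.2, (abs_le.1 (hF j).2).2, ?_⟩))⟩
      push Not at hcase
      rw [hYY] at hcase ⊢
      rw [hyq]
      linarith

/-- A cheap passage stays in the tube or forces luck. PROOF. Geodesic `w` from `x` to `y`, cost `T x y ≤ l + Z =: s ≤ 5/4 n`. If
not all the edges of `w` are in the lane, some vertex `q` of `w` is outside of the region: `exit_luck`. For `hF`: `walk_near`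
(`nm (q - x) ≤ 2 C (s + h ^ 16)`), `LT`, `ff_le_mu`: `|ff i (q - x)| ≤ μ (q - x) ≤ T x q + er h (2 C (s + h ^ 16)) ≤ s + n / 100`,
`|ff i x| ≤ C R ≤ n / 100`; from the other side `|ff i (q - y)| ≤ μ (q - y) = μ (y - q) ≤ T q y + er ≤ s + n / 100`,
`|ff i (y - rd l)| ≤ C R`. The box: `nm (q - x) ≤ 2 C (s + h ^ 16)`, `nm x ≤ R ≤ n`, `nm (rd l) ≤ C (n + 1)`. -/
theorem tube_or_luck (hs : ∀ x, μ (-x) = μ x) (hX : IsVtx X μ) (D : ℕ) (hD : 1000 ≤ D) :
    ∀ᶠ h : ℝ in atTop, ∀ (a : ℝ) (τ : Env d), 0 < a → a ≤ h → Bd a h τ → LT μ (D + 10) h τ →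
      ∀ (n : ℕ) (l R S Z : ℝ) (x y : V d), h ^ (D - 1) ≤ n → (n : ℝ) ≤ h ^ D → 0 ≤ l → l ≤ n → 0 ≤ R →
        100 * X.C * (R + 1) ≤ n → |Z| ≤ n / 4 → nm x ≤ R → nm (y - X.rd l) ≤ R → T τ x y ≤ l + Z → 0 ≤ S →
        Z + 4 * X.C * (R + 1) ≤ S / X.C → ¬ Reach (X.lane 0 l S S) τ x y (T τ x y) →
        LkA X (X.rd l) R (h ^ (D + 3)) (3 / 2 * n) (S / (2 * X.C)) τ := by
  classical
  have hC := one_le_C hX
  have hC0 : 0 < X.C := by linarith
  filter_upwards [walk_near hs hX (D + 8) (by omega), eventually_ge_atTop (200 + 10 * X.C)] with h hwn hh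
  intro a τ ha hah hτ hL n l R S Z x y hn1 hn2 hl0 hln hR hRn hZ hx hy hT hS hZS hreach
  have h1 : 1 ≤ h := by linarith
  have h0 : 0 ≤ h := by linarith
  have e16 : h ^ 16 ≤ n := (pow_le_pow_right₀ h1 (by omega)).trans hn1
  have n1 : (1 : ℝ) ≤ n := (one_le_pow₀ h1).trans e16
  have hCn : (n : ℝ) ≤ X.C * n := le_mul_of_one_le_left (by linarith) (by linarith)
  have hCR : X.C * R ≤ n / 100 := by nlinarith
  have hRC : R ≤ X.C * R := le_mul_of_one_le_left hR (by linarith)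
  have hRn1 : R ≤ n := by linarith
  have hpD : 9 * (X.C * n) ≤ h ^ (D + 1) := by
    rw [pow_succ]
    calc 9 * (X.C * n) = (9 * X.C) * n := by ring
      _ ≤ h * h ^ D := mul_le_mul (by linarith) hn2 (by linarith) h0
      _ = h ^ D * h := mul_comm _ _
  have hpA : h ^ (D + 1) ≤ h ^ (D + 10) := pow_le_pow_right₀ h1 (by omega)
  have hpB : h ^ (D + 1) ≤ h ^ (D + 3) := pow_le_pow_right₀ h1 (by omega)
  have hpC : h ^ (D + 1) ≤ h ^ (D + 2) := pow_le_pow_right₀ h1 (by omega)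
  have hpE : h ^ (D + 1) ≤ h ^ (D + 8) := pow_le_pow_right₀ h1 (by omega)
  obtain ⟨w, hw1, hw2⟩ := exists_geo hτ ha x y
  have hZ2 := (abs_le.1 hZ).2
  have hTn : T τ x y ≤ 5 / 4 * n := by linarith
  -- an exit
  have hex : ∃ q ∈ w.support, S < X.lat q ∨ X.gg q < -S ∨ l + S < X.gg q := by
    by_contra hno
    push Not at hno
    refine hreach ⟨w, fun e he => ?_, hw2.le⟩
    obtain ⟨k1, k2⟩ := wedges_support w he
    have m1 := hno _ k1
    have m2 := hno _ k2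
    refine ⟨⟨?_, ?_, ?_⟩, ⟨?_, ?_, ?_⟩⟩
    · rw [sub_zero]; exact m1.1
    · rw [sub_zero]; exact m1.2.1
    · rw [sub_zero]; exact m1.2.2
    · rw [sub_zero]; exact m2.1
    · rw [sub_zero]; exact m2.2.1
    · rw [sub_zero]; exact m2.2.2
  obtain ⟨q, hq, hq2⟩ := hex
  have hsplit : cost τ w = cost τ (w.takeUntil q hq) + cost τ (w.dropUntil q hq) := by
    rw [← cost_append, w.take_spec hq]
  have ht1 := T_le_cost hτ ha.le (w.takeUntil q hq)
  have ht2 := T_le_cost hτ ha.le (w.dropUntil q hq)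
  have hsum : T τ x q + T τ q y ≤ T τ x y := by
    rw [← hw2, hsplit]
    exact add_le_add ht1 ht2
  have ht3 := T_nonneg hτ ha.le x q
  have ht4 := T_nonneg hτ ha.le q y
  -- positions
  have hqx : nm (q - x) ≤ 9 / 2 * (X.C * n) := by
    have k1 := hwn a τ ha hτ hL x y w (5 / 4 * n) (by linarith) (by linarith) (by linarith)
      (by rw [hw2]; exact hTn) q hq
    have k2 : 2 * X.C * (5 / 4 * n + h ^ 16) ≤ 2 * X.C * (9 / 4 * n) :=
      mul_le_mul_of_nonneg_left (by linarith) (by linarith)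
    linarith
  have hqn : nm q ≤ 5 * (X.C * n) := by
    have k1 := nm_add_le (q - x) x
    rw [sub_add_cancel] at k1
    linarith
  have hrd : nm (X.rd l) ≤ 2 * (X.C * n) := by
    have k1 := nm_rd hX l
    rw [abs_of_nonneg hl0] at k1
    have k2 : X.C * (l + 1) ≤ X.C * (2 * n) := mul_le_mul_of_nonneg_left (by linarith) hC0.le
    linarith
  have hyn : nm y ≤ 3 * (X.C * n) := by
    have k1 := nm_add_le (y - X.rd l) (X.rd l)
    rw [sub_add_cancel] at k1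
    linarith
  have hyq : nm (y - q) ≤ 8 * (X.C * n) := by
    have k1 := nm_add_le y (-q)
    rw [nm_neg, ← sub_eq_add_neg] at k1
    linarith
  have hqr : nm (q - X.rd l) ≤ 7 * (X.C * n) := by
    have k1 := nm_add_le q (-X.rd l)
    rw [nm_neg, ← sub_eq_add_neg] at k1
    linarith
  have herD := LuckPM_er hD (h := h) (by linarith)
  refine exit_luck hX hR hS hx hy (hsum.trans hT) hZS hq2 (fun i => ⟨?_, ?_⟩) ⟨by linarith, by linarith⟩
  · have k1 := hL x q (by linarith) (by linarith)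
    have k2 := ff_le_mu hs hX i (q - x)
    have k3 := er_mono h1 (show nm (q - x) ≤ h ^ (D + 2) by linarith)
    have k4 := (abs_ff_le hX i x).trans (mul_le_mul_of_nonneg_left hx hC0.le)
    have k5 : X.ff i q = X.ff i (q - x) + X.ff i x := by rw [← X.ff_add, sub_add_cancel]
    have k6 := abs_add_le (X.ff i (q - x)) (X.ff i x)
    rw [← k5] at k6
    linarith
  · have k1 := hL q y (by linarith) (by linarith)
    have k2 := ff_le_mu hs hX i (y - q)
    have k3 := er_mono h1 (show nm (y - q) ≤ h ^ (D + 2) by linarith)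
    have k4 := (abs_ff_le hX i (y - X.rd l)).trans (mul_le_mul_of_nonneg_left hy hC0.le)
    have k5 : X.ff i (q - X.rd l) = X.ff i (y - X.rd l) - X.ff i (y - q) := by
      rw [← X.ff_sub]
      congr 1
      abel
    have k6 := abs_sub (X.ff i (y - X.rd l)) (X.ff i (y - q))
    rw [← k5] at k6
    linarith

end Pool.Agent.W_1b8d5d_nd

end

/-! ### Fast -/

section

/-!
MP_1b8d5d_pr, [ND]: the vertex direction is fast: the medians in the direction `v` exceed `r` by at most `r ^ (51 / 100)`.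
-/

set_option autoImplicit false

namespace Pool.Agent.W_1b8d5d_nd

open Finset Filter Topology
open Pool.Agent.W_1b8d5d_h85 (Ex Pr Vr avg)

variable {d : ℕ} [NeZero d] {Q : Qn} {m : V d → ℝ} {μ : (Fin d → ℝ) → ℝ} {X : Vtx d}

/-! ### Elementary lemmas -/

private theorem Fast_ev (A : ℝ) {a b : ℝ} (hab : a < b) : ∀ᶠ l : ℝ in atTop, A * l ^ a ≤ l ^ b := by
  filter_upwards [(tendsto_rpow_atTop (sub_pos.2 hab)).eventually_ge_atTop A, eventually_gt_atTop 0]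
    with l h2 h3
  have h4 : l ^ b = l ^ (b - a) * l ^ a := by
    rw [← Real.rpow_add h3]
    congr 1
    ring
  rw [h4]
  exact mul_le_mul_of_nonneg_right h2 (Real.rpow_nonneg h3.le _)

private theorem Fast_ev0 (A : ℝ) {b : ℝ} (hb : 0 < b) : ∀ᶠ l : ℝ in atTop, A ≤ l ^ b := by
  filter_upwards [Fast_ev A hb] with l h1
  rwa [Real.rpow_zero, mul_one] at h1

private theorem Fast_sg {l r A : ℝ} (hl : 0 ≤ l) (hA : 0 ≤ A) (hr : r ≤ A * l) :
    sg (l ^ ((1 : ℝ) / 1000)) r ≤ √A * l ^ ((504 : ℝ) / 1000) + l ^ ((11 : ℝ) / 1000) := by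
  unfold sg
  have h4 : (l ^ ((1 : ℝ) / 1000)) ^ 4 = l ^ ((4 : ℝ) / 1000) := by
    rw [← Real.rpow_natCast, ← Real.rpow_mul hl]
    norm_num
  have h11 : (l ^ ((1 : ℝ) / 1000)) ^ 11 = l ^ ((11 : ℝ) / 1000) := by
    rw [← Real.rpow_natCast, ← Real.rpow_mul hl]
    norm_num
  rw [h4, h11]
  have h1 : √r ≤ √A * √l := by
    rw [← Real.sqrt_mul hA]
    exact Real.sqrt_le_sqrt hr
  have h2 : l ^ ((504 : ℝ) / 1000) = l ^ ((4 : ℝ) / 1000) * √l := by
    rw [Real.sqrt_eq_rpow]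
    rcases hl.eq_or_lt with h0 | h0
    · rw [← h0, Real.zero_rpow (by norm_num), Real.zero_rpow (by norm_num),
        Real.zero_rpow (by norm_num), mul_zero]
    · rw [← Real.rpow_add h0]
      norm_num
  have h3 : l ^ ((4 : ℝ) / 1000) * √r ≤ l ^ ((4 : ℝ) / 1000) * (√A * √l) :=
    mul_le_mul_of_nonneg_left h1 (Real.rpow_nonneg hl _)
  rw [h2]
  linarith

/-- The largest coordinate of `g`. -/
private theorem Fast_coord (hX : IsVtx X μ) : ∃ e : V d, nm e = 1 ∧ 0 < X.gg e ∧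
    (∀ j, |X.g j| ≤ X.gg e) ∧ 1 ≤ X.gg e * rn X.v ∧ X.gg e ≤ rn X.g := by
  obtain ⟨i, hi⟩ := Finite.exists_max (fun i => |X.g i|)
  have h1 : ∃ e : V d, nm e = 1 ∧ X.gg e = |X.g i| := by
    have hd : dp X.g (toR (dir i)) = X.g i := by
      unfold dp toR dir
      rw [Finset.sum_eq_single i]
      · simp
      · intro j _ hj
        simp [Pi.single_eq_of_ne hj]
      · intro h
        exact absurd (mem_univ i) h
    rcases le_total 0 (X.g i) with h0 | h0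
    · refine ⟨dir i, nm_dir i, ?_⟩
      unfold Vtx.gg
      rw [hd, abs_of_nonneg h0]
    · refine ⟨-dir i, by rw [nm_neg, nm_dir], ?_⟩
      unfold Vtx.gg
      rw [toR_neg, dp_neg, hd, abs_of_nonpos h0]
  obtain ⟨e, he, hge⟩ := h1
  have h2 : 1 ≤ |X.g i| * rn X.v := by
    have h3 := hX.gv
    have h4 : dp X.g X.v ≤ ∑ j, |X.g i| * |X.v j| := by
      unfold dp
      refine sum_le_sum fun j _ => ?_
      calc X.g j * X.v j ≤ |X.g j * X.v j| := le_abs_self _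
        _ = |X.g j| * |X.v j| := abs_mul _ _
        _ ≤ |X.g i| * |X.v j| := mul_le_mul_of_nonneg_right (hi j) (abs_nonneg _)
    rw [← mul_sum] at h4
    unfold rn
    linarith
  have h5 : 0 < |X.g i| := by
    rcases (abs_nonneg (X.g i)).eq_or_lt with h6 | h6
    · rw [← h6, zero_mul] at h2
      linarith
    · exact h6
  refine ⟨e, he, by rwa [hge], fun j => by rw [hge]; exact hi j, by rwa [hge], ?_⟩
  rw [hge]
  unfold rn
  exact single_le_sum (f := fun j => |X.g j|) (fun j _ => abs_nonneg _) (mem_univ i)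

private theorem Fast_nm_zsmul (n : ℤ) (e : V d) : nm (n • e) = |(n : ℝ)| * nm e := by
  unfold nm
  rw [mul_sum]
  refine sum_congr rfl fun i _ => ?_
  rw [Pi.smul_apply, smul_eq_mul]
  push_cast
  rw [abs_mul]

private theorem Fast_gg_zsmul (n : ℤ) (e : V d) : X.gg (n • e) = n * X.gg e := by
  unfold Vtx.gg
  have h : toR (n • e) = (n : ℝ) • toR e := by
    funext i
    simp [toR]
  rw [h, dp_smul]

private theorem Fast_rnv (hX : IsVtx X μ) : rn X.g ≤ X.C ∧ X.C ≥ 4 * (1 + rn X.v) ∧ 4 * d ≤ X.C := by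
  have h1 := rn_nonneg X.g
  have h2 := rn_nonneg X.v
  have h3 : 0 ≤ ∑ i, rn (X.f i) := sum_nonneg fun i _ => rn_nonneg _
  have h4 : 0 < 1 / X.c := one_div_pos.2 hX.cpos
  have hd : (1 : ℝ) ≤ d := by exact_mod_cast NeZero.one_le
  have key : ∀ a b c e : ℝ, 1 ≤ a → 1 ≤ b → 1 ≤ c → 1 ≤ e →
      b ≤ 4 * a * b * c * e ∧ 4 * c ≤ 4 * a * b * c * e ∧ 4 * a ≤ 4 * a * b * c * e := by
    intro a b c e ha hb hc he
    have hab : 1 ≤ a * b := one_le_mul_of_one_le_of_one_le ha hb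
    have hbc : 1 ≤ b * c := one_le_mul_of_one_le_of_one_le hb hc
    have hae : 1 ≤ a * e := one_le_mul_of_one_le_of_one_le ha he
    have hbce : 1 ≤ b * c * e := one_le_mul_of_one_le_of_one_le hbc he
    have habe : 1 ≤ a * b * e := one_le_mul_of_one_le_of_one_le hab he
    have hace : 1 ≤ a * c * e :=
      one_le_mul_of_one_le_of_one_le (one_le_mul_of_one_le_of_one_le ha hc) he
    refine ⟨?_, ?_, ?_⟩
    · linarith only [mul_le_mul_of_nonneg_left hace (zero_le_one.trans hb), hb]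
    · linarith only [mul_le_mul_of_nonneg_left habe (zero_le_one.trans hc)]
    · linarith only [mul_le_mul_of_nonneg_left hbce (zero_le_one.trans ha)]
  obtain ⟨k1, k2, k3⟩ := key (1 + d) (1 + rn X.g + ∑ i, rn (X.f i)) (1 + rn X.v) (1 + 1 / X.c)
    (by linarith) (by linarith) (by linarith) (by linarith)
  unfold Vtx.C
  exact ⟨by linarith only [k1, h3], by linarith only [k2], by linarith only [k3]⟩

/-- Move a lattice point into the level `[l, l + C]`. -/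
private theorem Fast_move (hX : IsVtx X μ) (l t : ℝ) (x : V d) {e : V d} (he : nm e = 1)
    (hge : 0 < X.gg e) (hgC : X.gg e ≤ rn X.g) (ht : |l - X.gg x| ≤ t * X.gg e) :
    ∃ w : V d, l ≤ X.gg w ∧ X.gg w ≤ l + X.C ∧ nm (w - x) ≤ t + 1 := by
  obtain ⟨n, hn⟩ : ∃ n : ℤ, n = ⌈(l - X.gg x) / X.gg e⌉ := ⟨_, rfl⟩
  have h1 : (l - X.gg x) / X.gg e ≤ n := by rw [hn]; exact Int.le_ceil _
  have h2 : (n : ℝ) < (l - X.gg x) / X.gg e + 1 := by rw [hn]; exact Int.ceil_lt_add_one _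
  have h3 : l - X.gg x ≤ n * X.gg e := by rwa [div_le_iff₀ hge] at h1
  have h4 : n * X.gg e ≤ l - X.gg x + X.gg e := by
    have h5 : (n : ℝ) - 1 < (l - X.gg x) / X.gg e := by linarith
    rw [lt_div_iff₀ hge] at h5
    linarith
  refine ⟨x + n • e, ?_, ?_, ?_⟩
  · rw [Vtx.gg_add, Fast_gg_zsmul]
    linarith
  · rw [Vtx.gg_add, Fast_gg_zsmul]
    have := (Fast_rnv hX).1
    linarith
  · rw [add_sub_cancel_left, Fast_nm_zsmul, he, mul_one, abs_le]
    rw [abs_le] at ht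
    have h6 : (l - X.gg x) / X.gg e ≤ t := by
      rw [div_le_iff₀ hge]
      exact ht.2
    have h7 : -t ≤ (l - X.gg x) / X.gg e := by
      rw [le_div_iff₀ hge]
      linarith [ht.1]
    constructor <;> linarith

private theorem Fast_level (hX : IsVtx X μ) (l : ℝ) :
    ∃ w : V d, l ≤ X.gg w ∧ X.gg w ≤ l + X.C ∧ nm (w - X.rd l) ≤ d + 1 := by
  obtain ⟨e, he, hge, hmax, -, hgC⟩ := Fast_coord hX
  refine Fast_move hX l d (X.rd l) he hge hgC ?_
  have h1 : l - X.gg (X.rd l) = ∑ j, X.g j * (l * X.v j - ⌊l * X.v j⌋) := by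
    have h2 : l = ∑ j, X.g j * (l * X.v j) := by
      have h3 := hX.gv
      unfold dp at h3
      calc l = l * ∑ j, X.g j * X.v j := by rw [h3, mul_one]
        _ = ∑ j, X.g j * (l * X.v j) := by
          rw [mul_sum]
          exact sum_congr rfl fun j _ => by ring
    have h4 : X.gg (X.rd l) = ∑ j, X.g j * (⌊l * X.v j⌋ : ℝ) := by
      unfold Vtx.gg Vtx.rd dp toR rnd
      refine sum_congr rfl fun j _ => ?_
      rw [Pi.smul_apply, smul_eq_mul]
    have h5 : l - X.gg (X.rd l) = ∑ j, X.g j * (l * X.v j) - ∑ j, X.g j * (⌊l * X.v j⌋ : ℝ) := by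
      rw [h4, ← h2]
    rw [h5, ← sum_sub_distrib]
    exact sum_congr rfl fun j _ => by ring
  rw [h1]
  refine (abs_sum_le_sum_abs _ _).trans ?_
  calc ∑ j, |X.g j * (l * X.v j - ⌊l * X.v j⌋)| ≤ ∑ _j : Fin d, X.gg e := by
        refine sum_le_sum fun j _ => ?_
        rw [abs_mul]
        have h5 : |l * X.v j - ⌊l * X.v j⌋| ≤ 1 := by
          rw [abs_of_nonneg (sub_nonneg.2 (Int.floor_le _))]
          linarith [Int.lt_floor_add_one (l * X.v j)]
        calc |X.g j| * |l * X.v j - ⌊l * X.v j⌋| ≤ X.gg e * 1 :=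
              mul_le_mul (hmax j) h5 (abs_nonneg _) hge.le
          _ = X.gg e := mul_one _
    _ = d * X.gg e := by rw [sum_const, card_univ, Fintype.card_fin, nsmul_eq_mul]

private theorem Fast_C2 (hX : IsVtx X μ) : 16 ≤ X.C ^ 2 := by
  have h4 := one_le_C hX
  calc (16 : ℝ) = 4 ^ 2 := by norm_num
    _ ≤ X.C ^ 2 := pow_le_pow_left₀ (by norm_num) h4 2

/-- A lattice point of the level `[l, l + C]` near `l v`. -/
theorem exists_level (hX : IsVtx X μ) (l : ℝ) :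
    ∃ w : V d, l ≤ X.gg w ∧ X.gg w ≤ l + X.C ∧ nm (w - X.rd l) ≤ X.C ^ 2 + d := by
  obtain ⟨w, h1, h2, h3⟩ := Fast_level hX l
  have h4 := Fast_C2 hX
  exact ⟨w, h1, h2, h3.trans (by linarith only [h4])⟩

/-- Lift a lattice point into the level `[l, l + C]`. -/
private theorem Fast_lift (hX : IsVtx X μ) {l : ℝ} {x : V d} (h1 : l - X.C ≤ X.gg x) (h2 : X.gg x ≤ l + X.C) :
    ∃ w : V d, l ≤ X.gg w ∧ X.gg w ≤ l + X.C ∧ X.gg x ≤ X.gg w ∧ nm (w - x) ≤ X.C ^ 2 := by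
  by_cases h3 : l ≤ X.gg x
  · refine ⟨x, h3, h2, le_rfl, ?_⟩
    rw [sub_self, nm_zero]
    positivity
  · obtain ⟨e, he, hge, -, hv, hgC⟩ := Fast_coord hX
    have h3' := not_le.1 h3
    obtain ⟨k1, k2, k3⟩ := Fast_rnv hX
    have hrv := rn_nonneg X.v
    have hC := one_le_C hX
    obtain ⟨w, w1, w2, w3⟩ := Fast_move hX l (X.C * rn X.v) x he hge hgC (by
      rw [abs_of_pos (by linarith only [h3'])]
      have q1 := mul_le_mul_of_nonneg_left hv (by linarith only [hC] : (0 : ℝ) ≤ X.C)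
      linarith only [q1, h1])
    refine ⟨w, w1, w2, by linarith only [w1, h3'], w3.trans ?_⟩
    have q1 := mul_le_mul_of_nonneg_left k2 (by linarith only [hC] : (0 : ℝ) ≤ X.C)
    have q2 := mul_nonneg (by linarith only [hC] : (0 : ℝ) ≤ X.C) hrv
    linarith only [q1, q2, hC]

/-! ### A good environment -/

/-- The lattice points of a box. -/
private noncomputable def Fast_box (d N : ℕ) : Finset (V d) := Fintype.piFinset fun _ => Icc (-(N : ℤ)) N

private theorem Fast_mem_box {N : ℕ} {z : V d} (hz : nm z ≤ N) : z ∈ Fast_box d N := by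
  unfold Fast_box
  rw [Fintype.mem_piFinset]
  intro i
  rw [mem_Icc]
  have h1 := (abs_le_nm z i).trans hz
  have h2 : |z i| ≤ (N : ℤ) := by exact_mod_cast h1
  exact abs_le.1 h2

private theorem Fast_card_box (N : ℕ) : ((Fast_box d N).card : ℝ) = (2 * N + 1) ^ d := by
  unfold Fast_box
  rw [Fintype.card_piFinset_const, Int.card_Icc]
  have : ((N : ℤ) + 1 - -(N : ℤ)).toNat = 2 * N + 1 := by omega
  rw [this]
  push_cast
  rfl

private theorem Fast_nm_box {N : ℕ} {z : V d} (hz : z ∈ Fast_box d N) : nm z ≤ d * N := by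
  unfold Fast_box at hz
  rw [Fintype.mem_piFinset] at hz
  unfold nm
  calc ∑ i, |(z i : ℝ)| ≤ ∑ _i : Fin d, (N : ℝ) := by
        refine sum_le_sum fun i _ => ?_
        have h1 := hz i
        rw [mem_Icc] at h1
        have h2 : |z i| ≤ (N : ℤ) := abs_le.2 h1
        exact_mod_cast h2
    _ = d * N := by rw [sum_const, card_univ, Fintype.card_fin, nsmul_eq_mul]

private theorem Fast_union {h : ℝ} {a : ℝ} (M : Mdl d a h) (hM : GoodN Q m 2003 M) (h1 : 1 ≤ h)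
    (N : ℕ) (W : V d) (hN : (d : ℝ) * N + nm W ≤ h ^ 2003) (hW : nm W ≤ h ^ 2003) {B : Env d → Prop} {ε : ℝ}
    (hB : M.P B ≤ ε) (hε : ε + 2 * (2 * N + 1) ^ d * Real.exp (-h) < 49 / 100) :
    ∃ τ : Env d, Bd a h τ ∧ T τ 0 W ≤ m W + h ∧ ¬ B τ ∧ ∀ z : V d, nm z ≤ N →
      m z - 4 * sg h (nm z) < T τ 0 z ∧ m (W - z) - 4 * sg h (nm (W - z)) < T τ z W := by
  classical
  obtain ⟨q, hq⟩ : ∃ q : Env d → Prop, q = fun τ => ¬ B τ ∧ ∀ z ∈ Fast_box d N,
      m z - 4 * sg h (nm z) < T τ 0 z ∧ m (W - z) - 4 * sg h (nm (W - z)) < T τ z W := ⟨_, rfl⟩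
  have hbad : M.P (fun τ => ¬ q τ) ≤ ε + 2 * (2 * N + 1) ^ d * Real.exp (-h) := by
    have e1 : M.P (fun τ => ¬ q τ) ≤ M.P (fun τ => B τ ∨ ((∃ z ∈ Fast_box d N, T τ 0 z ≤ m z - 4 * sg h (nm z)) ∨
        ∃ z ∈ Fast_box d N, T τ z W ≤ m (W - z) - 4 * sg h (nm (W - z)))) := by
      apply M.P_mono
      intro τ _ hτ
      rw [hq] at hτ
      by_contra hcon
      push Not at hcon
      exact hτ ⟨hcon.1, fun z hz => ⟨hcon.2.1 z hz, hcon.2.2 z hz⟩⟩
    have e2 := M.P_or B (fun τ => (∃ z ∈ Fast_box d N, T τ 0 z ≤ m z - 4 * sg h (nm z)) ∨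
        ∃ z ∈ Fast_box d N, T τ z W ≤ m (W - z) - 4 * sg h (nm (W - z)))
    have e3 := M.P_or (fun τ => ∃ z ∈ Fast_box d N, T τ 0 z ≤ m z - 4 * sg h (nm z))
      (fun τ => ∃ z ∈ Fast_box d N, T τ z W ≤ m (W - z) - 4 * sg h (nm (W - z)))
    have e4 := M.P_exists_le (Fast_box d N) (fun z τ => T τ 0 z ≤ m z - 4 * sg h (nm z))
    have e5 := M.P_exists_le (Fast_box d N) (fun z τ => T τ z W ≤ m (W - z) - 4 * sg h (nm (W - z)))
    have e6 : ∑ z ∈ Fast_box d N, M.P (fun τ => T τ 0 z ≤ m z - 4 * sg h (nm z))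
        ≤ (2 * N + 1) ^ d * Real.exp (-h) := by
      rw [← Fast_card_box, ← nsmul_eq_mul]
      refine sum_le_card_nsmul _ _ _ fun z hz => ?_
      exact low_med hM h1 z (by
        have := Fast_nm_box hz
        have := nm_nonneg W
        linarith)
    have e7 : ∑ z ∈ Fast_box d N, M.P (fun τ => T τ z W ≤ m (W - z) - 4 * sg h (nm (W - z)))
        ≤ (2 * N + 1) ^ d * Real.exp (-h) := by
      rw [← Fast_card_box, ← nsmul_eq_mul]
      refine sum_le_card_nsmul _ _ _ fun z hz => ?_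
      rw [P_T_sub hM z W (fun t => t ≤ m (W - z) - 4 * sg h (nm (W - z)))]
      exact low_med hM h1 (W - z) (by
        have h2 := Fast_nm_box hz
        have h3 := nm_add_le W (-z)
        rw [nm_neg, ← sub_eq_add_neg] at h3
        linarith)
    linarith
  have hgood := hM.medU W hW
  have h2 := M.P_and_ge (fun τ => T τ 0 W ≤ m W + h) q
  obtain ⟨τ, hτ, hτ1, hτ2⟩ := M.exists_of_P_pos (p := fun τ => T τ 0 W ≤ m W + h ∧ q τ) (by linarith)
  rw [hq] at hτ2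
  exact ⟨τ, hτ, hτ1, hτ2.1, fun z hz => hτ2.2 z (Fast_mem_box hz)⟩

/-- Good environments at the scale `l ^ (1 / 1000)`. -/
private theorem Fast_env (hmu : MuM μ m) (hN : HasN Q m) {A : ℝ} (hA : 1 ≤ A) :
    ∀ᶠ l : ℝ in atTop, ∃ (a : ℝ) (M : Mdl d a (l ^ ((1 : ℝ) / 1000))), GoodN Q m 2003 M ∧
      1 ≤ l ^ ((1 : ℝ) / 1000) ∧ 2 * (A * l) + 1 ≤ (l ^ ((1 : ℝ) / 1000)) ^ 2000 ∧
      ∀ W : V d, nm W ≤ A * l → ∃ τ : Env d, Bd a (l ^ ((1 : ℝ) / 1000)) τ ∧
        T τ 0 W ≤ m W + l ^ ((1 : ℝ) / 1000) ∧ LT μ 2002 (l ^ ((1 : ℝ) / 1000)) τ ∧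
        ∀ z : V d, nm z ≤ A * l →
          m z - 4 * sg (l ^ ((1 : ℝ) / 1000)) (nm z) < T τ 0 z ∧
          m (W - z) - 4 * sg (l ^ ((1 : ℝ) / 1000)) (nm (W - z)) < T τ z W := by
  have ht : Tendsto (fun l : ℝ => l ^ ((1 : ℝ) / 1000)) atTop atTop := tendsto_rpow_atTop (by norm_num)
  have e1 := ht.eventually (hN 2003)
  have e2 := ht.eventually (LT_prob hmu hN 2002 (by norm_num))
  have e3 : ∀ᶠ h : ℝ in atTop, Real.exp (-(h / 2)) + 2 * (h ^ 2000) ^ d * Real.exp (-h) < 49 / 100 := by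
    have t1 : Tendsto (fun h : ℝ => Real.exp (-(h / 2))) atTop (𝓝 0) := by
      refine Real.tendsto_exp_neg_atTop_nhds_zero.comp ?_
      exact tendsto_id.atTop_div_const (by norm_num)
    have t2 := Real.tendsto_pow_mul_exp_neg_atTop_nhds_zero (2000 * d)
    have t3 : Tendsto (fun h : ℝ => Real.exp (-(h / 2)) + 2 * (h ^ 2000) ^ d * Real.exp (-h)) atTop (𝓝 0) := by
      have t4 := t1.add (t2.const_mul 2)
      rw [mul_zero, add_zero] at t4
      refine t4.congr fun h => ?_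
      rw [pow_mul]
      ring
    exact t3.eventually (gt_mem_nhds (by norm_num))
  have e4 := ht.eventually e3
  have e5 : ∀ᶠ l : ℝ in atTop, (2 * A * (d + 1) + 10 * (d + 1)) * l ^ (1 : ℝ) ≤ l ^ (2 : ℝ) := Fast_ev _ (by norm_num)
  filter_upwards [e1, e2, e4, e5, eventually_ge_atTop 1] with l ⟨a, M, hM⟩ hLT hε h5 hl
  have hl0 : 0 < l := by linarith
  have hh1 : 1 ≤ l ^ ((1 : ℝ) / 1000) := Real.one_le_rpow hl (by norm_num)
  obtain ⟨h, hh⟩ : ∃ h, h = l ^ ((1 : ℝ) / 1000) := ⟨_, rfl⟩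
  have h2000 : h ^ 2000 = l ^ (2 : ℝ) := by
    rw [hh, ← Real.rpow_natCast, ← Real.rpow_mul hl0.le]
    norm_num
  rw [Real.rpow_one] at h5
  rw [← hh] at hh1 hε hLT ⊢
  have hM' := hM
  have hd : (1 : ℝ) ≤ d := by exact_mod_cast NeZero.one_le
  have hAl : 0 < A * l := mul_pos (by linarith only [hA]) hl0
  have hd0 : (0 : ℝ) ≤ d := Nat.cast_nonneg d
  have p1 := mul_nonneg hd0 hAl.le
  have p2 := mul_nonneg hd0 hl0.le
  refine ⟨a, hh ▸ M, ?_⟩
  subst hh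
  refine ⟨hM, hh1, ?_, ?_⟩
  · rw [h2000]
    linarith only [h5, hl, p1, p2]
  · intro W hW
    obtain ⟨N, hNdef⟩ : ∃ N, N = ⌈A * l⌉₊ := ⟨_, rfl⟩
    have hN1 : A * l ≤ N := by rw [hNdef]; exact Nat.le_ceil _
    have hN2 : (N : ℝ) < A * l + 1 := by rw [hNdef]; exact Nat.ceil_lt_add_one hAl.le
    have h2003 : (l ^ ((1 : ℝ) / 1000)) ^ 2000 ≤ (l ^ ((1 : ℝ) / 1000)) ^ 2003 :=
      pow_le_pow_right₀ hh1 (by norm_num)
    rw [h2000] at h2003
    have p3 : (d : ℝ) * N ≤ d * (A * l + 1) := mul_le_mul_of_nonneg_left hN2.le hd0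
    have p4 : (d : ℝ) * 1 ≤ d * l := mul_le_mul_of_nonneg_left hl hd0
    obtain ⟨τ, hτ, hτ1, hτ2, hτ3⟩ := Fast_union M hM hh1 N W
      (by linarith only [h2003, h5, p1, p2, p3, p4, hW, hl, hAl]) (by linarith only [h2003, h5, p1, p2, hW, hl, hAl])
      (B := fun τ => ¬ LT μ 2002 (l ^ ((1 : ℝ) / 1000)) τ) (hLT a M hM) (by
        refine lt_of_le_of_lt ?_ hε
        have h6 : (2 * (N : ℝ) + 1) ^ d ≤ ((l ^ ((1 : ℝ) / 1000)) ^ 2000) ^ d := by
          rw [h2000]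
          refine pow_le_pow_left₀ (by positivity) ?_ _
          linarith only [h5, hl, p1, p2, hN2]
        have h7 := mul_le_mul_of_nonneg_right h6 (Real.exp_pos (-(l ^ ((1 : ℝ) / 1000)))).le
        linarith)
    exact ⟨τ, hτ, hτ1, not_not.1 hτ2, fun z hz => hτ3 z (hz.trans hN1)⟩

/-- The norm is bounded by the median. -/
private theorem Fast_size (hX : IsVtx X μ) (hmu : MuM μ m) (hN : HasN Q m) :
    ∃ R : ℝ, 1 ≤ R ∧ ∀ z : V d, R ≤ nm z → nm z ≤ 2 * X.C * m z := by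
  have hs := mu_neg hmu hN
  obtain ⟨C₁, hC₁, h1⟩ := mu_le_med hmu hN 100 (by norm_num)
  have hC := one_le_C hX
  have e1 : ∀ᶠ r : ℝ in atTop, (2 * X.C * C₁) * r ^ ((1 : ℝ) / 2 + 4 / ((100 : ℕ) : ℝ)) ≤ r ^ (1 : ℝ) :=
    Fast_ev _ (by norm_num)
  obtain ⟨R, hR⟩ := eventually_atTop.1 e1
  refine ⟨max (max R C₁) 1, le_max_right _ _, fun z hz => ?_⟩
  have hz1 : R ≤ nm z := ((le_max_left _ _).trans (le_max_left _ _)).trans hz
  have hz2 : C₁ ≤ nm z := ((le_max_right _ _).trans (le_max_left _ _)).trans hz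
  have h2 := h1 z hz2
  have h3 := rn_le_mu hs hX (toR z)
  rw [← nm_eq_rn] at h3
  have h4 := hR (nm z) hz1
  rw [Real.rpow_one] at h4
  have h5 := mul_le_mul_of_nonneg_left h2 (by linarith : (0 : ℝ) ≤ X.C)
  linarith

private theorem Fast_core (hX : IsVtx X μ) {a h l : ℝ} {M : Mdl d a h} (hM : GoodN Q m 2003 M) (h1 : 1 ≤ h)
    (hl : 1 ≤ l) (hr : 2 * (20 * X.C ^ 2 * l) + 1 ≤ h ^ 2000) {W : V d} (hW1 : 2 * l ≤ X.gg W)
    (hW2 : X.gg W ≤ 2 * l + X.C) (hW3 : nm W ≤ 8 * X.C * l) {τ : Env d} (hτ : Bd a h τ) (hT : T τ 0 W ≤ m W + h)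
    (hz : ∀ z : V d, nm z ≤ 20 * X.C ^ 2 * l → m z - 4 * sg h (nm z) < T τ 0 z ∧
      m (W - z) - 4 * sg h (nm (W - z)) < T τ z W)
    (hnear : ∀ w : (grid d).Walk 0 W, cost τ w ≤ m W + h → ∀ q ∈ w.support, nm q ≤ 10 * X.C * l) :
    ∃ w : V d, l ≤ X.gg w ∧ X.gg w ≤ l + X.C ∧ nm w ≤ 20 * X.C ^ 2 * l ∧
      2 * (m w - X.gg w) ≤ m W - X.gg W + (1 + X.C ^ 2) * h + 14 * sg h (20 * X.C ^ 2 * l) := by
  have hC := one_le_C hX
  obtain ⟨w, hw⟩ := exists_geo hτ hM.apos 0 W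
  obtain ⟨i, hi, i1, i2, -⟩ := first_passage X.gg X.C (fun x y hxy => gg_step hX hxy) l w
    (by rw [Vtx.gg_zero]; linarith) (by linarith)
  have hadd := geo_add hτ hM.apos.le hw i
  obtain ⟨z, hzd⟩ : ∃ z, z = w.getVert i := ⟨_, rfl⟩
  rw [← hzd] at i1 i2 hadd
  have hzs : nm z ≤ 10 * X.C * l := hnear w (by rw [hw.2]; exact hT) z (by rw [hzd]; exact w.getVert_mem_support i)
  obtain ⟨w', a1, a2, a3, a4⟩ := Fast_lift hX (l := l) (x := W - z) (by rw [Vtx.gg_sub]; linarith)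
    (by rw [Vtx.gg_sub]; linarith)
  have hCl : X.C * (X.C * l) ≥ 4 * (X.C * l) :=
    mul_le_mul_of_nonneg_right hC (mul_nonneg (by linarith only [hC]) (by linarith only [hl]))
  have hCl2 : X.C ^ 2 * l ≥ X.C ^ 2 * 1 := mul_le_mul_of_nonneg_left hl (sq_nonneg _)
  have hCl3 : 0 ≤ X.C ^ 2 := sq_nonneg _
  have hWz : nm (W - z) ≤ 18 * X.C * l := by
    have h2 := nm_add_le W (-z)
    rw [nm_neg, ← sub_eq_add_neg] at h2
    linarith
  have hw' : nm w' ≤ 20 * X.C ^ 2 * l := by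
    have h2 := nm_add_le (W - z) (w' - (W - z))
    rw [add_sub_cancel] at h2
    linarith only [h2, hWz, a4, hCl, hCl2, hCl3]
  have hz' : nm z ≤ 20 * X.C ^ 2 * l := by linarith only [hzs, hCl, hCl2, hCl3]
  have hWz' : nm (W - z) ≤ 20 * X.C ^ 2 * l := by linarith only [hWz, hCl, hCl2, hCl3]
  obtain ⟨b1, b2⟩ := hz z hz'
  have S1 := sg_mono h1 hz'
  have S2 := sg_mono h1 hWz'
  have S3 := sg_mono h1 hw'
  have hp : h ^ 2000 ≤ h ^ 2003 := pow_le_pow_right₀ h1 (by norm_num)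
  have c1 := (abs_le.1 (mean_med hM h1 (W - z) (by linarith))).2
  have c2 := (abs_le.1 (mean_med hM h1 w' (by linarith))).1
  have c3 := E_T_add hM (W - z) (w' - (W - z))
  rw [add_sub_cancel] at c3
  have c4 := E_T_le hM (w' - (W - z))
  have c5 : h * nm (w' - (W - z)) ≤ h * X.C ^ 2 := mul_le_mul_of_nonneg_left a4 (by linarith)
  have g1 : X.gg (W - z) = X.gg W - X.gg z := Vtx.gg_sub _ _
  rcases le_total (m z - X.gg z) (m w' - X.gg w') with hc | hc
  · exact ⟨z, i1, i2.le, hz', by linarith⟩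
  · exact ⟨w', a1, a2, hw', by linarith⟩

/-- Doubling. If `m w - gg w ≥ A` for all `w` of the level `[l, l + C]` with `nm w ≤ K l`, then `m W - gg W ≥ 2 A - error` for
all `W` of the level `[2 l, 2 l + C]` with `nm W ≤ 2 K l`... here in the form: for every `W` of the level `2 l` with
`m W ≤ gg W + l` there is `w` of the level `l` with `nm w ≤ K l` and `2 (m w - gg w) ≤ m W - gg W + l ^ (505 / 1000)`.
PROOF. Model of range `p = 1000 * 2` at scale `h = l ^ (1 / 1000)`. `m W ≤ gg W + l` and `μ W ≤ m W + C (nm W)^(1/2 + ..)`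
(`mu_le_med`), `rn_le_mu` give `nm W ≤ K' l`. With probability `≥ 49/100` `T(0,W) ≤ m W + h` (`medU`), and with probability
`> 51/100` for all `z` in the box `T(0,z) ≥ m z - 4 sg`, `T(z,W) ≥ m (W - z) - 4 sg` (`low_med`, union). In such an
environment the geodesic `0 → W` has a first vertex `z` of level `≥ l` (`first_passage`), `l ≤ gg z ≤ l + C`,
`T(0,z) + T(z,W) ≤ m W + h`. So `m z + m (W - z) ≤ m W + 9 sg`; `μ ≤ m + small` for both (or small norms) gives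
`nm z, nm (W - z) ≤ K l`. `W - z` has level in `[l - C, l + C]`; move it by a bounded number of steps into `[l, l + C]`: `w'`,
`m w' ≤ E T(0,w') + 3 sg ≤ E T(0,W - z) + C h + 3 sg ≤ m (W - z) + 7 sg`. Take for `w` the better of `z`, `w'`. -/
theorem halve (hX : IsVtx X μ) (hmu : MuM μ m) (hN : HasN Q m) : ∃ K : ℝ, 1 ≤ K ∧ ∃ l₀ : ℝ, ∀ l : ℝ, l₀ ≤ l →
    ∀ W : V d, 2 * l ≤ X.gg W → X.gg W ≤ 2 * l + X.C → m W ≤ X.gg W + l →
      ∃ w : V d, l ≤ X.gg w ∧ X.gg w ≤ l + X.C ∧ nm w ≤ K * l ∧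
        2 * (m w - X.gg w) ≤ m W - X.gg W + l ^ (505 / 1000 : ℝ) := by
  have hs := mu_neg hmu hN
  have hC := one_le_C hX
  obtain ⟨R, hR1, hR⟩ := Fast_size hX hmu hN
  have hC2 := Fast_C2 hX
  have hA : (1 : ℝ) ≤ 20 * X.C ^ 2 := by linarith only [hC2]
  have ht : Tendsto (fun l : ℝ => l ^ ((1 : ℝ) / 1000)) atTop atTop := tendsto_rpow_atTop (by norm_num)
  have key : ∀ᶠ l : ℝ in atTop, ∀ W : V d, 2 * l ≤ X.gg W → X.gg W ≤ 2 * l + X.C → m W ≤ X.gg W + l →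
      ∃ w : V d, l ≤ X.gg w ∧ X.gg w ≤ l + X.C ∧ nm w ≤ 20 * X.C ^ 2 * l ∧
        2 * (m w - X.gg w) ≤ m W - X.gg W + l ^ (505 / 1000 : ℝ) := by
    filter_upwards [Fast_env hmu hN hA, ht.eventually (walk_near hs hX 2000 (by norm_num)),
      Fast_ev (3 * (1 + X.C ^ 2)) (show (1 : ℝ) / 1000 < 505 / 1000 by norm_num),
      Fast_ev (42 * √(20 * X.C ^ 2)) (show (504 : ℝ) / 1000 < 505 / 1000 by norm_num),
      Fast_ev 42 (show (11 : ℝ) / 1000 < 505 / 1000 by norm_num),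
      Fast_ev 2 (show (1 : ℝ) / 1000 < 1 by norm_num),
      eventually_ge_atTop (X.C * R + 2 * X.C + 1)] with l ⟨a, M, hM, h1, hr, hτ⟩ hw e3 e4 e5 e6 hl W hW1 hW2 hW3
    have hC0 : 0 ≤ X.C := by linarith only [hC]
    have hCR : 0 ≤ X.C * R := mul_nonneg hC0 (zero_le_one.trans hR1)
    have hl1 : 1 ≤ l := by linarith only [hl, hCR, hC0]
    have hl0 : 0 ≤ l := zero_le_one.trans hl1
    rw [Real.rpow_one] at e6
    have hnW : R ≤ nm W := by
      have h2 := (le_abs_self _).trans (abs_gg_le hX W)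
      have h3 : X.C * R ≤ X.C * nm W := by linarith only [h2, hW1, hl, hC0, hl0]
      exact le_of_mul_le_mul_left h3 (by linarith only [hC])
    have hW4 : nm W ≤ 8 * X.C * l := by
      have h2 := hR W hnW
      have h3 : X.C * m W ≤ X.C * (3 * l + X.C) := mul_le_mul_of_nonneg_left (by linarith only [hW3, hW2]) hC0
      have h4 : X.C * X.C ≤ X.C * l := mul_le_mul_of_nonneg_left (by linarith only [hl, hCR, hC0]) hC0
      linarith only [h2, h3, h4]
    have hW5 : nm W ≤ 20 * X.C ^ 2 * l := by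
      have h2 : X.C * (X.C * l) ≥ 4 * (X.C * l) :=
        mul_le_mul_of_nonneg_right hC (mul_nonneg hC0 hl0)
      have h3 : 0 ≤ X.C ^ 2 * l := mul_nonneg (sq_nonneg _) hl0
      linarith only [hW4, h2, h3]
    obtain ⟨τ, t1, t2, t3, t4⟩ := hτ W hW5
    have h16 : (l ^ ((1 : ℝ) / 1000)) ^ 16 ≤ l := by
      rw [← Real.rpow_natCast, ← Real.rpow_mul hl0]
      calc l ^ ((1 : ℝ) / 1000 * ((16 : ℕ) : ℝ)) ≤ l ^ (1 : ℝ) :=
            Real.rpow_le_rpow_of_exponent_le hl1 (by norm_num)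
        _ = l := Real.rpow_one l
    obtain ⟨w, w1, w2, w3, w4⟩ := Fast_core hX hM h1 hl1 hr hW1 hW2 hW4 t1 t2 t4 (by
      intro w hcw q hq
      have h20 : 16 * l ≤ X.C ^ 2 * l := mul_le_mul_of_nonneg_right hC2 hl0
      have h2 : 4 * l ≤ (l ^ ((1 : ℝ) / 1000)) ^ 2000 := by linarith only [hr, h20, hl1]
      have h3 := hw a τ hM.apos t1 t3 0 W w (4 * l) (by rw [nm_zero]; linarith only [h2, hl0])
        (by linarith only [hl0]) h2 (by linarith only [hcw, hW3, hW2, e6, hl, hCR]) q hq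
      rw [sub_zero] at h3
      have h4 : X.C * (4 * l + (l ^ ((1 : ℝ) / 1000)) ^ 16) ≤ X.C * (5 * l) :=
        mul_le_mul_of_nonneg_left (by linarith only [h16]) hC0
      linarith only [h3, h4])
    have h5 := Fast_sg (l := l) (r := 20 * X.C ^ 2 * l) (A := 20 * X.C ^ 2) hl0 (zero_le_one.trans hA) le_rfl
    exact ⟨w, w1, w2, w3, by linarith only [w4, e3, e4, e5, h5]⟩
  obtain ⟨l₀, hl₀⟩ := eventually_atTop.1 key
  exact ⟨20 * X.C ^ 2, hA, l₀, hl₀⟩

private theorem Fast_two : (2 : ℝ) ^ ((505 : ℝ) / 1000) ≤ 3 / 2 := by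
  by_contra hcon
  push Not at hcon
  have h1 := pow_lt_pow_left₀ hcon (by norm_num) (show (7 : ℕ) ≠ 0 by norm_num)
  have h2 : ((2 : ℝ) ^ ((505 : ℝ) / 1000)) ^ 7 = (2 : ℝ) ^ ((3535 : ℝ) / 1000) := by
    rw [← Real.rpow_natCast, ← Real.rpow_mul (by norm_num)]
    norm_num
  have h3 : (2 : ℝ) ^ ((3535 : ℝ) / 1000) ≤ (2 : ℝ) ^ (4 : ℝ) :=
    Real.rpow_le_rpow_of_exponent_le (by norm_num) (by norm_num)
  have h4 : (2 : ℝ) ^ (4 : ℝ) = 16 := by norm_num
  have h5 : ((3 : ℝ) / 2) ^ 7 ≥ 17 := by norm_num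
  rw [h2] at h1
  linarith

/-- PROOF. Iterate `halve` downwards from the level `2 ^ j l`, starting with `W` near `2 ^ j l v`, for which
`m W - gg W ≤ ε 2 ^ j l` (`med_dir` for the direction `v`, `exists_level`). After `j` steps `w` has level `l` and
`m w - gg w ≤ ε l + C l^(505/1000)`; let `ε → 0` for fixed `l` (choose `ε = l^(-1)`). -/
theorem exists_fast (hX : IsVtx X μ) (hmu : MuM μ m) (hN : HasN Q m) : ∃ K : ℝ, 1 ≤ K ∧ ∃ l₀ : ℝ, ∀ l : ℝ, l₀ ≤ l →
    ∃ w : V d, l ≤ X.gg w ∧ X.gg w ≤ l + X.C ∧ nm w ≤ K * l ∧ m w ≤ X.gg w + K * l ^ (505 / 1000 : ℝ) := by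
  obtain ⟨K, hK, l₀, hl₀⟩ := halve hX hmu hN
  have hC := one_le_C hX
  obtain ⟨l₁, hl₁⟩ := eventually_atTop.1 (Fast_ev 6 (show (505 : ℝ) / 1000 < 1 by norm_num))
  have step : ∀ (ε l : ℝ), ε ≤ 1 / 4 → max (max l₀ l₁) 1 ≤ l →
      (∃ w : V d, 2 * l ≤ X.gg w ∧ X.gg w ≤ 2 * l + X.C ∧
        m w ≤ X.gg w + (ε * (2 * l) + 2 * (2 * l) ^ ((505 : ℝ) / 1000))) →
      ∃ w : V d, l ≤ X.gg w ∧ X.gg w ≤ l + X.C ∧ nm w ≤ K * l ∧
        m w ≤ X.gg w + (ε * l + 2 * l ^ ((505 : ℝ) / 1000)) := by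
    rintro ε l hε hl ⟨W, hW1, hW2, hW3⟩
    have la : l₀ ≤ l := ((le_max_left _ _).trans (le_max_left _ _)).trans hl
    have lb : l₁ ≤ l := ((le_max_right _ _).trans (le_max_left _ _)).trans hl
    have lc : 1 ≤ l := (le_max_right _ _).trans hl
    have h1 : (2 * l) ^ ((505 : ℝ) / 1000) ≤ 3 / 2 * l ^ ((505 : ℝ) / 1000) := by
      rw [Real.mul_rpow zero_le_two (zero_le_one.trans lc)]
      exact mul_le_mul_of_nonneg_right Fast_two (Real.rpow_nonneg (zero_le_one.trans lc) _)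
    have h2 := hl₁ l lb
    rw [Real.rpow_one] at h2
    have h3 : ε * (2 * l) ≤ 1 / 4 * (2 * l) := mul_le_mul_of_nonneg_right hε (by linarith only [lc])
    obtain ⟨w, w1, w2, w3, w4⟩ := hl₀ l la W hW1 hW2 (by linarith only [hW3, h3, h1, h2])
    exact ⟨w, w1, w2, w3, by linarith only [w4, hW3, h1]⟩
  have desc : ∀ (j : ℕ) (ε l : ℝ), ε ≤ 1 / 4 → max (max l₀ l₁) 1 ≤ l →
      (∃ w : V d, 2 ^ j * l ≤ X.gg w ∧ X.gg w ≤ 2 ^ j * l + X.C ∧
        m w ≤ X.gg w + (ε * (2 ^ j * l) + 2 * (2 ^ j * l) ^ ((505 : ℝ) / 1000))) →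
      ∃ w : V d, l ≤ X.gg w ∧ X.gg w ≤ l + X.C ∧ m w ≤ X.gg w + (ε * l + 2 * l ^ ((505 : ℝ) / 1000)) := by
    intro j
    induction j with
    | zero =>
      intro ε l _ _ h
      simpa using h
    | succ j ih =>
      intro ε l hε hl h
      have h2 : (2 : ℝ) ^ (j + 1) * l = 2 ^ j * (2 * l) := by ring
      rw [h2] at h
      have hl1 : 1 ≤ l := (le_max_right _ _).trans hl
      obtain ⟨w, w1, w2, w3⟩ := ih ε (2 * l) hε (by linarith only [hl, hl1]) h
      obtain ⟨w', a1, a2, a3, a4⟩ := step ε l hε hl ⟨w, w1, w2, w3⟩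
      exact ⟨w', a1, a2, a4⟩
  refine ⟨K + 3, by linarith only [hK], max (max (max l₀ l₁) 1) 4, fun l hl => ?_⟩
  have hla : max (max l₀ l₁) 1 ≤ l := (le_max_left _ _).trans hl
  have hl4 : 4 ≤ l := (le_max_right _ _).trans hl
  have hlp : 0 < l := by linarith only [hl4]
  have hε0 : 0 < 1 / l := by positivity
  have hε : 1 / l ≤ 1 / 4 := one_div_le_one_div_of_le (by norm_num) hl4
  obtain ⟨r₀, hr₀⟩ := med_dir hmu hN X.v (1 / l) hε0
  obtain ⟨j, hj⟩ := pow_unbounded_of_one_lt (r₀ / l) (one_lt_two : (1 : ℝ) < 2)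
  obtain ⟨L, hLd⟩ : ∃ L : ℝ, L = 2 ^ j * (2 * l) := ⟨_, rfl⟩
  have hj0 : (0 : ℝ) < 2 ^ j := by positivity
  have hjl : 0 < 2 ^ j * l := by positivity
  have hL : r₀ ≤ L := by
    rw [div_lt_iff₀ hlp] at hj
    rw [hLd]
    linarith only [hj, hjl]
  have hL0 : 0 < L := by
    rw [hLd]
    positivity
  obtain ⟨w, w1, w2, w3⟩ := Fast_level hX L
  have hd : (1 : ℝ) ≤ d := by exact_mod_cast NeZero.one_le
  have h1 : m w ≤ L * (μ X.v + 1 / l) := hr₀ L hL w (by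
    have h2 : toR w - L • X.v = toR (w - X.rd L) + (toR (X.rd L) - L • X.v) := by
      rw [toR_sub]
      abel
    rw [h2]
    refine (rn_add_le _ _).trans ?_
    have h3 := rnd_near (L • X.v)
    rw [← nm_eq_rn]
    unfold Vtx.rd at w3 ⊢
    linarith only [h3, w3, hd])
  have h2 : L * (μ X.v + 1 / l) ≤ L * (1 + 1 / l) :=
    mul_le_mul_of_nonneg_left (by linarith only [hX.mv]) hL0.le
  have h3 : 0 ≤ L ^ ((505 : ℝ) / 1000) := Real.rpow_nonneg hL0.le _
  obtain ⟨w', a1, a2, a3⟩ := desc j (1 / l) (2 * l) hε (by linarith only [hla, hlp]) (by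
    rw [← hLd]
    exact ⟨w, w1, w2, by linarith only [h1, h2, h3, w1]⟩)
  obtain ⟨w'', b1, b2, b3, b4⟩ := step (1 / l) l hε hla ⟨w', a1, a2, a3⟩
  have h4 : 1 ≤ l ^ ((505 : ℝ) / 1000) := Real.one_le_rpow (by linarith only [hl4]) (by norm_num)
  have h5 : 1 / l * l = 1 := one_div_mul_cancel hlp.ne'
  rw [h5] at b4
  refine ⟨w'', b1, b2, by linarith only [b3, hlp], ?_⟩
  have h6 : 0 ≤ K * l ^ ((505 : ℝ) / 1000) := mul_nonneg (zero_le_one.trans hK) (zero_le_one.trans h4)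
  linarith only [b4, h4, h6]

/-- PROOF. `w` from `exists_fast`; `gl_le_mu`, `mu_le_med` (`p = 1000`) give `c lat w ≤ C l^(505/1000)`, so
`nm (w - rd l) ≤ C l^(505/1000)`; in the model of range `2000` at scale `h = l^(1/1000)`
`m (rd l) ≤ E T(0, rd l) + 3 sg ≤ E T(0,w) + h nm (rd l - w) + 3 sg ≤ m w + ...`. -/
theorem corner_fast (hX : IsVtx X μ) (hmu : MuM μ m) (hN : HasN Q m) : ∃ r₀ : ℝ, ∀ r : ℝ, r₀ ≤ r →
    m (X.rd r) ≤ r + r ^ (508 / 1000 : ℝ) := by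
  have hs := mu_neg hmu hN
  have hC := one_le_C hX
  obtain ⟨K, hK, l₀, hl₀⟩ := exists_fast hX hmu hN
  obtain ⟨C₁, hC₁, hC₁'⟩ := mu_le_med hmu hN 1000 (by norm_num)
  obtain ⟨B, hB⟩ : ∃ B : ℝ, B = X.C * (3 * X.C + X.C * (K + C₁ * K)) := ⟨_, rfl⟩
  obtain ⟨A, hA⟩ : ∃ A : ℝ, A = 2 * X.C + K := ⟨_, rfl⟩
  have hC0 : 0 ≤ X.C := by linarith only [hC]
  have hK0 : 0 ≤ K := zero_le_one.trans hK
  have hCK : 0 ≤ C₁ * K := mul_nonneg (zero_le_one.trans hC₁) hK0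
  have hA0 : 0 ≤ A := by linarith only [hA, hC0, hK0]
  have ht : Tendsto (fun l : ℝ => l ^ ((1 : ℝ) / 1000)) atTop atTop := tendsto_rpow_atTop (by norm_num)
  have key : ∀ᶠ r : ℝ in atTop, m (X.rd r) ≤ r + r ^ (508 / 1000 : ℝ) := by
    filter_upwards [ht.eventually (hN 2000), eventually_ge_atTop l₀, eventually_ge_atTop 1,
      eventually_ge_atTop A, eventually_ge_atTop (X.C * C₁),
      Fast_ev0 (5 * X.C) (show (0 : ℝ) < 508 / 1000 by norm_num),
      Fast_ev (5 * K) (show (505 : ℝ) / 1000 < 508 / 1000 by norm_num),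
      Fast_ev (30 * √A) (show (504 : ℝ) / 1000 < 508 / 1000 by norm_num),
      Fast_ev 30 (show (11 : ℝ) / 1000 < 508 / 1000 by norm_num),
      Fast_ev (5 * B) (show (506 : ℝ) / 1000 < 508 / 1000 by norm_num)]
      with r ⟨a, M, hM⟩ e1 e2 e3 e4 e5 e6 e7 e8 e9
    have hr0 : 0 < r := by linarith only [e2]
    have h1 : 1 ≤ r ^ ((1 : ℝ) / 1000) := Real.one_le_rpow e2 (by norm_num)
    have h2000 : (r ^ ((1 : ℝ) / 1000)) ^ 2000 = r ^ 2 := by
      rw [← Real.rpow_natCast, ← Real.rpow_mul hr0.le, ← Real.rpow_natCast]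
      norm_num
    have hAr : A * r ≤ r ^ 2 := by
      rw [pow_two]
      exact mul_le_mul_of_nonneg_right e3 hr0.le
    obtain ⟨w, w1, w2, w3, w4⟩ := hl₀ r e1
    have hnw : C₁ ≤ nm w := by
      have h2 := (le_abs_self _).trans (abs_gg_le hX w)
      have h3 : X.C * C₁ ≤ X.C * nm w := by linarith only [h2, w1, e4]
      exact le_of_mul_le_mul_left h3 (by linarith only [hC])
    have g1 := gl_le_mu hs hX w
    have g2 := hC₁' w hnw
    have g3 : (nm w) ^ ((1 : ℝ) / 2 + 4 / ((1000 : ℕ) : ℝ)) ≤ K * r ^ ((505 : ℝ) / 1000) := by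
      calc (nm w) ^ ((1 : ℝ) / 2 + 4 / ((1000 : ℕ) : ℝ)) ≤ (K * r) ^ ((1 : ℝ) / 2 + 4 / ((1000 : ℕ) : ℝ)) :=
            Real.rpow_le_rpow (nm_nonneg w) w3 (by norm_num)
        _ = K ^ ((1 : ℝ) / 2 + 4 / ((1000 : ℕ) : ℝ)) * r ^ ((1 : ℝ) / 2 + 4 / ((1000 : ℕ) : ℝ)) :=
            Real.mul_rpow hK0 hr0.le
        _ ≤ K ^ (1 : ℝ) * r ^ ((505 : ℝ) / 1000) := by
            refine mul_le_mul (Real.rpow_le_rpow_of_exponent_le hK (by norm_num))
              (Real.rpow_le_rpow_of_exponent_le e2 (by norm_num)) (Real.rpow_nonneg hr0.le _)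
              (Real.rpow_nonneg hK0 _)
        _ = K * r ^ ((505 : ℝ) / 1000) := by rw [Real.rpow_one]
    have g4 : C₁ * (nm w) ^ ((1 : ℝ) / 2 + 4 / ((1000 : ℕ) : ℝ)) ≤ C₁ * (K * r ^ ((505 : ℝ) / 1000)) :=
      mul_le_mul_of_nonneg_left g3 (zero_le_one.trans hC₁)
    have g5 : X.c * X.lat w ≤ (K + C₁ * K) * r ^ ((505 : ℝ) / 1000) := by
      have h5 := le_abs_self (X.gg w)
      linarith only [h5, g1, g2, g4, w4]
    have hp505 : 1 ≤ r ^ ((505 : ℝ) / 1000) := Real.one_le_rpow e2 (by norm_num)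
    have g6 : X.lat w ≤ X.C * (K + C₁ * K) * r ^ ((505 : ℝ) / 1000) := by
      have k1 : X.lat w = 1 / X.c * (X.c * X.lat w) := by
        have := hX.cpos
        field_simp
      rw [k1]
      calc 1 / X.c * (X.c * X.lat w) ≤ X.C * (X.c * X.lat w) :=
            mul_le_mul_of_nonneg_right (inv_c_le_C hX) (mul_nonneg hX.cpos.le (Vtx.lat_nonneg w))
        _ ≤ X.C * ((K + C₁ * K) * r ^ ((505 : ℝ) / 1000)) := mul_le_mul_of_nonneg_left g5 hC0
        _ = X.C * (K + C₁ * K) * r ^ ((505 : ℝ) / 1000) := by ring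
    have g7 : nm (X.rd r - w) ≤ B * r ^ ((505 : ℝ) / 1000) := by
      have k1 := nm_le hX (X.rd r - w)
      have k2 : |X.gg (X.rd r - w)| ≤ 2 * X.C := by
        rw [Vtx.gg_sub, abs_le]
        have k3 := abs_le.1 (gg_rd hX r)
        constructor
        · linarith only [k3.1, w2]
        · linarith only [k3.2, w1, hC0]
      have k4 := Vtx.lat_sub_le (X := X) (X.rd r) w
      have k5 := lat_rd hX r
      have k6 : |X.gg (X.rd r - w)| + X.lat (X.rd r - w)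
          ≤ (3 * X.C + X.C * (K + C₁ * K)) * r ^ ((505 : ℝ) / 1000) := by
        have k7 : 3 * X.C * 1 ≤ 3 * X.C * r ^ ((505 : ℝ) / 1000) :=
          mul_le_mul_of_nonneg_left hp505 (by linarith only [hC0])
        linarith only [k7, k2, k4, k5, g6]
      rw [hB]
      calc nm (X.rd r - w) ≤ X.C * (|X.gg (X.rd r - w)| + X.lat (X.rd r - w)) := k1
        _ ≤ X.C * ((3 * X.C + X.C * (K + C₁ * K)) * r ^ ((505 : ℝ) / 1000)) :=
            mul_le_mul_of_nonneg_left k6 hC0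
        _ = _ := by ring
    have hnr : nm (X.rd r) ≤ A * r := by
      have k1 := nm_rd hX r
      rw [abs_of_pos hr0] at k1
      have k2 : X.C * (r + 1) ≤ X.C * (2 * r) := mul_le_mul_of_nonneg_left (by linarith only [e2]) hC0
      have k3 : 0 ≤ K * r := mul_nonneg hK0 hr0.le
      rw [hA]
      linarith only [k1, k2, k3]
    have hnw' : nm w ≤ A * r := by
      have k3 : 0 ≤ X.C * r := mul_nonneg hC0 hr0.le
      rw [hA]
      linarith only [w3, k3]
    have c1 := (abs_le.1 (mean_med hM h1 w (by rw [h2000]; exact hnw'.trans hAr))).2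
    have c2 := (abs_le.1 (mean_med hM h1 (X.rd r) (by rw [h2000]; exact hnr.trans hAr))).1
    have c3 := E_T_add hM w (X.rd r - w)
    rw [add_sub_cancel] at c3
    have c4 := E_T_le hM (X.rd r - w)
    have c5 : r ^ ((1 : ℝ) / 1000) * nm (X.rd r - w) ≤ B * r ^ ((506 : ℝ) / 1000) := by
      calc r ^ ((1 : ℝ) / 1000) * nm (X.rd r - w) ≤ r ^ ((1 : ℝ) / 1000) * (B * r ^ ((505 : ℝ) / 1000)) :=
            mul_le_mul_of_nonneg_left g7 (zero_le_one.trans h1)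
        _ = B * (r ^ ((1 : ℝ) / 1000) * r ^ ((505 : ℝ) / 1000)) := by ring
        _ = B * r ^ ((506 : ℝ) / 1000) := by
            rw [← Real.rpow_add hr0]
            norm_num
    have S1 := (sg_mono h1 hnw').trans (Fast_sg hr0.le hA0 le_rfl)
    have S2 := (sg_mono h1 hnr).trans (Fast_sg hr0.le hA0 le_rfl)
    linarith only [S1, S2, c1, c2, c3, c4, c5, w2, w4, e5, e6, e7, e8, e9]
  exact eventually_atTop.1 key

/-- PROOF. `corner_fast` for `l ≥ r₀`, the finitely many smaller `l` give a constant. -/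
theorem bb_le (hX : IsVtx X μ) (hmu : MuM μ m) (hN : HasN Q m) : ∃ n₀ : ℕ, ∀ n : ℕ, n₀ ≤ n →
    bb X m n ≤ (n : ℝ) ^ (51 / 100 : ℝ) := by
  obtain ⟨r₀, hr₀⟩ := corner_fast hX hmu hN
  have e1 : ∀ᶠ n : ℝ in atTop, bb X m ⌈r₀⌉₊ ≤ n ^ ((51 : ℝ) / 100) := Fast_ev0 _ (by norm_num)
  obtain ⟨n₁, hn₁⟩ := eventually_atTop.1 (tendsto_natCast_atTop_atTop.eventually e1)
  refine ⟨max n₁ 1, fun n hn => ?_⟩
  have hn1 : n₁ ≤ n := (le_max_left _ _).trans hn
  have hn2 : (1 : ℝ) ≤ n := by exact_mod_cast (le_max_right _ _).trans hn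
  unfold bb
  refine sup'_le _ _ fun l hl => max_le ?_ ?_
  · exact Real.one_le_rpow hn2 (by norm_num)
  · rcases le_total (l : ℝ) r₀ with h1 | h1
    · have h2 : l ≤ ⌈r₀⌉₊ := by exact_mod_cast h1.trans (Nat.le_ceil r₀)
      have h3 := med_le_bb (X := X) m h2
      have h4 := hn₁ n hn1
      linarith
    · have h2 := hr₀ l h1
      have h3 : (l : ℝ) ≤ n := by exact_mod_cast Nat.lt_succ_iff.1 (mem_range.1 hl)
      have h4 : (l : ℝ) ^ ((508 : ℝ) / 1000) ≤ (n : ℝ) ^ ((51 : ℝ) / 100) := by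
        calc (l : ℝ) ^ ((508 : ℝ) / 1000) ≤ (n : ℝ) ^ ((508 : ℝ) / 1000) :=
              Real.rpow_le_rpow (Nat.cast_nonneg l) h3 (by norm_num)
          _ ≤ _ := Real.rpow_le_rpow_of_exponent_le hn2 (by norm_num)
      linarith

end Pool.Agent.W_1b8d5d_nd

end

/-! ### Width -/

section

/-!
MP_1b8d5d_pr, [ND], section 6: the lanes of width `C₀ (bb + h ^ 103)` are good.
-/

set_option autoImplicit false

namespace Pool.Agent.W_1b8d5d_nd

open Finset Filter Topology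
open Pool.Agent.W_1b8d5d_h85 (Ex Pr Vr avg)

variable {d : ℕ} [NeZero d] {X : Vtx d} {μ : (Fin d → ℝ) → ℝ} {Q : Qn} {m : V d → ℝ}

/-- The running maximum is small. PROOF. `bb_le`: `bb ≤ n ^ (51 / 100) ≤ η * n` for `n ≥ h ^ (D - 1)`, `h` large. -/
theorem bb_small (hX : IsVtx X μ) (hmu : MuM μ m) (hN : HasN Q m) (D : ℕ) (hD : 1000 ≤ D) (η : ℝ) (hη : 0 < η) :
    ∀ᶠ h : ℝ in atTop, ∀ n : ℕ, h ^ (D - 1) ≤ n → bb X m n ≤ η * n := by
  obtain ⟨n₀, hn₀⟩ := bb_le hX hmu hN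
  have h1 : ∀ᶠ x : ℝ in atTop, 1 / η ≤ x ^ (49 / 100 : ℝ) :=
    (tendsto_rpow_atTop (by norm_num)).eventually_ge_atTop _
  obtain ⟨x₀, hx₀⟩ := eventually_atTop.1 h1
  filter_upwards [eventually_ge_atTop (1 : ℝ), eventually_ge_atTop x₀, eventually_ge_atTop (n₀ : ℝ)] with h e1 e2 e3
  intro n hn
  have h2 : h ≤ n := by
    refine le_trans ?_ hn
    calc h = h ^ 1 := (pow_one h).symm
      _ ≤ h ^ (D - 1) := pow_le_pow_right₀ e1 (by omega)
  have h3 : n₀ ≤ n := by exact_mod_cast e3.trans h2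
  have hn0 : (0 : ℝ) < n := by linarith
  refine (hn₀ n h3).trans ?_
  have h4 := hx₀ (n : ℝ) (e2.trans h2)
  have h5 : (n : ℝ) = (n : ℝ) ^ (51 / 100 : ℝ) * (n : ℝ) ^ (49 / 100 : ℝ) := by
    rw [← Real.rpow_add hn0]
    norm_num
  have h6 : 0 < (n : ℝ) ^ (51 / 100 : ℝ) := Real.rpow_pos_of_pos hn0 _
  rw [div_le_iff₀ hη] at h4
  calc (n : ℝ) ^ (51 / 100 : ℝ) = (n : ℝ) ^ (51 / 100 : ℝ) * 1 := (mul_one _).symm
    _ ≤ (n : ℝ) ^ (51 / 100 : ℝ) * ((n : ℝ) ^ (49 / 100 : ℝ) * η) := mul_le_mul_of_nonneg_left h4 h6.le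
    _ = η * ((n : ℝ) ^ (51 / 100 : ℝ) * (n : ℝ) ^ (49 / 100 : ℝ)) := by ring
    _ = η * n := by rw [← h5]

/-- The passage from `0` to `rd l` at cost `≤ l + Z`, `Z = bb + h`. PROOF. `medU`, `med_le_bb`, `nm_rd`. -/
theorem P_rd (hX : IsVtx X μ) (D : ℕ) : ∀ᶠ h : ℝ in atTop, ∀ (a : ℝ) (M : Mdl d a h), GoodN Q m (2 * D + 200) M →
    ∀ n l : ℕ, (n : ℝ) ≤ h ^ D → l ≤ n → 49 / 100 ≤ M.P (fun τ => T τ 0 (X.rd l) ≤ l + (bb X m n + h)) := by
  filter_upwards [eventually_ge_atTop (1 : ℝ), eventually_ge_atTop (2 * X.C)] with h e1 e2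
  intro a M hM n l hn hl
  have hC := one_le_C hX
  have h1 : nm (X.rd (l : ℝ)) ≤ h ^ (2 * D + 200) := by
    have h2 := nm_rd hX (l : ℝ)
    rw [abs_of_nonneg (Nat.cast_nonneg l)] at h2
    refine h2.trans ?_
    have h3 : (l : ℝ) ≤ n := by exact_mod_cast hl
    have h4 : (1 : ℝ) ≤ h ^ D := one_le_pow₀ e1
    calc X.C * ((l : ℝ) + 1) ≤ X.C * (2 * h ^ D) := mul_le_mul_of_nonneg_left (by linarith) (by linarith)
      _ = (2 * X.C) * h ^ D := by ring
      _ ≤ h * h ^ D := mul_le_mul_of_nonneg_right e2 (by positivity)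
      _ = h ^ (D + 1) := (pow_succ' h D).symm
      _ ≤ h ^ (2 * D + 200) := pow_le_pow_right₀ e1 (by omega)
  refine (hM.medU _ h1).trans (M.P_mono fun τ _ hτ => ?_)
  have h2 := med_le_bb (X := X) m hl
  linarith

/-- Very wide lanes. PROOF. `P_rd`, `LT_prob`, `lane_reach` (all terms are at most `C h ^ D`, `bb_small`): the probability is
at least `49/100 - exp (-(h/2)) ≥ 1/4`. -/
theorem lanes_wide (hX : IsVtx X μ) (hmu : MuM μ m) (hN : HasN Q m) (D : ℕ) (hD : 1000 ≤ D) :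
    ∀ᶠ h : ℝ in atTop, ∀ (a : ℝ) (M : Mdl d a h), GoodN Q m (2 * D + 200) M → ∀ n : ℕ, h ^ (D - 1) ≤ n → (n : ℝ) ≤ h ^ D →
      LaneOK X M n (bb X m n + h) (h ^ (D + 1)) := by
  have hs : ∀ x, μ (-x) = μ x := mu_neg hmu hN
  have hC := one_le_C hX
  have hc := hX.cpos
  have hex : ∀ᶠ h : ℝ in atTop, Real.exp (-(h / 2)) ≤ 1 / 20 := by
    have h1 : Tendsto (fun h : ℝ => Real.exp (-(h / 2))) atTop (𝓝 0) := by
      refine Real.tendsto_exp_atBot.comp ?_
      exact tendsto_neg_atTop_atBot.comp (tendsto_id.atTop_div_const (by norm_num))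
    exact (h1.eventually (gt_mem_nhds (by norm_num : (0 : ℝ) < 1 / 20))).mono fun _ hh => le_of_lt hh
  filter_upwards [eventually_ge_atTop (1 : ℝ), eventually_ge_atTop (4 : ℝ), hex,
    eventually_ge_atTop ((8 + X.C + X.c * X.C) / (2 * X.c)), eventually_ge_atTop (10 + X.C),
    bb_small hX hmu hN D hD 1 one_pos, P_rd (Q := Q) (m := m) hX D, LT_prob hmu hN (2 * D + 199) (by omega),
    ce_le_eps hX 1 one_pos, lane_reach hs hX (D + 1) (by omega)] with h e1 e4 e5 e6 e7 e8 e9 e10 e11 e12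
  intro a M hM n hn1 hn2 l hl
  have h0 : 0 < h := by linarith
  have hDp : 0 < h ^ D := by positivity
  have hD1 : (1 : ℝ) ≤ h ^ D := one_le_pow₀ e1
  have hhD : h ≤ h ^ D := by
    calc h = h ^ 1 := (pow_one h).symm
      _ ≤ h ^ D := pow_le_pow_right₀ e1 (by omega)
  have hDD : h ^ (D + 1) = h * h ^ D := pow_succ' h D
  have hbb := e8 n hn1
  have hbb1 := one_le_bb (X := X) m n
  have hl' : (l : ℝ) ≤ n := by exact_mod_cast hl
  have hP := e9 a M hM n l hn2 hl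
  have hLT := e10 a M hM
  have hsub : M.P (fun τ => T τ 0 (X.rd l) ≤ l + (bb X m n + h)) ≤
      M.P (fun τ => Reach (X.lane 0 l (h ^ (D + 1)) (h ^ (D + 1))) τ 0 (X.rd l) (l + (bb X m n + h))) +
      M.P (fun τ => ¬ LT μ (2 * D + 199) h τ) := by
    refine le_trans (M.P_mono fun τ hτ hT => ?_) (M.P_or _ _)
    by_cases hL : LT μ (2 * D + 199) h τ
    · left
      have hL' : LT μ (D + 1 + 2) h τ := hL.mono e1 (by omega)
      have hgg := abs_le.1 (gg_rd hX (l : ℝ))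
      have hlat := lat_rd hX (l : ℝ)
      have hlat0 := X.lat_nonneg (X.rd (l : ℝ))
      have hs3 : (l : ℝ) + (bb X m n + h) ≤ 3 * h ^ D := by linarith
      have hce : ce X h (l + (bb X m n + h)) ≤ 3 * h ^ D := by
        refine (ce_mono hX e1 hs3).trans ?_
        have h20 : h ^ 20 ≤ 3 * h ^ D := by
          have : h ^ 20 ≤ h ^ D := pow_le_pow_right₀ e1 (by omega)
          linarith
        have := e11 (3 * h ^ D) h20
        linarith
      have hce0 := ce_nonneg (X := X) (s := l + (bb X m n + h)) e1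
      refine e12 a τ hM.apos hτ hL' 0 (X.rd l) _ l _ _ ?_ ?_ hT ?_ ?_ ?_
      · rw [nm_zero]
        positivity
      · rw [hDD]
        have : 3 * h ^ D ≤ h * h ^ D := mul_le_mul_of_nonneg_right (by linarith) hDp.le
        linarith
      · rw [sub_zero]
        linarith
      · rw [sub_zero]
        have h2 : X.c * X.lat (X.rd (l : ℝ)) ≤ X.c * X.C := mul_le_mul_of_nonneg_left hlat hc.le
        have h3 : (8 + X.C + X.c * X.C) ≤ h * (2 * X.c) := by rwa [div_le_iff₀ (by positivity)] at e6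
        have h4 : (8 + X.C + X.c * X.C) * h ^ D ≤ h * (2 * X.c) * h ^ D := mul_le_mul_of_nonneg_right h3 hDp.le
        have h5 : X.C ≤ X.C * h ^ D := le_mul_of_one_le_right (by linarith) hD1
        have h6 : X.c * X.C ≤ X.c * X.C * h ^ D := le_mul_of_one_le_right (by positivity) hD1
        rw [hDD]
        have h7 : bb X m n + h ≤ 2 * h ^ D := by linarith
        linarith
      · rw [sub_zero, hDD]
        have h4 : (10 + X.C) * h ^ D ≤ h * h ^ D := mul_le_mul_of_nonneg_right e7 hDp.le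
        have h5 : X.C ≤ X.C * h ^ D := le_mul_of_one_le_right (by linarith) hD1
        linarith
    · right
      exact hL
  linarith

private theorem Width_exp (c : ℝ) (hc : 0 < c) : ∀ᶠ h : ℝ in atTop, Real.exp (-(h / c)) ≤ 1 / 20 := by
  have h1 : Tendsto (fun h : ℝ => Real.exp (-(h / c))) atTop (𝓝 0) := by
    refine Real.tendsto_exp_atBot.comp ?_
    exact tendsto_neg_atTop_atBot.comp (tendsto_id.atTop_div_const hc)
  exact (h1.eventually (gt_mem_nhds (by norm_num : (0 : ℝ) < 1 / 20))).mono fun _ hh => le_of_lt hh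

/-- The mean overshoot at the scale `2 n` from good lanes. -/
private theorem Width_over (hd : 2 ≤ d) (hX : IsVtx X μ) (hmu : MuM μ m) (hN : HasN Q m) (D : ℕ) (hD : 1000 ≤ D)
    (ε : ℝ) (hε : 0 < ε) :
    ∀ᶠ h : ℝ in atTop, ∀ (a : ℝ) (M : Mdl d a h), GoodN Q m (2 * D + 200) M →
      ∀ (n : ℕ) (W : ℝ), h ^ (D - 1) ≤ n → (n : ℝ) ≤ h ^ D → h ^ 102 ≤ W → W ≤ h ^ (D + 3) →
        LaneOK X M n (bb X m n + h) W →
        ∀ i, M.E (fun τ => max (X.UN i (h ^ (D + 8)) h (2 * (n : ℝ)) τ - 2 * (n : ℝ)) 0) ≤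
          2 * (bb X m n + h) + ε * W := by
  have hall : ∀ᶠ h : ℝ in atTop, ∀ i : Fin X.N, ∀ (a : ℝ) (M : Mdl d a h), GoodN Q m (2 * D + 200) M →
      ∀ (n : ℕ) (Z W N : ℝ), (n : ℝ) ≤ h ^ D → 0 ≤ Z → Z ≤ h ^ (D + 1) → h ^ 102 ≤ W → W ≤ h ^ (D + 3) →
        LaneOK X M n Z W → 2 ≤ N → N ≤ 2 * n →
        M.E (fun τ => max (X.UN i (h ^ (D + 8)) h N τ - N - 2 * Z) 0) ≤ ε * W :=
    eventually_all.2 fun i => level_bound2 hd hX hmu hN D hD i ε hε
  filter_upwards [hall, eventually_ge_atTop (2 : ℝ), bb_small hX hmu hN D hD 1 one_pos] with h e0 e1 e2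
  intro a M hM n W hn1 hn2 hW1 hW2 hOK i
  have h1 : (1 : ℝ) ≤ h := by linarith
  have hbb := e2 n hn1
  have hbb1 := one_le_bb (X := X) m n
  have hn3 : (1 : ℝ) ≤ n := le_trans (one_le_pow₀ h1) hn1
  have hZ : bb X m n + h ≤ h ^ (D + 1) := by
    have h2 : h ≤ h ^ D := by
      calc h = h ^ 1 := (pow_one h).symm
        _ ≤ h ^ D := pow_le_pow_right₀ h1 (by omega)
    have h3 : 2 * h ^ D ≤ h * h ^ D := mul_le_mul_of_nonneg_right e1 (by positivity)
    rw [pow_succ']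
    linarith
  have h4 := e0 i a M hM n (bb X m n + h) W (2 * (n : ℝ)) hn2 (by linarith) hZ hW1 hW2 hOK (by linarith) le_rfl
  have h5 : M.E (fun τ => max (X.UN i (h ^ (D + 8)) h (2 * (n : ℝ)) τ - 2 * (n : ℝ)) 0) ≤
      M.E (fun τ => 2 * (bb X m n + h) +
        max (X.UN i (h ^ (D + 8)) h (2 * (n : ℝ)) τ - 2 * (n : ℝ) - 2 * (bb X m n + h)) 0) := by
    refine M.E_mono fun τ _ => ?_
    refine max_le ?_ ?_
    · have := le_max_left (X.UN i (h ^ (D + 8)) h (2 * (n : ℝ)) τ - 2 * (n : ℝ) - 2 * (bb X m n + h)) 0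
      linarith
    · have := le_max_right (X.UN i (h ^ (D + 8)) h (2 * (n : ℝ)) τ - 2 * (n : ℝ) - 2 * (bb X m n + h)) 0
      linarith
  rw [M.E_add, M.E_const] at h5
  linarith

/-- Halving the width. PROOF. Put `Z = bb + h`. Suppose `LaneOK (2 W)` and that the lane of width `W` fails for some `l ≤ n`.
`P (T 0 (rd l) ≤ l + Z) ≥ 49/100` (`P_rd`), `P (not LT) ≤ exp (-(h/2))`; in these environments, off the lane event, the lane
event with the cost `T τ 0 (rd l)` fails too (`Reach.mono`), so `tube_or_luck` (`x = 0`, `y = rd l`, `R = 0`, `S = W`) gives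
`LkA X (rd l) 0 _ (3/2 n) (W / (2 C))`. Its probability is at most `C₁ (Δ + 1) / Y + exp (-(h/5))` (`P_LkA_le`, `lam = 1`),
`Y = W / (2 C)`, `Δ = 2 Z + 2 ε W` by `level_bound2` (for `2 W`, `N = 2 n`; `max (x + 2 Z) 0 ≤ max x 0 + 2 Z`). Since
`Z ≤ 2 W / C₀` this is `≤ 2 C C₁ (4 / C₀ + 2 ε + 1 / W) + exp (-(h/5)) ≤ 1/10` for `C₀` large, `ε` small. So
`49/100 - exp (-(h/2)) - 1/4 ≤ 1/10`, a contradiction. (`W ≤ h ^ (D + 2)`, and `Z + 4 C ≤ W / C` because `C₀ ≥ 8 C ^ 2`.) -/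
theorem width_step (hd : 2 ≤ d) (hX : IsVtx X μ) (hmu : MuM μ m) (hN : HasN Q m) (D : ℕ) (hD : 1000 ≤ D) :
    ∃ C₀ : ℝ, 1 ≤ C₀ ∧ ∀ᶠ h : ℝ in atTop, ∀ (a : ℝ) (M : Mdl d a h), GoodN Q m (2 * D + 200) M →
      ∀ n : ℕ, h ^ (D - 1) ≤ n → (n : ℝ) ≤ h ^ D → ∀ W : ℝ, C₀ * (bb X m n + h ^ 103) ≤ W → W ≤ h ^ (D + 2) →
        LaneOK X M n (bb X m n + h) (2 * W) → LaneOK X M n (bb X m n + h) W := by
  have hs : ∀ x, μ (-x) = μ x := mu_neg hmu hN
  have hC := one_le_C hX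
  obtain ⟨C₁, hC₁, hlk⟩ := P_LkA_le hX hmu hN D hD 1 le_rfl
  have hCC : 0 < X.C * C₁ := by positivity
  have hε : 0 < 1 / (160 * (X.C * C₁)) := by positivity
  have hC₀ : 1 ≤ 240 * (X.C * C₁) + 8 * X.C ^ 2 := by nlinarith
  refine ⟨240 * (X.C * C₁) + 8 * X.C ^ 2, hC₀, ?_⟩
  filter_upwards [hlk, Width_over hd hX hmu hN D hD _ hε, P_rd (Q := Q) (m := m) hX D,
    LT_prob hmu hN (2 * D + 199) (by omega), tube_or_luck hs hX D hD,
    bb_small hX hmu hN D hD (1 / 8) (by norm_num), Width_exp 2 (by norm_num), Width_exp 5 (by norm_num),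
    eventually_ge_atTop (8 : ℝ), eventually_ge_atTop (100 * X.C)] with h e1 e2 e3 e4 e5 e6 e7 e8 e9 e10
  intro a M hM n hn1 hn2 W hW1 hW2 hOK
  set C₀ : ℝ := 240 * (X.C * C₁) + 8 * X.C ^ 2 with hC₀def
  have h1 : (1 : ℝ) ≤ h := by linarith
  have h0 : 0 < h := by linarith
  have hbb := e6 n hn1
  have hbb1 := one_le_bb (X := X) m n
  have hhn : h ^ 2 ≤ n := le_trans (pow_le_pow_right₀ h1 (by omega)) hn1
  have hh103 : h ≤ h ^ 103 := by
    calc h = h ^ 1 := (pow_one h).symm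
      _ ≤ h ^ 103 := pow_le_pow_right₀ h1 (by norm_num)
  have h103 : (1 : ℝ) ≤ h ^ 103 := one_le_pow₀ h1
  have hB0 : 1 ≤ bb X m n + h ^ 103 := by linarith
  have hW0 : C₀ ≤ W := by
    refine le_trans ?_ hW1
    nlinarith
  have hWpos : 0 < W := by linarith
  have hW103 : h ^ 103 ≤ W := by
    refine le_trans ?_ hW1
    nlinarith
  have h102 : h ^ 103 = h * h ^ 102 := pow_succ' h 102
  have hD23 : h ^ (D + 3) = h * h ^ (D + 2) := pow_succ' h (D + 2)
  have hover := e2 a M hM n (2 * W) hn1 hn2 (by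
    have : h ^ 102 ≤ h ^ 103 := pow_le_pow_right₀ h1 (by norm_num)
    linarith) (by
    rw [hD23]
    have : 2 * h ^ (D + 2) ≤ h * h ^ (D + 2) := mul_le_mul_of_nonneg_right (by linarith) (by positivity)
    linarith) hOK
  intro l hl
  by_contra hcon
  rw [not_le] at hcon
  have hl' : (l : ℝ) ≤ n := by exact_mod_cast hl
  have hZW : (bb X m n + h) ≤ W / C₀ := by
    rw [le_div_iff₀ (by linarith)]
    have : (bb X m n + h) * C₀ ≤ C₀ * (bb X m n + h ^ 103) := by nlinarith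
    linarith
  have h2C : 0 < 2 * X.C := by linarith
  have hlkA := e1 a M hM (n : ℝ) (2 * (bb X m n + h) + 1 / (160 * (X.C * C₁)) * (2 * W)) (W / (2 * X.C)) 0
    (X.rd l) hn1 hn2 (by positivity) hover (by
      rw [le_div_iff₀ h2C]
      have k1 : C₀ * h ^ 103 ≤ W := by
        refine le_trans ?_ hW1
        exact mul_le_mul_of_nonneg_left (by linarith) (by linarith)
      have k2 : 2 * X.C ≤ C₀ := by rw [hC₀def]; nlinarith
      have k3 : 2 * X.C * h ^ 103 ≤ C₀ * h ^ 103 := mul_le_mul_of_nonneg_right k2 (by positivity)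
      have k4 : h ^ 102 ≤ h ^ 103 := pow_le_pow_right₀ h1 (by norm_num)
      have k5 : h ^ 102 * (2 * X.C) ≤ h ^ 103 * (2 * X.C) := mul_le_mul_of_nonneg_right k4 h2C.le
      linarith) (by
      refine le_trans (div_le_self hWpos.le (by linarith)) hW2) (by positivity)
  have hP := e3 a M hM n l hn2 hl
  have hLT := e4 a M hM
  have hsub : M.P (fun τ => T τ 0 (X.rd l) ≤ l + (bb X m n + h)) ≤
      M.P (fun τ => Reach (X.lane 0 l W W) τ 0 (X.rd l) (l + (bb X m n + h))) +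
      (M.P (fun τ => ¬ LT μ (2 * D + 199) h τ) +
        M.P (fun τ => LkA X (X.rd l) 0 (h ^ (D + 3)) (3 / 2 * n) (W / (2 * X.C)) τ)) := by
    refine le_trans (M.P_mono fun τ hτ hT => ?_)
      (le_trans (M.P_or _ _) (add_le_add_right (M.P_or _ _) _))
    by_cases hR : Reach (X.lane 0 l W W) τ 0 (X.rd l) (l + (bb X m n + h))
    · exact Or.inl hR
    by_cases hL : LT μ (2 * D + 199) h τ
    · right
      right
      have hR' : ¬ Reach (X.lane 0 l W W) τ 0 (X.rd l) (T τ 0 (X.rd l)) := fun hr =>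
        hR (hr.mono (le_refl _) hT)
      refine e5 a τ hM.apos hM.alt hτ (hL.mono h1 (by omega)) n l 0 W (bb X m n + h) 0 (X.rd l) hn1 hn2
        (Nat.cast_nonneg l) hl' le_rfl ?_ ?_ ?_ ?_ hT hWpos.le ?_ hR'
      · rw [zero_add, mul_one]
        nlinarith
      · rw [abs_of_nonneg (by linarith)]
        nlinarith
      · rw [nm_zero]
      · rw [sub_self, nm_zero]
      · rw [zero_add, mul_one, le_div_iff₀ (by linarith)]
        have k1 : 8 * X.C ^ 2 * (bb X m n + h ^ 103) ≤ W := by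
          refine le_trans ?_ hW1
          refine mul_le_mul_of_nonneg_right ?_ (by linarith)
          rw [hC₀def]
          linarith
        have k2 : X.C * (bb X m n + h) ≤ X.C ^ 2 * (bb X m n + h ^ 103) := by
          have : X.C * (bb X m n + h) ≤ X.C * (bb X m n + h ^ 103) :=
            mul_le_mul_of_nonneg_left (by linarith) (by linarith)
          have k3 : X.C * (bb X m n + h ^ 103) ≤ X.C ^ 2 * (bb X m n + h ^ 103) := by
            refine mul_le_mul_of_nonneg_right ?_ (by linarith)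
            nlinarith
          linarith
        have k4 : X.C ^ 2 * 1 ≤ X.C ^ 2 * (bb X m n + h ^ 103) :=
          mul_le_mul_of_nonneg_left hB0 (by positivity)
        have k5 : (bb X m n + h + 4 * X.C) * X.C = X.C * (bb X m n + h) + 4 * X.C ^ 2 := by ring
        rw [k5]
        nlinarith
    · right
      left
      exact hL
  -- the arithmetic
  have hval : C₁ * (2 * (bb X m n + h) + 1 / (160 * (X.C * C₁)) * (2 * W) + 1) / (W / (2 * X.C)) ≤ 1 / 20 := by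
    rw [div_le_iff₀ (by positivity)]
    have k1 : bb X m n + h ≤ W / (240 * (X.C * C₁)) := by
      refine hZW.trans ?_
      refine div_le_div_of_nonneg_left hWpos.le (by positivity) ?_
      rw [hC₀def]
      nlinarith
    have k2 : 1 ≤ W / (240 * (X.C * C₁)) := by
      rw [le_div_iff₀ (by positivity), one_mul]
      refine le_trans ?_ hW0
      rw [hC₀def]
      nlinarith
    have k3 : C₁ * (2 * (bb X m n + h) + 1 / (160 * (X.C * C₁)) * (2 * W) + 1) ≤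
        C₁ * (3 * (W / (240 * (X.C * C₁))) + 1 / (160 * (X.C * C₁)) * (2 * W)) :=
      mul_le_mul_of_nonneg_left (by linarith) (by linarith)
    refine k3.trans (le_of_eq ?_)
    have hC0 : X.C ≠ 0 := by linarith
    have hC10 : C₁ ≠ 0 := by linarith
    field_simp
    norm_num
  have e20 : M.P (fun τ => LkA X (X.rd l) 0 (h ^ (D + 3)) (3 / 2 * n) (W / (2 * X.C)) τ) ≤ 1 / 20 + 1 / 20 :=
    hlkA.trans (add_le_add hval e8)
  linarith

/-- The width of the lanes. PROOF. Start with `h ^ (D + 1)` (`lanes_wide`) and halve (`width_step`) as long as the width is at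
least `2 C₀ (bb + h ^ 103)` (induction: for all `k`, `LaneOK (max (h ^ (D + 1) / 2 ^ k) (2 C₀ (bb + h ^ 103)))`); constant
`2 C₀`. -/
theorem width (hd : 2 ≤ d) (hX : IsVtx X μ) (hmu : MuM μ m) (hN : HasN Q m) (D : ℕ) (hD : 1000 ≤ D) :
    ∃ C₀ : ℝ, 1 ≤ C₀ ∧ ∀ᶠ h : ℝ in atTop, ∀ (a : ℝ) (M : Mdl d a h), GoodN Q m (2 * D + 200) M →
      ∀ n : ℕ, h ^ (D - 1) ≤ n → (n : ℝ) ≤ h ^ D →
        LaneOK X M n (bb X m n + h) (C₀ * (bb X m n + h ^ 103)) := by
  obtain ⟨C₀, hC₀, hstep⟩ := width_step hd hX hmu hN D hD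
  refine ⟨2 * C₀, by linarith, ?_⟩
  filter_upwards [hstep, lanes_wide hX hmu hN D hD, eventually_ge_atTop (1 : ℝ)] with h e1 e2 h1
  intro a M hM n hn1 hn2
  have hbb1 := one_le_bb (X := X) m n
  have h103 : (1 : ℝ) ≤ h ^ 103 := one_le_pow₀ h1
  obtain ⟨B, hB⟩ : ∃ B : ℝ, B = 2 * C₀ * (bb X m n + h ^ 103) := ⟨_, rfl⟩
  rw [← hB]
  have hB0 : 0 < B := by rw [hB]; positivity
  have hk : ∀ k : ℕ, LaneOK X M n (bb X m n + h) (max (h ^ (D + 1) / 2 ^ k) B) := by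
    intro k
    induction k with
    | zero =>
      rw [pow_zero, div_one]
      exact (e2 a M hM n hn1 hn2).mono le_rfl le_rfl (le_max_left _ _)
    | succ k ih =>
      rcases le_or_gt (h ^ (D + 1) / 2 ^ k) B with h2 | h2
      · rw [max_eq_right h2] at ih
        exact ih.mono le_rfl le_rfl (le_max_right _ _)
      · rw [max_eq_left h2.le] at ih
        have h3 : h ^ (D + 1) / 2 ^ k = 2 * (h ^ (D + 1) / 2 ^ (k + 1)) := by
          rw [pow_succ (2 : ℝ) k]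
          ring
        rw [h3] at ih h2
        refine (e1 a M hM n hn1 hn2 (h ^ (D + 1) / 2 ^ (k + 1)) ?_ ?_ ih).mono le_rfl le_rfl (le_max_left _ _)
        · rw [hB] at h2
          linarith
        · have h4 : h ^ (D + 1) / 2 ^ (k + 1) ≤ h ^ (D + 1) := div_le_self (by positivity) (one_le_pow₀ (by norm_num))
          exact h4.trans (pow_le_pow_right₀ h1 (by omega))
  obtain ⟨k, hk2⟩ := pow_unbounded_of_one_lt (h ^ (D + 1) / B) (show (1 : ℝ) < 2 by norm_num)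
  have h5 := hk k
  have h6 : h ^ (D + 1) / 2 ^ k ≤ B := by
    rw [div_le_iff₀ (by positivity)]
    rw [div_lt_iff₀ hB0] at hk2
    linarith
  rwa [max_eq_right h6] at h5

/-- The mean overshoot and luck at the scale `n`. PROOF. `level_bound2` with the width of `width`, `ε = 1`, and `P_LkA_le`
with `Δ = 2 (bb + h) + C₀ (bb + h ^ 103) ≤ 4 C₀ (bb + h ^ 103)`. -/
theorem luck_bb (hd : 2 ≤ d) (hX : IsVtx X μ) (hmu : MuM μ m) (hN : HasN Q m) (D : ℕ) (hD : 1000 ≤ D)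
    (lam : ℝ) (hl : 1 ≤ lam) : ∃ C₁ : ℝ, 1 ≤ C₁ ∧ ∀ᶠ h : ℝ in atTop, ∀ (a : ℝ) (M : Mdl d a h),
      GoodN Q m (2 * D + 200) M → ∀ (n : ℕ) (Y R : ℝ) (y₀ : V d), h ^ (D - 1) ≤ n → (n : ℝ) ≤ h ^ D →
        h ^ 102 ≤ Y → Y ≤ h ^ (D + 2) → R ≤ lam * Y →
        M.P (fun τ => LkA X y₀ R (h ^ (D + 3)) (3 / 2 * n) Y τ)
          ≤ C₁ * (bb X m n + h ^ 103) / Y + Real.exp (-(h / 5)) := by
  obtain ⟨C₀, hC₀, hw⟩ := width hd hX hmu hN D hD
  obtain ⟨C₁, hC₁, hlk⟩ := P_LkA_le hX hmu hN D hD lam hl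
  refine ⟨C₁ * (4 * C₀), by nlinarith, ?_⟩
  filter_upwards [hw, hlk, Width_over hd hX hmu hN D hD 1 one_pos, bb_small hX hmu hN D hD 1 one_pos,
    eventually_ge_atTop (1 : ℝ), eventually_ge_atTop (2 * C₀)] with h e1 e2 e3 e4 h1 h2
  intro a M hM n Y R y₀ hn1 hn2 hY1 hY2 hR
  have hbb := e4 n hn1
  have hbb1 := one_le_bb (X := X) m n
  have h103 : (1 : ℝ) ≤ h ^ 103 := one_le_pow₀ h1
  have hh103 : h ≤ h ^ 103 := by
    calc h = h ^ 1 := (pow_one h).symm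
      _ ≤ h ^ 103 := pow_le_pow_right₀ h1 (by norm_num)
  have hY0 : 0 < Y := lt_of_lt_of_le (by positivity) hY1
  have hOK := e1 a M hM n hn1 hn2
  have hover := e3 a M hM n _ hn1 hn2 (by
    have k1 : h ^ 102 ≤ h ^ 103 := pow_le_pow_right₀ h1 (by norm_num)
    nlinarith) (by
    have k1 : h ^ 103 ≤ h ^ D := pow_le_pow_right₀ h1 (by omega)
    have k2 : bb X m n + h ^ 103 ≤ 2 * h ^ D := by linarith
    calc C₀ * (bb X m n + h ^ 103) ≤ C₀ * (2 * h ^ D) := mul_le_mul_of_nonneg_left k2 (by linarith)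
      _ = (2 * C₀) * h ^ D := by ring
      _ ≤ h * h ^ D := mul_le_mul_of_nonneg_right h2 (by positivity)
      _ = h ^ (D + 1) := (pow_succ' h D).symm
      _ ≤ h ^ (D + 3) := pow_le_pow_right₀ h1 (by omega)) hOK
  have h4 := e2 a M hM (n : ℝ) (2 * (bb X m n + h) + 1 * (C₀ * (bb X m n + h ^ 103))) Y R y₀ hn1 hn2
    (by positivity) hover hY1 hY2 hR
  refine h4.trans (add_le_add_left ?_ _)
  refine div_le_div_of_nonneg_right ?_ hY0.le
  have k3 : bb X m n + h ≤ C₀ * (bb X m n + h ^ 103) := by nlinarith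
  have k4 : 1 ≤ C₀ * (bb X m n + h ^ 103) := by nlinarith
  have k5 : C₁ * (2 * (bb X m n + h) + 1 * (C₀ * (bb X m n + h ^ 103)) + 1) ≤
      C₁ * (4 * (C₀ * (bb X m n + h ^ 103))) := mul_le_mul_of_nonneg_left (by linarith) (by linarith)
  linarith

end Pool.Agent.W_1b8d5d_nd

end

/-! ### GTilt2 -/

section

/-!
MP_1b8d5d_pr, [ND], section 5 (tilt), conclusion: the running maximum of the excess is at least `h ^ b`.
-/

set_option autoImplicit false

namespace Pool.Agent.W_1b8d5d_nd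

open Finset Filter Topology
open Pool.Agent.W_1b8d5d_h85 (Ex Pr Vr avg)

variable {d : ℕ} [NeZero d] {X : Vtx d} {μ : (Fin d → ℝ) → ℝ} {Q : Qn} {m : V d → ℝ}

/-- The number of edges of the lane and their range. -/
private theorem GTilt2_lane (hX : IsVtx X μ) (D w : ℕ) (hw : w + 2 ≤ D) :
    ∀ᶠ h : ℝ in atTop, ∀ (n : ℕ) (W : ℝ), h ^ (D - 1) ≤ n → (n : ℝ) ≤ h ^ D → 0 ≤ W → W ≤ h ^ w →
      ∃ S : Finset (Edge d), (∀ e, e ∈ S ↔ e ∈ X.lane 0 n W W) ∧ (S.card : ℝ) ≤ n * h ^ (w * d + 1) ∧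
        ∀ e ∈ S, nm e.1 ≤ h ^ (D + 1) := by
  have hC := one_le_C hX
  filter_upwards [eventually_ge_atTop (1 : ℝ), eventually_ge_atTop (3 * X.C),
    eventually_ge_atTop (d * (6 * (2 * X.C + 3) ^ d) : ℝ)] with h h1 h2 h3
  intro n W hn hn' hW0 hW
  have hn1 : (1 : ℝ) ≤ n := (one_le_pow₀ h1).trans hn
  have hWn : W ≤ n := hW.trans ((pow_le_pow_right₀ h1 (by omega)).trans hn)
  obtain ⟨S, hS, hc⟩ := lane_card hX (n : ℝ) W W (by linarith) hW0 hW0
  refine ⟨S, hS, hc.trans ?_, ?_⟩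
  · have e1 : (n : ℝ) + 2 * W + 3 ≤ 6 * n := by linarith
    have hhw : (1 : ℝ) ≤ h ^ w := one_le_pow₀ h1
    have e2 : 2 * (W + X.C) + 1 ≤ (2 * X.C + 3) * h ^ w := by nlinarith
    have e3 : (2 * (W + X.C) + 1) ^ d ≤ ((2 * X.C + 3) * h ^ w) ^ d :=
      pow_le_pow_left₀ (by linarith) e2 d
    have e4 : ((n : ℝ) + 2 * W + 3) * (2 * (W + X.C) + 1) ^ d ≤ (6 * n) * ((2 * X.C + 3) * h ^ w) ^ d :=
      mul_le_mul e1 e3 (by positivity) (by positivity)
    have e5 : (d : ℝ) * (((n : ℝ) + 2 * W + 3) * (2 * (W + X.C) + 1) ^ d) ≤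
        d * ((6 * n) * ((2 * X.C + 3) * h ^ w) ^ d) := mul_le_mul_of_nonneg_left e4 (Nat.cast_nonneg d)
    refine e5.trans ?_
    have e6 : (d : ℝ) * ((6 * n) * ((2 * X.C + 3) * h ^ w) ^ d) =
        (n * h ^ (w * d)) * (d * (6 * (2 * X.C + 3) ^ d)) := by
      rw [mul_pow, ← pow_mul]
      ring
    have e7 : (n : ℝ) * h ^ (w * d + 1) = (n * h ^ (w * d)) * h := by
      rw [pow_succ]
      ring
    rw [e6, e7]
    exact mul_le_mul_of_nonneg_left h3 (by positivity)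
  · intro e he
    have h4 := (hS e).1 he
    have h5 : X.lat (e.1 - 0) ≤ W ∧ -W ≤ X.gg (e.1 - 0) ∧ X.gg (e.1 - 0) ≤ n + W := h4.1
    rw [sub_zero] at h5
    obtain ⟨h6, h7, h8⟩ := h5
    have h9 : |X.gg e.1| ≤ n + W := abs_le.2 ⟨by linarith, h8⟩
    have h10 := nm_le hX e.1
    have h11 : X.C * (|X.gg e.1| + X.lat e.1) ≤ X.C * (3 * n) :=
      mul_le_mul_of_nonneg_left (by linarith) (by linarith)
    have h12 : 3 * X.C * n ≤ h * h ^ D := mul_le_mul h2 hn' (by linarith) (by linarith)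
    rw [pow_succ]
    linarith

/-- The high edges of a path in the lane. -/
private theorem GTilt2_high (hX : IsVtx X μ) (D q : ℕ) (hD : 1000 ≤ D) (hq : q ≤ D) :
    ∀ᶠ h : ℝ in atTop, ∀ (a : ℝ) (τ : Env d), 0 < a → Bd a h τ →
      ¬ (∃ (x y : V d) (w : (grid d).Walk x y), nm x ≤ h ^ (2 * D + 200) ∧ w.IsPath ∧
        h ^ 10 ≤ w.length ∧ (w.length : ℝ) ≤ h ^ (2 * D + 200) ∧ (nHigh Q.th τ w : ℝ) < w.length / 2) →
      ∀ (n : ℕ) (S : Finset (Edge d)) (A : Set (Edge d)) (s : ℝ), h ^ (D - 1) ≤ n → (n : ℝ) ≤ h ^ D →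
        (∀ e, e ∈ S ↔ e ∈ A) → (S.card : ℝ) ≤ n * h ^ q → Reach A τ 0 (X.rd n) s →
        ∃ H : Finset (Edge d), H ⊆ S ∧ (∀ e ∈ H, Q.th ≤ τ e) ∧ (n : ℝ) / (4 * X.C) ≤ H.card ∧
          ∀ τ' : Env d, Bd a h τ' → (∀ e, τ' e ≤ τ e) → T τ' 0 (X.rd n) ≤ s - ∑ e ∈ H, (τ e - τ' e) := by
  classical
  have hC := one_le_C hX
  filter_upwards [eventually_ge_atTop (1 : ℝ), eventually_ge_atTop (2 * X.C)] with h h1 h2
  intro a τ ha hτ hP n S A s hn hn' hS hc hr
  have hh0 : 0 < h := by linarith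
  obtain ⟨w, hw1, hw2, hw3⟩ := hr.exists_path ha hτ
  have hnd := wedges_nodup hw1
  have hsub : (wedges w).toFinset ⊆ S := by
    intro e he
    exact (hS e).2 (hw2 e (List.mem_toFinset.1 he))
  have hlen : (w.length : ℝ) ≤ S.card := by
    have h3 := Finset.card_le_card hsub
    rw [List.toFinset_card_of_nodup hnd, length_wedges] at h3
    exact_mod_cast h3
  have hlow : (n : ℝ) / (2 * X.C) ≤ w.length := by
    have h3 := nm_le_length w
    rw [sub_zero] at h3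
    have h4 := abs_gg_le hX (X.rd n)
    have h5 := gg_rd hX (n : ℝ)
    have h6 : (n : ℝ) - X.C ≤ X.gg (X.rd n) := by
      have := (abs_le.1 h5).1
      linarith
    have h7 := le_abs_self (X.gg (X.rd n))
    have h8 : X.C * nm (X.rd n) ≤ X.C * w.length := mul_le_mul_of_nonneg_left h3 (by linarith)
    have h9 : 2 * X.C ≤ n := by
      have : h ^ 1 ≤ h ^ (D - 1) := pow_le_pow_right₀ h1 (by omega)
      rw [pow_one] at this
      linarith
    rw [div_le_iff₀ (by linarith)]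
    linarith
  have h10 : h ^ 10 ≤ w.length := by
    refine le_trans ?_ hlow
    rw [le_div_iff₀ (by linarith)]
    have h3 : h ^ 10 * (2 * X.C) ≤ h ^ 10 * h := mul_le_mul_of_nonneg_left h2 (by positivity)
    rw [← pow_succ] at h3
    exact h3.trans ((pow_le_pow_right₀ h1 (by omega)).trans hn)
  have h11 : (w.length : ℝ) ≤ h ^ (2 * D + 200) := by
    refine hlen.trans (hc.trans ?_)
    have h3 : (n : ℝ) * h ^ q ≤ h ^ D * h ^ q := mul_le_mul_of_nonneg_right hn' (by positivity)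
    rw [← pow_add] at h3
    exact h3.trans (pow_le_pow_right₀ h1 (by omega))
  have h12 : (w.length : ℝ) / 2 ≤ nHigh Q.th τ w := by
    by_contra hne
    push Not at hne
    refine hP ⟨0, X.rd n, w, ?_, hw1, h10, h11, hne⟩
    rw [nm_zero]
    positivity
  refine ⟨(wedges w).toFinset.filter fun e => Q.th ≤ τ e, (Finset.filter_subset _ _).trans hsub, ?_, ?_, ?_⟩
  · intro e he
    exact (Finset.mem_filter.1 he).2
  · rw [nHigh_card Q.th τ hw1] at h12
    refine le_trans ?_ h12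
    have h13 : (n : ℝ) / (4 * X.C) = (n / (2 * X.C)) / 2 := by
      rw [div_div]
      congr 1
      ring
    rw [h13]
    linarith
  · intro τ' hτ' hle
    have h13 := T_drop ha hτ' hw1 hle ((wedges w).toFinset.filter fun e => Q.th ≤ τ e) (Finset.filter_subset _ _)
    linarith

omit [NeZero d] in
/-- The size of the tilt. -/
private theorem GTilt2_delta (X : Vtx d) (Q : Qn) (hC : 4 ≤ X.C) (D q s : ℕ) (hq : 2 * s + q + 6 ≤ D) :
    ∀ᶠ h : ℝ in atTop, ∀ n : ℕ, h ^ (D - 1) ≤ n →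
      ∃ δ : ℝ, 0 ≤ δ ∧ δ ≤ 1 / 2 ∧ ((6 : ℕ) : ℝ) * δ ≤ Q.pl ∧
        (∀ c : ℝ, c ≤ n * h ^ q → Q.K * ((6 : ℕ) : ℝ) ^ 2 * δ ^ 2 * c ≤ 1 / 2) ∧
        h ^ s ≤ (Q.th - Q.tl) * (δ * (n / (4 * X.C)) / 4) ∧ 80 ≤ δ * (n / (4 * X.C)) := by
  have hK := Q.hK
  have htt : 0 < Q.th - Q.tl := by linarith [Q.hlt]
  have hpl := Q.hpl
  filter_upwards [eventually_ge_atTop (80 : ℝ), eventually_ge_atTop (4 * X.C), eventually_ge_atTop (72 * Q.K),
    eventually_ge_atTop (6 / Q.pl), eventually_ge_atTop (4 / (Q.th - Q.tl))] with h h1 h2 h3 h4 h5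
  intro n hn
  have hh0 : 0 < h := by linarith
  have hh1 : 1 ≤ h := by linarith
  have hn1 : (1 : ℝ) ≤ n := (one_le_pow₀ hh1).trans hn
  set G : ℝ := n * h ^ (q + 1) with hG
  have hG0 : 0 < G := by positivity
  have hg0 : 0 < √G := Real.sqrt_pos.2 hG0
  have hgg : √G ^ 2 = G := Real.sq_sqrt hG0.le
  have hhg : h ≤ √G := by
    refine Real.le_sqrt_of_sq_le ?_
    have e1 : h ^ 2 ≤ h ^ (D - 1) := pow_le_pow_right₀ hh1 (by omega)
    have e2 : (n : ℝ) * 1 ≤ n * h ^ (q + 1) := mul_le_mul_of_nonneg_left (one_le_pow₀ hh1) (by linarith)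
    linarith
  have hgn : √G * h ^ (s + 2) ≤ n := by
    have e1 : (√G * h ^ (s + 2)) ^ 2 ≤ (n : ℝ) ^ 2 := by
      rw [mul_pow, hgg, ← pow_mul, hG]
      have e2 : h ^ (q + 1) * h ^ ((s + 2) * 2) ≤ n := by
        rw [← pow_add]
        exact (pow_le_pow_right₀ hh1 (by omega)).trans hn
      calc (n : ℝ) * h ^ (q + 1) * h ^ ((s + 2) * 2) = n * (h ^ (q + 1) * h ^ ((s + 2) * 2)) := by ring
        _ ≤ n * n := mul_le_mul_of_nonneg_left e2 (by linarith)
        _ = _ := by ring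
    exact le_of_sq_le_sq e1 (by linarith)
  have hd1 : h ^ (s + 1) ≤ 1 / √G * (n / (4 * X.C)) := by
    rw [div_mul_div_comm, one_mul, le_div_iff₀ (by positivity)]
    calc h ^ (s + 1) * (√G * (4 * X.C)) = (√G * h ^ (s + 1)) * (4 * X.C) := by ring
      _ ≤ (√G * h ^ (s + 1)) * h := mul_le_mul_of_nonneg_left h2 (by positivity)
      _ = √G * h ^ (s + 2) := by ring
      _ ≤ n := hgn
  have hdh : 1 / √G ≤ 1 / h := one_div_le_one_div_of_le hh0 hhg
  refine ⟨1 / √G, by positivity, ?_, ?_, ?_, ?_, ?_⟩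
  · refine hdh.trans ?_
    exact one_div_le_one_div_of_le (by norm_num) (by linarith)
  · have e1 : ((6 : ℕ) : ℝ) * (1 / √G) ≤ 6 * (1 / h) := by
      push_cast
      linarith
    refine e1.trans ?_
    rw [div_le_iff₀ hpl] at h4
    rw [mul_one_div, div_le_iff₀ hh0]
    linarith
  · intro c hc
    have e1 : (1 / √G) ^ 2 = 1 / G := by
      rw [div_pow, one_pow, hgg]
    rw [e1]
    push_cast
    have e2 : 1 / G * c ≤ 1 / h := by
      rw [one_div_mul_eq_div, div_le_div_iff₀ hG0 hh0]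
      calc c * h ≤ (n * h ^ q) * h := mul_le_mul_of_nonneg_right hc hh0.le
        _ = 1 * G := by
          rw [hG]
          ring
    have e3 : Q.K * 6 ^ 2 * (1 / G) * c = 36 * Q.K * (1 / G * c) := by ring
    rw [e3]
    have e4 : 36 * Q.K * (1 / G * c) ≤ 36 * Q.K * (1 / h) := mul_le_mul_of_nonneg_left e2 (by linarith)
    refine e4.trans ?_
    rw [mul_one_div, div_le_iff₀ hh0]
    linarith
  · have e1 : (Q.th - Q.tl) * h ^ (s + 1) ≤ (Q.th - Q.tl) * (1 / √G * (n / (4 * X.C))) :=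
      mul_le_mul_of_nonneg_left hd1 htt.le
    rw [div_le_iff₀ htt] at h5
    have e2 : 4 * h ^ s ≤ (h * (Q.th - Q.tl)) * h ^ s := mul_le_mul_of_nonneg_right h5 (by positivity)
    have e3 : (h * (Q.th - Q.tl)) * h ^ s = (Q.th - Q.tl) * h ^ (s + 1) := by ring
    linarith
  · refine le_trans ?_ hd1
    have e1 : h ^ 1 ≤ h ^ (s + 1) := pow_le_pow_right₀ hh1 (by omega)
    rw [pow_one] at e1
    linarith

private theorem GTilt2_exp : Real.exp (-5) ≤ 1 / 100 := by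
  rw [Real.exp_neg]
  have h1 : (2.7 : ℝ) ≤ Real.exp 1 := by
    have := Real.exp_one_gt_d9
    linarith
  have h2 : Real.exp 5 = Real.exp 1 ^ 5 := by
    rw [← Real.exp_nat_mul]
    norm_num
  have h3 : (100 : ℝ) ≤ Real.exp 5 := by
    rw [h2]
    calc (100 : ℝ) ≤ 2.7 ^ 5 := by norm_num
      _ ≤ _ := pow_le_pow_left₀ (by norm_num) h1 5
  rw [inv_eq_one_div]
  exact one_div_le_one_div_of_le (by norm_num) h3

private theorem GTilt2_exp_half : Real.exp (1 / 2) ≤ 2 := by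
  have h1 : Real.exp 1 ≤ 4 := by
    have := Real.exp_one_lt_d9
    linarith
  have h2 : Real.exp (1 / 2) ^ 2 = Real.exp 1 := by
    rw [← Real.exp_nat_mul]
    norm_num
  have h3 : Real.exp (1 / 2) ^ 2 ≤ 2 ^ 2 := by
    rw [h2]
    linarith
  exact le_of_sq_le_sq h3 (by norm_num)

/-- One tilt. If the lane of length `n` and width `W ≤ h ^ w` is good then the passage from `0` to `rd n` is faster than
`n + Z` by `h ^ s` with probability `≥ 1/16`, as long as `2 s + (w + 1) d + 8 ≤ D`.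
PROOF. `S` = the edges of the lane (`lane_card`): `S.card ≤ n * h ^ (w * d + 1)` for `h` large (`n ≥ h ^ (D - 1) ≥ W`); they are
in the range (`nm e.1 ≤ C (n + 2 W) ≤ h ^ (2 D + 300)`). `δ = 1 / √(n * h ^ (w * d + 2))`, `k = 6`:
`Q.K * 36 * δ ^ 2 * S.card ≤ 36 Q.K / h`, so the second term of `tilt_transfer` is `≤ 1/32 * exp (36 Q.K / h) ≤ 1/16`.
`E ω`: the lane event and not the event of `peierls`. For `ω` in `E` take a path `w` (`Reach.exists_path`) inside the lane of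
cost `≤ n + Z`; its length is at least `nm (rd n) ≥ (n - C) / C ≥ n / (2 C)` and at most `S.card ≤ h ^ (2 D + 200)`
(`wedges_nodup`), so it has at least `n₀ = n / (4 C)` high edges: `Hs ω` = the high edges (`nHigh_card`).
`Pr E ≥ 1/4 - exp (-h)`. `δ n₀ = √n / (4 C h ^ (w d / 2 + 1)) ≥ h ^ ((D - 1 - w d - 2) / 2) / (4 C) ≥ h ^ (s + 1)`, so the last
term is `≤ 1/100`, and by `T_drop` in the environment `ω'` `T 0 (rd n) ≤ n + Z - (th - tl) δ n₀ / 4 ≤ n + Z - h ^ s`.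
`Pr A ≥ (1/4 - exp (-h) - 1/16 - 1/100) / 2 ≥ 1/16`. -/
theorem tilt_fast (hX : IsVtx X μ) (D w s : ℕ) (hD : 1000 ≤ D) (hs : 2 * s + (w + 1) * d + 8 ≤ D) (hw : w + 2 ≤ D) :
    ∀ᶠ h : ℝ in atTop, ∀ (a : ℝ) (M : Mdl d a h), GoodN Q m (2 * D + 200) M → ∀ (n : ℕ) (Z W : ℝ),
      h ^ (D - 1) ≤ n → (n : ℝ) ≤ h ^ D → 0 ≤ W → W ≤ h ^ w →
        1 / 4 ≤ M.P (fun τ => Reach (X.lane 0 n W W) τ 0 (X.rd n) (n + Z)) →
        1 / 16 ≤ M.P (fun τ => T τ 0 (X.rd n) ≤ n + Z - h ^ s) := by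
  classical
  have hC := one_le_C hX
  have hwd : 2 * s + (w * d + 1) + 6 ≤ D := by
    have h1 : (w + 1) * d = w * d + d := by ring
    omega
  filter_upwards [eventually_ge_atTop (5 : ℝ), GTilt2_lane hX D w hw,
    GTilt2_high (Q := Q) hX D (w * d + 1) hD (by omega), GTilt2_delta X Q hC D (w * d + 1) s hwd] with h h1 hl hH hδ
  intro a M hM n Z W hn hn' hW0 hW hR
  have hh1 : 1 ≤ h := by linarith
  obtain ⟨S, hS1, hS2, hS3⟩ := hl n W hn hn' hW0 hW
  obtain ⟨δ, d1, d2, d3, d4, d5, d6⟩ := hδ n hn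
  set Pe : Env d → Prop := fun τ => ∃ (x y : V d) (w : (grid d).Walk x y), nm x ≤ h ^ (2 * D + 200) ∧ w.IsPath ∧
      h ^ 10 ≤ w.length ∧ (w.length : ℝ) ≤ h ^ (2 * D + 200) ∧ (nHigh Q.th τ w : ℝ) < w.length / 2 with hPe
  have hE : 1 / 4 - Real.exp (-h) ≤ M.P (fun τ => Reach (X.lane 0 n W W) τ 0 (X.rd n) (n + Z) ∧ ¬ Pe τ) := by
    have e1 := M.P_and_ge (fun τ => Reach (X.lane 0 n W W) τ 0 (X.rd n) (n + Z)) (fun τ => ¬ Pe τ)
    have e2 : M.P (fun τ => ¬ ¬ Pe τ) ≤ Real.exp (-h) := by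
      refine le_trans (M.P_mono fun τ _ hp => not_not.1 hp) hM.peierls
    linarith
  have hch : ∀ ω : M.Ω, ∃ H : Finset (Edge d),
      (Reach (X.lane 0 n W W) (M.env ω) 0 (X.rd n) (n + Z) ∧ ¬ Pe (M.env ω)) →
        H ⊆ S ∧ (∀ e ∈ H, Q.th ≤ M.env ω e) ∧ (n : ℝ) / (4 * X.C) ≤ H.card ∧
          ∀ τ' : Env d, Bd a h τ' → (∀ e, τ' e ≤ M.env ω e) →
            T τ' 0 (X.rd n) ≤ (n + Z) - ∑ e ∈ H, (M.env ω e - τ' e) := by
    intro ω
    by_cases hω : Reach (X.lane 0 n W W) (M.env ω) 0 (X.rd n) (n + Z) ∧ ¬ Pe (M.env ω)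
    · obtain ⟨H, hH1⟩ := hH a (M.env ω) hM.apos (M.bd ω) hω.2 n S _ _ hn hn' hS1 hS2 hω.1
      exact ⟨H, fun _ => hH1⟩
    · exact ⟨∅, fun h => absurd h hω⟩
  choose Hs hHs using hch
  have hC3 : ∀ e ∈ S, nm e.1 ≤ h ^ (2 * D + 200 + 100) :=
    fun e he => (hS3 e he).trans (pow_le_pow_right₀ hh1 (by omega))
  have key := tilt_transfer hM S δ hC3 d1 d2 6 d3
    (fun ω => Reach (X.lane 0 n W W) (M.env ω) 0 (X.rd n) (n + Z) ∧ ¬ Pe (M.env ω))
    (fun ω => T (M.env ω) 0 (X.rd n) ≤ n + Z - h ^ s) Hs (n / (4 * X.C))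
    (fun ω hω => ⟨(hHs ω hω).1, (hHs ω hω).2.1, (hHs ω hω).2.2.1⟩)
    (fun ω ω' hω hle hsum => by
      have e1 := (hHs ω hω).2.2.2 (M.env ω') (M.bd ω') hle
      change T (M.env ω') 0 (X.rd n) ≤ n + Z - h ^ s
      linarith)
  have hE' : 1 / 4 - Real.exp (-h) ≤
      Pr fun ω => Reach (X.lane 0 n W W) (M.env ω) 0 (X.rd n) (n + Z) ∧ ¬ Pe (M.env ω) := hE
  have hA' : M.P (fun τ => T τ 0 (X.rd n) ≤ n + Z - h ^ s) =
      Pr fun ω => T (M.env ω) 0 (X.rd n) ≤ n + Z - h ^ s := rfl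
  rw [hA']
  have t1 : Real.exp (-h) ≤ 1 / 100 := by
    refine le_trans (Real.exp_le_exp.2 ?_) GTilt2_exp
    linarith
  have t2 : Real.exp (Q.K * ((6 : ℕ) : ℝ) ^ 2 * δ ^ 2 * S.card) ≤ 2 := by
    refine le_trans (Real.exp_le_exp.2 ?_) GTilt2_exp_half
    exact d4 _ hS2
  have t3 : Real.exp (-(δ * (n / (4 * X.C)) / 16)) ≤ 1 / 100 := by
    refine le_trans (Real.exp_le_exp.2 ?_) GTilt2_exp
    linarith
  have t4 : 2 * (1 / 2 : ℝ) ^ 6 * Real.exp (Q.K * ((6 : ℕ) : ℝ) ^ 2 * δ ^ 2 * S.card) ≤ 1 / 16 := by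
    have e1 : 2 * (1 / 2 : ℝ) ^ 6 = 1 / 32 := by norm_num
    rw [e1]
    calc (1 / 32 : ℝ) * Real.exp (Q.K * ((6 : ℕ) : ℝ) ^ 2 * δ ^ 2 * S.card) ≤ 1 / 32 * 2 :=
          mul_le_mul_of_nonneg_left t2 (by norm_num)
      _ = 1 / 16 := by norm_num
  have key2 := key.trans (add_le_add (add_le_add_right t4 _) t3)
  have key3 := hE'.trans key2
  linarith

/-- The running maximum is large. PROOF. Suppose `bb < h ^ b`. `width`: the lanes of width `W = C₀ (bb + h ^ 103) ≤ h ^ (b + 1)`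
are good with `Z = bb + h ≤ 2 h ^ b` (so `LaneOK` for `l = n`). `tilt_fast` with `w = b + 1`, `s = b + 2`:
`2 (b + 2) + (b + 2) d + 8 ≤ D` by `hb`. So with probability `≥ 1/16`
`T 0 (rd n) ≤ n + 2 h ^ b - h ^ (b + 2) ≤ ff i (rd n) - h ^ (b + 1)` (any `i`; `ff_rd`): this is `LkP X i 0 0 _ _ (h ^ (b + 1))`
(`x = 0`, `q = rd n`; `ff i (rd n) ≤ n + C ≤ 3/2 n`, `nm (rd n) ≤ h ^ (D + 3)`), contained in `LkA`, whose probability is at most
`C₁ (bb + h ^ 103) / h ^ (b + 1) + exp (-(h/5)) ≤ 2 C₁ / h + exp (-(h/5)) < 1/16` (`luck_bb`, `lam = 1`, `Y = h ^ (b + 1)`).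
`X.N` is positive because of `spread`. -/
theorem bb_large (hd : 2 ≤ d) (hX : IsVtx X μ) (hmu : MuM μ m) (hN : HasN Q m) (D : ℕ) (hD : 1000 ≤ D) (b : ℕ)
    (hb0 : 103 ≤ b) (hb : (b + 4) * (d + 2) ≤ D) :
    ∀ᶠ h : ℝ in atTop, ∀ (a : ℝ) (M : Mdl d a h), GoodN Q m (2 * D + 200) M →
      ∀ n : ℕ, h ^ (D - 1) ≤ n → (n : ℝ) ≤ h ^ D → h ^ b ≤ bb X m n := by
  have hC := one_le_C hX
  have hbd : (b + 4) * (d + 2) = b * d + 2 * b + 4 * d + 8 := by ring
  have hbb : 2 * (b + 2) + (b + 1 + 1) * d + 8 ≤ D := by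
    have h1 : (b + 1 + 1) * d = b * d + 2 * d := by ring
    omega
  have hb3 : b + 1 + 2 ≤ D := by omega
  obtain ⟨C₀, hC₀, hwid⟩ := width hd hX hmu hN D hD
  obtain ⟨C₁, hC₁, hluck⟩ := luck_bb hd hX hmu hN D hD 1 le_rfl
  obtain ⟨i, -⟩ := hX.spread 0
  filter_upwards [eventually_ge_atTop (25 : ℝ), eventually_ge_atTop (2 * X.C), eventually_ge_atTop (2 * C₀),
    eventually_ge_atTop (128 * C₁), hwid, hluck,
    tilt_fast (Q := Q) (m := m) hX D (b + 1) (b + 2) hD hbb hb3] with h h1 h2 h3 h4 hw hl ht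
  intro a M hM n hn hn'
  by_contra hne
  push Not at hne
  have hh0 : 0 < h := by linarith
  have hh1 : 1 ≤ h := by linarith
  have hbp : 1 ≤ bb X m n := one_le_bb m n
  have p1 : h ^ 103 ≤ h ^ b := pow_le_pow_right₀ hh1 hb0
  have p2 : h ≤ h ^ b := by
    have := pow_le_pow_right₀ hh1 (show 1 ≤ b by omega)
    rwa [pow_one] at this
  have p3 : h ^ (b + 1) = h ^ b * h := pow_succ h b
  have p4 : h ^ (b + 2) = h ^ b * h * h := by rw [pow_succ, pow_succ]
  have p5 : 0 < h ^ b := by positivity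
  have hW0 : 0 ≤ C₀ * (bb X m n + h ^ 103) := by positivity
  have hW : C₀ * (bb X m n + h ^ 103) ≤ h ^ (b + 1) := by
    calc C₀ * (bb X m n + h ^ 103) ≤ C₀ * (2 * h ^ b) := mul_le_mul_of_nonneg_left (by linarith) (by linarith)
      _ = h ^ b * (2 * C₀) := by ring
      _ ≤ h ^ b * h := mul_le_mul_of_nonneg_left h3 p5.le
      _ = _ := p3.symm
  have hlane := hw a M hM n hn hn' n le_rfl
  have hfast := ht a M hM n (bb X m n + h) (C₀ * (bb X m n + h ^ 103)) hn hn' hW0 hW hlane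
  have hY1 : h ^ 102 ≤ h ^ (b + 1) := pow_le_pow_right₀ hh1 (by omega)
  have hY2 : h ^ (b + 1) ≤ h ^ (D + 2) := pow_le_pow_right₀ hh1 (by omega)
  have hlk := hl a M hM n (h ^ (b + 1)) 0 0 hn hn' hY1 hY2 (by positivity)
  have hn2 : 2 * X.C ≤ n := by
    have : h ^ 1 ≤ h ^ (D - 1) := pow_le_pow_right₀ hh1 (by omega)
    rw [pow_one] at this
    linarith
  have hsub : M.P (fun τ => T τ 0 (X.rd n) ≤ n + (bb X m n + h) - h ^ (b + 2)) ≤
      M.P (fun τ => LkA X 0 0 (h ^ (D + 3)) (3 / 2 * n) (h ^ (b + 1)) τ) := by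
    refine M.P_mono fun τ _ hτ => ?_
    have f1 := abs_le.1 (ff_rd hX i (n : ℝ))
    refine ⟨i, Or.inl ⟨0, X.rd n, ?_, ?_, ?_, ?_⟩⟩
    · rw [sub_zero, nm_zero]
    · rw [sub_zero]
      refine (nm_rd hX (n : ℝ)).trans ?_
      rw [abs_of_nonneg (Nat.cast_nonneg n)]
      have g1 : X.C * ((n : ℝ) + 1) ≤ 2 * X.C * n := by nlinarith
      have g2 : 2 * X.C * n ≤ h * h ^ D := mul_le_mul h2 hn' (Nat.cast_nonneg n) hh0.le
      have g3 : h * h ^ D = h ^ (D + 1) := by ring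
      have g4 : h ^ (D + 1) ≤ h ^ (D + 3) := pow_le_pow_right₀ hh1 (by omega)
      linarith
    · rw [sub_zero]
      linarith
    · rw [sub_zero]
      have g1 : 4 * (h ^ b * h) ≤ h * (h ^ b * h) := mul_le_mul_of_nonneg_right (by linarith) (by positivity)
      have g2 : h * (h ^ b * h) = h ^ (b + 2) := by rw [p4]; ring
      have g3 : h ^ b * 1 ≤ h ^ b * h := mul_le_mul_of_nonneg_left hh1 p5.le
      have g4 : X.C ≤ h := by linarith
      rw [p3]
      linarith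
  have hfin1 : C₁ * (bb X m n + h ^ 103) / h ^ (b + 1) ≤ 1 / 64 := by
    rw [div_le_iff₀ (by positivity), p3]
    calc C₁ * (bb X m n + h ^ 103) ≤ C₁ * (2 * h ^ b) := mul_le_mul_of_nonneg_left (by linarith) (by linarith)
      _ = 1 / 64 * (h ^ b * (128 * C₁)) := by ring
      _ ≤ 1 / 64 * (h ^ b * h) := by
        refine mul_le_mul_of_nonneg_left (mul_le_mul_of_nonneg_left h4 p5.le) (by norm_num)
  have hfin2 : Real.exp (-(h / 5)) ≤ 1 / 100 := by
    refine le_trans (Real.exp_le_exp.2 ?_) GTilt2_exp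
    linarith
  linarith

/-- The width of the lanes, final form. PROOF. `width`, `bb_large` (`b = 104`): `h ^ 103 ≤ bb`, `h ≤ bb`; `LaneOK.mono`. -/
theorem width_bb (hd : 2 ≤ d) (hX : IsVtx X μ) (hmu : MuM μ m) (hN : HasN Q m) (D : ℕ) (hD : 1000 * (d + 2) ≤ D) :
    ∃ C₀ : ℝ, 1 ≤ C₀ ∧ ∀ᶠ h : ℝ in atTop, ∀ (a : ℝ) (M : Mdl d a h), GoodN Q m (2 * D + 200) M →
      ∀ n : ℕ, h ^ (D - 1) ≤ n → (n : ℝ) ≤ h ^ D → LaneOK X M n (C₀ * bb X m n) (C₀ * bb X m n) := by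
  have hD' : 1000 ≤ D := by omega
  obtain ⟨C₀, hC₀, hwid⟩ := width hd hX hmu hN D hD'
  refine ⟨2 * C₀, by linarith, ?_⟩
  filter_upwards [eventually_ge_atTop (1 : ℝ), hwid,
    bb_large hd hX hmu hN D hD' 104 (by norm_num) (by omega)] with h h1 hw hb
  intro a M hM n hn hn'
  have b1 := hb a M hM n hn hn'
  have b2 : h ^ 103 ≤ h ^ 104 := pow_le_pow_right₀ h1 (by norm_num)
  have b3 : h ≤ h ^ 104 := by
    have := pow_le_pow_right₀ h1 (show 1 ≤ 104 by norm_num)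
    rwa [pow_one] at this
  have b4 : 1 ≤ bb X m n := one_le_bb m n
  refine (hw a M hM n hn hn').mono le_rfl ?_ ?_
  · nlinarith
  · calc C₀ * (bb X m n + h ^ 103) ≤ C₀ * (2 * bb X m n) := mul_le_mul_of_nonneg_left (by linarith) (by linarith)
      _ = _ := by ring

end Pool.Agent.W_1b8d5d_nd

end

/-! ### Thin0 -/

section

/-!
MP_1b8d5d_pr, [ND], section 7 (thin lower tail): the events, the windows.
-/

set_option autoImplicit false

namespace Pool.Agent.W_1b8d5d_nd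

open Finset Filter Topology
open Pool.Agent.W_1b8d5d_h85 (Ex Pr Vr avg)

variable {d : ℕ} [NeZero d] {X : Vtx d} {μ : (Fin d → ℝ) → ℝ} {Q : Qn} {m : V d → ℝ}

/-- The event of the thin lower tail: a passage between the windows faster than `f i` by `Y`. -/
def ThE (X : Vtx d) (i : Fin X.N) (n : ℕ) (R Y : ℝ) (τ : Env d) : Prop :=
  ∃ x ∈ X.Dw 0 R, ∃ y ∈ X.Dw (X.rd n) R, T τ x y ≤ X.ff i (y - x) - Y

/-- The localised event. -/
def ThL (X : Vtx d) (i : Fin X.N) (n : ℕ) (R Y S : ℝ) (τ : Env d) : Prop :=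
  ∃ x ∈ X.Dw 0 R, ∃ y ∈ X.Dw (X.rd n) R, Reach (X.lane 0 n S S) τ x y (X.ff i (y - x) - Y)

/-- The windows. PROOF. `mem_Dw_sh`, `nm_of_mem_Dw`, `gg_rd`, `lat_rd`, `abs_ff_sub_gg`. -/
theorem win_facts (hX : IsVtx X μ) (i : Fin X.N) {n : ℕ} {R : ℝ} (hR : 0 ≤ R) {x y : V d} (hx : x ∈ X.Dw 0 R)
    (hy : y ∈ X.Dw (X.rd n) R) :
    nm x ≤ X.C * (4 * X.C + R) ∧ nm (y - X.rd n) ≤ X.C * (4 * X.C + R) ∧
      |X.ff i x| ≤ 4 * X.C + X.C * R ∧ |X.ff i y - n| ≤ 5 * X.C + X.C * R ∧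
      X.ff i (y - x) ≤ n + (9 * X.C + X.C ^ 2 + 2 * X.C * R) := by
  have hC := one_le_C hX
  have hff : ∀ z : V d, z ∈ X.Dw 0 R → |X.ff i z| ≤ 4 * X.C + X.C * R := by
    intro z hz
    obtain ⟨h1, h2⟩ := hz
    rw [sub_zero] at h1 h2
    have h3 := abs_ff_sub_gg hX i z
    have h4 : X.C * X.lat z ≤ X.C * R := mul_le_mul_of_nonneg_left h2 (by linarith)
    rw [abs_le] at h1 h3 ⊢
    constructor <;> linarith [h1.1, h1.2, h3.1, h3.2]
  have hy' : y - X.rd n ∈ X.Dw 0 R := by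
    obtain ⟨h1, h2⟩ := hy
    refine ⟨?_, ?_⟩
    · rw [sub_zero]; exact h1
    · rw [sub_zero]; exact h2
  have e1 := nm_of_mem_Dw hX hx
  have e2 := nm_of_mem_Dw hX hy'
  have e3 := hff x hx
  have e4 := hff _ hy'
  have e5 := ff_rd hX i (n : ℝ)
  have e6 : |X.ff i y - n| ≤ 5 * X.C + X.C * R := by
    rw [Vtx.ff_sub] at e4
    rw [abs_le] at e4 e5 ⊢
    constructor <;> linarith [e4.1, e4.2, e5.1, e5.2]
  refine ⟨e1, e2, e3, e6, ?_⟩
  rw [Vtx.ff_sub]
  rw [abs_le] at e3 e6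
  have h7 : 0 ≤ X.C ^ 2 := sq_nonneg _
  linarith [e3.1, e6.2]

end Pool.Agent.W_1b8d5d_nd

end

/-! ### Thin1 -/

section

/-!
MP_1b8d5d_pr, [ND], section 7 (thin lower tail): localisation.
-/

set_option autoImplicit false

namespace Pool.Agent.W_1b8d5d_nd

open Finset Filter Topology
open Pool.Agent.W_1b8d5d_h85 (Ex Pr Vr avg)

variable {d : ℕ} [NeZero d] {X : Vtx d} {μ : (Fin d → ℝ) → ℝ} {Q : Qn} {m : V d → ℝ}

private theorem Thin1_exp (p₀ : ℝ) (hp : 0 < p₀) :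
    ∀ᶠ h : ℝ in atTop, Real.exp (-(h / 5)) ≤ p₀ / 4 ∧ Real.exp (-(h / 2)) ≤ p₀ / 4 := by
  have h1 : Tendsto (fun h : ℝ => Real.exp (-(h / 5))) atTop (𝓝 0) :=
    Real.tendsto_exp_neg_atTop_nhds_zero.comp (tendsto_id.atTop_div_const (by norm_num))
  have h2 : Tendsto (fun h : ℝ => Real.exp (-(h / 2))) atTop (𝓝 0) :=
    Real.tendsto_exp_neg_atTop_nhds_zero.comp (tendsto_id.atTop_div_const (by norm_num))
  have h3 : (0 : ℝ) < p₀ / 4 := by positivity
  exact (h1.eventually_le_const h3).and (h2.eventually_le_const h3)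

/-- Leaving the tube. PROOF. On `LT μ (D + 10)` and `ThE`: `T x y ≤ ff i (y - x) - Y ≤ n + Z` with
`Z = 9 C + C ^ 2 + 2 C R` (`win_facts`). If the lane event with the cost `T x y` holds then `ThL` (`Reach.mono`); otherwise
`tube_or_luck` with `l = n` and the radius `C * (4 C + R)`. -/
theorem thE_or (hs : ∀ x, μ (-x) = μ x) (hX : IsVtx X μ) (D : ℕ) (hD : 1000 ≤ D) :
    ∀ᶠ h : ℝ in atTop, ∀ (a : ℝ) (τ : Env d), 0 < a → a ≤ h → Bd a h τ → LT μ (D + 10) h τ →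
      ∀ (i : Fin X.N) (n : ℕ) (R Y S : ℝ), h ^ (D - 1) ≤ n → (n : ℝ) ≤ h ^ D → 0 ≤ R → 1000 * X.C ^ 3 * (R + 1) ≤ n →
        0 ≤ Y → 30 * X.C ^ 4 * (R + 1) ≤ S → ThE X i n R Y τ →
        ThL X i n R Y S τ ∨ LkA X (X.rd n) (X.C * (4 * X.C + R)) (h ^ (D + 3)) (3 / 2 * n) (S / (2 * X.C)) τ := by
  have hC := one_le_C hX
  filter_upwards [tube_or_luck hs hX D hD] with h htube
  intro a τ ha hah hτ hL i n R Y S hn1 hn2 hR hRn hY hS hE
  obtain ⟨x, hx, y, hy, hT⟩ := hE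
  obtain ⟨w1, w2, -, -, w5⟩ := win_facts hX i hR hx hy
  by_cases hr : Reach (X.lane 0 n S S) τ x y (T τ x y)
  · exact Or.inl ⟨x, hx, y, hy, hr.mono (Set.Subset.refl _) hT⟩
  right
  have hC0 : 0 < X.C := by linarith
  have c2 : 16 ≤ X.C ^ 2 := by nlinarith
  have c3 : X.C * 16 ≤ X.C ^ 3 := by nlinarith
  have c3' : X.C ^ 2 * 4 ≤ X.C ^ 3 := by nlinarith
  have c3R : X.C * R * 16 ≤ X.C ^ 3 * R := by nlinarith
  have c3R' : X.C ^ 2 * R * 4 ≤ X.C ^ 3 * R := by nlinarith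
  have hCR : 0 ≤ X.C * R := mul_nonneg hC0.le hR
  have hC3R : 0 ≤ X.C ^ 3 * R := by positivity
  have hC3 : 0 ≤ X.C ^ 3 := by positivity
  have hS0 : 0 ≤ S := le_trans (by positivity) hS
  have hSC : 30 * X.C ^ 3 * (R + 1) ≤ S / X.C := by
    rw [le_div_iff₀ hC0]
    calc 30 * X.C ^ 3 * (R + 1) * X.C = 30 * X.C ^ 4 * (R + 1) := by ring
      _ ≤ S := hS
  refine htube a τ ha hah hτ hL n n (X.C * (4 * X.C + R)) S (9 * X.C + X.C ^ 2 + 2 * X.C * R) x y hn1 hn2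
    (Nat.cast_nonneg n) le_rfl (by positivity) ?_ ?_ w1 w2 ?_ hS0 ?_ hr
  · nlinarith
  · rw [abs_le]
    constructor
    · have : 0 ≤ (n : ℝ) := Nat.cast_nonneg n
      nlinarith
    · nlinarith
  · linarith
  · nlinarith

/-- Localisation in probability. PROOF. `κ = 30 C ^ 4 (K + 1) + 16 C C₁ / p₀`, `S = κ bb`; `LT_prob`, and `luck_bb` with
`Y = S / (2 C) = κ bb / (2 C)` (`≥ h ^ 102`, because `bb ≥ h ^ 104`), radius `C (4 C + K bb) ≤ lam Y`, `lam = 1`: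
`C₁ (bb + h ^ 103) / Y ≤ 4 C C₁ / κ ≤ p₀ / 4`. (`bb_large` with `b = 104`, `bb_small`.) -/
theorem thin_loc (hd : 2 ≤ d) (hX : IsVtx X μ) (hmu : MuM μ m) (hN : HasN Q m) (D : ℕ) (hD : 1000 * (d + 2) ≤ D)
    (K p₀ : ℝ) (hK : 1 ≤ K) (hp : 0 < p₀) : ∃ κ : ℝ, 1 ≤ κ ∧ ∀ᶠ h : ℝ in atTop, ∀ (a : ℝ) (M : Mdl d a h),
      GoodN Q m (2 * D + 200) M → ∀ n : ℕ, h ^ (D - 1) ≤ n → (n : ℝ) ≤ h ^ D → ∀ (i : Fin X.N) (Y : ℝ), 0 ≤ Y →
        M.P (fun τ => ThE X i n (K * bb X m n) Y τ)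
          ≤ M.P (fun τ => ThL X i n (K * bb X m n) Y (κ * bb X m n) τ) + p₀ := by
  have hD0 : 1000 ≤ D := by
    refine le_trans ?_ hD
    exact Nat.le_mul_of_pos_right _ (by omega)
  have hs : ∀ x, μ (-x) = μ x := mu_neg hmu hN
  have hC := one_le_C hX
  have hC0 : 0 < X.C := by linarith
  obtain ⟨C₁, hC₁, hluck⟩ := luck_bb hd hX hmu hN D hD0 1 le_rfl
  obtain ⟨κ, hκ⟩ : ∃ κ : ℝ, κ = 30 * X.C ^ 4 * (K + 1) + 16 * X.C * C₁ / p₀ := ⟨_, rfl⟩
  have hC₁0 : 0 < C₁ := by linarith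
  have hκ1 : 16 * X.C * C₁ / p₀ ≤ κ := by
    rw [hκ]
    have : 0 ≤ 30 * X.C ^ 4 * (K + 1) := by positivity
    linarith
  have hκ2 : 30 * X.C ^ 4 * (K + 1) ≤ κ := by
    rw [hκ]
    have : 0 ≤ 16 * X.C * C₁ / p₀ := by positivity
    linarith
  have c4 : X.C ^ 2 * 16 ≤ X.C ^ 4 := by nlinarith [sq_nonneg (X.C ^ 2 - 16)]
  have c3 : X.C ^ 3 * 4 ≤ X.C ^ 4 := by
    have : 0 < X.C ^ 3 := by positivity
    nlinarith
  have c2 : X.C * 4 ≤ X.C ^ 2 := by nlinarith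
  have hκK : X.C ^ 4 * K + X.C ^ 4 ≤ κ := by nlinarith
  have hκC : 2 * X.C ≤ κ := by
    have : 0 ≤ X.C ^ 4 * K := by positivity
    nlinarith
  have hκ0 : 0 < κ := by linarith
  refine ⟨κ, by linarith, ?_⟩
  filter_upwards [hluck, thE_or hs hX D hD0, LT_prob hmu hN (D + 10) (by omega),
    bb_large hd hX hmu hN D hD0 104 (by norm_num) (by nlinarith),
    bb_small hX hmu hN D hD0 (X.C / κ) (by positivity),
    bb_small hX hmu hN D hD0 (1 / (1000 * X.C ^ 3 * (K + 1))) (by positivity),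
    eventually_ge_atTop 1, Thin1_exp p₀ hp] with h hlk hthe hLT hbl hbs1 hbs2 h1 hexp
  intro a M hM n hn1 hn2 i Y hY
  have ha := hM.apos
  have hb1 := hbl a M hM n hn1 hn2
  have hb2 := hbs1 n hn1
  have hb3 := hbs2 n hn1
  obtain ⟨b, hb⟩ : ∃ b : ℝ, b = bb X m n := ⟨_, rfl⟩
  have hb0 : 1 ≤ b := by rw [hb]; exact one_le_bb m n
  rw [← hb] at hb1 hb2 hb3 ⊢
  have e103 : h ^ 103 ≤ b := (pow_le_pow_right₀ h1 (by norm_num)).trans hb1
  have e102 : h ^ 102 ≤ b := (pow_le_pow_right₀ h1 (by norm_num)).trans hb1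
  have hnD : (n : ℝ) ≤ h ^ (D + 2) := hn2.trans (pow_le_pow_right₀ h1 (by omega))
  have hYle : b ≤ κ * b / (2 * X.C) := by
    rw [le_div_iff₀ (by positivity)]
    nlinarith
  have hYn : κ * b / (2 * X.C) ≤ n := by
    rw [div_le_iff₀ (by positivity)]
    have e : κ * b ≤ κ * (X.C / κ * n) := mul_le_mul_of_nonneg_left hb2 hκ0.le
    have e' : κ * (X.C / κ * n) = X.C * n := by field_simp
    have hn0 : 0 ≤ (n : ℝ) := Nat.cast_nonneg n
    nlinarith
  have hKb : 0 ≤ K * b := by positivity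
  have hRlam : X.C * (4 * X.C + K * b) ≤ 1 * (κ * b / (2 * X.C)) := by
    rw [one_mul, le_div_iff₀ (by positivity)]
    have e1 : X.C * (4 * X.C + K * b) * (2 * X.C) = 8 * X.C ^ 3 + 2 * X.C ^ 2 * K * b := by ring
    rw [e1]
    have e2 : (X.C ^ 4 * K + X.C ^ 4) * b ≤ κ * b := mul_le_mul_of_nonneg_right hκK (by linarith)
    have e3 : 8 * X.C ^ 3 ≤ 2 * X.C ^ 4 * b := by
      have : 0 < X.C ^ 4 := by positivity
      nlinarith
    have e4 : 2 * X.C ^ 2 * K * b ≤ X.C ^ 4 * K * b := by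
      have : 0 ≤ K * b := hKb
      nlinarith
    nlinarith
  have hn3 : 1000 * X.C ^ 3 * (K * b + 1) ≤ n := by
    have e1 : 1000 * X.C ^ 3 * (K * b + 1) ≤ 1000 * X.C ^ 3 * (K + 1) * b := by
      have : 0 < X.C ^ 3 := by positivity
      nlinarith
    have e2 : 1000 * X.C ^ 3 * (K + 1) * b ≤
        1000 * X.C ^ 3 * (K + 1) * (1 / (1000 * X.C ^ 3 * (K + 1)) * n) :=
      mul_le_mul_of_nonneg_left hb3 (by positivity)
    have e3 : 1000 * X.C ^ 3 * (K + 1) * (1 / (1000 * X.C ^ 3 * (K + 1)) * n) = n := by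
      field_simp
    linarith
  have hS : 30 * X.C ^ 4 * (K * b + 1) ≤ κ * b := by
    have e1 : 30 * X.C ^ 4 * (K * b + 1) ≤ 30 * X.C ^ 4 * (K + 1) * b := by
      have : 0 < X.C ^ 4 := by positivity
      nlinarith
    exact e1.trans (mul_le_mul_of_nonneg_right hκ2 (by linarith))
  have hP1 := hlk a M hM n (κ * b / (2 * X.C)) (X.C * (4 * X.C + K * b)) (X.rd n) hn1 hn2
    (e102.trans hYle) (hYn.trans hnD) hRlam
  rw [← hb] at hP1
  have hP2 := hLT a M (hM.mono h1 (by omega))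
  have hP3 : C₁ * (b + h ^ 103) / (κ * b / (2 * X.C)) ≤ p₀ / 4 := by
    rw [div_le_iff₀ (by positivity)]
    have e1 : C₁ * (b + h ^ 103) ≤ C₁ * (2 * b) := mul_le_mul_of_nonneg_left (by linarith) hC₁0.le
    have e2 : 16 * X.C * C₁ ≤ κ * p₀ := by
      rwa [div_le_iff₀ hp] at hκ1
    have e3 : p₀ / 4 * (κ * b / (2 * X.C)) = (κ * p₀) * b / (8 * X.C) := by
      field_simp
      ring
    rw [e3, le_div_iff₀ (by positivity)]
    have e4 : 16 * X.C * C₁ * b ≤ κ * p₀ * b := mul_le_mul_of_nonneg_right e2 (by linarith)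
    nlinarith
  have hincl : M.P (fun τ => ThE X i n (K * b) Y τ) ≤
      M.P (fun τ => ThL X i n (K * b) Y (κ * b) τ ∨
        (LkA X (X.rd n) (X.C * (4 * X.C + K * b)) (h ^ (D + 3)) (3 / 2 * n) (κ * b / (2 * X.C)) τ ∨
          ¬ LT μ (D + 10) h τ)) := by
    refine M.P_mono fun τ hτ hE => ?_
    by_cases hL : LT μ (D + 10) h τ
    · rcases hthe a τ ha hM.alt hτ hL i n (K * b) Y (κ * b) hn1 hn2 hKb hn3 hY hS hE with h2 | h2
      · exact Or.inl h2
      · exact Or.inr (Or.inl h2)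
    · exact Or.inr (Or.inr hL)
  have hor1 := M.P_or (fun τ => ThL X i n (K * b) Y (κ * b) τ) (fun τ =>
    LkA X (X.rd n) (X.C * (4 * X.C + K * b)) (h ^ (D + 3)) (3 / 2 * n) (κ * b / (2 * X.C)) τ ∨
      ¬ LT μ (D + 10) h τ)
  have hor2 := M.P_or (fun τ =>
    LkA X (X.rd n) (X.C * (4 * X.C + K * b)) (h ^ (D + 3)) (3 / 2 * n) (κ * b / (2 * X.C)) τ)
    (fun τ => ¬ LT μ (D + 10) h τ)
  linarith [hexp.1, hexp.2]

end Pool.Agent.W_1b8d5d_nd

end

/-! ### Thin2 -/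

section

/-!
MP_1b8d5d_pr, [ND], section 7 (thin lower tail): the copies.
-/

set_option autoImplicit false

namespace Pool.Agent.W_1b8d5d_nd

open Finset Filter Topology
open Pool.Agent.W_1b8d5d_h85 (Ex Pr Vr avg)

variable {d : ℕ} [NeZero d] {X : Vtx d} {μ : (Fin d → ℝ) → ℝ} {Q : Qn} {m : V d → ℝ}

private theorem Thin2_exp (d D : ℕ) :
    ∀ᶠ h : ℝ in atTop, (2 * h ^ (D + 2) + 1) ^ d * Real.exp (-(h / 3)) ≤ Real.exp (-(h / 4)) := by
  have h1 : Tendsto (fun h : ℝ => (h / 12) ^ ((D + 2) * d) * Real.exp (-(h / 12))) atTop (𝓝 0) :=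
    (Real.tendsto_pow_mul_exp_neg_atTop_nhds_zero _).comp (tendsto_id.atTop_div_const (by norm_num))
  have h2 : Tendsto (fun h : ℝ => (3 ^ d * 12 ^ ((D + 2) * d)) *
      ((h / 12) ^ ((D + 2) * d) * Real.exp (-(h / 12)))) atTop (𝓝 ((3 ^ d * 12 ^ ((D + 2) * d)) * 0)) :=
    h1.const_mul _
  rw [mul_zero] at h2
  filter_upwards [h2.eventually (gt_mem_nhds (zero_lt_one)), eventually_ge_atTop (1 : ℝ)] with h hh hh1
  have e1 : (2 * h ^ (D + 2) + 1) ^ d ≤ 3 ^ d * h ^ ((D + 2) * d) := by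
    rw [pow_mul, ← mul_pow]
    have : 1 ≤ h ^ (D + 2) := one_le_pow₀ hh1
    exact pow_le_pow_left₀ (by positivity) (by linarith) d
  have e2 : (3 : ℝ) ^ d * h ^ ((D + 2) * d) = (3 ^ d * 12 ^ ((D + 2) * d)) * (h / 12) ^ ((D + 2) * d) := by
    rw [div_pow]
    field_simp
  have e3 : Real.exp (-(h / 3)) = Real.exp (-(h / 12)) * Real.exp (-(h / 4)) := by
    rw [← Real.exp_add]
    congr 1
    ring
  rw [e3]
  calc (2 * h ^ (D + 2) + 1) ^ d * (Real.exp (-(h / 12)) * Real.exp (-(h / 4)))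
      ≤ (3 ^ d * h ^ ((D + 2) * d)) * (Real.exp (-(h / 12)) * Real.exp (-(h / 4))) :=
        mul_le_mul_of_nonneg_right e1 (by positivity)
    _ = ((3 ^ d * 12 ^ ((D + 2) * d)) * ((h / 12) ^ ((D + 2) * d) * Real.exp (-(h / 12)))) *
        Real.exp (-(h / 4)) := by
        rw [e2]
        ring
    _ ≤ 1 * Real.exp (-(h / 4)) := mul_le_mul_of_nonneg_right hh.le (Real.exp_pos _).le
    _ = Real.exp (-(h / 4)) := one_mul _

/-- The cheap balls are reached from every starting point. PROOF. `RC X i e D ε h (sh x τ)` for the at most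
`(2 h ^ (D + 2) + 1) ^ d` vertices `x` of the box (`box_card`), `P_sh`. -/
theorem P_RC_all (i : Fin X.N) (e : Fin d → ℝ) (D : ℕ) (ε : ℝ)
    (hR : ∀ᶠ h : ℝ in atTop, ∀ (a : ℝ) (M : Mdl d a h), GoodN Q m (2 * D + 200) M →
      M.P (fun τ => ¬ RC X i e D ε h τ) ≤ Real.exp (-(h / 3))) :
    ∀ᶠ h : ℝ in atTop, ∀ (a : ℝ) (M : Mdl d a h), GoodN Q m (2 * D + 200) M →
      M.P (fun τ => ¬ ∀ x : V d, nm x ≤ h ^ (D + 2) → RC X i e D ε h (sh x τ)) ≤ Real.exp (-(h / 4)) := by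
  filter_upwards [hR, Thin2_exp d D, eventually_ge_atTop (1 : ℝ)] with h hh hexp h1
  intro a M hM
  obtain ⟨S, hS, hcard⟩ := box_card (0 : V d) (h ^ (D + 2)) (by positivity)
  have k1 : M.P (fun τ => ¬ ∀ x : V d, nm x ≤ h ^ (D + 2) → RC X i e D ε h (sh x τ)) ≤
      M.P (fun τ => ∃ x ∈ S, ¬ RC X i e D ε h (sh x τ)) := by
    refine M.P_mono fun τ _ hτ => ?_
    push Not at hτ
    obtain ⟨x, hx, hx2⟩ := hτ
    exact ⟨x, hS x (by rwa [sub_zero]), hx2⟩
  refine k1.trans ((M.P_exists_le S fun x τ => ¬ RC X i e D ε h (sh x τ)).trans ?_)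
  have k2 : ∀ x ∈ S, M.P (fun τ => ¬ RC X i e D ε h (sh x τ)) ≤ Real.exp (-(h / 3)) := by
    intro x _
    rw [P_sh hM x fun τ => ¬ RC X i e D ε h τ]
    exact hh a M hM
  refine (sum_le_sum k2).trans ?_
  rw [sum_const, nsmul_eq_mul]
  exact (mul_le_mul_of_nonneg_right hcard (Real.exp_pos _).le).trans hexp

/-- A reached point, seen from `x`. PROOF. `T_res_sh`; the shifted region is contained in `Rg i (h ^ (D + 8) + nm x)`
(`ff i x ≥ 0`); `T_res_anti`. -/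
theorem RC_from {a h : ℝ} (ha : 0 < a) (hah : a ≤ h) {τ : Env d} (hτ : Bd a h τ) (i : Fin X.N) (e : Fin d → ℝ) (D : ℕ)
    (ε : ℝ) {x : V d} (hx : 0 ≤ X.ff i x) (hR : RC X i e D ε h (sh x τ)) {R : ℝ} {z : V d} (h1 : h ^ 101 ≤ R)
    (h2 : R ≤ h ^ (D + 5)) (h3 : rn (toR z - R • e) ≤ R) :
    T (res h (X.Rg i (h ^ (D + 8) + nm x)) τ) x (x + z) ≤ X.ff i z + ε * R := by
  have k1 := hR R z h1 h2 h3
  rw [T_res_sh, zero_add, add_comm z x] at k1
  refine (T_res_anti ha.le hah hτ ?_ _ _).trans k1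
  have key : ∀ q : V d, 0 ≤ X.ff i (q - x) ∧ nm (q - x) ≤ h ^ (D + 8) → 0 ≤ X.ff i q ∧ nm q ≤ h ^ (D + 8) + nm x := by
    rintro q ⟨q1, q2⟩
    have q3 := Vtx.ff_sub (X := X) i q x
    refine ⟨by linarith, ?_⟩
    have q4 := nm_add_le (q - x) x
    rw [sub_add_cancel] at q4
    linarith
  rintro ed ⟨e1, e2⟩
  have e2' : 0 ≤ X.ff i (ed.1 + dir ed.2 - x) ∧ nm (ed.1 + dir ed.2 - x) ≤ h ^ (D + 8) := by
    have e3 : ed.1 + dir ed.2 - x = ed.1 - x + dir ed.2 := by abel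
    rw [e3]
    exact e2
  exact ⟨key _ e1, key _ e2'⟩

/-- The level for the copies. -/
noncomputable def thN (X : Vtx d) (i : Fin X.N) (e : Fin d → ℝ) (n J : ℕ) (L : ℝ) : ℝ :=
  n + (J + 1) * L * dp (X.f i) e + L

private theorem Thin2_lane (X : Vtx d) (x u v : V d) (r W B s : ℝ) (τ : Env d) :
    Reach (X.lane 0 r W B) (sh x τ) u v s ↔ Reach (X.lane x r W B) τ (x + u) (x + v) s := by
  have h1 := Conf_reach_sh (X.lane 0 r W B) x u v s τ
  have h2 : {e : Edge d | (e.1 - x, e.2) ∈ X.lane 0 r W B} = X.lane x r W B := by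
    ext e
    exact (mem_lane_sh X x r W B e).symm
  rw [h2, add_comm u x, add_comm v x] at h1
  exact h1

private theorem Thin2_dC (hX : IsVtx X μ) : (d : ℝ) ≤ X.C := by
  have h1 := VtxL_AB hX
  obtain ⟨-, h2, -⟩ := VtxL_facts hX
  have h3 : (0 : ℝ) ≤ d := Nat.cast_nonneg d
  nlinarith

private theorem Thin2_sh0 (τ : Env d) : sh (0 : V d) τ = τ := by
  funext e
  show τ (e.1 + 0, e.2) = τ e
  rw [add_zero]

/-- One successful copy at `bp e (j L)` gives a fast passage to the level `thN`. PROOF. Write `a = bp e (j L)`,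
`f = dp (X.f i) e`, `x' = a + x`, `y' = a + y`. (1) `x'` is in the cheap ball of radius `j L`
(`rn (toR x' - (j L) • e) ≤ d + C (4 C + K b) ≤ L`): `T (res h Rg) 0 x' ≤ ff x' + ε j L` (`RC`, `sh 0 τ = τ`).
(2) The lane at `a` is in the region (`lane_sub_Rg`; `ff a ≥ L / (4 C ^ 2) - C`, `bp_ff`), `reach` shifted:
`T (res h Rg) x' y' ≤ ff (y' - x') - Y`.
(3) `ρ = (thN - ff y' + C) / f`: `|ff y' - j L f - n| ≤ 6 C + C K b` (`win_facts`, `bp_ff`), so `L ≤ ρ ≤ (J + 1) L + 2 L / f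
≤ (J + 1 + 8 C ^ 2) L` (`f ≥ rn e / (2 C) ≥ 1 / (4 C ^ 2)`); `z = y' + bp e ρ` has `thN ≤ ff z ≤ thN + 2 C`; `RC_from` at `y'`:
`T (res h (Rg i (h ^ (D + 8) + nm y'))) y' z ≤ ff (z - y') + ε ρ`.
(4) Sum: `T (res h (Rg i (h ^ (D + 8) + nm y'))) 0 z ≤ ff z - Y + ε (j L + ρ) ≤ thN - Y + ε (2 J + 9 C ^ 2) L =: s`
(`2 C ≤ ε L`; `T_triangle`, `T_res_anti`). `T_Rg_box`, then `UN_pass` (first claim; `s ≥ n / 2 ≥ h ^ 20`). -/
theorem thin_copy (hs : ∀ x, μ (-x) = μ x) (hX : IsVtx X μ) (D : ℕ) (hD : 1000 ≤ D) (i : Fin X.N) (ε K κ : ℝ)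
    (hε : 0 < ε) (hε1 : ε ≤ 1) (hK : 1 ≤ K) (hκ : 1 ≤ κ) (e : Fin d → ℝ) (he1 : 1 / (2 * X.C) ≤ rn e)
    (he2 : rn e ≤ 2 * X.C * dp (X.f i) e) (J : ℕ) :
    ∀ᶠ h : ℝ in atTop, ∀ (a : ℝ) (τ : Env d), 0 < a → a ≤ h → Bd a h τ → LT μ (D + 10) h τ →
      (∀ x : V d, nm x ≤ h ^ (D + 2) → RC X i e D ε h (sh x τ)) →
      ∀ (n j : ℕ) (b L Y : ℝ), h ^ (D - 1) ≤ n → (n : ℝ) ≤ h ^ D → h ^ 103 ≤ b → 0 ≤ Y → Y ≤ b →
        60 * X.C ^ 3 * (K + κ + 1) * b ≤ L → (J + 9 * X.C ^ 2) * (1 + rn e) * (1 + X.C) * L ≤ n / 10 → 1 ≤ j → j ≤ J →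
        ThL X i n (K * b) Y (κ * b) (sh (bp e (j * L)) τ) →
        X.UN i (h ^ (D + 8)) h (thN X i e n J L) τ ≤ thN X i e n J L - Y + ε * (2 * J + 9 * X.C ^ 2) * L := by
  have hC := one_le_C hX
  have hC0 : 0 < X.C := by linarith
  have hE := rn_nonneg e
  have hdC := Thin2_dC hX
  have hCC : 16 ≤ X.C ^ 2 := by nlinarith
  have hC3 : 16 * X.C ≤ X.C ^ 3 := by
    have := mul_le_mul_of_nonneg_left hCC hC0.le
    linarith [show X.C * X.C ^ 2 = X.C ^ 3 by ring]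
  have hC3' : 4 * X.C ^ 2 ≤ X.C ^ 3 := by
    have := mul_le_mul_of_nonneg_right hC (sq_nonneg X.C)
    linarith [show X.C * X.C ^ 2 = X.C ^ 3 by ring]
  have hCC2 : X.C ≤ X.C ^ 2 := by nlinarith
  filter_upwards [UN_pass hs hX (D + 6) (by omega) 1 one_pos, T_Rg_box hs hX (D + 6) (by omega),
    eventually_ge_atTop (max 10 (10 * X.C)), eventually_ge_atTop (2 / ε)] with h hP hBox h1' h2
  intro a τ ha hah hτ hLT hRC n j b L Y hn1 hn2 hb hY hYb hL hJL hj1 hj2 hT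
  have h10 : 10 ≤ h := (le_max_left _ _).trans h1'
  have hC10 : 10 * X.C ≤ h := (le_max_right _ _).trans h1'
  have h1 : 1 ≤ h := by linarith
  have h0 : 0 < h := by linarith
  -- sizes
  have hb1 : 1 ≤ b := (one_le_pow₀ h1).trans hb
  have hb0 : 0 < b := by linarith
  have hhb : h ≤ b := (le_self_pow₀ h1 (by norm_num)).trans hb
  have hL1 : 60 * X.C ^ 3 * b + 60 * X.C ^ 3 * (K * b) + 60 * X.C ^ 3 * (κ * b) ≤ L := by
    refine le_trans (le_of_eq ?_) hL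
    ring
  have hKb : 1 * b ≤ K * b := mul_le_mul_of_nonneg_right hK hb0.le
  have hκb : 1 * b ≤ κ * b := mul_le_mul_of_nonneg_right hκ hb0.le
  rw [one_mul] at hKb hκb
  have m1 : ∀ t : ℝ, 0 ≤ t → 16 * (X.C * t) ≤ X.C ^ 3 * t := fun t ht => by
    have := mul_le_mul_of_nonneg_right hC3 ht
    linarith
  have m2 : ∀ t : ℝ, 0 ≤ t → 4 * (X.C ^ 2 * t) ≤ X.C ^ 3 * t := fun t ht => by
    have := mul_le_mul_of_nonneg_right hC3' ht
    linarith
  have m3 : ∀ t : ℝ, 0 ≤ t → 4 * t ≤ X.C * t := fun t ht => mul_le_mul_of_nonneg_right hC ht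
  have hKb0 : 0 ≤ K * b := by positivity
  have hκb0 : 0 ≤ κ * b := by positivity
  have n1 := m1 b hb0.le
  have n2 := m1 (K * b) hKb0
  have n3 := m1 (κ * b) hκb0
  have n4 := m3 b hb0.le
  have n5 := m3 (K * b) hKb0
  have n6 := m3 (κ * b) hκb0
  have hCb : X.C ≤ X.C * b := le_mul_of_one_le_right hC0.le hb1
  have hbL : b ≤ L := by linarith
  have hL0 : 0 < L := by linarith
  have hj1' : (1 : ℝ) ≤ j := by exact_mod_cast hj1
  have hj2' : (j : ℝ) ≤ J := by exact_mod_cast hj2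
  have hLj : L ≤ j * L := le_mul_of_one_le_left hL0.le hj1'
  have hJLj : (j : ℝ) * L ≤ J * L := mul_le_mul_of_nonneg_right hj2' hL0.le
  -- the budget of the length
  have hJ0 : (0 : ℝ) ≤ J := Nat.cast_nonneg J
  have hn0 : (0 : ℝ) ≤ n := Nat.cast_nonneg n
  have hexpand : (J + 9 * X.C ^ 2) * (1 + rn e) * (1 + X.C) * L =
      J * L + rn e * (J * L) + X.C * (J * L) + X.C * rn e * (J * L) + 9 * (X.C ^ 2 * L) + 9 * (X.C ^ 2 * L * rn e) +
        9 * (X.C ^ 2 * X.C * L) + 9 * (X.C ^ 2 * X.C * rn e * L) := by ring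
  rw [hexpand] at hJL
  have p1 : 0 ≤ (J : ℝ) * L := by positivity
  have p2 : 0 ≤ rn e * (J * L) := by positivity
  have p3 : 0 ≤ X.C * (J * L) := by positivity
  have p4 : 0 ≤ X.C * rn e * (J * L) := by positivity
  have p5 : 0 ≤ X.C ^ 2 * L := by positivity
  have p6 : 0 ≤ X.C ^ 2 * L * rn e := by positivity
  have p7 : 0 ≤ X.C ^ 2 * X.C * L := by positivity
  have p8 : 0 ≤ X.C ^ 2 * X.C * rn e * L := by positivity
  have p9 : 16 * L ≤ X.C ^ 2 * L := mul_le_mul_of_nonneg_right hCC hL0.le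
  have hLn : L ≤ n / 10 := by linarith
  have hnD5 : (n : ℝ) ≤ h ^ (D + 5) := hn2.trans (pow_le_pow_right₀ h1 (by omega))
  have hL' : LT μ (D + 6 + 2) h τ := hLT.mono h1 (by omega)
  -- the powers
  have r0 : (0 : ℝ) < h ^ D := by positivity
  have r1 : ∀ t : ℝ, t ≤ 10 * X.C * n → t ≤ h ^ (D + 2) := by
    intro t ht
    have u1 : 10 * X.C * n ≤ h * h ^ D := mul_le_mul hC10 hn2 hn0 h0.le
    have u2 : h * h ^ D = h ^ (D + 1) := by ring
    have u3 : h ^ (D + 1) ≤ h ^ (D + 2) := pow_le_pow_right₀ h1 (by omega)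
    linarith
  have r2 : h ^ (D + 2) ≤ h ^ (D + 6) := pow_le_pow_right₀ h1 (by omega)
  have r3 : h ^ (D + 2) ≤ h ^ (D + 8) := pow_le_pow_right₀ h1 (by omega)
  have hCn : 4 * n ≤ X.C * n := mul_le_mul_of_nonneg_right hC hn0
  have h101 : h ^ 101 ≤ L := ((pow_le_pow_right₀ h1 (by norm_num)).trans hb).trans hbL
  have h16n : h ^ 16 ≤ n := (pow_le_pow_right₀ h1 (by omega)).trans hn1
  have h20n : h ^ 20 ≤ n := (pow_le_pow_right₀ h1 (by omega)).trans hn1
  -- constants against `L`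
  have hC2b : X.C ^ 2 ≤ X.C ^ 2 * b := le_mul_of_one_le_right (by positivity) hb1
  have n7 := m2 b hb0.le
  have n8 : 0 ≤ X.C ^ 3 * b := by positivity
  have n9 : 0 ≤ X.C ^ 3 * (K * b) := by positivity
  have n10 : 0 ≤ X.C ^ 3 * (κ * b) := by positivity
  -- the functional
  obtain ⟨f, hf⟩ : ∃ f : ℝ, f = dp (X.f i) e := ⟨_, rfl⟩
  have hf1 : 1 ≤ 4 * X.C ^ 2 * f := by
    rw [div_le_iff₀ (by positivity)] at he1
    rw [← hf] at he2
    have h3 : rn e * (2 * X.C) ≤ 2 * X.C * f * (2 * X.C) := mul_le_mul_of_nonneg_right he2 (by positivity)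
    have h4 : 2 * X.C * f * (2 * X.C) = 4 * X.C ^ 2 * f := by ring
    rw [h4] at h3
    exact he1.trans h3
  have hf0 : 0 < f := by
    by_contra hneg
    push Not at hneg
    have : 4 * X.C ^ 2 * f ≤ 0 := mul_nonpos_of_nonneg_of_nonpos (by positivity) hneg
    linarith
  have hf2 : f ≤ X.C * rn e := by
    rw [hf]
    refine (le_abs_self _).trans ((abs_dp_le _ _).trans ?_)
    have k1 := VtxL_rn_f X i
    have k2 := VtxL_B_le hX
    exact mul_le_mul_of_nonneg_right (by linarith) hE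
  -- the start of the lane
  obtain ⟨b1, b2, -, b4⟩ := bp_ff hX i he1 he2 (R := j * L) (by positivity)
  rw [← hf] at b2
  obtain ⟨x, hx, y, hy, hre⟩ := hT
  obtain ⟨w1, w2, w3, w4, -⟩ := win_facts hX i hKb0 hx hy
  obtain ⟨A, hA⟩ : ∃ A : V d, A = bp e (j * L) := ⟨_, rfl⟩
  have hnear := bp_near e ((j : ℝ) * L)
  rw [← hA] at b1 b2 b4 hre hnear
  have hrel : rn e * (j * L) ≤ rn e * (J * L) := mul_le_mul_of_nonneg_left hJLj hE
  -- (1)
  have hT1 : T (res h (X.Rg i (h ^ (D + 8))) τ) 0 (A + x) ≤ X.ff i (A + x) + ε * (j * L) := by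
    have k1 := hRC 0 (by rw [nm_zero]; positivity)
    rw [Thin2_sh0] at k1
    refine k1 (j * L) (A + x) (h101.trans hLj) ?_ ?_
    · linarith
    · have k2 : toR (A + x) - ((j : ℝ) * L) • e = (toR A - ((j : ℝ) * L) • e) + toR x := by
        rw [toR_add]
        abel
      rw [k2]
      refine (rn_add_le _ _).trans ?_
      rw [← nm_eq_rn]
      have k3 : X.C * (4 * X.C + K * b) = 4 * X.C ^ 2 + X.C * (K * b) := by ring
      rw [k3] at w1
      linarith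
  -- (2)
  have hffA : 14 * (X.C * b) + 15 * (X.C * (K * b)) + 15 * (X.C * (κ * b)) ≤ X.ff i A := by
    have k1 : (60 * X.C ^ 3 * b + 60 * X.C ^ 3 * (K * b) + 60 * X.C ^ 3 * (κ * b)) / (4 * X.C ^ 2) ≤
        (j * L) / (4 * X.C ^ 2) := div_le_div_of_nonneg_right (hL1.trans hLj) (by positivity)
    have k2 : (60 * X.C ^ 3 * b + 60 * X.C ^ 3 * (K * b) + 60 * X.C ^ 3 * (κ * b)) / (4 * X.C ^ 2) =
        15 * (X.C * b) + 15 * (X.C * (K * b)) + 15 * (X.C * (κ * b)) := by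
      field_simp
      ring
    linarith
  have hnmA : nm A ≤ n := by linarith
  have hT2 : T (res h (X.Rg i (h ^ (D + 8))) τ) (A + x) (A + y) ≤ X.ff i (y - x) - Y := by
    have k1 := (Thin2_lane X A x y n (κ * b) (κ * b) _ τ).1 hre
    have k2 : X.lane A n (κ * b) (κ * b) ⊆ X.Rg i (h ^ (D + 8)) := by
      refine lane_sub_Rg hX i A hn0 hκb0 hκb0 ?_ ?_
      · have : 0 ≤ X.C * b := by positivity
        linarith
      · refine (r1 _ ?_).trans r3
        have k3 : X.C * (n + κ * b + κ * b) = X.C * n + 2 * (X.C * (κ * b)) := by ring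
        rw [k3]
        have k4 : X.C * (κ * b) ≤ X.C * n := mul_le_mul_of_nonneg_left (by linarith) hC0.le
        linarith
    exact (T_res_anti ha.le hah hτ k2 _ _).trans (k1.T_res_le ha hah hτ)
  -- (3)
  have hffy : X.ff i (A + y) = X.ff i A + X.ff i y := Vtx.ff_add i A y
  obtain ⟨t, ht⟩ : ∃ t : ℝ, t = thN X i e n J L := ⟨_, rfl⟩
  have ht' : t = n + J * (L * f) + L * f + L := by
    rw [ht]
    unfold thN
    rw [← hf]
    ring
  rw [abs_le] at b2 w3 w4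
  have hLf : 0 < L * f := by positivity
  have hjf : (j : ℝ) * (L * f) ≤ J * (L * f) := mul_le_mul_of_nonneg_right hj2' hLf.le
  have hjf1 : L * f ≤ j * (L * f) := le_mul_of_one_le_left hLf.le hj1'
  have hjL : (j : ℝ) * L * f = j * (L * f) := by ring
  rw [hjL] at b2
  have hnum1 : L * f ≤ t - X.ff i (A + y) + X.C := by
    rw [ht', hffy]
    linarith [b2.2, w4.2]
  have hnum2 : t - X.ff i (A + y) + X.C ≤ J * (L * f) + 2 * L := by
    rw [ht', hffy]
    linarith [b2.1, w4.1]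
  obtain ⟨ρ, hρ⟩ : ∃ ρ : ℝ, ρ = (t - X.ff i (A + y) + X.C) / f := ⟨_, rfl⟩
  have hρf : ρ * f = t - X.ff i (A + y) + X.C := by
    rw [hρ]
    field_simp
  have hρ1 : L ≤ ρ := by
    rw [hρ, le_div_iff₀ hf0]
    exact hnum1
  have hρ2 : ρ ≤ J * L + 8 * (X.C ^ 2 * L) := by
    rw [hρ, div_le_iff₀ hf0]
    refine hnum2.trans ?_
    have k1 : 2 * L * 1 ≤ 2 * L * (4 * X.C ^ 2 * f) := mul_le_mul_of_nonneg_left hf1 (by positivity)
    have k2 : (J * L + 8 * (X.C ^ 2 * L)) * f = J * (L * f) + 2 * L * (4 * X.C ^ 2 * f) := by ring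
    rw [k2]
    linarith
  have hρ0 : 0 ≤ ρ := by linarith
  obtain ⟨-, c2, -, -⟩ := bp_ff hX i he1 he2 (R := ρ) hρ0
  rw [← hf, hρf, abs_le] at c2
  have hnmy : nm (A + y) ≤ h ^ (D + 2) := by
    refine r1 _ ?_
    have k1 := nm_add_le A y
    have k2 := nm_add_le (y - X.rd n) (X.rd n)
    rw [sub_add_cancel] at k2
    have k3 := nm_rd hX (n : ℝ)
    rw [abs_of_nonneg hn0] at k3
    have k4 : X.C * ((n : ℝ) + 1) = X.C * n + X.C := by ring
    have k5 : X.C * (4 * X.C + K * b) = 4 * X.C ^ 2 + X.C * (K * b) := by ring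
    rw [k4] at k3
    rw [k5] at w2
    linarith
  have hffy0 : 0 ≤ X.ff i (A + y) := by
    rw [hffy]
    linarith [b2.1, w4.1]
  have hT3 := RC_from ha hah hτ i e D ε hffy0 (hRC (A + y) hnmy) (R := ρ) (z := bp e ρ) (h101.trans hρ1)
    (by linarith) ((bp_near e ρ).trans (by linarith))
  -- (4)
  have hRg : X.Rg i (h ^ (D + 8)) ⊆ X.Rg i (h ^ (D + 8) + nm (A + y)) := by
    have hnn := nm_nonneg (A + y)
    rintro ed ⟨e1, e2⟩
    exact ⟨⟨e1.1, by linarith [e1.2]⟩, ⟨e2.1, by linarith [e2.2]⟩⟩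
  have hB := Bd_res hah hτ (X.Rg i (h ^ (D + 8) + nm (A + y)))
  have q1 := T_triangle hB ha.le 0 (A + x) (A + y + bp e ρ)
  have q2 := T_triangle hB ha.le (A + x) (A + y) (A + y + bp e ρ)
  have q3 := T_res_anti ha.le hah hτ hRg 0 (A + x)
  have q4 := T_res_anti ha.le hah hτ hRg (A + x) (A + y)
  have q5 := Vtx.ff_sub (X := X) i y x
  have q6 : X.ff i (A + x) = X.ff i A + X.ff i x := Vtx.ff_add i A x
  have hεL : 2 ≤ ε * L := by
    have k1 := h2
    rw [div_le_iff₀ hε] at k1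
    have k2 : h * ε ≤ L * ε := mul_le_mul_of_nonneg_right (hhb.trans hbL) hε.le
    linarith
  have hεC : 2 * X.C ≤ ε * (X.C ^ 2 * L) := by
    have k1 : 2 * X.C ^ 2 ≤ ε * L * X.C ^ 2 := mul_le_mul_of_nonneg_right hεL (by positivity)
    have k3 : ε * (X.C ^ 2 * L) = ε * L * X.C ^ 2 := by ring
    rw [k3]
    exact (mul_le_mul_of_nonneg_left hCC2 (by norm_num)).trans k1
  have hερ : ε * ρ ≤ ε * (J * L + 8 * (X.C ^ 2 * L)) := mul_le_mul_of_nonneg_left hρ2 hε.le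
  have hεj : ε * (j * L) ≤ ε * (J * L) := mul_le_mul_of_nonneg_left hJLj hε.le
  have hsum : ε * (2 * J + 9 * X.C ^ 2) * L = ε * (J * L) + ε * (J * L + 8 * (X.C ^ 2 * L)) + ε * (X.C ^ 2 * L) := by
    ring
  have hTT : T (res h (X.Rg i (h ^ (D + 8) + nm (A + y))) τ) 0 (A + y + bp e ρ) ≤
      t - Y + ε * (2 * J + 9 * X.C ^ 2) * L := by
    rw [hsum]
    linarith [c2.2]
  have hz1 : t ≤ X.ff i (A + y + bp e ρ) := by
    rw [Vtx.ff_add]
    linarith [c2.1]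
  have hεs : ε * (2 * J + 9 * X.C ^ 2) * L ≤ 2 * (J * L) + 9 * (X.C ^ 2 * L) := by
    have k1 : ε * (2 * J * L + 9 * X.C ^ 2 * L) ≤ 1 * (2 * J * L + 9 * X.C ^ 2 * L) :=
      mul_le_mul_of_nonneg_right hε1 (by positivity)
    linarith
  have hs0 : 0 ≤ ε * (2 * J + 9 * X.C ^ 2) * L := by positivity
  have hJf0 : 0 ≤ (J : ℝ) * (L * f) := by positivity
  have hJf : (J : ℝ) * (L * f) ≤ X.C * rn e * (J * L) := by
    have k1 : (J * L : ℝ) * f ≤ (J * L) * (X.C * rn e) := mul_le_mul_of_nonneg_left hf2 p1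
    linarith
  have hLf2 : L * f ≤ X.C ^ 2 * L * rn e := by
    have k1 : L * f ≤ L * (X.C * rn e) := mul_le_mul_of_nonneg_left hf2 hL0.le
    have k2 : X.C * (L * rn e) ≤ X.C ^ 2 * (L * rn e) :=
      mul_le_mul_of_nonneg_right hCC2 (by positivity)
    linarith
  obtain ⟨s, hsdef⟩ : ∃ s : ℝ, s = t - Y + ε * (2 * J + 9 * X.C ^ 2) * L := ⟨_, rfl⟩
  rw [← hsdef] at hTT
  have hs1 : (n : ℝ) ≤ s := by
    rw [hsdef, ht']
    linarith
  have hs2 : s ≤ 2 * n := by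
    rw [hsdef, ht']
    linarith
  have hCs : X.C * s ≤ X.C * (2 * n) := mul_le_mul_of_nonneg_left hs2 hC0.le
  have hsp : s ≤ h ^ (D + 6) := (r1 _ (by linarith)).trans r2
  have hbox := hBox a τ ha hah hτ hL' i (A + y + bp e ρ) s _ (h ^ (D + 8)) hsp (by
    refine (r1 _ ?_).trans r3
    have k1 : X.C * h ^ 16 ≤ X.C * n := mul_le_mul_of_nonneg_left h16n hC0.le
    have k2 : 2 * X.C * (s + h ^ 16) = 2 * (X.C * s) + 2 * (X.C * h ^ 16) := by ring
    rw [k2]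
    linarith) hTT
  have hfin := (hP a τ ha hah hτ hL' i (A + y + bp e ρ) s t (h ^ (D + 8)) (by linarith) hz1 (h20n.trans hs1) hsp (by
    refine (r1 _ ?_).trans r3
    linarith) hbox).1
  rw [← ht, ← hsdef]
  exact hfin

/-- The copies are independent. PROOF. `none_indep` for `j ∈ Finset.Icc 1 J`: `{ThL (sh (bp e (j L)) τ)}` depends on the lane
`X.lane (bp e (j L)) n S S` (`reach_sh`-like shift, `dependsOn_reach`), the lanes are disjoint (`lane_disjoint`, `bp_sep`: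
`L / 2 - C > 2 S`), near (`nm_of_mem_lane`); `P_sh`. -/
theorem thin_none {p : ℕ} {a h : ℝ} {M : Mdl d a h} (hM : GoodN Q m p M) (hX : IsVtx X μ) (i : Fin X.N) {e : Fin d → ℝ}
    (he : 1 / 2 ≤ rn (e - dp X.g e • X.v)) (n J : ℕ) (R Y S L r : ℝ) (hS : 0 ≤ S) (hL : 4 * S + 2 * X.C < L)
    (hbox : (rn e + 1) * (J * L) + X.C * (n + 2 * S + 1) ≤ h ^ (p + 100)) (hr : r ≤ M.P (fun τ => ThL X i n R Y S τ))
    (hr1 : r ≤ 1) :
    M.P (fun τ => ∀ j ∈ Finset.Icc 1 J, ¬ ThL X i n R Y S (sh (bp e (j * L)) τ)) ≤ (1 - r) ^ J := by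
  have hC := one_le_C hX
  have hC0 : 0 < X.C := by linarith
  have hL0 : 0 < L := by linarith
  have hcard : J = (Finset.Icc 1 J).card := by simp
  conv_rhs => rw [hcard]
  refine none_indep hM (Finset.Icc 1 J) (fun j => X.lane (bp e (j * L)) n S S) ?_ ?_
    (fun j τ => ThL X i n R Y S (sh (bp e (j * L)) τ)) ?_ r ?_ hr1
  · intro k hk l hl hkl
    refine lane_disjoint _ _ ?_
    have h1 := bp_sep hX he (k * L) (l * L)
    refine lt_of_lt_of_le ?_ h1
    have h2 : L ≤ |(k : ℝ) * L - l * L| := by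
      rw [← sub_mul, abs_mul, abs_of_pos hL0]
      have h4 : (1 : ℝ) ≤ |(k : ℝ) - l| := by
        have h5 : (1 : ℤ) ≤ |(k : ℤ) - l| := Int.one_le_abs (by omega)
        have h6 : ((1 : ℤ) : ℝ) ≤ ((|(k : ℤ) - l| : ℤ) : ℝ) := by exact_mod_cast h5
        push_cast at h6
        exact h6
      nlinarith
    linarith
  · intro k hk ed hed
    have h1 := nm_of_mem_lane hX (bp e (k * L)) (Nat.cast_nonneg n) hS hed
    refine h1.trans (le_trans ?_ hbox)
    have h2 : nm (bp e ((k : ℝ) * L)) ≤ rn e * (k * L) + X.C := by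
      rw [nm_eq_rn]
      have h3 := bp_near e ((k : ℝ) * L)
      have h4 : rn (toR (bp e ((k : ℝ) * L))) ≤
          rn (toR (bp e ((k : ℝ) * L)) - ((k : ℝ) * L) • e) + rn (((k : ℝ) * L) • e) := by
        calc rn (toR (bp e ((k : ℝ) * L)))
            = rn ((toR (bp e ((k : ℝ) * L)) - ((k : ℝ) * L) • e) + ((k : ℝ) * L) • e) := by rw [sub_add_cancel]
          _ ≤ _ := rn_add_le _ _
      rw [rn_smul, abs_of_nonneg (show 0 ≤ (k : ℝ) * L by positivity)] at h4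
      have h5 := Thin2_dC hX
      linarith
    have hkJ : (k : ℝ) ≤ J := by exact_mod_cast (Finset.mem_Icc.1 hk).2
    have h3 : (k : ℝ) * L ≤ J * L := mul_le_mul_of_nonneg_right hkJ hL0.le
    have h4 : rn e * (k * L) ≤ rn e * (J * L) := mul_le_mul_of_nonneg_left h3 (rn_nonneg e)
    have h5 : 0 ≤ (J : ℝ) * L := by positivity
    have h6 : X.C * (n + S + S) + X.C = X.C * (n + 2 * S + 1) := by ring
    linarith
  · intro k hk τ τ' hτ
    have h1 : ∀ x y : V d, ∀ s : ℝ, Reach (X.lane 0 n S S) (sh (bp e (k * L)) τ) x y s =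
        Reach (X.lane 0 n S S) (sh (bp e (k * L)) τ') x y s := by
      intro x y s
      rw [Thin2_lane X _ x y, Thin2_lane X _ x y]
      exact dependsOn_reach (X.lane (bp e (k * L)) n S S) _ _ s hτ
    change ThL X i n R Y S (sh (bp e (k * L)) τ) = ThL X i n R Y S (sh (bp e (k * L)) τ')
    unfold ThL
    simp only [h1]
  · intro k _
    rw [P_sh hM (bp e (k * L)) fun τ => ThL X i n R Y S τ]
    exact hr

end Pool.Agent.W_1b8d5d_nd

end

/-! ### UNMean -/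

section

/-!
MP_1b8d5d_pr, [ND], section 7: the mean of the first passage cost to a level.
-/

set_option autoImplicit false

namespace Pool.Agent.W_1b8d5d_nd

open Finset Filter Topology
open Pool.Agent.W_1b8d5d_h85 (Ex Pr Vr avg)

variable {d : ℕ} [NeZero d] {X : Vtx d} {μ : (Fin d → ℝ) → ℝ} {Q : Qn} {m : V d → ℝ}

private theorem UNMean_num (C d' : ℝ) (hC : 0 ≤ C) (hd : 0 ≤ d') : ∀ᶠ h : ℝ in atTop, ∀ (k : ℕ) (N : ℝ), 2 ≤ k →
    N ≤ h ^ k → C * (N + 1) + C ^ 2 + d' ≤ h ^ (k + 2) := by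
  filter_upwards [eventually_ge_atTop (max 4 (max C d'))] with h hh
  have h4 : 4 ≤ h := (le_max_left _ _).trans hh
  have hC' : C ≤ h := (le_max_left _ _).trans ((le_max_right _ _).trans hh)
  have hd' : d' ≤ h := (le_max_right _ _).trans ((le_max_right _ _).trans hh)
  intro k N hk hN
  have h1 : h ^ 2 ≤ h ^ k := pow_le_pow_right₀ (by linarith) hk
  have h2 : 1 ≤ h ^ k := one_le_pow₀ (by linarith)
  have h3 : C * (N + 1) ≤ h * (h ^ k + h ^ k) := by
    have h5 : C * (N + 1) ≤ C * (h ^ k + h ^ k) := mul_le_mul_of_nonneg_left (by linarith) hC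
    exact h5.trans (mul_le_mul_of_nonneg_right hC' (by linarith))
  have h5 : C ^ 2 ≤ h ^ 2 := pow_le_pow_left₀ hC hC' 2
  have h6 : h ≤ h ^ 2 := by nlinarith
  have h7 : h ^ (k + 2) = h * h * h ^ k := by ring
  have h8 : h ^ k * 4 ≤ h ^ k * h := mul_le_mul_of_nonneg_left h4 (by linarith)
  rw [h7]
  nlinarith

open Classical in
/-- A minimiser, by a fixed rule. -/
private noncomputable def UNMean_arg (S : Set (V d)) (F : V d → ℝ) : V d :=
  if h : ∃ q ∈ S, ∀ q' ∈ S, F q ≤ F q' then h.choose else 0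

private theorem UNMean_arg_spec {S : Set (V d)} (hS : S.Finite) (hne : S.Nonempty) (F : V d → ℝ) :
    UNMean_arg S F ∈ S ∧ ∀ q' ∈ S, F (UNMean_arg S F) ≤ F q' := by
  have h : ∃ q ∈ S, ∀ q' ∈ S, F q ≤ F q' := Set.exists_min_image S F hS hne
  have h1 : UNMean_arg S F = h.choose := by
    unfold UNMean_arg
    rw [dif_pos h]
  rw [h1]
  exact h.choose_spec

private theorem UNMean_res_eq {b : ℝ} {A : Set (Edge d)} {τ τ' : Env d} (h : ∀ e ∈ A, τ e = τ' e) :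
    res b A τ = res b A τ' := by
  funext e
  unfold res
  by_cases he : e ∈ A
  · rw [if_pos he, if_pos he, h e he]
  · rw [if_neg he, if_neg he]

private theorem UNMean_SN_Dn (i : Fin X.N) {H H' l : ℝ} {y : V d} (hH : H ≤ H') (hl : l ≤ X.ff i y) :
    X.SN i H l ⊆ Dn X i H' y := by
  rintro e ⟨⟨h1, h2⟩, h3⟩
  refine ⟨⟨?_, ?_⟩, h1.2.trans hH, ?_⟩
  · show X.ff i 0 ≤ X.ff i e.1
    rw [Vtx.ff_zero]
    exact h1.1
  · show X.ff i 0 ≤ X.ff i (e.1 + dir e.2)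
    rw [Vtx.ff_zero]
    exact h2.1
  · rintro ⟨h4, h5⟩
    have h4' : X.ff i y ≤ X.ff i e.1 := h4
    have h5' : X.ff i y ≤ X.ff i (e.1 + dir e.2) := h5
    rcases h3 with h3 | h3 <;> linarith

private theorem UNMean_SN_Up (i : Fin X.N) {H H' l : ℝ} (hH : H ≤ H') : X.SN i H l ⊆ Up X i H' := by
  rintro e ⟨⟨h1, h2⟩, h3⟩
  refine ⟨⟨?_, ?_⟩, h1.2.trans hH⟩
  · show X.ff i 0 ≤ X.ff i e.1
    rw [Vtx.ff_zero]
    exact h1.1
  · show X.ff i 0 ≤ X.ff i (e.1 + dir e.2)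
    rw [Vtx.ff_zero]
    exact h2.1

/-- The mean of the first passage cost. PROOF. `renewal` for `A = UN i H h N`, `H = h ^ (D + 8)`, and `Y τ` = a point of
`Lv i H N` (finite, `finite_Lv`, nonempty, `exists_Lv`) where `T (res h (SN i H N) τ) 0 q` is minimal, chosen as a function of
`res h (SN i H N) τ` (`Classical.choose`; `res_res`), so `{Y = y}` depends on `SN i H N`, and `SN i H N` is contained in
`Dn X i (h ^ (D + 10)) y` if `N ≤ ff i y` (and the event is empty otherwise). `ff i (Y τ) ≥ N`; `T τ 0 (Y τ) ≤ UN`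
(`T_le_res`); `A` depends on `SN i H N ⊆ Up X i (h ^ (D + 10))` (`dependsOn_UN`). -/
theorem UN_mean (hX : IsVtx X μ) (hmu : MuM μ m) (hN : HasN Q m) (D : ℕ) (hD : 1000 ≤ D) (i : Fin X.N) :
    ∀ᶠ h : ℝ in atTop, ∀ (a : ℝ) (M : Mdl d a h), GoodN Q m (2 * D + 200) M → ∀ N : ℝ, 0 < N → N ≤ h ^ (D + 2) →
      N - 1 ≤ M.E (fun τ => X.UN i (h ^ (D + 8)) h N τ) := by
  have hC := one_le_C hX
  have hC0 : 0 ≤ X.C := by linarith
  filter_upwards [eventually_ge_atTop 4, UNMean_num X.C d hC0 (Nat.cast_nonneg d), renewal hX hmu hN D hD i]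
    with h h4 hnum hren
  intro a M hM N hN0 hN1
  have h1 : (1 : ℝ) ≤ h := by linarith
  have ha := hM.apos
  obtain ⟨H, hHdef⟩ : ∃ H : ℝ, H = h ^ (D + 8) := ⟨_, rfl⟩
  rw [← hHdef]
  have hH10 : H ≤ h ^ (D + 10) := by
    rw [hHdef]
    exact pow_le_pow_right₀ h1 (by omega)
  have hsize : X.C * (N + 1) + X.C ^ 2 + d ≤ H :=
    (hnum (D + 2) N (by omega) hN1).trans (by rw [hHdef]; exact pow_le_pow_right₀ h1 (by omega))
  have hne : (X.Lv i H N).Nonempty := by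
    obtain ⟨q, h5, h6, h7⟩ := exists_Lv hX i hN0.le
    exact ⟨q, h5, h6, h7.trans hsize⟩
  obtain ⟨y, hy⟩ : ∃ y : Env d → V d, ∀ τ, y τ =
      UNMean_arg (X.Lv i H N) (fun q => T (res h (X.SN i H N) τ) 0 q) := ⟨_, fun _ => rfl⟩
  have hspec : ∀ τ, y τ ∈ X.Lv i H N ∧ ∀ q ∈ X.Lv i H N,
      T (res h (X.SN i H N) τ) 0 (y τ) ≤ T (res h (X.SN i H N) τ) 0 q := by
    intro τ
    rw [hy]
    exact UNMean_arg_spec (finite_Lv i H N) hne _
  have hyT : ∀ τ, T (res h (X.SN i H N) τ) 0 (y τ) ≤ X.UN i H h N τ := by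
    intro τ
    have := hne.to_subtype
    exact le_ciInf fun p => (hspec τ).2 p p.2
  have hmain := hren a M hM y (fun τ => X.UN i H h N τ)
    (fun τ => ⟨(hspec τ).1.2.2.trans hH10, hN0.le.trans (hspec τ).1.1⟩) (by
      intro v τ τ' hττ
      have key : ∀ τ τ' : Env d, (∀ e ∈ Dn X i (h ^ (D + 10)) v, τ e = τ' e) → y τ = v → y τ' = v := by
        intro τ τ' h5 h6
        have h7 : N ≤ X.ff i v := by
          rw [← h6]
          exact (hspec τ).1.1
        have h8 : res h (X.SN i H N) τ = res h (X.SN i H N) τ' :=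
          UNMean_res_eq fun e he => h5 e (UNMean_SN_Dn i hH10 h7 he)
        rw [hy, ← h8, ← hy]
        exact h6
      exact propext ⟨key τ τ' hττ, key τ' τ fun e he => (hττ e he).symm⟩) (by
      intro τ τ' hττ
      exact dependsOn_UN i H h N fun e he => hττ e (UNMean_SN_Up i hH10 he))
    (fun τ hτ => (T_le_res ha.le hτ _ 0 (y τ)).trans (hyT τ))
  have hE : N ≤ M.E (fun τ => X.ff i (y τ)) := by
    have h5 : M.E (fun _ => N) ≤ M.E (fun τ => X.ff i (y τ)) := M.E_mono fun τ _ => (hspec τ).1.1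
    rwa [M.E_const] at h5
  linarith

end Pool.Agent.W_1b8d5d_nd

end

/-! ### Thin3 -/

section

/-!
MP_1b8d5d_pr, [ND], section 7: the lower tail of the passage times between the windows is thin.
-/

set_option autoImplicit false

namespace Pool.Agent.W_1b8d5d_nd

open Finset Filter Topology
open Pool.Agent.W_1b8d5d_h85 (Ex Pr Vr avg)

variable {d : ℕ} [NeZero d] {X : Vtx d} {μ : (Fin d → ℝ) → ℝ} {Q : Qn} {m : V d → ℝ}

/-- The mean cannot be small on a large event. PROOF. Pointwise `U - N ≤ -y * 1_A + 1_{not A} * z + max (U - N - z) 0`; take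
expectations. -/
theorem mean_gap {a b : ℝ} (M : Mdl d a b) (U : Env d → ℝ) (A : Env d → Prop) (N y z q w : ℝ) (hy : 0 ≤ y) (hz : 0 ≤ z)
    (h1 : N - 1 ≤ M.E U) (hA : ∀ τ, Bd a b τ → A τ → U τ ≤ N - y) (hq : M.P (fun τ => ¬ A τ) ≤ q)
    (hw : M.E (fun τ => max (U τ - N - z) 0) ≤ w) : y ≤ 1 + (y + z) * q + w := by
  classical
  have hpt : ∀ τ, Bd a b τ → U τ ≤ ((N - y) + (y + z) * (if ¬ A τ then (1 : ℝ) else 0)) +
      max (U τ - N - z) 0 := by
    intro τ hτ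
    by_cases h : A τ
    · rw [if_neg (not_not.2 h)]
      have h2 := hA τ hτ h
      have h3 := le_max_right (U τ - N - z) 0
      linarith
    · rw [if_pos h]
      have h3 := le_max_left (U τ - N - z) 0
      linarith
  have h2 := M.E_mono hpt
  rw [M.E_add, M.E_add, M.E_const, M.E_mul_left] at h2
  have h3 : M.E (fun τ => if ¬ A τ then (1 : ℝ) else 0) = M.P (fun τ => ¬ A τ) := by
    rw [M.P_def]
    refine M.E_congr fun τ _ => ?_
    by_cases hh : ¬ A τ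
    · rw [if_pos hh, if_pos hh]
    · rw [if_neg hh, if_neg hh]
  rw [h3] at h2
  have h4 := mul_le_mul_of_nonneg_left hq (add_nonneg hy hz)
  linarith

private theorem Thin3_exp (k : ℕ) {ε : ℝ} (hε : 0 < ε) :
    ∀ᶠ h : ℝ in atTop, h ^ k * Real.exp (-(h / 4)) ≤ ε := by
  have h1 : Tendsto (fun h : ℝ => (h / 4) ^ k * Real.exp (-(h / 4))) atTop (𝓝 0) :=
    (Real.tendsto_pow_mul_exp_neg_atTop_nhds_zero k).comp (tendsto_id.atTop_div_const (by norm_num))
  have h2 : Tendsto (fun h : ℝ => 4 ^ k * ((h / 4) ^ k * Real.exp (-(h / 4)))) atTop (𝓝 (4 ^ k * 0)) :=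
    h1.const_mul _
  rw [mul_zero] at h2
  have h3 := h2.eventually (gt_mem_nhds hε)
  filter_upwards [h3] with h hh
  have h4 : h ^ k * Real.exp (-(h / 4)) = 4 ^ k * ((h / 4) ^ k * Real.exp (-(h / 4))) := by
    rw [div_pow]
    field_simp
  rw [h4]
  exact hh.le

omit [NeZero d] in
private theorem Thin3_dp (hX : IsVtx X μ) (i : Fin X.N) (e : Fin d → ℝ) :
    |dp (X.f i) e| ≤ X.C * rn e := by
  have h1 := abs_dp_le (X.f i) e
  have h2 : rn (X.f i) ≤ X.C := by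
    have hg := rn_nonneg X.g
    have hv := rn_nonneg X.v
    have hs : rn (X.f i) ≤ ∑ j, rn (X.f j) :=
      Finset.single_le_sum (f := fun j => rn (X.f j)) (fun j _ => rn_nonneg _) (Finset.mem_univ i)
    have hi := rn_nonneg (X.f i)
    have hc : 0 ≤ 1 / X.c := (div_pos one_pos hX.cpos).le
    have hd0 : (0 : ℝ) ≤ d := Nat.cast_nonneg d
    have e1 : 1 * rn (X.f i) ≤ 4 * (1 + (d : ℝ)) * (1 + rn X.g + ∑ j, rn (X.f j)) :=
      mul_le_mul (by linarith) (by linarith) hi (by linarith)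
    have e2 : rn (X.f i) * 1 ≤ 4 * (1 + (d : ℝ)) * (1 + rn X.g + ∑ j, rn (X.f j)) * (1 + rn X.v) :=
      mul_le_mul (by linarith) (by linarith) zero_le_one (by linarith)
    have e3 : rn (X.f i) * 1 ≤ 4 * (1 + (d : ℝ)) * (1 + rn X.g + ∑ j, rn (X.f j)) * (1 + rn X.v) *
        (1 + 1 / X.c) := mul_le_mul (by linarith) (by linarith) zero_le_one (by linarith)
    unfold Vtx.C
    linarith
  exact h1.trans (mul_le_mul_of_nonneg_right h2 (rn_nonneg e))

private theorem Thin3_C {C : ℝ} (h : 4 ≤ C) : 16 ≤ C ^ 2 ∧ 64 ≤ C ^ 3 ∧ C ≤ C ^ 3 := by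
  have h2 : 4 * 4 ≤ C * C := mul_le_mul h h (by norm_num) (by linarith only [h])
  have e2 : C ^ 2 = C * C := sq C
  have e3 : C ^ 3 = C * C * C := by ring
  have h3 : 16 * 4 ≤ C * C * C := mul_le_mul (by linarith only [h2]) h (by norm_num)
    (by linarith only [h2])
  have h4 : 1 * C ≤ C * C * C := mul_le_mul_of_nonneg_right (by linarith only [h2])
    (by linarith only [h])
  rw [e2, e3]
  exact ⟨by linarith only [h2], by linarith only [h3], by linarith only [h4]⟩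

/-- The thin lower tail for one functional. PROOF. Put `b = bb`, `p₁ = min p₀ 1 / 2`; suppose `P (ThE) > p₀`; `thin_loc` with
`p₁` (constant `κ`): `P (ThL) ≥ p₁`. `C₀` from `width_bb`. `J` with `(δ / 2 + 2 C₀) (1 - p₁) ^ J ≤ δ / 16`;
`lam = 60 C ^ 3 (K + κ + 1)`, `L = lam b`; `ε = min (δ / (4 (2 J + 9 C ^ 2) lam)) (1 / (4 C ^ 2))`, `e` from `reach_cheap` and
`cheap_center`. `A` = some copy `j ∈ [1, J]` holds, `LT μ (D + 10)` and `RC` from every start (`P_RC_all`). On `A`: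
`UN ≤ thN - δ b + δ b / 4 ≤ thN - δ b / 2` (`thin_copy` with `Y = δ b`, `δ ≤ 1` without loss of generality). `P (not A) ≤
(1 - p₁) ^ J + exp (-(h/4)) + exp (-(h/2))` (`thin_none`). `UN_mean`; `level_bound2` with `Z = W = C₀ b` and `ε = δ / (16 C₀)`:
`w = δ b / 16` (`thN ≤ 2 n` by `bb_small`). `mean_gap` with `y = δ b / 2`, `z = 2 C₀ b`, `q`: `δ b / 2 ≤ 1 + δ b / 16 + tiny +
δ b / 16`, a contradiction for `h` large since `b ≥ h ^ 104` (`bb_large`). (If `δ > 1` use the statement for `δ = 1`: the event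
decreases with `δ`.) -/
theorem thin_one (hd : 2 ≤ d) (hX : IsVtx X μ) (hmu : MuM μ m) (hN : HasN Q m) (D : ℕ) (hD : 1000 * (d + 2) ≤ D)
    (K δ p₀ : ℝ) (hK : 1 ≤ K) (hδ : 0 < δ) (hp : 0 < p₀) (i : Fin X.N) :
    ∀ᶠ h : ℝ in atTop, ∀ (a : ℝ) (M : Mdl d a h), GoodN Q m (2 * D + 200) M →
      ∀ n : ℕ, h ^ (D - 1) ≤ n → (n : ℝ) ≤ h ^ D →
        M.P (fun τ => ThE X i n (K * bb X m n) (δ * bb X m n) τ) ≤ p₀ := by
  have hD1 : 1000 ≤ D := by omega
  have hC := one_le_C hX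
  have hC0 : 0 < X.C := by linarith only [hC]
  obtain ⟨hCsq, hC3, hCC3⟩ := Thin3_C hC
  have hs : ∀ x, μ (-x) = μ x := mu_neg hmu hN
  obtain ⟨δ', hδd⟩ : ∃ δ' : ℝ, δ' = min δ 1 := ⟨_, rfl⟩
  have hδ1 : δ' ≤ 1 := by rw [hδd]; exact min_le_right _ _
  have hδδ : δ' ≤ δ := by rw [hδd]; exact min_le_left _ _
  have hδ0 : 0 < δ' := by rw [hδd]; exact lt_min hδ one_pos
  obtain ⟨p₁, hp₁⟩ : ∃ p₁ : ℝ, p₁ = min p₀ 1 / 2 := ⟨_, rfl⟩
  have hp0 : 0 < p₁ := by rw [hp₁]; exact half_pos (lt_min hp one_pos)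
  have hp1 : p₁ ≤ 1 / 2 := by
    rw [hp₁]
    have := min_le_right p₀ 1
    linarith only [this]
  have hp2 : 2 * p₁ ≤ p₀ := by
    rw [hp₁]
    have := min_le_left p₀ 1
    linarith only [this]
  obtain ⟨κ, hκ, hloc⟩ := thin_loc hd hX hmu hN D hD K p₁ hK hp0
  obtain ⟨C₀, hC₀, hwid⟩ := width_bb hd hX hmu hN D hD
  have hG0 : 0 < δ' / 2 + 2 * C₀ := by linarith only [hδ0, hC₀]
  obtain ⟨J, hJ⟩ : ∃ J : ℕ, (δ' / 2 + 2 * C₀) * (1 - p₁) ^ J ≤ δ' / 16 := by
    obtain ⟨J, hJ⟩ := exists_pow_lt_of_lt_one (show 0 < δ' / 16 / (δ' / 2 + 2 * C₀) from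
      div_pos (by linarith only [hδ0]) hG0) (show 1 - p₁ < 1 by linarith only [hp0])
    refine ⟨J, ?_⟩
    rw [lt_div_iff₀ hG0] at hJ
    linarith only [hJ]
  obtain ⟨lam, hlam⟩ : ∃ lam : ℝ, lam = 60 * X.C ^ 3 * (K + κ + 1) := ⟨_, rfl⟩
  have hlam0 : 0 < lam := by rw [hlam]; positivity
  have hJ0 : (0 : ℝ) ≤ J := Nat.cast_nonneg J
  obtain ⟨ε, hεd⟩ : ∃ ε : ℝ, ε = min (δ' / (4 * (2 * J + 9 * X.C ^ 2) * lam)) (1 / (4 * X.C ^ 2)) :=
    ⟨_, rfl⟩
  have hJC : 0 < 2 * (J : ℝ) + 9 * X.C ^ 2 := by linarith only [hJ0, hCsq]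
  have hε0 : 0 < ε := by rw [hεd]; exact lt_min (by positivity) (by positivity)
  have hε2 : ε ≤ 1 / (4 * X.C ^ 2) := by rw [hεd]; exact min_le_right _ _
  have hε3 : ε * (2 * J + 9 * X.C ^ 2) * lam ≤ δ' / 4 := by
    have h1 : ε ≤ δ' / (4 * (2 * J + 9 * X.C ^ 2) * lam) := by rw [hεd]; exact min_le_left _ _
    rw [le_div_iff₀ (by positivity)] at h1
    linarith only [h1]
  have hε1 : ε ≤ 1 := by
    refine hε2.trans ?_
    rw [div_le_one (by positivity)]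
    linarith only [hCsq]
  obtain ⟨e, he, hRC⟩ := reach_cheap hX hmu hN D hD1 i ε hε0
  obtain ⟨he0, he1, he2⟩ := cheap_center hd hs hX i hε2 he
  have hre : 0 ≤ rn e := rn_nonneg e
  have hdp0 : 0 ≤ dp (X.f i) e := by
    by_contra hcon
    push Not at hcon
    have h1 : 2 * X.C * dp (X.f i) e ≤ 0 := by
      have := mul_nonneg (show 0 ≤ 2 * X.C by linarith only [hC0]) (neg_nonneg.2 hcon.le)
      linarith only [this]
    have h2 : 0 < 1 / (2 * X.C) := by positivity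
    linarith only [h1, h2, he1, he2]
  have hdp1 : dp (X.f i) e ≤ X.C * rn e := (le_abs_self _).trans (Thin3_dp hX i e)
  obtain ⟨F, hF⟩ : ∃ F : ℝ, F = (J + 9 * X.C ^ 2) * (1 + rn e) * (1 + X.C) := ⟨_, rfl⟩
  have hF0 : 0 < F := by rw [hF]; positivity
  have hη1 : 0 < 1 / (10 * F * lam) := by positivity
  have hη2 : 0 < 1 / C₀ := by positivity
  filter_upwards [hloc, hwid, P_RC_all i e D ε hRC, LT_prob hmu hN (D + 10) (by omega),
    thin_copy hs hX D hD1 i ε K κ hε0 hε1 hK hκ e he1 he2 J, UN_mean hX hmu hN D hD1 i,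
    level_bound2 hd hX hmu hN D hD1 i (δ' / (16 * C₀)) (by positivity),
    bb_large hd hX hmu hN D hD1 104 (by norm_num) (by omega),
    bb_small hX hmu hN D hD1 (1 / (10 * F * lam)) hη1, bb_small hX hmu hN D hD1 (1 / C₀) hη2,
    Thin3_exp D (show 0 < 1 / (2 * (δ' / 2 + 2 * C₀)) by positivity),
    eventually_ge_atTop (4 * X.C), eventually_ge_atTop (8 / δ'), eventually_ge_atTop (2 : ℝ)]
    with h gloc gwid gRC gLT gcopy gmean glev glarge gsm1 gsm2 gexp gh1 gh2 gh3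
  intro a M hM n hn1 hn2
  by_contra hcon
  push Not at hcon
  have h1 : (1 : ℝ) ≤ h := by linarith only [gh3]
  obtain ⟨b, hb⟩ : ∃ b : ℝ, b = bb X m n := ⟨_, rfl⟩
  have hbl := glarge a M hM n hn1 hn2
  have hbs1 := gsm1 n hn1
  have hbs2 := gsm2 n hn1
  have hW := gwid a M hM n hn1 hn2
  have hloc1 := gloc a M hM n hn1 hn2 i (δ' * bb X m n) (mul_nonneg hδ0.le (by
    have := one_le_bb (X := X) m n
    linarith only [this]))
  rw [← hb] at hbl hbs1 hbs2 hW hloc1 hcon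
  have e104 : h ≤ h ^ 104 := le_self_pow₀ h1 (by norm_num)
  have eD1 : h ≤ h ^ (D - 1) := le_self_pow₀ h1 (by omega)
  have hb1 : 1 ≤ b := by linarith only [h1, e104, hbl]
  have hb0 : 0 < b := by linarith only [hb1]
  have hn0 : (0 : ℝ) < n := by linarith only [h1, eD1, hn1]
  obtain ⟨L, hL⟩ : ∃ L : ℝ, L = lam * b := ⟨_, rfl⟩
  have hL0 : 0 < L := by rw [hL]; positivity
  have hFL : F * L ≤ n / 10 := by
    have g1 : 1 / (10 * F * lam) * n = n / (10 * F * lam) := by ring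
    rw [g1, le_div_iff₀ (by positivity)] at hbs1
    rw [hL]
    linarith only [hbs1]
  have hCb : C₀ * b ≤ n := by
    have g1 : 1 / C₀ * n = n / C₀ := by ring
    rw [g1, le_div_iff₀ (by positivity)] at hbs2
    linarith only [hbs2]
  have hbn : b ≤ n := by
    have : b ≤ C₀ * b := le_mul_of_one_le_left hb0.le hC₀
    linarith only [this, hCb]
  -- the level
  obtain ⟨N, hNd⟩ : ∃ N : ℝ, N = thN X i e n J L := ⟨_, rfl⟩
  have hNeq : N = n + (J + 1) * L * dp (X.f i) e + L := by rw [hNd]; rfl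
  have hLn : L ≤ n / 10 := by
    have g1 : 1 ≤ F := by
      rw [hF]
      have g0 : 1 ≤ (J : ℝ) + 9 * X.C ^ 2 := by linarith only [hJ0, hCsq]
      have g2 : 1 * 1 ≤ (J + 9 * X.C ^ 2) * (1 + rn e) :=
        mul_le_mul g0 (by linarith only [hre]) zero_le_one (by linarith only [g0])
      have g3 : 1 * 1 ≤ (J + 9 * X.C ^ 2) * (1 + rn e) * (1 + X.C) :=
        mul_le_mul (by linarith only [g2]) (by linarith only [hC0]) zero_le_one
          (by linarith only [g2])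
      linarith only [g3]
    have g4 : L ≤ F * L := le_mul_of_one_le_left hL0.le g1
    linarith only [g4, hFL]
  have hNle : N ≤ 2 * n := by
    have g1 : (J + 1) * dp (X.f i) e ≤ F := by
      rw [hF]
      have g2 : dp (X.f i) e ≤ (1 + rn e) * (1 + X.C) := by
        have g0 : (1 + rn e) * (1 + X.C) = 1 + rn e + X.C + X.C * rn e := by ring
        rw [g0]
        linarith only [hdp1, hre, hC0]
      have g3 : ((J : ℝ) + 1) * dp (X.f i) e ≤ (J + 9 * X.C ^ 2) * ((1 + rn e) * (1 + X.C)) :=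
        mul_le_mul (by linarith only [hCsq]) g2 hdp0 (by linarith only [hJ0, hCsq])
      linarith only [g3]
    have g4 : (J + 1) * dp (X.f i) e * L ≤ F * L := mul_le_mul_of_nonneg_right g1 hL0.le
    rw [hNeq]
    linarith only [g4, hFL, hLn, hn0]
  have hNge : (n : ℝ) ≤ N := by
    have g1 : 0 ≤ (J + 1) * L * dp (X.f i) e := by positivity
    rw [hNeq]
    linarith only [g1, hL0]
  have hND : N ≤ h ^ (D + 2) := by
    have g1 : h ^ (D + 2) = h ^ D * h ^ 2 := pow_add _ _ _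
    have g2 : 2 ≤ h ^ 2 := gh3.trans (le_self_pow₀ h1 (by norm_num))
    have g3 : h ^ D * 2 ≤ h ^ D * h ^ 2 := mul_le_mul_of_nonneg_left g2 (by positivity)
    rw [g1]
    linarith only [g3, hNle, hn2]
  -- the probability of the localised event
  have hThE : p₀ < M.P (fun τ => ThE X i n (K * b) (δ' * b) τ) := by
    refine lt_of_lt_of_le hcon (M.P_mono fun τ _ hev => ?_)
    obtain ⟨x, hx, y, hy, hT⟩ := hev
    refine ⟨x, hx, y, hy, hT.trans ?_⟩
    have : δ' * b ≤ δ * b := mul_le_mul_of_nonneg_right hδδ hb0.le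
    linarith only [this]
  have hr : p₁ ≤ M.P (fun τ => ThL X i n (K * b) (δ' * b) (κ * b) τ) := by
    linarith only [hloc1, hThE, hp2]
  have hκ0 : 0 < κ := by linarith only [hκ]
  have hκL : 4 * (κ * b) + 2 * X.C < L := by
    rw [hL, hlam]
    have g1 : X.C ≤ X.C ^ 3 * b := hCC3.trans (le_mul_of_one_le_right (by positivity) hb1)
    have g2 : κ * b ≤ X.C ^ 3 * (κ * b) :=
      le_mul_of_one_le_left (by positivity) (by linarith only [hC3])
    have g3 : 0 < X.C ^ 3 * b := by positivity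
    have g4 : 0 ≤ X.C ^ 3 * (K * b) := by positivity
    have g5 : 60 * X.C ^ 3 * (K + κ + 1) * b =
        60 * (X.C ^ 3 * (K * b)) + 60 * (X.C ^ 3 * (κ * b)) + 60 * (X.C ^ 3 * b) := by ring
    have g6 : 0 ≤ κ * b := by positivity
    rw [g5]
    linarith only [g1, g2, g3, g4, g6]
  have hbox : (rn e + 1) * (J * L) + X.C * (n + 2 * (κ * b) + 1) ≤ h ^ (2 * D + 200 + 100) := by
    have g1 : (rn e + 1) * (J * L) ≤ n / 10 := by
      refine le_trans ?_ hFL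
      rw [hF]
      have g2 : (J : ℝ) * (1 + rn e) ≤ (J + 9 * X.C ^ 2) * (1 + rn e) * (1 + X.C) := by
        have g3 : (J : ℝ) * (1 + rn e) ≤ (J + 9 * X.C ^ 2) * (1 + rn e) :=
          mul_le_mul_of_nonneg_right (by linarith only [hCsq]) (by linarith only [hre])
        have g4 : (J + 9 * X.C ^ 2) * (1 + rn e) ≤ (J + 9 * X.C ^ 2) * (1 + rn e) * (1 + X.C) :=
          le_mul_of_one_le_right (by positivity) (by linarith only [hC0])
        linarith only [g3, g4]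
      have g5 := mul_le_mul_of_nonneg_right g2 hL0.le
      calc (rn e + 1) * (J * L) = (J : ℝ) * (1 + rn e) * L := by ring
        _ ≤ _ := g5
    have g2 : X.C * (n + 2 * (κ * b) + 1) ≤ X.C * (3 * n) := by
      refine mul_le_mul_of_nonneg_left ?_ hC0.le
      linarith only [hκL, hLn, hC, hn0]
    have g3 : 4 * X.C * n ≤ h * h ^ D := mul_le_mul gh1 hn2 hn0.le (by linarith only [h1])
    have g4 : h * h ^ D = h ^ (D + 1) := by ring
    have g5 : h ^ (D + 1) ≤ h ^ (2 * D + 200 + 100) := pow_le_pow_right₀ h1 (by omega)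
    have g6 : (n : ℝ) ≤ X.C * n := le_mul_of_one_le_left hn0.le (by linarith only [hC])
    linarith only [g1, g2, g3, g4, g5, g6, hn0]
  have hnone := thin_none hM hX i he0 n J (K * b) (δ' * b) (κ * b) L p₁ (by positivity) hκL hbox hr
    (by linarith only [hp1])
  -- the good event
  obtain ⟨A, hA⟩ : ∃ A : Env d → Prop, A = fun τ =>
      (∃ j ∈ Finset.Icc 1 J, ThL X i n (K * b) (δ' * b) (κ * b) (sh (bp e (j * L)) τ)) ∧
        LT μ (D + 10) h τ ∧ ∀ x : V d, nm x ≤ h ^ (D + 2) → RC X i e D ε h (sh x τ) := ⟨_, rfl⟩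
  have hAU : ∀ τ, Bd a h τ → A τ → X.UN i (h ^ (D + 8)) h N τ ≤ N - δ' * b / 2 := by
    intro τ hτ hAτ
    rw [hA] at hAτ
    obtain ⟨⟨j, hj, hTh⟩, hLT, hRC'⟩ := hAτ
    rw [Finset.mem_Icc] at hj
    have g1 := gcopy a τ hM.apos hM.alt hτ hLT hRC' n j b L (δ' * b) hn1 hn2
      ((pow_le_pow_right₀ h1 (by norm_num)).trans hbl) (by positivity)
      (mul_le_of_le_one_left hb0.le hδ1) (by rw [hL, hlam]) (by rw [← hF]; exact hFL) hj.1 hj.2 hTh
    rw [← hNd] at g1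
    have g2 : ε * (2 * J + 9 * X.C ^ 2) * L ≤ δ' / 4 * b := by
      rw [hL]
      have := mul_le_mul_of_nonneg_right hε3 hb0.le
      linarith only [this]
    have g3 : 0 < δ' * b := by positivity
    linarith only [g1, g2, g3]
  have hq : M.P (fun τ => ¬ A τ) ≤ (1 - p₁) ^ J + (Real.exp (-(h / 4)) + Real.exp (-(h / 4))) := by
    have g1 : M.P (fun τ => ¬ A τ) ≤ M.P (fun τ =>
        (∀ j ∈ Finset.Icc 1 J, ¬ ThL X i n (K * b) (δ' * b) (κ * b) (sh (bp e (j * L)) τ)) ∨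
        (¬ LT μ (D + 10) h τ ∨ ¬ ∀ x : V d, nm x ≤ h ^ (D + 2) → RC X i e D ε h (sh x τ))) := by
      refine M.P_mono fun τ _ hev => ?_
      rw [hA] at hev
      by_contra hno
      push Not at hno
      apply hev
      refine ⟨?_, hno.2.1, hno.2.2⟩
      exact hno.1
    have g2 := M.P_or (fun τ =>
        ∀ j ∈ Finset.Icc 1 J, ¬ ThL X i n (K * b) (δ' * b) (κ * b) (sh (bp e (j * L)) τ))
        (fun τ => ¬ LT μ (D + 10) h τ ∨ ¬ ∀ x : V d, nm x ≤ h ^ (D + 2) → RC X i e D ε h (sh x τ))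
    have g3 := M.P_or (fun τ => ¬ LT μ (D + 10) h τ)
      (fun τ => ¬ ∀ x : V d, nm x ≤ h ^ (D + 2) → RC X i e D ε h (sh x τ))
    have g4 := gLT a M (hM.mono h1 (by omega))
    have g5 := gRC a M hM
    have g6 : Real.exp (-(h / 2)) ≤ Real.exp (-(h / 4)) := Real.exp_le_exp.2 (by linarith only [h1])
    linarith only [g1, g2, g3, g4, g5, g6, hnone]
  have hN0 : 0 < N := by linarith only [hNge, hn0]
  have hNn : 2 ≤ N := by linarith only [hNge, hn1, eD1, gh3]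
  have hmean := gmean a M hM N hN0 hND
  have hw := glev a M hM n (C₀ * b) (C₀ * b) N hn2 (by positivity)
    (hCb.trans (hn2.trans (pow_le_pow_right₀ h1 (by omega))))
    (((pow_le_pow_right₀ h1 (by norm_num)).trans hbl).trans (le_mul_of_one_le_left hb0.le hC₀))
    (hCb.trans (hn2.trans (pow_le_pow_right₀ h1 (by omega)))) hW hNn hNle
  have hgap := mean_gap M (fun τ => X.UN i (h ^ (D + 8)) h N τ) A N (δ' * b / 2) (2 * (C₀ * b))
    _ _ (by positivity) (by positivity) hmean hAU hq hw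
  have e1 : (δ' * b / 2 + 2 * (C₀ * b)) * ((1 - p₁) ^ J + (Real.exp (-(h / 4)) + Real.exp (-(h / 4)))) =
      b * ((δ' / 2 + 2 * C₀) * (1 - p₁) ^ J) +
        2 * (δ' / 2 + 2 * C₀) * (b * Real.exp (-(h / 4))) := by ring
  have e2 : b * ((δ' / 2 + 2 * C₀) * (1 - p₁) ^ J) ≤ b * (δ' / 16) := mul_le_mul_of_nonneg_left hJ hb0.le
  have e3 : b * Real.exp (-(h / 4)) ≤ 1 / (2 * (δ' / 2 + 2 * C₀)) := by
    refine le_trans (mul_le_mul_of_nonneg_right (hbn.trans hn2) (Real.exp_pos _).le) gexp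
  have e4 : 2 * (δ' / 2 + 2 * C₀) * (b * Real.exp (-(h / 4))) ≤ 1 := by
    rw [le_div_iff₀ (by positivity)] at e3
    linarith only [e3]
  have e5 : δ' / (16 * C₀) * (C₀ * b) = δ' * b / 16 := by
    field_simp
  rw [e1, e5] at hgap
  have e6 : 8 ≤ δ' * b := by
    rw [div_le_iff₀ hδ0] at gh2
    have : δ' * h ≤ δ' * b := mul_le_mul_of_nonneg_left (by linarith only [e104, hbl]) hδ0.le
    linarith only [gh2, this]
  linarith only [hgap, e2, e4, e6]

/-- The thin lower tail. PROOF. `thin_one` for every `i` (finitely many), and for `max K 1`. -/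
theorem thin (hd : 2 ≤ d) (hX : IsVtx X μ) (hmu : MuM μ m) (hN : HasN Q m) (D : ℕ) (hD : 1000 * (d + 2) ≤ D)
    (K δ p₀ : ℝ) (hK : 0 < K) (hδ : 0 < δ) (hp : 0 < p₀) :
    ∀ᶠ h : ℝ in atTop, ∀ (a : ℝ) (M : Mdl d a h), GoodN Q m (2 * D + 200) M →
      ∀ n : ℕ, h ^ (D - 1) ≤ n → (n : ℝ) ≤ h ^ D → ∀ i : Fin X.N,
        M.P (fun τ => ∃ x ∈ X.Dw 0 (K * bb X m n), ∃ y ∈ X.Dw (X.rd n) (K * bb X m n),
          T τ x y ≤ X.ff i (y - x) - δ * bb X m n) ≤ p₀ := by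
  have hD1 : 1000 ≤ D := by omega
  filter_upwards [Filter.eventually_all.2 fun i =>
    thin_one hd hX hmu hN D hD (max K 1) δ p₀ (le_max_right _ _) hδ hp i] with h hh
  intro a M hM n hn1 hn2 i
  refine le_trans (M.P_mono fun τ _ hev => ?_) (hh i a M hM n hn1 hn2)
  obtain ⟨x, hx, y, hy, hT⟩ := hev
  have hb : K * bb X m n ≤ max K 1 * bb X m n :=
    mul_le_mul_of_nonneg_right (le_max_left _ _) (by
      have := one_le_bb (X := X) m n
      linarith)
  exact ⟨x, Dw_mono hb hx, y, Dw_mono hb hy, hT⟩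

end Pool.Agent.W_1b8d5d_nd

end

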